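import Pool.Agent.PMA.PubDefs
import Pool.Agent.NTS.Law
import Pool.Agent.NTS.Dict
import Pool.Agent.Tight.Curve

/-!
# (PM), the limit form: the polygons are symmetric (helper75)

**`pol_sym`** : `pmean n F` and `pmean n (F (- ·))` differ by at most `4 / size n`: the closed walk with the closing edge `a` read from
its second site on is, up to the sign, again a closed walk (`sh`, a bijection of `pol n`).
-/

set_option autoImplicit false

open MeasureTheory Filter Topology

open scoped Classical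

namespace Pool.Agent.PMA

open Res Pool.Agent.NTS.Res

namespace LimR

open NTSF (om)

/-! ### the third root of unity -/

lemma step_om (i : ℕ) (a : Fin 3) : step i a = (-1 : ℂ) ^ i * om ^ (a : ℕ) := by
  unfold step om
  rw [← Complex.exp_nat_mul]
  congr 2
  ring

lemma om_re : om.re = -1 / 2 := by
  have h := NTSF.step_re1 1 (by decide)
  rw [step_om] at h
  simp only [pow_one, Fin.isValue, Fin.val_one, neg_mul, one_mul, Complex.neg_re] at h
  linarith

lemma om_im : om.im * om.im = 3 / 4 := by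
  have h1 : om.re * om.re + om.im * om.im = 1 := by
    have h := Complex.normSq_apply om
    rw [Complex.normSq_eq_norm_sq, NTSF.om_norm] at h
    linarith
  rw [om_re] at h1
  linarith

lemma om_sq : om ^ 2 = -1 - om := by
  have h2 := om_im
  have h1 := om_re
  apply Complex.ext
  · rw [pow_two, Complex.mul_re, Complex.sub_re, Complex.neg_re, Complex.one_re, h1]
    linarith
  · rw [pow_two, Complex.mul_im, Complex.sub_im, Complex.neg_im, Complex.one_im, h1]
    ring

lemma step_even {i : ℕ} (h : Even i) (a : Fin 3) : step i a = om ^ (a : ℕ) := by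
  rw [step_om, h.neg_one_pow, one_mul]

lemma step_odd {i : ℕ} (h : ¬ Even i) (a : Fin 3) : step i a = - om ^ (a : ℕ) := by
  rw [step_om, (Nat.not_even_iff_odd.1 h).neg_one_pow, neg_one_mul]

lemma step_succ (i : ℕ) (a : Fin 3) : step (i + 1) a = - step i a := by
  rw [step_om, step_om, pow_succ]
  ring

lemma step_inj {i : ℕ} {a b : Fin 3} (h : step i a = step i b) : a = b := by
  have h0 : (-1 : ℂ) ^ i ≠ 0 := pow_ne_zero _ (by norm_num)
  rw [step_om, step_om] at h
  have h1 := mul_left_cancel₀ h0 h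
  have hr := om_re
  have hi : om.im ≠ 0 := by
    intro h2
    have := om_im
    rw [h2] at this
    norm_num at this
  have e1 : (om ^ 2).re = -1 / 2 := by
    rw [om_sq, Complex.sub_re, Complex.neg_re, Complex.one_re, hr]
    norm_num
  have e2 : (om ^ 2).im = - om.im := by
    rw [om_sq, Complex.sub_im, Complex.neg_im, Complex.one_im]
    ring
  have k1 := congrArg Complex.re h1
  have k2 := congrArg Complex.im h1
  fin_cases a <;> fin_cases b <;> first
    | rfl
    | (exfalso
       simp only [pow_zero, pow_one, Complex.one_re, Complex.one_im, hr, e1, e2] at k1 k2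
       first
         | (norm_num at k1; done)
         | (apply hi; linarith))

/-! ### the closing edge -/

/-- integer coordinates -/
lemma coord {n : ℕ} (s : Fin n → Fin 3) {k : ℕ} (hk : k ≤ n) : ∃ a b : ℤ, pos s k = a + b * om ∧
    (a + b) % 3 = if Even k then 0 else 1 := by
  induction k with
  | zero => exact ⟨0, 0, by rw [NTSF.pos_zero]; simp, by simp⟩
  | succ k ih =>
    obtain ⟨a, b, h1, h2⟩ := ih (by omega)
    rw [NTSF.pos_succ s k (by omega), h1]
    obtain ⟨c, hc⟩ : ∃ c, c = s ⟨k, by omega⟩ := ⟨_, rfl⟩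
    rw [← hc]
    by_cases he : Even k
    · rw [if_pos he] at h2
      have h3 : ¬ Even (k + 1) := by
        rw [Nat.even_add_one]
        exact not_not.2 he
      simp only [if_neg h3]
      rw [step_even he]
      fin_cases c
      · refine ⟨a + 1, b, ?_, by omega⟩
        simp
        ring
      · refine ⟨a, b + 1, ?_, by omega⟩
        simp
        ring
      · refine ⟨a - 1, b - 1, ?_, by omega⟩
        show (a : ℂ) + b * om + om ^ 2 = _
        rw [om_sq]
        push_cast
        ring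
    · rw [if_neg he] at h2
      have h3 : Even (k + 1) := Nat.even_add_one.2 he
      simp only [if_pos h3]
      rw [step_odd he]
      fin_cases c
      · refine ⟨a - 1, b, ?_, by omega⟩
        simp
        ring
      · refine ⟨a, b - 1, ?_, by omega⟩
        simp
        ring
      · refine ⟨a + 1, b + 1, ?_, by omega⟩
        show (a : ℂ) + b * om + - om ^ 2 = _
        rw [om_sq]
        push_cast
        ring

lemma normSq_coord (a b : ℤ) : Complex.normSq ((a : ℂ) + b * om) = ((a * a - a * b + b * b : ℤ) : ℝ) := by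
  have h1 := om_re
  have h2 := om_im
  rw [Complex.normSq_apply]
  have e1 : ((a : ℂ) + b * om).re = a - b / 2 := by
    rw [Complex.add_re, Complex.mul_re, h1]
    simp
    ring
  have e2 : ((a : ℂ) + b * om).im = b * om.im := by
    rw [Complex.add_im, Complex.mul_im]
    simp
  rw [e1, e2]
  push_cast
  have : (b : ℝ) * om.im * (b * om.im) = b * b * (om.im * om.im) := by ring
  rw [this, h2]
  ring

/-- **the closing edge** -/
lemma close {n : ℕ} (ho : Odd n) (s : Fin n → Fin 3) (h : ‖pos s n‖ = 1) : ∃ c : Fin 3, step n c = - pos s n := by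
  obtain ⟨a, b, h1, h2⟩ := coord s (le_refl n)
  have hne : ¬ Even n := Nat.not_even_iff_odd.2 ho
  rw [if_neg hne] at h2
  have h3 : a * a - a * b + b * b = 1 := by
    have h4 := normSq_coord a b
    rw [← h1, Complex.normSq_eq_norm_sq, h] at h4
    have h5 : ((a * a - a * b + b * b : ℤ) : ℝ) = ((1 : ℤ) : ℝ) := by
      rw [← h4]
      norm_num
    exact_mod_cast h5
  have b1 : b ≤ 1 := by nlinarith [sq_nonneg (2 * a - b), sq_nonneg (b - 1)]
  have b2 : -1 ≤ b := by nlinarith [sq_nonneg (2 * a - b), sq_nonneg (b + 1)]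
  have a1 : a ≤ 1 := by nlinarith [sq_nonneg (2 * b - a), sq_nonneg (a - 1)]
  have a2 : -1 ≤ a := by nlinarith [sq_nonneg (2 * b - a), sq_nonneg (a + 1)]
  have hcase : (a = 1 ∧ b = 0) ∨ (a = 0 ∧ b = 1) ∨ (a = -1 ∧ b = -1) := by
    interval_cases a <;> interval_cases b <;> simp_all
  rw [h1]
  rcases hcase with ⟨rfl, rfl⟩ | ⟨rfl, rfl⟩ | ⟨rfl, rfl⟩
  · refine ⟨0, ?_⟩
    rw [step_odd hne]
    simp
  · refine ⟨1, ?_⟩
    rw [step_odd hne]
    simp
  · refine ⟨2, ?_⟩
    rw [step_odd hne]
    show - om ^ 2 = _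
    rw [om_sq]
    push_cast
    ring

/-- the letter of the closing edge -/
noncomputable def cl {n : ℕ} (s : Fin n → Fin 3) : Fin 3 := if h : ∃ c : Fin 3, step n c = - pos s n then h.choose else 0

lemma cl_spec {n : ℕ} (ho : Odd n) {s : Fin n → Fin 3} (h : ‖pos s n‖ = 1) : step n (cl s) = - pos s n := by
  have h1 := close ho s h
  unfold cl
  rw [dif_pos h1]
  exact h1.choose_spec

/-! ### the shifted polygon -/

/-- the polygon read from the second site on -/
noncomputable def sh {n : ℕ} (s : Fin n → Fin 3) : Fin n → Fin 3 := fun i =>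
  if h : (i : ℕ) + 1 < n then s ⟨(i : ℕ) + 1, h⟩ else cl s

lemma pos_sh {n : ℕ} (s : Fin n → Fin 3) {k : ℕ} (hk : k < n) : pos (sh s) k = pos s 1 - pos s (k + 1) := by
  induction k with
  | zero => rw [NTSF.pos_zero, zero_add, sub_self]
  | succ k ih =>
    rw [NTSF.pos_succ (sh s) k (by omega), ih (by omega), NTSF.pos_succ s (k + 1) hk]
    have e : sh s ⟨k, by omega⟩ = s ⟨k + 1, hk⟩ := by
      unfold sh
      rw [dif_pos hk]
    rw [e, step_succ]
    ring

lemma pos_sh_last {n : ℕ} (ho : Odd n) {s : Fin n → Fin 3} (h : ‖pos s n‖ = 1) : pos (sh s) n = pos s 1 := by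
  obtain ⟨m, rfl⟩ : ∃ m, n = m + 1 := ⟨n - 1, by have := ho.pos; omega⟩
  rw [NTSF.pos_succ (sh s) m (Nat.lt_succ_self m), pos_sh s (Nat.lt_succ_self m)]
  have e : sh s ⟨m, Nat.lt_succ_self m⟩ = cl s := by
    unfold sh
    rw [dif_neg (by simp)]
  have h1 := cl_spec ho h
  rw [step_succ] at h1
  rw [e, neg_inj.1 h1]
  ring

lemma norm_p1 {n : ℕ} (hn : 1 ≤ n) (s : Fin n → Fin 3) : ‖pos s 1‖ = 1 := by
  have h := NTSF.pos_succ s 0 (by omega)
  rw [zero_add, NTSF.pos_zero, zero_add] at h
  rw [h, step_om, pow_zero, one_mul, norm_pow, NTSF.om_norm, one_pow]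

lemma norm_step' (i : ℕ) (a : Fin 3) : ‖step i a‖ = 1 := by
  rw [step_om, norm_mul, norm_pow, norm_neg, norm_one, one_pow, one_mul, norm_pow, NTSF.om_norm, one_pow]

lemma mem_pol {n : ℕ} {s : Fin n → Fin 3} : s ∈ pol n ↔ s ∈ saw n ∧ ‖pos s n‖ = 1 := Finset.mem_filter

lemma sh_mem {n : ℕ} (ho : Odd n) {s : Fin n → Fin 3} (hs : s ∈ pol n) : sh s ∈ pol n := by
  have hn : 1 ≤ n := ho.pos
  obtain ⟨h1, h2⟩ := mem_pol.1 hs
  have h3 := NTSF.mem_saw.1 h1
  have hz := NTSF.pos_zero s
  refine mem_pol.2 ⟨NTSF.mem_saw.2 fun j k hj hk e => ?_, by rw [pos_sh_last ho h2]; exact norm_p1 hn s⟩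
  rcases Nat.lt_or_ge j n with j1 | j1
  · rcases Nat.lt_or_ge k n with k1 | k1
    · rw [pos_sh s j1, pos_sh s k1] at e
      have := h3 (j + 1) (k + 1) (by omega) (by omega) (sub_right_inj.1 e)
      omega
    · have hk' : k = n := by omega
      rw [hk', pos_sh s j1, pos_sh_last ho h2] at e
      have h4 : pos s (j + 1) = pos s 0 := by
        rw [hz]
        exact sub_eq_self.1 e
      have := h3 (j + 1) 0 (by omega) (by omega) h4
      omega
  · have hj' : j = n := by omega
    rcases Nat.lt_or_ge k n with k1 | k1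
    · rw [hj', pos_sh s k1, pos_sh_last ho h2] at e
      have h4 : pos s (k + 1) = pos s 0 := by
        rw [hz]
        exact sub_eq_self.1 e.symm
      have := h3 (k + 1) 0 (by omega) (by omega) h4
      omega
    · omega

lemma sh_inj {n : ℕ} (ho : Odd n) {s t : Fin n → Fin 3} (hs : s ∈ pol n) (ht : t ∈ pol n) (h : sh s = sh t) : s = t := by
  have hn : 1 ≤ n := ho.pos
  have h1 : pos s 1 = pos t 1 := by
    rw [← pos_sh_last ho (mem_pol.1 hs).2, ← pos_sh_last ho (mem_pol.1 ht).2, h]
  have e0 : ∀ u : Fin n → Fin 3, pos u 1 = step 0 (u ⟨0, by omega⟩) := by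
    intro u
    have h := NTSF.pos_succ u 0 (by omega)
    rwa [zero_add, NTSF.pos_zero, zero_add] at h
  funext i
  obtain ⟨i, hi⟩ := i
  rcases Nat.eq_zero_or_pos i with h2 | h2
  · subst h2
    rw [e0, e0] at h1
    exact step_inj h1
  · obtain ⟨j, rfl⟩ : ∃ j, i = j + 1 := ⟨i - 1, by omega⟩
    have h3 := congrFun h ⟨j, by omega⟩
    unfold sh at h3
    rwa [dif_pos (show j + 1 < n from hi), dif_pos (show j + 1 < n from hi)] at h3

/-! ### the curves -/

lemma curve_sh {n : ℕ} (hn : 1 ≤ n) (ho : Odd n) {s : Fin n → Fin 3} (hs : s ∈ pol n) :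
    dist (curve (sh s)) (-curve s) ≤ 2 / size n := by
  have h2 := (mem_pol.1 hs).2
  have hs0 := NTSF.size_pos hn
  have hn0 : (0 : ℝ) < n := by exact_mod_cast hn
  -- the nodes
  have node : ∀ k, k ≤ n → ‖pos (sh s) k / size n + pos s k / size n‖ ≤ 2 / size n := by
    intro k hk
    rw [← add_div, norm_div, Complex.norm_real, Real.norm_of_nonneg hs0.le]
    refine div_le_div_of_nonneg_right ?_ hs0.le
    rcases Nat.lt_or_ge k n with h | h
    · rw [pos_sh s h, NTSF.pos_succ s k h]
      have e : pos s 1 - (pos s k + step k (s ⟨k, h⟩)) + pos s k = pos s 1 - step k (s ⟨k, h⟩) := by ring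
      rw [e]
      refine (norm_sub_le _ _).trans ?_
      rw [norm_p1 hn, norm_step']
      norm_num
    · have hk' : k = n := by omega
      rw [hk', pos_sh_last ho h2]
      refine (norm_add_le _ _).trans ?_
      rw [norm_p1 hn, h2]
      norm_num
  refine (ContinuousMap.dist_le (by positivity)).2 fun u => ?_
  rw [NTSF.curve_eq, NTSF.curve_eq]
  show dist (Tight.poly (fun k => pos (sh s) k / size n) n u) (-(Tight.poly (fun k => pos s k / size n) n u)) ≤ _
  rw [dist_eq_norm, sub_neg_eq_add]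
  obtain ⟨x, hx⟩ : ∃ x : ℝ, x = (u : ℝ) * n := ⟨_, rfl⟩
  have x0 : 0 ≤ x := by rw [hx]; exact mul_nonneg u.2.1 hn0.le
  have x1 : x ≤ n := by
    rw [hx]
    exact (mul_le_mul_of_nonneg_right u.2.2 hn0.le).trans (by rw [one_mul])
  obtain ⟨i, hi, i1, i2⟩ : ∃ i : ℕ, i < n ∧ (i : ℝ) ≤ x ∧ x ≤ i + 1 := by
    rcases Nat.lt_or_ge ⌊x⌋₊ n with h | h
    · exact ⟨⌊x⌋₊, h, Nat.floor_le x0, (Nat.lt_floor_add_one x).le⟩
    · refine ⟨n - 1, by omega, ?_, ?_⟩
      · have h3 : (n : ℝ) ≤ x := (Nat.cast_le.2 h).trans (Nat.floor_le x0)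
        have : ((n - 1 : ℕ) : ℝ) ≤ n := by exact_mod_cast Nat.sub_le n 1
        linarith
      · rw [Nat.cast_sub hn]
        push_cast
        linarith
  rw [Tight.poly_apply hi (by rw [← hx]; exact i1) (by rw [← hx]; exact i2),
    Tight.poly_apply hi (by rw [← hx]; exact i1) (by rw [← hx]; exact i2), ← hx]
  have n1 := node i hi.le
  have n2 := node (i + 1) hi
  obtain ⟨A, hA⟩ : ∃ A, A = pos (sh s) i / size n + pos s i / size n := ⟨_, rfl⟩
  obtain ⟨B, hB⟩ : ∃ B, B = pos (sh s) (i + 1) / size n + pos s (i + 1) / size n := ⟨_, rfl⟩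
  rw [← hA] at n1
  rw [← hB] at n2
  obtain ⟨t, ht⟩ : ∃ t : ℝ, t = x - i := ⟨_, rfl⟩
  have t0 : 0 ≤ t := by rw [ht]; linarith
  have t1 : t ≤ 1 := by rw [ht]; linarith
  have key : ‖(1 - t : ℂ) * A + t * B‖ ≤ 2 / size n := by
    refine (norm_add_le _ _).trans ?_
    rw [norm_mul, norm_mul, ← Complex.ofReal_one, ← Complex.ofReal_sub, Complex.norm_real, Complex.norm_real,
      Real.norm_of_nonneg (by linarith), Real.norm_of_nonneg t0]
    calc (1 - t) * ‖A‖ + t * ‖B‖ ≤ (1 - t) * (2 / size n) + t * (2 / size n) :=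
          add_le_add (mul_le_mul_of_nonneg_left n1 (by linarith)) (mul_le_mul_of_nonneg_left n2 t0)
      _ = 2 / size n := by ring
  refine le_of_eq_of_le ?_ key
  congr 1
  rw [hA, hB, ht]
  push_cast
  ring

end LimR

open LimR

/-- **the polygons are symmetric** -/
theorem pol_sym {n : ℕ} (hn : 3 ≤ n) (ho : Odd n) {F : C(unitInterval, ℂ) → ℝ} (hF : LipschitzWith 1 F) :
    |pmean n F - pmean n (fun γ => F (-γ))| ≤ 4 / size n := by
  have hn1 : 1 ≤ n := by omega
  have hs0 := NTSF.size_pos hn1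
  have himg : (pol n).image sh = pol n := by
    refine Finset.eq_of_subset_of_card_le (fun s hs => ?_) ?_
    · obtain ⟨t, ht, rfl⟩ := Finset.mem_image.1 hs
      exact sh_mem ho ht
    · rw [Finset.card_image_of_injOn fun s hs t ht h => sh_inj ho hs ht h]
  have hsum : ∑ s ∈ pol n, F (curve s) = ∑ s ∈ pol n, F (curve (sh s)) := by
    conv_lhs => rw [← himg]
    exact Finset.sum_image fun s hs t ht h => sh_inj ho hs ht h
  unfold pmean
  rw [hsum, ← sub_div, ← Finset.sum_sub_distrib, abs_div, Nat.abs_cast]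
  rcases Nat.eq_zero_or_pos (pol n).card with h0 | h0
  · rw [h0, Nat.cast_zero, div_zero]
    positivity
  · rw [div_le_iff₀ (by exact_mod_cast h0)]
    refine (Finset.abs_sum_le_sum_abs _ _).trans ((Finset.sum_le_sum (g := fun _ => 4 / size n) fun s hs => ?_).trans ?_)
    · have h1 := hF.dist_le_mul (curve (sh s)) (-curve s)
      rw [Real.dist_eq, NNReal.coe_one, one_mul] at h1
      refine h1.trans ((curve_sh hn1 ho hs).trans ?_)
      exact div_le_div_of_nonneg_right (by norm_num) hs0.le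
    · rw [Finset.sum_const, nsmul_eq_mul, mul_comm]

end Pool.Agent.PMA
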