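import Pool.Agent.PMA.Defs
import Pool.Agent.ARM.T2QF

/-!
# PM, row K7c (helper58): the two ends of a closed word leave the ball

`confP`: the closed words with a long confined start or end are rare. Two good factors outside of the ball (`two_cross`), all
their cuts give a root piece with at least `T` letters: moments of the root piece (`qPt`) and the double count `ExCs`.
-/

set_option autoImplicit false

namespace HexObs

namespace PMA

open Finset TS SDN HexObs.SIM NTA TIP ARM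

open TIP.Nf (cz mem_cz nc_cz rank_lt rank_sum card_rank cz_split in_mid in_app in_mono Dt NeW)

open _root_.HexObs.ARM.T2 TwoX

open scoped ENNReal

namespace CP

/-- two good ends of the middle part, at least T letters in the two other parts -/
def RhT (T b E : ℕ) (η : ℝ) (Y2 M Y1 : List Bool) : Prop :=
  M ∈ TwoG η E b ∧ Y2 ∈ En η E b ∧ Y1 ∈ ARM.St η E b ∧ T ≤ Y2.length + Y1.length

/-- the number of the decompositions -/
lemma tri_T {κ : ℝ} {C b T J E h : ℕ} {η : ℝ} {L P Z1 Z2 Z3 V W1 W2 W3 Y : List Bool} (hW : NeW)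
    (hd : ARM.T2.D2 κ C b L P Z1 Z2 Z3 V W1 W2 W3 Y) (hb : b ≠ 0) (hh : 1 ≤ h) (hη : η * Ub b ≤ (h : ℝ)) (hz : 4 * h ≤ nc Z2)
    (hw : 4 * h ≤ nc W2) (hE : 2 * C ≤ E) (hC : 2 * C ≤ 2 ^ J) (hP : In (2 ^ (b + J)) P) (hY : In (2 ^ (b + J)) Y)
    (hT : T ≤ P.length ∨ T ≤ Y.length) :
    h * h ≤ (tri (2 ^ (b + (J + 1))) (RhT T b E η) L).ncard := by
  obtain ⟨S1, hS1, hc1⟩ := card_ix hW hh hz
  obtain ⟨S2, hS2, hc2⟩ := card_ix hW hh hw
  have key : S1.card * S2.card ≤ (tri (2 ^ (b + (J + 1))) (RhT T b E η) L).ncard := by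
    refine tri_ge (p1 := fun c => P ++ (Z1 ++ Z2.take c)) (p2 := fun d => W2.drop d ++ (W3 ++ Y)) ?_ ?_ ?_
    · intro c hc c' hc' he
      have h1 := congrArg List.length he
      have h2 := (mem_cz.1 (hc1 c hc).1).1
      have h3 := (mem_cz.1 (hc1 c' hc').1).1
      simp only [List.length_append, List.length_take] at h1
      omega
    · intro c hc c' hc' he
      have h1 := congrArg List.length he
      have h2 := (mem_cz.1 (hc2 c hc).1).1
      have h3 := (mem_cz.1 (hc2 c' hc').1).1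
      simp only [List.length_append, List.length_drop] at h1
      omega
    · intro x hx d hdd
      obtain ⟨e1, e2, e3⟩ := hc1 x hx
      obtain ⟨f1, f2, f3⟩ := hc2 d hdd
      obtain ⟨g1, g2⟩ := hd.box (c := x) hC hP hY f1
      obtain ⟨i1, i2, i3, i4⟩ := hd.parts hW hb hη hz hw hE e1 e2 e3 f1 f2 f3
      refine ⟨g1, g2, _, i1, i2, i3, i4, ?_⟩
      simp only [List.length_append]
      rcases hT with hT | hT <;> omega
  rwa [hS1, hS2] at key

/-- closed words: the last letter -/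
lemma gf_last {N : ℕ} {A S : Set (List Bool)} (hN : 1 ≤ N) (hA : ∀ K ∈ A, K.length = N ∧ K.dropLast ∈ S) :
    gf A ≤ 2 * gf S := by
  classical
  obtain ⟨g, hg⟩ : ∃ g : A → (S × Bool), g = fun K : A =>
      ((⟨(K : List Bool).dropLast, (hA _ K.2).2⟩ : S), (K : List Bool).getLastD true) := ⟨_, rfl⟩
  have hne : ∀ K ∈ A, K ≠ [] := by
    rintro K hK rfl
    have := (hA _ hK).1
    simp at this
    omega
  have hsp : ∀ K ∈ A, K.dropLast ++ [K.getLastD true] = K := by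
    intro K hK
    have h1 := List.dropLast_append_getLast (hne K hK)
    rw [List.getLastD_eq_getLast?, List.getLast?_eq_some_getLast (hne K hK)]
    exact h1
  have hinj : Function.Injective g := by
    rintro ⟨K, hK⟩ ⟨K', hK'⟩ he
    rw [hg] at he
    simp only [Prod.mk.injEq, Subtype.mk.injEq] at he
    apply Subtype.ext
    show K = K'
    rw [← hsp K hK, ← hsp K' hK', he.1, he.2]
  have hx1 : ENNReal.ofReal xc ≤ 1 := by
    rw [ENNReal.ofReal_le_one]
    exact NTW.DirA.xc_lt.le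
  calc gf A = ∑' K : A, wE (K : List Bool) := rfl
    _ ≤ ∑' K : A, (fun p : S × Bool => wE (p.1 : List Bool)) (g K) := by
        refine ENNReal.tsum_le_tsum fun K => ?_
        rw [hg]
        show wE (K : List Bool) ≤ wE (K : List Bool).dropLast
        conv_lhs => rw [← hsp K K.2]
        rw [wE_append, wE_letter]
        exact (mul_le_mul' le_rfl hx1).trans (le_of_eq (mul_one _))
    _ ≤ ∑' p : S × Bool, wE (p.1 : List Bool) := ENNReal.tsum_comp_le_tsum_of_injective hinj _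
    _ = ∑' L : S, ∑' _ : Bool, wE (L : List Bool) := ENNReal.tsum_prod' (f := fun p : S × Bool => wE (p.1 : List Bool))
    _ = ∑' L : S, 2 * wE (L : List Bool) := by
        refine tsum_congr fun L => ?_
        rw [tsum_fintype]
        simp [two_mul]
    _ = _ := by
        rw [ENNReal.tsum_mul_left]
        rfl

lemma last_num {N : ℕ} (hN : 4 ≤ N) : ((N - 1 : ℕ) : ℝ) ^ (-(3 / 2) : ℝ) ≤ 4 * (N : ℝ) ^ (-(3 / 2) : ℝ) := by
  have h4 : (4 : ℝ) ≤ N := by exact_mod_cast hN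
  have hN1 : ((N - 1 : ℕ) : ℝ) = N - 1 := by
    rw [Nat.cast_sub (by omega)]
    simp
  have h7 : (N : ℝ) / 2 ≤ ((N - 1 : ℕ) : ℝ) := by rw [hN1]; linarith
  have h8 : ((N - 1 : ℕ) : ℝ) ^ (-(3 / 2) : ℝ) ≤ ((N : ℝ) / 2) ^ (-(3 / 2) : ℝ) :=
    Real.rpow_le_rpow_of_nonpos (by linarith) h7 (by norm_num)
  refine h8.trans ?_
  rw [Real.div_rpow (by linarith) (by norm_num), div_eq_mul_inv, mul_comm, ← Real.rpow_neg (by norm_num)]
  refine mul_le_mul_of_nonneg_right ?_ (by positivity)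
  calc (2 : ℝ) ^ (-(-(3 / 2 : ℝ))) ≤ (2 : ℝ) ^ (2 : ℝ) := Real.rpow_le_rpow_of_exponent_le (by norm_num) (by norm_num)
    _ = 4 := by norm_num

end CP

open CP

/-- the same for the words `C0 n` -/
theorem confC : ∀ ε : ℝ, 0 < ε → ∃ (lam : ℝ) (b0 : ℕ), 0 < lam ∧ ∀ w n T : ℕ, b0 ≤ w → 2 ^ b0 * ml w ≤ n →
    lam * ml w ≤ T → gf {L | L ∈ C0 n ∧ ((∀ i, i ≤ T → i ≤ n → dz L i ≤ 2 ^ (w + 1)) ∨
      ∀ i, n < i + T → i ≤ n → dz L i ≤ 2 ^ (w + 1))} ≤ ENNReal.ofReal (ε * (n : ℝ) ^ (-(3 / 2) : ℝ)) := by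
  intro ε hε
  obtain ⟨κ, hκ, C, -, hB⟩ := badRoot_all
  obtain ⟨D, hD, hT⟩ := t1
  obtain ⟨C1, hC1, hE⟩ := exCs_of tipF2s (κ / 8) (2 * C) 1 (by positivity)
  obtain ⟨K, hK, hF⟩ := final_num TPC.xLow (κ := κ / 8) (by positivity)
  obtain ⟨b2, hb2⟩ := exU hκ 8
  obtain ⟨b3, hb3⟩ := t2C 3 (ε / 3) (by positivity)
  obtain ⟨A, J0, b4, hA, hB⟩ := hB 1 5
  have hxc := xc_pos
  -- the scale
  obtain ⟨m1, hm1⟩ := pow_unbounded_of_one_lt (A / (ε / 3)) (one_lt_two (α := ℝ))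
  obtain ⟨m, hm⟩ : ∃ m, m = m1 + J0 + 2 * C := ⟨_, rfl⟩
  obtain ⟨J, hJ⟩ : ∃ J, J = m + 5 := ⟨_, rfl⟩
  have hAm : A * (1 / 2) ^ (1 * J) ≤ ε / 3 := by
    rw [div_lt_iff₀ (by positivity)] at hm1
    rw [one_mul, one_div, inv_pow, ← div_eq_mul_inv, div_le_iff₀ (by positivity)]
    have : (2 : ℝ) ^ m1 ≤ 2 ^ J := pow_le_pow_right₀ (by norm_num) (by omega)
    nlinarith
  have hCJ : 2 * C ≤ 2 ^ J := (show 2 * C ≤ J by omega).trans Nat.lt_two_pow_self.le
  obtain ⟨g, hg⟩ : ∃ g : ℝ, g = ε / 3 / (K * (C1 * D) * xc⁻¹ * 16 ^ J) := ⟨_, rfl⟩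
  have hg0 : 0 < g := by rw [hg]; positivity
  obtain ⟨Cq, b5, hCq, hq⟩ := qPt (κ / 8) (2 * C) (J + 1 + 2) 6 (by positivity)
  refine ⟨Cq / g, b2 + b3 + b4 + b5 + m + 1, by positivity, fun w n T hw hnw hTl => ?_⟩
  obtain ⟨b, hb⟩ : ∃ b, b = w - m := ⟨_, rfl⟩
  have hi : w = b + m := by omega
  have hb0 : b ≠ 0 := by omega
  have hbJ : w + 5 = b + J := by omega
  have hmw := ml_pos w
  have hmb := ml_pos b
  have hbw : ml b ≤ ml w := ml_le (by omega)
  have hn : 1 ≤ n := by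
    have h1 : (0 : ℝ) < n := lt_of_lt_of_le (by positivity) hnw
    exact_mod_cast h1
  have hν : (0 : ℝ) ≤ (n : ℝ) ^ (-(3 / 2) : ℝ) := by positivity
  obtain ⟨h, hh1, hh2, hh3⟩ := hh_of hκ (hb2 b (by omega))
  have hTb : Cq / g ≤ (T : ℝ) / ml b := by
    rw [le_div_iff₀ hmb]
    refine le_trans ?_ hTl
    exact mul_le_mul_of_nonneg_left hbw (by positivity)
  -- the inner bound
  have hin : ∀ M, ∑' p : {p : List Bool × List Bool | RhT T b (2 * C) (κ / 8) p.1 M p.2 ∧ In (2 ^ (b + J + 1)) p.1 ∧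
      In (2 ^ (b + J + 1)) p.2 ∧ p.1 ++ (M ++ p.2) ∈ C0 n}, wE (p : List Bool × List Bool).1 * wE (p : List Bool × List Bool).2 ≤
        ENNReal.ofReal (xc⁻¹ * (g * (Ub b / 4 ^ b))) * ENNReal.ofReal (ARM.wt n M.length (b + J)) := by
    intro M
    refine le_trans (root_in (n := n) (M := M)
      (Q := {W | W ∈ W2E (κ / 8) (2 * C) b (J + 1 + 2) ∧ T ≤ W.length})
      (X := ENNReal.ofReal (g * (Ub b / (4 ^ b * ml b)) / (1 + ((n + 1 - M.length : ℕ) : ℝ) / ml b) ^ 5)) ?_ ?_)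
      (root_num hg0.le (Nat.le_add_right b J))
    · rintro ⟨Y2, Y1⟩ ⟨⟨hM, h2, h1, h3⟩, i2, i1, h4⟩
      refine ⟨h4, fun β hβ => ⟨w2_of hb0 (twoG_ne hb0 hM) h2 h1 i2 i1 hβ, ?_⟩⟩
      simp only at h3 ⊢
      simp only [List.length_append, List.length_singleton]
      omega
    · intro z
      obtain ⟨y, hy⟩ : ∃ y, y = n + 1 - M.length := ⟨_, rfl⟩
      rw [← hy]
      by_cases hTy : T ≤ y
      · have hs : {t | t ∈ {W | W ∈ W2E (κ / 8) (2 * C) b (J + 1 + 2) ∧ T ≤ W.length} ∧ t.length = y ∧ TIW.en t = z} ⊆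
            {Q | Q ∈ W2E (κ / 8) (2 * C) b (J + 1 + 2) ∧ Q.length = y ∧ TIW.en Q = z} := fun t ht => ⟨ht.1.1, ht.2.1, ht.2.2⟩
        refine (gf_mono hs).trans ((hq b y z (by omega)).trans (ENNReal.ofReal_le_ofReal ?_))
        have hU := Ub_pos b
        have hy0 : (0 : ℝ) ≤ (y : ℝ) / ml b := by positivity
        have h5 : Cq / g ≤ 1 + (y : ℝ) / ml b := by
          have : (T : ℝ) / ml b ≤ (y : ℝ) / ml b := by
            have : (T : ℝ) ≤ y := by exact_mod_cast hTy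
            gcongr
          linarith
        have h6 : Cq ≤ g * (1 + (y : ℝ) / ml b) := by
          rw [div_le_iff₀ hg0] at h5
          linarith
        have h7 : (0 : ℝ) < 1 + (y : ℝ) / ml b := by linarith
        rw [div_le_div_iff₀ (by positivity) (by positivity)]
        calc Cq * (Ub b / (4 ^ b * ml b)) * (1 + (y : ℝ) / ml b) ^ 5
            ≤ g * (1 + (y : ℝ) / ml b) * (Ub b / (4 ^ b * ml b)) * (1 + (y : ℝ) / ml b) ^ 5 := by gcongr
          _ = g * (Ub b / (4 ^ b * ml b)) * (1 + (y : ℝ) / ml b) ^ 6 := by ring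
      · have he : {t | t ∈ {W | W ∈ W2E (κ / 8) (2 * C) b (J + 1 + 2) ∧ T ≤ W.length} ∧ t.length = y ∧ TIW.en t = z} = ∅ := by
          refine Set.eq_empty_of_forall_notMem fun t ht => hTy ?_
          have h1 := ht.1.2
          rwa [ht.2.1] at h1
        rw [he]
        unfold gf
        simp
  have h1 := hE D n (b + J) b hD.le (fun n' i _ _ => hT n' i) (Nat.le_add_right b J) (RhT T b (2 * C) (κ / 8))
    (ENNReal.ofReal (xc⁻¹ * (g * (Ub b / 4 ^ b)))) ((h : ℝ) * h) (fun Y2 M Y1 hr => hr.1) hin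
    (by have : (0 : ℝ) < h := by exact_mod_cast hh1
        positivity)
  have h2 := hF _ b J n h (C1 * D) (xc⁻¹ * g) hn (by positivity) (by positivity) hh2 (h1.trans (le_of_eq (by
    rw [mul_assoc xc⁻¹ g])))
  have h3 := hB n b J (2 ^ m) hn (by omega) (by omega) (by rw [hJ, pow_add])
  have h4 := hb3 n w (by omega) (le_trans (mul_le_mul_of_nonneg_right (pow_le_pow_right₀ (by norm_num) (by omega))
    hmw.le) hnw)
  have hsub : {L | L ∈ C0 n ∧ ((∀ i, i ≤ T → i ≤ n → dz L i ≤ 2 ^ (w + 1)) ∨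
      ∀ i, n < i + T → i ≤ n → dz L i ≤ 2 ^ (w + 1))} ⊆
      {L | L ∈ C0 n ∧ ∀ s, s ≤ L.length → dz L s ≤ 2 ^ (w + 3)} ∪ ({L | L ∈ C0 n ∧ BadR κ C b (2 ^ m) (2 ^ (b + J)) L} ∪
        {L | L ∈ C0 n ∧ (h : ℝ) * h ≤ ((tri (2 ^ (b + J + 1)) (RhT T b (2 * C) (κ / 8)) L).ncard : ℝ)}) := by
    rintro L ⟨hL, hq⟩
    by_cases hf : ∀ s, s ≤ L.length → dz L s ≤ 2 ^ (w + 3)
    · exact Or.inl ⟨hL, hf⟩
    right
    push Not at hf
    have hln := (c0_dz hL).2
    rcases two_cross (κ := κ) (C := C) hi hL hf with h5 | ⟨P, Z, V, W, Y, e1, hZ, hWz, hPi, hYi, hP1, hY1⟩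
    · left
      rw [hJ]
      exact ⟨hL, h5⟩
    · right
      refine ⟨hL, ?_⟩
      obtain ⟨Z1, Z2, Z3, rfl, hz⟩ := Zd_of hZ
      obtain ⟨W1, W2, W3, rfl, hw⟩ := Zd_of hWz
      have hd : ARM.T2.D2 κ C b L P Z1 Z2 Z3 V W1 W2 W3 Y := ⟨by rw [e1]; simp only [List.append_assoc], hz, hw⟩
      have hl : L.length = (P ++ ((Z1 ++ (Z2 ++ Z3)) ++ (V ++ (W1 ++ (W2 ++ W3))))).length + Y.length := by
        rw [e1]
        simp only [List.length_append]
        omega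
      have hlP : P.length ≤ (P ++ ((Z1 ++ (Z2 ++ Z3)) ++ (V ++ (W1 ++ (W2 ++ W3))))).length := by
        rw [List.length_append]
        omega
      have hTT : T ≤ P.length ∨ T ≤ Y.length := by
        rcases hq with hq | hq
        · left
          by_contra hcon
          exact absurd (hq P.length (by omega) (by omega)) (not_le.2 hP1)
        · right
          by_contra hcon
          exact absurd (hq _ (by omega) (by omega)) (not_le.2 hY1)
      rw [← hJ] at hPi hYi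
      have h6 := tri_T (E := 2 * C) TIP.neW hd hb0 hh1 hh2 (hh3 _ hz.n2) (hh3 _ hw.n2) le_rfl hCJ hPi hYi hTT
      rw [show b + J + 1 = b + (J + 1) by omega]
      exact_mod_cast h6
  refine (gf_mono hsub).trans ((gf_union_le _ _).trans ((add_le_add h4 ((gf_union_le _ _).trans (add_le_add h3 h2))).trans ?_))
  rw [← ENNReal.ofReal_add (by positivity) (by positivity), ← ENNReal.ofReal_add (by positivity) (by positivity)]
  refine ENNReal.ofReal_le_ofReal ?_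
  have h7 : K * (C1 * D) * (xc⁻¹ * g) * 16 ^ J = ε / 3 := by
    rw [hg]
    field_simp
  have h8 : A * (1 / 2) ^ (1 * J) * (n : ℝ) ^ (-(3 / 2) : ℝ) ≤ ε / 3 * (n : ℝ) ^ (-(3 / 2) : ℝ) :=
    mul_le_mul_of_nonneg_right hAm hν
  rw [h7]
  linarith

/-- **row K7c** -/
theorem confP : ConfP := by
  intro ε hε
  obtain ⟨lam, b0, hlam, h⟩ := confC (ε / 8) (by positivity)
  refine ⟨lam, b0 + 2, hlam, fun w N T hw hN hT _ => ?_⟩
  have hmw := ml_pos w
  have hm1 := one_le_ml w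
  have h4 : (4 : ℝ) ≤ N := by
    refine le_trans ?_ hN
    have : (1 : ℝ) ≤ 2 ^ b0 := one_le_pow₀ (by norm_num)
    rw [pow_add]
    nlinarith
  have h4' : 4 ≤ N := by exact_mod_cast h4
  have hN1 : ((N - 1 : ℕ) : ℝ) = N - 1 := by
    rw [Nat.cast_sub (by omega)]
    simp
  have hNn : 2 ^ b0 * ml w ≤ ((N - 1 : ℕ) : ℝ) := by
    rw [hN1]
    have h5 : (2 : ℝ) ^ (b0 + 2) * ml w = 4 * (2 ^ b0 * ml w) := by rw [pow_add]; ring
    rw [h5] at hN
    have : (0 : ℝ) < 2 ^ b0 * ml w := by positivity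
    linarith
  have h1 := h w (N - 1) T (by omega) hNn hT
  have hsub : ∀ K ∈ {K | K ∈ POL.Cy N ∧ ((∀ i, i ≤ T → TIW.hn (vx oo up K i) ≤ 2 ^ w) ∨
      ∀ i, N ≤ i + T → i ≤ N → TIW.hn (vx oo up K i) ≤ 2 ^ w)}, K.length = N ∧
      K.dropLast ∈ {L | L ∈ C0 (N - 1) ∧ ((∀ i, i ≤ T → i ≤ N - 1 → dz L i ≤ 2 ^ (w + 1)) ∨
      ∀ i, N - 1 < i + T → i ≤ N - 1 → dz L i ≤ 2 ^ (w + 1))} := by
    rintro K ⟨hK, hq⟩
    have hlen : K.length = N := hK.1
    have hne : K ≠ [] := by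
      rintro rfl
      simp at hlen
      omega
    have hsp := List.dropLast_append_getLast hne
    have hC : K.dropLast ∈ C0 (N - 1) := by
      refine ⟨K.getLast hne, ?_⟩
      rw [hsp, show N - 1 + 1 = N by omega]
      exact hK
    have hlL : K.dropLast.length = N - 1 := by rw [List.length_dropLast, hlen]
    refine ⟨hlen, hC, ?_⟩
    have h2w : (2 : ℤ) ^ (w + 1) = 2 ^ w + 2 ^ w := by rw [pow_succ]; ring
    have hv : ∀ i, i ≤ N - 1 → vx oo up K.dropLast i = vx oo up K i := by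
      intro i hi
      conv_rhs => rw [← hsp]
      rw [vx_append (by omega)]
    have hd0 := (c0_dz hC).1
    have hb : ∀ i, i ≤ N - 1 → TIW.hn (vx oo up K i) ≤ 2 ^ w → dz K.dropLast i ≤ 2 ^ (w + 1) := by
      intro i hi h5
      have k2 := dz_hn K.dropLast i 0
      have k3 : vx oo up K.dropLast 0 = 0 := rfl
      have h1w : (1 : ℤ) ≤ 2 ^ w := one_le_pow₀ (by norm_num)
      have h2w' : (2 : ℤ) ≤ 2 ^ w := by
        have : (2 : ℤ) ^ 1 ≤ 2 ^ w := pow_le_pow_right₀ (by norm_num) (by omega)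
        linarith
      rw [k3, sub_zero, hv i hi, hd0] at k2
      linarith
    rcases hq with hq | hq
    · exact Or.inl fun i hi hi' => hb i hi' (hq i hi)
    · exact Or.inr fun i hi hi' => hb i hi' (hq i (by omega) (by omega))
  refine (gf_last (by omega) hsub).trans ((mul_le_mul' le_rfl h1).trans ?_)
  have e2 : (2 : ℝ≥0∞) = ENNReal.ofReal 2 := by norm_num
  rw [e2, ← ENNReal.ofReal_mul (by norm_num)]
  refine ENNReal.ofReal_le_ofReal ?_
  have h6 := last_num h4'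
  have h9 : (0 : ℝ) ≤ (N : ℝ) ^ (-(3 / 2) : ℝ) := by positivity
  nlinarith

end PMA

end HexObs
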