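import Pool.Agent.PMA.SplW

/-!
# PM, row TrSt (helper70, after helper87's RMP/SplC, SplK): the number of the splittings of a closed word

**`cntSt`** (literal of helper41): a closed word has at most `C * Ub j ^ 2` splittings whose outer part has admissible tips of good
open words, if the good open words have the property `SN`.
-/

set_option autoImplicit false

namespace HexObs

namespace PMA

namespace SW

open Finset TS SDN HexObs.SIM NTA TIP ARM ARM.G3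

open scoped ENNReal

variable {E : ℕ → Pt} {r : ℕ} {D : ℤ} {k : ℕ} {p c : Pt} {w : List Bool} {N a b a' b' : ℕ}

/-! ### 1. The grid of the base points -/

/-- the rounded base point -/
def lab (k : ℕ) (P : Pt) : ℤ × ℤ := (P.1 / 2 ^ (k - 4), P.2 / 2 ^ (k - 4))

/-- the centre of the class -/
def cen (k : ℕ) (l : ℤ × ℤ) : Pt := (2 ^ (k - 4) * l.1, 2 ^ (k - 4) * l.2)

lemma cen_near (hk : 4 ≤ k) (P : Pt) : 2 * TIW.hn (cen k (lab k P) - P) ≤ 2 ^ k := by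
  have hm : (0 : ℤ) < 2 ^ (k - 4) := by positivity
  have e1 := Int.emod_add_mul_ediv P.1 (2 ^ (k - 4))
  have e2 := Int.emod_add_mul_ediv P.2 (2 ^ (k - 4))
  have f1 := Int.emod_nonneg P.1 hm.ne'
  have f2 := Int.emod_nonneg P.2 hm.ne'
  have f3 := Int.emod_lt_of_pos P.1 hm
  have f4 := Int.emod_lt_of_pos P.2 hm
  have e3 : cen k (lab k P) - P = (-(P.1 % 2 ^ (k - 4)), -(P.2 % 2 ^ (k - 4))) := by
    refine Prod.ext ?_ ?_
    · show 2 ^ (k - 4) * (P.1 / 2 ^ (k - 4)) - P.1 = -(P.1 % 2 ^ (k - 4))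
      linarith
    · show 2 ^ (k - 4) * (P.2 / 2 ^ (k - 4)) - P.2 = -(P.2 % 2 ^ (k - 4))
      linarith
  have e4 : (2 : ℤ) ^ k = 16 * 2 ^ (k - 4) := by
    have h1 : k = (k - 4) + 4 := by omega
    conv_lhs => rw [h1, pow_add]
    ring
  have h5 : TIW.hn (cen k (lab k P) - P) ≤ 6 * 2 ^ (k - 4) := by
    rw [e3]
    refine TIW.hn_le fun d hd => ?_
    have h7 := dir_bound hd
    unfold ip
    nlinarith [h7.1, h7.2.1, h7.2.2.1, h7.2.2.2]
  rw [e4]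
  linarith

/-- the classes of the base points near v -/
noncomputable def Lb (k B : ℕ) (v : Pt) : Finset (ℤ × ℤ) :=
  Icc ((v.1 - 2 * B) / 2 ^ (k - 4)) ((v.1 + 2 * B) / 2 ^ (k - 4)) ×ˢ
    Icc ((v.2 - 2 * B) / 2 ^ (k - 4)) ((v.2 + 2 * B) / 2 ^ (k - 4))

lemma mem_Lb {B : ℕ} {v P : Pt} (h : TIW.hn (v - P) ≤ B) : lab k P ∈ Lb k B v := by
  have h1 := mem_bx h
  unfold bx at h1
  rw [mem_product, mem_Icc, mem_Icc] at h1
  obtain ⟨⟨h2, h3⟩, h4, h5⟩ := h1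
  have a1 : (v - P).1 = v.1 - P.1 := rfl
  have a2 : (v - P).2 = v.2 - P.2 := rfl
  rw [a1] at h2 h3
  rw [a2] at h4 h5
  have hm : (0 : ℤ) ≤ 2 ^ (k - 4) := by positivity
  unfold Lb lab
  rw [mem_product, mem_Icc, mem_Icc]
  exact ⟨⟨Int.ediv_le_ediv (by positivity) (by linarith), Int.ediv_le_ediv (by positivity) (by linarith)⟩,
    Int.ediv_le_ediv (by positivity) (by linarith), Int.ediv_le_ediv (by positivity) (by linarith)⟩

lemma card_side (hk : 4 ≤ k) {K : ℕ} (u : ℤ) :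
    (Icc ((u - 2 * ((K * 2 ^ k : ℕ) : ℤ)) / 2 ^ (k - 4)) ((u + 2 * ((K * 2 ^ k : ℕ) : ℤ)) / 2 ^ (k - 4))).card = 64 * K + 1 := by
  have e4 : (2 : ℤ) ^ k = 16 * 2 ^ (k - 4) := by
    have h1 : k = (k - 4) + 4 := by omega
    conv_lhs => rw [h1, pow_add]
    ring
  have hm : (2 : ℤ) ^ (k - 4) ≠ 0 := by positivity
  have e5 : u - 2 * ((K * 2 ^ k : ℕ) : ℤ) = u + (-(32 * K)) * 2 ^ (k - 4) := by
    push_cast
    rw [e4]
    ring
  have e6 : u + 2 * ((K * 2 ^ k : ℕ) : ℤ) = u + (32 * K) * 2 ^ (k - 4) := by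
    push_cast
    rw [e4]
    ring
  rw [e5, e6, Int.add_mul_ediv_right _ _ hm, Int.add_mul_ediv_right _ _ hm, Int.card_Icc]
  have e7 : u / 2 ^ (k - 4) + 32 * (K : ℤ) + 1 - (u / 2 ^ (k - 4) + -(32 * (K : ℤ))) = ((64 * K + 1 : ℕ) : ℤ) := by
    push_cast
    ring
  rw [e7, Int.toNat_natCast]

lemma card_Lb (hk : 4 ≤ k) (K : ℕ) (v : Pt) : (Lb k (K * 2 ^ k) v).card = (64 * K + 1) ^ 2 := by
  unfold Lb
  rw [card_product, card_side hk, card_side hk, sq]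

/-- the size of the path -/
lemma ns_pos (hE : IPg E r) (hD : 0 ≤ D) {j : ℕ} (hj : j < r) {y : Pt} {v : ℤ} (h : AR.NS (qv E D r j) (E j) D v y) :
    TIW.hn y ≤ 2 * (r + 1) * D + v := by
  obtain ⟨t, h1, h2, h3⟩ := h
  have hd2 : ∀ d ∈ dirs, TIW.hn d ≤ 2 := by decide
  have hps : ∀ a b : ℕ, a ≤ b → b ≤ r → TIW.hn (AR.ps E b - AR.ps E a) ≤ 2 * (b - a : ℕ) := by
    intro a b hab
    induction b, hab using Nat.le_induction with
    | base =>
      intro _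
      rw [sub_self, Nat.sub_self]
      decide
    | succ b hb ih =>
      intro hbr
      have e1 : AR.ps E (b + 1) - AR.ps E a = (AR.ps E b - AR.ps E a) + E b := by
        rw [AR.ps_succ]
        abel
      rw [e1, Nat.succ_sub hb]
      push_cast
      have h4 := ih (by omega)
      have h5 := hd2 _ (hE.dir b (by omega))
      linarith [TIW.hn_add (AR.ps E b - AR.ps E a) (E b)]
  have hsm : ∀ (t : ℤ) (v : Pt), 0 ≤ t → TIW.hn (t • v) ≤ t * TIW.hn v := by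
    intro t v ht
    refine TIW.hn_le fun d hd => ?_
    rw [AR.ip_smul]
    exact mul_le_mul_of_nonneg_left (TIW.ip_le_hn v hd) ht
  have e1 : y = (y - (qv E D r j + t • E j)) + (qv E D r j + t • E j) := by abel
  have h6 : TIW.hn (qv E D r j) ≤ D * (2 * (r - j : ℕ)) := by
    unfold qv
    have e2 : D • (AR.ps E j - AR.ps E r) = -(D • (AR.ps E r - AR.ps E j)) := by
      rw [← smul_neg]
      congr 1
      abel
    rw [e2, TIW.hn_neg]
    exact (hsm D _ hD).trans (mul_le_mul_of_nonneg_left (hps j r hj.le le_rfl) hD)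
  have h7 : TIW.hn (t • E j) ≤ D * 2 := by
    refine (hsm t _ h1).trans ?_
    have h8 := hd2 _ (hE.dir j hj)
    have h9 := TIW.hn_nonneg (E j)
    nlinarith
  have h10 : D * (2 * ((r - j : ℕ) : ℤ)) ≤ D * (2 * r) := by
    refine mul_le_mul_of_nonneg_left ?_ hD
    have : ((r - j : ℕ) : ℤ) ≤ r := by exact_mod_cast Nat.sub_le r j
    linarith
  have h11 := TIW.hn_add (y - (qv E D r j + t • E j)) (qv E D r j + t • E j)
  rw [← e1] at h11
  have h12 := TIW.hn_add (qv E D r j) (t • E j)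
  linarith

lemma size_le {H Mx : ℕ} (hrM : r ≤ Mx) (hD0 : 0 ≤ D) (hD : D ≤ 36 * (H * 2 ^ k)) :
    2 * ((r : ℤ) + 1) * D + 2 ^ (k + 10) ≤ (((2 * (Mx + 1) * (36 * H) + 1024) * 2 ^ k : ℕ) : ℤ) := by
  push_cast
  have g1 : (2 : ℤ) ^ (k + 10) = 1024 * 2 ^ k := by ring
  rw [g1]
  have g2 : (r : ℤ) ≤ Mx := by exact_mod_cast hrM
  have g4 : 2 * ((r : ℤ) + 1) * D ≤ 2 * ((Mx : ℤ) + 1) * D := by
    refine mul_le_mul_of_nonneg_right ?_ hD0
    linarith
  have g5 : 2 * ((Mx : ℤ) + 1) * D ≤ 2 * ((Mx : ℤ) + 1) * (36 * (H * 2 ^ k)) := by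
    refine mul_le_mul_of_nonneg_left hD (by positivity)
  have g6 : (2 * ((Mx : ℤ) + 1) * (36 * H) + 1024) * 2 ^ k = 2 * ((Mx : ℤ) + 1) * (36 * (H * 2 ^ k)) + 1024 * 2 ^ k := by
    ring
  rw [g6]
  linarith

/-! ### 2. The classes -/

/-- a splitting with a letter of the filling behind the outer part -/
def Sp1 (P : Par) (w : List Bool) (s : ℕ × ℕ) : Prop :=
  ∃ Q2 M Q1 : List Bool, w = Q2 ++ (M ++ Q1) ∧ Q1 ≠ [] ∧ s = (Q2.length, Q2.length + M.length) ∧ Jbl P M ∧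
    TP (pth P M).E (pth P M).r (pth P M).D (pth P M).k M (Q1 ++ Q2)

/-- **the number of the splittings, one word** -/
theorem count2 {H Mx sx : ℕ} {P : Par} {DDs : Finset ℤ} (hH : 2 ^ 13 ≤ H) (hPH : P.H = H) (hPM : P.Mx = Mx) (hPs : P.sx = sx)
    (hj : sx + 4 ≤ P.j) (hTT : P.TT = TTf Mx DDs) {m cc : ℕ} {η K tt q : ℝ}
    (hcc : 2 * (2 * (Mx + 1) * (36 * H) + 1024) + 2 ≤ 2 ^ cc) (hw : w ∈ POL.Cy N) (S : Finset (ℕ × ℕ))
    (hS : ∀ s ∈ S, Sp1 P w s ∧ (s.1 : ℝ) + ((N - s.2 : ℕ) : ℝ) ≤ q ∧ EPw P.j m cc η K tt q (sl w s.1 s.2)) :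
    (S.card : ℝ) ≤ ((sx + 1) * ((Mx + 1) * (DDs.card * 6 ^ Mx)) : ℕ) *
      (6 * ((64 * (2 * (Mx + 1) * (36 * H) + 1024) + 1) ^ 2 * (K * Ub P.j) ^ 2)) := by
  classical
  obtain ⟨K0, hK0⟩ : ∃ K0 : ℕ, K0 = 2 * (Mx + 1) * (36 * H) + 1024 := ⟨_, rfl⟩
  have e0 : (2 * ((Mx : ℝ) + 1) * (36 * H) + 1024) = (K0 : ℝ) := by
    rw [hK0]
    push_cast
    ring
  rw [e0]
  rw [← hK0] at hcc
  obtain ⟨Nn, hNn⟩ : ∃ Nn : ℕ, Nn = ⌊(K * Ub P.j) ^ 2⌋₊ := ⟨_, rfl⟩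
  have hNle : (Nn : ℝ) ≤ (K * Ub P.j) ^ 2 := by
    rw [hNn]
    exact Nat.floor_le (by positivity)
  obtain ⟨CC, hCC⟩ : ∃ CC : Finset (ℕ × (ℕ × (ℤ × (ℕ → Pt)))),
      CC = ((Icc (P.j - sx) P.j) ×ˢ ((range (Mx + 1)) ×ˢ (DDs ×ˢ G2.EE Mx))).filter fun x =>
        (18 * (H * 2 ^ x.1) : ℤ) ≤ x.2.2.1 ∧ x.2.2.1 ≤ (36 * (H * 2 ^ x.1) : ℤ) ∧ 3 ≤ x.2.1 ∧ IPg x.2.2.2 x.2.1 := ⟨_, rfl⟩
  have hcard : CC.card ≤ (sx + 1) * ((Mx + 1) * (DDs.card * 6 ^ Mx)) := by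
    rw [hCC]
    refine (card_filter_le _ _).trans ?_
    rw [card_product, card_product, card_product, card_range, Nat.card_Icc]
    exact Nat.mul_le_mul (by omega) (Nat.mul_le_mul_left _ (Nat.mul_le_mul_left _ (G2.EE_card Mx)))
  have hCm : ∀ x ∈ CC, 4 ≤ x.1 ∧ x.1 ≤ P.j ∧ 0 ≤ x.2.2.1 ∧ 2 ^ (x.1 + 12) ≤ x.2.2.1 ∧ x.2.2.1 ≤ (36 * (H * 2 ^ x.1) : ℤ) ∧
      3 ≤ x.2.1 ∧ x.2.1 ≤ Mx ∧ IPg x.2.2.2 x.2.1 := by
    intro x hx
    rw [hCC, mem_filter, mem_product, mem_product, mem_product, mem_Icc, mem_range] at hx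
    obtain ⟨⟨⟨h1, h2⟩, h3, -⟩, h4, h5, h6, h7⟩ := hx
    refine ⟨by omega, h2, le_trans (by positivity) h4, ?_, h5, h6, by omega, h7⟩
    refine le_trans ?_ h4
    have g1 : (2 : ℤ) ^ 13 ≤ H := by exact_mod_cast hH
    have g2 : (0 : ℤ) < 2 ^ x.1 := by positivity
    have g3 : (2 : ℤ) ^ (x.1 + 12) = 2 ^ 12 * 2 ^ x.1 := by ring
    rw [g3]
    nlinarith
  have key : S.card ≤ CC.card * (6 * ((64 * K0 + 1) ^ 2 * Nn)) := by
    have hcov : S ⊆ CC.biUnion fun x => dirs.biUnion fun c => (Lb x.1 (K0 * 2 ^ x.1) 0).biUnion fun l =>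
        S.filter fun s => Tr x.2.2.2 x.2.1 x.2.2.1 x.1 (Vp w (cen x.1 l) c) (Up w c) N s.1 s.2 := by
      intro s hs
      obtain ⟨⟨Q2, M, Q1, hwe, hQ1, hse, hJ, hTP⟩, -, -⟩ := hS s hs
      obtain ⟨hok, hJn⟩ := pth_ok hJ
      have hr4 := hok.r4
      have hrM := hok.rM
      have hkj := hok.kj
      have hjk := hok.jk
      have hD1 := hok.D1
      have hD2 := hok.D2
      rw [hPH] at hD1 hD2
      have hD12 : 2 ^ ((pth P M).k + 12) ≤ (pth P M).D := okT_D hok (by rw [hPH]; exact hH)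
      have hD0 : 0 ≤ (pth P M).D := le_trans (by positivity) hD12
      have hk4 : 4 ≤ (pth P M).k := by omega
      obtain ⟨v, hv⟩ : ∃ v, v = vx oo up (M ++ (Q1 ++ Q2)) (M.length + Q1.length) := ⟨_, rfl⟩
      have hP0 := jn_plc (s := 0) hJn (by
        have : TIW.hn (0 : Pt) = 0 := by decide
        rw [this]
        positivity)
      have hvs : TIW.hn (0 - v) ≤ ((K0 * 2 ^ (pth P M).k : ℕ) : ℤ) := by
        rw [zero_sub, TIW.hn_neg]
        have h1 := root_pos hok.ip hD0 hP0 hTP (i := Q1.length) (by rw [List.length_append]; omega)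
        rw [zero_add, ← hv] at h1
        rw [hK0]
        exact h1.trans (size_le (by rw [← hPM]; exact hrM) hD0 hD2)
      have hcn := cen_near hk4 v
      obtain ⟨s0, hs0⟩ : ∃ s0, s0 = cen (pth P M).k (lab (pth P M).k v) - v := ⟨_, rfl⟩
      rw [← hs0] at hcn
      have hn0 := TIW.hn_nonneg s0
      have hPl := jn_plc (s := s0) hJn (by linarith)
      obtain ⟨c, c1, -, -, -, c5⟩ := tr_of hok.ip (by omega) hok.e1 hD12 hPl hTP hQ1
      have e1 : s0 + vx oo up (M ++ (Q1 ++ Q2)) (M.length + Q1.length) = cen (pth P M).k (lab (pth P M).k v) := by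
        rw [hs0, ← hv]
        abel
      have e2 : M.length + (Q1 ++ Q2).length = N := by
        have h1 := hw.1
        rw [hwe] at h1
        simp only [List.length_append] at h1 ⊢
        omega
      rw [e1, e2, ← hwe] at c5
      have htt := hok.tt
      rw [hTT] at htt
      rw [mem_biUnion]
      refine ⟨((pth P M).k, ((pth P M).r, ((pth P M).D, (pth P M).E))), ?_, ?_⟩
      · rw [hCC, mem_filter, mem_product, mem_product, mem_product, mem_Icc, mem_range]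
        refine ⟨⟨⟨?_, hkj⟩, ?_, htt.1, htt.2⟩, hD1, hD2, ?_, hok.ip⟩
        · show P.j - sx ≤ (pth P M).k
          omega
        · show (pth P M).r < Mx + 1
          omega
        · show 3 ≤ (pth P M).r
          omega
      rw [mem_biUnion]
      refine ⟨c, mem_dirs.2 c1, ?_⟩
      rw [mem_biUnion]
      refine ⟨lab (pth P M).k v, mem_Lb hvs, ?_⟩
      rw [mem_filter]
      refine ⟨hs, ?_⟩
      rw [hse]
      exact c5
    refine (card_le_card hcov).trans ?_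
    refine card_biUnion_le_card_mul _ _ _ fun x hx => ?_
    obtain ⟨h1, h2, h3, h4, h5, h6, h7, h8⟩ := hCm x hx
    have h6' : dirs.card = 6 := by decide
    rw [← h6']
    refine card_biUnion_le_card_mul _ _ _ fun c hc => ?_
    rw [← card_Lb h1 K0 0]
    refine card_biUnion_le_card_mul _ _ _ fun l _ => ?_
    rw [hNn]
    refine Nat.le_floor ?_
    have hR : 2 * (((K0 * 2 ^ x.1 : ℕ) : ℤ)) + 2 ≤ 2 ^ (P.j + cc) := by
      have g1 : (2 : ℤ) ^ x.1 ≤ 2 ^ P.j := pow_le_pow_right₀ (by norm_num) h2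
      have g2 : (1 : ℤ) ≤ 2 ^ P.j := one_le_pow₀ (by norm_num)
      have g3 : (2 * (K0 : ℤ) + 2) ≤ 2 ^ cc := by exact_mod_cast hcc
      rw [pow_add]
      push_cast
      nlinarith
    refine count1 (p := cen x.1 l) h8 h6 h4 (mem_dirs.1 hc) hw (m := m) (η := η) (tt := tt) (q := q) h2 hR _ fun s hs => ?_
    rw [mem_filter] at hs
    obtain ⟨hs1, hs2⟩ := hs
    obtain ⟨-, g1, g2⟩ := hS s hs1
    refine ⟨hs2, fun i hi => ?_, g1, g2⟩
    obtain ⟨jj, hjj, hn⟩ := hs2.rg i hi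
    refine (ns_pos h8 h3 hjj hn).trans ?_
    rw [hK0]
    exact size_le h7 h3 h5
  have h9 : (S.card : ℝ) ≤ ((CC.card : ℕ) : ℝ) * (6 * ((64 * (K0 : ℝ) + 1) ^ 2 * Nn)) := by exact_mod_cast key
  refine h9.trans ?_
  have h10 : ((CC.card : ℕ) : ℝ) ≤ (((sx + 1) * ((Mx + 1) * (DDs.card * 6 ^ Mx)) : ℕ) : ℝ) := by exact_mod_cast hcard
  gcongr

/-- the splittings which count (41's `Spn`) -/
def SpT (P : Par) (K : List Bool) : Set (List Bool × List Bool × List Bool) :=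
  {p | p ∈ Spl P K ∧ th P p.1.length p.2.1 ≠ 0}

/-- the places of a splitting -/
def plc (p : List Bool × List Bool × List Bool) : ℕ × ℕ := (p.1.length, p.1.length + p.2.1.length)

lemma plc_inj {K : List Bool} : Set.InjOn plc {p : List Bool × List Bool × List Bool | K = p.1 ++ (p.2.1 ++ p.2.2)} := by
  rintro ⟨A, M, B⟩ hp ⟨A', M', B'⟩ hq hpq
  have h1 : K = A ++ (M ++ B) := hp
  have h2 : K = A' ++ (M' ++ B') := hq
  have h3 : A.length = A'.length := congrArg Prod.fst hpq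
  have h4 : A.length + M.length = A'.length + M'.length := congrArg Prod.snd hpq
  obtain ⟨e1, e2⟩ := List.append_inj (h1.symm.trans h2) h3
  obtain ⟨e3, e4⟩ := List.append_inj e2 (by omega)
  rw [e1, e3, e4]

lemma spT_fin (P : Par) (K : List Bool) : (SpT P K).Finite := by
  have hi : Set.InjOn plc (SpT P K) := fun p hp q hq h => plc_inj hp.1.1 hq.1.1 h
  refine Set.Finite.of_finite_image ?_ hi
  refine ((Set.finite_Iic K.length).prod (Set.finite_Iic K.length)).subset ?_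
  rintro _ ⟨p, hp, rfl⟩
  have h1 := congrArg List.length hp.1.1
  rw [List.length_append, List.length_append] at h1
  refine ⟨?_, ?_⟩
  · show p.1.length ≤ K.length
    omega
  · show p.1.length + p.2.1.length ≤ K.length
    omega

/-- the tips of a splitting which counts -/
lemma spT_ep {P : Par} {m cc : ℕ} {η K : ℝ} (hm : P.m = m) (hη : P.η = η)
    (hS : P.S = SN P.j m cc η K ((P.A + P.A1) * ml P.j)) {q : ℕ} {M : List Bool} (hth : th P q M ≠ 0) :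
    EPw P.j m cc η K ((P.A + P.A1) * ml P.j) (P.A * ml P.j) M := by
  unfold th at hth
  rw [ne_eq, ENNReal.tsum_eq_zero, not_forall] at hth
  obtain ⟨⟨⟨X, Y⟩, hAd, hMa, -⟩, -⟩ := hth
  obtain ⟨-, ⟨⟨y1, y2, -⟩, ⟨x1, x2, -⟩⟩, -, hl⟩ := hAd
  have hs := hMa.2
  rw [hS] at hs
  rw [hη] at y1 x1
  rw [hm] at y2 x2
  have h1 : (0 : ℝ) ≤ (X.length : ℝ) := Nat.cast_nonneg _
  have h2 : (0 : ℝ) ≤ (Y.length : ℝ) := Nat.cast_nonneg _
  simp only at hl
  refine ⟨X, Y, ⟨y1, y2⟩, ⟨x1, x2⟩, ?_, ?_, hs⟩ <;> linarith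

/-- **the number of the splittings of a closed word** -/
theorem cntSt : ∀ (H Mx : ℕ), 2 ^ 13 ≤ H → ∃ c : ℕ, ∀ (sx : ℕ) (K : ℝ), 0 < K → ∃ (C : ℝ) (b0 : ℕ), 0 < C ∧
    ∀ (P : Par) (D : Finset ℤ), D.card ≤ Mx → P.H = H → P.Mx = Mx → P.sx = sx → P.TT = TTf Mx D →
      P.S = SN P.j P.m c P.η K ((P.A + P.A1) * ml P.j) → b0 ≤ P.j → ∀ Z ∈ POL.Cy P.N,
        (SpT P Z).Finite ∧ ((SpT P Z).ncard : ℝ) ≤ C * Ub P.j ^ 2 := by
  classical
  intro H Mx hH
  obtain ⟨cc, hcc⟩ : ∃ cc : ℕ, 2 * (2 * (Mx + 1) * (36 * H) + 1024) + 2 ≤ 2 ^ cc := ⟨_, Nat.lt_two_pow_self.le⟩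
  refine ⟨cc, fun sx K hK => ?_⟩
  obtain ⟨n1, hn1⟩ : ∃ n1 : ℕ, n1 = (sx + 1) * ((Mx + 1) * (Mx * 6 ^ Mx)) := ⟨_, rfl⟩
  obtain ⟨B, hB⟩ : ∃ B : ℝ, B = ((n1 : ℝ) + 1) * (6 * ((64 * (2 * (Mx + 1) * (36 * H) + 1024) + 1) ^ 2 * K ^ 2)) := ⟨_, rfl⟩
  refine ⟨2 * B, sx + 4, by rw [hB]; positivity, fun P DDs hDD hPH hPM hPs hTT hPS hj w hw => ⟨spT_fin P w, ?_⟩⟩
  have hfin := spT_fin P w
  have hU := Ub_pos P.j
  have hlw : w.length = P.N := hw.1
  have hbd : ∀ (w' : List Bool) (S : Finset (ℕ × ℕ)), w' ∈ POL.Cy P.N → (∀ s ∈ S, Sp1 P w' s ∧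
      (s.1 : ℝ) + ((P.N - s.2 : ℕ) : ℝ) ≤ P.A * ml P.j ∧
        EPw P.j P.m cc P.η K ((P.A + P.A1) * ml P.j) (P.A * ml P.j) (sl w' s.1 s.2)) → (S.card : ℝ) ≤ B * Ub P.j ^ 2 := by
    intro w' S hw' hS
    have h1 := count2 hH hPH hPM hPs hj hTT hcc hw' S hS
    refine h1.trans ?_
    rw [hB]
    have h2 : (((sx + 1) * ((Mx + 1) * (DDs.card * 6 ^ Mx)) : ℕ) : ℝ) ≤ (n1 : ℝ) + 1 := by
      have h3 : (sx + 1) * ((Mx + 1) * (DDs.card * 6 ^ Mx)) ≤ n1 := by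
        rw [hn1]
        exact Nat.mul_le_mul_left _ (Nat.mul_le_mul_left _ (Nat.mul_le_mul_right _ hDD))
      have h4 : (((sx + 1) * ((Mx + 1) * (DDs.card * 6 ^ Mx)) : ℕ) : ℝ) ≤ (n1 : ℝ) := by exact_mod_cast h3
      linarith
    have e1 : ((n1 : ℝ) + 1) * (6 * ((64 * (2 * (Mx + 1) * (36 * H) + 1024) + 1) ^ 2 * K ^ 2)) * Ub P.j ^ 2 =
        ((n1 : ℝ) + 1) * (6 * ((64 * (2 * (Mx + 1) * (36 * H) + 1024) + 1) ^ 2 * (K * Ub P.j) ^ 2)) := by ring
    rw [e1]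
    gcongr
  -- the filling
  have hlen : ∀ p ∈ SpT P w, p.1.length + (p.2.1.length + p.2.2.length) = P.N ∧
      ((p.1.length + p.2.2.length : ℕ) : ℝ) ≤ P.A * ml P.j := by
    rintro p ⟨⟨h1, -, -, -, -, h3⟩, -⟩
    have h4 := congrArg List.length h1
    rw [List.length_append, List.length_append, hlw] at h4
    refine ⟨h4.symm, ?_⟩
    have h5 : (P.N : ℝ) = (p.1.length : ℝ) + ((p.2.1.length : ℝ) + p.2.2.length) := by exact_mod_cast h4
    push_cast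
    linarith
  obtain ⟨S1, hS1⟩ : ∃ S1 : Finset (ℕ × ℕ), S1 = (hfin.toFinset.filter fun p => p.2.2 ≠ []).image plc := ⟨_, rfl⟩
  obtain ⟨S2, hS2⟩ : ∃ S2 : Finset (ℕ × ℕ), S2 = (hfin.toFinset.filter fun p => ¬ p.2.2 ≠ []).image
      (fun p => ((plc p).1 - 1, (plc p).2 - 1)) := ⟨_, rfl⟩
  have hc1 : (S1.card : ℝ) ≤ B * Ub P.j ^ 2 := by
    refine hbd w S1 hw fun s hs => ?_
    rw [hS1, mem_image] at hs
    obtain ⟨p, hp, rfl⟩ := hs
    rw [mem_filter, Set.Finite.mem_toFinset] at hp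
    obtain ⟨hp, hne⟩ := hp
    obtain ⟨l1, l2⟩ := hlen p hp
    obtain ⟨⟨h1, h2, h3, h4⟩, h5⟩ := hp
    refine ⟨⟨p.1, p.2.1, p.2.2, h1, hne, rfl, h4.1, h3.1⟩, ?_, ?_⟩
    · show (p.1.length : ℝ) + ((P.N - (p.1.length + p.2.1.length) : ℕ) : ℝ) ≤ _
      have e1 : P.N - (p.1.length + p.2.1.length) = p.2.2.length := by omega
      rw [e1]
      push_cast at l2
      exact l2
    · have e1 : sl w (plc p).1 (plc p).2 = p.2.1 := by
        show sl w p.1.length (p.1.length + p.2.1.length) = p.2.1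
        conv_lhs => rw [h1]
        exact sl_mid
      rw [e1]
      exact spT_ep rfl rfl hPS h5
  have hc2 : (S2.card : ℝ) ≤ B * Ub P.j ^ 2 := by
    have hw' : w.drop 1 ++ w.take 1 ∈ POL.Cy P.N := POL.cy_rot (by rw [List.take_append_drop]; exact hw)
    refine hbd (w.drop 1 ++ w.take 1) S2 hw' fun s hs => ?_
    rw [hS2, mem_image] at hs
    obtain ⟨p, hp, rfl⟩ := hs
    rw [mem_filter, Set.Finite.mem_toFinset, not_not] at hp
    obtain ⟨hp, hne⟩ := hp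
    obtain ⟨l1, l2⟩ := hlen p hp
    obtain ⟨⟨h1, h2, h3, h4⟩, h5⟩ := hp
    obtain ⟨Q2, M, Q1⟩ := p
    simp only at hne h1 h2 h3 h4 h5 l1 l2
    subst hne
    obtain ⟨x, Q, rfl⟩ := List.exists_cons_of_ne_nil h2
    have e0 : w.drop 1 ++ w.take 1 = Q ++ (M ++ [x]) := by
      rw [h1]
      simp
    have ep1 : ((plc ((x :: Q, M, []) : List Bool × List Bool × List Bool)).1 - 1,
        (plc ((x :: Q, M, []) : List Bool × List Bool × List Bool)).2 - 1) = (Q.length, Q.length + M.length) := by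
      unfold plc
      simp only [List.length_cons, Prod.mk.injEq]
      omega
    rw [ep1, e0]
    refine ⟨⟨Q, M, [x], rfl, by simp, rfl, h4.1, ?_⟩, ?_, ?_⟩
    · have h6 := h3.1
      simpa using h6
    · show (Q.length : ℝ) + ((P.N - (Q.length + M.length) : ℕ) : ℝ) ≤ _
      simp only [List.length_cons, List.length_nil] at l1 l2
      have e1 : P.N - (Q.length + M.length) = 1 := by omega
      rw [e1]
      push_cast at l2 ⊢
      linarith
    · show EPw P.j P.m cc P.η K _ _ (sl (Q ++ (M ++ [x])) Q.length (Q.length + M.length))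
      rw [sl_mid]
      exact spT_ep rfl rfl hPS h5
  have hcard1 : S1.card = (hfin.toFinset.filter fun p => p.2.2 ≠ []).card := by
    rw [hS1]
    refine card_image_of_injOn fun p hp q hq h => ?_
    rw [mem_coe, mem_filter, Set.Finite.mem_toFinset] at hp hq
    exact plc_inj hp.1.1.1 hq.1.1.1 h
  have hcard2 : S2.card = (hfin.toFinset.filter fun p => ¬ p.2.2 ≠ []).card := by
    rw [hS2]
    refine card_image_of_injOn fun p hp q hq h => ?_
    rw [mem_coe, mem_filter, Set.Finite.mem_toFinset] at hp hq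
    have hp1 := List.length_pos_iff.2 hp.1.1.2.1
    have hq1 := List.length_pos_iff.2 hq.1.1.2.1
    refine plc_inj hp.1.1.1 hq.1.1.1 ?_
    simp only [plc, Prod.mk.injEq] at h ⊢
    omega
  have hsum : (SpT P w).ncard = S1.card + S2.card := by
    rw [hcard1, hcard2, Set.ncard_eq_toFinset_card _ hfin]
    exact (card_filter_add_card_filter_not _).symm
  rw [hsum]
  push_cast
  linarith

end SW

end PMA

end HexObs
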