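import Pool.Agent.PMA.PubB

/-!
# (PM): all radii between `r` and `2 r` (helper41): **`pm2_of : WPM → PTight → PM2`**
-/

set_option autoImplicit false

open MeasureTheory Filter Topology Finset

open scoped Classical

namespace Pool.Agent.PMA

open Res Pool.Agent.NTS.Res

open HexObs hiding pos

open HexObs.TIW HexObs.POLP NTSF NTSF.Mg NTF Pool.Agent.TSW.BP HexObs.MCP

open Pool.Agent.IW.Res (mean)

/-- **(PM) for all radii between `r` and `2 r`** -/
def PM2 : Prop := ∀ ε : ℝ, 0 < ε → ∃ r0 : ℝ, 0 < r0 ∧ ∀ r : ℝ, 0 < r → r ≤ r0 → ∃ n0 : ℕ, ∀ n : ℕ, n0 ≤ n → Odd n →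
  ∀ x : ℝ, r ≤ x → x ≤ 2 * r → ∀ F : C(unitInterval, ℂ) → ℝ, (∀ γ, |F γ| ≤ 1) → LipschitzWith 1 F → (∀ γ, F (-γ) = F γ) →
    |pmean n F - cmean (wdw n r) (x * size n) F| ≤ ε

theorem pm2_of (hW : WPM) (hT : PTight) : PM2 := by
  intro ε hε
  obtain ⟨c0, C0, hc0, hsz⟩ := (oneFacts finE).sz
  have hsg : ∀ n, 1 ≤ n → c0 ≤ sg n ∧ sg n ≤ C0 := by
    intro n hn
    have p1 := nr_pos hn
    unfold sg
    rw [le_div_iff₀ p1, div_le_iff₀ p1]
    exact hsz n hn
  obtain ⟨K, hK⟩ : ∃ K : ℝ, K = max 1 (max C0 (1 / c0)) := ⟨_, rfl⟩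
  have hK1 : 1 ≤ K := hK ▸ le_max_left _ _
  have hKC : C0 ≤ K := hK ▸ (le_max_left _ _).trans (le_max_right _ _)
  have hKc : 1 / c0 ≤ K := hK ▸ (le_max_right _ _).trans (le_max_right _ _)
  have hK0 : 0 < K := by linarith
  obtain ⟨e, he⟩ : ∃ e : ℝ, e = min (1 / 4) (ε / (64 * K)) := ⟨_, rfl⟩
  have he0 : 0 < e := by
    rw [he]
    positivity
  have he4 : e ≤ 1 / 4 := he ▸ min_le_left _ _
  have heK : 64 * K * e ≤ ε := by
    have h1 : e ≤ ε / (64 * K) := he ▸ min_le_right _ _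
    rw [le_div_iff₀ (by positivity)] at h1
    linarith
  obtain ⟨r1, hr1, h1⟩ := hW e he0 (2 * K) (by linarith)
  obtain ⟨K2, h2⟩ := hT e he0
  obtain ⟨B, hB⟩ : ∃ B : ℝ, B = max K2 0 + 1 := ⟨_, rfl⟩
  have hB0 : 0 < B := by
    rw [hB]
    have := le_max_right K2 0
    linarith
  -- slow change
  obtain ⟨e', he'⟩ : ∃ e' : ℝ, e' = min e (e / (4 * K * B)) := ⟨_, rfl⟩
  have he'0 : 0 < e' := by
    rw [he']
    positivity
  have he'e : e' ≤ e := he' ▸ min_le_left _ _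
  have he'B : 4 * K * B * e' ≤ e := by
    have h3 : e' ≤ e / (4 * K * B) := he' ▸ min_le_right _ _
    rw [le_div_iff₀ (by positivity)] at h3
    linarith
  obtain ⟨δ1, hδ1, h3⟩ := slow_count e he0
  obtain ⟨δ2, hδ2, h4⟩ := slow_curves.1 e' he'0
  obtain ⟨δ, hδ⟩ : ∃ δ : ℝ, δ = min (min (δ1 / 2) (δ2 / 2)) (min (1 / 2) e') := ⟨_, rfl⟩
  have hδ0 : 0 < δ := by
    rw [hδ]
    positivity
  have hδa : δ ≤ δ1 / 2 := hδ ▸ (min_le_left _ _).trans (min_le_left _ _)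
  have hδb : δ ≤ δ2 / 2 := hδ ▸ (min_le_left _ _).trans (min_le_right _ _)
  have hδc : δ ≤ 1 / 2 := hδ ▸ (min_le_right _ _).trans (min_le_left _ _)
  have hδd : δ ≤ e' := hδ ▸ (min_le_right _ _).trans (min_le_right _ _)
  refine ⟨min r1 (δ ^ (3 / 4 : ℝ)), by positivity, fun r hr hr0 => ?_⟩
  have hrr1 : r ≤ r1 := hr0.trans (min_le_left _ _)
  have hrδ : r ^ (4 / 3 : ℝ) ≤ δ := by
    have a1 : r ≤ δ ^ (3 / 4 : ℝ) := hr0.trans (min_le_right _ _)
    calc r ^ (4 / 3 : ℝ) ≤ (δ ^ (3 / 4 : ℝ)) ^ (4 / 3 : ℝ) := Real.rpow_le_rpow hr.le a1 (by norm_num)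
      _ = δ := by
          rw [← Real.rpow_mul hδ0.le]
          norm_num
  have hr43 : 0 < r ^ (4 / 3 : ℝ) := Real.rpow_pos_of_pos hr _
  obtain ⟨n1, h5⟩ := h1 r hr hrr1
  obtain ⟨n2, hn2⟩ := exists_nat_ge (2 / δ1 + 2 / δ2)
  refine ⟨max (max n1 3) n2, fun n hn ho x hx1 hx2 F hF hL hev => ?_⟩
  have hnn1 : n1 ≤ n := (le_max_left _ _).trans ((le_max_left _ _).trans hn)
  have hn3 : 3 ≤ n := (le_max_right _ _).trans ((le_max_left _ _).trans hn)
  have hn2' : (n2 : ℝ) ≤ n := by exact_mod_cast (le_max_right _ _).trans hn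
  have hnd1 : 2 / δ1 ≤ n := by
    have : 0 < 2 / δ2 := by positivity
    linarith
  have hnd2 : 2 / δ2 ≤ n := by
    have : 0 < 2 / δ1 := by positivity
    linarith
  have hn1 : 1 ≤ n := by omega
  have hnR : (0 : ℝ) < n := by exact_mod_cast hn1
  have psn := sg_pos hn1
  -- the numbers of the steps
  have hI : ∀ k ∈ wdw n r, k ≤ n ∧ (1 - r ^ (4 / 3 : ℝ)) * n ≤ k ∧ (n : ℝ) / 2 ≤ k ∧ 1 ≤ k ∧
      (((n - k : ℕ) : ℕ) : ℝ) ≤ 2 * δ * k := by
    intro k hk
    unfold wdw at hk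
    rw [mem_filter, mem_range] at hk
    have a1 : k ≤ n := by omega
    have a2 : (n : ℝ) / 2 ≤ k := by
      have := hk.2
      nlinarith
    have a3 : 1 ≤ k := by
      have h6 : (0 : ℝ) < k := by linarith
      exact_mod_cast h6
    refine ⟨a1, hk.2, a2, a3, ?_⟩
    rw [Nat.cast_sub a1]
    have := hk.2
    have hh : r ^ (4 / 3 : ℝ) * n ≤ δ * n := mul_le_mul_of_nonneg_right hrδ hnR.le
    nlinarith
  have hcnt : ∀ k ∈ wdw n r, |cS k * xc ^ k / (cS n * xc ^ n) - 1| ≤ 2 * e := by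
    intro k hk
    obtain ⟨a1, a2, a3, a4, a5⟩ := hI k hk
    refine q_near he0 he4 a4 a1 ?_
    have kp : (0 : ℝ) < k := by exact_mod_cast a4
    have h6 := h3 k (n - k) (by
      rw [div_le_iff₀ hδ1]
      rw [div_le_iff₀ hδ1] at hnd1
      nlinarith) (a5.trans (mul_le_mul_of_nonneg_right (by linarith) kp.le))
    rw [show k + (n - k) = n by omega] at h6
    exact h6
  have hsk : ∀ k ∈ wdw n r, |(sg k)⁻¹ - (sg n)⁻¹| ≤ 4 * K * e' := by
    intro k hk
    obtain ⟨a1, a2, a3, a4, a5⟩ := hI k hk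
    have kp : (0 : ℝ) < k := by exact_mod_cast a4
    have h6 := (h4 k (n - k) (by
      rw [div_le_iff₀ hδ2]
      rw [div_le_iff₀ hδ2] at hnd2
      nlinarith) (a5.trans (mul_le_mul_of_nonneg_right (by linarith) kp.le))).1
    rw [show k + (n - k) = n by omega] at h6
    obtain ⟨x, hx⟩ : ∃ x : ℝ, x = size n / size k := ⟨_, rfl⟩
    obtain ⟨y, hy⟩ : ∃ y : ℝ, y = nr k / nr n := ⟨_, rfl⟩
    have p1 := nr_pos hn1
    have p2 := nr_pos a4
    have p3 := size_pos hn1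
    have p4 := size_pos a4
    have e1 : (sg k)⁻¹ = (sg n)⁻¹ * (x * y) := by
      unfold sg
      rw [hx, hy]
      field_simp
    rw [← hx] at h6
    have hy1 : y ≤ 1 := by
      rw [hy, div_le_one p1]
      unfold nr
      exact Real.rpow_le_rpow (Nat.cast_nonneg _) (by exact_mod_cast a1) (by norm_num)
    have hy0 : 0 < y := by
      rw [hy]
      positivity
    have hy2 : 1 - δ ≤ y := by
      have h7 : y = ((k : ℝ) / n) ^ (3 / 4 : ℝ) := by
        rw [hy]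
        unfold nr
        rw [Real.div_rpow (Nat.cast_nonneg _) (Nat.cast_nonneg _)]
      have h8 : (k : ℝ) / n ≤ 1 := by
        rw [div_le_one hnR]
        exact_mod_cast a1
      have h9 : (k : ℝ) / n ≤ y := by
        rw [h7]
        conv_lhs => rw [← Real.rpow_one ((k : ℝ) / n)]
        exact Real.rpow_le_rpow_of_exponent_ge (by positivity) h8 (by norm_num)
      have h10 : 1 - δ ≤ (k : ℝ) / n := by
        rw [le_div_iff₀ hnR]
        nlinarith
      linarith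
    have hx1 := abs_le.1 h6
    have h7 : |x * y - 1| ≤ 4 * e' := by
      have e2 : x * y - 1 = (x - 1) * y + (y - 1) := by ring
      rw [e2]
      have b1 : |(x - 1) * y| ≤ e' := by
        rw [abs_mul, abs_of_pos hy0]
        calc |x - 1| * y ≤ e' * 1 := mul_le_mul h6 hy1 hy0.le he'0.le
          _ = e' := mul_one _
      have b2 : |y - 1| ≤ e' := by
        rw [abs_sub_comm, abs_of_nonneg (by linarith)]
        linarith
      exact (abs_add_le _ _).trans (by linarith)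
    rw [e1]
    have e3 : (sg n)⁻¹ * (x * y) - (sg n)⁻¹ = (sg n)⁻¹ * (x * y - 1) := by ring
    rw [e3, abs_mul, abs_of_pos (inv_pos.2 psn)]
    have h8 : (sg n)⁻¹ ≤ K := by
      refine le_trans ?_ hKc
      rw [← one_div]
      exact one_div_le_one_div_of_le hc0 (hsg n hn1).1
    calc (sg n)⁻¹ * |x * y - 1| ≤ K * (4 * e') := mul_le_mul h8 h7 (abs_nonneg _) hK0.le
      _ = 4 * K * e' := by ring
  -- the radius
  obtain ⟨ρ, hρ⟩ : ∃ ρ : ℝ, ρ = x * sg n := ⟨_, rfl⟩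
  have hR : x * size n = ρ * nr n := by
    have p1 := nr_pos hn1
    rw [hρ]
    unfold sg
    field_simp
  have hρ1 : r / (2 * K) ≤ ρ := by
    rw [hρ, div_le_iff₀ (by positivity), mul_assoc]
    have h6 : 1 ≤ sg n * (2 * K) := by
      have h7 := (hsg n hn1).1
      have h8 : 1 ≤ K * c0 := by
        rw [div_le_iff₀ hc0] at hKc
        exact hKc
      nlinarith
    nlinarith
  have hρ2 : ρ ≤ 2 * K * r := by
    rw [hρ]
    have h6 := (hsg n hn1).2.trans hKC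
    calc x * sg n ≤ 2 * r * K := mul_le_mul hx2 h6 psn.le (by positivity)
      _ = 2 * K * r := by ring
  have h6 := h5 n hnn1 ho ρ hρ1 hρ2
  rw [hR]
  obtain ⟨R, hRR⟩ : ∃ R : ℝ, R = ρ * nr n := ⟨_, rfl⟩
  rw [← hRR] at h6 ⊢
  -- the functional in the scaling of n
  obtain ⟨G, hG⟩ : ∃ G : C(unitInterval, ℂ) → ℝ, G = fun γ => F (((sg n)⁻¹ : ℝ) • γ) := ⟨_, rfl⟩
  have hsn : (sg n)⁻¹ ≤ K := by
    refine le_trans ?_ hKc
    rw [← one_div]
    exact one_div_le_one_div_of_le hc0 (hsg n hn1).1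
  have hG1 : ∀ γ, |K⁻¹ * G γ| ≤ 1 := by
    intro γ
    rw [abs_mul, abs_of_pos (inv_pos.2 hK0), hG]
    calc K⁻¹ * |F (((sg n)⁻¹ : ℝ) • γ)| ≤ 1 * 1 :=
          mul_le_mul (inv_le_one_of_one_le₀ hK1) (hF _) (abs_nonneg _) (by norm_num)
      _ = 1 := by norm_num
  have hGL : LipschitzWith 1 (fun γ => K⁻¹ * G γ) := by
    refine LipschitzWith.of_dist_le_mul fun x y => ?_
    rw [NNReal.coe_one, one_mul, Real.dist_eq, ← mul_sub, abs_mul, abs_of_pos (inv_pos.2 hK0), inv_mul_le_iff₀ hK0, hG]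
    have h7 := hL.dist_le_mul (((sg n)⁻¹ : ℝ) • x) (((sg n)⁻¹ : ℝ) • y)
    rw [NNReal.coe_one, one_mul, Real.dist_eq] at h7
    refine h7.trans ((dist_smul_le (inv_pos.2 psn).le _ _).trans ?_)
    exact mul_le_mul_of_nonneg_right hsn dist_nonneg
  have hA := h6 (fun γ => K⁻¹ * G γ) hG1 hGL fun γ => by
    rw [hG]
    show K⁻¹ * F (((sg n)⁻¹ : ℝ) • -γ) = K⁻¹ * F (((sg n)⁻¹ : ℝ) • γ)
    rw [smul_neg, hev]
  have hH := h6 (cutN (max K2 0)) (fun γ => by
    rw [abs_of_nonneg (cutN_nonneg _ _)]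
    exact cutN_le _ _) (cutN_lip _) fun γ => by
    unfold cutN
    rw [norm_neg]
  have hC := cy_cut hn3 (h2 n hn3 ho) he0.le
  -- ratios
  obtain ⟨rat, hrat⟩ : ∃ rat : (ℕ → List Bool → ℝ) → ℝ, rat = fun f : ℕ → List Bool → ℝ =>
    (∑ k ∈ wdw n r, (∑ t ∈ gapF k R, f k t) / (cS k : ℝ)) / ∑ k ∈ wdw n r, ((gapF k R).card : ℝ) / (cS k : ℝ) := ⟨_, rfl⟩
  have hcmp : ∀ f : ℕ → List Bool → ℝ, (∀ k t, |f k t| ≤ 1) →
      |gS n r R f / gS n r R (fun _ _ => 1) - rat f| ≤ 8 * e := by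
    intro f hf
    have hW0 : (cS n * xc ^ n : ℝ) ≠ 0 := (mul_pos (cS_pos' n) (pow_pos xc_pos n)).ne'
    rw [gS_eq f cS_pos', gS_eq (fun _ _ => 1) cS_pos', mul_div_mul_left _ _ hW0, hrat]
    simp only [sum_const, nsmul_eq_mul, mul_one]
    have h7 := ratio_cmp (I := wdw n r) (q := fun k => cS k * xc ^ k / (cS n * xc ^ n))
      (x := fun k => (∑ t ∈ gapF k R, f k t) / cS k) (d := fun k => ((gapF k R).card : ℝ) / cS k) (δ := 2 * e)
      (by positivity) (by linarith) hcnt (fun k _ => by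
        rw [abs_div, abs_of_pos (cS_pos' k)]
        refine div_le_div_of_nonneg_right ?_ (cS_pos' k).le
        refine (abs_sum_le_sum_abs _ _).trans ((sum_le_sum fun t _ => hf k t).trans (le_of_eq ?_))
        rw [sum_const, nsmul_eq_mul, mul_one])
    refine h7.trans (by linarith)
  -- the two public means
  have hP := pmean_words hn3 ho F
  rw [← hG] at hP
  have hQ : cmean (wdw n r) R F = rat fun k t => f3 (fun γ => F (((sg k)⁻¹ : ℝ) • γ)) k t := by
    unfold cmean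
    rw [hrat]
    congr 1
    · exact sum_congr rfl fun k hk => near_words (hI k hk).2.2.2.1 R F
    · exact sum_congr rfl fun k hk => near_card (hI k hk).2.2.2.1 R
  -- the change of the scaling
  have hdiff : |rat (fun k t => f3 (fun γ => F (((sg k)⁻¹ : ℝ) • γ)) k t) - rat (fun k t => f3 G k t)| ≤
      e + 2 * rat (fun k t => f3 (cutN (max K2 0)) k t) := by
    obtain ⟨D, hD⟩ : ∃ D : ℝ, D = ∑ k ∈ wdw n r, ((gapF k R).card : ℝ) / cS k := ⟨_, rfl⟩
    have hD0 : 0 ≤ D := by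
      rw [hD]
      exact sum_nonneg fun k _ => div_nonneg (Nat.cast_nonneg _) (cS_pos' k).le
    rw [hrat]
    simp only []
    rw [← hD]
    have hstep : ∀ k ∈ wdw n r, ∀ t, |f3 (fun γ => F (((sg k)⁻¹ : ℝ) • γ)) k t - f3 G k t| ≤
        e + 2 * f3 (cutN (max K2 0)) k t := by
      intro k hk t
      rw [← f3_lin]
      refine f3_dist fun γ => ?_
      rw [hG]
      show |F (((sg k)⁻¹ : ℝ) • γ) - F (((sg n)⁻¹ : ℝ) • γ)| ≤ _
      have a1 := cutN_nonneg (max K2 0) γ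
      rcases le_or_gt (‖γ‖) B with h7 | h7
      · have a2 := hL.dist_le_mul (((sg k)⁻¹ : ℝ) • γ) (((sg n)⁻¹ : ℝ) • γ)
        rw [NNReal.coe_one, one_mul, Real.dist_eq] at a2
        have a5 := dist_smul2 (sg k)⁻¹ (sg n)⁻¹ γ
        have a3 : |(sg k)⁻¹ - (sg n)⁻¹| * ‖γ‖ ≤ 4 * K * e' * B :=
          mul_le_mul (hsk k hk) h7 (norm_nonneg _) (by positivity)
        have a4 : 4 * K * e' * B ≤ e := by linarith
        linarith
      · have a2 : cutN (max K2 0) γ = 1 := cutN_one (by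
          rw [hB] at h7
          exact h7.le)
        rw [a2]
        have b1 := abs_le.1 (hF (((sg k)⁻¹ : ℝ) • γ))
        have b2 := abs_le.1 (hF (((sg n)⁻¹ : ℝ) • γ))
        rw [abs_le]
        constructor <;> linarith [b1.1, b1.2, b2.1, b2.2]
    rcases hD0.eq_or_lt with h0 | h0
    · rw [← h0]
      simp only [div_zero, sub_zero, abs_zero, mul_zero, add_zero]
      exact he0.le
    · rw [← sub_div, abs_div, abs_of_pos h0, div_le_iff₀ h0]
      have e4 : (e + 2 * ((∑ k ∈ wdw n r, (∑ t ∈ gapF k R, f3 (cutN (max K2 0)) k t) / cS k) / D)) * D =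
          e * D + 2 * ∑ k ∈ wdw n r, (∑ t ∈ gapF k R, f3 (cutN (max K2 0)) k t) / cS k := by
        field_simp
      rw [e4, ← sum_sub_distrib, hD, mul_sum, mul_sum, ← sum_add_distrib]
      refine (abs_sum_le_sum_abs _ _).trans (sum_le_sum fun k hk => ?_)
      rw [← sub_div, abs_div, abs_of_pos (cS_pos' k), ← mul_div_assoc, ← mul_div_assoc, ← add_div]
      refine div_le_div_of_nonneg_right ?_ (cS_pos' k).le
      rw [← sum_sub_distrib]
      refine (abs_sum_le_sum_abs _ _).trans ((sum_le_sum fun t _ => hstep k hk t).trans (le_of_eq ?_))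
      rw [sum_add_distrib, sum_const, nsmul_eq_mul, ← mul_sum, mul_comm e]
  -- the end
  have k1 := hcmp (fun k t => f3 (fun γ => K⁻¹ * G γ) k t) fun k t => f3_abs hG1 k t
  have k2 := hcmp (fun k t => f3 (cutN (max K2 0)) k t) fun k t => f3_abs (fun γ => by
    rw [abs_of_nonneg (cutN_nonneg _ _)]
    exact cutN_le _ _) k t
  have hlin : ∀ (k : ℕ) (t : List Bool), f3 (fun γ => K⁻¹ * G γ) k t = K⁻¹ * f3 G k t := by
    intro k t
    have h7 := f3_lin G 0 K⁻¹ k t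
    simp only [zero_add] at h7
    exact h7
  have hratG : rat (fun k t => f3 (fun γ => K⁻¹ * G γ) k t) = K⁻¹ * rat (fun k t => f3 G k t) := by
    rw [hrat]
    simp only [hlin]
    rw [← mul_div_assoc]
    congr 1
    rw [mul_sum]
    refine sum_congr rfl fun k _ => ?_
    rw [← mul_sum, mul_div_assoc]
  have hcyG : (∑ t ∈ cyF (n + 1), f3 (fun γ => K⁻¹ * G γ) n t) / ((cyF (n + 1)).card : ℝ) = K⁻¹ * pmean n F := by
    rw [hP]
    simp only [hlin]
    rw [← mul_sum, mul_div_assoc]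
  rw [hratG] at k1
  rw [hcyG] at hA
  have k3 : |K⁻¹ * rat (fun k t => f3 G k t) - K⁻¹ * pmean n F| ≤ 9 * e := by
    have b1 := abs_le.1 k1
    have b2 := abs_le.1 hA
    rw [abs_le]
    constructor <;> linarith [b1.1, b1.2, b2.1, b2.2]
  have k4 : |rat (fun k t => f3 G k t) - pmean n F| ≤ 9 * K * e := by
    rw [← mul_sub, abs_mul, abs_of_pos (inv_pos.2 hK0), inv_mul_le_iff₀ hK0] at k3
    linarith
  have k5 : rat (fun k t => f3 (cutN (max K2 0)) k t) ≤ 10 * e := by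
    have b1 := abs_le.1 k2
    have b2 := abs_le.1 hH
    linarith [b1.1, b1.2, b2.1, b2.2]
  rw [hQ]
  have k6 := abs_le.1 hdiff
  have k7 := abs_le.1 k4
  have k8 : 9 * K * e + (e + 2 * (10 * e)) ≤ ε := by nlinarith
  rw [abs_le]
  constructor <;> linarith [k6.1, k6.2, k7.1, k7.2]

end Pool.Agent.PMA
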