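import Pool.Agent.PMA.TrAll
import Pool.Agent.PMA.CntSt
import Pool.Agent.PMA.PubC

/-!
# (PM), no hypothesis (page next/46f0ca_83R; 83, 37, 84, 94, 70, 22, 28, 10, 65, 58, 76, 6, 87, 41)

**`Pool.Agent.PMA.pm : PM`**: the uniform self-avoiding polygon with `n + 1` edges looks like the self-avoiding walk with about
`n` steps whose ends are at a distance of at most `r n ^ (3 / 4)`.
-/

set_option autoImplicit false

namespace Pool.Agent.PMA

/-- **the number of the splittings** -/
theorem cntSt : HexObs.PMA.CntSt := HexObs.PMA.SW.cntSt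

/-- **(PM)** -/
theorem pm : PM := HexObs.PMA.pm_of_cnt cntSt

/-- (PM) for all radii between `r` and `2 r` -/
theorem pm2 : PM2 := pm2_of (HexObs.PMA.wpm_of HexObs.PMA.manySt (HexObs.PMA.trRow_of cntSt)) HexObs.PMA.pTight

end Pool.Agent.PMA
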