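import Pool.Agent.PMA.AsmG
import Pool.Agent.PMA.All

/-!
# (PM) for arbitrary functions of the words, no hypothesis (helper41)
-/

set_option autoImplicit false

namespace Pool.Agent.PMA

/-- **(PM) for arbitrary functions of the words** -/
theorem wpmG : HexObs.PMA.WPMG := HexObs.PMA.wpmG_of HexObs.PMA.manySt (HexObs.PMA.trRow_of cntSt)

end Pool.Agent.PMA
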