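import Pool.Agent.PMA.Defs

/-!
# PM, row K7 (helper84): the local density

From `LocD`: on `Far` the density is a function `φ` of the window; the truncated density `min (c * DD) Lam`, restricted to `Far`,
differs from the local one only off `Far` (the input (h6) of `kern`).
-/

set_option autoImplicit false

namespace HexObs

namespace PMA

open Finset TS SDN SIM NTA TIP ARM ARM.G3

open scoped ENNReal

/-- **the local density** -/
theorem phi_of (h : LocD) (H Mx m w1 : ℕ) : ∃ w0 : ℕ, ∀ P : Par, P.H = H → P.Mx = Mx → P.m = m → LocS P w1 →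
    (∀ l z, P.G l z → TIW.hn z ≤ 2 ^ P.j) → 0 ≤ P.A → 0 ≤ P.A1 → ∀ T w : ℕ, P.j + w0 ≤ w → 4 * (P.A + P.A1) * ml P.j ≤ T →
    4 * T ≤ P.N → ∃ φ : List Bool × List Bool → ℝ≥0∞, ∀ K : List Bool, K ∈ POL.Cy P.N → Far T w K →
      DD P K = φ (win T K) := by
  classical
  obtain ⟨w0, h⟩ := h H Mx m w1
  refine ⟨w0, fun P hH hM hm hS hG hA hA1 T w hw hT hN => ?_⟩
  refine ⟨fun v => if hv : ∃ K, K ∈ POL.Cy P.N ∧ Far T w K ∧ win T K = v then DD P hv.choose else 0, fun K hK hf => ?_⟩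
  have hv : ∃ K', K' ∈ POL.Cy P.N ∧ Far T w K' ∧ win T K' = win T K := ⟨K, hK, hf, rfl⟩
  beta_reduce
  rw [dif_pos hv]
  obtain ⟨h1, h2, h3⟩ := hv.choose_spec
  exact h P hH hM hm hS hG hA hA1 T w hw hT hN K _ hK h1 hf h2 h3.symm

/-- **(h6)**: `D` = the density restricted to `Far`, `φ` = the local density, truncated at `Lam` -/
theorem h6_of {B : Finset (List Bool)} {q D : List Bool → ℝ} {φ : List Bool × List Bool → ℝ} {T w : ℕ} {Lam ε : ℝ}
    (hq : ∀ K ∈ B, 0 ≤ q K) (hφ : ∀ v, 0 ≤ φ v) (hLam : 0 ≤ Lam) (h1 : ∀ K ∈ B, Far T w K → D K = φ (win T K))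
    (h2 : ∀ K ∈ B, ¬ Far T w K → D K = 0) (hε : Lam * (∑ K ∈ B, q K * TIP.ind (K ∈ {K | ¬ Far T w K})) ≤ ε) :
    ∑ K ∈ B, q K * |min (D K) Lam - min (φ (win T K)) Lam| ≤ ε := by
  refine le_trans ?_ hε
  rw [mul_sum]
  refine sum_le_sum fun K hK => ?_
  by_cases hf : Far T w K
  · rw [h1 K hK hf, sub_self, abs_zero, mul_zero]
    exact mul_nonneg hLam (mul_nonneg (hq K hK) (TIP.ind_nonneg _))
  · rw [h2 K hK hf, TIP.ind_pos (show K ∈ {K | ¬ Far T w K} from hf), mul_one, min_eq_left hLam, zero_sub, abs_neg,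
      abs_of_nonneg (le_min (hφ _) hLam), mul_comm Lam]
    exact mul_le_mul_of_nonneg_left (min_le_right _ _) (hq K hK)

end PMA

end HexObs
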