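import Mathlib.Algebra.Order.BigOperators.Ring.Finset
import Mathlib.Data.Real.Basic
import Mathlib.Tactic

/-!
# The kernel lemma (page next/46f0ca_83R, K1; helper41)

Two finite probability weights `p`, `q` and a transport `ν` of almost all of `p` to a weight with the density `D` with respect to
`q`. If `D` is uniformly integrable and its truncation is close to a function `Dl` that is uncorrelated with `g`, then the mean of
`f` under `p` is close to the mean of `g` under `q` as soon as `f` and `g` are close along `ν`.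
-/

set_option autoImplicit false

open Finset

namespace Pool.Agent.PMA

/-- **K1** -/
theorem kern {α β : Type*} {A : Finset α} {B : Finset β} {p f : α → ℝ} {q g D Dl : β → ℝ} {ν : α → β → ℝ} {ε L : ℝ}
    (hq : ∀ b ∈ B, 0 ≤ q b) (hp1 : ∑ a ∈ A, p a ≤ 1) (hq1 : ∑ b ∈ B, q b ≤ 1) (hν : ∀ a ∈ A, ∀ b ∈ B, 0 ≤ ν a b)
    (hf : ∀ a ∈ A, |f a| ≤ 1) (hg : ∀ b ∈ B, |g b| ≤ 1) (h1 : ∀ a ∈ A, ∑ b ∈ B, ν a b ≤ p a)
    (h2 : 1 - ε ≤ ∑ a ∈ A, ∑ b ∈ B, ν a b) (h3 : ∀ b ∈ B, ∑ a ∈ A, ν a b = D b * q b)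
    (h4 : ∑ a ∈ A, ∑ b ∈ B, ν a b * |f a - g b| ≤ ε) (h5 : ∑ b ∈ B, q b * max (D b - L) 0 ≤ ε)
    (h6 : ∑ b ∈ B, q b * |min (D b) L - Dl b| ≤ ε)
    (h7 : |∑ b ∈ B, q b * (g b * Dl b) - (∑ b ∈ B, q b * g b) * ∑ b ∈ B, q b * Dl b| ≤ ε) :
    |∑ a ∈ A, p a * f a - ∑ b ∈ B, q b * g b| ≤ 8 * ε := by
  -- the total mass
  obtain ⟨T, hT⟩ : ∃ T, T = ∑ a ∈ A, ∑ b ∈ B, ν a b := ⟨_, rfl⟩
  have hT1 : T ≤ 1 := by
    rw [hT]
    exact (sum_le_sum h1).trans hp1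
  have hT2 : 1 - ε ≤ T := hT ▸ h2
  have hTD : T = ∑ b ∈ B, q b * D b := by
    rw [hT, sum_comm]
    exact sum_congr rfl fun b hb => by rw [h3 b hb, mul_comm]
  -- from p to ν
  have e1 : |∑ a ∈ A, p a * f a - ∑ a ∈ A, ∑ b ∈ B, ν a b * f a| ≤ ε := by
    rw [← sum_sub_distrib]
    refine (abs_sum_le_sum_abs _ _).trans ?_
    have h : ∀ a ∈ A, |p a * f a - ∑ b ∈ B, ν a b * f a| ≤ p a - ∑ b ∈ B, ν a b := by
      intro a ha
      rw [← sum_mul, ← sub_mul, abs_mul]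
      have a1 : 0 ≤ p a - ∑ b ∈ B, ν a b := sub_nonneg.2 (h1 a ha)
      rw [abs_of_nonneg a1]
      calc (p a - ∑ b ∈ B, ν a b) * |f a| ≤ (p a - ∑ b ∈ B, ν a b) * 1 := mul_le_mul_of_nonneg_left (hf a ha) a1
        _ = _ := mul_one _
    refine (sum_le_sum h).trans ?_
    rw [sum_sub_distrib, ← hT]
    linarith
  -- from f to g
  have e2 : |∑ a ∈ A, ∑ b ∈ B, ν a b * f a - ∑ a ∈ A, ∑ b ∈ B, ν a b * g b| ≤ ε := by
    rw [← sum_sub_distrib]
    refine (abs_sum_le_sum_abs _ _).trans ((sum_le_sum fun a ha => ?_).trans h4)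
    rw [← sum_sub_distrib]
    refine (abs_sum_le_sum_abs _ _).trans (sum_le_sum fun b hb => ?_)
    rw [← mul_sub, abs_mul, abs_of_nonneg (hν a ha b hb)]
  -- the density
  have e3 : ∑ a ∈ A, ∑ b ∈ B, ν a b * g b = ∑ b ∈ B, q b * (g b * D b) := by
    rw [sum_comm]
    refine sum_congr rfl fun b hb => ?_
    rw [← sum_mul, h3 b hb]
    ring
  have key : ∀ u v : β → ℝ, |∑ b ∈ B, q b * (g b * u b) - ∑ b ∈ B, q b * (g b * v b)| ≤ ∑ b ∈ B, q b * |u b - v b| := by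
    intro u v
    rw [← sum_sub_distrib]
    refine (abs_sum_le_sum_abs _ _).trans (sum_le_sum fun b hb => ?_)
    rw [← mul_sub, ← mul_sub, abs_mul, abs_mul, abs_of_nonneg (hq b hb)]
    refine mul_le_mul_of_nonneg_left ?_ (hq b hb)
    calc |g b| * |u b - v b| ≤ 1 * |u b - v b| := mul_le_mul_of_nonneg_right (hg b hb) (abs_nonneg _)
      _ = _ := one_mul _
  have key1 : ∀ u v : β → ℝ, |∑ b ∈ B, q b * u b - ∑ b ∈ B, q b * v b| ≤ ∑ b ∈ B, q b * |u b - v b| := by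
    intro u v
    rw [← sum_sub_distrib]
    refine (abs_sum_le_sum_abs _ _).trans (sum_le_sum fun b hb => ?_)
    rw [← mul_sub, abs_mul, abs_of_nonneg (hq b hb)]
  have hmm : ∀ b, |D b - min (D b) L| = max (D b - L) 0 := by
    intro b
    rcases le_total (D b) L with h | h
    · rw [min_eq_left h, sub_self, abs_zero, max_eq_right (by linarith)]
    · rw [min_eq_right h, max_eq_left (by linarith), abs_of_nonneg (by linarith)]
  have e4 := key D fun b => min (D b) L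
  have e5 := key (fun b => min (D b) L) Dl
  have e6 := key1 D fun b => min (D b) L
  have e7 := key1 (fun b => min (D b) L) Dl
  simp only [hmm] at e4 e6
  -- the mass of Dl
  have m1 := abs_le.1 (e4.trans h5)
  have m2 := abs_le.1 (e5.trans h6)
  have m3 := abs_le.1 (e6.trans h5)
  have m4 := abs_le.1 (e7.trans h6)
  obtain ⟨M, hM⟩ : ∃ M, M = ∑ b ∈ B, q b * Dl b := ⟨_, rfl⟩
  obtain ⟨Gm, hGm⟩ : ∃ Gm, Gm = ∑ b ∈ B, q b * g b := ⟨_, rfl⟩
  rw [← hM] at m4 h7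
  rw [← hGm] at h7
  have hM1 : |M - 1| ≤ 3 * ε := by
    rw [abs_le]
    constructor <;> linarith [m3.1, m3.2, m4.1, m4.2]
  have hG1 : |Gm| ≤ 1 := by
    rw [hGm]
    refine (abs_sum_le_sum_abs _ _).trans ((sum_le_sum fun b hb => ?_).trans hq1)
    rw [abs_mul, abs_of_nonneg (hq b hb)]
    calc q b * |g b| ≤ q b * 1 := mul_le_mul_of_nonneg_left (hg b hb) (hq b hb)
      _ = q b := mul_one _
  have e8 : |Gm * M - Gm| ≤ 3 * ε := by
    have : Gm * M - Gm = Gm * (M - 1) := by ring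
    rw [this, abs_mul]
    calc |Gm| * |M - 1| ≤ 1 * |M - 1| := mul_le_mul_of_nonneg_right hG1 (abs_nonneg _)
      _ ≤ _ := by rw [one_mul]; exact hM1
  rw [← hGm]
  have n1 := abs_le.1 e1
  have n2 := abs_le.1 e2
  have n7 := abs_le.1 h7
  have n8 := abs_le.1 e8
  rw [e3] at n2
  rw [abs_le]
  constructor <;> linarith [n1.1, n1.2, n2.1, n2.2, m1.1, m1.2, m2.1, m2.2, n7.1, n7.2, n8.1, n8.2]

end Pool.Agent.PMA
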