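import Pool.Agent.PMA.Nu
import Pool.Agent.PMA.Kern
import Pool.Agent.PMA.Dl
import Pool.Agent.POL.Bot

/-!
# (PM): the kernel lemma for one set of parameters (helper41): **`asm_core`**
-/

set_option autoImplicit false

namespace HexObs

namespace PMA

open Finset TS SDN SIM NTA TIP ARM ARM.G3

open scoped ENNReal

variable {P : Par}

/-! ### 1. The support of the transport -/

lemma nu_ne {L K : List Bool} (h : nu P L K ≠ 0) : Many P L ∧ ∃ p, p ∈ Way P L K := by
  classical
  rw [nu_eq] at h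
  by_cases hM : Many P L
  · refine ⟨hM, ?_⟩
    rw [if_pos hM] at h
    by_contra hc
    push Not at hc
    apply h
    have h1 : ∑' p : Way P L K, ww P p = 0 := by
      rw [ENNReal.tsum_eq_zero]
      exact fun p => absurd p.2 (hc p)
    rw [h1, mul_zero]
  · rw [if_neg hM] at h
    exact absurd rfl h

lemma way_gw {L K : List Bool} {p : (List Bool × List Bool × List Bool) × (List Bool × ℕ)} (hp : p ∈ Way P L K) : L ∈ GW P := by
  obtain ⟨⟨h1, h2⟩, -⟩ := hp
  rw [h1]
  exact h2.1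

/-- the image is a closed word -/
lemma way_cy (hH : 2 ^ 13 ≤ P.H) {L K : List Bool} {p : (List Bool × List Bool × List Bool) × (List Bool × ℕ)}
    (hp : p ∈ Way P L K) : K ∈ POL.Cy P.N := by
  obtain ⟨⟨X, M, Y⟩, Q, u⟩ := p
  obtain ⟨⟨-, h2⟩, h3, -, -, h5⟩ := hp
  have hO : Out P M := h2.2.2.1
  have hQ : Q ∈ Fil P M := h3
  obtain ⟨h6, h7⟩ := pth_ok hO.1
  obtain ⟨hT, hl, -⟩ := hQ
  have hD : (2 : ℤ) ^ ((pth P M).k + 12) ≤ (pth P M).D := by
    refine le_trans ?_ h6.D1
    have a1 : (2 : ℤ) ^ 13 ≤ P.H := by exact_mod_cast hH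
    have a2 : (0 : ℤ) < 2 ^ (pth P M).k := by positivity
    have a3 : (2 : ℤ) ^ ((pth P M).k + 12) = 2 ^ 12 * 2 ^ (pth P M).k := by ring
    rw [a3]
    nlinarith
  have hP : Plc (pth P M).E (pth P M).r (pth P M).D (pth P M).k 0 M := jn_plc h7 (by
    have a1 : TIW.hn (0 : Pt) = 0 := by decide
    rw [a1]
    positivity)
  have h8 := cy_of h6.ip (by have := h6.r4; omega) h6.e1 hD hP hT
  rw [hl] at h8
  have h9 := POL.Cy.rot h8 (M ++ Q.take u).length
  have h10 : M ++ Q = (M ++ Q.take u) ++ Q.drop u := by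
    rw [List.append_assoc, List.take_append_drop]
  rw [h10, List.rotate_append_length_eq] at h9
  have h11 : K = Q.drop u ++ (M ++ Q.take u) := h5
  rw [h11]
  exact h9

lemma cy_fin (N : ℕ) : (POL.Cy N).Finite := (List.finite_length_eq Bool N).subset fun _ h => h.1

lemma gw_fin (hG : ∀ l z, P.G l z → l ≤ P.N) : (GW P).Finite :=
  (List.finite_length_le Bool P.N).subset fun _ h => hG _ _ h.2

lemma fil_fin (M : List Bool) : (Fil P M).Finite := (List.finite_length_le Bool P.N).subset fun Q h => by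
  have h1 : M.length + Q.length = P.N := h.2.1
  show Q.length ≤ P.N
  omega

/-! ### 2. Finite sums -/

lemma wE_top (t : List Bool) : wE t ≠ ⊤ := ENNReal.ofReal_ne_top

lemma wE_ne (t : List Bool) : wE t ≠ 0 := by
  unfold wE
  rw [Ne, ENNReal.ofReal_eq_zero, not_le]
  exact pow_pos xc_pos _

lemma gf_fs {S : Set (List Bool)} (h : S.Finite) : gf S = ∑ t ∈ h.toFinset, wE t := by
  classical
  have h1 : gf S = ∑' t : List Bool, S.indicator wE t := by
    unfold gf
    rw [← _root_.tsum_subtype]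
  rw [h1, tsum_eq_sum (s := h.toFinset) fun t ht => Set.indicator_of_notMem (fun h2 => ht (h.mem_toFinset.2 h2)) _]
  exact sum_congr rfl fun t ht => Set.indicator_of_mem (h.mem_toFinset.1 ht) _

lemma gf_top {S : Set (List Bool)} (h : S.Finite) : gf S ≠ ⊤ := by
  rw [gf_fs h]
  exact ENNReal.sum_ne_top.2 fun t _ => wE_top t

lemma gf_real {S : Set (List Bool)} (h : S.Finite) : (gf S).toReal = ∑ t ∈ h.toFinset, (wE t).toReal := by
  rw [gf_fs h, ENNReal.toReal_sum fun t _ => wE_top t]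

lemma nu_top (L K : List Bool) : nu P L K ≠ ⊤ :=
  ne_top_of_le_ne_top (wE_top L) ((ENNReal.le_tsum K).trans (nu_row_le L))

/-- the sum over the closed words -/
lemma row_real (hH : 2 ^ 13 ≤ P.H) (L : List Bool) :
    ∑ K ∈ (cy_fin P.N).toFinset, (nu P L K).toReal = (∑' K : List Bool, nu P L K).toReal := by
  rw [← ENNReal.toReal_sum fun K _ => nu_top L K]
  congr 1
  symm
  refine tsum_eq_sum fun K hK => ?_
  by_contra h
  obtain ⟨-, p, hp⟩ := nu_ne h
  exact hK ((cy_fin P.N).mem_toFinset.2 (way_cy hH hp))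

/-- the sum over the open words -/
lemma col_real (hG : ∀ l z, P.G l z → l ≤ P.N) (K : List Bool) :
    ∑ L ∈ (gw_fin hG).toFinset, (nu P L K).toReal = (wE K).toReal * (DD P K).toReal := by
  rw [← ENNReal.toReal_sum fun L _ => nu_top L K, ← ENNReal.toReal_mul, ← nu_col]
  congr 1
  symm
  refine tsum_eq_sum fun L hL => ?_
  by_contra h
  obtain ⟨-, p, hp⟩ := nu_ne h
  exact hL ((gw_fin hG).mem_toFinset.2 (way_gw hp))

lemma cnt_pos {l q : ℕ} (hl : 2 ≤ l) : cnt l q ≠ 0 := by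
  unfold cnt
  rw [Ne, card_eq_zero]
  intro h
  rcases Nat.mod_two_eq_zero_or_one (l + q) with h1 | h1
  · have h2 : 0 ∈ (range l).filter fun u => (l - u) % 2 = q % 2 := by
      rw [mem_filter, mem_range]
      omega
    rw [h] at h2
    exact absurd h2 (notMem_empty _)
  · have h2 : 1 ∈ (range l).filter fun u => (l - u) % 2 = q % 2 := by
      rw [mem_filter, mem_range]
      omega
    rw [h] at h2
    exact absurd h2 (notMem_empty _)

/-! ### 3. The kernel -/

/-- **the kernel lemma for one set of parameters** -/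
theorem asm_core {T w : ℕ} {Λ ε : ℝ} {φ : List Bool × List Bool → ℝ≥0∞} {Bad : Set (List Bool)} {f g : List Bool → ℝ}
    (hH : 2 ^ 13 ≤ P.H) (hG : ∀ l z, P.G l z → l ≤ P.N) (hκ : 0 < P.κ) (hε : 0 < ε) (hΛ : 0 < Λ)
    (hA0 : gf (GW P) ≠ 0) (hB0 : gf (POL.Cy P.N) ≠ 0) (hF : ∀ L ∈ GW P, ∀ x ∈ AD P L, gf (Fil P x.2.1) ≠ 0)
    (ha0 : 2 ≤ P.a0 * ml P.j) (hmany : gf {L | L ∈ GW P ∧ ¬ Many P L} ≤ ENNReal.ofReal ε * gf (GW P))
    (hD : ∀ K ∈ POL.Cy P.N, DD P K * gf (POL.Cy P.N) ≤ ENNReal.ofReal Λ * gf (GW P))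
    (hφ : ∀ K ∈ POL.Cy P.N, Far T w K → DD P K = φ (win T K))
    (hfar : ENNReal.ofReal Λ * gf {K | K ∈ POL.Cy P.N ∧ ¬ Far T w K} ≤ ENNReal.ofReal ε * gf (POL.Cy P.N))
    (hbad : ENNReal.ofReal Λ * gf {K | K ∈ POL.Cy P.N ∧ K ∈ Bad} ≤ ENNReal.ofReal ε * gf (POL.Cy P.N))
    (hf : ∀ L, |f L| ≤ 1) (hg : ∀ K, |g K| ≤ 1)
    (hfg : ∀ (L K : List Bool) (p : (List Bool × List Bool × List Bool) × (List Bool × ℕ)), p ∈ Way P L K → K ∉ Bad →
      |f L - g K| ≤ ε)
    (h7 : ∀ Φ : List Bool × List Bool → ℝ, (∀ v, 0 ≤ Φ v ∧ Φ v ≤ 1) →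
      |(∑ K ∈ (cy_fin P.N).toFinset, (wE K).toReal / (gf (POL.Cy P.N)).toReal * (g K * Φ (win T K))) -
        (∑ K ∈ (cy_fin P.N).toFinset, (wE K).toReal / (gf (POL.Cy P.N)).toReal * g K) *
          ∑ K ∈ (cy_fin P.N).toFinset, (wE K).toReal / (gf (POL.Cy P.N)).toReal * Φ (win T K)| ≤ ε / Λ) :
    |(∑ L ∈ (gw_fin hG).toFinset, (wE L).toReal / (gf (GW P)).toReal * f L) -
      ∑ K ∈ (cy_fin P.N).toFinset, (wE K).toReal / (gf (POL.Cy P.N)).toReal * g K| ≤ 8 * (3 * ε) := by
  classical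
  obtain ⟨A, hA⟩ : ∃ A : Finset (List Bool), A = (gw_fin hG).toFinset := ⟨_, rfl⟩
  obtain ⟨B, hB⟩ : ∃ B : Finset (List Bool), B = (cy_fin P.N).toFinset := ⟨_, rfl⟩
  have mA : ∀ L, L ∈ A ↔ L ∈ GW P := fun L => by
    rw [hA]
    exact (gw_fin hG).mem_toFinset
  have mB : ∀ K, K ∈ B ↔ K ∈ POL.Cy P.N := fun K => by
    rw [hB]
    exact (cy_fin P.N).mem_toFinset
  obtain ⟨gA, hgA⟩ : ∃ x : ℝ, x = (gf (GW P)).toReal := ⟨_, rfl⟩
  obtain ⟨gB, hgB⟩ : ∃ x : ℝ, x = (gf (POL.Cy P.N)).toReal := ⟨_, rfl⟩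
  have tA := gf_top (gw_fin hG)
  have tB := gf_top (cy_fin P.N)
  have gA0 : 0 < gA := hgA ▸ ENNReal.toReal_pos hA0 tA
  have gB0 : 0 < gB := hgB ▸ ENNReal.toReal_pos hB0 tB
  have sA : gA = ∑ L ∈ A, (wE L).toReal := by
    rw [hgA, hA]
    exact gf_real _
  have sB : gB = ∑ K ∈ B, (wE K).toReal := by
    rw [hgB, hB]
    exact gf_real _
  have w0 : ∀ t : List Bool, 0 ≤ (wE t).toReal := fun t => ENNReal.toReal_nonneg
  rw [← hA, ← hB, ← hgA, ← hgB]
  rw [← hB, ← hgB] at h7
  have rows := row_real (P := P) hH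
  have cols := col_real (P := P) hG
  rw [← hB] at rows
  rw [← hA] at cols
  -- the masses of subsets
  have subB : ∀ S : Set (List Bool), (gf {K | K ∈ POL.Cy P.N ∧ K ∈ S}).toReal = ∑ K ∈ B, if K ∈ S then (wE K).toReal else 0 := by
    intro S
    have h1 : {K | K ∈ POL.Cy P.N ∧ K ∈ S}.Finite := (cy_fin P.N).subset fun K h => h.1
    rw [gf_real h1, ← sum_filter]
    refine sum_congr ?_ fun _ _ => rfl
    ext K
    rw [h1.mem_toFinset, mem_filter, mB]
    exact Iff.rfl
  have subB' : ∀ S : Set (List Bool), ENNReal.ofReal Λ * gf {K | K ∈ POL.Cy P.N ∧ K ∈ S} ≤ ENNReal.ofReal ε * gf (POL.Cy P.N) →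
      Λ * ∑ K ∈ B, (if K ∈ S then (wE K).toReal else 0) ≤ ε * gB := by
    intro S h
    have h2 := ENNReal.toReal_mono (ENNReal.mul_ne_top ENNReal.ofReal_ne_top tB) h
    rw [ENNReal.toReal_mul, ENNReal.toReal_mul, ENNReal.toReal_ofReal hΛ.le, ENNReal.toReal_ofReal hε.le, ← hgB, subB] at h2
    exact h2
  have hDR : ∀ K ∈ B, (DD P K).toReal * gB ≤ Λ * gA := by
    intro K hK
    have h2 := ENNReal.toReal_mono (ENNReal.mul_ne_top ENNReal.ofReal_ne_top tA) (hD K ((mB K).1 hK))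
    rw [ENNReal.toReal_mul, ENNReal.toReal_mul, ENNReal.toReal_ofReal hΛ.le, ← hgB, ← hgA] at h2
    exact h2
  have dd0 : ∀ K, 0 ≤ (DD P K).toReal := fun K => ENNReal.toReal_nonneg
  -- the mass of the transport on a set of closed words
  have hset : ∀ S : Set (List Bool), ENNReal.ofReal Λ * gf {K | K ∈ POL.Cy P.N ∧ K ∈ S} ≤ ENNReal.ofReal ε * gf (POL.Cy P.N) →
      ∑ L ∈ A, ∑ K ∈ B, (if K ∈ S then (nu P L K).toReal / gA else 0) ≤ ε := by
    intro S h
    rw [sum_comm]
    have h1 : ∀ K ∈ B, ∑ L ∈ A, (if K ∈ S then (nu P L K).toReal / gA else 0) ≤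
        Λ / gB * (if K ∈ S then (wE K).toReal else 0) := by
      intro K hK
      by_cases hS : K ∈ S
      · simp only [if_pos hS]
        rw [← sum_div, cols, div_le_iff₀ gA0]
        have h2 := hDR K hK
        have h3 : Λ / gB * (wE K).toReal * gA = (wE K).toReal * (Λ * gA / gB) := by
          field_simp
        rw [h3]
        refine mul_le_mul_of_nonneg_left ?_ (w0 K)
        rw [le_div_iff₀ gB0]
        exact h2
      · simp only [if_neg hS, sum_const_zero, mul_zero]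
        exact le_rfl
    refine (sum_le_sum h1).trans ?_
    rw [← mul_sum, div_mul_eq_mul_div, div_le_iff₀ gB0]
    exact subB' S h
  -- the data
  obtain ⟨ν, hν⟩ : ∃ ν : List Bool → List Bool → ℝ, ν = fun L K => if Far T w K then (nu P L K).toReal / gA else 0 := ⟨_, rfl⟩
  obtain ⟨D, hDd⟩ : ∃ D : List Bool → ℝ, D = fun K => if Far T w K then (DD P K).toReal * gB / gA else 0 := ⟨_, rfl⟩
  obtain ⟨Dl, hDl⟩ : ∃ Dl : List Bool × List Bool → ℝ, Dl = fun v => min ((φ v).toReal * gB / gA) Λ := ⟨_, rfl⟩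
  have ν0 : ∀ L K, 0 ≤ ν L K := by
    intro L K
    rw [hν]
    beta_reduce
    split_ifs
    · positivity
    · exact le_rfl
  have νle : ∀ L K, ν L K ≤ (nu P L K).toReal / gA := by
    intro L K
    rw [hν]
    beta_reduce
    split_ifs
    · exact le_rfl
    · positivity
  have hDΛ : ∀ K ∈ B, D K ≤ Λ := by
    intro K hK
    rw [hDd]
    beta_reduce
    split_ifs
    · rw [div_le_iff₀ gA0]
      exact hDR K hK
    · exact hΛ.le
  have h1 : ∀ L ∈ A, ∑ K ∈ B, ν L K ≤ (wE L).toReal / gA := by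
    intro L _
    refine (sum_le_sum fun K _ => νle L K).trans ?_
    rw [← sum_div, rows]
    refine div_le_div_of_nonneg_right ?_ gA0.le
    exact ENNReal.toReal_mono (wE_top L) (nu_row_le L)
  -- the total mass
  obtain ⟨SF, hSF⟩ : ∃ SF : Set (List Bool), SF = {K | ¬ Far T w K} := ⟨_, rfl⟩
  have mSF : ∀ K, K ∈ SF ↔ ¬ Far T w K := fun K => by
    rw [hSF]
    exact Iff.rfl
  have hfarS : ENNReal.ofReal Λ * gf {K | K ∈ POL.Cy P.N ∧ K ∈ SF} ≤ ENNReal.ofReal ε * gf (POL.Cy P.N) := by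
    rw [hSF]
    exact hfar
  have hfar' := hset SF hfarS
  have h2 : 1 - 3 * ε ≤ ∑ L ∈ A, ∑ K ∈ B, ν L K := by
    have e1 : ∑ L ∈ A, ∑ K ∈ B, ν L K = ∑ L ∈ A, ∑ K ∈ B, (nu P L K).toReal / gA -
        ∑ L ∈ A, ∑ K ∈ B, (if K ∈ SF then (nu P L K).toReal / gA else 0) := by
      rw [← sum_sub_distrib]
      refine sum_congr rfl fun L _ => ?_
      rw [← sum_sub_distrib]
      refine sum_congr rfl fun K _ => ?_
      rw [hν]
      beta_reduce
      by_cases hK : Far T w K
      · rw [if_pos hK, if_neg (fun h => (mSF K).1 h hK), sub_zero]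
      · rw [if_neg hK, if_pos ((mSF K).2 hK), sub_self]
    have e2 : 1 - ε ≤ ∑ L ∈ A, ∑ K ∈ B, (nu P L K).toReal / gA := by
      have e3 : ∀ L ∈ A, ((wE L).toReal - (if Many P L then 0 else (wE L).toReal)) / gA ≤ ∑ K ∈ B, (nu P L K).toReal / gA := by
        intro L hL
        rw [← sum_div, rows]
        refine div_le_div_of_nonneg_right ?_ gA0.le
        by_cases hM : Many P L
        · rw [if_pos hM, sub_zero]
          have hN : 0 < NN P L := by
            have hU : 0 < Ub P.j := Num2Aux.UU_pos _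
            have h3 := hM.1
            have h4 : (0 : ℝ) < P.κ ^ 2 * Ub P.j ^ 2 := by positivity
            exact_mod_cast h4.trans_le h3
          have h5 := nu_row hM hN (fun x hx => ⟨hF L ((mA L).1 hL) x hx, gf_top (fil_fin _)⟩) fun x hx Q hQ => by
            refine cnt_pos ?_
            have h6 := hx.2.2.2.1
            have h7 : x.2.1.length + Q.length = P.N := hQ.2.1
            have h8 := h6.2.1
            have h9 : ((x.2.1.length + Q.length : ℕ) : ℝ) = P.N := by exact_mod_cast h7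
            push_cast at h9
            have h10 : (2 : ℝ) ≤ Q.length := by linarith
            exact_mod_cast h10
          rw [h5]
        · rw [if_neg hM, sub_self]
          exact ENNReal.toReal_nonneg
      refine le_trans ?_ (sum_le_sum e3)
      rw [← sum_div, sum_sub_distrib, ← sA, le_div_iff₀ gA0]
      have e4 : ∑ L ∈ A, (if Many P L then 0 else (wE L).toReal) ≤ ε * gA := by
        have h3 : {L | L ∈ GW P ∧ ¬ Many P L}.Finite := (gw_fin hG).subset fun L h => h.1
        have h4 := ENNReal.toReal_mono (ENNReal.mul_ne_top ENNReal.ofReal_ne_top tA) hmany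
        rw [ENNReal.toReal_mul, ENNReal.toReal_ofReal hε.le, ← hgA, gf_real h3] at h4
        refine le_trans (le_of_eq ?_) h4
        have h5 : ∀ L ∈ A, (if Many P L then 0 else (wE L).toReal) = if ¬ Many P L then (wE L).toReal else 0 := by
          intro L _
          by_cases hM : Many P L
          · rw [if_pos hM, if_neg (not_not.2 hM)]
          · rw [if_neg hM, if_pos hM]
        rw [sum_congr rfl h5, ← sum_filter]
        refine sum_congr ?_ fun _ _ => rfl
        ext L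
        rw [h3.mem_toFinset, mem_filter, mA]
        exact Iff.rfl
      linarith
    rw [e1]
    linarith
  have h3 : ∀ K ∈ B, ∑ L ∈ A, ν L K = D K * ((wE K).toReal / gB) := by
    intro K _
    rw [hν, hDd]
    beta_reduce
    by_cases hK : Far T w K
    · simp only [if_pos hK]
      rw [← sum_div, cols]
      field_simp
    · simp only [if_neg hK, sum_const_zero, zero_mul]
  have hνbad : ∑ L ∈ A, ∑ K ∈ B, (if K ∈ Bad then ν L K else 0) ≤ ε := by
    refine le_trans (sum_le_sum fun L _ => sum_le_sum fun K _ => ?_) (hset Bad hbad)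
    split_ifs
    · exact νle L K
    · exact le_rfl
  have hνle1 : ∑ L ∈ A, ∑ K ∈ B, ν L K ≤ 1 := by
    refine (sum_le_sum h1).trans (le_of_eq ?_)
    rw [← sum_div, ← sA, div_self gA0.ne']
  have h4 : ∑ L ∈ A, ∑ K ∈ B, ν L K * |f L - g K| ≤ 3 * ε := by
    have e1 : ∀ L ∈ A, ∀ K ∈ B, ν L K * |f L - g K| ≤ ε * ν L K + 2 * (if K ∈ Bad then ν L K else 0) := by
      intro L _ K _
      have n0 := ν0 L K
      rcases eq_or_ne (ν L K) 0 with hz | hz
      · rw [hz, zero_mul, mul_zero, ite_self, mul_zero, add_zero]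
      · by_cases hK : K ∈ Bad
        · rw [if_pos hK]
          have a1 : |f L - g K| ≤ 2 := by
            have b1 := abs_le.1 (hf L)
            have b2 := abs_le.1 (hg K)
            rw [abs_le]
            constructor <;> linarith [b1.1, b1.2, b2.1, b2.2]
          nlinarith
        · rw [if_neg hK, mul_zero, add_zero]
          have hz' : nu P L K ≠ 0 := by
            intro h0
            apply hz
            rw [hν]
            beta_reduce
            rw [h0]
            simp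
          obtain ⟨-, p, hp⟩ := nu_ne hz'
          have a1 := hfg L K p hp hK
          nlinarith
    calc ∑ L ∈ A, ∑ K ∈ B, ν L K * |f L - g K| ≤ ∑ L ∈ A, ∑ K ∈ B, (ε * ν L K + 2 * (if K ∈ Bad then ν L K else 0)) :=
          sum_le_sum fun L hL => sum_le_sum fun K hK => e1 L hL K hK
      _ = ε * (∑ L ∈ A, ∑ K ∈ B, ν L K) + 2 * ∑ L ∈ A, ∑ K ∈ B, (if K ∈ Bad then ν L K else 0) := by
          simp only [sum_add_distrib, mul_sum]
      _ ≤ 3 * ε := by nlinarith
  have h5 : ∑ K ∈ B, (wE K).toReal / gB * max (D K - Λ) 0 ≤ 3 * ε := by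
    rw [sum_eq_zero]
    · positivity
    · intro K hK
      rw [max_eq_right (by linarith [hDΛ K hK]), mul_zero]
  have h6 : ∑ K ∈ B, (wE K).toReal / gB * |min (D K) Λ - Dl (win T K)| ≤ 3 * ε := by
    have e1 := h6_of (B := B) (q := fun K => (wE K).toReal / gB) (D := D) (φ := fun v => (φ v).toReal * gB / gA) (T := T) (w := w)
      (Lam := Λ) (ε := ε) (fun K _ => div_nonneg (w0 K) gB0.le) (fun v => by positivity) hΛ.le (fun K hK hf => by
        rw [hDd]
        beta_reduce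
        rw [if_pos hf, hφ K ((mB K).1 hK) hf]) (fun K _ hf => by
        rw [hDd]
        beta_reduce
        rw [if_neg hf]) (by
        have a1 := subB' SF hfarS
        have a2 : ∑ K ∈ B, (wE K).toReal / gB * TIP.ind (K ∈ {K | ¬ Far T w K}) =
            (∑ K ∈ B, (if K ∈ SF then (wE K).toReal else 0)) / gB := by
          rw [sum_div]
          refine sum_congr rfl fun K _ => ?_
          rw [← hSF]
          by_cases hK : K ∈ SF
          · rw [TIP.ind_pos hK, if_pos hK, mul_one]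
          · rw [TIP.ind_neg hK, if_neg hK, mul_zero, zero_div]
        rw [a2, ← mul_div_assoc, div_le_iff₀ gB0]
        exact a1)
    rw [hDl]
    beta_reduce
    linarith
  have h7' : |∑ K ∈ B, (wE K).toReal / gB * (g K * Dl (win T K)) -
      (∑ K ∈ B, (wE K).toReal / gB * g K) * ∑ K ∈ B, (wE K).toReal / gB * Dl (win T K)| ≤ 3 * ε := by
    have a0 : ∀ v, 0 ≤ Dl v ∧ Dl v ≤ Λ := by
      intro v
      rw [hDl]
      exact ⟨le_min (by positivity) hΛ.le, min_le_right _ _⟩
    have a1 := h7 (fun v => Dl v / Λ) fun v => ⟨div_nonneg (a0 v).1 hΛ.le, (div_le_one hΛ).2 (a0 v).2⟩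
    have a2 : ∑ K ∈ B, (wE K).toReal / gB * (g K * (Dl (win T K) / Λ)) =
        (∑ K ∈ B, (wE K).toReal / gB * (g K * Dl (win T K))) / Λ := by
      rw [sum_div]
      exact sum_congr rfl fun K _ => by ring
    have a3 : ∑ K ∈ B, (wE K).toReal / gB * (Dl (win T K) / Λ) = (∑ K ∈ B, (wE K).toReal / gB * Dl (win T K)) / Λ := by
      rw [sum_div]
      exact sum_congr rfl fun K _ => by ring
    rw [a2, a3, ← mul_div_assoc, ← sub_div, abs_div, abs_of_pos hΛ, div_le_div_iff_of_pos_right hΛ] at a1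
    linarith
  exact Pool.Agent.PMA.kern (A := A) (B := B) (p := fun L => (wE L).toReal / gA) (q := fun K => (wE K).toReal / gB) (f := f)
    (g := g) (D := D) (Dl := fun K => Dl (win T K)) (ν := ν) (ε := 3 * ε) (L := Λ) (fun K _ => div_nonneg (w0 K) gB0.le)
    (by rw [← sum_div, ← sA, div_self gA0.ne']) (by rw [← sum_div, ← sB, div_self gB0.ne']) (fun L _ K _ => ν0 L K)
    (fun L _ => hf L) (fun K _ => hg K) h1 h2 h3 h4 h5 h6 h7'

end PMA

end HexObs
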