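import Pool.Agent.PMA.QFac
import Pool.Agent.ARM.RootB

/-!
# PM (page 83R), row K6 (helper28): closed words with two good factors and a rare factor in the root piece

* `E2Q` : closed words `P ++ Z ++ V ++ W ++ Y`, `Z`, `W` good, `P`, `Y` in the box of the scale `b + J`, `P` or `Y` has a factor in `QQ`;
* **`e2g_of`** : if the words of a larger box with a factor in `QQ` are a part `δ` of all words, then `E2Q` is a part
  `A δ ^ c B ^ J` of all closed words.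
-/

set_option autoImplicit false

namespace HexObs

namespace PMA

open Finset TS SDN HexObs.SIM NTA TIP ARM ARM.T2

open TIP.Nf (cz mem_cz nc_cz rank_lt rank_sum card_rank cz_split in_mid in_app in_mono Dt NeW)

open scoped ENNReal

/-- closed words with two good factors and a factor in QQ in the root piece -/
def E2Q (κ : ℝ) (C b J : ℕ) (QQ : Set (List Bool)) (n : ℕ) : Set (List Bool) :=
  {L | L ∈ C0 n ∧ ∃ P Z V W Y, L = P ++ (Z ++ (V ++ (W ++ Y))) ∧ Z ∈ Zc κ C b ∧ W ∈ Zc κ C b ∧ In (2 ^ (b + J)) P ∧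
    In (2 ^ (b + J)) Y ∧ (P ∈ NPR.Fac QQ ∨ Y ∈ NPR.Fac QQ)}

/-- the relation of the two ends -/
def RhG (b E : ℕ) (η : ℝ) (QQ : Set (List Bool)) (Y2 M Y1 : List Bool) : Prop :=
  M ∈ TwoG η E b ∧ (∃ R2, ∃ T ∈ NPR.GE η E b, Y2 = R2 ++ T ∧ ∃ S ∈ NPR.GS η E b, ∃ R1, Y1 = S ++ R1 ∧
    (R2 ∈ NPR.Fac QQ ∨ R1 ∈ NPR.Fac QQ))

lemma fac_suf {QQ : Set (List Bool)} {R : List Bool} (X : List Bool) (h : R ∈ NPR.Fac QQ) : R ++ X ∈ NPR.Fac QQ := by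
  obtain ⟨A, Q, B, rfl, hQ⟩ := h
  exact ⟨A, Q, B ++ X, by simp only [List.append_assoc], hQ⟩

/-- **the root piece of a closed word** -/
lemma wq_of {η : ℝ} {E b J n : ℕ} {QQ : Set (List Bool)} {Y2 M Y1 : List Bool} {β : Bool} (hb : b ≠ 0) (hM : M ≠ [])
    (h : ∃ R2, ∃ T ∈ NPR.GE η E b, Y2 = R2 ++ T ∧ ∃ S ∈ NPR.GS η E b, ∃ R1, Y1 = S ++ R1 ∧
      (R2 ∈ NPR.Fac QQ ∨ R1 ∈ NPR.Fac QQ)) (i2 : In (2 ^ (b + J)) Y2) (i1 : In (2 ^ (b + J)) Y1)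
    (hc : M ++ ((Y1 ++ [β]) ++ Y2) ∈ POL.Cy (n + 1)) : (Y1 ++ [β]) ++ Y2 ∈ WQ η E b (J + 2) QQ := by
  obtain ⟨R2, T, hT, rfl, S, hS, R1, rfl, hR⟩ := h
  refine ⟨POL.cy_take (POL.cy_rot hc) hM, ?_, S, hS, R1 ++ ([β] ++ R2), ?_, T, hT, ?_⟩
  · have h3 := in_app2 (in_app2 i1 (in_letter (β := β))) i2
    refine in_mono h3 ?_
    have e : 2 ^ (b + (J + 2)) = 4 * 2 ^ (b + J) := by rw [← add_assoc, pow_add]; ring
    have e2 : 2 ^ 1 ≤ 2 ^ (b + J) := Nat.pow_le_pow_right (by norm_num) (by omega)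
    rw [e]
    omega
  · rcases hR with hR | hR
    · exact fac_pre R1 (fac_pre [β] hR)
    · exact fac_suf _ hR
  · simp only [List.append_assoc]

section

variable {κ η : ℝ} {C b : ℕ} {L P Z1 Z2 Z3 V W1 W2 W3 Y : List Bool}

/-- **the number of the decompositions** -/
theorem tri_G (hW : NeW) (hd : T2.D2 κ C b L P Z1 Z2 Z3 V W1 W2 W3 Y) (hb : b ≠ 0) {h E J : ℕ} {QQ : Set (List Bool)} (hh : 1 ≤ h)
    (hη : η * Ub b ≤ (h : ℝ)) (hz : 4 * h ≤ nc Z2) (hw : 4 * h ≤ nc W2) (hE : 2 * C ≤ E) (hC : 2 * C ≤ 2 ^ J)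
    (hP : In (2 ^ (b + J)) P) (hY : In (2 ^ (b + J)) Y) (hbig : P ∈ NPR.Fac QQ ∨ Y ∈ NPR.Fac QQ) :
    h * h ≤ (tri (2 ^ (b + (J + 1))) (RhG b E η QQ) L).ncard := by
  obtain ⟨S1, hS1, hc1⟩ := card_ix hW hh hz
  obtain ⟨S2, hS2, hc2⟩ := card_ix hW hh hw
  have key : S1.card * S2.card ≤ (tri (2 ^ (b + (J + 1))) (RhG b E η QQ) L).ncard := by
    refine tri_ge (p1 := fun c => P ++ (Z1 ++ Z2.take c)) (p2 := fun d => W2.drop d ++ (W3 ++ Y)) ?_ ?_ ?_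
    · intro c hc c' hc' he
      have h1 := congrArg List.length he
      have h2 := (mem_cz.1 (hc1 c hc).1).1
      have h3 := (mem_cz.1 (hc1 c' hc').1).1
      simp only [List.length_append, List.length_take] at h1
      omega
    · intro c hc c' hc' he
      have h1 := congrArg List.length he
      have h2 := (mem_cz.1 (hc2 c hc).1).1
      have h3 := (mem_cz.1 (hc2 c' hc').1).1
      simp only [List.length_append, List.length_drop] at h1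
      omega
    · intro c hc d hdd
      obtain ⟨e1, e2, e3⟩ := hc1 c hc
      obtain ⟨f1, f2, f3⟩ := hc2 d hdd
      obtain ⟨g1, g2⟩ := hd.box (c := c) hC hP hY f1
      obtain ⟨i1, i2, i3, i4⟩ := hd.parts hW hb hη hz hw hE e1 e2 e3 f1 f2 f3
      have hs' := rank_sum hW f1
      exact ⟨g1, g2, _, i1, i2, P, _, hd.z.ge hb e1 hη e2 (by omega), rfl, _, hd.w.gs hb f1 hη (by omega) hE, Y,
        by simp only [List.append_assoc], hbig⟩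
  rwa [hS1, hS2] at key

end

/-- **two good factors, a rare factor in the root piece** -/
theorem e2g_of {κ : ℝ} {C : ℕ} (hκ : 0 < κ) (hS : SmL) (hP : PMJ) (hT : T1) (hE : ExCs) :
    ∃ (A c B : ℝ) (s b0 : ℕ), 0 < A ∧ 0 < c ∧ 1 ≤ B ∧ ∀ (n b J : ℕ) (QQ : Set (List Bool)) (δ : ℝ), 1 ≤ n → b0 ≤ b →
      0 < δ → δ ≤ 1 → gf {t | t ∈ WL (b + J + s) ∧ t ∈ NPR.Fac QQ} ≤ ENNReal.ofReal δ * NPR.FK (b + J + s) →
      gf (E2Q κ C b J QQ n) ≤ ENNReal.ofReal (A * δ ^ c * B ^ J * (n : ℝ) ^ (-(3 / 2) : ℝ)) := by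
  obtain ⟨D, hD, hT⟩ := hT
  obtain ⟨C1, hC1, hE⟩ := hE (κ / 8) (2 * C) 1 (by positivity)
  obtain ⟨C2, c, B, b1, hC2, hc, hB, hQ⟩ := qfac_of hS hP (κ / 8) (2 * C) 5 (by positivity)
  obtain ⟨K, hK, hF⟩ := final_num TPC.xLow (κ := κ / 8) (by positivity)
  obtain ⟨b2, hb2⟩ := exU hκ 8
  have hxc := xc_pos
  obtain ⟨c0, hc0⟩ : ∃ c0 : ℕ, c0 = 2 * C := ⟨_, rfl⟩
  refine ⟨K * (C1 * D) * xc⁻¹ * C2 * B ^ (c0 + 3) * 16 ^ c0, c, B * 16, c0 + 18, b1 + b2 + 1, by positivity, hc,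
    by nlinarith, fun n b J QQ δ hn hb hδ hδ1 hm => ?_⟩
  have hU := Ub_pos b
  have hb0 : b ≠ 0 := by omega
  obtain ⟨h, hh1, hh2, hh3⟩ := hh_of hκ (hb2 b (by omega))
  obtain ⟨g, hg⟩ : ∃ g : ℝ, g = C2 * δ ^ c * B ^ (J + c0 + 3) := ⟨_, rfl⟩
  have hg0 : 0 ≤ g := by rw [hg]; positivity
  have hCJ : 2 * C ≤ 2 ^ (J + c0) := (show 2 * C ≤ J + c0 by omega).trans Nat.lt_two_pow_self.le
  -- the inner bound
  have hin : ∀ M, ∑' p : {p : List Bool × List Bool | RhG b (2 * C) (κ / 8) QQ p.1 M p.2 ∧ In (2 ^ (b + (J + c0) + 1)) p.1 ∧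
      In (2 ^ (b + (J + c0) + 1)) p.2 ∧ p.1 ++ (M ++ p.2) ∈ C0 n}, wE (p : List Bool × List Bool).1 * wE (p : List Bool × List Bool).2 ≤
        ENNReal.ofReal (xc⁻¹ * (g * (Ub b / 4 ^ b))) * ENNReal.ofReal (ARM.wt n M.length (b + (J + c0))) := by
    intro M
    refine le_trans (root_in (n := n) (M := M) (Q := WQ (κ / 8) (2 * C) b (J + c0 + 3) QQ)
      (X := ENNReal.ofReal (g * (Ub b / (4 ^ b * ml b)) / (1 + ((n + 1 - M.length : ℕ) : ℝ) / ml b) ^ 5)) ?_ ?_)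
      (root_num hg0 (Nat.le_add_right b (J + c0)))
    · rintro ⟨Y2, Y1⟩ ⟨⟨hM, h2⟩, i2, i1, h4⟩
      refine ⟨h4, fun β hβ => ?_⟩
      have := wq_of (J := J + c0 + 1) hb0 (twoG_ne hb0 hM) h2 (by rwa [← add_assoc b (J + c0) 1]) (by rwa [← add_assoc b (J + c0) 1]) hβ
      rwa [show J + c0 + 1 + 2 = J + c0 + 3 by omega] at this
    · intro z
      rw [hg]
      refine hQ b (J + c0 + 3) QQ δ (by omega) hδ hδ1 ?_ _ z
      rwa [show b + (J + c0 + 3) + 15 = b + J + (c0 + 18) by omega]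
  have h1 := hE D n (b + (J + c0)) b hD.le (fun n' i _ _ => hT n' i) (Nat.le_add_right b (J + c0)) (RhG b (2 * C) (κ / 8) QQ)
    (ENNReal.ofReal (xc⁻¹ * (g * (Ub b / 4 ^ b)))) ((h : ℝ) * h) (fun Y2 M Y1 hr => hr.1) hin
    (by have : (0 : ℝ) < h := by exact_mod_cast hh1
        positivity)
  have h2 := hF _ b (J + c0) n h (C1 * D) (xc⁻¹ * g) hn (by positivity) (by positivity) hh2 (h1.trans (le_of_eq (by
    rw [mul_assoc xc⁻¹ g])))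
  refine (gf_mono ?_).trans (h2.trans (ENNReal.ofReal_le_ofReal (le_of_eq ?_)))
  · rintro L ⟨hL, P, Z, V, W, Y, e1, hZ, hW', hPi, hYi, hbig⟩
    obtain ⟨Z1, Z2, Z3, rfl, hz⟩ := Zd_of hZ
    obtain ⟨W1, W2, W3, rfl, hw⟩ := Zd_of hW'
    have hd : T2.D2 κ C b L P Z1 Z2 Z3 V W1 W2 W3 Y := ⟨by rw [e1]; simp only [List.append_assoc], hz, hw⟩
    refine ⟨hL, ?_⟩
    have hle : 2 ^ (b + J) ≤ 2 ^ (b + (J + c0)) := Nat.pow_le_pow_right (by norm_num) (by omega)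
    have h3 := tri_G (QQ := QQ) TIP.neW hd hb0 hh1 hh2 (hh3 _ hz.n2) (hh3 _ hw.n2) le_rfl hCJ (in_mono hPi hle) (in_mono hYi hle) hbig
    rw [show b + (J + c0) + 1 = b + (J + c0 + 1) by omega]
    exact_mod_cast h3
  · rw [hg, mul_pow, show J + c0 + 3 = J + (c0 + 3) by omega, pow_add B J (c0 + 3), pow_add 16 J c0]
    ring

end PMA

end HexObs
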