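import Pool.Agent.PMA.PolRot
import Pool.Agent.PMA.E2G

/-!
# PM (page 83R), row K8 (helper22): the modulus of continuity of the closed words

* **`fstX_of`** : the first `y m_b` letters stay in the box of the scale b;
* **`polMod_of`** : no displacement of `ε n ^ (3 / 4)` in at most `δ n` letters, anywhere.
-/

set_option autoImplicit false

namespace HexObs

namespace PMA

open Finset TS SDN HexObs.SIM NTA TIP ARM ARM.T2

open scoped ENNReal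

lemma ml_add (i k : ℕ) : ml (i + k) = ml i * ml k := by
  unfold ml
  rw [← Real.rpow_add (by norm_num)]
  congr 1
  push_cast
  ring

lemma ml_ge_two (k : ℕ) : (2 : ℝ) ^ k ≤ ml k := by
  unfold ml
  rw [← Real.rpow_natCast]
  refine Real.rpow_le_rpow_of_exponent_le (by norm_num) ?_
  have : (0 : ℝ) ≤ k := by positivity
  linarith

lemma ml_le_four (k : ℕ) : ml k ≤ 4 ^ k := by
  unfold ml
  rw [show (4 : ℝ) ^ k = (2 : ℝ) ^ (2 * (k : ℝ)) by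
    rw [Real.rpow_mul (by norm_num), Real.rpow_natCast]; norm_num]
  refine Real.rpow_le_rpow_of_exponent_le (by norm_num) ?_
  have : (0 : ℝ) ≤ k := by positivity
  linarith

/-- the first letters of a closed word stay in the box -/
def FstX : Prop := ∀ ε : ℝ, 0 < ε → ∃ (y : ℝ) (S b0 : ℕ), 0 < y ∧ ∀ n b : ℕ, b0 ≤ b → 2 ^ S * ml b ≤ n →
  gf {L | L ∈ C0 n ∧ ∃ u : ℕ, (u : ℝ) ≤ y * ml b ∧ ¬ In (2 ^ (b + 1)) (L.take u)} ≤
    ENNReal.ofReal (ε * (n : ℝ) ^ (-(3 / 2) : ℝ))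

theorem fstX_of {κ : ℝ} {C s : ℕ} (hB : RootB κ C) (hN : RootN κ C) (hE : E2G κ C s) : FstX := by
  intro ε hε
  obtain ⟨A, J0, b0, hA, h⟩ := root_pow hB hN hE 1 1
  obtain ⟨c1, hc1, hlow⟩ := VF.mLow VF.sharpZ
  obtain ⟨m0, hm0⟩ : ∃ m0 : ℕ, 2 * A / ε < (2 : ℝ) ^ m0 := pow_unbounded_of_one_lt _ (by norm_num)
  obtain ⟨m, hm⟩ : ∃ m, m = m0 + J0 := ⟨_, rfl⟩
  have hm2 : 2 * A / ε ≤ (2 : ℝ) ^ m := hm0.le.trans (pow_le_pow_right₀ (by norm_num) (by omega))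
  refine ⟨(1 / 2) ^ m * (c1 / ml (m + 4)), m, b0 + m + 5, by have := ml_pos (m + 4); positivity, fun n b hb hn => ?_⟩
  have hmb := ml_pos b
  have hn0 : (0 : ℝ) < n := lt_of_lt_of_le (by positivity) hn
  have hn1 : 1 ≤ n := by
    have : (0 : ℕ) < n := by exact_mod_cast hn0
    omega
  obtain ⟨d, rfl⟩ : ∃ d, b = d + m + 2 := ⟨b - m - 2, by omega⟩
  have h1 := h n d m hn1 (by omega) (by omega)
  refine (gf_mono ?_).trans (h1.trans (ENNReal.ofReal_le_ofReal ?_))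
  · rintro L ⟨hL, u, hu, hI⟩
    refine ⟨hL, ?_⟩
    by_contra hcon
    push Not at hcon
    refine hI (ARM.In_of_hn fun k hk => ?_)
    rw [List.length_take] at hk
    have e1 : vx oo up (L.take u) k = vx oo up L k := by
      conv_rhs => rw [← List.take_append_drop u L]
      rw [vx_append (by rw [List.length_take]; omega)]
    have h2 := hcon k (by omega) ?_
    · rw [e1]
      push_cast
      rw [show d + m + 2 + 1 = d + m + 3 by omega]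
      exact h2.le
    · have h3 : (k : ℝ) ≤ u := by exact_mod_cast (show k ≤ u by omega)
      have h4 := hlow (d - 2)
      have h5 : (2 : ℝ) ^ (4 / 3 * ((d - 2 : ℕ) : ℝ)) = ml (d - 2) := rfl
      rw [h5] at h4
      have h6 : ml (d + m + 2) = ml (d - 2) * ml (m + 4) := by
        rw [← ml_add]
        congr 1
        omega
      have h7 := ml_pos (m + 4)
      calc (k : ℝ) ≤ (1 / 2) ^ m * (c1 / ml (m + 4)) * ml (d + m + 2) := h3.trans hu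
        _ = (1 / 2) ^ m * (c1 * ml (d - 2)) := by
            rw [h6]
            field_simp
        _ ≤ _ := by gcongr
  · rw [one_mul, pow_one]
    have h2 : ml (d + m) / n ≤ (1 / 2) ^ m := by
      rw [div_le_iff₀ hn0, one_div, inv_pow, inv_mul_eq_div, le_div_iff₀ (by positivity), mul_comm]
      refine le_trans ?_ hn
      exact mul_le_mul_of_nonneg_left (ARM.ml_mono (by omega)) (by positivity)
    have h3 : A * ((1 / 2) ^ m + ml (d + m) / n) ≤ ε := by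
      calc A * ((1 / 2) ^ m + ml (d + m) / n) ≤ A * ((1 / 2) ^ m + (1 / 2) ^ m) := by gcongr
        _ = (2 * A / ε) * (ε * (1 / 2) ^ m) := by field_simp; ring
        _ ≤ 2 ^ m * (ε * (1 / 2) ^ m) := by gcongr
        _ = ε * (2 * (1 / 2)) ^ m := by rw [mul_pow]; ring
        _ = ε := by norm_num
    exact mul_le_mul_of_nonneg_right h3 (by positivity)

/-- the hypotheses from T1 -/
theorem rows_all (hT : T1) : ∃ (κ : ℝ) (C s : ℕ), RootB κ C ∧ RootN κ C ∧ E2G κ C s := by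
  obtain ⟨κ, hκ, C, -, hR⟩ := TIP.regZ_all
  obtain ⟨h1, h2⟩ := rootBN_all hT hκ hR
  obtain ⟨A, c, B, s, b0, a1, a2, a3, a4⟩ := e2g_of (C := C) hκ smL pMJ hT (exCs_of tipF2s)
  exact ⟨κ, C, s, h1, h2, A, c, B, b0, a1, a2, a3, a4⟩

/-- the first letters of a closed word stay in the box -/
theorem fstX (hT : T1) : FstX := by
  obtain ⟨κ, C, s, h1, h2, h3⟩ := rows_all hT
  exact fstX_of h1 h2 h3

/-- the modulus of continuity of the closed words -/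
def PolMod : Prop := ∀ ε : ℝ, 0 < ε → ∃ (δ : ℝ) (n0 : ℕ), 0 < δ ∧ ∀ n : ℕ, n0 ≤ n →
  gf {L | L ∈ C0 n ∧ ∃ x y : ℕ, x ≤ y ∧ y ≤ n ∧ (y : ℝ) ≤ x + δ * n ∧
    ε * (n : ℝ) ^ (3 / 4 : ℝ) < TIW.hn (vx oo up L y - vx oo up L x)} ≤ ENNReal.ofReal (ε * (n : ℝ) ^ (-(3 / 2) : ℝ))

lemma ml_eq (k : ℕ) : ml k = ((2 : ℝ) ^ k) ^ (4 / 3 : ℝ) := by
  unfold ml
  rw [mul_comm, Real.rpow_mul (by norm_num), Real.rpow_natCast]

theorem polMod_of {κ : ℝ} {C s : ℕ} (hB : RootB κ C) (hN : RootN κ C) (hE : E2G κ C s) : PolMod := by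
  -- ε at most 1
  suffices h : ∀ ε : ℝ, 0 < ε → ε ≤ 1 → ∃ (δ : ℝ) (n0 : ℕ), 0 < δ ∧ ∀ n : ℕ, n0 ≤ n →
      gf {L | L ∈ C0 n ∧ ∃ x y : ℕ, x ≤ y ∧ y ≤ n ∧ (y : ℝ) ≤ x + δ * n ∧
        ε * (n : ℝ) ^ (3 / 4 : ℝ) < TIW.hn (vx oo up L y - vx oo up L x)} ≤
          ENNReal.ofReal (ε * (n : ℝ) ^ (-(3 / 2) : ℝ)) by
    intro ε hε
    obtain ⟨δ, n0, hδ, h1⟩ := h (min ε 1) (lt_min hε one_pos) (min_le_right _ _)
    refine ⟨δ, n0, hδ, fun n hn => (gf_mono ?_).trans ((h1 n hn).trans (ENNReal.ofReal_le_ofReal ?_))⟩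
    · rintro L ⟨hL, x, y, a1, a2, a3, a4⟩
      refine ⟨hL, x, y, a1, a2, a3, lt_of_le_of_lt ?_ a4⟩
      exact mul_le_mul_of_nonneg_right (min_le_left _ _) (by positivity)
    · exact mul_le_mul_of_nonneg_right (min_le_left _ _) (by positivity)
  intro ε hε hε1
  obtain ⟨A, J0, b0, hA, h⟩ := root_pow hB hN hE 6 6
  obtain ⟨c1, hc1, hlow⟩ := VF.mLow VF.sharpZ
  obtain ⟨C2, hC2, hup⟩ := VF.mUp VF.sharpZ
  obtain ⟨K, hK⟩ : ∃ K : ℝ, K = 32 * 2 ^ 14 * A / (c1 * ε ^ 2) := ⟨_, rfl⟩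
  have hK0 : 0 < K := by rw [hK]; positivity
  obtain ⟨m0, hm0⟩ : ∃ m0 : ℕ, K / ε + C2 < (2 : ℝ) ^ m0 := pow_unbounded_of_one_lt _ (by norm_num)
  obtain ⟨m, hm⟩ : ∃ m, m = m0 + J0 := ⟨_, rfl⟩
  have hKe : 0 < K / ε := by positivity
  have hm2 : K / ε + C2 ≤ (2 : ℝ) ^ m := hm0.le.trans (pow_le_pow_right₀ (by norm_num) (by omega))
  have hmK : K ≤ 2 ^ m * ε := by
    have : K / ε ≤ 2 ^ m := by linarith
    rwa [div_le_iff₀ hε] at this
  have hmC : C2 ≤ 2 ^ m := by linarith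
  obtain ⟨ρ, hρ⟩ : ∃ ρ : ℝ, ρ = c1 * ε ^ 2 / 2 ^ (5 * m + 14) := ⟨_, rfl⟩
  have hρ0 : 0 < ρ := by rw [hρ]; positivity
  obtain ⟨R, hR⟩ : ∃ R : ℝ, R = 2 ^ (b0 + 2 * m + 9) / ε := ⟨_, rfl⟩
  have hR1 : 1 ≤ R := by
    rw [hR, le_div_iff₀ hε, one_mul]
    exact hε1.trans (one_le_pow₀ (by norm_num))
  obtain ⟨n1, hn1⟩ := exists_nat_ge (R ^ 2 + 4 / ρ + 1)
  refine ⟨ρ / 8, n1, by positivity, fun n hn => ?_⟩
  have hnn : R ^ 2 + 4 / ρ + 1 ≤ (n : ℝ) := hn1.trans (by exact_mod_cast hn)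
  have h4ρ : 0 < 4 / ρ := by positivity
  have hR2 : 0 ≤ R ^ 2 := by positivity
  have hnR : R ^ 2 ≤ n := by linarith
  have hnρ : 4 / ρ ≤ n := by linarith
  have hn1' : (1 : ℝ) ≤ n := by linarith
  have hn0 : (0 : ℝ) < n := by linarith
  have hnat : 1 ≤ n := by exact_mod_cast hn1'
  obtain ⟨N, hNn⟩ : ∃ N : ℝ, N = (n : ℝ) ^ (3 / 4 : ℝ) := ⟨_, rfl⟩
  have hN0 : 0 < N := by rw [hNn]; positivity
  have hN43 : N ^ (4 / 3 : ℝ) = n := by
    rw [hNn, ← Real.rpow_mul hn0.le]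
    norm_num
  have hRN : R ≤ N := by
    have h1 : R ^ (4 / 3 : ℝ) ≤ R ^ (2 : ℝ) := Real.rpow_le_rpow_of_exponent_le hR1 (by norm_num)
    rw [Real.rpow_two] at h1
    have h2 : (R ^ (4 / 3 : ℝ)) ^ (3 / 4 : ℝ) ≤ (n : ℝ) ^ (3 / 4 : ℝ) :=
      Real.rpow_le_rpow (by positivity) (h1.trans hnR) (by norm_num)
    rw [← Real.rpow_mul (by linarith)] at h2
    norm_num at h2
    rw [hNn]
    exact h2
  have hT : (2 : ℝ) ^ (b0 + 2 * m + 9) ≤ ε * N := by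
    rw [hR, div_le_iff₀ hε] at hRN
    linarith
  obtain ⟨k, hk1, hk2⟩ := exists_nat_pow_near (x := ε * N) (y := (2 : ℝ)) ((one_le_pow₀ (by norm_num)).trans hT) (by norm_num)
  have hkb : b0 + 2 * m + 9 ≤ k := by
    have h1 : (2 : ℝ) ^ (b0 + 2 * m + 9) < 2 ^ (k + 1) := hT.trans_lt hk2
    have h2 := (pow_lt_pow_iff_right₀ (show (1 : ℝ) < 2 by norm_num)).1 h1
    omega
  obtain ⟨b, rfl⟩ : ∃ b, k = b + (2 * m + 4) := ⟨k - (2 * m + 4), by omega⟩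
  obtain ⟨x, hx⟩ : ∃ x : ℝ, x = (1 / 2 : ℝ) ^ m * PW.mZ (2 ^ (b - 2)) := ⟨_, rfl⟩
  -- lower bound of x
  have hxlow : ρ * n ≤ x := by
    have h1 := hlow (b - 2)
    have h5 : (2 : ℝ) ^ (4 / 3 * ((b - 2 : ℕ) : ℝ)) = ml (b - 2) := rfl
    rw [h5] at h1
    have h2 : N * (ε / 2 ^ (2 * m + 7)) ≤ 2 ^ (b - 2) := by
      have e : (2 : ℝ) ^ (b + (2 * m + 4) + 1) = 2 ^ (b - 2) * 2 ^ (2 * m + 7) := by
        rw [← pow_add]
        congr 1
        omega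
      rw [e] at hk2
      rw [← mul_div_assoc, div_le_iff₀ (by positivity)]
      linarith
    have h3 : n * (ε / 2 ^ (2 * m + 7)) ^ 2 ≤ ml (b - 2) := by
      rw [ml_eq]
      have h6 : ε / 2 ^ (2 * m + 7) ≤ 1 := by
        rw [div_le_one (by positivity)]
        exact hε1.trans (one_le_pow₀ (by norm_num))
      have h7 : (ε / 2 ^ (2 * m + 7)) ^ 2 ≤ (ε / 2 ^ (2 * m + 7)) ^ (4 / 3 : ℝ) := by
        rw [← Real.rpow_two]
        exact Real.rpow_le_rpow_of_exponent_ge (by positivity) h6 (by norm_num)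
      calc n * (ε / 2 ^ (2 * m + 7)) ^ 2 ≤ n * (ε / 2 ^ (2 * m + 7)) ^ (4 / 3 : ℝ) := by gcongr
        _ = (N * (ε / 2 ^ (2 * m + 7))) ^ (4 / 3 : ℝ) := by
            rw [Real.mul_rpow hN0.le (by positivity), hN43]
        _ ≤ _ := Real.rpow_le_rpow (by positivity) h2 (by norm_num)
    have e4 : ρ * n = (1 / 2) ^ m * (c1 * (n * (ε / 2 ^ (2 * m + 7)) ^ 2)) := by
      have e5 : (2 : ℝ) ^ (5 * m + 14) = 2 ^ m * (2 ^ (2 * m + 7)) ^ 2 := by
        rw [← pow_mul, ← pow_add]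
        congr 1
        ring
      rw [hρ, e5, one_div, inv_pow]
      field_simp
    rw [hx, e4]
    have h8 : c1 * (n * (ε / 2 ^ (2 * m + 7)) ^ 2) ≤ PW.mZ (2 ^ (b - 2)) := (mul_le_mul_of_nonneg_left h3 hc1.le).trans h1
    exact mul_le_mul_of_nonneg_left h8 (by positivity)
  -- the scale b + m
  have hbm : ml (b + m) ≤ (1 / 2) ^ m * n := by
    have h1 : (2 : ℝ) ^ (b + m) ≤ N * (1 / 2) ^ m := by
      have e : (2 : ℝ) ^ (b + (2 * m + 4)) = 2 ^ (b + m) * (2 ^ m * 16) := by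
        rw [show (16 : ℝ) = 2 ^ 4 by norm_num, ← pow_add, ← pow_add]
        congr 1
        omega
      rw [e] at hk1
      rw [one_div, inv_pow, ← div_eq_mul_inv, le_div_iff₀ (by positivity)]
      have h2 : ε * N ≤ N := by nlinarith
      have h3 : 0 < (2 : ℝ) ^ (b + m) * 2 ^ m := by positivity
      nlinarith
    rw [ml_eq]
    calc ((2 : ℝ) ^ (b + m)) ^ (4 / 3 : ℝ) ≤ (N * (1 / 2) ^ m) ^ (4 / 3 : ℝ) :=
          Real.rpow_le_rpow (by positivity) h1 (by norm_num)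
      _ = n * ((1 / 2) ^ m) ^ (4 / 3 : ℝ) := by rw [Real.mul_rpow hN0.le (by positivity), hN43]
      _ ≤ n * ((1 / 2) ^ m) ^ (1 : ℝ) := by
          refine mul_le_mul_of_nonneg_left ?_ hn0.le
          exact Real.rpow_le_rpow_of_exponent_ge (by positivity) (pow_le_one₀ (by norm_num) (by norm_num)) (by norm_num)
      _ = _ := by rw [Real.rpow_one]; ring
  have hmbp := ml_pos (b + m)
  -- upper bound of x
  have hxup : x ≤ n := by
    have h1 := hup (b - 2)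
    have h5 : (2 : ℝ) ^ (4 / 3 * ((b - 2 : ℕ) : ℝ)) = ml (b - 2) := rfl
    rw [h5] at h1
    have h2 : ml (b - 2) ≤ ml (b + m) := ARM.ml_mono (by omega)
    have h3 : PW.mZ (2 ^ (b - 2)) ≤ 2 ^ m * ((1 / 2) ^ m * n) :=
      h1.trans (mul_le_mul hmC (h2.trans hbm) (ml_pos _).le (by positivity))
    have e : (2 : ℝ) ^ m * ((1 / 2) ^ m * n) = n := by
      rw [← mul_assoc, ← mul_pow]
      norm_num
    rw [e] at h3
    rw [hx]
    have h4 : (1 / 2 : ℝ) ^ m ≤ 1 := pow_le_one₀ (by norm_num) (by norm_num)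
    calc (1 / 2 : ℝ) ^ m * PW.mZ (2 ^ (b - 2)) ≤ (1 / 2) ^ m * n := mul_le_mul_of_nonneg_left h3 (by positivity)
      _ ≤ 1 * n := mul_le_mul_of_nonneg_right h4 hn0.le
      _ = n := one_mul _
  have hx4 : 4 ≤ x := by
    have h1 : 4 ≤ ρ * n := by
      rw [div_le_iff₀ hρ0] at hnρ
      linarith
    linarith
  obtain ⟨ℓ, hℓ⟩ : ∃ ℓ : ℕ, ℓ = ⌊x / 2⌋₊ := ⟨_, rfl⟩
  have hl1 : (ℓ : ℝ) ≤ x / 2 := by rw [hℓ]; exact Nat.floor_le (by linarith)
  have hl2 : x / 2 < ℓ + 1 := by rw [hℓ]; exact Nat.lt_floor_add_one _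
  have hl3 : x / 4 ≤ ℓ := by linarith
  have hlpos : (0 : ℝ) < ℓ := by linarith
  have hl4 : 1 ≤ ℓ := by
    have : 0 < ℓ := by exact_mod_cast hlpos
    omega
  have hl5 : 2 * ℓ ≤ n := by
    have : (2 : ℝ) * ℓ ≤ n := by linarith
    exact_mod_cast this
  have h1 := rot_union hl4 hl5 (2 ^ (b + m + 3))
  have h2 := h n b m hnat (by omega) (by omega)
  rw [← hx] at h2
  refine (gf_mono ?_).trans (h1.trans ?_)
  · rintro L ⟨hL, x', y', a1, a2, a3, a4⟩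
    refine ⟨hL, x', y', a1, a2, ?_, ?_⟩
    · have h3 : (y' : ℝ) ≤ x' + ℓ := by
        have : ρ / 8 * n ≤ ℓ := by linarith
        linarith
      exact_mod_cast h3
    · rw [← hNn] at a4
      have h3 : (2 : ℝ) * 2 ^ (b + m + 3) ≤ ε * N := by
        refine le_trans ?_ hk1
        rw [← pow_succ']
        exact pow_le_pow_right₀ (by norm_num) (by omega)
      have h4 : ((2 * 2 ^ (b + m + 3) : ℤ) : ℝ) ≤ ((TIW.hn (vx oo up L y' - vx oo up L x') : ℤ) : ℝ) := by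
        push_cast
        linarith
      exact_mod_cast h4
  · have h3 : gf (FR (2 ^ (b + m + 3)) ((2 * ℓ : ℕ) : ℝ) n) ≤
        ENNReal.ofReal (A * ((1 / 2) ^ (6 * m) + (ml (b + m) / n) ^ 6) * (n : ℝ) ^ (-(3 / 2) : ℝ)) := by
      refine (gf_mono ?_).trans h2
      rintro L ⟨hL, i, hi, hix, hD⟩
      refine ⟨hL, i, hi, ?_, hD⟩
      push_cast at hix
      linarith
    have h4 : (2 : ℝ≥0∞) * ((n / ℓ + 1 : ℕ) : ℝ≥0∞) = ENNReal.ofReal (2 * ((n / ℓ + 1 : ℕ) : ℝ)) := by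
      rw [ENNReal.ofReal_mul (by norm_num), ENNReal.ofReal_natCast]
      norm_num
    rw [h4]
    refine (mul_le_mul_right h3 _).trans ?_
    rw [← ENNReal.ofReal_mul (by positivity)]
    refine ENNReal.ofReal_le_ofReal ?_
    have hcnt : ((n / ℓ + 1 : ℕ) : ℝ) ≤ 8 / ρ := by
      have h5 : ((n / ℓ : ℕ) : ℝ) ≤ n / ℓ := Nat.cast_div_le
      have h6 : (1 : ℝ) ≤ n / ℓ := by
        rw [le_div_iff₀ hlpos]
        linarith
      have h7 : (n : ℝ) / ℓ ≤ 4 / ρ := by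
        rw [div_le_div_iff₀ hlpos hρ0]
        linarith
      push_cast
      calc ((n / ℓ : ℕ) : ℝ) + 1 ≤ 4 / ρ + 4 / ρ := by linarith
        _ = 8 / ρ := by ring
    have hg : (1 / 2 : ℝ) ^ (6 * m) + (ml (b + m) / n) ^ 6 ≤ 2 * (1 / 2) ^ (6 * m) := by
      have h5 : ml (b + m) / n ≤ (1 / 2) ^ m := by
        rw [div_le_iff₀ hn0]
        exact hbm
      have h6 : (ml (b + m) / n) ^ 6 ≤ ((1 / 2 : ℝ) ^ m) ^ 6 := pow_le_pow_left₀ (by positivity) h5 6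
      rw [← pow_mul, mul_comm m 6] at h6
      linarith
    have hfin : 2 * ((n / ℓ + 1 : ℕ) : ℝ) * (A * ((1 / 2) ^ (6 * m) + (ml (b + m) / n) ^ 6)) ≤ ε := by
      calc 2 * ((n / ℓ + 1 : ℕ) : ℝ) * (A * ((1 / 2) ^ (6 * m) + (ml (b + m) / n) ^ 6))
          ≤ 2 * (8 / ρ) * (A * (2 * (1 / 2) ^ (6 * m))) := by gcongr
        _ = K * (1 / 2) ^ m := by
            rw [hK, hρ, show 6 * m = 5 * m + m by ring, pow_add (1 / 2 : ℝ), show 5 * m + 14 = 14 + 5 * m by ring,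
              pow_add (2 : ℝ) 14]
            have e : (1 / 2 : ℝ) ^ (5 * m) = (2 ^ (5 * m))⁻¹ := by rw [one_div, inv_pow]
            rw [e]
            field_simp
            ring
        _ ≤ (2 ^ m * ε) * (1 / 2) ^ m := by gcongr
        _ = ε * (2 * (1 / 2)) ^ m := by rw [mul_pow]; ring
        _ = ε := by norm_num
    calc 2 * ((n / ℓ + 1 : ℕ) : ℝ) * (A * ((1 / 2) ^ (6 * m) + (ml (b + m) / n) ^ 6) * (n : ℝ) ^ (-(3 / 2) : ℝ))
        = 2 * ((n / ℓ + 1 : ℕ) : ℝ) * (A * ((1 / 2) ^ (6 * m) + (ml (b + m) / n) ^ 6)) * (n : ℝ) ^ (-(3 / 2) : ℝ) := by ring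
      _ ≤ _ := mul_le_mul_of_nonneg_right hfin (by positivity)

/-- **the modulus of continuity of the closed words** -/
theorem polMod (hT : T1) : PolMod := by
  obtain ⟨κ, C, s, h1, h2, h3⟩ := rows_all hT
  exact polMod_of h1 h2 h3

end PMA

end HexObs
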