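import Pool.Agent.TSW.BC1Pub
import Pool.Agent.POL.Pub

/-!
# The polygon as the limit of the walks whose ends are close (page next/46f0ca_83R, theorem (PM)): statements (helper41)

* `Res.pmean`, `Res.cmean`, **`PM`**: the public form;
* **`WPM`**: the form for turn words; `PTight`: the size of the polygons.
-/

set_option autoImplicit false

open MeasureTheory Filter Topology

open scoped Classical

namespace Pool.Agent.PMA

namespace Res

open Pool.Agent.NTS.Res

/-- The self-avoiding walks with `n` steps that end at a neighbour of their first site: for `n ≥ 2` they are the polygons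
with `n + 1` edges (with a starting site and a direction, without the last edge). -/
noncomputable def pol (n : ℕ) : Finset (Fin n → Fin 3) := (saw n).filter fun s => ‖pos s n‖ = 1

/-- The mean of `F (X_n)` for the uniformly random polygon. -/
noncomputable def pmean (n : ℕ) (F : C(unitInterval, ℂ) → ℝ) : ℝ := (∑ s ∈ pol n, F (curve s)) / ((pol n).card : ℝ)

/-- The self-avoiding walks with `k` steps that end at a distance at most `R` from their first site. -/
noncomputable def near (k : ℕ) (R : ℝ) : Finset (Fin k → Fin 3) := (saw k).filter fun s => ‖pos s k‖ ≤ R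

/-- The mean of `F (X_k)` given that the end of the walk is at a distance at most `R`; the number `k` of the steps is uniform in
`I`, the walk with `k` steps is uniform. -/
noncomputable def cmean (I : Finset ℕ) (R : ℝ) (F : C(unitInterval, ℂ) → ℝ) : ℝ :=
  (∑ k ∈ I, (∑ s ∈ near k R, F (curve s)) / ((saw k).card : ℝ)) / ∑ k ∈ I, ((near k R).card : ℝ) / ((saw k).card : ℝ)

end Res

open Res Pool.Agent.NTS.Res

/-- the numbers of steps from `(1 - r ^ (4 / 3)) n` to `n` -/
noncomputable def wdw (n : ℕ) (r : ℝ) : Finset ℕ := (Finset.range (n + 1)).filter fun k => (1 - r ^ (4 / 3 : ℝ)) * n ≤ k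

/-- **(PM), public form**; `F` is even: the walks start on one sublattice only, the polygons see both -/
def PM : Prop := ∀ ε : ℝ, 0 < ε → ∃ r0 : ℝ, 0 < r0 ∧ ∀ r : ℝ, 0 < r → r ≤ r0 → ∃ n0 : ℕ, ∀ n : ℕ, n0 ≤ n → Odd n →
  ∀ F : C(unitInterval, ℂ) → ℝ, (∀ γ, |F γ| ≤ 1) → LipschitzWith 1 F → (∀ γ, F (-γ) = F γ) →
    |pmean n F - cmean (wdw n r) (r * size n) F| ≤ ε

/-! ### words -/

open HexObs HexObs.TIW HexObs.POLP NTSF.Mg NTF Pool.Agent.TSW.BP

/-- the words with `k` letters whose end is at a distance at most `R` -/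
noncomputable def gapF (k : ℕ) (R : ℝ) : Finset (List Bool) := (sawF k).filter fun t => ‖JJ (vx oo up t k)‖ ≤ R

/-- the closed words with `N` letters -/
noncomputable def cyF (N : ℕ) : Finset (List Bool) := (PCy_fin N).toFinset

/-- the mean over the three rotations -/
noncomputable def f3 (F : C(unitInterval, ℂ) → ℝ) (k : ℕ) (t : List Bool) : ℝ := (∑ a : Fin 3, F (pT (cr a) t k)) / 3

/-- the weighted sum over the words of the gap -/
noncomputable def gS (n : ℕ) (r R : ℝ) (f : ℕ → List Bool → ℝ) : ℝ := ∑ k ∈ wdw n r, xc ^ k * ∑ t ∈ gapF k R, f k t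

/-- **(PM) for words** -/
def WPM : Prop := ∀ ε : ℝ, 0 < ε → ∀ K : ℝ, 1 ≤ K → ∃ r0 : ℝ, 0 < r0 ∧ ∀ r : ℝ, 0 < r → r ≤ r0 → ∃ n0 : ℕ,
  ∀ n : ℕ, n0 ≤ n → Odd n → ∀ ρ : ℝ, r / K ≤ ρ → ρ ≤ K * r → ∀ F : C(unitInterval, ℂ) → ℝ, (∀ γ, |F γ| ≤ 1) →
    LipschitzWith 1 F → (∀ γ, F (-γ) = F γ) → |gS n r (ρ * nr n) (f3 F) / gS n r (ρ * nr n) (fun _ _ => 1) -
      (∑ t ∈ cyF (n + 1), f3 F n t) / ((cyF (n + 1)).card : ℝ)| ≤ ε

/-- the polygons with `n + 1` edges have the size `n ^ (3 / 4)` -/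
def PTight : Prop := ∀ ε : ℝ, 0 < ε → ∃ K : ℝ, ∀ n : ℕ, 3 ≤ n → Odd n →
  (((cyF (n + 1)).filter fun t => ∃ i, i ≤ n ∧ K * nr n < ‖JJ (vx oo up t i)‖).card : ℝ) ≤ ε * ((cyF (n + 1)).card : ℝ)

end Pool.Agent.PMA
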