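import Pool.Agent.PMA.AsmA
import Pool.Agent.PMA.PubDefs
import Pool.Agent.PMA.PolMod
import Pool.Agent.POL.LowH
import Pool.Agent.ARM.T1

/-!
# (PM): masses and numbers of closed words (helper41)

* `cy_low`, `cy_up`; `cy_C0`: sets of closed words given by the word without the last letter; `card_cyF`;
* **`pTight : PTight`** from the modulus of the polygons.
-/

set_option autoImplicit false

namespace HexObs

namespace PMA

open Finset TS SDN NTA TIP ARM ARM.G3

open scoped ENNReal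

/-- the mass of the closed words from below -/
theorem cy_low : ∃ (c : ℝ) (N0 : ℕ), 0 < c ∧ ∀ N : ℕ, N0 ≤ N → Even N →
    ENNReal.ofReal (c * (N : ℝ) ^ (-(3 / 2) : ℝ)) ≤ gf (POL.Cy N) := by
  obtain ⟨c, N0, hc, h⟩ := POL.lowH
  refine ⟨c, N0, hc, fun N hN he => ?_⟩
  obtain ⟨G, hG, h1, -⟩ := h N hN he
  exact h1.trans (gf_mono hG)

lemma wE_le_one (t : List Bool) : wE t ≤ 1 := by
  have h : xc ≤ 1 := by
    have h1 : xc ^ 2 = 1 / (2 + Real.sqrt 2) := xc_sq
    have h2 : 0 ≤ Real.sqrt 2 := Real.sqrt_nonneg 2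
    have h3 : xc ^ 2 ≤ 1 := by
      rw [h1, div_le_one (by linarith)]
      linarith
    nlinarith [xc_pos]
  unfold wE
  rw [← ENNReal.ofReal_one]
  exact ENNReal.ofReal_le_ofReal (pow_le_one₀ xc_pos.le h)

/-- closed words given by the word without its last letter -/
theorem cy_C0 (n : ℕ) (S : Set (List Bool)) :
    gf {K | K ∈ POL.Cy (n + 1) ∧ K.dropLast ∈ S} ≤ 2 * gf {L | L ∈ C0 n ∧ L ∈ S} := by
  obtain ⟨A, hA⟩ : ∃ A : Set (List Bool), A = {K | K ∈ POL.Cy (n + 1) ∧ K.dropLast ∈ S} := ⟨_, rfl⟩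
  obtain ⟨B, hB⟩ : ∃ B : Set (List Bool), B = {L | L ∈ C0 n ∧ L ∈ S} := ⟨_, rfl⟩
  rw [← hA, ← hB]
  have hne : ∀ t : A, (t : List Bool) ≠ [] := by
    intro t h0
    have ht : (t : List Bool) ∈ POL.Cy (n + 1) ∧ (t : List Bool).dropLast ∈ S := hA.subset t.2
    have h1 := ht.1.1
    rw [h0] at h1
    simp at h1
  have hd : ∀ t : A, (t : List Bool).dropLast ++ [(t : List Bool).getLast (hne t)] = t := fun t =>
    List.dropLast_append_getLast (hne t)
  have hin : ∀ t : A, (t : List Bool).dropLast ∈ B := fun t => by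
    have h1 : (t : List Bool) ∈ POL.Cy (n + 1) ∧ (t : List Bool).dropLast ∈ S := hA.subset t.2
    rw [hB]
    exact ⟨⟨(t : List Bool).getLast (hne t), by rw [hd t]; exact h1.1⟩, h1.2⟩
  obtain ⟨φ, hφ⟩ : ∃ φ : A → B × Bool, φ = fun t : A => ((⟨(t : List Bool).dropLast, hin t⟩ : B), (t : List Bool).getLast (hne t)) :=
    ⟨_, rfl⟩
  have hinj : Function.Injective φ := by
    intro t t' h
    rw [hφ] at h
    simp only [Prod.mk.injEq, Subtype.mk.injEq] at h
    apply Subtype.ext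
    rw [← hd t, ← hd t', h.1, h.2]
  have hw : ∀ t : A, wE (t : List Bool) ≤ wE ((φ t).1 : List Bool) := by
    intro t
    rw [← hd t, wE_append, hφ]
    exact mul_le_of_le_one_right zero_le (wE_le_one _)
  calc gf A = ∑' t : A, wE (t : List Bool) := rfl
    _ ≤ ∑' t : A, (fun p : B × Bool => wE (p.1 : List Bool)) (φ t) := ENNReal.tsum_le_tsum hw
    _ ≤ ∑' p : B × Bool, wE (p.1 : List Bool) :=
        ENNReal.tsum_comp_le_tsum_of_injective hinj (fun p : B × Bool => wE (p.1 : List Bool))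
    _ = ∑' L : B, ∑' _ : Bool, wE (L : List Bool) := ENNReal.tsum_prod' (f := fun p : B × Bool => wE (p.1 : List Bool))
    _ = ∑' L : B, 2 * wE (L : List Bool) := by
        refine tsum_congr fun L => ?_
        rw [tsum_fintype, Fintype.sum_bool, two_mul]
    _ = 2 * gf B := ENNReal.tsum_mul_left

/-- a bad set of closed words, from the closed words without the last letter -/
theorem cy_bad {c e : ℝ} {n N0 : ℕ} (hc : 0 < c) (h0 : ∀ N : ℕ, N0 ≤ N → Even N →
    ENNReal.ofReal (c * (N : ℝ) ^ (-(3 / 2) : ℝ)) ≤ gf (POL.Cy N)) (he : 0 ≤ e) (hn : N0 ≤ n) (hn1 : 1 ≤ n) (ho : Odd n)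
    {S : Set (List Bool)} (hS : gf {L | L ∈ C0 n ∧ L ∈ S} ≤ ENNReal.ofReal (e * (n : ℝ) ^ (-(3 / 2) : ℝ))) :
    gf {K | K ∈ POL.Cy (n + 1) ∧ K.dropLast ∈ S} ≤ ENNReal.ofReal (16 * e / c) * gf (POL.Cy (n + 1)) := by
  have hn0 : (0 : ℝ) < n := by exact_mod_cast hn1
  have h1 := h0 (n + 1) (by omega) ho.add_one
  refine (cy_C0 n S).trans ?_
  have h2 : 2 * ENNReal.ofReal (e * (n : ℝ) ^ (-(3 / 2) : ℝ)) ≤
      ENNReal.ofReal (16 * e / c) * ENNReal.ofReal (c * ((n + 1 : ℕ) : ℝ) ^ (-(3 / 2) : ℝ)) := by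
    rw [show (2 : ℝ≥0∞) = ENNReal.ofReal 2 by simp, ← ENNReal.ofReal_mul (by norm_num), ← ENNReal.ofReal_mul (by positivity)]
    refine ENNReal.ofReal_le_ofReal ?_
    have h4 : ((n + 1 : ℕ) : ℝ) ≤ 2 * n := by
      have : n + 1 ≤ 2 * n := by omega
      exact_mod_cast this
    have h5 : (2 * (n : ℝ)) ^ (-(3 / 2) : ℝ) ≤ ((n + 1 : ℕ) : ℝ) ^ (-(3 / 2) : ℝ) :=
      Real.rpow_le_rpow_of_nonpos (by positivity) h4 (by norm_num)
    rw [Real.mul_rpow (by norm_num) hn0.le] at h5
    have h6 : (1 / 8 : ℝ) ≤ (2 : ℝ) ^ (-(3 / 2) : ℝ) := by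
      have h7 : (2 : ℝ) ^ (-(3 : ℝ)) ≤ (2 : ℝ) ^ (-(3 / 2) : ℝ) :=
        Real.rpow_le_rpow_of_exponent_le (by norm_num) (by norm_num)
      refine le_trans (le_of_eq ?_) h7
      rw [Real.rpow_neg (by norm_num)]
      norm_num
    have h8 : 0 < (n : ℝ) ^ (-(3 / 2) : ℝ) := by positivity
    have h9 : 16 * e / c * (c * ((n + 1 : ℕ) : ℝ) ^ (-(3 / 2) : ℝ)) = 16 * e * ((n + 1 : ℕ) : ℝ) ^ (-(3 / 2) : ℝ) := by
      field_simp
    rw [h9]
    have h10 : 1 / 8 * (n : ℝ) ^ (-(3 / 2) : ℝ) ≤ ((n + 1 : ℕ) : ℝ) ^ (-(3 / 2) : ℝ) :=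
      (mul_le_mul_of_nonneg_right h6 h8.le).trans h5
    nlinarith
  exact (mul_le_mul' le_rfl hS).trans (h2.trans (mul_le_mul' le_rfl h1))

/-! ### numbers -/

lemma cyF_eq (N : ℕ) : Pool.Agent.PMA.cyF N = (cy_fin N).toFinset := by
  ext t
  unfold Pool.Agent.PMA.cyF
  rw [Set.Finite.mem_toFinset, Set.Finite.mem_toFinset]
  exact Iff.rfl

open Classical in
lemma card_filt (N : ℕ) (p : List Bool → Prop) :
    (gf {K | K ∈ POL.Cy N ∧ p K}).toReal = (((Pool.Agent.PMA.cyF N).filter p).card : ℝ) * xc ^ N := by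
  have h1 : {K | K ∈ POL.Cy N ∧ p K}.Finite := (cy_fin N).subset fun K h => h.1
  rw [gf_real h1]
  have h2 : h1.toFinset = (Pool.Agent.PMA.cyF N).filter p := by
    ext K
    rw [h1.mem_toFinset, mem_filter, cyF_eq, (cy_fin N).mem_toFinset]
    exact Iff.rfl
  rw [h2, sum_congr rfl (g := fun _ => xc ^ N) fun K hK => by
    rw [mem_filter, cyF_eq, (cy_fin N).mem_toFinset] at hK
    unfold wE
    rw [hK.1.1, ENNReal.toReal_ofReal (pow_pos xc_pos N).le]]
  rw [sum_const, nsmul_eq_mul]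

lemma card_all (N : ℕ) : (gf (POL.Cy N)).toReal = ((Pool.Agent.PMA.cyF N).card : ℝ) * xc ^ N := by
  classical
  have h := card_filt N fun _ => True
  have h2 : {K | K ∈ POL.Cy N ∧ True} = POL.Cy N := by
    ext K
    exact ⟨fun h => h.1, fun h => ⟨h, trivial⟩⟩
  rw [h2] at h
  rw [h]
  congr 2
  congr 1
  ext t
  simp only [mem_filter, and_true]

/-- a bad set of closed words in numbers -/
lemma card_le {N : ℕ} {p : List Bool → Prop} [DecidablePred p] {e : ℝ} (he : 0 ≤ e)
    (h : gf {K | K ∈ POL.Cy N ∧ p K} ≤ ENNReal.ofReal e * gf (POL.Cy N)) :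
    (((Pool.Agent.PMA.cyF N).filter p).card : ℝ) ≤ e * ((Pool.Agent.PMA.cyF N).card : ℝ) := by
  have h1 := ENNReal.toReal_mono (ENNReal.mul_ne_top ENNReal.ofReal_ne_top (gf_top (cy_fin N))) h
  rw [ENNReal.toReal_mul, ENNReal.toReal_ofReal he, card_all] at h1
  have h2 := card_filt N p
  have h3 : (((Pool.Agent.PMA.cyF N).filter p).card : ℝ) =
      ((@Finset.filter _ p (fun a => Classical.propDecidable (p a)) (Pool.Agent.PMA.cyF N)).card : ℝ) := by
    congr 2
    ext t
    simp only [mem_filter]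
  rw [h2, ← h3] at h1
  have hx : 0 < xc ^ N := pow_pos xc_pos N
  rw [← mul_assoc] at h1
  exact le_of_mul_le_mul_right h1 hx

/-! ### the size of the polygons -/

lemma vx_dropLast {K : List Bool} {n i : ℕ} (hK : K.length = n + 1) (hi : i ≤ n + 1) :
    vx oo up K.dropLast i = vx oo up K i := by
  have hne : K ≠ [] := by
    rintro rfl
    simp at hK
  have h1 : K.dropLast ++ [K.getLast hne] = K := List.dropLast_append_getLast hne
  have h2 : K.dropLast.length = n := by
    rw [List.length_dropLast, hK]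
    rfl
  conv_rhs => rw [← h1]
  rw [vx_append (by omega)]

/-- **the polygons with n + 1 edges have the size n ^ (3 / 4)** -/
theorem pTight_of (hM : PolMod) : Pool.Agent.PMA.PTight := by
  classical
  intro ε hε
  obtain ⟨c, N0, hc, h0⟩ := cy_low
  obtain ⟨e, he⟩ : ∃ e : ℝ, e = ε * c / 16 := ⟨_, rfl⟩
  have he0 : 0 < e := by
    rw [he]
    positivity
  obtain ⟨δ, n0, hδ, h1⟩ := hM e he0
  obtain ⟨J, hJ⟩ : ∃ J : ℕ, 1 / δ ≤ J := exists_nat_ge _
  obtain ⟨n1, hn1⟩ : ∃ n1 : ℕ, n1 = max (max n0 N0) (J + 1) := ⟨_, rfl⟩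
  refine ⟨max ((2 * J + 2) * e) n1, fun n hn ho => ?_⟩
  have hn0 : (0 : ℝ) < n := by
    have : 0 < n := by omega
    exact_mod_cast this
  have hnr : 1 ≤ NTSF.Mg.nr n := by
    unfold NTSF.Mg.nr
    exact Real.one_le_rpow (by exact_mod_cast (by omega : 1 ≤ n)) (by norm_num)
  have hJJ : ∀ p : Pt, ‖NTF.JJ p‖ ≤ TIW.hn p := NTSF.Mg.JJ_le_hn
  rcases Nat.lt_or_ge n n1 with hlt | hge
  · -- short words
    rw [filter_eq_empty_iff.2, card_empty, Nat.cast_zero]
    · positivity
    · rintro t ht ⟨i, hi, h2⟩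
      have h3 : ‖NTF.JJ (vx oo up t i)‖ ≤ i := by
        have h4 : ∀ i : ℕ, ‖NTF.JJ (vx oo up t i)‖ ≤ i := by
          intro i
          induction i with
          | zero =>
            have e1 : vx oo up t 0 = 0 := rfl
            rw [e1]
            have e2 : NTF.JJ 0 = 0 := by
              apply Complex.ext
              · rw [NTF.JJ_re]
                simp
              · rw [NTF.JJ_im]
                simp
            rw [e2, norm_zero]
            exact le_of_eq Nat.cast_zero.symm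
          | succ i ih =>
            have e1 : vx oo up t (i + 1) = vx oo up t i + dx up t i := rfl
            rw [e1, NTF.JJ_add]
            refine (norm_add_le _ _).trans ?_
            have h5 : ‖NTF.JJ (dx up t i)‖ ≤ 1 := by
              have h6 := NTF.JJ_norm (dx up t i)
              have h7 : nrm (dx up t i) = 1 := mem_dirs.1 (dx_mem (by decide) t i)
              rw [h7] at h6
              have h8 := norm_nonneg (NTF.JJ (dx up t i))
              push_cast at h6
              nlinarith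
            push_cast
            linarith
        exact h4 i
      have h4 : (n1 : ℝ) * 1 ≤ max ((2 * J + 2) * e) n1 * NTSF.Mg.nr n :=
        mul_le_mul (le_max_right _ _) hnr (by norm_num) (by positivity)
      have h5 : (i : ℝ) ≤ n := by exact_mod_cast hi
      have h6 : (n : ℝ) < n1 := by exact_mod_cast hlt
      linarith
  · have hn0' : n0 ≤ n := by
      rw [hn1] at hge
      exact (le_max_left _ _).trans ((le_max_left _ _).trans hge)
    have hN0' : N0 ≤ n := by
      rw [hn1] at hge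
      exact (le_max_right _ _).trans ((le_max_left _ _).trans hge)
    have hJn : J + 1 ≤ n := by
      rw [hn1] at hge
      exact (le_max_right _ _).trans hge
    refine card_le hε.le ?_
    have h2 := h1 n hn0'
    obtain ⟨S, hS⟩ : ∃ S : Set (List Bool), S = {L | ∃ x y : ℕ, x ≤ y ∧ y ≤ n ∧ (y : ℝ) ≤ x + δ * n ∧
      e * (n : ℝ) ^ (3 / 4 : ℝ) < TIW.hn (vx oo up L y - vx oo up L x)} := ⟨_, rfl⟩
    have h3 := cy_bad (S := S) hc h0 he0.le hN0' (by omega) ho (by
      rw [hS]
      exact h2)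
    have h4 : 16 * e / c = ε := by
      rw [he]
      field_simp
    rw [h4] at h3
    refine (gf_mono ?_).trans h3
    rintro K ⟨hK, i, hi, h5⟩
    refine ⟨hK, ?_⟩
    by_contra hc'
    have hbd : ∀ x y : ℕ, x ≤ y → y ≤ n → (y : ℝ) ≤ x + δ * n →
        (TIW.hn (vx oo up K y - vx oo up K x) : ℝ) ≤ e * (n : ℝ) ^ (3 / 4 : ℝ) := by
      intro x y hxy hy hd
      by_contra hcc
      apply hc'
      rw [hS]
      refine ⟨x, y, hxy, hy, hd, ?_⟩
      rw [vx_dropLast hK.1 (by omega), vx_dropLast hK.1 (by omega)]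
      exact not_le.1 hcc
    -- steps of length s
    obtain ⟨s, hs⟩ : ∃ s : ℕ, s = n / J.succ := ⟨_, rfl⟩
    have hs1 : 1 ≤ s := by
      rw [hs]
      exact Nat.div_pos hJn (Nat.succ_pos _)
    have hsd : (s : ℝ) ≤ δ * n := by
      have h6 : (s : ℝ) ≤ (n : ℝ) / (J.succ : ℕ) := by
        rw [hs]
        exact Nat.cast_div_le
      refine h6.trans ?_
      rw [div_le_iff₀ (by positivity)]
      have h7 : 1 ≤ δ * J := by
        rw [div_le_iff₀ hδ] at hJ
        linarith
      push_cast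
      nlinarith
    have hm : ∀ m : ℕ, m * s ≤ n → (TIW.hn (vx oo up K (m * s)) : ℝ) ≤ m * (e * (n : ℝ) ^ (3 / 4 : ℝ)) := by
      intro m
      induction m with
      | zero =>
        intro _
        have e1 : vx oo up K (0 * s) = 0 := by
          rw [zero_mul]
          rfl
        have e2 : TIW.hn (0 : Pt) = 0 := by decide
        rw [e1, e2]
        simp
      | succ m ih =>
        intro hms
        have h6 := ih (by nlinarith)
        have h7 := hbd (m * s) ((m + 1) * s) (by nlinarith) hms (by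
          push_cast
          nlinarith)
        have h8 := TIW.hn_add (vx oo up K ((m + 1) * s) - vx oo up K (m * s)) (vx oo up K (m * s))
        rw [sub_add_cancel] at h8
        have h9 : (TIW.hn (vx oo up K ((m + 1) * s)) : ℝ) ≤ TIW.hn (vx oo up K ((m + 1) * s) - vx oo up K (m * s)) +
            TIW.hn (vx oo up K (m * s)) := by exact_mod_cast h8
        push_cast at h9 ⊢
        linarith
    obtain ⟨m, hmd⟩ : ∃ m : ℕ, m = i / s := ⟨_, rfl⟩
    have hm1 : m * s ≤ i := by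
      rw [hmd]
      exact Nat.div_mul_le_self i s
    have hm2 : i < (m + 1) * s := by
      rw [hmd, mul_comm]
      exact Nat.lt_mul_div_succ i (by omega)
    have hm3 : (m : ℝ) ≤ 2 * J + 1 := by
      -- m s ≤ n < (J + 1) (s + 1) ≤ 2 (J + 1) s
      have h6 : n < J.succ * (s + 1) := by
        rw [hs]
        exact Nat.lt_mul_div_succ n (Nat.succ_pos _)
      have h7 : m * s < 2 * (J + 1) * s := by
        have : J.succ * (s + 1) ≤ 2 * (J + 1) * s := by
          rw [Nat.succ_eq_add_one]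
          nlinarith
        omega
      have h8 : m < 2 * (J + 1) := Nat.lt_of_mul_lt_mul_right h7
      have h9 : m ≤ 2 * J + 1 := by omega
      exact_mod_cast h9
    have h6 := hm m (hm1.trans hi)
    have h7 := hbd (m * s) i hm1 hi (by
      have h8 : (i : ℝ) ≤ ((m + 1 : ℕ) : ℝ) * s := by exact_mod_cast hm2.le
      push_cast at h8 ⊢
      nlinarith)
    have h8 := TIW.hn_add (vx oo up K i - vx oo up K (m * s)) (vx oo up K (m * s))
    rw [sub_add_cancel] at h8
    have h9 : (TIW.hn (vx oo up K i) : ℝ) ≤ TIW.hn (vx oo up K i - vx oo up K (m * s)) + TIW.hn (vx oo up K (m * s)) := by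
      exact_mod_cast h8
    have h10 : 0 ≤ e * (n : ℝ) ^ (3 / 4 : ℝ) := by positivity
    have h11 : (TIW.hn (vx oo up K i) : ℝ) ≤ (2 * J + 2) * e * (n : ℝ) ^ (3 / 4 : ℝ) := by nlinarith
    have h12 : max ((2 * J + 2) * e) n1 * NTSF.Mg.nr n < (2 * J + 2) * e * (n : ℝ) ^ (3 / 4 : ℝ) :=
      h5.trans_le ((hJJ _).trans h11)
    have h13 : (2 * J + 2) * e * NTSF.Mg.nr n ≤ max ((2 * J + 2) * e) n1 * NTSF.Mg.nr n :=
      mul_le_mul_of_nonneg_right (le_max_left _ _) (by linarith)
    unfold NTSF.Mg.nr at h12 h13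
    linarith

/-- **(PTight)**, no hypothesis -/
theorem pTight : Pool.Agent.PMA.PTight := pTight_of (polMod t1)

end PMA

end HexObs
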