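import Pool.Agent.PMA.H7
import Pool.Agent.PMA.CyC

/-!
# PM (page 83R), (h7) in the form of `asm_core` (helper22)

* **`h7_asm`** : the weights `wE K / gf (Cy N)`.
-/

set_option autoImplicit false

open scoped ENNReal

namespace HexObs

namespace PMA

open TS SDN NTA TIP ARM ARM.G3

open Pool.Agent.PMA (cyM cyF f3)

/-- the weights of the closed words -/
lemma q_mean {N : ℕ} (g : List Bool → ℝ) :
    ∑ K ∈ (cy_fin N).toFinset, (wE K).toReal / (gf (POL.Cy N)).toReal * g K = cyM N g := by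
  have hx := xc_pos
  have hxN : xc ^ N ≠ 0 := by positivity
  rw [← cyF_eq]
  have e1 : (gf (POL.Cy N)).toReal = ((cyF N).card : ℝ) * xc ^ N := by
    rw [POL.Cy_eq, POLP.gf_PCy, ENNReal.toReal_ofReal (by positivity), Set.ncard_eq_toFinset_card _ (POLP.PCy_fin N)]
    rfl
  have e2 : ∀ K ∈ cyF N, (wE K).toReal / (gf (POL.Cy N)).toReal * g K = g K / ((cyF N).card : ℝ) := by
    intro K hK
    have hl : K.length = N := (Pool.Agent.PMA.mem_cyF.1 hK).1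
    have hc : ((cyF N).card : ℝ) ≠ 0 := by
      have : 0 < (cyF N).card := Finset.card_pos.2 ⟨K, hK⟩
      positivity
    rw [e1]
    unfold wE
    rw [ENNReal.toReal_ofReal (by positivity), hl]
    field_simp
  rw [Finset.sum_congr rfl e2, ← Finset.sum_div]
  rfl

/-- **(h7)** in the form of `asm_core` -/
theorem h7_asm : ∀ ε : ℝ, 0 < ε → ∃ (δ : ℝ) (N0 : ℕ), 0 < δ ∧ ∀ N : ℕ, N0 ≤ N → Even N → ∀ T : ℕ, (T : ℝ) ≤ δ * N →
    ∀ F : C(unitInterval, ℂ) → ℝ, (∀ γ, |F γ| ≤ 1) → LipschitzWith 1 F → (∀ γ, F (-γ) = F γ) →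
    ∀ Φ : List Bool × List Bool → ℝ, (∀ v, 0 ≤ Φ v ∧ Φ v ≤ 1) →
    |(∑ K ∈ (cy_fin N).toFinset, (wE K).toReal / (gf (POL.Cy N)).toReal * (f3 F (N - 1) K * Φ (win T K))) -
      (∑ K ∈ (cy_fin N).toFinset, (wE K).toReal / (gf (POL.Cy N)).toReal * f3 F (N - 1) K) *
        ∑ K ∈ (cy_fin N).toFinset, (wE K).toReal / (gf (POL.Cy N)).toReal * Φ (win T K)| ≤ ε := by
  intro ε hε
  obtain ⟨δ, N0, hδ, h⟩ := Pool.Agent.PMA.indep ε hε
  refine ⟨δ, N0, hδ, fun N hN he T hT F hF1 hFL hFe Φ hΦ => ?_⟩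
  rw [q_mean (fun K => f3 F (N - 1) K * Φ (win T K)), q_mean (f3 F (N - 1)), q_mean fun K => Φ (win T K)]
  exact h N hN he T hT F hF1 hFL hFe Φ hΦ

/-- **(h7)** for `AsmB` (helper41's literal) -/
theorem h7_lit : ∀ ε : ℝ, 0 < ε → ∃ (δ : ℝ) (n0 : ℕ), 0 < δ ∧ ∀ N T : ℕ, n0 ≤ N → Even N → (T : ℝ) ≤ δ * N →
    ∀ F : C(unitInterval, ℂ) → ℝ, (∀ γ, |F γ| ≤ 1) → LipschitzWith 1 F → (∀ γ, F (-γ) = F γ) →
    ∀ Φ : List Bool × List Bool → ℝ, (∀ v, 0 ≤ Φ v ∧ Φ v ≤ 1) →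
    |(∑ K ∈ (cy_fin N).toFinset, (wE K).toReal / (gf (POL.Cy N)).toReal * (f3 F (N - 1) K * Φ (win T K))) -
      (∑ K ∈ (cy_fin N).toFinset, (wE K).toReal / (gf (POL.Cy N)).toReal * f3 F (N - 1) K) *
        ∑ K ∈ (cy_fin N).toFinset, (wE K).toReal / (gf (POL.Cy N)).toReal * Φ (win T K)| ≤ ε := by
  intro ε hε
  obtain ⟨δ, N0, hδ, h⟩ := h7_asm ε hε
  exact ⟨δ, N0, hδ, fun N T hN he hT F hF1 hFL hFe Φ hΦ => h N hN he T hT F hF1 hFL hFe Φ hΦ⟩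

end PMA

end HexObs
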