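import Pool.Agent.PMA.Defs
import Pool.Agent.ARM.Rv

/-!
# PM / RM, row TrSt (helper94, helper70): too many cuts behind a good cut. Definitions and locality

* `TrB j m c η K t L` : `L = A ++ (Z ++ Y)`, the part `Y` behind a good cut of the level `j`, before it a bridge `Z` of height at
  most `2 ^ (j + 2)` and size at most `2 ^ (j + c)` with more than `K * Ub j` cuts; `Z` and `Y` have at most `t` letters;
* `SN` : the good words, both ends;
* **`locS_SN`** : `SN` is local.
-/

set_option autoImplicit false

namespace HexObs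

namespace PMA

open Finset TS SDN SIM NTA TIP ARM

open scoped ENNReal

/-- **too many cuts behind a good cut** -/
def TrB (j m c : ℕ) (η K t : ℝ) (L : List Bool) : Prop :=
  ∃ A Z Y : List Bool, L = A ++ (Z ++ Y) ∧ rev Y ∈ GT j η ∧ In (2 ^ (j + m)) Y ∧ Z ∈ BU ∧ hgt Z ≤ 2 ^ (j + 2) ∧
    In (2 ^ (j + c)) Z ∧ K * Ub j < (nc Z : ℝ) ∧ (Z.length : ℝ) + Y.length ≤ t

/-- the good words: not too many cuts behind the good cuts, both ends -/
def SN (j m c : ℕ) (η K t : ℝ) (L : List Bool) : Prop := ¬ TrB j m c η K t L ∧ ¬ TrB j m c η K t (rv L)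

/-- it only depends on the last letters -/
theorem TrB.suffix {j m c : ℕ} {η K t : ℝ} {T : ℕ} {L L' : List Bool} (h : TrB j m c η K t L) (ht : t ≤ T)
    (he : L.drop (L.length - T) = L'.drop (L'.length - T)) : TrB j m c η K t L' := by
  obtain ⟨A, Z, Y, hL, h1, h2, h3, h4, h5, h6, h7⟩ := h
  have h8 : Z.length + Y.length ≤ T := by
    have h9 := h7.trans ht
    exact_mod_cast h9
  have h10 : L.length - T ≤ A.length := by
    rw [hL, List.length_append, List.length_append]
    omega
  have h11 : L'.drop (L'.length - T) = A.drop (L.length - T) ++ (Z ++ Y) := by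
    rw [← he]
    nth_rewrite 2 [hL]
    rw [List.drop_append_of_le_length h10]
  refine ⟨L'.take (L'.length - T) ++ A.drop (L.length - T), Z, Y, ?_, h1, h2, h3, h4, h5, h6, h7⟩
  rw [List.append_assoc, ← h11, List.take_append_drop]

lemma rev_suffix (L : List Bool) (T : ℕ) : (rev L).drop (L.length - T) = rev (L.take T) := by
  have e : rev L = rev (L.drop T) ++ rev (L.take T) := by rw [← rev_append, List.take_append_drop]
  rw [e]
  refine List.drop_left' ?_
  rw [rev_length, List.length_drop]

lemma rv_suffix {L L' : List Bool} {T : ℕ} (hl : L.length = L'.length) (hT : T ≤ L.length) (h : L.take T = L'.take T) :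
    (rv L).drop ((rv L).length - T) = (rv L').drop ((rv L').length - T) := by
  rcases Nat.lt_or_ge T L.length with h1 | h1
  · have key : ∀ M : List Bool, T < M.length → (rv M).drop ((rv M).length - T) = rev (M.take T) := by
      intro M hM
      rw [rv_length, ← rev_suffix M T]
      unfold rv
      rw [List.drop_drop]
      congr 1
      omega
    rw [key L h1, key L' (by omega), h]
  · have e1 : L = L' := by
      rw [List.take_of_length_le h1, List.take_of_length_le (by omega)] at h
      exact h
    rw [e1]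

/-- **`SN` is local** -/
theorem locS_SN {P : Par} {m c : ℕ} {η K : ℝ} (hS : P.S = SN P.j m c η K ((P.A + P.A1) * ml P.j)) (w1 : ℕ) :
    LocS P w1 := by
  intro T1 T2 w L L' _ h hT1 hT2
  have hl := h.len
  have htt := h.tt
  have e1 := h.dp
  have e2 := rv_suffix hl (show T1 ≤ L.length by omega) h.tk
  rw [hS]
  refine ⟨fun h1 => ⟨fun h2 => h1.1 (h2.suffix hT2 e1.symm), fun h2 => h1.2 (h2.suffix hT1 e2.symm)⟩,
    fun h1 => ⟨fun h2 => h1.1 (h2.suffix hT2 e1), fun h2 => h1.2 (h2.suffix hT1 e2)⟩⟩

end PMA

end HexObs
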