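import Pool.Agent.PMA.H7q

/-!
# (PM), (h7) for arbitrary functions of the closed word (helper41, after helper22's H7)

**`indepG`**: the function `f` changes by at most `C0 u / N` when the closed word is rotated by `u` letters.
-/

set_option autoImplicit false

open MeasureTheory Filter Topology

open scoped Classical ENNReal

namespace Pool.Agent.PMA

open HexObs hiding pos

open HexObs.SDN HexObs.TS HexObs.TIW HexObs.POLP NTSF.Mg NTF Pool.Agent.TSW.BP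

open HexObs.PMA (PolMod polMod denV)

open HexObs.ARM (C0)

open Pool.Agent.TSW (VW)

theorem indepG_den : ∃ ρ : ℕ → (List Bool × List Bool → ℝ) → ℝ,
    (∀ (T : ℕ) (Φ : List Bool × List Bool → ℝ), (∀ x, 0 ≤ Φ x ∧ Φ x ≤ 1) → 0 ≤ ρ T Φ ∧ ρ T Φ ≤ 2) ∧
    ∀ ε Cr : ℝ, 0 < ε → 0 < Cr → ∃ (δ : ℝ) (N0 : ℕ), 0 < δ ∧ ∀ N : ℕ, N0 ≤ N → Even N → 0 < (cyF N).card ∧
      ∀ T : ℕ, (T : ℝ) ≤ δ * N → ∀ Φ : List Bool × List Bool → ℝ, (∀ x, 0 ≤ Φ x ∧ Φ x ≤ 1) →
      ∀ f : List Bool → ℝ, (∀ K, |f K| ≤ 1) → (∀ K ∈ cyF N, ∀ u : ℕ, u < N → |f (K.rotate u) - f K| ≤ Cr * (u / N)) →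
      |cyM N (fun K => f K * Φ (HexObs.PMA.win T K)) - ρ T Φ * cyM N f| ≤ ε := by
  obtain ⟨C, N1, hC, hN1, hbad⟩ := bad_count
  obtain ⟨ρ, hρ, -, hden⟩ := denV Pool.Agent.TSW.exR ARM.t1
  have hw : ∀ (T : ℕ) (Φ : List Bool × List Bool → ℝ), (∀ x, 0 ≤ Φ x ∧ Φ x ≤ 1) → ∀ x, 0 ≤ wgt T Φ x ∧ wgt T Φ x ≤ 1 :=
    fun T Φ hΦ x => hΦ _
  refine ⟨fun T Φ => ρ (2 * T + 1) (wgt T Φ), fun T Φ hΦ => hρ _ _ (hw T Φ hΦ), fun ε Cr hε hCr => ?_⟩
  obtain ⟨ε2, hε2⟩ : ∃ ε2 : ℝ, ε2 = ε / (20 * (C + 1)) := ⟨_, rfl⟩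
  have hε2p : 0 < ε2 := by rw [hε2]; positivity
  have hε2e : 20 * (C + 1) * ε2 = ε := by
    rw [hε2]
    field_simp
  obtain ⟨η0, hη0, hd⟩ := hden ε2 hε2p
  obtain ⟨η, hη⟩ : ∃ η : ℝ, η = min (min η0 (ε / (4 * Cr))) 1 / 2 := ⟨_, rfl⟩
  have hηp : 0 < η := by
    rw [hη]
    have : 0 < min (min η0 (ε / (4 * Cr))) 1 := lt_min (lt_min hη0 (by positivity)) one_pos
    linarith
  have hη1 : 2 * η ≤ η0 := by
    rw [hη]
    have := (min_le_left (min η0 (ε / (4 * Cr))) 1).trans (min_le_left _ _)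
    linarith
  have hη2 : Cr * (2 * η) ≤ ε / 4 := by
    have h1 : 2 * η ≤ ε / (4 * Cr) := by
      rw [hη]
      have := (min_le_left (min η0 (ε / (4 * Cr))) 1).trans (min_le_right _ _)
      linarith
    rw [le_div_iff₀ (by positivity)] at h1
    linarith
  have hη3 : 2 * η ≤ 1 := by
    rw [hη]
    have := min_le_right (min η0 (ε / (4 * Cr))) 1
    linarith
  obtain ⟨e, he⟩ : ∃ e : ℝ, e = ε * η / 8 := ⟨_, rfl⟩
  have hep : 0 < e := by rw [he]; positivity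
  obtain ⟨R, hR⟩ := hd e hep
  obtain ⟨δ, hδ⟩ : ∃ δ : ℝ, δ = min (ε * η / 64) (min (η / 16) (1 / (32 * ((R : ℝ) + 1)))) := ⟨_, rfl⟩
  have hδp : 0 < δ := by
    rw [hδ]
    exact lt_min (by positivity) (lt_min (by positivity) (by positivity))
  have hδa : δ ≤ ε * η / 64 := by rw [hδ]; exact min_le_left _ _
  have hδb : δ ≤ η / 16 := by rw [hδ]; exact (min_le_right _ _).trans (min_le_left _ _)
  have hδc : δ ≤ 1 / (32 * ((R : ℝ) + 1)) := by rw [hδ]; exact (min_le_right _ _).trans (min_le_right _ _)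
  -- the size
  obtain ⟨M1, hM1⟩ := exists_nat_ge (8 / η)
  refine ⟨δ, N1 + M1 + 4 * R + 4, hδp, fun N hN hev => ?_⟩
  obtain ⟨hcard, hbad⟩ := hbad N (by omega) hev
  refine ⟨hcard, fun T hT Φ hΦ f hf1 hfr => ?_⟩
  obtain ⟨n, hnN⟩ : ∃ n, n = N - 1 := ⟨_, rfl⟩
  have hNn : N = n + 1 := by omega
  have hn1 : 1 ≤ n := by omega
  have hnp : (0 : ℝ) < n := by exact_mod_cast hn1
  have hNr : (N : ℝ) = n + 1 := by rw [hNn]; push_cast; ring
  have hηn : 8 ≤ η * n := by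
    have h1 : (M1 : ℝ) ≤ n := by exact_mod_cast (show M1 ≤ n by omega)
    have h2 := mul_le_mul_of_nonneg_left (hM1.trans h1) hηp.le
    rwa [mul_div_cancel₀ _ hηp.ne'] at h2
  have hTn : (T : ℝ) ≤ 2 * δ * n := by
    have h1 : (1 : ℝ) ≤ n := by exact_mod_cast hn1
    rw [hNr] at hT
    nlinarith
  -- the number of the rotations
  obtain ⟨h, hh⟩ : ∃ h, h = ⌊η * n⌋₊ := ⟨_, rfl⟩
  have hh1 : (h : ℝ) ≤ η * n := by rw [hh]; exact Nat.floor_le (by positivity)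
  have hh2 : η * n ≤ h + 1 := by rw [hh]; exact (Nat.lt_floor_add_one _).le
  have hh3 : 0 < h := by
    have : (0 : ℝ) < h := by linarith
    exact_mod_cast this
  have hh4 : η * n ≤ 2 * h := by linarith
  have hT1 : (T : ℝ) ≤ η * n / 8 := by
    have := mul_le_mul_of_nonneg_right hδb hnp.le
    linarith
  have hsum : (h : ℝ) + 2 * T ≤ 5 / 4 * (η * n) := by linarith
  have hηn1 : η * n ≤ η0 * n / 2 := by
    have := mul_le_mul_of_nonneg_right hη1 hnp.le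
    linarith
  have hηn3 : η * n ≤ n / 2 := by
    have := mul_le_mul_of_nonneg_right hη3 hnp.le
    linarith
  have hlen : h + 2 * T ≤ n := by
    have : ((h + 2 * T : ℕ) : ℝ) ≤ n := by
      push_cast
      linarith
    exact_mod_cast this
  have hRm : R * (2 * T + 1 + 1) ≤ n := by
    have h1 : (R : ℝ) * (2 * T) ≤ n / 8 := by
      have hR0 : (0 : ℝ) ≤ R := Nat.cast_nonneg R
      have h2 : (T : ℝ) ≤ 2 * (1 / (32 * ((R : ℝ) + 1))) * n := by
        refine hTn.trans ?_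
        have := mul_le_mul_of_nonneg_right hδc hnp.le
        linarith
      calc (R : ℝ) * (2 * T) ≤ ((R : ℝ) + 1) * (2 * (2 * (1 / (32 * ((R : ℝ) + 1))) * n)) := by
            refine mul_le_mul (by linarith) (by linarith) (by positivity) (by positivity)
        _ = n / 8 := by
            field_simp
            norm_num
    have h2 : (4 * R : ℝ) ≤ n := by exact_mod_cast (show 4 * R ≤ n by omega)
    have : ((R * (2 * T + 1 + 1) : ℕ) : ℝ) ≤ n := by
      push_cast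
      linarith
    exact_mod_cast this
  -- the exceptional sets
  obtain ⟨r, hr⟩ : ∃ r : ℝ, r = ρ (2 * T + 1) (wgt T Φ) := ⟨_, rfl⟩
  obtain ⟨S2, hS2⟩ : ∃ S2 : Set (List Bool), S2 = {L | L ∈ C0 n ∧ ∃ x y : ℕ, x ≤ y ∧ (y : ℝ) ≤ η0 * n ∧
    e * n < |VW (wgt T Φ) (NPR.wd L x y) - r * ((y : ℝ) - x)|} := ⟨_, rfl⟩
  have g2 : gf S2 ≤ ENNReal.ofReal (ε2 * (n : ℝ) ^ (-(3 / 2) : ℝ)) := by
    rw [hS2, hr]
    exact hR (2 * T + 1) (wgt T Φ) (hw T Φ hΦ) n hRm
  rw [hnN] at g2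
  have c2 := hbad S2 ε2 hε2p.le g2
  rw [← hnN] at g2
  have hρ2 := hρ (2 * T + 1) (wgt T Φ) (hw T Φ hΦ)
  rw [← hr] at hρ2
  simp only
  rw [← hr]
  have hC0 : ∀ K ∈ cyF N, K.dropLast ∈ C0 n := by
    intro K hK
    have hK' := mem_cyF.1 hK
    have hne : K ≠ [] := by
      rintro rfl
      have := hK'.1
      simp at this
      omega
    refine ⟨K.getLast hne, ?_⟩
    rw [List.dropLast_append_getLast hne, ← hNn]
    exact hK'
  -- the average
  obtain ⟨P, hPe⟩ : ∃ P : List Bool → Prop, ∀ K, P K ↔ K.dropLast ∈ S2 := ⟨_, fun _ => Iff.rfl⟩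
  have key := avg_lem (cyF N) P f (fun K => Φ (HexObs.PMA.win T K))
    (fun p K => K.rotate (p + T)) (fun p g => sum_rot N (p + T) g) hh3 hf1 (fun K => hΦ _) hρ2
    (a := ε / 4) (b := ε / 2) (by positivity) (by positivity) ?_ ?_
  · have c3 : (((cyF N).filter P).card : ℝ) ≤ C * ε2 * (cyF N).card := by
      have hsub : (cyF N).filter P ⊆ (cyF N).filter fun K => K.dropLast ∈ S2 := by
        intro K hK
        rw [Finset.mem_filter, hPe] at hK
        rw [Finset.mem_filter]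
        exact hK
      have h2 : (((cyF N).filter P).card : ℝ) ≤ ((cyF N).filter fun K => K.dropLast ∈ S2).card := by
        exact_mod_cast Finset.card_le_card hsub
      linarith
    have hcr : (0 : ℝ) < (cyF N).card := by exact_mod_cast hcard
    have e1 : cyM N (fun K => f K * Φ (HexObs.PMA.win T K)) - r * cyM N f =
        (∑ K ∈ cyF N, f K * Φ (HexObs.PMA.win T K) - r * ∑ K ∈ cyF N, f K) / (cyF N).card := by
      unfold cyM
      rw [sub_div, mul_div_assoc]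
    rw [e1, abs_div, abs_of_pos hcr, div_le_iff₀ hcr]
    refine key.trans ?_
    calc (ε / 4 + ε / 2) * ((cyF N).card : ℝ) + 3 * (((cyF N).filter P).card : ℝ)
        ≤ (ε / 4 + ε / 2) * ((cyF N).card : ℝ) + 3 * (C * ε2 * (cyF N).card) := by
          linarith
      _ = (ε / 4 + ε / 2 + 3 * (C * ε2)) * (cyF N).card := by ring
      _ ≤ ε * (cyF N).card := by
          refine mul_le_mul_of_nonneg_right ?_ hcr.le
          have : 0 ≤ C * ε2 := by positivity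
          nlinarith
  · intro K hK hP p hp
    have hpr : (p : ℝ) ≤ h := by exact_mod_cast hp.le
    have hN0 : (0 : ℝ) < N := by
      rw [hNr]
      positivity
    have h2 := hfr K hK (p + T) (by omega)
    refine h2.trans (le_trans (mul_le_mul_of_nonneg_left ?_ hCr.le) hη2)
    rw [div_le_iff₀ hN0, hNr]
    push_cast
    have h3 : 0 ≤ η := hηp.le
    nlinarith
  · intro K hK hP
    rw [hPe] at hP
    have hK' := mem_cyF.1 hK
    have hKl : K.length = N := hK'.1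
    rw [sum_win (by omega)]
    have h1 : |VW (wgt T Φ) (NPR.wd K.dropLast 0 (h + 2 * T)) - r * (((h + 2 * T : ℕ) : ℝ) - (0 : ℕ))| ≤ e * n := by
      by_contra hcon
      refine hP ?_
      rw [hS2]
      refine ⟨hC0 K hK, 0, h + 2 * T, Nat.zero_le _, ?_, not_le.1 hcon⟩
      push_cast
      linarith
    push_cast at h1
    rw [sub_zero] at h1
    have h2 : VW (wgt T Φ) (NPR.wd K.dropLast 0 (h + 2 * T)) - r * h =
        (VW (wgt T Φ) (NPR.wd K.dropLast 0 (h + 2 * T)) - r * ((h : ℝ) + 2 * T)) + r * (2 * T) := by ring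
    rw [h2]
    have h3 : |r * (2 * (T : ℝ))| ≤ 4 * T := by
      rw [abs_mul, abs_of_nonneg hρ2.1, abs_of_nonneg (by positivity)]
      have := mul_le_mul_of_nonneg_right hρ2.2 (show (0 : ℝ) ≤ 2 * T by positivity)
      linarith
    have h4 := abs_add_le (VW (wgt T Φ) (NPR.wd K.dropLast 0 (h + 2 * T)) - r * ((h : ℝ) + 2 * T)) (r * (2 * T))
    have h5 : e * n ≤ ε / 4 * h := by
      rw [he]
      have := mul_le_mul_of_nonneg_left hh4 (show 0 ≤ ε / 8 by positivity)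
      linarith
    have h6 : 4 * (T : ℝ) ≤ ε / 4 * h := by
      have k1 := mul_le_mul_of_nonneg_right hδa hnp.le
      have k2 := mul_le_mul_of_nonneg_left hh4 (show 0 ≤ ε / 8 by positivity)
      linarith
    linarith
/-- **(h7)** for functions that change little under rotation -/
theorem indepG : ∀ ε Cr : ℝ, 0 < ε → 0 < Cr → ∃ (δ : ℝ) (N0 : ℕ), 0 < δ ∧ ∀ N : ℕ, N0 ≤ N → Even N → ∀ T : ℕ, (T : ℝ) ≤ δ * N →
    ∀ f : List Bool → ℝ, (∀ K, |f K| ≤ 1) → (∀ K ∈ cyF N, ∀ u : ℕ, u < N → |f (K.rotate u) - f K| ≤ Cr * (u / N)) →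
    ∀ Φ : List Bool × List Bool → ℝ, (∀ x, 0 ≤ Φ x ∧ Φ x ≤ 1) →
    |cyM N (fun K => f K * Φ (HexObs.PMA.win T K)) -
      cyM N f * cyM N (fun K => Φ (HexObs.PMA.win T K))| ≤ ε := by
  obtain ⟨ρ, -, h⟩ := indepG_den
  intro ε Cr hε hCr
  obtain ⟨δ, N0, hδ, h⟩ := h (ε / 2) Cr (by linarith) hCr
  refine ⟨δ, N0, hδ, fun N hN he T hT f hf1 hfr Φ hΦ => ?_⟩
  obtain ⟨hcard, h⟩ := h N hN he
  have hcr : (0 : ℝ) < (cyF N).card := by exact_mod_cast hcard
  have h1 := h T hT Φ hΦ f hf1 hfr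
  have h2 := h T hT Φ hΦ (fun _ => 1) (fun _ => by rw [abs_one]) (fun K _ u _ => by
    rw [sub_self, abs_zero]
    positivity)
  have e1 : cyM N (fun _ => (1 : ℝ)) = 1 := by
    unfold cyM
    rw [Finset.sum_const, nsmul_eq_mul, mul_one, div_self hcr.ne']
  simp only [one_mul] at h2
  rw [e1, mul_one] at h2
  have hm : |cyM N f| ≤ 1 := by
    unfold cyM
    rw [abs_div, abs_of_pos hcr, div_le_one hcr]
    refine (Finset.abs_sum_le_sum_abs _ _).trans ?_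
    calc ∑ K ∈ cyF N, |f K| ≤ ∑ _K ∈ cyF N, (1 : ℝ) := Finset.sum_le_sum fun K _ => hf1 K
      _ = _ := by rw [Finset.sum_const, nsmul_eq_mul, mul_one]
  have e3 : cyM N (fun K => f K * Φ (HexObs.PMA.win T K)) -
      cyM N f * cyM N (fun K => Φ (HexObs.PMA.win T K)) =
      (cyM N (fun K => f K * Φ (HexObs.PMA.win T K)) - ρ T Φ * cyM N f) -
      cyM N f * (cyM N (fun K => Φ (HexObs.PMA.win T K)) - ρ T Φ) := by ring
  rw [e3]
  refine (abs_sub _ _).trans ?_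
  rw [abs_mul]
  have h3 := mul_le_mul hm h2 (abs_nonneg _) zero_le_one
  linarith

end Pool.Agent.PMA
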