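import Pool.Agent.PMA.AsmB
import Pool.Agent.PMA.H7G

/-!
# (PM) for arbitrary functions of the words (helper41): **`wpmG_of : ManySt → TrRow → WPMG`**
-/

set_option autoImplicit false

namespace HexObs

namespace PMA

open Finset TS SDN NTA TIP ARM ARM.G3

open scoped ENNReal

open Pool.Agent.PMA (wdw gapF cyF f3 gS)

/-- **(PM) for arbitrary functions of the words**: the function `f` of the open words and the function `g` of the closed words
differ by at most `Cr` times the proportion of the letters outside the common part, and `g` changes by at most `Cr u / n` when the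
closed word is rotated by `u` letters. -/
def WPMG : Prop := ∀ ε0 Cr : ℝ, 0 < ε0 → 0 < Cr → ∀ K : ℝ, 1 ≤ K → ∃ r0 : ℝ, 0 < r0 ∧ ∀ r : ℝ, 0 < r → r ≤ r0 → ∃ n0 : ℕ,
  ∀ n : ℕ, n0 ≤ n → Odd n → ∀ ρ : ℝ, r / K ≤ ρ → ρ ≤ K * r → ∀ f g : List Bool → ℝ, (∀ L, |f L| ≤ 1) → (∀ L, |g L| ≤ 1) →
    (∀ X M Y A B : List Bool, (X ++ (M ++ Y)).length ≤ n → (B ++ (M ++ A)).length = n + 1 →
      |f (X ++ (M ++ Y)) - g (B ++ (M ++ A))| ≤ Cr * (((X.length + Y.length + (A.length + B.length) : ℕ) : ℝ) / n)) →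
    (∀ L ∈ Pool.Agent.PMA.cyF (n + 1), ∀ u : ℕ, u < n + 1 → |g (L.rotate u) - g L| ≤ Cr * (u / ((n + 1 : ℕ) : ℝ))) →
    |gS n r (ρ * NTSF.Mg.nr n) (fun _ t => f t) / gS n r (ρ * NTSF.Mg.nr n) (fun _ _ => 1) -
      (∑ t ∈ cyF (n + 1), g t) / ((cyF (n + 1)).card : ℝ)| ≤ ε0

theorem wpmG_of (hM : ManySt) (hT : TrRow) : WPMG := by
  intro ε0 Cr hε0 hCr K hK
  obtain ⟨ε, hε⟩ : ∃ ε : ℝ, ε = ε0 / 24 := ⟨_, rfl⟩
  have hε1 : 0 < ε := by
    rw [hε]
    positivity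
  have hK0 : 0 < K := by linarith
  obtain ⟨s, hs⟩ : ∃ s : ℕ, 4 * K ^ 2 < (2 : ℝ) ^ s := pow_unbounded_of_one_lt _ (by norm_num)
  obtain ⟨c1, bL, hc1, hlow⟩ := gw_low s
  obtain ⟨η, κ, κ', a0, a, m, hη, hκ, hκ', ha0, hmany⟩ := hM (ε * c1 / 2) (by positivity)
  obtain ⟨k, c0, hjoin⟩ := k3_join η κ' a m hη hκ'
  obtain ⟨c, u, e, bM, A, A1, hc0, hcu, hke, hA, hA1, hmany⟩ := hmany k c0
  obtain ⟨H, hH13, hmass⟩ := k3_mass a0 ha0
  obtain ⟨Mx, sx, bJ, hjoin⟩ := hjoin c u e hc0 hcu hke H hH13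
  obtain ⟨cf, bF, hcf, hmass⟩ := hmass H le_rfl Mx sx A
  obtain ⟨cS, bT, KS, Λ, hΛ, hS, hD⟩ := hT c1 cf (ε * c1 / 2) η κ a0 A A1 a m H Mx sx hc1 hcf (by positivity) hη hκ ha0 hA hA1
    hH13
  obtain ⟨w0, hphi⟩ := phi_loc H Mx m 0
  obtain ⟨cC, NC, hcC, hCy⟩ := cy_low
  obtain ⟨CT, w, bW, hCT, hw0, hfar⟩ := farP (ε * cC / Λ) w0 (by positivity)
  obtain ⟨δ7, n7, hδ7, h7⟩ := Pool.Agent.PMA.indepG (ε / Λ) Cr (by positivity) hCr
  obtain ⟨ba, hba⟩ : ∃ ba : ℕ, 2 / a0 < (2 : ℝ) ^ ba := pow_unbounded_of_one_lt _ (by norm_num)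
  obtain ⟨b, hb⟩ : ∃ b : ℕ, b = bL + bM + bJ + bF + bT + bW + ba := ⟨_, rfl⟩
  obtain ⟨CV, hCV⟩ : ∃ CV : ℝ, CV = CT + 4 * (A + A1) := ⟨_, rfl⟩
  have hCV0 : 0 < CV := by
    rw [hCV]
    positivity
  -- the size parameter
  obtain ⟨θ, hθ0, t1', t2', t3', t4', t5'⟩ : ∃ θ : ℝ, 0 < θ ∧ θ ≤ 1 / 2 ∧ 2 ^ b * θ ≤ 1 / 2 ∧ 4 * ((CV + 1) * θ) ≤ 1 ∧
      (CV + 1) * θ ≤ δ7 ∧ Cr * ((A + A1) * θ) ≤ ε := by
    obtain ⟨v1, hv1⟩ : ∃ v : ℝ, v = 1 / 2 / 2 ^ b := ⟨_, rfl⟩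
    obtain ⟨v2, hv2⟩ : ∃ v : ℝ, v = 1 / 4 / (CV + 1) := ⟨_, rfl⟩
    obtain ⟨v3, hv3⟩ : ∃ v : ℝ, v = δ7 / (CV + 1) := ⟨_, rfl⟩
    obtain ⟨v4, hv4⟩ : ∃ v : ℝ, v = ε / (Cr * (A + A1)) := ⟨_, rfl⟩
    have p1 : 0 < v1 := by rw [hv1]; positivity
    have p2 : 0 < v2 := by rw [hv2]; positivity
    have p3 : 0 < v3 := by rw [hv3]; positivity
    have p4 : 0 < v4 := by rw [hv4]; positivity
    obtain ⟨θ, hθ⟩ : ∃ θ : ℝ, θ = min (min (1 / 2) v1) (min (min v2 v3) v4) := ⟨_, rfl⟩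
    have q0 : θ ≤ 1 / 2 := by rw [hθ]; exact (min_le_left _ _).trans (min_le_left _ _)
    have q1 : θ ≤ v1 := by rw [hθ]; exact (min_le_left _ _).trans (min_le_right _ _)
    have q2 : θ ≤ v2 := by rw [hθ]; exact (min_le_right _ _).trans ((min_le_left _ _).trans (min_le_left _ _))
    have q3 : θ ≤ v3 := by rw [hθ]; exact (min_le_right _ _).trans ((min_le_left _ _).trans (min_le_right _ _))
    have q4 : θ ≤ v4 := by rw [hθ]; exact (min_le_right _ _).trans (min_le_right _ _)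
    refine ⟨θ, ?_, q0, ?_, ?_, ?_, ?_⟩
    · rw [hθ]
      exact lt_min (lt_min (by norm_num) p1) (lt_min (lt_min p2 p3) p4)
    · rw [hv1, le_div_iff₀ (by positivity)] at q1
      linarith
    · rw [hv2, le_div_iff₀ (by positivity)] at q2
      linarith
    · rw [hv3, le_div_iff₀ (by positivity)] at q3
      linarith
    · rw [hv4, le_div_iff₀ (by positivity)] at q4
      linarith
  obtain ⟨y0, hy0, y1, y2⟩ : ∃ y0 : ℝ, 0 < y0 ∧ y0 ≤ 1 ∧ y0 ^ (4 / 3 : ℝ) ≤ θ := by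
    refine ⟨min 1 (θ ^ (3 / 4 : ℝ)), lt_min one_pos (by positivity), min_le_left _ _, ?_⟩
    have h : min 1 (θ ^ (3 / 4 : ℝ)) ≤ θ ^ (3 / 4 : ℝ) := min_le_right _ _
    have h0 : (0 : ℝ) ≤ min 1 (θ ^ (3 / 4 : ℝ)) := le_min zero_le_one (by positivity)
    calc _ ≤ (θ ^ (3 / 4 : ℝ)) ^ (4 / 3 : ℝ) := Real.rpow_le_rpow h0 h (by norm_num)
      _ = θ := by
          rw [← Real.rpow_mul hθ0.le]
          norm_num
  refine ⟨y0 / (4 * K), by positivity, fun r hr hr0 => ?_⟩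
  have hr4 : 4 * K * r ≤ y0 := by
    rw [le_div_iff₀ (by positivity)] at hr0
    linarith
  have hr1 : r ≤ 1 := by
    have h1 : r ≤ K * r := le_mul_of_one_le_left hr.le hK
    linarith
  obtain ⟨n1, hn1⟩ := nr_large ((2 ^ (b + s) + 1) / (2 * K * r))
  refine ⟨n1 + NC + n7 + 1, fun n hn ho ρ hρ1 hρ2 f g hf1 hg1 hfg hgr => ?_⟩
  -- the level
  obtain ⟨R, hR⟩ : ∃ R : ℝ, R = NTSF.Mg.nr n := ⟨_, rfl⟩
  have hnn : 1 ≤ n := by omega
  have hn0 : (0 : ℝ) < n := by exact_mod_cast hnn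
  have hR0 : 0 < R := by
    rw [hR]
    unfold NTSF.Mg.nr
    positivity
  have hRn : R ^ (4 / 3 : ℝ) = n := hR ▸ nr_rpow n
  have hR1 := hn1 n (by omega)
  rw [← hR] at hR1
  obtain ⟨x, hx⟩ : ∃ x : ℝ, x = 2 * K * r * R := ⟨_, rfl⟩
  have hx1 : 2 ^ (b + s) + 1 ≤ x := by
    rw [div_le_iff₀ (by positivity)] at hR1
    rw [hx]
    linarith
  have hpw : (1 : ℝ) ≤ 2 ^ (b + s) := one_le_pow₀ (by norm_num)
  obtain ⟨j, hj1, hj2⟩ := lev_ex (show 1 ≤ x by linarith)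
  have hjb : b + s ≤ j := by
    by_contra hc
    have h1 : (2 : ℝ) ^ j ≤ 2 ^ (b + s) := pow_le_pow_right₀ (by norm_num) (by omega)
    linarith
  have hx0 : 0 < x := by linarith
  obtain ⟨qr, hqr⟩ : ∃ qr : ℝ, qr = r ^ (4 / 3 : ℝ) := ⟨_, rfl⟩
  have hqr0 : 0 < qr := hqr ▸ Real.rpow_pos_of_pos hr _
  have hm0 := ARM.ml_pos j
  have hm1 : 1 ≤ ml j := one_le_ml j
  have hj2' : (2 : ℝ) ^ j ≤ 4 * K * r * R := by
    rw [hx] at hj2
    linarith
  have hj2'' : (2 : ℝ) ^ j ≤ y0 * R := hj2'.trans (mul_le_mul_of_nonneg_right hr4 hR0.le)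
  have hmup : ml j ≤ θ * n := by
    rw [ml_eq]
    calc ((2 : ℝ) ^ j) ^ (4 / 3 : ℝ) ≤ (y0 * R) ^ (4 / 3 : ℝ) := Real.rpow_le_rpow (by positivity) hj2'' (by norm_num)
      _ = y0 ^ (4 / 3 : ℝ) * n := by rw [Real.mul_rpow hy0.le hR0.le, hRn]
      _ ≤ θ * n := mul_le_mul_of_nonneg_right y2 hn0.le
  have hqn : qr * n = (r * R) ^ (4 / 3 : ℝ) := by rw [Real.mul_rpow hr.le hR0.le, hRn, hqr]
  have hmlow : qr * n < ml j := by
    rw [ml_eq, hqn]
    refine Real.rpow_lt_rpow (by positivity) (lt_of_lt_of_le ?_ hj1) (by norm_num)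
    rw [hx]
    have h1 : 0 < r * R := by positivity
    have h2 : 1 * (r * R) ≤ K * (r * R) := mul_le_mul_of_nonneg_right hK h1.le
    linarith
  have hqθ : qr * n ≤ θ * n := hmlow.le.trans hmup
  have hqθ' : qr ≤ θ := le_of_mul_le_mul_right hqθ hn0
  have hq1 : qr ≤ 1 := by linarith
  -- the smaller level
  have hjs : (2 : ℝ) ^ (j - s) * 2 ^ s = 2 ^ j := by
    rw [← pow_add]
    congr 1
    omega
  have hjs1 : (2 : ℝ) ^ (j - s) ≤ r / K * R := by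
    have h1 : (2 : ℝ) ^ (j - s) * (4 * K ^ 2) ≤ 4 * K * r * R := by
      refine le_trans ?_ hj2'
      rw [← hjs]
      exact mul_le_mul_of_nonneg_left hs.le (by positivity)
    rw [div_mul_eq_mul_div, le_div_iff₀ hK0]
    have h2 : 4 * K * ((2 : ℝ) ^ (j - s) * K) ≤ 4 * K * (r * R) := by linarith
    exact le_of_mul_le_mul_left h2 (by positivity)
  have hjs2 : ml (j - s) ≤ qr * n := by
    rw [ml_eq, hqn]
    refine Real.rpow_le_rpow (by positivity) (hjs1.trans ?_) (by norm_num)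
    refine mul_le_mul_of_nonneg_right ?_ hR0.le
    rw [div_le_iff₀ hK0]
    exact le_mul_of_one_le_right hr.le hK
  -- the lengths
  obtain ⟨n', hn'⟩ : ∃ n' : ℕ, n' = ⌈(1 - qr) * (n : ℝ)⌉₊ := ⟨_, rfl⟩
  have hle : n' ≤ n := by
    rw [hn', Nat.ceil_le]
    have h1 : 0 ≤ qr * n := by positivity
    linarith
  have hlow' : (1 - qr) * n ≤ n' := hn' ▸ Nat.le_ceil _
  have hhalf : (n : ℝ) / 2 ≤ n' := by
    have h1 := mul_le_mul_of_nonneg_right (hqθ'.trans t1') hn0.le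
    linarith
  have hbn : ∀ b' : ℕ, b' ≤ b → 2 ^ b' * ml j ≤ n / 2 := by
    intro b' hb'
    have h1 : (2 : ℝ) ^ b' ≤ 2 ^ b := pow_le_pow_right₀ (by norm_num) hb'
    calc (2 : ℝ) ^ b' * ml j ≤ 2 ^ b * (θ * n) := mul_le_mul h1 hmup hm0.le (by positivity)
      _ = (2 ^ b * θ) * n := by ring
      _ ≤ 1 / 2 * n := mul_le_mul_of_nonneg_right t2' hn0.le
      _ = _ := by ring
  -- the parameters
  obtain ⟨D, hDc, hjoin⟩ := hjoin j (by omega)
  obtain ⟨P, hP⟩ : ∃ P : Par, P = ⟨j, a, m, H, Mx, sx, n + 1, η, κ, a0, A, A1, gG n r (ρ * R), fun _ => True, TTf Mx D,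
    SN j m cS η KS ((A + A1) * ml j)⟩ := ⟨_, rfl⟩
  have eJ : P.j = j := by rw [hP]
  have ea : P.a = a := by rw [hP]
  have em' : P.m = m := by rw [hP]
  have eH : P.H = H := by rw [hP]
  have eMx : P.Mx = Mx := by rw [hP]
  have esx : P.sx = sx := by rw [hP]
  have eN : P.N = n + 1 := by rw [hP]
  have eη : P.η = η := by rw [hP]
  have eκ : P.κ = κ := by rw [hP]
  have ea0 : P.a0 = a0 := by rw [hP]
  have eA : P.A = A := by rw [hP]
  have eA1 : P.A1 = A1 := by rw [hP]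
  have eG : P.G = gG n r (ρ * R) := by rw [hP]
  have eR' : ∀ Q, P.R Q := by
    intro Q
    rw [hP]
    trivial
  have eTT : P.TT = TTf Mx D := by rw [hP]
  have eS : P.S = SN P.j m cS η KS ((P.A + P.A1) * ml P.j) := by rw [hP]
  clear hP
  have hgl : ∀ l z, P.G l z → n' ≤ l ∧ l < P.N ∧ TIW.hn z ≤ 2 ^ P.j := by
    intro l z h
    rw [eG] at h
    obtain ⟨h1, h2⟩ := h
    rw [mem_wdw', ← hqr, ← hn'] at h1
    refine ⟨h1.1, by omega, ?_⟩
    have h3 := MCP.hn_le_JJ z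
    have h4 : (TIW.hn z : ℝ) ≤ 2 ^ j := by
      refine le_trans ?_ hj1
      rw [hx]
      have h5 : ρ * R ≤ K * r * R := mul_le_mul_of_nonneg_right hρ2 hR0.le
      linarith
    rw [eJ]
    exact_mod_cast h4
  have hGN : ∀ l z, P.G l z → l ≤ P.N := fun l z h => (hgl l z h).2.1.le
  have hEv : Even P.N := eN ▸ ho.add_one
  have hNr : (P.N : ℝ) = n + 1 := by
    rw [eN]
    push_cast
    ring
  have hNup : (P.N : ℝ) ≤ n' + ml P.j + 1 := by
    rw [hNr, eJ]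
    linarith
  have hgw := hlow P n r (ρ * R) eG (by omega) hr hr1 (by
    rw [eJ]
    exact hbn bL (by omega)) (by
    rw [eJ, ← hqr]
    exact hmlow.le) (by
    rw [eJ, ← hqr]
    exact hjs2) (by
    rw [eJ]
    exact hjs1.trans (mul_le_mul_of_nonneg_right hρ1 hR0.le))
  rw [← hqr, ← hn'] at hgw
  have hprp : 0 < pr n' P.j := pr_pos _ _
  have hA0 : gf (GW P) ≠ 0 := by
    intro h0
    rw [h0] at hgw
    have h1 : 0 < ENNReal.ofReal (c1 * pr n' P.j) := ENNReal.ofReal_pos.2 (by positivity)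
    exact absurd hgw (not_le.2 h1)
  have hCyN := hCy (n + 1) (by omega) ho.add_one
  have hB0 : gf (POL.Cy P.N) ≠ 0 := by
    intro h0
    rw [eN] at h0
    rw [h0] at hCyN
    have h1 : 0 < ENNReal.ofReal (cC * ((n + 1 : ℕ) : ℝ) ^ (-(3 / 2) : ℝ)) := ENNReal.ofReal_pos.2 (by positivity)
    exact absurd hCyN (not_le.2 h1)
  have hfil : ∀ M : List Bool, Out P M → ENNReal.ofReal (cf * (Ub P.j / (4 ^ P.j * ml P.j))) ≤ gf (Fil P M) :=
    hmass P eH eMx esx ea0 eA eR' hEv (by omega)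
  have hfil0 : ∀ M : List Bool, Out P M → gf (Fil P M) ≠ 0 := by
    intro M hO h0
    have h1 := hfil M hO
    rw [h0] at h1
    have hU : 0 < Ub P.j := Num2Aux.UU_pos _
    have hm := ARM.ml_pos P.j
    have h2 : 0 < ENNReal.ofReal (cf * (Ub P.j / (4 ^ P.j * ml P.j))) := ENNReal.ofReal_pos.2 (by positivity)
    exact absurd h1 (not_le.2 h2)
  have hbn' : ∀ b' : ℕ, b' ≤ b → 2 ^ b' * ml P.j ≤ n' := fun b' hb' => by
    rw [eJ]
    exact (hbn b' hb').trans hhalf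
  -- most words are good
  have hMany : gf {L | L ∈ GW P ∧ ¬ Many P L} ≤ ENNReal.ofReal ε * gf (GW P) := by
    have h1 := hmany P n' eη eκ ea em' ea0 eA eA1 (by omega) (hbn' bM (by omega)) hNup hgl
      (by
        rw [eJ]
        exact fun X M Y => hjoin P eJ eH eMx esx eTT n' (by
          have := hbn' bJ (by omega)
          rwa [eJ] at this) X M Y)
    have h2 := hS n' P.j (by omega) (hbn' bT (by omega))
    have h3 : {L | L ∈ GW P ∧ ¬ Many P L} ⊆ {L | L ∈ GW P ∧ (NN P L : ℝ) < κ ^ 2 * Ub P.j ^ 2} ∪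
        {L | L ∈ ARM.F n' P.j ∧ ¬ SN P.j m cS η KS ((A + A1) * ml P.j) L} := by
      rintro L ⟨g1, g2⟩
      by_cases g3 : (NN P L : ℝ) < κ ^ 2 * Ub P.j ^ 2
      · exact Or.inl ⟨g1, g3⟩
      · refine Or.inr ⟨?_, fun g4 => g2 ⟨?_, ?_⟩⟩
        · obtain ⟨g5, g6, g7⟩ := hgl _ _ g1.2
          refine ⟨g1.1, g5, ?_, by rw [sub_zero]; exact g7⟩
          have g8 : (L.length : ℝ) ≤ n := by
            have : L.length ≤ n := by omega
            exact_mod_cast this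
          rw [eJ]
          linarith
        · rw [eκ]
          exact not_lt.1 g3
        · rw [eS, eA, eA1]
          exact g4
    refine (gf_mono h3).trans ((gf_union_le _ _).trans ((add_le_add h1 h2).trans ?_))
    rw [← ENNReal.ofReal_add (by positivity) (by positivity)]
    have h4 : ε * c1 / 2 * pr n' P.j + ε * c1 / 2 * pr n' P.j = ε * (c1 * pr n' P.j) := by ring
    rw [h4, ENNReal.ofReal_mul hε1.le]
    exact mul_le_mul' le_rfl hgw
  -- the window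
  obtain ⟨T, hTd⟩ : ∃ T : ℕ, T = ⌈CV * ml j⌉₊ := ⟨_, rfl⟩
  have hT1 : CV * ml j ≤ T := hTd ▸ Nat.le_ceil _
  have hT2 : (T : ℝ) ≤ (CV + 1) * ml j := by
    have h1 : (T : ℝ) < CV * ml j + 1 := hTd ▸ Nat.ceil_lt_add_one (by positivity)
    linarith
  have hT3 : (T : ℝ) ≤ (CV + 1) * θ * n := by
    refine hT2.trans ?_
    rw [mul_assoc]
    exact mul_le_mul_of_nonneg_left hmup (by positivity)
  have hT4 : 4 * T ≤ P.N := by
    have h1 : (4 * T : ℝ) ≤ n := by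
      have h3 := mul_le_mul_of_nonneg_right t3' hn0.le
      linarith
    have h2 : 4 * T ≤ n := by exact_mod_cast h1
    omega
  have hT5 : (T : ℝ) ≤ δ7 * P.N := by
    rw [hNr]
    have h3 := mul_le_mul_of_nonneg_right t4' hn0.le
    linarith
  obtain ⟨φ, hφ⟩ := hphi P eH eMx em' (locS_SN eS 0) (fun l z h => (hgl l z h).2.2) (eA ▸ hA.le) (eA1 ▸ hA1.le) T (P.j + w) (by omega)
    (by
      rw [eA, eA1, eJ]
      refine le_trans ?_ hT1
      refine mul_le_mul_of_nonneg_right ?_ hm0.le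
      rw [hCV]
      linarith) hT4
  have hfar' : ENNReal.ofReal Λ * gf {K | K ∈ POL.Cy P.N ∧ ¬ Far T (P.j + w) K} ≤ ENNReal.ofReal ε * gf (POL.Cy P.N) := by
    have h1 := hfar P.j P.N T (by omega) (by
      have h2 := hbn' bW (by omega)
      have h3 : (n' : ℝ) ≤ n := by exact_mod_cast hle
      rw [hNr]
      linarith) (by
      rw [eJ]
      refine le_trans ?_ hT1
      refine mul_le_mul_of_nonneg_right ?_ hm0.le
      rw [hCV]
      linarith) (by omega)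
    calc ENNReal.ofReal Λ * gf {K | K ∈ POL.Cy P.N ∧ ¬ Far T (P.j + w) K}
        ≤ ENNReal.ofReal Λ * ENNReal.ofReal (ε * cC / Λ * (P.N : ℝ) ^ (-(3 / 2) : ℝ)) := mul_le_mul' le_rfl h1
      _ = ENNReal.ofReal ε * ENNReal.ofReal (cC * (P.N : ℝ) ^ (-(3 / 2) : ℝ)) := by
          rw [← ENNReal.ofReal_mul hΛ.le, ← ENNReal.ofReal_mul hε1.le]
          congr 1
          field_simp
      _ ≤ _ := by
          rw [eN]
          exact mul_le_mul' le_rfl hCyN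
  have hbad' : ENNReal.ofReal Λ * gf {K | K ∈ POL.Cy P.N ∧ K ∈ (∅ : Set (List Bool))} ≤
      ENNReal.ofReal ε * gf (POL.Cy P.N) := by
    have h1 : {K : List Bool | K ∈ POL.Cy P.N ∧ K ∈ (∅ : Set (List Bool))} = ∅ := by
      ext K
      simp
    rw [h1]
    have h2 : gf (∅ : Set (List Bool)) = 0 := by
      unfold gf
      simp
    rw [h2, mul_zero]
    exact zero_le
  have core := asm_core (P := P) (T := T) (w := P.j + w) (Λ := Λ) (ε := ε) (φ := φ) (Bad := ∅)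
    (f := f) (g := g) (eH ▸ hH13) hGN (eκ ▸ hκ) hε1 hΛ hA0 hB0
    (fun L _ x hx => hfil0 _ hx.2.2.2.1) (by
      rw [ea0, eJ]
      have h1 : (2 : ℝ) ^ ba ≤ 2 ^ j := pow_le_pow_right₀ (by norm_num) (by omega)
      have h2 := ml_ge_two j
      have h3 : 2 / a0 ≤ ml j := by linarith
      rw [div_le_iff₀ ha0] at h3
      linarith) hMany
    (hD P D n' hDc eH eMx esx eη eκ ea em' ea0 eA eA1 eTT eS eR' hEv (by omega) (hbn' bT (by omega)) (by omega) hNup hgl hfil hgw)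
    hφ hfar' hbad' ?_ ?_ ?_ ?_
  · have e1 := gw_mean (P := P) eG hGN (fun _ t => f t)
    have e2 := cy_mean P.N g
    beta_reduce at core e1
    rw [e1, e2, eN, hR] at core
    refine core.trans (le_of_eq ?_)
    rw [hε]
    ring
  · exact hf1
  · exact hg1
  · intro L K' p hp _
    obtain ⟨⟨X, M, Y⟩, Q, u⟩ := p
    obtain ⟨⟨hL, hA'⟩, hQ, hu, -, hKe⟩ := hp
    simp only at hL hA' hQ hu hKe
    obtain ⟨hGW, hC, hO, hXY⟩ := hA'
    have hQl : M.length + Q.length = P.N := hQ.2.1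
    have hl := (hgl _ _ hGW.2).2.1
    have h1 := hfg X M Y (Q.take u) (Q.drop u) (by omega) (by
      rw [List.length_append, List.length_append, List.length_drop, List.length_take]
      omega)
    rw [hL, hKe]
    refine h1.trans (le_trans (mul_le_mul_of_nonneg_left ?_ hCr.le) t5')
    rw [div_le_iff₀ hn0]
    have h2 : (P.N : ℝ) ≤ M.length + P.A * ml P.j := hO.2.2
    have h3 : (M.length : ℝ) + Q.length = P.N := by exact_mod_cast hQl
    have h4 : (Q.take u).length + (Q.drop u).length = Q.length := by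
      rw [List.length_drop, List.length_take]
      omega
    rw [h4]
    push_cast
    rw [eA, eJ] at h2
    rw [eA1, eJ] at hXY
    calc (X.length : ℝ) + Y.length + Q.length ≤ A1 * ml j + A * ml j := by linarith
      _ = (A + A1) * ml j := by ring
      _ ≤ (A + A1) * (θ * n) := mul_le_mul_of_nonneg_left hmup (by positivity)
      _ = _ := by ring
  · intro Φ hΦ
    have h1 := h7 P.N (by omega) hEv T hT5 g hg1 (by
      rw [eN]
      exact hgr) Φ hΦ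
    rw [q_mean (fun K => g K * Φ (win T K)), q_mean g, q_mean fun K => Φ (win T K)]
    exact h1

end PMA

end HexObs
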