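import Pool.Agent.PMA.PubDefs
import Pool.Agent.PW.ThDef

/-!
# PM (page 83R), row K8 (helper22): the functional of the open and of the closed word

* `seq_close`, `pn_close2` : two sequences with a common middle part;
* `rt_par` : the frames of two words whose lengths have the same parity;
* **`f3_close`** : `f3 F |L| L ~ f3 F (N - 1) K` for `L = X M Y`, `K = Q2 M Q1`, from the modulus and the size of `K`.
-/

set_option autoImplicit false

open MeasureTheory Filter Topology

namespace Pool.Agent.PMA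

open HexObs hiding pos

open HexObs.SDN HexObs.TS HexObs.TIW NTSF.Mg NTF Pool.Agent.TSW.BP

open NTSF (om om_cube om_norm)

/-! ### 1. Sequences with a common middle part -/

section seq

variable {z z' : ℕ → ℂ} {p q p' q' μ W D : ℕ} {τ ω B : ℝ}

/-- two sequences with a common middle part -/
lemma seq_close (hp : ∀ i, i ≤ p → ‖z i‖ ≤ τ) (hq : ∀ i, p + μ ≤ i → i ≤ p + μ + q → ‖z i - z (p + μ)‖ ≤ τ)
    (hM : ∀ a, a ≤ μ → z (p + a) - z p = z' (p' + a) - z' p')
    (hω : ∀ i j, i ≤ j → j ≤ p' + μ + q' → j ≤ i + W → ‖z' j - z' i‖ ≤ ω) (h0 : z' 0 = 0) (hW : D + p + p' + q' ≤ W)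
    {i j : ℕ} (hi : i ≤ p + μ + q) (hj : j ≤ p' + μ + q') (h1 : i ≤ j + D) (h2 : j ≤ i + D) : ‖z i - z' j‖ ≤ 3 * τ + 3 * ω := by
  have hτ : 0 ≤ τ := (norm_nonneg _).trans (hp 0 (Nat.zero_le _))
  have hω' : ∀ i j, i ≤ p' + μ + q' → j ≤ p' + μ + q' → i ≤ j + W → j ≤ i + W → ‖z' i - z' j‖ ≤ ω := by
    intro i j hi hj h1 h2
    rcases Nat.le_total i j with h | h
    · rw [norm_sub_rev]
      exact hω i j h hj h2
    · exact hω j i h hi h1
  obtain ⟨a, ha⟩ : ∃ a, a = min (i - p) μ := ⟨_, rfl⟩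
  obtain ⟨b, hb⟩ : ∃ b, b = min (j - p') μ := ⟨_, rfl⟩
  have k1 : ‖z i - z (p + a)‖ ≤ 2 * τ := by
    rcases Nat.lt_or_ge p i with h | h
    · rcases Nat.lt_or_ge (p + μ) i with h3 | h3
      · have e : a = μ := by omega
        rw [e]
        linarith [hq i h3.le hi]
      · have e : p + a = i := by omega
        rw [e, sub_self, norm_zero]
        linarith
    · have e : p + a = p := by omega
      rw [e]
      exact (norm_sub_le _ _).trans (by linarith [hp i h, hp p le_rfl])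
  have k2 : ‖z' (p' + b) - z' j‖ ≤ ω := hω' _ _ (by omega) hj (by omega) (by omega)
  have k3 := hM a (by omega)
  have k4 : ‖z' (p' + a) - z' (p' + b)‖ ≤ ω := hω' _ _ (by omega) (by omega) (by omega) (by omega)
  have k5 := hp p le_rfl
  have k6 : ‖z' p'‖ ≤ ω := by
    have := hω 0 p' (Nat.zero_le _) (by omega) (by omega)
    rwa [h0, sub_zero] at this
  have e : z i - z' j = (z i - z (p + a)) + (z p - z' p') + (z' (p' + a) - z' (p' + b)) + (z' (p' + b) - z' j) := by
    linear_combination k3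
  rw [e]
  calc _ ≤ ‖z i - z (p + a)‖ + ‖z p - z' p'‖ + ‖z' (p' + a) - z' (p' + b)‖ + ‖z' (p' + b) - z' j‖ := by
        refine (norm_add_le _ _).trans (add_le_add ?_ le_rfl)
        exact norm_add₃_le
    _ ≤ 2 * τ + (τ + ω) + ω + ω := by
        gcongr
        exact (norm_sub_le _ _).trans (add_le_add k5 k6)
    _ = _ := by ring

/-- the normalised polygons of two sequences which are close up to a shift of the time -/
lemma pn_close2 (hz : ∀ k, ‖z (k + 1) - z k‖ ≤ 1) (hz' : ∀ k, ‖z' (k + 1) - z' k‖ ≤ 1) {n n' : ℕ} (hn : 1 ≤ n)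
    (hnn : n ≤ n') (hB : ∀ k, k ≤ n' → ‖z' k‖ ≤ B) {c : ℝ}
    (hc : ∀ i j, i ≤ n → j ≤ n' → i ≤ j + (n' - n + 1) → j ≤ i + (n' - n + 1) → ‖z i - z' j‖ ≤ c) :
    dist (pn z n) (pn z' n') ≤ (2 + c + ((n' : ℝ) - n) / n' * (B + 1)) / nr n := by
  have p1 := nr_pos hn
  have p2 := nr_pos (hn.trans hnn)
  have hn0 : (0 : ℝ) < n := by exact_mod_cast hn
  have hn0' : (0 : ℝ) < n' := by exact_mod_cast hn.trans hnn
  have a1 : (n : ℝ) ≤ n' := by exact_mod_cast hnn
  have hB0 : 0 ≤ B := (norm_nonneg _).trans (hB 0 (Nat.zero_le _))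
  have hc0 : 0 ≤ c := (norm_nonneg _).trans (hc 0 0 (Nat.zero_le _) (Nat.zero_le _) (by omega) (by omega))
  have hq0 : 0 ≤ ((n' : ℝ) - n) / n' := div_nonneg (by linarith) hn0'.le
  -- the normalisations
  have k1 : (n : ℝ) / n' ≤ nr n / nr n' := by
    unfold nr
    rw [← Real.div_rpow hn0.le hn0'.le]
    have h1 : (n : ℝ) / n' ≤ 1 := by
      rw [div_le_one hn0']
      exact a1
    calc (n : ℝ) / n' = ((n : ℝ) / n') ^ (1 : ℝ) := (Real.rpow_one _).symm
      _ ≤ ((n : ℝ) / n') ^ (3 / 4 : ℝ) := Real.rpow_le_rpow_of_exponent_ge (by positivity) h1 (by norm_num)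
  have m1 : nr n ≤ nr n' := Real.rpow_le_rpow hn0.le a1 (by norm_num)
  have m2 : (nr n')⁻¹ ≤ (nr n)⁻¹ := inv_anti₀ p1 m1
  have k2 : |(nr n)⁻¹ - (nr n')⁻¹| ≤ (nr n)⁻¹ * (((n' : ℝ) - n) / n') := by
    rw [abs_of_nonneg (by linarith)]
    have e1 : (nr n)⁻¹ - (nr n')⁻¹ = (nr n)⁻¹ * (1 - nr n / nr n') := by
      field_simp
    have e2 : ((n' : ℝ) - n) / n' = 1 - n / n' := by
      field_simp
    rw [e1, e2]
    exact mul_le_mul_of_nonneg_left (by linarith) (inv_pos.2 p1).le
  rw [ContinuousMap.dist_le (by positivity)]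
  intro u
  rw [dist_eq_norm]
  show ‖((nr n)⁻¹ : ℝ) • Tight.poly z n u - ((nr n')⁻¹ : ℝ) • Tight.poly z' n' u‖ ≤ _
  have e : ((nr n)⁻¹ : ℝ) • Tight.poly z n u - ((nr n')⁻¹ : ℝ) • Tight.poly z' n' u =
      ((nr n)⁻¹ : ℝ) • (Tight.poly z n u - Tight.poly z' n' u) + ((nr n)⁻¹ - (nr n')⁻¹ : ℝ) • Tight.poly z' n' u := by
    rw [smul_sub, sub_smul]
    abel
  rw [e]
  refine (norm_add_le _ _).trans ?_
  rw [norm_smul, norm_smul, Real.norm_eq_abs, Real.norm_eq_abs, abs_of_pos (inv_pos.2 p1)]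
  obtain ⟨i, hi, h1, h2, h3⟩ := poly_near hz hn u
  obtain ⟨j, hj, h4, h5, h6⟩ := poly_near hz' (hn.trans hnn) u
  have hu0 : (0 : ℝ) ≤ u := u.2.1
  have hu1 : (u : ℝ) ≤ 1 := u.2.2
  have b1 : (i : ℝ) ≤ j + 1 := by nlinarith
  have b2 : (j : ℝ) ≤ i + 1 + ((n' - n : ℕ) : ℝ) := by
    rw [Nat.cast_sub hnn]
    nlinarith
  have c1 : i ≤ j + 1 := by exact_mod_cast b1
  have c2 : j ≤ i + 1 + (n' - n) := by exact_mod_cast b2
  have d1 := hc i j hi.le hj.le (by omega) (by omega)
  have d2 : ‖Tight.poly z n u - Tight.poly z' n' u‖ ≤ 2 + c := by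
    have e : Tight.poly z n u - Tight.poly z' n' u =
        (Tight.poly z n u - z i) + (z i - z' j) - (Tight.poly z' n' u - z' j) := by ring
    rw [e]
    calc _ ≤ ‖(Tight.poly z n u - z i) + (z i - z' j)‖ + ‖Tight.poly z' n' u - z' j‖ := norm_sub_le _ _
      _ ≤ ‖Tight.poly z n u - z i‖ + ‖z i - z' j‖ + ‖Tight.poly z' n' u - z' j‖ := by
          gcongr
          exact norm_add_le _ _
      _ ≤ _ := by linarith
  have d3 : ‖Tight.poly z' n' u‖ ≤ B + 1 := by
    have e : Tight.poly z' n' u = (Tight.poly z' n' u - z' j) + z' j := by ring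
    rw [e]
    exact (norm_add_le _ _).trans (by linarith [hB j hj.le])
  calc (nr n)⁻¹ * ‖Tight.poly z n u - Tight.poly z' n' u‖ + |(nr n)⁻¹ - (nr n')⁻¹| * ‖Tight.poly z' n' u‖
      ≤ (nr n)⁻¹ * (2 + c) + (nr n)⁻¹ * (((n' : ℝ) - n) / n') * (B + 1) := by gcongr
    _ = _ := by
        field_simp

end seq

/-! ### 2. The frames -/

/-- the rotations by multiples of 120 degrees -/
def omP (k : Fin 3) : Pt := if k = 0 then (1, 0) else if k = 1 then (-1, 1) else (0, -1)

lemma JJ_om3 (v : Pt) : om * JJ v = JJ (mulE (-1, 1) v) := by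
  have hom : om = JJ (-1, 0) := by
    have h := NTF.JJ_Ed 1
    have h2 : NTF.Ed 1 = (-1, 0) := rfl
    rw [h2] at h
    rw [h]
    unfold om
    congr 1
    norm_num
  rw [hom]
  have h3 : Real.sqrt 3 * Real.sqrt 3 = 3 := Real.mul_self_sqrt (by norm_num)
  obtain ⟨x, y⟩ := v
  apply Complex.ext
  · rw [Complex.mul_re, NTF.JJ_re, NTF.JJ_re, NTF.JJ_im, NTF.JJ_im, NTF.JJ_re]
    unfold mulE
    simp only
    push_cast
    linear_combination ((x : ℝ) / 4) * h3
  · rw [Complex.mul_im, NTF.JJ_re, NTF.JJ_re, NTF.JJ_im, NTF.JJ_im, NTF.JJ_im]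
    unfold mulE
    simp only
    push_cast
    ring

lemma JJ_omP (k : Fin 3) (v : Pt) : JJ (mulE (omP k) v) = om ^ (k : ℕ) * JJ v := by
  obtain ⟨x, y⟩ := v
  fin_cases k
  · show JJ (mulE (1, 0) (x, y)) = om ^ 0 * JJ (x, y)
    rw [pow_zero, one_mul]
    congr 1
    unfold mulE
    ext <;> simp only <;> ring
  · show JJ (mulE (-1, 1) (x, y)) = om ^ 1 * JJ (x, y)
    rw [pow_one, JJ_om3]
  · show JJ (mulE (0, -1) (x, y)) = om ^ 2 * JJ (x, y)
    rw [pow_two, mul_assoc, JJ_om3, JJ_om3]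
    congr 1
    unfold mulE
    ext <;> simp only <;> ring

/-- the frames of the even words -/
def evd : Finset Pt := {(1, 0), (-1, 1), (0, -1)}

lemma evd_step : ∀ d ∈ dirs, (rotTo up d ∈ evd ↔ ¬ rotTo up (rotL d) ∈ evd) ∧ (rotTo up d ∈ evd ↔ ¬ rotTo up (rotR d) ∈ evd) := by
  decide

lemma evd_par (t : List Bool) (k : ℕ) : rotTo up (dx up t k) ∈ evd ↔ k % 2 = 0 := by
  induction k with
  | zero =>
    have : rotTo up (dx up t 0) ∈ evd := by
      show rotTo up up ∈ evd
      decide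
    simp [this]
  | succ k ih =>
    obtain ⟨h1, h2⟩ := evd_step _ (dx_mem (d0 := up) (by decide) t k)
    have h3 : dx up t (k + 1) = rotL (dx up t k) ∨ dx up t (k + 1) = rotR (dx up t k) := by
      rw [dx_succ]
      cases tf t k
      · first | exact Or.inl rfl | exact Or.inr rfl
      · first | exact Or.inl rfl | exact Or.inr rfl
    rcases h3 with h3 | h3 <;> rw [h3]
    · by_cases h4 : rotTo up (dx up t k) ∈ evd
      · have := ih.1 h4
        have h5 := h1.1 h4
        constructor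
        · intro h6
          exact absurd h6 h5
        · intro h6
          omega
      · have h5 : rotTo up (rotL (dx up t k)) ∈ evd := by
          by_contra h6
          exact h4 (h1.2 h6)
        have h6 : ¬ k % 2 = 0 := fun h => h4 (ih.2 h)
        exact ⟨fun _ => by omega, fun _ => h5⟩
    · by_cases h4 : rotTo up (dx up t k) ∈ evd
      · have := ih.1 h4
        have h5 := h2.1 h4
        constructor
        · intro h6
          exact absurd h6 h5
        · intro h6
          omega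
      · have h5 : rotTo up (rotR (dx up t k)) ∈ evd := by
          by_contra h6
          exact h4 (h2.2 h6)
        have h6 : ¬ k % 2 = 0 := fun h => h4 (ih.2 h)
        exact ⟨fun _ => by omega, fun _ => h5⟩

lemma evd_omP : ∀ d ∈ dirs, ∀ d' ∈ dirs, (rotTo up d ∈ evd ↔ rotTo up d' ∈ evd) → ∃ k : Fin 3,
    rotTo up d = mulE (omP k) (rotTo up d') := by
  decide

/-- **the frames of two words whose lengths have the same parity** -/
lemma rt_par {X Z : List Bool} (h : X.length % 2 = Z.length % 2) : ∃ k : Fin 3, rt X = mulE (omP k) (rt Z) := by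
  refine evd_omP _ (de_mem X) _ (de_mem Z) ?_
  have h1 := evd_par X X.length
  have h2 := evd_par Z Z.length
  show rotTo up (dx up X X.length) ∈ evd ↔ rotTo up (dx up Z Z.length) ∈ evd
  rw [h1, h2, h]

lemma cr_add (a k : Fin 3) : cr a * om ^ (k : ℕ) = cr (a + k) := by
  have h3 : om ^ 3 = 1 := by
    rw [pow_succ, pow_two, mul_assoc]
    exact om_cube
  unfold cr
  rw [← pow_add]
  have e : ((a + k : Fin 3) : ℕ) = ((a : ℕ) + k) % 3 := Fin.val_add a k
  rw [e]
  conv_lhs => rw [← Nat.mod_add_div ((a : ℕ) + k) 3, pow_add, pow_mul, h3, one_pow, mul_one]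

lemma evd_neg : ∀ d ∈ dirs, ∀ d' ∈ dirs, ∃ k : Fin 3, rotTo up d = mulE (omP k) (rotTo up d') ∨
    rotTo up d = mulE (-omP k) (rotTo up d') := by
  decide

/-- the frames of any two words -/
lemma rt_any (X Z : List Bool) : ∃ k : Fin 3, rt X = mulE (omP k) (rt Z) ∨ rt X = mulE (-omP k) (rt Z) :=
  evd_neg _ (de_mem X) _ (de_mem Z)

lemma JJ_nmulE (u v : Pt) : JJ (mulE (-u) v) = -JJ (mulE u v) := by
  have e : mulE (-u) v = -mulE u v := by
    unfold mulE
    ext <;> simp only [Prod.fst_neg, Prod.snd_neg] <;> ring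
  rw [e]
  apply Complex.ext
  · rw [Complex.neg_re, NTF.JJ_re, NTF.JJ_re]
    simp only [Prod.fst_neg, Prod.snd_neg]
    push_cast
    ring
  · rw [Complex.neg_im, NTF.JJ_im, NTF.JJ_im]
    simp only [Prod.fst_neg]
    push_cast
    ring

/-! ### 3. The words -/

section words

variable {N W : ℕ} {X M Y Q1 Q2 : List Bool} {τ ω B : ℝ}

/-- the error -/
noncomputable def eR (N l : ℕ) (τ ω B : ℝ) : ℝ :=
  (2 + (3 * τ + 3 * ω) + (((N - 1 : ℕ) : ℝ) - l) / ((N - 1 : ℕ) : ℝ) * (B + 1)) / nr l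

/-- **the curves of the open and of the closed word, in the same frame of the middle part** -/
theorem pT_close {c c' : ℂ} (hc : ‖c‖ = 1) (hc' : ‖c'‖ = 1)
    (hrot : ∀ v, c * JJ (mulE (rt X) v) = c' * JJ (mulE (rt Q2) v))
    (hlen : Q2.length + (M.length + Q1.length) = N) (hL1 : 1 ≤ (X ++ (M ++ Y)).length)
    (hLn : (X ++ (M ++ Y)).length ≤ N - 1)
    (hX : ∀ i, i ≤ X.length → (hn (vx oo up X i) : ℝ) ≤ τ) (hY : ∀ i, i ≤ Y.length → (hn (vx oo up Y i) : ℝ) ≤ τ)
    (hω : ∀ i j, i ≤ j → j ≤ N → j ≤ i + W →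
      (hn (vx oo up (Q2 ++ (M ++ Q1)) j - vx oo up (Q2 ++ (M ++ Q1)) i) : ℝ) ≤ ω)
    (hB : ∀ i, i ≤ N → (hn (vx oo up (Q2 ++ (M ++ Q1)) i) : ℝ) ≤ B)
    (hW : (N - 1 - (X ++ (M ++ Y)).length + 1) + X.length + Q2.length + Q1.length ≤ W) :
    dist (pT c (X ++ (M ++ Y)) (X ++ (M ++ Y)).length) (pT c' (Q2 ++ (M ++ Q1)) (N - 1)) ≤
      eR N (X ++ (M ++ Y)).length τ ω B := by
  obtain ⟨L, hL⟩ : ∃ L, L = X ++ (M ++ Y) := ⟨_, rfl⟩
  obtain ⟨K, hK⟩ : ∃ K, K = Q2 ++ (M ++ Q1) := ⟨_, rfl⟩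
  have hKl : K.length = N := by rw [hK, List.length_append, List.length_append, hlen]
  have hLl : L.length = X.length + (M.length + Y.length) := by rw [hL, List.length_append, List.length_append]
  rw [← hL] at hL1 hLn hW ⊢
  rw [← hK] at hω hB ⊢
  unfold eR
  rw [pT_of_le le_rfl, pT_of_le (by omega)]
  refine pn_close2 (fun i => cz_unit hc L i) (fun i => cz_unit hc' K i) hL1 hLn (fun i hi => ?_)
    fun i j hi hj h1 h2 => ?_
  · have h3 := hB i (by omega)
    unfold cz
    rw [norm_mul, hc', one_mul]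
    exact (JJ_le_hn _).trans h3
  · refine seq_close (z := cz c L) (z' := cz c' K) (p := X.length) (q := Y.length) (p' := Q2.length)
      (q' := Q1.length) (μ := M.length) (W := W) (D := N - 1 - L.length + 1) ?_ ?_ ?_ ?_ ?_ (by omega) (by omega) (by omega)
      h1 h2
    · intro i hi
      unfold cz
      rw [norm_mul, hc, one_mul, hL, vx_append (by omega)]
      exact (JJ_le_hn _).trans (hX i hi)
    · intro i hi1 hi2
      obtain ⟨l, rfl⟩ : ∃ l, i = (X ++ M).length + l := ⟨i - (X ++ M).length, by rw [List.length_append]; omega⟩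
      have hl : l ≤ Y.length := by rw [List.length_append] at hi2; omega
      have e1 : L = (X ++ M) ++ Y := by rw [hL, List.append_assoc]
      have e2 : X.length + M.length = (X ++ M).length + 0 := by rw [List.length_append, add_zero]
      unfold cz
      rw [← mul_sub, norm_mul, hc, one_mul, ← NTF.JJ_sub, e2, e1, vx_app, vx_app]
      have e3 : en (X ++ M) + mulE (rt (X ++ M)) (vx oo up Y l) - (en (X ++ M) + mulE (rt (X ++ M)) (vx oo up Y 0)) =
          mulE (rt (X ++ M)) (vx oo up Y l) := by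
        have h0 : mulE (rt (X ++ M)) (vx oo up Y 0) = 0 := by
          show mulE _ (0 : Pt) = 0
          unfold mulE
          ext <;> simp
        rw [h0, add_zero, add_sub_cancel_left]
      rw [e3]
      refine (JJ_le_hn _).trans ?_
      rw [hn_mulE (nrm_rt _)]
      exact hY l hl
    · intro b hb
      have f1 : cz c L (X.length + b) - cz c L X.length = c * JJ (mulE (rt X) (vx oo up M b)) := by
        have e2 : X.length = X.length + 0 := (add_zero _).symm
        unfold cz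
        rw [← mul_sub, ← NTF.JJ_sub, hL]
        conv_lhs => rw [e2]
        rw [show X.length + 0 + b = X.length + b by omega, vx_app, vx_app, vx_append (show b ≤ M.length + 1 by omega)]
        have h0 : mulE (rt X) (vx oo up (M ++ Y) 0) = 0 := by
          show mulE _ (0 : Pt) = 0
          unfold mulE
          ext <;> simp
        rw [h0, add_zero, add_sub_cancel_left]
      have f2 : cz c' K (Q2.length + b) - cz c' K Q2.length = c' * JJ (mulE (rt Q2) (vx oo up M b)) := by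
        have e2 : Q2.length = Q2.length + 0 := (add_zero _).symm
        unfold cz
        rw [← mul_sub, ← NTF.JJ_sub, hK]
        conv_lhs => rw [e2]
        rw [show Q2.length + 0 + b = Q2.length + b by omega, vx_app, vx_app, vx_append (show b ≤ M.length + 1 by omega)]
        have h0 : mulE (rt Q2) (vx oo up (M ++ Q1) 0) = 0 := by
          show mulE _ (0 : Pt) = 0
          unfold mulE
          ext <;> simp
        rw [h0, add_zero, add_sub_cancel_left]
      rw [f1, f2, hrot]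
    · intro i j hij hj hjW
      have h3 := hω i j hij (by omega) hjW
      unfold cz
      rw [← mul_sub, norm_mul, hc', one_mul, ← NTF.JJ_sub]
      exact (JJ_le_hn _).trans h3
    · show c' * JJ (0 : Pt) = 0
      have h0 : JJ (0 : Pt) = 0 := by
        apply Complex.ext
        · rw [NTF.JJ_re]
          simp
        · rw [NTF.JJ_im]
          simp
      rw [h0, mul_zero]

lemma pT_neg (c : ℂ) (t : List Bool) (n : ℕ) : pT (-c) t n = -pT c t n := by
  have e : czT (-c) t = fun k => -czT c t k := by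
    funext k
    unfold czT cz
    rw [neg_mul]
  unfold pT pn
  rw [e]
  ext u
  show ((nr n)⁻¹ : ℝ) • Tight.poly (fun k => -czT c t k) n u = -(((nr n)⁻¹ : ℝ) • Tight.poly (czT c t) n u)
  rw [← smul_neg]
  congr 1
  show -czT c t 0 + ∑ i ∈ Finset.range n, ((max 0 (min 1 ((u : ℝ) * n - i)) : ℝ) : ℂ) * (-czT c t (i + 1) - -czT c t i) =
    -(czT c t 0 + ∑ i ∈ Finset.range n, ((max 0 (min 1 ((u : ℝ) * n - i)) : ℝ) : ℂ) * (czT c t (i + 1) - czT c t i))
  rw [neg_add, ← Finset.sum_neg_distrib]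
  congr 1
  refine Finset.sum_congr rfl fun i _ => ?_
  ring

/-- **the functional of the open and of the closed word**: the same parity, or an even functional -/
theorem f3_close {F : C(unitInterval, ℂ) → ℝ} (hF : LipschitzWith 1 F)
    (hpar : X.length % 2 = Q2.length % 2 ∨ ∀ γ, F (-γ) = F γ)
    (hlen : Q2.length + (M.length + Q1.length) = N) (hL1 : 1 ≤ (X ++ (M ++ Y)).length)
    (hLn : (X ++ (M ++ Y)).length ≤ N - 1)
    (hX : ∀ i, i ≤ X.length → (hn (vx oo up X i) : ℝ) ≤ τ) (hY : ∀ i, i ≤ Y.length → (hn (vx oo up Y i) : ℝ) ≤ τ)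
    (hω : ∀ i j, i ≤ j → j ≤ N → j ≤ i + W →
      (hn (vx oo up (Q2 ++ (M ++ Q1)) j - vx oo up (Q2 ++ (M ++ Q1)) i) : ℝ) ≤ ω)
    (hB : ∀ i, i ≤ N → (hn (vx oo up (Q2 ++ (M ++ Q1)) i) : ℝ) ≤ B)
    (hW : (N - 1 - (X ++ (M ++ Y)).length + 1) + X.length + Q2.length + Q1.length ≤ W) :
    |f3 F (X ++ (M ++ Y)).length (X ++ (M ++ Y)) - f3 F (N - 1) (Q2 ++ (M ++ Q1))| ≤
      eR N (X ++ (M ++ Y)).length τ ω B := by
  have hex : ∃ (k : Fin 3) (s : ℂ), ‖s‖ = 1 ∧ (∀ v, JJ (mulE (rt X) v) = s * om ^ (k : ℕ) * JJ (mulE (rt Q2) v)) ∧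
      ∀ (c : ℂ) (t : List Bool) (n : ℕ), F (pT (s * c) t n) = F (pT c t n) := by
    rcases hpar with h | h
    · obtain ⟨k, hk⟩ := rt_par h
      refine ⟨k, 1, norm_one, fun v => ?_, fun c t n => by rw [one_mul]⟩
      rw [hk, ← mulE_assoc, JJ_omP, one_mul]
    · obtain ⟨k, hk | hk⟩ := rt_any X Q2
      · refine ⟨k, 1, norm_one, fun v => ?_, fun c t n => by rw [one_mul]⟩
        rw [hk, ← mulE_assoc, JJ_omP, one_mul]
      · refine ⟨k, -1, by rw [norm_neg, norm_one], fun v => ?_, fun c t n => ?_⟩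
        · rw [hk, ← mulE_assoc, JJ_nmulE, JJ_omP]
          ring
        · rw [neg_one_mul, pT_neg, h]
  obtain ⟨k, s, hs, hk, hFs⟩ := hex
  obtain ⟨R, hR⟩ : ∃ R : ℝ, R = eR N (X ++ (M ++ Y)).length τ ω B := ⟨_, rfl⟩
  have key : ∀ a : Fin 3, |F (pT (cr a) (X ++ (M ++ Y)) (X ++ (M ++ Y)).length) -
      F (pT (cr (a + k)) (Q2 ++ (M ++ Q1)) (N - 1))| ≤ R := by
    intro a
    rw [← hFs (cr (a + k)), hR]
    have h1 := pT_close (c := cr a) (c' := s * cr (a + k)) (cr_norm a) (by rw [norm_mul, hs, cr_norm, one_mul])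
      (fun v => by rw [hk v, ← cr_add]; ring) hlen hL1 hLn hX hY hω hB hW
    have h2 := hF.dist_le_mul (pT (cr a) (X ++ (M ++ Y)) (X ++ (M ++ Y)).length)
      (pT (s * cr (a + k)) (Q2 ++ (M ++ Q1)) (N - 1))
    rw [Real.dist_eq, NNReal.coe_one, one_mul] at h2
    exact h2.trans h1
  rw [← hR]
  have h1 : f3 F (X ++ (M ++ Y)).length (X ++ (M ++ Y)) - f3 F (N - 1) (Q2 ++ (M ++ Q1)) =
      (∑ a : Fin 3, (F (pT (cr a) (X ++ (M ++ Y)) (X ++ (M ++ Y)).length) -
        F (pT (cr (a + k)) (Q2 ++ (M ++ Q1)) (N - 1)))) / 3 := by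
    unfold f3
    rw [Finset.sum_sub_distrib, ← sub_div]
    congr 2
    exact (Equiv.sum_comp (Equiv.addRight k) fun a : Fin 3 => F (pT (cr a) (Q2 ++ (M ++ Q1)) (N - 1))).symm
  rw [h1, abs_div, abs_of_pos (show (0 : ℝ) < 3 by norm_num), div_le_iff₀ (by norm_num)]
  refine (Finset.abs_sum_le_sum_abs _ _).trans ?_
  calc ∑ a : Fin 3, |F (pT (cr a) (X ++ (M ++ Y)) (X ++ (M ++ Y)).length) -
        F (pT (cr (a + k)) (Q2 ++ (M ++ Q1)) (N - 1))| ≤ ∑ _a : Fin 3, R := Finset.sum_le_sum fun a _ => key a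
    _ = R * 3 := by
        rw [Finset.sum_const, Finset.card_univ, Fintype.card_fin, nsmul_eq_mul]
        push_cast
        ring

/-- **the rotation of a closed word** (even functionals) -/
theorem f3_rot {F : C(unitInterval, ℂ) → ℝ} (hF : LipschitzWith 1 F) (hev : ∀ γ, F (-γ) = F γ) {K : List Bool} {u : ℕ}
    (hK : K.length = N) (hN : 2 ≤ N) (hu : u < N)
    (hω : ∀ i j, i ≤ j → j ≤ N → j ≤ i + W → (hn (vx oo up K j - vx oo up K i) : ℝ) ≤ ω)
    (hB : ∀ i, i ≤ N → (hn (vx oo up K i) : ℝ) ≤ B) (hW : 1 + u ≤ W) :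
    |f3 F (N - 1) (K.rotate u) - f3 F (N - 1) K| ≤ eR N (N - 1) ω ω B := by
  rcases Nat.eq_zero_or_pos u with rfl | hu0
  · rw [List.rotate_zero, sub_self, abs_zero]
    have hω0 : 0 ≤ ω := by
      have := hω 0 0 le_rfl (by omega) (by omega)
      have h2 : (0 : ℝ) ≤ (hn (vx oo up K 0 - vx oo up K 0) : ℝ) := by exact_mod_cast hn_nonneg _
      linarith
    unfold eR
    rw [sub_self, zero_div, zero_mul, add_zero]
    have := NTSF.Mg.nr_pos (show 1 ≤ N - 1 by omega)
    positivity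
  · obtain ⟨Q2, hQ2⟩ : ∃ Q2, Q2 = K.take u := ⟨_, rfl⟩
    obtain ⟨M, hM⟩ : ∃ M, M = K.drop u := ⟨_, rfl⟩
    have hQl : Q2.length = u := by rw [hQ2, List.length_take]; omega
    have hMl : M.length = N - u := by rw [hM, List.length_drop, hK]
    have hKe : K = Q2 ++ (M ++ []) := by rw [List.append_nil, hQ2, hM, List.take_append_drop]
    have hre : K.rotate u = M ++ Q2 := by
      rw [List.rotate_eq_drop_append_take (by omega), hQ2, hM]
    obtain ⟨Y, hY⟩ : ∃ Y, Y = Q2.dropLast := ⟨_, rfl⟩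
    have hne : Q2 ≠ [] := by
      intro h0
      rw [h0] at hQl
      simp at hQl
      omega
    have hYe : Q2 = Y ++ [Q2.getLast hne] := by rw [hY, List.dropLast_append_getLast hne]
    have hYl : Y.length = u - 1 := by rw [hY, List.length_dropLast, hQl]
    have hLl : ([] ++ (M ++ Y)).length = N - 1 := by
      rw [List.nil_append, List.length_append, hMl, hYl]
      omega
    have e1 : f3 F (N - 1) (K.rotate u) = f3 F ([] ++ (M ++ Y)).length ([] ++ (M ++ Y)) := by
      rw [hLl, hre]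
      unfold f3
      congr 1
      refine Finset.sum_congr rfl fun a _ => ?_
      congr 1
      have e2 : M ++ Q2 = (M ++ Y) ++ [Q2.getLast hne] := by
        conv_lhs => rw [hYe]
        simp only [List.append_assoc]
      have e3 : (M ++ Y).length = N - 1 := by rw [← hLl, List.nil_append]
      have e4 : ∀ c : ℂ, pn (cz c (M ++ Q2)) (N - 1) = pn (cz c (M ++ Y)) (N - 1) := by
        intro c
        unfold pn
        congr 1
        refine poly_congr fun k hk => ?_
        unfold cz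
        rw [e2, vx_append (by omega)]
      rw [List.nil_append, pT_of_le (by rw [e2, List.length_append]; omega), pT_of_le (by omega), e4]
    rw [e1]
    have hYv : ∀ i, i ≤ Y.length → vx oo up Y i = vx oo up K i := by
      intro i hi
      rw [hKe, vx_append (by omega), hYe, vx_append (by omega)]
    have h2 := f3_close (N := N) (W := W) (X := []) (M := M) (Y := Y) (Q1 := []) (Q2 := Q2) (τ := ω) (ω := ω) (B := B) hF
      (Or.inr hev) (by rw [hQl, hMl]; simp; omega) (by rw [hLl]; omega) (by rw [hLl])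
      (fun i hi => by
        have h3 := hω 0 0 le_rfl (by omega) (by omega)
        have h4 : (0 : ℝ) ≤ (hn (vx oo up K 0 - vx oo up K 0) : ℝ) := by exact_mod_cast hn_nonneg _
        have h5 : i = 0 := by simpa using hi
        rw [h5]
        have h6 : hn (vx oo up [] 0) = 0 := rfl
        rw [h6]
        push_cast
        linarith)
      (fun i hi => by
        have h3 := hω 0 i (Nat.zero_le _) (by omega) (by omega)
        have h4 : vx oo up K 0 = 0 := rfl
        rw [h4, sub_zero] at h3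
        rw [hYv i hi]
        exact h3)
      (by rw [← hKe]; exact hω) (by rw [← hKe]; exact hB) (by rw [hLl, hQl]; simp; omega)
    rw [← hKe, hLl] at h2
    rw [hLl]
    exact h2

end words

end Pool.Agent.PMA
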