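import Pool.Agent.PMA.LongBr
import Pool.Agent.ARM.JMass

/-!
# PM, row K3 (helper94): tubes with any number of letters

* **`tubeL`**: `TubeSt` with the upper bound `A * ml k` of the number of letters chosen after the mesh `H` (at least two steps,
  target in the ball of radius `2 ^ k`): a long bridge in a small box (`longBr`) followed by a tube of the scale `k - 1`.
-/

set_option autoImplicit false

namespace HexObs

namespace PMA

open Finset TIW TS SDN NTA TIP ARM AR ARM.NB

open scoped ENNReal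

/-- the long bridges -/
def LB (k L : ℕ) : Set (List Bool) :=
  {Z | Z ∈ BU ∧ (∀ i, i ≤ Z.length → hn (vx oo up Z i) ≤ 2 ^ k) ∧ L ≤ Z.length ∧ (Z.length : ℝ) ≤ L + ml k}

lemma rt_BU {Z : List Bool} (hZ : Z ∈ BU) (p : Pt) : mulE (rt Z) p = p := by
  rw [ARM.G3.rt_bu hZ, mulE_one]

lemma bu_ev {Z : List Bool} (hZ : Z ∈ BU) : Even Z.length := by
  by_contra hodd
  have h1 := cl_dx up Z Z.length
  have h2 : dx up Z Z.length = up := (BU_facts hZ).2.1
  rw [if_neg hodd, h2] at h1
  revert h1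
  decide

/-- the tube behind the bridge: the absolute target is z, b letters in all -/
def VT (e : ℕ → Pt) (D w : ℤ) (r b : ℕ) (z : Pt) (A : List Bool) : Set (List Bool) :=
  {V | TubeQ e D w r (z - en A) V ∧ V.length = b - A.length}

lemma ns_shift {v d q y : Pt} {D w B : ℤ} (h : NS v d D w y) (hq : hn q ≤ B) : NS v d D (w + B) (q + y) := by
  obtain ⟨t, h1, h2, h3⟩ := h
  refine ⟨t, h1, h2, ?_⟩
  have e1 : q + y - (v + t • d) = (y - (v + t • d)) + q := by abel
  rw [e1]
  exact (hn_add _ _).trans (add_le_add h3 hq)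

variable {e : ℕ → Pt} {k r b : ℕ} {D : ℤ} {z : Pt} {A V : List Bool}

/-- the vertices near the start are far from the later segments -/
lemma far_later (h : IPath e r) (hD : 3 * 2 ^ (k + 9) < D) {j : ℕ} (hj : 1 ≤ j) (hjr : j < r) {y : Pt} (hy : hn y ≤ 2 ^ k)
    (hn' : NS (pv e D j) (e j) D (2 ^ (k + 9)) y) : False := by
  have hk0 : (0 : ℤ) < 2 ^ k := by positivity
  have hk9 : (2 : ℤ) ^ (k + 9) = 512 * 2 ^ k := by ring
  have hD0 : 0 ≤ D := by linarith
  rw [hk9] at hn' hD
  rcases Nat.lt_or_ge j 2 with h1 | h1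
  · -- the second segment: the level is at least D / 1
    have hj1 : j = 1 := by omega
    subst hj1
    have e0 : e 0 = up := h.one (by omega)
    have e1 : pv e D 1 = D • up := by
      rw [pv_succ, e0]
      unfold pv ps
      rw [range_zero, sum_empty, smul_zero, zero_add]
    have h2 : 1 ≤ ip (e 1) up + 1 := by
      rcases h.tur 0 (by omega) with g | g | g
      · rw [Nat.zero_add] at g
        rw [g, e0]
        decide
      · rw [Nat.zero_add] at g
        rw [g, e0]
        decide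
      · rw [Nat.zero_add] at g
        rw [g, e0]
        decide
    obtain ⟨t, t1, t2, t3⟩ := hn'
    have h3 := neg_hn_le_ip (y - (pv e D 1 + t • e 1)) upd'
    have h4 : ip (pv e D 1) up = 2 * D := by
      rw [e1, ip_smul_self upd']
    rw [ip_sub_left, ip_add_left, h4, ip_smul] at h3
    have h5 := ip_le_hn y upd'
    have h6 : 0 ≤ t * ip (e 1) up := mul_nonneg t1 (by linarith)
    linarith
  · have h2 : NS (pv e D 0) (e 0) D (2 ^ k) y := by
      refine ⟨0, le_rfl, hD0, ?_⟩
      have e1 : pv e D 0 = 0 := by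
        unfold pv ps
        rw [range_zero, sum_empty, smul_zero]
      rw [e1, zero_smul, add_zero, sub_zero]
      exact hy
    have h3 := sep_seg h (i := j) (j := 0) (by omega) hjr hn' h2
    rw [sub_self, show hn (0 : Pt) = 0 by decide] at h3
    linarith

/-- **the bridge followed by the tube is a tube** -/
theorem lb_app {L : ℕ} (h : IPath e r) (hr : 2 ≤ r) (hD : 3 * 2 ^ (k + 9) < D) (hA : A ∈ LB k L)
    (hV : V ∈ VT e D (2 ^ (k + 8)) r b z A) (hb : A.length ≤ b) :
    TubeQ e D (2 ^ (k + 9)) r z (A ++ V) ∧ (A ++ V).length = b := by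
  obtain ⟨hB, hbox, -, -⟩ := hA
  obtain ⟨hV, hlV⟩ := hV
  obtain ⟨bs, bd, bh, -⟩ := BU_facts hB
  have hrt := fun p => rt_BU hB p
  have hk0 : (0 : ℤ) < 2 ^ k := by positivity
  have hk8 : (2 : ℤ) ^ (k + 8) = 256 * 2 ^ k := by ring
  have hk9 : (2 : ℤ) ^ (k + 9) = 512 * 2 ^ k := by ring
  have hD0 : 0 ≤ D := by linarith
  have hen : hn (en A) ≤ 2 ^ k := hbox A.length le_rfl
  have hww : (2 : ℤ) ^ (k + 8) + 2 ^ k ≤ 2 ^ (k + 9) := by
    rw [hk8, hk9]
    linarith
  have hvx : ∀ q, vx oo up (A ++ V) (A.length + q) = en A + vx oo up V q := fun q => by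
    rw [vx_app, hrt]
  have hnr : ∀ {j : ℕ} {y : Pt}, Nr e D (2 ^ (k + 8)) j y → Nr e D (2 ^ (k + 9)) j (en A + y) := fun hy =>
    (ns_shift hy hen).mono hww
  have hseg0 : ∀ i, i ≤ A.length → Nr e D (2 ^ (k + 9)) 0 (vx oo up A i) := by
    intro i hi
    refine ⟨0, le_rfl, hD0, ?_⟩
    have e1 : pv e D 0 = 0 := by
      unfold pv ps
      rw [range_zero, sum_empty, smul_zero]
    rw [e1, zero_smul, add_zero, sub_zero]
    refine (hbox i hi).trans ?_
    rw [hk9]
    linarith
  -- levels of the bridge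
  obtain ⟨T, hT⟩ := hB
  rw [mem_Brd] at hT
  obtain ⟨t1, t2, t3, t4⟩ := hT
  have hpos : ∀ i, 1 ≤ i → i ≤ A.length → 0 < ip (vx oo up A i) up := fun i h1 h2 => (t1 i h1 h2).1
  have hup : ∀ i, i ≤ A.length → ip (vx oo up A i) up ≤ ip (en A) up := by
    intro i hi
    rcases Nat.eq_zero_or_pos i with h0 | h0
    · rw [h0]
      have h1 : vx oo up A 0 = 0 := rfl
      have h2 : ip (0 : Pt) up = 0 := by decide
      rw [h1, h2]
      have h3 : ip (en A) up = 3 * hgt A := bh
      rw [h3]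
      positivity
    · have h1 := (t1 i h0 hi).2
      have h2 : ip (en A) up = 3 * T := t4
      rw [h2]
      exact h1
  refine ⟨⟨sa_app bs hV.sa fun i hi q hq1 hq2 he => ?_, ?_, ?_, ?_, ?_, ?_⟩, ?_⟩
  · rcases hV.st q hq1 hq2 with g | ⟨j, g1, g2, g3⟩
    · have h1 := hup i hi
      rw [he, hrt, ip_add_left] at h1
      linarith
    · have h1 := hnr g3
      rw [hrt] at he
      rw [← he] at h1
      exact far_later h hD g1 g2 (hbox i hi) h1
  · rw [en_app, hrt, hV.en]
    abel
  · rw [de_app, hrt, hV.de]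
  · intro i hi
    rcases Nat.lt_or_ge A.length i with h1 | h1
    · obtain ⟨q, rfl⟩ : ∃ q, i = A.length + q := ⟨i - A.length, by omega⟩
      rw [List.length_append] at hi
      obtain ⟨j, g1, g2⟩ := hV.rg q (by omega)
      refine ⟨j, g1, ?_⟩
      rw [hvx]
      exact hnr g2
    · rw [vx_append (by omega)]
      exact ⟨0, by omega, hseg0 i h1⟩
  · intro i hi0 hi
    rcases Nat.lt_or_ge A.length i with h1 | h1
    · obtain ⟨q, rfl⟩ : ∃ q, i = A.length + q := ⟨i - A.length, by omega⟩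
      rw [List.length_append] at hi
      rw [hvx]
      rcases hV.st q (by omega) (by omega) with g | ⟨j, g1, g2, g3⟩
      · left
        rw [ip_add_left]
        have h2 := hup 0 (Nat.zero_le _)
        have h3 : vx oo up A 0 = 0 := rfl
        have h4 : ip (0 : Pt) up = 0 := by decide
        rw [h3, h4] at h2
        linarith
      · exact Or.inr ⟨j, g1, g2, hnr g3⟩
    · rw [vx_append (by omega)]
      exact Or.inl (hpos i hi0 h1)
  · intro i hi
    rcases Nat.lt_or_ge A.length i with h1 | h1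
    · obtain ⟨q, rfl⟩ : ∃ q, i = A.length + q := ⟨i - A.length, by omega⟩
      rw [List.length_append] at hi
      rw [hvx]
      rcases hV.bd q (by omega) with g | ⟨j, g1, g2⟩
      · left
        have e1 : en A + vx oo up V q - z = vx oo up V q - (z - en A) := by abel
        rw [e1]
        exact g
      · exact Or.inr ⟨j, g1, hnr g2⟩
    · rw [vx_append (by omega)]
      exact Or.inr ⟨0, by omega, hseg0 i h1⟩
  · rw [List.length_append, hlV]
    omega

/-- **gluing** -/
theorem lb_glue {L : ℕ} (h : IPath e r) (hr : 2 ≤ r) (hD : 3 * 2 ^ (k + 9) < D) {v : ℝ≥0∞}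
    (hv : ∀ A ∈ LB k L, v ≤ gf (VT e D (2 ^ (k + 8)) r b z A)) :
    gf (LB k L) * v ≤ gf (Df (LB k L) BU) * gf (Pr (LB k L) (VT e D (2 ^ (k + 8)) r b z)) := by
  refine glueM TIP.FreeA.BU_nil (fun _ h _ h' => TIP.FreeA.BU_app h h') hv fun A hA1 A' hA2 V hV1 V' hV2 he hl => ?_
  obtain ⟨Z, rfl⟩ : ∃ Z, A' = A ++ Z := by
    have h1 : A <+: A' ++ V' := ⟨V, he⟩
    have h2 : A' <+: A' ++ V' := List.prefix_append _ _
    obtain ⟨Z, hZ⟩ := List.prefix_of_prefix_length_le h1 h2 hl
    exact ⟨Z, hZ.symm⟩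
  rw [List.append_assoc] at he
  have he' := List.append_cancel_left he
  refine ⟨Z, ?_, rfl⟩
  obtain ⟨hB, hbox, -, -⟩ := hA1
  obtain ⟨hB', hbox', -, -⟩ := hA2
  obtain ⟨hV, -⟩ := hV1
  rw [he'] at hV
  have hrt := fun p => rt_BU hB p
  have hlen' : (A ++ Z).length = A.length + Z.length := List.length_append
  have hvx : ∀ q, vx oo up (A ++ Z) (A.length + q) = en A + vx oo up Z q := fun q => by
    rw [vx_app, hrt]
  have e0 : ∀ j, j ≤ Z.length → vx oo up (Z ++ V') j = vx oo up Z j := fun j hj => vx_append (by omega)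
  have hlZ : (Z ++ V').length = Z.length + V'.length := List.length_append
  obtain ⟨-, bd, bh, -⟩ := BU_facts hB
  obtain ⟨-, bd', bh', -⟩ := BU_facts hB'
  have hdz : de Z = up := by
    have h1 : de (A ++ Z) = de A := by rw [bd, bd']
    exact dir_same h1
  have hsZ : Z ∈ SA := by
    have h1 := hV.sa
    exact ⟨fun _ _ _ => Set.mem_univ _, fun a b hab hb he => h1.inj a b hab (by omega) (by
      rw [e0 a (by omega), e0 b hb]
      exact he)⟩
  obtain ⟨T, hT⟩ := hB'
  rw [mem_Brd] at hT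
  obtain ⟨t1, t2, t3, t4⟩ := hT
  have hen : hn (en A) ≤ 2 ^ k := hbox A.length le_rfl
  have hk0 : (0 : ℤ) < 2 ^ k := by positivity
  refine ARM.G3.bu_of hsZ hdz (fun i h1 h2 => ?_) (fun i h1 => ?_)
  · show 0 < ip (vx oo up Z i) up
    rcases hV.st i h1 (by omega) with g | ⟨j, g1, g2, g3⟩
    · rw [e0 i h2] at g
      exact g
    · exfalso
      rw [e0 i h2] at g3
      have h3 := hbox' (A.length + i) (by omega)
      rw [hvx] at h3
      have h4 : Nr e D (2 ^ (k + 9)) j (en A + vx oo up Z i) := by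
        refine (ns_shift g3 hen).mono ?_
        have hk8 : (2 : ℤ) ^ (k + 8) = 256 * 2 ^ k := by ring
        have hk9 : (2 : ℤ) ^ (k + 9) = 512 * 2 ^ k := by ring
        rw [hk8, hk9]
        linarith
      exact far_later h hD g1 g2 h3 h4
  · show ip (vx oo up Z i) up ≤ ip (vx oo up Z Z.length) up
    have h3 : ip (vx oo up (A ++ Z) (A.length + Z.length)) up = 3 * T := by
      rw [← hlen']
      exact t4
    rw [hvx, ip_add_left] at h3
    rcases Nat.eq_zero_or_pos (A.length + i) with h4 | h4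
    · have h5 : i = 0 := by omega
      have h6 : A.length = 0 := by omega
      rw [h5]
      have h7 : vx oo up Z 0 = 0 := rfl
      have h8 : ip (0 : Pt) up = 0 := by decide
      rw [h7, h8]
      have h9 : en A = 0 := by
        rw [List.length_eq_zero_iff.1 h6]
        rfl
      rw [h9, h8] at h3
      have h10 : (0 : ℤ) ≤ T := by positivity
      linarith
    · have h5 := (t1 (A.length + i) h4 (by omega)).2
      have h6 : lev (A ++ Z) (A.length + i) = ip (vx oo up (A ++ Z) (A.length + i)) up := rfl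
      rw [h6, hvx, ip_add_left] at h5
      linarith

/-- **tubes with any number of letters** -/
theorem tubeL (a : ℝ) (ha : 0 < a) : ∃ H0 : ℕ, 2 ^ 13 ≤ H0 ∧ ∀ H : ℕ, H0 ≤ H → ∀ (Mx : ℕ) (A : ℝ),
    ∃ (c : ℝ) (k0 : ℕ), 0 < c ∧ ∀ (k r b : ℕ) (D : ℤ) (e : ℕ → Pt) (z : Pt), k0 ≤ k →
      18 * (H * 2 ^ k) ≤ D → D ≤ 36 * (H * 2 ^ k) → 2 ≤ r → r ≤ Mx → IPg e r → e 0 = up →
      hn (z - pv e D r) ≤ 2 ^ k → cl z = (if Even b then 0 else 2) → cl (e (r - 1)) = (if Even b then 2 else 1) →
      a * ml k ≤ b → (b : ℝ) ≤ A * ml k →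
      ENNReal.ofReal (c * (Ub k / (4 ^ k * ml k))) ≤ gf {Q | TubeQ e D (2 ^ (k + 9)) r z Q ∧ Q.length = b} := by
  obtain ⟨H1, hH1, hT1⟩ := tubeSt (min a 1) (max a 8) (lt_min ha one_pos) ((min_le_left _ _).trans (le_max_left _ _))
  refine ⟨H1, hH1, fun H hH Mx A0 => ?_⟩
  obtain ⟨A, hAd⟩ : ∃ A : ℝ, A = max 1 A0 := ⟨_, rfl⟩
  have hA1 : 1 ≤ A := by
    rw [hAd]
    exact le_max_left _ _
  have hAA : A0 ≤ A := by
    rw [hAd]
    exact le_max_right _ _
  obtain ⟨c1, k1, hc1, hT⟩ := hT1 H hH Mx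
  obtain ⟨c2, k2, hc2, hS⟩ := hT1 (2 * H) (by omega) Mx
  obtain ⟨c3, k3, hc3, hB⟩ := longBr A hA1
  refine ⟨min c1 (c3 * c2), max (max k1 (k2 + 1)) (max k3 4), lt_min hc1 (by positivity), fun k r b D e z hk hD1 hD2 hr2 hrM he he0
    hz hcz hce hb1 hb2 => ?_⟩
  have hk1 : k1 ≤ k := (le_max_left _ _).trans ((le_max_left _ _).trans hk)
  have hk2 : k2 + 1 ≤ k := (le_max_right _ _).trans ((le_max_left _ _).trans hk)
  have hk3 : k3 ≤ k := (le_max_left _ _).trans ((le_max_right _ _).trans hk)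
  have hkp : 4 ≤ k := (le_max_right _ _).trans ((le_max_right _ _).trans hk)
  have hml := ARM.NB.ml_pos k
  have hU := Ub_pos k
  have hk0 : (0 : ℤ) < 2 ^ k := by positivity
  have hcase : (b : ℝ) ≤ max a 8 * ml k ∨ 8 * ml k ≤ b := by
    rcases le_total (b : ℝ) (max a 8 * ml k) with h | h
    · exact Or.inl h
    · right
      refine le_trans ?_ h
      exact mul_le_mul_of_nonneg_right (le_max_right _ _) hml.le
  rcases hcase with hcase | hcase
  · refine le_trans (ENNReal.ofReal_le_ofReal ?_) (hT k r b D e z hk1 hD1 hD2 (by omega) hrM he he0 (hz.trans ?_) hcz hce ?_ hcase)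
    · exact mul_le_mul_of_nonneg_right (min_le_left _ _) (by positivity)
    · exact pow_le_pow_right₀ (by norm_num) (by omega)
    · refine le_trans ?_ hb1
      exact mul_le_mul_of_nonneg_right (min_le_left _ _) hml.le
  · -- a long bridge first
    have hP : IPath e r := ⟨he.dir, fun _ => he0, he.tur, he.ind⟩
    have hH13 : (8192 : ℤ) ≤ H := by
      have : 8192 ≤ H := hH1.trans hH
      exact_mod_cast this
    have hk9 : (2 : ℤ) ^ (k + 9) = 512 * 2 ^ k := by ring
    have hDD : 3 * 2 ^ (k + 9) < D := by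
      rw [hk9]
      nlinarith
    obtain ⟨L, hL⟩ : ∃ L : ℕ, L = ⌊(b : ℝ) - 3 * ml k⌋₊ := ⟨_, rfl⟩
    have hbp : 0 ≤ (b : ℝ) - 3 * ml k := by linarith
    have L1 : (L : ℝ) ≤ b - 3 * ml k := by
      rw [hL]
      exact Nat.floor_le hbp
    have L2 : (b : ℝ) - 3 * ml k < L + 1 := by
      rw [hL]
      exact Nat.lt_floor_add_one _
    have hml1 : 1 ≤ ml k := by
      refine le_trans ?_ (ml_ge k)
      exact one_le_pow₀ (by norm_num)
    obtain ⟨l, rfl⟩ : ∃ l, k = l + 1 := ⟨k - 1, by omega⟩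
    have hmll := ARM.NB.ml_pos l
    have hmr1 : ml l ≤ ml (l + 1) := by
      unfold ml
      refine Real.rpow_le_rpow_of_exponent_le (by norm_num) ?_
      push_cast
      linarith
    have hmr2 : ml (l + 1) ≤ 4 * ml l := by
      unfold ml
      have e4 : (4 : ℝ) * 2 ^ ((4 / 3 : ℝ) * (l : ℝ)) = 2 ^ ((4 / 3 : ℝ) * (l : ℝ) + 2) := by
        rw [Real.rpow_add (by norm_num)]
        norm_num
        ring
      rw [e4]
      refine Real.rpow_le_rpow_of_exponent_le (by norm_num) ?_
      push_cast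
      linarith
    have hml5 : 8 ≤ ml l := by
      refine le_trans ?_ (ml_ge l)
      calc (8 : ℝ) = 2 ^ 3 := by norm_num
        _ ≤ 2 ^ l := pow_le_pow_right₀ (by norm_num) (by omega)
    have hmr3 : ml (l + 1) * 3 + 1 ≤ 8 * ml l := by
      have e4 : ml (l + 1) = ml l * 2 ^ (4 / 3 : ℝ) := by
        unfold ml
        rw [← Real.rpow_add (by norm_num)]
        congr 1
        push_cast
        ring
      rw [e4]
      have h1 : (2 : ℝ) ^ (4 / 3 : ℝ) ≤ 13 / 5 := by
        have h2 : ((2 : ℝ) ^ (4 / 3 : ℝ)) ^ (3 : ℕ) ≤ (13 / 5) ^ (3 : ℕ) := by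
          rw [← Real.rpow_natCast, ← Real.rpow_mul (by norm_num)]
          have h3 : (2 : ℝ) ^ (4 / 3 * ((3 : ℕ) : ℝ)) = 16 := by
            have : (4 : ℝ) / 3 * ((3 : ℕ) : ℝ) = ((4 : ℕ) : ℝ) := by
              push_cast
              norm_num
            rw [this, Real.rpow_natCast]
            norm_num
          rw [h3]
          norm_num
        exact le_of_pow_le_pow_left₀ (by norm_num) (by norm_num) h2
      nlinarith
    have hmid : ∀ Z ∈ LB (l + 1) L, Z.length ≤ b ∧ min a 1 * ml l ≤ ((b - Z.length : ℕ) : ℝ) ∧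
        ((b - Z.length : ℕ) : ℝ) ≤ max a 8 * ml l := by
      rintro Z ⟨-, -, z1, z2⟩
      have z1' : (L : ℝ) ≤ Z.length := by exact_mod_cast z1
      have h1 : (Z.length : ℝ) ≤ b := by linarith
      have h2 : Z.length ≤ b := by exact_mod_cast h1
      refine ⟨h2, ?_, ?_⟩
      · rw [Nat.cast_sub h2]
        have h3 : min a 1 * ml l ≤ 1 * ml l := mul_le_mul_of_nonneg_right (min_le_right _ _) hmll.le
        linarith
      · rw [Nat.cast_sub h2]
        have h3 : 8 * ml l ≤ max a 8 * ml l := mul_le_mul_of_nonneg_right (le_max_right _ _) hmll.le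
        have h4 : (b : ℝ) ≤ Z.length + 3 * ml (l + 1) + 1 := by linarith
        linarith
    have hv : ∀ Z ∈ LB (l + 1) L, ENNReal.ofReal (c2 * (Ub l / (4 ^ l * ml l))) ≤
        gf (VT e D (2 ^ (l + 1 + 8)) r b z Z) := by
      intro Z hZ
      obtain ⟨z1, z2, z3⟩ := hmid Z hZ
      obtain ⟨hZB, hbox, -, -⟩ := hZ
      have hev : Even Z.length := bu_ev hZB
      have hpar : Even (b - Z.length) ↔ Even b := by
        rw [Nat.even_sub z1]
        simp [hev]
      have hcl : cl (z - en Z) = cl z := by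
        have h1 : cl (en Z) = 0 := by
          rw [cl_en, if_pos hev]
        have h2 : cl (z - en Z) = cl z - cl (en Z) := by
          unfold cl
          simp only [Prod.fst_sub, Prod.snd_sub]
          push_cast
          ring
        rw [h2, h1, sub_zero]
      refine (hS l r (b - Z.length) D e (z - en Z) (by omega) ?_ ?_ (by omega) hrM he he0 ?_ ?_ ?_ z2 z3).trans (gf_mono ?_)
      · refine le_trans (le_of_eq ?_) hD1
        push_cast
        ring
      · refine le_trans hD2 (le_of_eq ?_)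
        push_cast
        ring
      · have e1 : z - en Z - pv e D r = (z - pv e D r) - en Z := by abel
        rw [e1]
        have h1 := hn_sub (z - pv e D r) (en Z)
        have h2 : hn (en Z) ≤ 2 ^ (l + 1) := hbox Z.length le_rfl
        have h3 : (2 : ℤ) ^ (l + 2) = 2 ^ (l + 1) + 2 ^ (l + 1) := by ring
        rw [h3]
        linarith
      · rw [hcl, hcz]
        by_cases hb : Even b
        · rw [if_pos hb, if_pos (hpar.2 hb)]
        · rw [if_neg hb, if_neg (fun h => hb (hpar.1 h))]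
      · rw [hce]
        by_cases hb : Even b
        · rw [if_pos hb, if_pos (hpar.2 hb)]
        · rw [if_neg hb, if_neg (fun h => hb (hpar.1 h))]
      · rintro V ⟨v1, v2⟩
        exact ⟨v1, v2⟩
    have hg := lb_glue (L := L) hP hr2 hDD hv
    have hdf : gf (Df (LB (l + 1) L) BU) ≤ ENNReal.ofReal (Ub (l + 1)) := by
      refine df_mass (d := up) (c := 0) (n := 2 ^ (l + 1)) ?_
      rintro Z ⟨z1, z2, -⟩
      refine ⟨(BU_facts z1).2.1, ?_⟩
      rw [sub_zero]
      exact_mod_cast z2 Z.length le_rfl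
    have hLB : ENNReal.ofReal (c3 * Ub (l + 1)) ≤ gf (LB (l + 1) L) := by
      refine hB (l + 1) L hk3 ?_ ?_
      · linarith
      · have : (b : ℝ) ≤ A * ml (l + 1) := hb2.trans (mul_le_mul_of_nonneg_right hAA hml.le)
        linarith
    refine (of_step (K := Ub (l + 1)) (x := c3) (u := c2 * (Ub l / (4 ^ l * ml l)))
      (y := min c1 (c3 * c2) * (Ub (l + 1) / (4 ^ (l + 1) * ml (l + 1)))) hU hc3.le (by
        have := Ub_pos l
        positivity) hg hLB le_rfl hdf ?_).trans (gf_mono ?_)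
    · have hUl := Ub_pos l
      have hUU : Ub (l + 1) ≤ 2 ^ 1 * Ub l := TPC.Ub_pow l 1
      rw [pow_one] at hUU
      have h1 : Ub (l + 1) / (4 ^ (l + 1) * ml (l + 1)) ≤ Ub l / (4 ^ l * ml l) := by
        rw [div_le_div_iff₀ (by positivity) (by positivity)]
        have h2 : (4 : ℝ) ^ (l + 1) = 4 * 4 ^ l := by ring
        rw [h2]
        have h3 : (0 : ℝ) < 4 ^ l := by positivity
        calc Ub (l + 1) * (4 ^ l * ml l) ≤ 2 * Ub l * (4 ^ l * ml (l + 1)) := by gcongr
          _ ≤ 4 * Ub l * (4 ^ l * ml (l + 1)) := by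
              refine mul_le_mul_of_nonneg_right ?_ (by positivity)
              linarith
          _ = Ub l * (4 * 4 ^ l * ml (l + 1)) := by ring
      calc min c1 (c3 * c2) * (Ub (l + 1) / (4 ^ (l + 1) * ml (l + 1))) ≤ c3 * c2 * (Ub l / (4 ^ l * ml l)) := by
            have h2 := min_le_right c1 (c3 * c2)
            have h3 : 0 ≤ min c1 (c3 * c2) := (lt_min hc1 (by positivity)).le
            gcongr
        _ = _ := by ring
    · rintro Q ⟨Z, hZ, V, hV, rfl⟩
      exact lb_app hP hr2 hDD hZ hV (hmid Z hZ).1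

end PMA

end HexObs
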