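import Pool.Agent.PMA.Defs
import Pool.Agent.PMA.TubeL
import Pool.Agent.ARM.JoinR
import Pool.Agent.ARM.GlueGB

/-!
# PM, row K3 (helper94): the fillings

* `TTf Mx DD`: the finite set of paths (finitely many meshes and directions);
* **`k3_join`**: the middle part between two good cuts of a word of `GFc` is joinable (`Jbl`), along a path of the finite set;
* **`k3_mass`**: every outer part has fillings with a mass of at least `c * Ub j / (4 ^ j * ml j)` (exact number of letters);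
* `fil_cy`: `M ++ Q` is a closed word; `fil_top`: the mass is finite.
-/

set_option autoImplicit false

namespace HexObs

namespace PMA

open Finset TIW TS SDN NTA TIP ARM AR ARM.G2 ARM.G3

open scoped ENNReal

/-- the paths with a mesh in `DD`, at most `Mx` steps; the directions in the finite set `EE Mx` -/
def TTf (Mx : ℕ) (DD : Finset ℤ) (τ : Pth) : Prop := τ.D ∈ DD ∧ τ.E ∈ G2.EE Mx

/-- **row K3a**: good cuts of good words have a joinable middle part -/
theorem k3_join (η κ : ℝ) (a m : ℕ) (hη : 0 < η) (hκ : 0 < κ) : ∃ k c0 : ℕ, ∀ c u e : ℕ, c0 ≤ c → c ≤ u → k ≤ e →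
    ∀ H : ℕ, 2 ^ 13 ≤ H → ∃ Mx sx b0 : ℕ, ∀ j : ℕ, b0 ≤ j → ∃ DD : Finset ℤ, DD.card ≤ Mx ∧
      ∀ P : Par, P.j = j → P.H = H → P.Mx = Mx → P.sx = sx → P.TT = TTf Mx DD → ∀ n : ℕ, 2 ^ b0 * ml j ≤ n →
        ∀ X M Y : List Bool, X ++ (M ++ Y) ∈ GFc n j η κ a m c u e k → CutP j a m η X M Y → Jbl P M := by
  obtain ⟨k, c0, h⟩ := joinSc η κ a m hη hκ
  refine ⟨k, c0, fun c u e h1 h2 h3 H hH => ?_⟩
  obtain ⟨Mx, sx, b0, h⟩ := h c u e h1 h2 h3 H hH
  refine ⟨Mx, sx, b0, fun j hj => ?_⟩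
  obtain ⟨DD, hDD, h⟩ := h j hj
  refine ⟨DD, hDD, fun P hPj hPH hPM hPs hPT n hn X M Y hL hC => ?_⟩
  obtain ⟨k', r, D, E, hD, g1, g2, g3, g4, g5, g6, g7, g8, g9, g10⟩ := h n hn X M Y hL hC
  refine ⟨⟨k', r, D, cutE E r⟩, ⟨?_, ?_, ?_, ?_, g5, ?_, IPg_cut g7, ?_, ?_, ?_⟩, Jn_cut (by omega) g10⟩
  · rw [hPj]
    exact g1
  · rw [hPj, hPs]
    exact g2
  · rw [hPH]
    exact g3
  · rw [hPH]
    exact g4
  · rw [hPM]
    exact g6
  · show cutE E r (r - 1) = up
    rw [cutE_lt (by omega)]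
    exact g8
  · show cutE E r (r - 2) = up
    rw [cutE_lt (by omega)]
    exact g9
  · rw [hPT]
    exact ⟨hD, cutE_mem g6 g7⟩

/-- the number of the letters and the parities -/
lemma par_MQ {M : List Bool} {N : ℕ} (hN : Even N) (hM : M.length ≤ N) : Even (N - M.length) ↔ Even M.length := by
  rw [Nat.even_sub hM]
  simp [hN]

/-- ratio of the scales -/
lemma ml_up {k j s : ℕ} (hk : k ≤ j) (hj : j ≤ k + s) : ml k ≤ ml j ∧ ml j ≤ 4 ^ s * ml k := by
  refine ⟨?_, ARM.G2.m_up hj⟩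
  unfold ml
  refine Real.rpow_le_rpow_of_exponent_le (by norm_num) ?_
  have : (k : ℝ) ≤ j := by exact_mod_cast hk
  linarith

lemma U_up {k j s : ℕ} (hj : j ≤ k + s) : Ub j ≤ 2 ^ s * Ub k := by
  refine le_trans ?_ (TPC.Ub_pow k s)
  exact Num2Aux.UU_mono (Nat.pow_le_pow_right (by norm_num) hj)

/-- **row K3b**: the mass of the fillings, exact number of letters -/
theorem k3_mass (a0 : ℝ) (ha : 0 < a0) : ∃ H0 : ℕ, 2 ^ 13 ≤ H0 ∧ ∀ H : ℕ, H0 ≤ H → ∀ (Mx sx : ℕ) (A : ℝ), ∃ (c : ℝ) (b0 : ℕ),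
    0 < c ∧ ∀ P : Par, P.H = H → P.Mx = Mx → P.sx = sx → P.a0 = a0 → P.A = A → (∀ Q, P.R Q) → Even P.N → b0 ≤ P.j →
      ∀ M : List Bool, Out P M → ENNReal.ofReal (c * (Ub P.j / (4 ^ P.j * ml P.j))) ≤ gf (Fil P M) := by
  obtain ⟨H0, hH0, hT⟩ := tubeL a0 ha
  refine ⟨H0, hH0, fun H hH Mx sx A => ?_⟩
  obtain ⟨c, k0, hc, hT⟩ := hT H hH Mx (max A 0 * 4 ^ sx)
  refine ⟨c / 2 ^ sx, k0 + sx, by positivity, fun P hPH hPM hPs hPa hPA hR hN hj M hO => ?_⟩
  obtain ⟨hJ, ho1, ho2⟩ := hO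
  obtain ⟨hok, hJn⟩ := pth_ok hJ
  obtain ⟨τ, hτ⟩ : ∃ τ, τ = pth P M := ⟨_, rfl⟩
  have hFil : Fil P M = {Q | TP τ.E τ.r τ.D τ.k M Q ∧ M.length + Q.length = P.N ∧ P.R Q} := by
    rw [hτ]
    rfl
  rw [← hτ] at hok hJn
  rw [hFil]
  obtain ⟨k, r, D, E⟩ := τ
  obtain ⟨g1, g2, g3, g4, g5, g6, g7, g8, g9, g10⟩ := hok
  simp only at g1 g2 g3 g4 g5 g6 g7 g8 g9 g10 hJn ⊢
  rw [hPs] at g2
  rw [hPH] at g3 g4
  rw [hPM] at g6
  rw [hPa] at ho1
  rw [hPA] at ho2
  have hml := ARM.NB.ml_pos k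
  have hmj := ARM.NB.ml_pos P.j
  obtain ⟨hm1, hm2⟩ := ml_up g1 g2
  have hle : M.length ≤ P.N := by
    have h1 : (M.length : ℝ) ≤ P.N := by
      have : 0 ≤ a0 * ml P.j := by positivity
      linarith
    exact_mod_cast h1
  have hpar := par_MQ hN hle
  have hP := jn_plc (s := 0) hJn (by
    have : hn (0 : Pt) = 0 := by decide
    rw [this]
    positivity)
  have hsub : {Q | TubeQ (fun i => mulE (rc M) (E i)) D (2 ^ (k + 9)) r (mulE (rc M) (-(en M))) Q ∧ Q.length = P.N - M.length} ⊆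
      {Q | TP E r D k M Q ∧ M.length + Q.length = P.N ∧ P.R Q} := by
    rintro Q ⟨q1, q2⟩
    exact ⟨q1, by omega, hR Q⟩
  refine le_trans ?_ ((hT k r (P.N - M.length) D (fun i => mulE (rc M) (E i)) (mulE (rc M) (-(en M))) (by omega) g3 g4 (by omega)
    g6 (ipg_rot g7 (nrm_rc M)) ?_ ?_ ?_ ?_ ?_ ?_).trans (gf_mono hsub))
  · refine ENNReal.ofReal_le_ofReal ?_
    have hU := U_up g2
    have hUk := Ub_pos k
    have h1 : Ub P.j / (4 ^ P.j * ml P.j) ≤ 2 ^ sx * (Ub k / (4 ^ k * ml k)) := by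
      have h4 : (4 : ℝ) ^ k ≤ 4 ^ P.j := pow_le_pow_right₀ (by norm_num) g1
      calc Ub P.j / (4 ^ P.j * ml P.j) ≤ (2 ^ sx * Ub k) / (4 ^ k * ml k) := by
            have : (0 : ℝ) < 4 ^ k := by positivity
            gcongr
        _ = _ := by ring
    calc c / 2 ^ sx * (Ub P.j / (4 ^ P.j * ml P.j)) ≤ c / 2 ^ sx * (2 ^ sx * (Ub k / (4 ^ k * ml k))) :=
          mul_le_mul_of_nonneg_left h1 (by positivity)
      _ = _ := by
          field_simp
  · show mulE (rc M) (E 0) = up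
    rw [← hJn.de, ← TIW.rt_up M, rc_rt]
  · have e1 : mulE (rc M) (-(en M)) - AR.pv (fun i => mulE (rc M) (E i)) D r = mulE (rc M) (-(en M - qv E D r 0)) := by
      unfold AR.pv
      rw [ps_rot, ← mulE_smul, ← mulE_sub]
      congr 1
      unfold qv
      rw [ps_zero, zero_sub, smul_neg]
      abel
    rw [e1, TIW.hn_mulE (nrm_rc M), TIW.hn_neg]
    exact hJn.pos
  · have h1 := G3.cl_rc M
    have h2 : cl (TIW.de M) = if Even M.length then cl up else -cl up := cl_dx up M M.length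
    have h3 : cl (en M) = if Even M.length then cl oo else cl oo + cl up := cl_vx oo up M M.length
    rw [cl_mulE, cl_neg, h3]
    rw [h2] at h1
    by_cases he : Even M.length
    · rw [if_pos he] at h1 ⊢
      rw [if_pos (hpar.2 he)]
      have : cl oo = 0 := by decide
      rw [this]
      ring
    · rw [if_neg he] at h1 ⊢
      rw [if_neg (fun h => he (hpar.1 h))]
      have h4 : cl up = 2 := by decide
      have h5 : cl oo = 0 := by decide
      rw [h4] at h1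
      rw [h4, h5, zero_add]
      exact h1
  · show cl (mulE (rc M) (E (r - 1))) = _
    rw [g8, cl_mulE]
    have h1 := G3.cl_rc M
    have h2 : cl (TIW.de M) = if Even M.length then cl up else -cl up := cl_dx up M M.length
    rw [h2] at h1
    by_cases he : Even M.length
    · rw [if_pos he] at h1
      rw [if_pos (hpar.2 he), h1]
      decide
    · rw [if_neg he] at h1
      rw [if_neg (fun h => he (hpar.1 h))]
      have h4 : cl up = 2 := by decide
      rw [h4] at h1 ⊢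
      have h6 : cl (rc M) * 2 = -(cl (rc M) * -2) := by ring
      rw [h6, h1]
      decide
  · rw [Nat.cast_sub hle]
    have : a0 * ml k ≤ a0 * ml P.j := mul_le_mul_of_nonneg_left hm1 ha.le
    linarith
  · rw [Nat.cast_sub hle]
    have h1 : A * ml P.j ≤ max A 0 * ml P.j := mul_le_mul_of_nonneg_right (le_max_left _ _) hmj.le
    have h2 : max A 0 * ml P.j ≤ max A 0 * (4 ^ sx * ml k) := mul_le_mul_of_nonneg_left hm2 (le_max_right _ _)
    linarith

/-- the mesh is large -/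
lemma okT_D {P : Par} {τ : Pth} (h : okT P τ) (hH : 2 ^ 13 ≤ P.H) : 2 ^ (τ.k + 12) ≤ τ.D := by
  refine le_trans ?_ h.D1
  have h1 : (2 : ℤ) ^ 13 ≤ P.H := by exact_mod_cast hH
  have h2 : (0 : ℤ) < 2 ^ τ.k := by positivity
  have h3 : (2 : ℤ) ^ (τ.k + 12) = 2 ^ 12 * 2 ^ τ.k := by ring
  rw [h3]
  nlinarith

/-- **the closed word** -/
theorem fil_cy {P : Par} (hH : 2 ^ 13 ≤ P.H) {M Q : List Bool} (hJ : Jbl P M) (hQ : Q ∈ Fil P M) : M ++ Q ∈ POL.Cy P.N := by
  obtain ⟨hok, hJn⟩ := pth_ok hJ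
  have hP := jn_plc (s := 0) hJn (by
    have : hn (0 : Pt) = 0 := by decide
    rw [this]
    positivity)
  have h := cy_of hok.ip (by have := hok.r4; omega) hok.e1 (okT_D hok hH) hP hQ.1
  rw [hQ.2.1] at h
  exact h

/-- the mass of the fillings is finite -/
lemma fil_top {P : Par} {M : List Bool} : gf (Fil P M) ≠ ⊤ := by
  have h1 : Fil P M ⊆ {Q | Q.length ≤ P.N} := by
    rintro Q ⟨-, h, -⟩
    show Q.length ≤ P.N
    omega
  have h2 : {Q : List Bool | Q.length ≤ P.N}.Finite := List.finite_length_le Bool P.N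
  have h3 : (Fil P M).Finite := h2.subset h1
  unfold gf
  have := h3.fintype
  rw [tsum_fintype]
  refine (ENNReal.sum_lt_top.2 fun Q _ => ?_).ne
  exact lt_top_iff_ne_top.2 (by unfold wE; exact ENNReal.ofReal_ne_top)

end PMA

end HexObs
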