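import Pool.Agent.PMA.ConfP
import Pool.Agent.ARM.T2S
import Pool.Agent.ARM.GoodC0
import Pool.Agent.ARM.Mid

/-!
# PM, row K7b (helper58): far strands or no exit

`farP`: off a set of mass `ε N ^ (-3 / 2)` all vertices of a closed word, except for `T` letters on both sides of the root, are
outside of the ball of the level `j + w`: both ends leave a larger ball (`confP`), no extra strand (`t2S`).
-/

set_option autoImplicit false

namespace HexObs

namespace PMA

open Finset TS SDN HexObs.SIM NTA TIP ARM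

open _root_.HexObs.ARM.T2 TwoX

open scoped ENNReal

/-- **row K7b** -/
theorem farP : FarP := by
  intro ε w0 hε
  obtain ⟨C, b1, hC, hS⟩ := t2S
  obtain ⟨t0, ht0⟩ := exists_t (C := C) (ε := ε / 16) (by positivity)
  obtain ⟨lam, b2, hlam, hP⟩ := confP (ε / 2) (by positivity)
  obtain ⟨w, hw⟩ : ∃ w, w = w0 + 3 := ⟨_, rfl⟩
  obtain ⟨s, hs⟩ : ∃ s, s = w + t0 + 3 := ⟨_, rfl⟩
  have hV0 : (0 : ℝ) < (2 : ℝ) ^ ((4 / 3 : ℝ) * (s : ℝ)) := by positivity
  refine ⟨lam * (2 : ℝ) ^ ((4 / 3 : ℝ) * (s : ℝ)), w, b1 + b2 + 2 * s + 3, by positivity, by omega,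
    fun j N T hj hN hT hTN => ?_⟩
  have hmj := ml_pos j
  have hm1 := one_le_ml j
  have eml : ml (j + s) = (2 : ℝ) ^ ((4 / 3 : ℝ) * (s : ℝ)) * ml j := ml_add j s
  have hV : (2 : ℝ) ^ ((4 / 3 : ℝ) * (s : ℝ)) ≤ 2 ^ (2 * s) := by
    rw [← Real.rpow_natCast]
    refine Real.rpow_le_rpow_of_exponent_le (by norm_num) ?_
    push_cast
    have : (0 : ℝ) ≤ s := Nat.cast_nonneg s
    linarith
  have hT1 : lam * ml (j + s) ≤ T := by
    rw [eml]
    linarith
  have hN1 : 2 ^ b2 * ml (j + s) ≤ (N : ℝ) := by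
    refine le_trans ?_ hN
    rw [eml]
    calc (2 : ℝ) ^ b2 * ((2 : ℝ) ^ ((4 / 3 : ℝ) * (s : ℝ)) * ml j) ≤ 2 ^ b2 * (2 ^ (2 * s) * ml j) := by gcongr
      _ = 2 ^ (b2 + 2 * s) * ml j := by rw [pow_add]; ring
      _ ≤ _ := mul_le_mul_of_nonneg_right (pow_le_pow_right₀ (by norm_num) (by omega)) hmj.le
  have hN4 : (4 : ℝ) ≤ N := by
    refine le_trans ?_ hN
    have h1 : (2 : ℝ) ^ 2 ≤ 2 ^ (b1 + b2 + 2 * s + 3) := pow_le_pow_right₀ (by norm_num) (by omega)
    nlinarith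
  have hN4' : 4 ≤ N := by exact_mod_cast hN4
  have hTp : 1 ≤ T := by
    have h1 : (0 : ℝ) < T := lt_of_lt_of_le (by positivity) hT
    exact_mod_cast h1
  -- the two classes
  have f1 := hP (j + s) N T (by omega) hN1 hT1 (by omega)
  have f2 := es_le (n := N - 1) (l := j + w) (i0 := j + w + t0) (t := t0) (b0 := b1) hC
    (fun i hi => hS (N - 1) (j + w) i (by omega) hi (by omega)) le_rfl
  have hsub : {K | K ∈ POL.Cy N ∧ ¬ Far T (j + w) K} ⊆
      {K | K ∈ POL.Cy N ∧ ((∀ i, i ≤ T → TIW.hn (vx oo up K i) ≤ 2 ^ (j + s)) ∨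
        ∀ i, N ≤ i + T → i ≤ N → TIW.hn (vx oo up K i) ≤ 2 ^ (j + s))} ∪
      {K | K ∈ POL.Cy N ∧ K.dropLast ∈ {L | L ∈ C0 (N - 1) ∧ ∃ i, j + w + t0 ≤ i ∧
        (L ∈ ESe (j + w) i ∨ rv L ∈ ESe (j + w) i)}} := by
    rintro K ⟨hK, hF⟩
    by_cases hc : (∀ i, i ≤ T → TIW.hn (vx oo up K i) ≤ 2 ^ (j + s)) ∨
        ∀ i, N ≤ i + T → i ≤ N → TIW.hn (vx oo up K i) ≤ 2 ^ (j + s)
    · exact Or.inl ⟨hK, hc⟩
    right
    push Not at hc
    obtain ⟨⟨t, ht1, ht2⟩, b, hb1, hb2, hb3⟩ := hc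
    have hlen : K.length = N := hK.1
    have hF' : ∃ i, T ≤ i ∧ i + T ≤ K.length ∧ TIW.hn (vx oo up K i) ≤ 2 ^ (j + w) := by
      by_contra hcon
      push Not at hcon
      exact hF ⟨by omega, fun i h1 h2 => hcon i h1 h2⟩
    obtain ⟨a, ha1, ha2, ha3⟩ := hF'
    have hne : K ≠ [] := by
      rintro rfl
      simp at hlen
      omega
    have hsp := List.dropLast_append_getLast hne
    have hCL : K.dropLast ∈ C0 (N - 1) := by
      refine ⟨K.getLast hne, ?_⟩
      rw [hsp, show N - 1 + 1 = N by omega]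
      exact hK
    have hlL : K.dropLast.length = N - 1 := by rw [List.length_dropLast, hlen]
    obtain ⟨L, hL⟩ : ∃ L, L = K.dropLast := ⟨_, rfl⟩
    rw [← hL] at hCL hlL
    have hv : ∀ i, i ≤ N - 1 → vx oo up L i = vx oo up K i := by
      intro i hi
      rw [hL]
      conv_rhs => rw [← hsp]
      rw [vx_append (by rw [← hL]; omega)]
    obtain ⟨-, -, hen⟩ := C0_mem hCL
    have hz0 : TIW.hn (0 : Pt) = 0 := by decide
    -- the distances
    have up1 : ∀ i, dz L i ≤ TIW.hn (vx oo up L i) + 2 := by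
      intro i
      have h1 := TIW.hn_sub (vx oo up L i) (TIW.en L)
      unfold dz
      linarith
    have lo1 : ∀ i, TIW.hn (vx oo up L i) ≤ dz L i + 2 := by
      intro i
      have h1 := TIW.hn_tri (vx oo up L i) (TIW.en L) 0
      rw [sub_zero, sub_zero] at h1
      unfold dz
      linarith
    have p1 : (8 : ℤ) ≤ 2 ^ (j + w) := by
      have : (2 : ℤ) ^ 3 ≤ 2 ^ (j + w) := pow_le_pow_right₀ (by norm_num) (by omega)
      linarith
    have p2 : (2 : ℤ) ^ (j + w) ≤ 2 ^ (j + w + t0) := pow_le_pow_right₀ (by norm_num) (by omega)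
    have p3 : (2 : ℤ) ^ (j + s) = 8 * 2 ^ (j + w + t0) := by
      rw [hs, show j + (w + t0 + 3) = j + w + t0 + 3 by omega, pow_add]
      ring
    have p4 : (2 : ℤ) ^ (j + w + 1) = 2 * 2 ^ (j + w) := by rw [pow_succ]; ring
    have hbN : b ≠ N := by
      rintro rfl
      have h1 : vx oo up K b = 0 := hK.2.1
      rw [h1, hz0] at hb3
      have : (0 : ℤ) < 2 ^ (j + s) := by positivity
      omega
    have ht0' : t ≠ 0 := by
      rintro rfl
      have h1 : vx oo up K 0 = 0 := rfl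
      rw [h1, hz0] at ht2
      have : (0 : ℤ) < 2 ^ (j + s) := by positivity
      omega
    have e1 := lo1 t
    have e2 := up1 a
    have e3 := lo1 b
    rw [hv t (by omega)] at e1
    rw [hv a (by omega)] at e2
    rw [hv b (by omega)] at e3
    refine ⟨hK, ?_⟩
    rw [← hL]
    refine ⟨hCL, ?_⟩
    by_contra hcon
    push Not at hcon
    have hS4 : TIW.hn (vx oo up L 1 - TIW.en L) ≤ 4 := by
      have h1 := TIW.hn_sub (vx oo up L 1) (TIW.en L)
      have h2 := hn_vx_one L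
      linarith
    refine noES hS4 (l := j + w) (i0 := j + w + t0) ?_ (t := t) (a := a) (b := b) (by omega) (by omega) (by omega) (by omega)
      (by omega) (by omega) (by omega) (by omega) (by omega) (by omega)
    rintro T' (rfl | rfl) i hi
    · exact (hcon i hi).1
    · exact (hcon i hi).2
  have f3 : gf {K | K ∈ POL.Cy N ∧ K.dropLast ∈ {L | L ∈ C0 (N - 1) ∧ ∃ i, j + w + t0 ≤ i ∧
      (L ∈ ESe (j + w) i ∨ rv L ∈ ESe (j + w) i)}} ≤ ENNReal.ofReal (ε / 2 * (N : ℝ) ^ (-(3 / 2) : ℝ)) := by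
    refine (CP.gf_last (N := N) (by omega) fun K hK => ⟨hK.1.1, hK.2⟩).trans ((mul_le_mul' le_rfl f2).trans ?_)
    have e2 : (2 : ℝ≥0∞) = ENNReal.ofReal 2 := by norm_num
    rw [e2, ← ENNReal.ofReal_mul (by norm_num)]
    refine ENNReal.ofReal_le_ofReal ?_
    have h6 := CP.last_num hN4'
    have h9 : (0 : ℝ) ≤ (N : ℝ) ^ (-(3 / 2) : ℝ) := by positivity
    have h10 : (0 : ℝ) ≤ ((N - 1 : ℕ) : ℝ) ^ (-(3 / 2) : ℝ) := by positivity
    have h11 := mul_le_mul_of_nonneg_right (ht0 t0 le_rfl) h10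
    nlinarith
  refine (gf_mono hsub).trans ((gf_union_le _ _).trans ((add_le_add f1 f3).trans (le_of_eq ?_)))
  rw [← ENNReal.ofReal_add (by positivity) (by positivity)]
  congr 1
  ring

end PMA

end HexObs
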