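import Pool.Agent.PMA.LocW

/-!
# PM, row K7a: locality of the cuts (helper6)

`Nr2 T1 T2 w M M'`: the words have the same letters at both ends, the same length, end and direction; all other vertices are far
from the start. `sa_loc`: `X ++ (M ++ Y)` and `X ++ (M' ++ Y)` are self-avoiding at the same time; `fr1_loc`, `fr2_loc`: the free
half balls; `cutP_loc`: the pairs of good cuts.
-/

set_option autoImplicit false

namespace HexObs

namespace PMA

open Finset TS SDN SIM TIP ARM

namespace LocC

theorem up0 : (up : Pt) ∈ dirs := by decide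

/-! ### 1. the reversed walk -/

theorem dx_back (L : List Bool) (i : ℕ) : dx up L i = turn (!(tf L i)) (dx up L (i + 1)) := by
  show dx up L i = turn (!(tf L i)) (turn (tf L i) (dx up L i))
  rw [turn_turn]

theorem vx_back (L : List Bool) (i : ℕ) : vx oo up L i = vx oo up L (i + 1) - dx up L i := by
  show vx oo up L i = vx oo up L i + dx up L i - dx up L i
  abel

theorem dx_eq (L : List Bool) {n : ℕ} (hn : 1 ≤ n) : dx up L (n - 1) = vx oo up L n - vx oo up L (n - 1) := by
  obtain ⟨k, rfl⟩ : ∃ k, n = k + 1 := ⟨n - 1, by omega⟩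
  rw [Nat.add_sub_cancel]
  show dx up L k = vx oo up L k + dx up L k - vx oo up L k
  abel

/-- the vertices of the reversed walk, with the rotation -/
theorem rv_fr {L : List Bool} (hL : 1 ≤ L.length) : ∀ i, i + 1 ≤ L.length →
    vx oo up L (L.length - i) = TIW.en L + mulE (rotTo up (-(dx up L (L.length - 1)))) (vx oo up (rv L) i) ∧
    -(dx up L (L.length - 1 - i)) = mulE (rotTo up (-(dx up L (L.length - 1)))) (dx up (rv L) i) := by
  intro i
  induction i with
  | zero =>
    intro _
    refine ⟨?_, ?_⟩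
    · show vx oo up L L.length = TIW.en L + mulE _ oo
      have h0 : ∀ c : Pt, mulE c oo = 0 := by
        intro c
        unfold mulE
        show (c.1 * 0 - c.2 * 0, c.1 * 0 + c.2 * 0 + c.2 * 0) = (0 : Pt)
        simp
      rw [h0, add_zero]
      rfl
    · show -(dx up L (L.length - 1)) = mulE _ up
      rw [rotTo_apply _ up0]
  | succ i ih =>
    intro hi
    obtain ⟨h1, h2⟩ := ih (by omega)
    have e0 : L.length - i = (L.length - (i + 1)) + 1 := by omega
    have e1 : L.length - 1 - i = L.length - (i + 1) := by omega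
    rw [e1] at h2
    refine ⟨?_, ?_⟩
    · rw [vx_back L, ← e0, h1]
      show _ = TIW.en L + mulE _ (vx oo up (rv L) i + dx up (rv L) i)
      rw [mulE_add, ← h2]
      abel
    · have e2 : L.length - (i + 1) = (L.length - 1 - (i + 1)) + 1 := by omega
      have e3 : tf (rv L) i = !(tf L (L.length - 1 - (i + 1))) := by
        have h4 : tf (rv L) i = tf (rev L) (1 + i) := by
          unfold rv tf
          rw [List.getD_eq_getElem?_getD, List.getD_eq_getElem?_getD, List.getElem?_drop]
        rw [h4, tf_rev (by omega)]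
        congr 2
        omega
      show _ = mulE _ (turn (tf (rv L) i) (dx up (rv L) i))
      rw [mulE_turn, ← h2, e3, turn_neg, dx_back L (L.length - 1 - (i + 1)), ← e2]

theorem rv_len (L : List Bool) : (rv L).length = L.length - 1 := by
  unfold rv
  rw [List.length_drop, rev_length]

/-- all vertices of `L`, the number 0 included -/
theorem rv_fr' {L : List Bool} (hL : 1 ≤ L.length) {i : ℕ} (hi : i ≤ L.length) :
    vx oo up L (L.length - i) = TIW.en L + mulE (rotTo up (-(dx up L (L.length - 1)))) (vx oo up (rv L) i) := by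
  rcases Nat.lt_or_ge i L.length with h | h
  · exact (rv_fr hL i (by omega)).1
  · have e : i = L.length := by omega
    subst e
    obtain ⟨h1, h2⟩ := rv_fr hL (L.length - 1) (by omega)
    rw [show L.length - 1 - (L.length - 1) = 0 by omega] at h2
    rw [show L.length - (L.length - 1) = 1 by omega] at h1
    have e : vx oo up (rv L) L.length = vx oo up (rv L) (L.length - 1) + dx up (rv L) (L.length - 1) := by
      conv_lhs => rw [show L.length = (L.length - 1) + 1 by omega]
      rfl
    rw [Nat.sub_self, e, mulE_add, ← h2, ← add_assoc, ← h1, vx_back L 0, zero_add]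
    abel

/-! ### 2. sizes -/

theorem hn_co {p : Pt} {c : ℤ} (h1 : |p.1| ≤ c) (h2 : |p.2| ≤ c) : TIW.hn p ≤ 3 * c := by
  refine TIW.hn_le fun d hd => ?_
  rw [abs_le] at h1 h2
  obtain ⟨x, y⟩ := p
  simp only [dirs, mem_insert, mem_singleton] at hd
  unfold ip
  rcases hd with rfl | rfl | rfl | rfl | rfl | rfl <;> simp only <;> simp only at h1 h2 <;> omega

theorem hn_bl {p q : Pt} {r : ℕ} (h : p ∈ Bl q r) : TIW.hn (p - q) ≤ 3 * r := hn_co h.1 h.2

theorem hn_In {D : ℕ} {Y : List Bool} (h : In D Y) {i : ℕ} (hi : i ≤ Y.length) : TIW.hn (vx oo up Y i) ≤ 3 * D := by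
  have h1 := hn_bl (h i hi)
  rwa [show (vx oo up Y i) - oo = vx oo up Y i from sub_zero _] at h1

theorem hn_dx (L : List Bool) (i : ℕ) : TIW.hn (dx up L i) = 2 := by
  have key : ∀ d ∈ dirs, TIW.hn d = 2 := by decide
  exact key _ (dx_mem up0 L i)

/-- the tip `X` in front of the start of `M` -/
theorem hn_X {D : ℕ} {X : List Bool} (h : In D (rev X)) {i : ℕ} (hi : i ≤ X.length) :
    TIW.hn (vx oo up X i - TIW.en X) ≤ 3 * D + 4 := by
  have he : -(dx up X X.length) ∈ dirs := neg_mem_dirs (dx_mem up0 X _)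
  have hn1 : nrm (rotTo up (-(dx up X X.length))) = 1 := nrm_rotTo up0 he
  have key : ∀ k, k ≤ X.length + 1 → vx oo up X (X.length + 1 - k) =
      vx oo up X (X.length + 1) + mulE (rotTo up (-(dx up X X.length))) (vx oo up (rev X) k) := by
    intro k hk
    have h1 := vx_rev oo up X k hk
    have h2 := vx_mulE (rotTo up (-(dx up X X.length))) oo (tip oo up X) up (rev X) k
    rw [rotTo_apply _ up0, h1] at h2
    rw [h2, show vx oo up (rev X) k - oo = vx oo up (rev X) k from sub_zero _]
    rfl
  have k1 : ∀ k, k ≤ X.length → TIW.hn (vx oo up X (X.length + 1 - k) - vx oo up X (X.length + 1)) ≤ 3 * D := by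
    intro k hk
    rw [key k (by omega), add_sub_cancel_left, TIW.hn_mulE hn1]
    exact hn_In h (by rw [rev_length]; exact hk)
  have k2 : TIW.hn (vx oo up X (X.length + 1) - TIW.en X) ≤ 2 := by
    have : vx oo up X (X.length + 1) - TIW.en X = dx up X X.length := by
      show vx oo up X X.length + dx up X X.length - vx oo up X X.length = _
      abel
    rw [this, hn_dx]
  rcases Nat.eq_zero_or_pos i with h0 | h0
  · have k3 : TIW.hn (vx oo up X 0 - vx oo up X 1) ≤ 2 := by
      have : vx oo up X 0 - vx oo up X 1 = -(dx up X 0) := by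
        rw [vx_back X 0, zero_add]
        abel
      rw [this, TIW.hn_neg, hn_dx]
    have k4 := k1 X.length le_rfl
    rw [show X.length + 1 - X.length = 1 by omega] at k4
    have t1 := TIW.hn_tri (vx oo up X 0) (vx oo up X 1) (TIW.en X)
    have t2 := TIW.hn_tri (vx oo up X 1) (vx oo up X (X.length + 1)) (TIW.en X)
    rw [h0]
    linarith
  · have k4 := k1 (X.length + 1 - i) (by omega)
    rw [show X.length + 1 - (X.length + 1 - i) = i by omega] at k4
    have t2 := TIW.hn_tri (vx oo up X i) (vx oo up X (X.length + 1)) (TIW.en X)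
    linarith

variable {T1 T2 w : ℕ} {M M' X Y : List Bool}

/-- with an end in the ball there are letters at both ends -/
theorem pos (h : Nr2 T1 T2 w M M') (he : TIW.hn (TIW.en M) ≤ 2 ^ w) : 1 ≤ T1 ∧ 1 ≤ T2 := by
  have htt := h.tt
  constructor
  · by_contra hc
    have h1 := h.far 0 (by omega) (by omega)
    have h2 : TIW.hn (vx oo up M 0) = 0 := by
      show TIW.hn oo = 0
      decide
    rw [h2] at h1
    have : (0 : ℤ) < 2 ^ w := by positivity
    omega
  · by_contra hc
    have h1 := h.far M.length (by omega) (by omega)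
    exact absurd he (not_le.2 h1)

/-! ### 3. self-avoidance -/

/-- **self-avoidance is local** -/
theorem sa_of {D : ℕ} (h : Nr2 T1 T2 w M M') (hX : In D (rev X)) (hY : In D Y)
    (hD : TIW.hn (TIW.en M) + 3 * D + 4 ≤ 2 ^ w) (hW : X ++ (M ++ Y) ∈ SA) : X ++ (M' ++ Y) ∈ SA := by
  have hl := h.len
  have htt := h.tt
  refine ⟨fun _ _ _ => Set.mem_univ _, ?_⟩
  -- the vertices
  have vX : ∀ N : List Bool, ∀ i, i ≤ X.length → vx oo up (X ++ (N ++ Y)) i = vx oo up X i := fun N i hi =>
    vx_append (by omega)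
  have vM : ∀ N : List Bool, ∀ i, i ≤ N.length → vx oo up (X ++ (N ++ Y)) (X.length + i) =
      TIW.en X + mulE (TIW.rt X) (vx oo up N i) := by
    intro N i hi
    rw [TIW.vx_app, vx_append (by omega)]
  have vY : ∀ N : List Bool, ∀ i, vx oo up (X ++ (N ++ Y)) (X.length + (N.length + i)) =
      TIW.en X + mulE (TIW.rt X) (TIW.en N + mulE (TIW.rt N) (vx oo up Y i)) := by
    intro N i
    rw [TIW.vx_app, TIW.vx_app]
  have hrt := h.ends
  have hnn := TIW.hn_nonneg (TIW.en M)
  -- agreement
  have agr : ∀ i, i ≤ X.length + (M.length + Y.length) → (i ≤ X.length + T1 ∨ X.length + M.length ≤ i + T2) →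
      vx oo up (X ++ (M ++ Y)) i = vx oo up (X ++ (M' ++ Y)) i := by
    intro i hi hi2
    rcases le_or_gt i X.length with h1 | h1
    · rw [vX M i h1, vX M' i h1]
    · rcases le_or_gt i (X.length + M.length) with h2 | h2
      · obtain ⟨t, rfl⟩ : ∃ t, i = X.length + t := ⟨i - X.length, by omega⟩
        rw [vM M t (by omega), vM M' t (by omega)]
        rcases hi2 with h3 | h3
        · rw [h.vl (by omega)]
        · rw [h.vr (by omega)]
      · obtain ⟨t, rfl⟩ : ∃ t, i = X.length + (M.length + t) := ⟨i - X.length - M.length, by omega⟩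
        rw [vY M t]
        rw [hl, vY M' t, h.en, hrt]
  -- the middle of M' is far from the start
  have far : ∀ t, T1 ≤ t → t + T2 ≤ M.length →
      2 ^ w < TIW.hn (vx oo up (X ++ (M' ++ Y)) (X.length + t) - TIW.en X) := by
    intro t h1 h2
    rw [vM M' t (by omega), add_sub_cancel_left, TIW.hn_mulE (TIW.nrm_rt X)]
    exact h.far' t h1 (by omega)
  -- X and Y are near
  have near : ∀ i, i ≤ X.length + (M.length + Y.length) → (i < X.length ∨ X.length + M.length < i) →
      TIW.hn (vx oo up (X ++ (M' ++ Y)) i - TIW.en X) ≤ 2 ^ w := by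
    intro i hi hi2
    rcases hi2 with h1 | h1
    · rw [vX M' i h1.le]
      have := hn_X hX h1.le
      linarith
    · obtain ⟨t, rfl⟩ : ∃ t, i = X.length + (M.length + t) := ⟨i - X.length - M.length, by omega⟩
      rw [hl, vY M' t, add_sub_cancel_left, TIW.hn_mulE (TIW.nrm_rt X)]
      have h3 := TIW.hn_add (TIW.en M') (mulE (TIW.rt M') (vx oo up Y t))
      rw [TIW.hn_mulE (TIW.nrm_rt M'), ← h.en] at h3
      have := hn_In hY (i := t) (by omega)
      rw [← h.en]
      linarith
  intro i k hik hk heq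
  rw [List.length_append, List.length_append, ← hl] at hk
  by_cases hi : X.length + T1 < i ∧ i + T2 < X.length + M.length
  · by_cases hk2 : X.length + M.length < k
    · have h1 := near k hk (Or.inr hk2)
      rw [← heq] at h1
      have h2 := far (i - X.length) (by omega) (by omega)
      rw [show X.length + (i - X.length) = i by omega] at h2
      omega
    · obtain ⟨s, rfl⟩ : ∃ s, i = X.length + s := ⟨i - X.length, by omega⟩
      obtain ⟨t, rfl⟩ : ∃ t, k = X.length + t := ⟨k - X.length, by omega⟩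
      rw [vM M' s (by omega), vM M' t (by omega)] at heq
      have h1 := mulE_inj (TIW.nrm_rt X) (add_left_cancel heq)
      exact h.sa'.inj s t (by omega) (by omega) h1
  · by_cases hk2 : X.length + T1 < k ∧ k + T2 < X.length + M.length
    · by_cases hi2 : i < X.length
      · have h1 := near i (by omega) (Or.inl hi2)
        rw [heq] at h1
        have h2 := far (k - X.length) (by omega) (by omega)
        rw [show X.length + (k - X.length) = k by omega] at h2
        omega
      · obtain ⟨s, rfl⟩ : ∃ s, i = X.length + s := ⟨i - X.length, by omega⟩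
        obtain ⟨t, rfl⟩ : ∃ t, k = X.length + t := ⟨k - X.length, by omega⟩
        rw [vM M' s (by omega), vM M' t (by omega)] at heq
        have h1 := mulE_inj (TIW.nrm_rt X) (add_left_cancel heq)
        exact h.sa'.inj s t (by omega) (by omega) h1
    · rw [← agr i (by omega) (by omega), ← agr k (by omega) (by omega)] at heq
      exact hW.inj i k hik (by rw [List.length_append, List.length_append]; omega) heq

/-! ### 4. free half balls -/

/-- words with the same tip; the other vertices are the same or outside of the ball -/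
theorem freeT_of {r : ℕ} {L L' : List Bool} (hl : L.length = L'.length) (he : tipv L = tipv L') (hd : tipd L = tipd L')
    (h : ∀ i, i ≤ L.length → vx oo up L i = vx oo up L' i ∨ 3 * (r : ℤ) < TIW.hn (vx oo up L' i - tipv L'))
    (hF : FreeT r L) : FreeT r L' := by
  intro i hi h1 h2
  rcases h i (by omega) with h3 | h3
  · rw [← h3, ← he, ← hd] at h1
    rw [← h3, ← he] at h2
    exact hF i (by omega) h1 h2
  · exact absurd (hn_bl h2) (not_le.2 h3)

/-- the half ball in front of the end of `M` -/
theorem fr1_loc {r : ℕ} (h : Nr2 T1 T2 w M M') (hr : TIW.hn (TIW.en M) + 3 * r ≤ 2 ^ w)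
    (hF : FreeT r (X ++ M)) : FreeT r (X ++ M') := by
  have hl := h.len
  have htt := h.tt
  have e1 : ∀ N : List Bool, tipv (X ++ N) = TIW.en X + mulE (TIW.rt X) (TIW.en N) := by
    intro N
    unfold tipv
    rw [List.length_append, TIW.vx_app]
    rfl
  have e2 : ∀ N : List Bool, tipd (X ++ N) = mulE (TIW.rt X) (TIW.de N) := by
    intro N
    unfold tipd
    rw [List.length_append, TIW.dx_app]
    rfl
  refine freeT_of (by rw [List.length_append, List.length_append, hl]) (by rw [e1, e1, h.en]) (by rw [e2, e2, h.de]) ?_ hF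
  intro i hi
  rw [List.length_append] at hi
  rcases le_or_gt i X.length with h1 | h1
  · left
    rw [vx_append (by omega), vx_append (by omega)]
  · obtain ⟨t, rfl⟩ : ∃ t, i = X.length + t := ⟨i - X.length, by omega⟩
    rcases le_or_gt t T1 with ht | ht
    · left
      rw [TIW.vx_app, TIW.vx_app, h.vl (by omega)]
    · rcases le_or_gt M.length (t + T2) with ht' | ht'
      · left
        rw [TIW.vx_app, TIW.vx_app, h.vr ht']
      · right
        rw [e1, TIW.vx_app, add_sub_add_left_eq_sub, ← mulE_sub, TIW.hn_mulE (TIW.nrm_rt X)]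
        have h2 := h.far' t ht.le (by omega)
        have h3 := TIW.hn_add (vx oo up M' t - TIW.en M') (TIW.en M')
        rw [sub_add_cancel, ← h.en] at h3
        rw [← h.en]
        omega

/-- the half ball behind the start of `M` -/
theorem fr2_loc {r : ℕ} (h : Nr2 T1 T2 w M M') (he : TIW.hn (TIW.en M) ≤ 2 ^ w) (hr : 3 * (r : ℤ) + 2 ≤ 2 ^ w)
    (hF : FreeT r (rv (M ++ Y))) : FreeT r (rv (M' ++ Y)) := by
  have hl := h.len
  have htt := h.tt
  obtain ⟨p1, p2⟩ := pos h he
  have hlen : ∀ N : List Bool, (N ++ Y).length = N.length + Y.length := fun N => List.length_append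
  have hrt := h.ends
  -- the vertices of M ++ Y and M' ++ Y
  have agr : ∀ i, i ≤ M.length + Y.length → (i ≤ T1 ∨ M.length ≤ i + T2) →
      vx oo up (M ++ Y) i = vx oo up (M' ++ Y) i := by
    intro i hi hi2
    rcases le_or_gt i M.length with h1 | h1
    · rw [vx_append (by omega), vx_append (by omega)]
      rcases hi2 with h2 | h2
      · exact h.vl (by omega)
      · exact h.vr h2
    · obtain ⟨t, rfl⟩ : ∃ t, i = M.length + t := ⟨i - M.length, by omega⟩
      rw [TIW.vx_app]
      rw [hl, TIW.vx_app, h.en, hrt]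
  have een : TIW.en (M ++ Y) = TIW.en (M' ++ Y) := by
    unfold TIW.en
    rw [hlen, hlen, ← hl]
    exact agr _ le_rfl (Or.inr (by omega))
  have edx : dx up (M ++ Y) ((M ++ Y).length - 1) = dx up (M' ++ Y) ((M' ++ Y).length - 1) := by
    rw [hlen, hlen, ← hl, dx_eq _ (by omega), dx_eq _ (by omega), agr _ le_rfl (Or.inr (by omega)),
      agr _ (by omega) (Or.inr (by omega))]
  -- the reversed walks
  obtain ⟨c, hc⟩ : ∃ c, c = rotTo up (-(dx up (M ++ Y) ((M ++ Y).length - 1))) := ⟨_, rfl⟩
  have hc1 : nrm c = 1 := by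
    rw [hc]
    exact nrm_rotTo up0 (neg_mem_dirs (dx_mem up0 _ _))
  have f1 : ∀ i, i ≤ M.length + Y.length → vx oo up (M ++ Y) (M.length + Y.length - i) =
      TIW.en (M ++ Y) + mulE c (vx oo up (rv (M ++ Y)) i) := by
    intro i hi
    have h1 := rv_fr' (L := M ++ Y) (by rw [hlen]; omega) (i := i) (by rw [hlen]; exact hi)
    rw [← hc] at h1
    rwa [hlen] at h1
  have f2 : ∀ i, i ≤ M.length + Y.length → vx oo up (M' ++ Y) (M.length + Y.length - i) =
      TIW.en (M ++ Y) + mulE c (vx oo up (rv (M' ++ Y)) i) := by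
    intro i hi
    have h1 := rv_fr' (L := M' ++ Y) (by rw [hlen]; omega) (i := i) (by rw [hlen]; omega)
    rw [← edx, ← hc, ← een] at h1
    rwa [hlen, ← hl] at h1
  have g : ∀ i, i ≤ M.length + Y.length → (M.length + Y.length - i ≤ T1 ∨ M.length ≤ M.length + Y.length - i + T2) →
      vx oo up (rv (M ++ Y)) i = vx oo up (rv (M' ++ Y)) i := by
    intro i hi hi2
    have h1 := f1 i hi
    have h2 := f2 i hi
    rw [agr _ (by omega) hi2, h2] at h1
    exact (mulE_inj hc1 (add_left_cancel h1)).symm
  have hlr : (rv (M ++ Y)).length = M.length + Y.length - 1 := by rw [rv_len, hlen]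
  have hlr' : (rv (M' ++ Y)).length = M.length + Y.length - 1 := by rw [rv_len, hlen, ← hl]
  have t1 : tipv (rv (M ++ Y)) = tipv (rv (M' ++ Y)) := by
    unfold tipv
    rw [hlr, hlr']
    exact g _ (by omega) (Or.inl (by omega))
  have t2 : tipd (rv (M ++ Y)) = tipd (rv (M' ++ Y)) := by
    unfold tipd
    rw [hlr, hlr', dx_eq _ (by omega), dx_eq _ (by omega), g _ le_rfl (Or.inl (by omega)),
      g _ (by omega) (Or.inl (by omega))]
  refine freeT_of (by rw [hlr, hlr']) t1 t2 ?_ hF
  intro i hi
  rw [hlr] at hi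
  by_cases hi2 : M.length + Y.length - i ≤ T1 ∨ M.length ≤ M.length + Y.length - i + T2
  · exact Or.inl (g i (by omega) hi2)
  · right
    have h1 := f2 i (by omega)
    have h2 := f2 (M.length + Y.length - 1) (by omega)
    have h3 : TIW.hn (vx oo up (rv (M' ++ Y)) i - tipv (rv (M' ++ Y))) =
        TIW.hn (vx oo up (M' ++ Y) (M.length + Y.length - i) - vx oo up (M' ++ Y) 1) := by
      rw [← TIW.hn_mulE hc1, mulE_sub]
      congr 1
      unfold tipv
      rw [hlr', h1, show (1 : ℕ) = M.length + Y.length - (M.length + Y.length - 1) by omega, h2]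
      rw [add_sub_add_left_eq_sub]
      congr 3
      omega
    rw [h3]
    have h4 := h.far' (M.length + Y.length - i) (by omega) (by omega)
    have h5 : vx oo up (M' ++ Y) (M.length + Y.length - i) = vx oo up M' (M.length + Y.length - i) := vx_append (by omega)
    have h6 : TIW.hn (vx oo up (M' ++ Y) 1) = 2 := by
      have : vx oo up (M' ++ Y) 1 = dx up (M' ++ Y) 0 := by
        show oo + up = up
        exact zero_add _
      rw [this, hn_dx]
    have h7 := TIW.hn_add (vx oo up (M' ++ Y) (M.length + Y.length - i) - vx oo up (M' ++ Y) 1) (vx oo up (M' ++ Y) 1)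
    rw [sub_add_cancel, h5] at h7
    rw [h5]
    omega

/-- the pairs of good cuts, general constants -/
theorem cutP_of {j a m : ℕ} {η : ℝ} (h : Nr2 T1 T2 w M M') (hr : TIW.hn (TIW.en M) + 3 * 2 ^ (j - a) + 2 ≤ 2 ^ w)
    (hC : CutP j a m η X M Y) : CutP j a m η X M' Y := by
  have h0 := TIW.hn_nonneg (TIW.en M)
  have hp : (0 : ℤ) ≤ 2 ^ (j - a) := by positivity
  exact ⟨⟨hC.1.1, hC.1.2.1, fr1_loc h (by push_cast; linarith) hC.1.2.2⟩, hC.2.1, hC.2.2.1,
    fr2_loc h (by linarith) (by push_cast; linarith) hC.2.2.2⟩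

end LocC

/-- **self-avoidance is local** (literal of helper84) -/
theorem sa_loc {B T1 T2 w : ℕ} {X M M' Y : List Bool} (h : Nr2 T1 T2 w M M') (hX : In (2 ^ B) (rev X)) (hY : In (2 ^ B) Y)
    (hM : TIW.hn (TIW.en M) ≤ 2 ^ (B + 5)) (hw : B + 7 ≤ w) (hs : X ++ (M ++ Y) ∈ SA) : X ++ (M' ++ Y) ∈ SA := by
  refine LocC.sa_of h hX hY ?_ hs
  have h1 : (2 : ℤ) ^ (B + 7) ≤ 2 ^ w := pow_le_pow_right₀ (by norm_num) hw
  have h2 : (1 : ℤ) ≤ 2 ^ B := one_le_pow₀ (by norm_num)
  have h3 : (2 : ℤ) ^ (B + 7) = 2 ^ B * 128 := by rw [pow_add]; norm_num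
  have h4 : (2 : ℤ) ^ (B + 5) = 2 ^ B * 32 := by rw [pow_add]; norm_num
  push_cast
  linarith

/-- **the pairs of good cuts are local** (literal of helper84) -/
theorem cutP_loc {j a m T1 T2 w : ℕ} {η : ℝ} {X M M' Y : List Bool} (h : Nr2 T1 T2 w M M')
    (hM : TIW.hn (TIW.en M) ≤ 2 ^ (j + m + 5)) (hw : j + m + 8 ≤ w) (_hL : X ++ (M ++ Y) ∈ SA)
    (hC : CutP j a m η X M Y) : CutP j a m η X M' Y := by
  refine LocC.cutP_of h ?_ hC
  have h1 : (2 : ℤ) ^ (j + m + 8) ≤ 2 ^ w := pow_le_pow_right₀ (by norm_num) hw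
  have h2 : (1 : ℤ) ≤ 2 ^ (j + m) := one_le_pow₀ (by norm_num)
  have h3 : (2 : ℤ) ^ (j + m + 8) = 2 ^ (j + m) * 256 := by rw [pow_add]; norm_num
  have h4 : (2 : ℤ) ^ (j + m + 5) = 2 ^ (j + m) * 32 := by rw [pow_add]; norm_num
  have h5 : (2 : ℤ) ^ (j - a) ≤ 2 ^ (j + m) := pow_le_pow_right₀ (by norm_num) (by omega)
  linarith

end PMA

end HexObs
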