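import Pool.Agent.PMA.LocW

/-!
# PM, row K7a (helper76): joinability is local

`Jn E r D k M` only sees the vertices of `M` in a ball of radius `(72 (Mx + 1) H + 2 ^ 11) 2 ^ k` around the origin. So near words
have the same paths (`pj_iff`, `pj_loc`), hence the same canonical path (`pth_loc`).
-/

set_option autoImplicit false

namespace HexObs

namespace PMA

open Finset TS SDN SIM NTA TIP ARM ARM.G3

/-- the size of the neighbourhood of the segment number `j` of the path that ends at the origin -/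
lemma ns_qv_hn {E : ℕ → Pt} {r : ℕ} {D w : ℤ} (hE : ∀ i, i < r → E i ∈ dirs) (hD : 0 ≤ D) {j : ℕ} (hj : j < r) {y : Pt}
    (h : AR.NS (qv E D r j) (E j) D w y) : TIW.hn y ≤ 2 * (r + 1) * D + w := by
  obtain ⟨t, h1, h2, h3⟩ := h
  have hd2 : ∀ d ∈ dirs, TIW.hn d ≤ 2 := by decide
  have hps : ∀ a b : ℕ, a ≤ b → b ≤ r → TIW.hn (AR.ps E b - AR.ps E a) ≤ 2 * (b - a : ℕ) := by
    intro a b hab
    induction b, hab using Nat.le_induction with
    | base =>
      intro _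
      rw [sub_self, Nat.sub_self]
      decide
    | succ b hb ih =>
      intro hbr
      have e1 : AR.ps E (b + 1) - AR.ps E a = (AR.ps E b - AR.ps E a) + E b := by
        rw [AR.ps_succ]
        abel
      rw [e1, Nat.succ_sub hb]
      push_cast
      have h4 := ih (by omega)
      have h5 := hd2 _ (hE b (by omega))
      linarith [TIW.hn_add (AR.ps E b - AR.ps E a) (E b)]
  have hsm : ∀ (t : ℤ) (v : Pt), 0 ≤ t → TIW.hn (t • v) ≤ t * TIW.hn v := by
    intro t v ht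
    refine TIW.hn_le fun d hd => ?_
    rw [AR.ip_smul]
    exact mul_le_mul_of_nonneg_left (TIW.ip_le_hn v hd) ht
  have e1 : y = (y - (qv E D r j + t • E j)) + (qv E D r j + t • E j) := by abel
  rw [e1]
  have h6 : TIW.hn (qv E D r j) ≤ D * (2 * (r - j : ℕ)) := by
    unfold qv
    have e2 : D • (AR.ps E j - AR.ps E r) = -(D • (AR.ps E r - AR.ps E j)) := by
      rw [← smul_neg]
      congr 1
      abel
    rw [e2, TIW.hn_neg]
    exact (hsm D _ hD).trans (mul_le_mul_of_nonneg_left (hps j r hj.le le_rfl) hD)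
  have h7 : TIW.hn (t • E j) ≤ D * 2 := by
    refine (hsm t _ h1).trans ?_
    have h8 := hd2 _ (hE j hj)
    have h9 := TIW.hn_nonneg (E j)
    nlinarith
  have h10 : D * (2 * ((r - j : ℕ) : ℤ)) ≤ D * (2 * r) := by
    refine mul_le_mul_of_nonneg_left ?_ hD
    have : ((r - j : ℕ) : ℤ) ≤ r := by exact_mod_cast Nat.sub_le r j
    linarith
  have h11 := TIW.hn_add (y - (qv E D r j + t • E j)) (qv E D r j + t • E j)
  have h12 := TIW.hn_add (qv E D r j) (t • E j)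
  linarith

/-- one half of `jn_loc` -/
lemma jn_of_near {E : ℕ → Pt} {r k : ℕ} {D : ℤ} {T1 T2 w : ℕ} {M M' : List Bool} (hE : ∀ i, i < r → E i ∈ dirs) (hr : 1 ≤ r)
    (hD : 0 ≤ D) (hw : 2 * (r + 1) * D + 2 ^ (k + 11) ≤ 2 ^ w) (h : Nr2 T1 T2 w M M') (hJ : Jn E r D k M) :
    Jn E r D k M' := by
  have key : ∀ {j i : ℕ}, j < r → AR.NS (qv E D r j) (E j) D (2 ^ (k + 11)) (vx oo up M' i) →
      vx oo up M i = vx oo up M' i :=
    fun {j i} hj hn => h.near (Or.inr ((ns_qv_hn hE hD hj hn).trans hw))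
  have hl := h.len
  refine ⟨h.sa', h.de ▸ hJ.de, h.en ▸ hJ.pos, fun i hi j h1 h2 hn => ?_, fun i hi hn => ?_, fun i h1 hi hn => ?_⟩
  · have e := key (by omega) hn
    rw [← e] at hn
    exact hJ.mid i (by omega) j h1 h2 hn
  · have e := key (by omega) hn
    rw [← e] at hn ⊢
    rw [← h.en]
    exact hJ.fst i (by omega) hn
  · have e := key (by omega) hn
    rw [← e] at hn ⊢
    exact hJ.lst i h1 (by omega) hn

/-- **joinability along a path is local** -/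
theorem jn_loc {E : ℕ → Pt} {r k : ℕ} {D : ℤ} {T1 T2 w : ℕ} {M M' : List Bool} (hE : ∀ i, i < r → E i ∈ dirs) (hr : 1 ≤ r)
    (hD : 0 ≤ D) (hw : 2 * (r + 1) * D + 2 ^ (k + 11) ≤ 2 ^ w) (h : Nr2 T1 T2 w M M') : Jn E r D k M ↔ Jn E r D k M' :=
  ⟨jn_of_near hE hr hD hw h, jn_of_near hE hr hD hw h.symm⟩

/-- the number of the scales -/
def w0J (H Mx : ℕ) : ℕ := 72 * (Mx + 1) * H + 2 ^ 11

lemma w0J_le {P : Par} {τ : Pth} (hk : okT P τ) {w : ℕ} (hw : P.j + w0J P.H P.Mx ≤ w) :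
    2 * (τ.r + 1) * τ.D + 2 ^ (τ.k + 11) ≤ (2 : ℤ) ^ w := by
  have h2 : (2 : ℤ) ^ τ.k ≤ 2 ^ P.j := pow_le_pow_right₀ (by norm_num) hk.kj
  have hD := hk.D2
  have hr : (τ.r : ℤ) ≤ P.Mx := by exact_mod_cast hk.rM
  have hH : (0 : ℤ) ≤ P.H := by positivity
  have hp : (0 : ℤ) < 2 ^ τ.k := by positivity
  have h3 : (2 : ℤ) * (τ.r + 1) * τ.D ≤ 2 * (P.Mx + 1) * (36 * (P.H * 2 ^ τ.k)) := by
    calc (2 : ℤ) * (τ.r + 1) * τ.D ≤ 2 * (τ.r + 1) * (36 * (P.H * 2 ^ τ.k)) :=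
          mul_le_mul_of_nonneg_left hD (by positivity)
      _ ≤ 2 * (P.Mx + 1) * (36 * (P.H * 2 ^ τ.k)) := mul_le_mul_of_nonneg_right (by linarith) (by positivity)
  have h4 : (2 : ℤ) * (P.Mx + 1) * (36 * (P.H * 2 ^ τ.k)) + 2 ^ (τ.k + 11) = (w0J P.H P.Mx : ℕ) * 2 ^ τ.k := by
    unfold w0J
    push_cast
    ring
  have h5 : ((w0J P.H P.Mx : ℕ) : ℤ) ≤ 2 ^ (w0J P.H P.Mx) := by
    exact_mod_cast (Nat.lt_two_pow_self (n := w0J P.H P.Mx)).le
  calc 2 * (τ.r + 1) * τ.D + 2 ^ (τ.k + 11) ≤ (w0J P.H P.Mx : ℕ) * 2 ^ τ.k := by linarith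
    _ ≤ 2 ^ (w0J P.H P.Mx) * 2 ^ P.j := mul_le_mul h5 h2 hp.le (by positivity)
    _ = 2 ^ (P.j + w0J P.H P.Mx) := by rw [← pow_add, add_comm]
    _ ≤ 2 ^ w := pow_le_pow_right₀ (by norm_num) hw

lemma okT.Dnn {P : Par} {τ : Pth} (hk : okT P τ) : 0 ≤ τ.D := le_trans (by positivity) hk.D1

/-- **the paths of a word are local** -/
theorem pj_iff {P : Par} {T1 T2 w : ℕ} {M M' : List Bool} (hw : P.j + w0J P.H P.Mx ≤ w) (h : Nr2 T1 T2 w M M') (τ : Pth) :
    PJ P M τ ↔ PJ P M' τ := by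
  unfold PJ
  refine and_congr_right fun hk => ?_
  exact jn_loc hk.ip.dir (le_trans (by norm_num) hk.r4) hk.Dnn (w0J_le hk hw) h

/-- the same, with the literal of the row -/
theorem pj_loc (H Mx : ℕ) : ∃ w0 : ℕ, ∀ P : Par, P.H = H → P.Mx = Mx → ∀ (T1 T2 w : ℕ) (M M' : List Bool), P.j + w0 ≤ w →
    Nr2 T1 T2 w M M' → ∀ τ, PJ P M τ → PJ P M' τ := by
  refine ⟨w0J H Mx, fun P hH hM T1 T2 w M M' hw h τ => ?_⟩
  subst hH hM
  exact (pj_iff hw h τ).1

/-- **the canonical path is local** -/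
theorem pth_loc {P : Par} {T1 T2 w : ℕ} {M M' : List Bool} (hw : P.j + w0J P.H P.Mx ≤ w) (h : Nr2 T1 T2 w M M') :
    pth P M = pth P M' := pth_congr (pj_iff hw h)

/-- **joinability is local** -/
theorem jbl_loc {P : Par} {T1 T2 w : ℕ} {M M' : List Bool} (hw : P.j + w0J P.H P.Mx ≤ w) (h : Nr2 T1 T2 w M M') :
    Jbl P M ↔ Jbl P M' := exists_congr (pj_iff hw h)

/-- **the set of the tubes along the canonical path is local** (the tube only sees the end of the word) -/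
theorem tp_loc {P : Par} {T1 T2 w : ℕ} {M M' : List Bool} (hw : P.j + w0J P.H P.Mx ≤ w) (h : Nr2 T1 T2 w M M')
    (Q : List Bool) : TP (pth P M).E (pth P M).r (pth P M).D (pth P M).k M Q ↔
      TP (pth P M').E (pth P M').r (pth P M').D (pth P M').k M' Q := by
  rw [pth_loc hw h]
  unfold TP rc
  rw [h.ends, h.en]

/-- **the fillings are local** -/
theorem fil_loc {P : Par} {T1 T2 w : ℕ} {M M' : List Bool} (hw : P.j + w0J P.H P.Mx ≤ w) (h : Nr2 T1 T2 w M M') :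
    Fil P M = Fil P M' := by
  ext Q
  show TP (pth P M).E (pth P M).r (pth P M).D (pth P M).k M Q ∧ M.length + Q.length = P.N ∧ P.R Q ↔
    TP (pth P M').E (pth P M').r (pth P M').D (pth P M').k M' Q ∧ M'.length + Q.length = P.N ∧ P.R Q
  rw [tp_loc hw h Q, h.len]

/-- **the outer parts are local** -/
theorem out_loc {P : Par} {T1 T2 w : ℕ} {M M' : List Bool} (hw : P.j + w0J P.H P.Mx ≤ w) (h : Nr2 T1 T2 w M M') :
    Out P M ↔ Out P M' := by
  unfold Out
  rw [jbl_loc hw h, h.len]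

end PMA

end HexObs
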