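import Pool.Agent.PMA.LocD
import Pool.Agent.PMA.LocJ
import Pool.Agent.PMA.LocC
import Pool.Agent.PMA.Dl
import Pool.Agent.PMA.FarP

/-!
# PM, row K7 (helper84; LocJ helper76, LocC helper6, ConfP and FarP helper58): **`locD : LocD`**, **`phi_loc`**, `farP : FarP`
-/

set_option autoImplicit false

namespace HexObs

namespace PMA

open Finset TS SDN SIM NTA TIP ARM ARM.G3

open scoped ENNReal

theorem locIn : LocIn := by
  intro H Mx m
  obtain ⟨w0, h⟩ := pj_loc H Mx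
  refine ⟨w0 + m + 8, fun P hH hM hm hG => ⟨fun T1 T2 w M M' hw hn τ => h P hH hM T1 T2 w M M' (by omega) hn τ,
    fun T1 T2 w X M M' Y hw hn hX hY hem hs => sa_loc hn hX hY hem (by omega) hs,
    fun T1 T2 w X M M' Y hw hn hem hs hC => cutP_loc hn hem (by omega) hs hC, hG, by omega⟩⟩

/-- **row K7a**: on `Far` the density only depends on the window -/
theorem locD : LocD := locD_of locIn

/-- **the local density** -/
theorem phi_loc (H Mx m w1 : ℕ) : ∃ w0 : ℕ, ∀ P : Par, P.H = H → P.Mx = Mx → P.m = m → LocS P w1 →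
    (∀ l z, P.G l z → TIW.hn z ≤ 2 ^ P.j) → 0 ≤ P.A → 0 ≤ P.A1 → ∀ T w : ℕ, P.j + w0 ≤ w → 4 * (P.A + P.A1) * ml P.j ≤ T →
    4 * T ≤ P.N → ∃ φ : List Bool × List Bool → ℝ≥0∞, ∀ K : List Bool, K ∈ POL.Cy P.N → Far T w K →
      DD P K = φ (win T K) := phi_of locD H Mx m w1

end PMA

end HexObs
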