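import Pool.Agent.ARM.LawF
import Pool.Agent.ARM.Num

/-!
# (PM), row K4 (helper10): the mass of the words with both ends close, from below

* `k4len` : exact length, end in the ball of radius `2 ^ j`; `k4F` : the class `F n j`; `k4win` : all lengths in
  `[n, (1 + d) n]`.
-/

set_option autoImplicit false

namespace HexObs

namespace PMA

open Finset TS SDN HexObs.SIM NTA TIP ARM

open scoped ENNReal

/-- the points of a box in the annulus -/
def pk4 (m t : ℕ) (p : ℕ × ℕ) : Pt := (((m + 3 * p.1 + t : ℕ) : ℤ), ((m + 3 * p.2 : ℕ) : ℤ))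

lemma hn_pk4 (m t : ℕ) (p : ℕ × ℕ) : TIW.hn (pk4 m t p) =
    max (2 * ((m + 3 * p.1 + t : ℕ) : ℤ) + ((m + 3 * p.2 : ℕ) : ℤ)) (((m + 3 * p.1 + t : ℕ) : ℤ) + 2 * ((m + 3 * p.2 : ℕ) : ℤ)) := by
  have hx : (0 : ℤ) ≤ ((m + 3 * p.1 + t : ℕ) : ℤ) := Int.natCast_nonneg _
  have hy : (0 : ℤ) ≤ ((m + 3 * p.2 : ℕ) : ℤ) := Int.natCast_nonneg _
  unfold TIW.hn pk4
  simp only [ip, rotL, rotR, up]
  rcases abs_cases (2 * (((m + 3 * p.1 + t : ℕ) : ℤ) * 0 + ((m + 3 * p.2 : ℕ) : ℤ) * 1) + ((m + 3 * p.1 + t : ℕ) : ℤ) * 1 +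
    ((m + 3 * p.2 : ℕ) : ℤ) * 0) with h1 | h1 <;>
  rcases abs_cases (2 * (((m + 3 * p.1 + t : ℕ) : ℤ) * -1 + ((m + 3 * p.2 : ℕ) : ℤ) * (0 + 1)) +
    ((m + 3 * p.1 + t : ℕ) : ℤ) * (0 + 1) + ((m + 3 * p.2 : ℕ) : ℤ) * -1) with h2 | h2 <;>
  rcases abs_cases (2 * (((m + 3 * p.1 + t : ℕ) : ℤ) * (0 + 1) + ((m + 3 * p.2 : ℕ) : ℤ) * -0) +
    ((m + 3 * p.1 + t : ℕ) : ℤ) * -0 + ((m + 3 * p.2 : ℕ) : ℤ) * (0 + 1)) with h3 | h3 <;>
  simp only [max_def] <;> split_ifs <;> omega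

lemma cl_pk4 (m t : ℕ) (p : ℕ × ℕ) : cl (pk4 m t p) = (t : ZMod 3) := by
  unfold cl pk4
  have h : ((m + 3 * p.1 + t : ℕ) : ℤ) - ((m + 3 * p.2 : ℕ) : ℤ) = 3 * ((p.1 : ℤ) - p.2) + t := by
    push_cast
    ring
  simp only [h]
  push_cast
  have h3 : (3 : ZMod 3) = 0 := by decide
  rw [h3]
  ring

lemma pk4_inj {m t : ℕ} {p q : ℕ × ℕ} (h : pk4 m t p = pk4 m t q) : p = q := by
  unfold pk4 at h
  rw [Prod.ext_iff] at h
  simp only at h
  refine Prod.ext ?_ ?_ <;> omega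

lemma mul3_inj {p q : Pt} (h : mulE (-1, 1) p = mulE (-1, 1) q) : p = q := by
  unfold mulE at h
  rw [Prod.ext_iff] at h
  simp only at h
  refine Prod.ext ?_ ?_ <;> omega

/-- a point counts at most three times -/
lemma we_three (n : ℕ) (z : Pt) : gf (WE n z) ≤ gf {L | L ∈ SA ∧ L.length = n ∧ TIW.en L = z} +
    (gf {L | L ∈ SA ∧ L.length = n ∧ TIW.en L = mulE (-1, 1) z} +
      gf {L | L ∈ SA ∧ L.length = n ∧ TIW.en L = mulE (-1, 1) (mulE (-1, 1) z)}) := by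
  refine (gf_mono (Q := {L | L ∈ SA ∧ L.length = n ∧ TIW.en L = z} ∪
    ({L | L ∈ SA ∧ L.length = n ∧ TIW.en L = mulE (-1, 1) z} ∪
      {L | L ∈ SA ∧ L.length = n ∧ TIW.en L = mulE (-1, 1) (mulE (-1, 1) z)})) ?_).trans
    ((gf_union_le _ _).trans (add_le_add le_rfl (gf_union_le _ _)))
  rintro L ⟨h1, h2, h3⟩
  rcases h3 with h3 | h3 | h3
  · exact Or.inl ⟨h1, h2, h3⟩
  · exact Or.inr (Or.inl ⟨h1, h2, h3⟩)
  · exact Or.inr (Or.inr ⟨h1, h2, h3⟩)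

/-- **K4, exact length** -/
theorem k4len : ∃ (c : ℝ) (b0 : ℕ), 0 < c ∧ ∀ n j : ℕ, b0 ≤ j → 2 ^ b0 * ml j ≤ n →
    ENNReal.ofReal (c * (pr n j / ml j)) ≤ gf {L | L ∈ SA ∧ L.length = n ∧ TIW.hn (TIW.en L) ≤ 2 ^ j} := by
  classical
  obtain ⟨c, b0, hc, h⟩ := lowPt
  refine ⟨c / (768 * (2 : ℝ) ^ (91 / 24 : ℝ)), b0 + 5, by positivity, fun n j hj hn => ?_⟩
  obtain ⟨i, rfl⟩ : ∃ i, j = i + 1 := ⟨j - 1, by omega⟩
  have hmi := ml_pos i
  have hmj := ml_pos (i + 1)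
  have hml : ml i ≤ ml (i + 1) := ml_le (Nat.le_succ i)
  have hn' : 2 ^ b0 * ml i ≤ n := by
    refine le_trans ?_ hn
    have h1 : (2 : ℝ) ^ b0 ≤ 2 ^ (b0 + 5) := pow_le_pow_right₀ (by norm_num) (by omega)
    exact mul_le_mul h1 hml hmi.le (by positivity)
  obtain ⟨t, ht⟩ : ∃ t : ℕ, t = (if Even n then 0 else 2) := ⟨_, rfl⟩
  have ht2 : t ≤ 2 := by
    rw [ht]
    split_ifs <;> omega
  have htc : (t : ZMod 3) = (if Even n then 0 else 2) := by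
    rw [ht]
    split_ifs <;> simp
  obtain ⟨m, hm⟩ : ∃ m : ℕ, m = 2 ^ i / 3 + 1 := ⟨_, rfl⟩
  obtain ⟨N, hN⟩ : ∃ N : ℕ, N = 2 ^ (i - 4) := ⟨_, rfl⟩
  have hNi : 16 * N = 2 ^ i := by
    rw [hN, show (16 : ℕ) = 2 ^ 4 by norm_num, ← pow_add]
    congr 1
    omega
  have h16 : 16 ≤ 2 ^ i := by
    calc 16 = 2 ^ 4 := by norm_num
      _ ≤ 2 ^ i := Nat.pow_le_pow_right (by norm_num) (by omega)
  obtain ⟨I, hI⟩ : ∃ I : Finset (ℕ × ℕ), I = range N ×ˢ range N := ⟨_, rfl⟩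
  -- the points are in the annulus
  have hz : ∀ p ∈ I, 2 ^ i ≤ TIW.hn (pk4 m t p) ∧ TIW.hn (pk4 m t p) ≤ 2 ^ (i + 1) := by
    intro p hp
    rw [hI, mem_product, mem_range, mem_range] at hp
    have e1 : (2 : ℤ) ^ i = ((2 ^ i : ℕ) : ℤ) := by push_cast; rfl
    have e2 : (2 : ℤ) ^ (i + 1) = ((2 ^ i : ℕ) : ℤ) * 2 := by push_cast; ring
    rw [hn_pk4, e1, e2]
    constructor
    · refine le_max_of_le_left ?_
      have : 2 ^ i ≤ 3 * m := by omega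
      push_cast
      omega
    · refine max_le ?_ ?_
      · push_cast
        omega
      · push_cast
        omega
  -- the lower bound at every point
  have h1 : ∀ p ∈ I, ENNReal.ofReal (c * (pr n i / (4 ^ i * ml i))) ≤ gf (WE n (pk4 m t p)) := by
    intro p hp
    refine h n i (pk4 m t p) (by omega) hn' (hz p hp).1 (hz p hp).2 ?_
    rw [cl_pk4, htc]
  -- the sum
  obtain ⟨T, hT⟩ : ∃ T : Set (List Bool), T = {L | L ∈ SA ∧ L.length = n ∧ TIW.hn (TIW.en L) ≤ 2 ^ (i + 1)} := ⟨_, rfl⟩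
  have h2 : ∀ f : Pt → Pt, (∀ x y, f x = f y → x = y) → (∀ x, TIW.hn (f x) = TIW.hn x) →
      ∑ p ∈ I, gf {L | L ∈ SA ∧ L.length = n ∧ TIW.en L = f (pk4 m t p)} ≤ gf T := by
    intro f hf hh
    refine (BAR.gf_bi_eq I (fun p => {L | L ∈ SA ∧ L.length = n ∧ TIW.en L = f (pk4 m t p)}) ?_).trans (gf_mono ?_)
    · rintro p q L ⟨-, -, h5⟩ ⟨-, -, h6⟩
      exact pk4_inj (hf _ _ (h5.symm.trans h6))
    · intro L hL
      rw [Set.mem_iUnion₂] at hL
      obtain ⟨p, hp, h5, h6, h7⟩ := hL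
      rw [hT]
      refine ⟨h5, h6, ?_⟩
      rw [h7, hh]
      exact (hz p hp).2
  have r1 : ∀ x : Pt, TIW.hn (mulE (-1, 1) x) = TIW.hn x := fun x => TIW.hn_mulE (by decide) x
  have h3 : ∑ p ∈ I, gf (WE n (pk4 m t p)) ≤ 3 * gf T := by
    calc ∑ p ∈ I, gf (WE n (pk4 m t p)) ≤ ∑ p ∈ I, (gf {L | L ∈ SA ∧ L.length = n ∧ TIW.en L = pk4 m t p} +
        (gf {L | L ∈ SA ∧ L.length = n ∧ TIW.en L = mulE (-1, 1) (pk4 m t p)} +
          gf {L | L ∈ SA ∧ L.length = n ∧ TIW.en L = mulE (-1, 1) (mulE (-1, 1) (pk4 m t p))})) :=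
          sum_le_sum fun p _ => we_three n _
      _ ≤ gf T + (gf T + gf T) := by
          rw [sum_add_distrib, sum_add_distrib]
          refine add_le_add (h2 id (fun x y h => h) fun x => rfl) (add_le_add (h2 (mulE (-1, 1)) (fun x y h => mul3_inj h) r1)
            (h2 (fun x => mulE (-1, 1) (mulE (-1, 1) x)) (fun x y h => mul3_inj (mul3_inj h)) fun x => ?_))
          rw [r1, r1]
      _ = 3 * gf T := by ring
  have h4 : ENNReal.ofReal ((N : ℝ) * N * (c * (pr n i / (4 ^ i * ml i)))) ≤ 3 * gf T := by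
    refine le_trans ?_ ((sum_le_sum h1).trans h3)
    rw [sum_const, nsmul_eq_mul, hI, card_product, card_range, ENNReal.ofReal_mul (by positivity)]
    refine mul_le_mul' ?_ le_rfl
    rw [← Nat.cast_mul, ENNReal.ofReal_natCast]
  have h5 : ENNReal.ofReal (c / 768 * (pr n i / ml i)) ≤ gf T := by
    have e1 : (N : ℝ) * N * (c * (pr n i / (4 ^ i * ml i))) = 3 * (c / 768 * (pr n i / ml i)) := by
      have e2 : (4 : ℝ) ^ i = 256 * ((N : ℝ) * N) := by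
        have e3 : (2 : ℝ) ^ i = 16 * N := by
          have := congrArg (Nat.cast (R := ℝ)) hNi
          push_cast at this
          linarith
        rw [show (4 : ℝ) = 2 ^ 2 by norm_num, ← pow_mul, mul_comm 2 i, pow_mul, e3]
        ring
      have hN0 : (N : ℝ) ≠ 0 := by
        rw [hN]
        positivity
      rw [e2]
      field_simp
      ring
    rw [e1, ENNReal.ofReal_mul (by norm_num)] at h4
    have e3 : ENNReal.ofReal 3 = 3 := by norm_num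
    rw [e3] at h4
    exact (ENNReal.mul_le_mul_iff_right (by norm_num) (by norm_num)).1 h4
  rw [← hT]
  refine le_trans (ENNReal.ofReal_le_ofReal ?_) h5
  have h6 : pr n (i + 1) ≤ (2 : ℝ) ^ (91 / 24 : ℝ) * pr n i := by
    have := pr_up n i 1
    simpa using this
  have h7 : pr n (i + 1) / ml (i + 1) ≤ (2 : ℝ) ^ (91 / 24 : ℝ) * (pr n i / ml i) := by
    rw [← mul_div_assoc]
    exact div_le_div₀ (mul_nonneg (by positivity) (pr_pos n i).le) h6 hmi hml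
  have h8 : (0 : ℝ) < (2 : ℝ) ^ (91 / 24 : ℝ) := by positivity
  calc c / (768 * (2 : ℝ) ^ (91 / 24 : ℝ)) * (pr n (i + 1) / ml (i + 1)) ≤
      c / (768 * (2 : ℝ) ^ (91 / 24 : ℝ)) * ((2 : ℝ) ^ (91 / 24 : ℝ) * (pr n i / ml i)) :=
        mul_le_mul_of_nonneg_left h7 (by positivity)
    _ = c / 768 * (pr n i / ml i) := by
        field_simp

/-- a window of lengths: at least N lengths, all at most n' -/
theorem k4sum {c : ℝ} {n n' j N : ℕ} (hc : 0 ≤ c) (hN : n + N ≤ n' + 1)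
    (h : ∀ l, n ≤ l → l ≤ n' → ENNReal.ofReal (c * (pr l j / ml j)) ≤
      gf {L | L ∈ SA ∧ L.length = l ∧ TIW.hn (TIW.en L) ≤ 2 ^ j}) :
    ENNReal.ofReal (N * (c * (pr n' j / ml j))) ≤ gf {L | L ∈ SA ∧ n ≤ L.length ∧ L.length < n + N ∧ TIW.hn (TIW.en L) ≤ 2 ^ j} := by
  classical
  have h1 : ∑ l ∈ range N, ENNReal.ofReal (c * (pr n' j / ml j)) ≤
      gf {L | L ∈ SA ∧ n ≤ L.length ∧ L.length < n + N ∧ TIW.hn (TIW.en L) ≤ 2 ^ j} := by
    refine (sum_le_sum (g := fun l => gf {L | L ∈ SA ∧ L.length = n + l ∧ TIW.hn (TIW.en L) ≤ 2 ^ j}) ?_).trans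
      (JNT.sum_gf_le (range N) (fun l => {L | L ∈ SA ∧ L.length = n + l ∧ TIW.hn (TIW.en L) ≤ 2 ^ j}) ?_ ?_)
    · intro l hl
      rw [mem_range] at hl
      refine le_trans (ENNReal.ofReal_le_ofReal ?_) (h (n + l) (by omega) (by omega))
      refine mul_le_mul_of_nonneg_left ?_ hc
      exact div_le_div_of_nonneg_right (pr_anti (by omega) j) (ml_pos j).le
    · intro i l hil
      rw [Set.disjoint_left]
      rintro L ⟨-, h5, -⟩ ⟨-, h6, -⟩
      omega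
    · rintro l hl L ⟨h5, h6, h7⟩
      rw [mem_range] at hl
      exact ⟨h5, by omega, by omega, h7⟩
  rw [sum_const, nsmul_eq_mul, card_range] at h1
  rw [ENNReal.ofReal_mul (by positivity), ENNReal.ofReal_natCast]
  exact h1

/-- **K4 for the class `F n j`** -/
theorem k4F : ∃ (c : ℝ) (b0 : ℕ), 0 < c ∧ ∀ n j : ℕ, b0 ≤ j → 2 ^ b0 * ml j ≤ n →
    ENNReal.ofReal (c * pr n j) ≤ gf (F n j) := by
  obtain ⟨c, b0, hc, h⟩ := k4len
  refine ⟨c / 16, b0, by positivity, fun n j hj hn => ?_⟩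
  have hm := ml_pos j
  have hm1 := one_le_ml j
  obtain ⟨N, hN⟩ : ∃ N : ℕ, N = ⌊ml j⌋₊ := ⟨_, rfl⟩
  have hN1 : (N : ℝ) ≤ ml j := by
    rw [hN]
    exact Nat.floor_le hm.le
  have hN2 : ml j < N + 1 := by
    rw [hN]
    exact Nat.lt_floor_add_one _
  have hNp : 1 ≤ N := by
    rw [hN]
    exact Nat.one_le_floor_iff _ |>.2 hm1
  have hNr : (1 : ℝ) ≤ N := by exact_mod_cast hNp
  have hNn : (N : ℝ) ≤ n := by
    refine hN1.trans (le_trans ?_ hn)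
    have : (1 : ℝ) ≤ 2 ^ b0 := one_le_pow₀ (by norm_num)
    nlinarith
  have hNn' : N ≤ n := by exact_mod_cast hNn
  have h1 := k4sum (n := n) (n' := 2 * n) (N := N) (j := j) hc.le (by omega) fun l hl _ =>
    h l j hj (hn.trans (by exact_mod_cast hl))
  refine le_trans (ENNReal.ofReal_le_ofReal ?_) (h1.trans (gf_mono ?_))
  · have h2 : pr n j ≤ 4 * pr (2 * n) j := by
      have hmn : ml j ≤ n := by
        refine le_trans ?_ hn
        have : (1 : ℝ) ≤ 2 ^ b0 := one_le_pow₀ (by norm_num)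
        nlinarith
      have hnp : (0 : ℝ) < n := lt_of_lt_of_le hm hmn
      rw [pr_eq, pr_eq, max_eq_left hmn, max_eq_left (by push_cast; linarith : ml j ≤ ((2 * n : ℕ) : ℝ))]
      have e1 : ml j / ((2 * n : ℕ) : ℝ) = (1 / 2) * (ml j / n) := by
        push_cast
        field_simp
      rw [e1, Real.mul_rpow (by norm_num) (by positivity)]
      have e2 : (1 / 4 : ℝ) ≤ (1 / 2 : ℝ) ^ (3 / 2 : ℝ) := by
        rw [show (1 / 4 : ℝ) = (1 / 2 : ℝ) ^ (2 : ℝ) by norm_num]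
        exact Real.rpow_le_rpow_of_exponent_ge (by norm_num) (by norm_num) (by norm_num)
      have e3 : (0 : ℝ) ≤ (ml j / n) ^ (3 / 2 : ℝ) := by positivity
      have hp := pw_pos j
      nlinarith [mul_nonneg hp.le e3, mul_le_mul_of_nonneg_right e2 (mul_nonneg hp.le e3)]
    have h3 : ml j ≤ 2 * N := by linarith
    have hp := pr_pos (2 * n) j
    have h4 : (N : ℝ) * (c * (pr (2 * n) j / ml j)) = N / ml j * (c * pr (2 * n) j) := by
      field_simp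
    rw [h4]
    have h5 : (1 / 2 : ℝ) ≤ N / ml j := by
      rw [le_div_iff₀ hm]
      linarith
    have h6 : c / 16 * pr n j ≤ 1 / 2 * (c * pr (2 * n) j) := by nlinarith
    refine h6.trans (mul_le_mul_of_nonneg_right h5 (by positivity))
  · rintro L ⟨h5, h6, h7, h8⟩
    refine ⟨h5, h6, ?_, by rw [sub_zero]; exact h8⟩
    have : (L.length : ℝ) < n + N := by exact_mod_cast h7
    linarith

/-- **K4 for the lengths in `[n, (1 + d) n]`** -/
theorem k4win (d : ℝ) (hd : 0 < d) : ∃ (c : ℝ) (b0 : ℕ), 0 < c ∧ ∀ n j : ℕ, b0 ≤ j → 2 ^ b0 * ml j ≤ n →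
    ENNReal.ofReal (c * pr n j * (n / ml j)) ≤
      gf {L | L ∈ SA ∧ n ≤ L.length ∧ (L.length : ℝ) ≤ (1 + d) * n ∧ TIW.hn (TIW.en L) ≤ 2 ^ j} := by
  obtain ⟨c, b0, hc, h⟩ := k4len
  obtain ⟨δ, hδ⟩ : ∃ δ : ℝ, δ = min d 1 := ⟨_, rfl⟩
  have hδ0 : 0 < δ := by
    rw [hδ]
    exact lt_min hd one_pos
  have hδ1 : δ ≤ 1 := by
    rw [hδ]
    exact min_le_right _ _
  have hδd : δ ≤ d := by
    rw [hδ]
    exact min_le_left _ _
  refine ⟨c * δ / 8, b0, by positivity, fun n j hj hn => ?_⟩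
  have hm := ml_pos j
  have hm1 := one_le_ml j
  have hmn : ml j ≤ n := by
    refine le_trans ?_ hn
    have : (1 : ℝ) ≤ 2 ^ b0 := one_le_pow₀ (by norm_num)
    nlinarith
  have hnp : (0 : ℝ) < n := lt_of_lt_of_le hm hmn
  obtain ⟨N, hN⟩ : ∃ N : ℕ, N = ⌊δ * n⌋₊ + 1 := ⟨_, rfl⟩
  have hN1 : ((⌊δ * n⌋₊ : ℕ) : ℝ) ≤ δ * n := Nat.floor_le (by positivity)
  have hN2 : δ * n < N := by
    rw [hN]
    push_cast
    exact Nat.lt_floor_add_one _
  have hfl : ⌊δ * n⌋₊ ≤ n := by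
    have : ((⌊δ * n⌋₊ : ℕ) : ℝ) ≤ n := hN1.trans (by nlinarith)
    exact_mod_cast this
  have h1 := k4sum (n := n) (n' := 2 * n) (N := N) (j := j) hc.le (by omega) fun l hl _ =>
    h l j hj (hn.trans (by exact_mod_cast hl))
  refine le_trans (ENNReal.ofReal_le_ofReal ?_) (h1.trans (gf_mono ?_))
  · have h2 : pr n j ≤ 4 * pr (2 * n) j := by
      rw [pr_eq, pr_eq, max_eq_left hmn, max_eq_left (by push_cast; linarith : ml j ≤ ((2 * n : ℕ) : ℝ))]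
      have e1 : ml j / ((2 * n : ℕ) : ℝ) = (1 / 2) * (ml j / n) := by
        push_cast
        field_simp
      rw [e1, Real.mul_rpow (by norm_num) (by positivity)]
      have e2 : (1 / 4 : ℝ) ≤ (1 / 2 : ℝ) ^ (3 / 2 : ℝ) := by
        rw [show (1 / 4 : ℝ) = (1 / 2 : ℝ) ^ (2 : ℝ) by norm_num]
        exact Real.rpow_le_rpow_of_exponent_ge (by norm_num) (by norm_num) (by norm_num)
      have e3 : (0 : ℝ) ≤ (ml j / n) ^ (3 / 2 : ℝ) := by positivity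
      have hp := pw_pos j
      nlinarith [mul_nonneg hp.le e3, mul_le_mul_of_nonneg_right e2 (mul_nonneg hp.le e3)]
    have hp := pr_pos (2 * n) j
    have h3 : c * δ / 8 * pr n j * (n / ml j) ≤ (δ * n) * (c * (pr (2 * n) j / ml j)) := by
      have e1 : c * δ / 8 * pr n j * (n / ml j) = (c * δ * n / ml j) * (pr n j / 8) := by ring
      have e2 : (δ * n) * (c * (pr (2 * n) j / ml j)) = (c * δ * n / ml j) * pr (2 * n) j := by ring
      rw [e1, e2]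
      exact mul_le_mul_of_nonneg_left (by linarith) (by positivity)
    refine h3.trans (mul_le_mul_of_nonneg_right hN2.le (by positivity))
  · rintro L ⟨h5, h6, h7, h8⟩
    refine ⟨h5, h6, ?_, h8⟩
    have h9 : L.length ≤ n + ⌊δ * n⌋₊ := by omega
    have h10 : (L.length : ℝ) ≤ n + (⌊δ * n⌋₊ : ℕ) := by exact_mod_cast h9
    nlinarith

end PMA

end HexObs
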