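import Pool.Agent.PMA.CyC
import Pool.Agent.PMA.K3
import Pool.Agent.PMA.K7
import Pool.Agent.PMA.LowF
import Pool.Agent.PMA.H4

/-!
# (PM): the numbers of the assembly (helper41)

* `lev_ex`: the level of the gap; `gG`, `gw_sum`: the words of the gap as a class of `Par`; **`gw_low`**: their mass from below;
* `bad_len`: the curves of an open word and of its closed words.
-/

set_option autoImplicit false

namespace HexObs

namespace PMA

open Finset TS SDN NTA TIP ARM ARM.G3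

open scoped ENNReal

open Pool.Agent.PMA (wdw gapF cyF f3 gS)

/-! ### 1. The level -/

lemma lev_ex {y : ℝ} (hy : 1 ≤ y) : ∃ j : ℕ, y ≤ 2 ^ j ∧ (2 : ℝ) ^ j ≤ 2 * y := by
  obtain ⟨m, h1, h2⟩ := exists_nat_pow_near hy (by norm_num : (1 : ℝ) < 2)
  refine ⟨m + 1, h2.le, ?_⟩
  rw [pow_succ]
  linarith

lemma nr_rpow (n : ℕ) : NTSF.Mg.nr n ^ (4 / 3 : ℝ) = n := by
  unfold NTSF.Mg.nr
  rw [← Real.rpow_mul (Nat.cast_nonneg n)]
  norm_num

/-- the gap class -/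
def gG (n : ℕ) (r R : ℝ) (l : ℕ) (z : Pt) : Prop := l ∈ wdw n r ∧ ‖NTF.JJ z‖ ≤ R

lemma mem_wdw {n l : ℕ} {r : ℝ} : l ∈ wdw n r ↔ l ≤ n ∧ (1 - r ^ (4 / 3 : ℝ)) * n ≤ l := by
  unfold Pool.Agent.PMA.wdw
  rw [mem_filter, mem_range, Nat.lt_succ_iff]

lemma mem_wdw' {n l : ℕ} {r : ℝ} : l ∈ wdw n r ↔ ⌈(1 - r ^ (4 / 3 : ℝ)) * n⌉₊ ≤ l ∧ l ≤ n := by
  rw [mem_wdw, Nat.ceil_le]
  exact ⟨fun h => ⟨h.2, h.1⟩, fun h => ⟨h.2, h.1⟩⟩

lemma gw_sum {P : Par} {n : ℕ} {r R : ℝ} (hP : P.G = gG n r R) (hG : ∀ l z, P.G l z → l ≤ P.N) (f : ℕ → List Bool → ℝ) :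
    ∑ L ∈ (gw_fin hG).toFinset, (wE L).toReal * f L.length L = gS n r R f := by
  classical
  unfold Pool.Agent.PMA.gS
  have hm : ∀ L, L ∈ (gw_fin hG).toFinset ↔ L ∈ SA ∧ L.length ∈ wdw n r ∧ ‖NTF.JJ (TIW.en L)‖ ≤ R := by
    intro L
    rw [(gw_fin hG).mem_toFinset]
    unfold GW
    rw [hP]
    exact Iff.rfl
  rw [← sum_fiberwise_of_maps_to (s := (gw_fin hG).toFinset) (t := wdw n r) (g := List.length) fun L hL => ((hm L).1 hL).2.1]
  refine sum_congr rfl fun k hk => ?_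
  rw [mul_sum]
  refine sum_congr ?_ ?_
  · ext L
    unfold Pool.Agent.PMA.gapF
    rw [mem_filter, mem_filter, hm, TIW.mem_sawF]
    constructor
    · rintro ⟨⟨h1, h2, h3⟩, h4⟩
      refine ⟨⟨h4, h1⟩, ?_⟩
      rw [← h4]
      exact h3
    · rintro ⟨⟨h1, h2⟩, h3⟩
      refine ⟨⟨h2, ?_, ?_⟩, h1⟩
      · rw [h1]
        exact hk
      · unfold TIW.en
        rw [h1]
        exact h3
  · intro L hL
    unfold Pool.Agent.PMA.gapF at hL
    rw [mem_filter, TIW.mem_sawF] at hL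
    have h1 : L.length = k := hL.1.1
    unfold wE
    rw [h1, ENNReal.toReal_ofReal (pow_pos xc_pos k).le]

/-- the mass of the gap -/
lemma gw_mass {P : Par} {n : ℕ} {r R : ℝ} (hP : P.G = gG n r R) (hG : ∀ l z, P.G l z → l ≤ P.N) :
    (gf (GW P)).toReal = gS n r R fun _ _ => 1 := by
  rw [← gw_sum hP hG, gf_real (gw_fin hG)]
  exact sum_congr rfl fun L _ => (mul_one _).symm

/-- **the means over the open words** -/
lemma gw_mean {P : Par} {n : ℕ} {r R : ℝ} (hP : P.G = gG n r R) (hG : ∀ l z, P.G l z → l ≤ P.N) (f : ℕ → List Bool → ℝ) :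
    ∑ L ∈ (gw_fin hG).toFinset, (wE L).toReal / (gf (GW P)).toReal * f L.length L = gS n r R f / gS n r R fun _ _ => 1 := by
  rw [← gw_sum hP hG, ← gw_mass hP hG, sum_div]
  exact sum_congr rfl fun L _ => by ring

/-- **the means over the closed words** -/
lemma cy_mean (N : ℕ) (g : List Bool → ℝ) :
    ∑ K ∈ (cy_fin N).toFinset, (wE K).toReal / (gf (POL.Cy N)).toReal * g K = (∑ t ∈ cyF N, g t) / ((cyF N).card : ℝ) := by
  rw [card_all, cyF_eq, sum_div]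
  refine sum_congr rfl fun K hK => ?_
  rw [(cy_fin N).mem_toFinset] at hK
  have hx : 0 < xc ^ N := pow_pos xc_pos N
  unfold wE
  rw [hK.1, ENNReal.toReal_ofReal hx.le, mul_comm (((cy_fin N).toFinset.card : ℕ) : ℝ), ← div_div, div_self hx.ne']
  ring

/-! ### 2. The mass of the gap from below -/

/-- **the mass of the gap from below** -/
theorem gw_low (s : ℕ) : ∃ (c : ℝ) (b0 : ℕ), 0 < c ∧ ∀ (P : Par) (n : ℕ) (r R : ℝ), P.G = gG n r R → s + b0 ≤ P.j → 0 < r → r ≤ 1 →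
    2 ^ b0 * ml P.j ≤ n / 2 → r ^ (4 / 3 : ℝ) * n ≤ ml P.j → ml (P.j - s) ≤ r ^ (4 / 3 : ℝ) * n → (2 : ℝ) ^ (P.j - s) ≤ R →
    ENNReal.ofReal (c * pr ⌈(1 - r ^ (4 / 3 : ℝ)) * n⌉₊ P.j) ≤ gf (GW P) := by
  obtain ⟨c, b0, hc, h⟩ := k4len
  refine ⟨c / (4 * (2 : ℝ) ^ ((91 / 24 : ℝ) * (s : ℝ))), b0, by positivity, fun P n r R hP hj hr hr1 hn h1 h2 h3 => ?_⟩
  obtain ⟨i, hi⟩ : ∃ i, i = P.j - s := ⟨_, rfl⟩
  obtain ⟨q, hq⟩ : ∃ q : ℝ, q = r ^ (4 / 3 : ℝ) := ⟨_, rfl⟩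
  have hq0 : 0 < q := hq ▸ Real.rpow_pos_of_pos hr _
  have hq1 : q ≤ 1 := hq ▸ Real.rpow_le_one hr.le hr1 (by norm_num)
  rw [← hi] at h2 h3
  rw [← hq] at h1 h2 ⊢
  obtain ⟨n', hn'⟩ : ∃ n' : ℕ, n' = ⌈(1 - q) * (n : ℝ)⌉₊ := ⟨_, rfl⟩
  rw [← hn']
  have hi2 : i + s = P.j := by omega
  have hmi := ARM.ml_pos i
  have hmj := ARM.ml_pos P.j
  have hmij : ml i ≤ ml P.j := ml_le (by omega)
  have hn0 : (0 : ℝ) ≤ n := Nat.cast_nonneg n
  have hle : n' ≤ n := by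
    rw [hn', Nat.ceil_le]
    nlinarith
  have hlow : (1 - q) * n ≤ n' := hn' ▸ Nat.le_ceil _
  have hup : (n' : ℝ) < (1 - q) * n + 1 := hn' ▸ Nat.ceil_lt_add_one (by nlinarith)
  obtain ⟨N, hN⟩ : ∃ N : ℕ, N = n + 1 - n' := ⟨_, rfl⟩
  have hNr : (N : ℝ) = n + 1 - n' := by
    rw [hN, Nat.cast_sub (by omega)]
    push_cast
    ring
  have hb : (2 : ℝ) ^ b0 ≥ 1 := one_le_pow₀ (by norm_num)
  have hhalf : (n : ℝ) / 2 ≤ n' := by
    have : ml P.j ≤ n / 2 := le_trans (by nlinarith) hn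
    linarith
  have k := k4sum (c := c) (n := n') (n' := n) (j := i) (N := N) hc.le (by omega) fun l hl _ => h l i (by omega) (by
    have h4 : (n' : ℝ) ≤ l := by exact_mod_cast hl
    have h5 : 2 ^ b0 * ml i ≤ 2 ^ b0 * ml P.j := mul_le_mul_of_nonneg_left hmij (by positivity)
    linarith)
  refine le_trans ?_ (k.trans (gf_mono ?_))
  · refine ENNReal.ofReal_le_ofReal ?_
    have hp := pr_pos n i
    have e1 : c * pr n i ≤ N * (c * (pr n i / ml i)) := by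
      have h5 : 1 ≤ (N : ℝ) / ml i := by
        rw [le_div_iff₀ hmi, one_mul, hNr]
        linarith
      calc c * pr n i = 1 * (c * pr n i) := (one_mul _).symm
        _ ≤ (N : ℝ) / ml i * (c * pr n i) := mul_le_mul_of_nonneg_right h5 (by positivity)
        _ = _ := by ring
    refine le_trans ?_ e1
    have e2 : pr n' P.j ≤ 4 * pr n P.j := by
      have h5 := pr_sub n (n - n') P.j
      have h6 : n - (n - n') = n' := by omega
      rw [h6] at h5
      refine h5.trans ?_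
      have h7 : (((n - n' : ℕ) : ℝ)) / ml P.j ≤ 1 := by
        rw [div_le_one hmj, Nat.cast_sub hle]
        linarith
      have h8 : (1 + (((n - n' : ℕ) : ℝ)) / ml P.j) ^ (3 / 2 : ℝ) ≤ 4 := by
        calc (1 + (((n - n' : ℕ) : ℝ)) / ml P.j) ^ (3 / 2 : ℝ) ≤ (2 : ℝ) ^ (3 / 2 : ℝ) :=
              Real.rpow_le_rpow (by positivity) (by linarith) (by norm_num)
          _ ≤ (2 : ℝ) ^ (2 : ℝ) := Real.rpow_le_rpow_of_exponent_le (by norm_num) (by norm_num)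
          _ = 4 := by norm_num
      exact mul_le_mul_of_nonneg_right h8 (pr_pos _ _).le
    have e3 : pr n P.j ≤ (2 : ℝ) ^ ((91 / 24 : ℝ) * (s : ℝ)) * pr n i := by
      have h5 := pr_up n i s
      rw [hi2] at h5
      exact h5
    have hS : (0 : ℝ) < (2 : ℝ) ^ ((91 / 24 : ℝ) * (s : ℝ)) := by positivity
    rw [div_mul_eq_mul_div, div_le_iff₀ (by positivity)]
    calc c * pr n' P.j ≤ c * (4 * ((2 : ℝ) ^ ((91 / 24 : ℝ) * (s : ℝ)) * pr n i)) :=
          mul_le_mul_of_nonneg_left (e2.trans (mul_le_mul_of_nonneg_left e3 (by norm_num))) hc.le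
      _ = _ := by ring
  · rintro L ⟨g1, g2, g3, g4⟩
    refine ⟨g1, ?_⟩
    rw [hP]
    refine ⟨?_, ?_⟩
    · rw [mem_wdw', ← hq, ← hn']
      exact ⟨g2, by omega⟩
    · have g5 := NTSF.Mg.JJ_le_hn (TIW.en L)
      have g6 : ((TIW.hn (TIW.en L) : ℤ) : ℝ) ≤ 2 ^ i := by exact_mod_cast g4
      linarith

/-! ### 3. The modulus of a closed word -/

/-- a displacement of more than `e * n ^ (3 / 4)` in at most `δ * n` letters -/
def MdB (n : ℕ) (δ e : ℝ) : Set (List Bool) := {L | ∃ x y : ℕ, x ≤ y ∧ y ≤ n ∧ (y : ℝ) ≤ x + δ * n ∧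
  e * (n : ℝ) ^ (3 / 4 : ℝ) < TIW.hn (vx oo up L y - vx oo up L x)}

lemma mb_mod {n : ℕ} {δ e : ℝ} {K : List Bool} (hK : K.length = n + 1) (h : K.dropLast ∉ MdB n δ e) {x y : ℕ} (hxy : x ≤ y)
    (hy : y ≤ n + 1) (hd : (y : ℝ) ≤ x + δ * n) (he : 0 ≤ e) :
    (TIW.hn (vx oo up K y - vx oo up K x) : ℝ) ≤ e * NTSF.Mg.nr n + 2 := by
  have h1 : ∀ x y : ℕ, x ≤ y → y ≤ n → (y : ℝ) ≤ x + δ * n →
      (TIW.hn (vx oo up K y - vx oo up K x) : ℝ) ≤ e * NTSF.Mg.nr n := by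
    intro x y g1 g2 g3
    by_contra hc
    apply h
    refine ⟨x, y, g1, g2, g3, ?_⟩
    rw [vx_dropLast hK (by omega), vx_dropLast hK (by omega)]
    exact not_le.1 hc
  rcases Nat.lt_or_ge y (n + 1) with h2 | h2
  · have := h1 x y hxy (by omega) hd
    linarith
  · have e1 : y = n + 1 := by omega
    rcases Nat.lt_or_ge x (n + 1) with h3 | h3
    · have h4 := h1 x n (by omega) le_rfl (by
        rw [e1] at hd
        push_cast at hd
        linarith)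
      have h5 := TIW.hn_add (vx oo up K (n + 1) - vx oo up K n) (vx oo up K n - vx oo up K x)
      have h6 : TIW.hn (vx oo up K (n + 1) - vx oo up K n) = 2 := hn_succ K n
      rw [sub_add_sub_cancel, h6] at h5
      have h7 : (TIW.hn (vx oo up K (n + 1) - vx oo up K x) : ℝ) ≤ 2 + TIW.hn (vx oo up K n - vx oo up K x) := by
        exact_mod_cast h5
      rw [e1]
      linarith
    · have e2 : x = y := by omega
      rw [e2, sub_self]
      have : TIW.hn (0 : Pt) = 0 := by decide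
      rw [this, Int.cast_zero]
      have : 0 ≤ NTSF.Mg.nr n := by
        unfold NTSF.Mg.nr
        positivity
      positivity

/-- the size of a closed word with the modulus -/
lemma mb_size {n J : ℕ} {δ e : ℝ} {K : List Bool} (hK : K.length = n + 1) (h : K.dropLast ∉ MdB n δ e) (hδ : 0 < δ) (he : 0 ≤ e)
    (hJ : 1 / δ ≤ J) (hn : J + 1 ≤ n) {i : ℕ} (hi : i ≤ n + 1) :
    (TIW.hn (vx oo up K i) : ℝ) ≤ (2 * J + 3) * (e * NTSF.Mg.nr n + 2) := by
  obtain ⟨a, ha⟩ : ∃ a : ℝ, a = e * NTSF.Mg.nr n + 2 := ⟨_, rfl⟩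
  have ha0 : 0 ≤ a := by
    have : 0 ≤ NTSF.Mg.nr n := by
      unfold NTSF.Mg.nr
      positivity
    rw [ha]
    positivity
  rw [← ha]
  have hbd : ∀ x y : ℕ, x ≤ y → y ≤ n + 1 → (y : ℝ) ≤ x + δ * n → (TIW.hn (vx oo up K y - vx oo up K x) : ℝ) ≤ a :=
    fun x y g1 g2 g3 => ha ▸ mb_mod hK h g1 g2 g3 he
  obtain ⟨s, hs⟩ : ∃ s : ℕ, s = n / J.succ := ⟨_, rfl⟩
  have hs1 : 1 ≤ s := by
    rw [hs]
    exact Nat.div_pos hn (Nat.succ_pos _)
  have hsd : (s : ℝ) ≤ δ * n := by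
    have h6 : (s : ℝ) ≤ (n : ℝ) / (J.succ : ℕ) := by
      rw [hs]
      exact Nat.cast_div_le
    refine h6.trans ?_
    rw [div_le_iff₀ (by positivity)]
    have h7 : 1 ≤ δ * J := by
      rw [div_le_iff₀ hδ] at hJ
      linarith
    have h8 : (0 : ℝ) ≤ n := Nat.cast_nonneg n
    push_cast
    nlinarith
  have hm : ∀ m : ℕ, m * s ≤ n + 1 → (TIW.hn (vx oo up K (m * s)) : ℝ) ≤ m * a := by
    intro m
    induction m with
    | zero =>
      intro _
      have e1 : vx oo up K (0 * s) = 0 := by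
        rw [zero_mul]
        rfl
      have e2 : TIW.hn (0 : Pt) = 0 := by decide
      rw [e1, e2]
      simp
    | succ m ih =>
      intro hms
      have h6 := ih (by nlinarith)
      have h7 := hbd (m * s) ((m + 1) * s) (by nlinarith) hms (by
        push_cast
        nlinarith)
      have h8 := TIW.hn_add (vx oo up K ((m + 1) * s) - vx oo up K (m * s)) (vx oo up K (m * s))
      rw [sub_add_cancel] at h8
      have h9 : (TIW.hn (vx oo up K ((m + 1) * s)) : ℝ) ≤ TIW.hn (vx oo up K ((m + 1) * s) - vx oo up K (m * s)) +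
          TIW.hn (vx oo up K (m * s)) := by exact_mod_cast h8
      push_cast at h9 ⊢
      linarith
  obtain ⟨m, hmd⟩ : ∃ m : ℕ, m = i / s := ⟨_, rfl⟩
  have hm1 : m * s ≤ i := by
    rw [hmd]
    exact Nat.div_mul_le_self i s
  have hm2 : i < (m + 1) * s := by
    rw [hmd, mul_comm]
    exact Nat.lt_mul_div_succ i (by omega)
  have hm3 : (m : ℝ) ≤ 2 * J + 2 := by
    have h6 : n < J.succ * (s + 1) := by
      rw [hs]
      exact Nat.lt_mul_div_succ n (Nat.succ_pos _)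
    have h7 : m * s ≤ 2 * (J + 1) * s := by
      have : J.succ * (s + 1) ≤ 2 * (J + 1) * s := by
        rw [Nat.succ_eq_add_one]
        nlinarith
      omega
    have h8 : m ≤ 2 * (J + 1) := Nat.le_of_mul_le_mul_right h7 (by omega)
    have h9 : m ≤ 2 * J + 2 := by omega
    exact_mod_cast h9
  have h6 := hm m (hm1.trans hi)
  have h7 := hbd (m * s) i hm1 hi (by
    have h8 : (i : ℝ) ≤ ((m + 1 : ℕ) : ℝ) * s := by exact_mod_cast hm2.le
    push_cast at h8 ⊢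
    nlinarith)
  have h8 := TIW.hn_add (vx oo up K i - vx oo up K (m * s)) (vx oo up K (m * s))
  rw [sub_add_cancel] at h8
  have h9 : (TIW.hn (vx oo up K i) : ℝ) ≤ TIW.hn (vx oo up K i - vx oo up K (m * s)) + TIW.hn (vx oo up K (m * s)) := by
    exact_mod_cast h8
  nlinarith

/-- **the curves of the open word and of its closed words** -/
theorem way_close {P : Par} {n J : ℕ} {δ e θ q : ℝ} (hN : P.N = n + 1) {F : C(unitInterval, ℂ) → ℝ} (hF : LipschitzWith 1 F)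
    (hev : ∀ γ, F (-γ) = F γ) (hG : ∀ l z, P.G l z → (1 - θ) * n ≤ l ∧ l ≤ n) (hθ0 : 0 ≤ θ) (hθ : θ ≤ 1 / 2) (hδ : 0 < δ)
    (he : 0 ≤ e) (hJ : 1 / δ ≤ J) (hn : J + 1 ≤ n) (hW : (2 * P.A + P.A1) * ml P.j + 1 ≤ δ * n)
    (hq : 14 * 2 ^ (P.j + P.m) ≤ q * NTSF.Mg.nr n) {L K : List Bool}
    {p : (List Bool × List Bool × List Bool) × (List Bool × ℕ)} (hp : p ∈ Way P L K) (hK : K.dropLast ∉ MdB n δ e) :
    |f3 F L.length L - f3 F (P.N - 1) K| ≤
      2 * (3 * q + 3 * e + θ * ((2 * J + 3) * e)) + 2 * (8 + θ * (4 * J + 7)) / NTSF.Mg.nr n := by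
  obtain ⟨⟨X, M, Y⟩, Q, u⟩ := p
  obtain ⟨⟨hL, hA⟩, hQ, hu, -, hKe⟩ := hp
  simp only at hL hA hQ hu hKe
  obtain ⟨hGW, hC, hO, hXY⟩ := hA
  have hQl : M.length + Q.length = P.N := hQ.2.1
  have hn0 : 0 < n := by omega
  have hn0' : (0 : ℝ) < n := by exact_mod_cast hn0
  have hr0 : 0 < NTSF.Mg.nr n := by
    unfold NTSF.Mg.nr
    positivity
  have hLl : (X ++ (M ++ Y)).length = X.length + (M.length + Y.length) := by
    rw [List.length_append, List.length_append]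
  obtain ⟨g1, g2⟩ := hG _ _ hGW.2
  have hl1 : 1 ≤ (X ++ (M ++ Y)).length := by
    have : (0 : ℝ) < (X ++ (M ++ Y)).length := by nlinarith
    exact_mod_cast this
  have hKl : K.length = n + 1 := by
    rw [hKe, List.length_append, List.length_append, List.length_drop, List.length_take]
    omega
  have hX : ∀ i, i ≤ X.length → (TIW.hn (vx oo up X i) : ℝ) ≤ q * NTSF.Mg.nr n := by
    intro i hi
    have h1 := x_near hC.2.2.1 hi
    have h2 := en_x hC.2.2.1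
    have h3 := TIW.hn_add (vx oo up X i - TIW.en X) (TIW.en X)
    rw [sub_add_cancel] at h3
    have h4 : (1 : ℤ) ≤ 2 ^ (P.j + P.m) := one_le_pow₀ (by norm_num)
    have h5 : TIW.hn (vx oo up X i) ≤ 14 * 2 ^ (P.j + P.m) := by linarith
    have h6 : (TIW.hn (vx oo up X i) : ℝ) ≤ 14 * 2 ^ (P.j + P.m) := by exact_mod_cast h5
    exact h6.trans hq
  have hY : ∀ i, i ≤ Y.length → (TIW.hn (vx oo up Y i) : ℝ) ≤ q * NTSF.Mg.nr n := by
    intro i hi
    have h1 := mid_hn_In hC.1.2.1 hi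
    push_cast at h1
    have h4 : (1 : ℤ) ≤ 2 ^ (P.j + P.m) := one_le_pow₀ (by norm_num)
    have h5 : TIW.hn (vx oo up Y i) ≤ 14 * 2 ^ (P.j + P.m) := by linarith
    have h6 : (TIW.hn (vx oo up Y i) : ℝ) ≤ 14 * 2 ^ (P.j + P.m) := by exact_mod_cast h5
    exact h6.trans hq
  have hK1 : P.N - 1 = n := by omega
  have hfl : (⌊δ * n⌋₊ : ℝ) ≤ δ * n := Nat.floor_le (by positivity)
  have key := Pool.Agent.PMA.f3_close (F := F) (X := X) (M := M) (Y := Y) (Q1 := Q.take u) (Q2 := Q.drop u) (N := P.N)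
    (W := ⌊δ * n⌋₊) (τ := q * NTSF.Mg.nr n) (ω := e * NTSF.Mg.nr n + 2) (B := (2 * J + 3) * (e * NTSF.Mg.nr n + 2)) hF
    (Or.inr hev) (by
      rw [List.length_drop, List.length_take]
      omega) hl1 (by omega) hX hY (fun i j h1 h2 h3 => by
      have h4 : (j : ℝ) ≤ i + ⌊δ * n⌋₊ := by exact_mod_cast h3
      rw [← hKe]
      exact mb_mod hKl hK h1 (by omega) (by linarith) he) (fun i hi => by
      rw [← hKe]
      exact mb_size hKl hK hδ he hJ hn (by omega)) (by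
      rw [List.length_drop, List.length_take]
      refine Nat.le_floor ?_
      have h1 : (P.N : ℝ) ≤ M.length + P.A * ml P.j := hO.2.2
      have h2 : (M.length : ℝ) + Q.length = P.N := by exact_mod_cast hQl
      have h3 : P.N - 1 - (X ++ (M ++ Y)).length + 1 ≤ Q.length + 1 := by omega
      have h4 : P.N - 1 - (X ++ (M ++ Y)).length + 1 + X.length + (Q.length - u) + min u Q.length ≤
          2 * Q.length + X.length + 1 := by omega
      have h5 : ((P.N - 1 - (X ++ (M ++ Y)).length + 1 + X.length + (Q.length - u) + min u Q.length : ℕ) : ℝ) ≤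
          2 * Q.length + X.length + 1 := by exact_mod_cast h4
      have h6 : (0 : ℝ) ≤ Y.length := Nat.cast_nonneg _
      linarith)
  rw [← hKe, ← hL, hK1] at key
  rw [hK1]
  refine key.trans ?_
  rw [← hL] at g1 g2 hl1
  unfold Pool.Agent.PMA.eR
  rw [hK1]
  obtain ⟨l, hl⟩ : ∃ l, l = L.length := ⟨_, rfl⟩
  rw [← hl] at g1 g2 hl1 ⊢
  obtain ⟨r, hr⟩ : ∃ r, r = NTSF.Mg.nr n := ⟨_, rfl⟩
  rw [← hr] at hr0 ⊢
  have hl0 : (0 : ℝ) < l := by exact_mod_cast hl1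
  have hrl : r ≤ 2 * NTSF.Mg.nr l := by
    have h1 : (n : ℝ) ≤ 2 * l := by nlinarith
    rw [hr]
    unfold NTSF.Mg.nr
    calc (n : ℝ) ^ (3 / 4 : ℝ) ≤ (2 * (l : ℝ)) ^ (3 / 4 : ℝ) := Real.rpow_le_rpow hn0'.le h1 (by norm_num)
      _ = (2 : ℝ) ^ (3 / 4 : ℝ) * (l : ℝ) ^ (3 / 4 : ℝ) := Real.mul_rpow (by norm_num) hl0.le
      _ ≤ 2 * (l : ℝ) ^ (3 / 4 : ℝ) := by
          refine mul_le_mul_of_nonneg_right ?_ (by positivity)
          calc (2 : ℝ) ^ (3 / 4 : ℝ) ≤ (2 : ℝ) ^ (1 : ℝ) := Real.rpow_le_rpow_of_exponent_le (by norm_num) (by norm_num)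
            _ = 2 := Real.rpow_one 2
  have hnl : 0 < NTSF.Mg.nr l := by linarith
  have hq0 : 0 ≤ q := by
    by_contra hc
    have h1 : q * r < 0 := mul_neg_of_neg_of_pos (not_le.1 hc) hr0
    rw [← hr] at hq
    have h2 : (0 : ℝ) < 14 * 2 ^ (P.j + P.m) := by positivity
    linarith
  have hfr : ((n : ℝ) - l) / n ≤ θ := by
    rw [div_le_iff₀ hn0']
    linarith
  have hfr0 : 0 ≤ ((n : ℝ) - l) / n := by
    have : (l : ℝ) ≤ n := by exact_mod_cast g2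
    exact div_nonneg (by linarith) hn0'.le
  have hJ0 : (0 : ℝ) ≤ J := Nat.cast_nonneg J
  have hBn : 0 ≤ (2 * (J : ℝ) + 3) * (e * r + 2) + 1 := by positivity
  have hnum : 2 + (3 * (q * r) + 3 * (e * r + 2)) + ((n : ℝ) - l) / n * ((2 * J + 3) * (e * r + 2) + 1) ≤
      r * (3 * q + 3 * e + θ * ((2 * J + 3) * e)) + (8 + θ * (4 * J + 7)) := by
    have h1 := mul_le_mul_of_nonneg_right hfr hBn
    nlinarith
  have hpos : 0 ≤ r * (3 * q + 3 * e + θ * ((2 * J + 3) * e)) + (8 + θ * (4 * J + 7)) := by positivity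
  calc (2 + (3 * (q * r) + 3 * (e * r + 2)) + ((n : ℝ) - l) / n * ((2 * J + 3) * (e * r + 2) + 1)) / NTSF.Mg.nr l
      ≤ (r * (3 * q + 3 * e + θ * ((2 * J + 3) * e)) + (8 + θ * (4 * J + 7))) / NTSF.Mg.nr l :=
        div_le_div_of_nonneg_right hnum hnl.le
    _ ≤ (r * (3 * q + 3 * e + θ * ((2 * J + 3) * e)) + (8 + θ * (4 * J + 7))) / (r / 2) :=
        div_le_div_of_nonneg_left hpos (by positivity) (by linarith)
    _ = 2 * (3 * q + 3 * e + θ * ((2 * J + 3) * e)) + 2 * (8 + θ * (4 * J + 7)) / r := by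
        field_simp

end PMA

end HexObs
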