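import Pool.Agent.ARM.DefsQ
import Pool.Agent.ARM.PlcA

/-!
# PM (pages next/46f0ca_83R, 15R; table RM_ROWS): the kernel between the open words and the closed words `Cy N` (helper84)

An open word `L = X ++ (M ++ Y)` of the gap class with a pair of good cuts whose middle part `M` is joinable; `M` is closed by a
tube `Q` along the canonical path of `M`, with exactly `N` letters, and the root is moved to a uniform letter of `Q`. All
definitions are local: they only see the part of the word near the gap (`PMA/Loc*`).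
-/

set_option autoImplicit false

namespace HexObs

namespace PMA

open Finset TS SDN SIM NTA TIP ARM ARM.G3

open scoped ENNReal

/-- paths: scale, number of the steps, mesh, directions -/
structure Pth where
  k : ℕ
  r : ℕ
  D : ℤ
  E : ℕ → Pt

instance : Inhabited Pth := ⟨⟨0, 0, 0, fun _ => 0⟩⟩

/-- the parameters of the kernel: level `j`, cuts `η a m`, at least `κ ^ 2 * Ub j ^ 2` pairs of cuts, mesh `H` and scales `j - sx`
to `j`, paths with at most `Mx` steps, fillings with `a0 * ml j` to `A * ml j` letters, tips with at most `A1 * ml j` letters,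
closed words with `N` letters; the gap class `G` = a set of pairs (number of the letters, end); `R` = a property of the fillings;
`TT` = the paths (a finite set); `S` = a further property of the good open words (few cuts) -/
structure Par where
  j : ℕ
  a : ℕ
  m : ℕ
  H : ℕ
  Mx : ℕ
  sx : ℕ
  N : ℕ
  η : ℝ
  κ : ℝ
  a0 : ℝ
  A : ℝ
  A1 : ℝ
  G : ℕ → Pt → Prop
  R : List Bool → Prop
  TT : Pth → Prop
  S : List Bool → Prop

/-- **the open words** -/
def GW (P : Par) : Set (List Bool) := {L | L ∈ SA ∧ P.G L.length (TIW.en L)}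

/-- the admissible paths (as in `JoinSc`) -/
structure okT (P : Par) (τ : Pth) : Prop where
  kj : τ.k ≤ P.j
  jk : P.j ≤ τ.k + P.sx
  D1 : 18 * (P.H * 2 ^ τ.k) ≤ τ.D
  D2 : τ.D ≤ 36 * (P.H * 2 ^ τ.k)
  r4 : 4 ≤ τ.r
  rM : τ.r ≤ P.Mx
  ip : IPg τ.E τ.r
  e1 : τ.E (τ.r - 1) = up
  e2 : τ.E (τ.r - 2) = up
  tt : P.TT τ

/-- `M` can be closed along the path -/
def PJ (P : Par) (M : List Bool) (τ : Pth) : Prop := okT P τ ∧ Jn τ.E τ.r τ.D τ.k M

/-- joinable words -/
def Jbl (P : Par) (M : List Bool) : Prop := ∃ τ, PJ P M τ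

/-- the canonical path of a joinable word (it depends only on the set of its paths) -/
noncomputable def pth (P : Par) (M : List Bool) : Pth := Classical.epsilon (PJ P M)

lemma pth_ok {P : Par} {M : List Bool} (h : Jbl P M) : PJ P M (pth P M) := Classical.epsilon_spec h

lemma pth_congr {P : Par} {M M' : List Bool} (h : ∀ τ, PJ P M τ ↔ PJ P M' τ) : pth P M = pth P M' := by
  have e : PJ P M = PJ P M' := funext fun τ => propext (h τ)
  unfold pth
  rw [e]

/-- **the fillings** of `M`: tubes along the canonical path with exactly `N - |M|` letters -/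
def Fil (P : Par) (M : List Bool) : Set (List Bool) :=
  {Q | TP (pth P M).E (pth P M).r (pth P M).D (pth P M).k M Q ∧ M.length + Q.length = P.N ∧ P.R Q}

/-- the outer parts: joinable, `a0 * ml j` to `A * ml j` letters are missing -/
def Out (P : Par) (M : List Bool) : Prop :=
  Jbl P M ∧ (M.length : ℝ) + P.a0 * ml P.j ≤ P.N ∧ (P.N : ℝ) ≤ M.length + P.A * ml P.j

/-- **admissible pairs of cuts** of the open word `X ++ (M ++ Y)` -/
def Adm (P : Par) (X M Y : List Bool) : Prop :=
  X ++ (M ++ Y) ∈ GW P ∧ CutP P.j P.a P.m P.η X M Y ∧ Out P M ∧ (X.length : ℝ) + Y.length ≤ P.A1 * ml P.j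

/-- the admissible pairs of cuts of `L` -/
def AD (P : Par) (L : List Bool) : Set (List Bool × List Bool × List Bool) :=
  {p | L = p.1 ++ (p.2.1 ++ p.2.2) ∧ Adm P p.1 p.2.1 p.2.2}

/-- their number -/
noncomputable def NN (P : Par) (L : List Bool) : ℕ := (AD P L).ncard

/-- **good open words**: many admissible pairs of cuts -/
def Many (P : Par) (L : List Bool) : Prop := P.κ ^ 2 * Ub P.j ^ 2 ≤ (NN P L : ℝ) ∧ P.S L

/-- **the weight of the tips** that belong to the outer part `M`, `|X|` of the parity `q` -/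
noncomputable def th (P : Par) (q : ℕ) (M : List Bool) : ℝ≥0∞ :=
  ∑' p : {p : List Bool × List Bool | Adm P p.1 M p.2 ∧ Many P (p.1 ++ (M ++ p.2)) ∧ p.1.length % 2 = q % 2},
    wE (p : List Bool × List Bool).1 * wE (p : List Bool × List Bool).2 /
      (NN P ((p : List Bool × List Bool).1 ++ (M ++ (p : List Bool × List Bool).2)) : ℝ≥0∞)

/-- **the splittings** of a closed word with its root in the filling: `K = Q2 ++ (M ++ Q1)`, the filling is `Q1 ++ Q2`, the root
is at the letter number `|Q1|` of the filling -/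
def Spl (P : Par) (K : List Bool) : Set (List Bool × List Bool × List Bool) :=
  {p | K = p.1 ++ (p.2.1 ++ p.2.2) ∧ p.1 ≠ [] ∧ p.2.2 ++ p.1 ∈ Fil P p.2.1 ∧ Out P p.2.1}

/-- the number of the letters `u` of a filling with `l` letters for which the rest has the parity `q` -/
def cnt (l q : ℕ) : ℕ := ((range l).filter fun u => (l - u) % 2 = q % 2).card

/-- **the density** of the image of the open words with respect to the closed words, without the normalisation
`gf (Cy N) / gf (GW)`. The root is uniform among the letters of the filling for which the part `Q2` behind it has the parity of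
`|X|` (the frames of the outer part in the open and in the closed word then differ by a rotation by a multiple of 120 degrees). -/
noncomputable def DD (P : Par) (K : List Bool) : ℝ≥0∞ :=
  ∑' p : Spl P K, th P (p : List Bool × List Bool × List Bool).1.length (p : List Bool × List Bool × List Bool).2.1 /
    ((cnt ((p : List Bool × List Bool × List Bool).2.2 ++ (p : List Bool × List Bool × List Bool).1).length
      (p : List Bool × List Bool × List Bool).1.length : ℝ≥0∞) * gf (Fil P (p : List Bool × List Bool × List Bool).2.1))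

/-- the choices of a pair of cuts, a filling and a letter which lead from `L` to `K` -/
def Way (P : Par) (L K : List Bool) : Set ((List Bool × List Bool × List Bool) × (List Bool × ℕ)) :=
  {p | p.1 ∈ AD P L ∧ p.2.1 ∈ Fil P p.1.2.1 ∧ p.2.2 < p.2.1.length ∧ (p.2.1.length - p.2.2) % 2 = p.1.1.length % 2 ∧
    K = p.2.1.drop p.2.2 ++ (p.1.2.1 ++ p.2.1.take p.2.2)}

open scoped Classical in
/-- **the transport** -/
noncomputable def nu (P : Par) (L K : List Bool) : ℝ≥0∞ :=
  if Many P L then wE L / (NN P L : ℝ≥0∞) * ∑' p : Way P L K,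
    wE (p : (List Bool × List Bool × List Bool) × (List Bool × ℕ)).2.1 /
      ((cnt (p : (List Bool × List Bool × List Bool) × (List Bool × ℕ)).2.1.length
        (p : (List Bool × List Bool × List Bool) × (List Bool × ℕ)).1.1.length : ℝ≥0∞) *
        gf (Fil P (p : (List Bool × List Bool × List Bool) × (List Bool × ℕ)).1.2.1))
  else 0

/-! ### locality -/

/-- all vertices of the closed word, except for `T` letters on both sides of the root, are outside of the ball of radius `2 ^ w` -/
def Far (T w : ℕ) (K : List Bool) : Prop :=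
  2 * T ≤ K.length ∧ ∀ i, T ≤ i → i + T ≤ K.length → 2 ^ w < TIW.hn (vx oo up K i)

/-- the window: `T` letters on both sides of the root -/
def win (T : ℕ) (K : List Bool) : List Bool × List Bool := (K.take T, K.drop (K.length - T))

/-- **near words**: the same `T1` letters at the start and `T2` letters at the end, the same number of letters, the same end; the
other vertices are outside of the ball of radius `2 ^ w` around the start -/
structure Nr2 (T1 T2 w : ℕ) (M M' : List Bool) : Prop where
  sa : M ∈ SA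
  sa' : M' ∈ SA
  len : M.length = M'.length
  tk : M.take T1 = M'.take T1
  dp : M.drop (M.length - T2) = M'.drop (M'.length - T2)
  en : TIW.en M = TIW.en M'
  de : TIW.de M = TIW.de M'
  tt : T1 + T2 ≤ M.length
  far : ∀ i, T1 ≤ i → i + T2 ≤ M.length → 2 ^ w < TIW.hn (vx oo up M i)
  far' : ∀ i, T1 ≤ i → i + T2 ≤ M'.length → 2 ^ w < TIW.hn (vx oo up M' i)

/-- the property `S` is local: it only sees the part of the word in the ball of radius `2 ^ (j + w1)` and `T1` letters at both
ends -/
def LocS (P : Par) (w1 : ℕ) : Prop := ∀ (T1 T2 w : ℕ) (L L' : List Bool), P.j + w1 ≤ w → Nr2 T1 T2 w L L' →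
  (P.A + P.A1) * ml P.j ≤ T1 → (P.A + P.A1) * ml P.j ≤ T2 → (P.S L ↔ P.S L')

/-- **(Loc), row K7a**: on `Far` the density only depends on the window -/
def LocD : Prop := ∀ (H Mx m w1 : ℕ), ∃ w0 : ℕ, ∀ P : Par, P.H = H → P.Mx = Mx → P.m = m → LocS P w1 →
  (∀ l z, P.G l z → TIW.hn z ≤ 2 ^ P.j) → 0 ≤ P.A → 0 ≤ P.A1 → ∀ T w : ℕ, P.j + w0 ≤ w → 4 * (P.A + P.A1) * ml P.j ≤ T →
    4 * T ≤ P.N → ∀ K K' : List Bool, K ∈ POL.Cy P.N → K' ∈ POL.Cy P.N → Far T w K → Far T w K' →
      win T K = win T K' → DD P K = DD P K'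

/-- **row K7b**: far strands or no exit have a small mass; `T ≥ C ml j` letters -/
def FarP : Prop := ∀ (ε : ℝ) (w0 : ℕ), 0 < ε → ∃ (C : ℝ) (w b0 : ℕ), 0 < C ∧ w0 ≤ w ∧ ∀ j N T : ℕ, b0 ≤ j →
  2 ^ b0 * ml j ≤ N → C * ml j ≤ T → 2 * T ≤ N →
    gf {K | K ∈ POL.Cy N ∧ ¬ Far T (j + w) K} ≤ ENNReal.ofReal (ε * (N : ℝ) ^ (-(3 / 2) : ℝ))

/-- **row K7c (helper58)**: the root piece leaves the ball (the same for the reversed word) -/
def ConfP : Prop := ∀ ε : ℝ, 0 < ε → ∃ (lam : ℝ) (b0 : ℕ), 0 < lam ∧ ∀ w N T : ℕ, b0 ≤ w → 2 ^ b0 * ml w ≤ N →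
  lam * ml w ≤ T → T ≤ N → gf {K | K ∈ POL.Cy N ∧ ((∀ i, i ≤ T → TIW.hn (vx oo up K i) ≤ 2 ^ w) ∨
    ∀ i, N ≤ i + T → i ≤ N → TIW.hn (vx oo up K i) ≤ 2 ^ w)} ≤ ENNReal.ofReal (ε * (N : ℝ) ^ (-(3 / 2) : ℝ))

end PMA

end HexObs
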