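import Pool.Agent.ERG.ExR
import Pool.Agent.NPR.Fast
import Pool.Agent.NPR.EngA
import Pool.Agent.PMA.PolMod
import Pool.Agent.ARM.Mom
import Pool.Agent.ARM.PairS

/-!
# PM (page 83R), row K6 (helper28): the density theorem for polygons

* `QD` : the words with a wrong density; `fac_QD`; **`den_box`** : they are rare factors of the words of a box;
* **`denP_of`** : additive functionals have the same density `ρ` in all windows of the first `η0 n` letters of a closed word with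
  `n` letters, off a part `ε`.
-/

set_option autoImplicit false

namespace HexObs

namespace PMA

open Finset TS SDN HexObs.SIM NTA TIP ARM ARM.T2 HexObs.NPR

open scoped ENNReal

/-- the words with a wrong density -/
def QD (m ρ e : ℝ) (V : List Bool → ℝ) : Set (List Bool) := {R | e < |m * V R - ρ * (R.length : ℝ)|}

lemma fac_QD {m ρ e : ℝ} {V : List Bool → ℝ} {t : List Bool} : t ∈ NPR.Fac (QD m ρ e V) ↔
    ¬ ∀ x y : ℕ, x ≤ y → y ≤ t.length → |m * V (wd t x y) - ρ * ((y : ℝ) - x)| ≤ e := by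
  constructor
  · rintro ⟨X, Q, Y, rfl, hQ⟩ h
    have h1 := h X.length (X.length + Q.length) (by omega) (by simp only [List.length_append]; omega)
    have e1 : wd (X ++ (Q ++ Y)) X.length (X.length + Q.length) = Q := by
      unfold wd
      rw [← List.append_assoc, List.take_left' (by rw [List.length_append]), List.drop_left]
    have e2 : ((X.length + Q.length : ℕ) : ℝ) - (X.length : ℕ) = Q.length := by
      push_cast
      ring
    rw [e1, e2] at h1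
    have h2 : e < |m * V Q - ρ * (Q.length : ℝ)| := hQ
    linarith
  · intro h
    push Not at h
    obtain ⟨x, y, hxy, hy, h1⟩ := h
    refine ⟨t.take x, wd t x y, t.drop y, ?_, ?_⟩
    · unfold wd
      have e1 : t.take x = (t.take y).take x := by rw [List.take_take, min_eq_left hxy]
      rw [e1, ← List.append_assoc, List.take_append_drop, List.take_append_drop]
    · show e < |m * V (wd t x y) - ρ * ((wd t x y).length : ℝ)|
      have e1 : ((wd t x y).length : ℝ) = (y : ℝ) - x := by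
        unfold wd
        rw [List.length_drop, List.length_take, min_eq_left hy, Nat.cast_sub hxy]
      rwa [e1]

lemma WL_mono' {K K' : ℕ} (h : K ≤ K') {t : List Bool} (ht : t ∈ WL K) : t ∈ WL K' := WL_mono h ht

/-- **the words of a box with a wrong density** -/
theorem den_box {bm c C : ℝ} {j0 : ℕ} {ρ : ℕ → ℝ → (List Bool → ℝ) → ℝ} (hc : 0 < c) (hC : 0 < C)
    (hbox : ∀ (l0 : ℕ) (m : ℝ) (V : List Bool → ℝ), Add1 V → 0 < m → m ≤ PW.mZ (2 ^ l0) →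
      (∀ u : List Bool, m * V u ≤ bm * (u.length + m)) → 0 ≤ ρ l0 m V ∧ ρ l0 m V ≤ 2 * bm ∧ ∀ K, l0 + j0 ≤ K →
        gf {t | t ∈ WL K ∧ t.length ≤ ML (K + 2) ∧ ¬ ∀ x y : ℕ, x ≤ y → y ≤ t.length →
          |m * V (wd t x y) - ρ l0 m V * ((y : ℝ) - x)| ≤ C * ((K : ℝ) - l0 + 1) ^ (-c) * PW.mZ (2 ^ K)} ≤
          ENNReal.ofReal ((1 / 2) ^ (K - l0)) * FK K) {δ e : ℝ} (hδ : 0 < δ) (he : 0 < e) :
    ∃ d : ℕ, ∀ (l0 : ℕ) (m : ℝ) (V : List Bool → ℝ), Add1 V → 0 < m → m ≤ PW.mZ (2 ^ l0) →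
      (∀ u : List Bool, m * V u ≤ bm * (u.length + m)) → ∀ (K : ℕ) (x : ℝ), l0 + d ≤ K → e * PW.mZ (2 ^ K) ≤ x →
        gf {t | t ∈ WL K ∧ t ∈ NPR.Fac (QD m (ρ l0 m V) x V)} ≤ ENNReal.ofReal δ * FK K := by
  obtain ⟨a, ha⟩ := NPR.Fast.long_mass 0 (δ / 2) (by positivity)
  obtain ⟨E, hE, hFK⟩ := FK_addE
  obtain ⟨C4, hC4, hup⟩ := exists_mz_up
  have hE0 : 0 < E := by linarith
  have hC40 : 0 < C4 := by linarith
  -- the two conditions for d
  obtain ⟨d1, hd1⟩ := exists_pow_lt_of_lt_one (show 0 < δ / 2 / E ^ a by positivity) (show (1 / 2 : ℝ) < 1 by norm_num)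
  have htend : Filter.Tendsto (fun N : ℕ => ((N : ℝ) + 1) ^ (-c)) Filter.atTop (nhds 0) := by
    refine (tendsto_rpow_neg_atTop hc).comp ?_
    exact Filter.tendsto_atTop_add_const_right _ _ tendsto_natCast_atTop_atTop
  have hpos : 0 < e / (C * (C4 * 4 ^ a)) := by positivity
  obtain ⟨d2, hd2⟩ := (htend.eventually (gt_mem_nhds hpos)).exists_forall_of_atTop
  refine ⟨d1 + d2 + j0, fun l0 m V hV hm hm2 hb K x hK hx => ?_⟩
  obtain ⟨-, -, h3⟩ := hbox l0 m V hV hm hm2 hb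
  have h4 := h3 (K + a) (by omega)
  obtain ⟨r, hr⟩ : ∃ r : ℝ, r = ρ l0 m V := ⟨_, rfl⟩
  rw [← hr] at h4 ⊢
  -- the threshold
  have hthr : C * (((K + a : ℕ) : ℝ) - l0 + 1) ^ (-c) * PW.mZ (2 ^ (K + a)) ≤ x := by
    have h5 := hd2 (K + a - l0) (by omega)
    have e5 : ((K + a - l0 : ℕ) : ℝ) = ((K + a : ℕ) : ℝ) - l0 := by
      rw [Nat.cast_sub (by omega)]
    rw [e5] at h5
    have h6 := hup K a
    have hmz := mz_pos K
    have hp0 : 0 ≤ (((K + a : ℕ) : ℝ) - l0 + 1) ^ (-c) := by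
      refine Real.rpow_nonneg ?_ _
      have : (l0 : ℝ) ≤ ((K + a : ℕ) : ℝ) := by exact_mod_cast (show l0 ≤ K + a by omega)
      linarith
    calc C * (((K + a : ℕ) : ℝ) - l0 + 1) ^ (-c) * PW.mZ (2 ^ (K + a))
        ≤ C * (e / (C * (C4 * 4 ^ a))) * (C4 * 4 ^ a * PW.mZ (2 ^ K)) :=
          mul_le_mul (mul_le_mul_of_nonneg_left h5.le hC.le) h6 (mz_pos _).le (by positivity)
      _ = e * PW.mZ (2 ^ K) := by
          field_simp
      _ ≤ x := hx
  have hsub : {t | t ∈ WL K ∧ t ∈ NPR.Fac (QD m r x V)} ⊆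
      {t | t ∈ WL (K + 0) ∧ PW.mZ (2 ^ (K + a)) ≤ (t.length : ℝ)} ∪
      {t | t ∈ WL (K + a) ∧ t.length ≤ ML (K + a + 2) ∧ ¬ ∀ x y : ℕ, x ≤ y → y ≤ t.length →
          |m * V (wd t x y) - r * ((y : ℝ) - x)| ≤ C * (((K + a : ℕ) : ℝ) - l0 + 1) ^ (-c) * PW.mZ (2 ^ (K + a))} := by
    rintro t ⟨ht, hF⟩
    rcases le_or_gt (PW.mZ (2 ^ (K + a))) (t.length : ℝ) with h5 | h5
    · left
      exact ⟨ht, h5⟩
    · right
      refine ⟨WL_mono' (by omega) ht, ?_, ?_⟩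
      · have h6 : (ML (K + a) : ℝ) ≤ (ML (K + a + 2) : ℝ) := by exact_mod_cast ML_mono (show K + a ≤ K + a + 2 by omega)
        have h7 := (h5.le.trans (ML_ge (K + a))).trans h6
        exact_mod_cast h7
      · rw [fac_QD] at hF
        intro hcon
        exact hF fun x' y' hxy hy => (hcon x' y' hxy hy).trans hthr
  refine (gf_mono hsub).trans ((gf_union_le _ _).trans ?_)
  have h7 : ENNReal.ofReal ((1 / 2) ^ (K + a - l0)) * FK (K + a) ≤ ENNReal.ofReal (δ / 2) * FK K := by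
    refine (mul_le_mul' le_rfl (hFK K a)).trans ?_
    rw [← mul_assoc, ← ENNReal.ofReal_mul (by positivity)]
    refine mul_le_mul' (ENNReal.ofReal_le_ofReal ?_) le_rfl
    have h8 : (1 / 2 : ℝ) ^ (K + a - l0) ≤ (1 / 2) ^ d1 := pow_le_pow_of_le_one (by norm_num) (by norm_num) (by omega)
    calc (1 / 2 : ℝ) ^ (K + a - l0) * E ^ a ≤ (δ / 2 / E ^ a) * E ^ a :=
          mul_le_mul_of_nonneg_right (h8.trans hd1.le) (by positivity)
      _ = δ / 2 := by field_simp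
  refine (add_le_add (ha K) (h4.trans h7)).trans (le_of_eq ?_)
  rw [← add_mul, ← ENNReal.ofReal_add (by positivity) (by positivity), add_halves]

/-- the additive functionals have one density in the closed words -/
def DenP (ρ : ℕ → ℝ → (List Bool → ℝ) → ℝ) (bm : ℝ) : Prop := ∀ ε : ℝ, 0 < ε → ∃ η0 : ℝ, 0 < η0 ∧ ∀ e : ℝ, 0 < e →
  ∃ d : ℕ, ∀ (l0 : ℕ) (m : ℝ) (V : List Bool → ℝ), Add1 V → 0 < m → m ≤ PW.mZ (2 ^ l0) →
    (∀ u : List Bool, m * V u ≤ bm * (u.length + m)) → ∀ k n : ℕ, TIP.Sc k n → l0 + d ≤ k →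
      gf {L | L ∈ C0 n ∧ ∃ x y : ℕ, x ≤ y ∧ (y : ℝ) ≤ η0 * n ∧ e * n < |m * V (wd L x y) - ρ l0 m V * ((y : ℝ) - x)|} ≤
        ENNReal.ofReal (ε * (n : ℝ) ^ (-(3 / 2) : ℝ))

lemma len_C0 {n : ℕ} {L : List Bool} (h : L ∈ C0 n) : L.length = n := by
  obtain ⟨b, hb⟩ := h
  have := hb.1
  rw [List.length_append, List.length_singleton] at this
  omega

/-- **the density in the closed words** -/
theorem denP_of {κ : ℝ} {C' : ℕ} (hκ : 0 < κ) (hS : SmL) (hP : PMJ) (hT : T1) (hE : ExCs) (hB : RootB κ C')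
    (hN : RootN κ C') (hM : FstX) {bm c C : ℝ} {j0 : ℕ} {ρ : ℕ → ℝ → (List Bool → ℝ) → ℝ} (hc : 0 < c) (hC : 0 < C)
    (hbox : ∀ (l0 : ℕ) (m : ℝ) (V : List Bool → ℝ), Add1 V → 0 < m → m ≤ PW.mZ (2 ^ l0) →
      (∀ u : List Bool, m * V u ≤ bm * (u.length + m)) → 0 ≤ ρ l0 m V ∧ ρ l0 m V ≤ 2 * bm ∧ ∀ K, l0 + j0 ≤ K →
        gf {t | t ∈ WL K ∧ t.length ≤ ML (K + 2) ∧ ¬ ∀ x y : ℕ, x ≤ y → y ≤ t.length →
          |m * V (wd t x y) - ρ l0 m V * ((y : ℝ) - x)| ≤ C * ((K : ℝ) - l0 + 1) ^ (-c) * PW.mZ (2 ^ K)} ≤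
          ENNReal.ofReal ((1 / 2) ^ (K - l0)) * FK K) : DenP ρ bm := by
  intro ε hε
  obtain ⟨A1, J1, b1, hA1, hgeo⟩ := geoU hB hN 1 1
  obtain ⟨A2, c2, B2, s2, b2, hA2, hc2, hB2, he2g⟩ := e2g_of (C := C') hκ hS hP hT hE
  obtain ⟨y, S, b3, hy, hfst⟩ := hM (ε / 4) (by positivity)
  obtain ⟨C5, hC5, hz1⟩ := mZ_le_ml
  obtain ⟨C6, hC6, hz2⟩ := ml_le_mZ
  obtain ⟨C4, hC4, hup⟩ := exists_mz_up
  have hC50 : 0 < C5 := by linarith
  have hC60 : 0 < C6 := by linarith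
  have hC40 : 0 < C4 := by linarith
  -- the width of the root
  obtain ⟨m1, hm1⟩ := exists_pow_lt_of_lt_one (show 0 < ε / 4 / A1 by positivity) (show (1 / 2 : ℝ) < 1 by norm_num)
  obtain ⟨mm, hmm⟩ : ∃ mm, mm = m1 + J1 := ⟨_, rfl⟩
  have hmm1 : A1 * (1 / 2) ^ mm ≤ ε / 4 := by
    have h1 : (1 / 2 : ℝ) ^ mm ≤ (1 / 2) ^ m1 := pow_le_pow_of_le_one (by norm_num) (by norm_num) (by omega)
    calc A1 * (1 / 2) ^ mm ≤ A1 * (ε / 4 / A1) := mul_le_mul_of_nonneg_left (h1.trans hm1.le) hA1.le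
      _ = ε / 4 := by field_simp
  -- the depth of the root
  obtain ⟨s3, hs3⟩ := exists_pow_lt_of_lt_one (show 0 < ε / 4 / A1 / 4 ^ mm by positivity) (show (1 / 2 : ℝ) < 1 by norm_num)
  obtain ⟨r6, hr6⟩ := exists_pow_lt_of_lt_one (show 0 < 1 / C6 by positivity) (show (1 / 2 : ℝ) < 1 by norm_num)
  obtain ⟨s', hs'⟩ : ∃ s', s' = s3 + S + r6 := ⟨_, rfl⟩
  -- the part δ
  obtain ⟨δ, hδ0, hδ1, hδ⟩ : ∃ δ : ℝ, 0 < δ ∧ δ ≤ 1 ∧ A2 * δ ^ c2 * B2 ^ mm ≤ ε / 4 := by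
    obtain ⟨x, hx⟩ : ∃ x : ℝ, x = ε / 4 / (A2 * B2 ^ mm) := ⟨_, rfl⟩
    have hB20 : 0 < B2 := by linarith
    have hx0 : 0 < x := by rw [hx]; positivity
    refine ⟨min 1 (x ^ (1 / c2)), lt_min one_pos (Real.rpow_pos_of_pos hx0 _), min_le_left _ _, ?_⟩
    have h1 : (min 1 (x ^ (1 / c2))) ^ c2 ≤ x := by
      calc (min 1 (x ^ (1 / c2))) ^ c2 ≤ (x ^ (1 / c2)) ^ c2 :=
            Real.rpow_le_rpow (lt_min one_pos (Real.rpow_pos_of_pos hx0 _)).le (min_le_right _ _) hc2.le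
        _ = x := by
            rw [← Real.rpow_mul hx0.le, one_div_mul_cancel hc2.ne', Real.rpow_one]
    calc A2 * (min 1 (x ^ (1 / c2))) ^ c2 * B2 ^ mm ≤ A2 * x * B2 ^ mm := by gcongr
      _ = ε / 4 := by
          rw [hx]
          field_simp
  refine ⟨min 1 (y / (C5 * 4 ^ (s' + 1))), lt_min one_pos (by positivity), fun e he => ?_⟩
  obtain ⟨e', he'⟩ : ∃ e' : ℝ, e' = e / (C4 * 4 ^ (mm + s2) * (C5 * C6)) := ⟨_, rfl⟩
  have he'0 : 0 < e' := by rw [he']; positivity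
  obtain ⟨d, hd⟩ := den_box hc hC hbox hδ0 he'0
  refine ⟨d + s' + b1 + b2 + b3, fun l0 m V hV hm hm2 hb k n hsc hk => ?_⟩
  obtain ⟨b, hbk⟩ : ∃ b, k = b + s' := ⟨k - s', by omega⟩
  have hmlb := ml_pos b
  -- n against ml b
  have hn1 : PW.mZ (2 ^ k) ≤ (n : ℝ) := hsc.1
  have hn2 : (n : ℝ) < PW.mZ (2 ^ (k + 1)) := hsc.2
  have hlow : (2 : ℝ) ^ (s3 + S) * ml b ≤ n := by
    have h1 : ml k ≤ C6 * PW.mZ (2 ^ k) := hz2 k
    have h2 : (2 : ℝ) ^ s' * ml b ≤ ml k := by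
      rw [hbk, ARM.ml_add]
      refine mul_le_mul_of_nonneg_right ?_ hmlb.le
      rw [← Real.rpow_natCast]
      refine Real.rpow_le_rpow_of_exponent_le (by norm_num) ?_
      have : (0 : ℝ) ≤ s' := Nat.cast_nonneg s'
      linarith
    have h3 : C6 * (2 : ℝ) ^ (s3 + S) ≤ 2 ^ s' := by
      rw [hs', pow_add 2 (s3 + S) r6, mul_comm]
      refine mul_le_mul_of_nonneg_left ?_ (by positivity)
      have h4 : (1 / 2 : ℝ) ^ r6 < 1 / C6 := hr6
      rw [one_div, inv_pow, ← one_div, one_div_lt_one_div (by positivity) hC60] at h4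
      exact h4.le
    have h5 : C6 * ((2 : ℝ) ^ (s3 + S) * ml b) ≤ C6 * n := by
      calc C6 * ((2 : ℝ) ^ (s3 + S) * ml b) = C6 * (2 : ℝ) ^ (s3 + S) * ml b := by ring
        _ ≤ 2 ^ s' * ml b := mul_le_mul_of_nonneg_right h3 hmlb.le
        _ ≤ ml k := h2
        _ ≤ C6 * PW.mZ (2 ^ k) := h1
        _ ≤ C6 * n := mul_le_mul_of_nonneg_left hn1 hC60.le
    exact le_of_mul_le_mul_left h5 hC60
  have hhigh : (n : ℝ) ≤ C5 * 4 ^ (s' + 1) * ml b := by
    calc (n : ℝ) ≤ PW.mZ (2 ^ (k + 1)) := hn2.le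
      _ ≤ C5 * ml (k + 1) := hz1 _
      _ ≤ C5 * (4 ^ (s' + 1) * ml b) := by
          refine mul_le_mul_of_nonneg_left ?_ hC50.le
          rw [hbk, add_assoc]
          exact ml_up4
      _ = _ := by ring
  have hn0 : 1 ≤ n := by
    have h1 := one_le_ml b
    have h2 : (1 : ℝ) ≤ 2 ^ (s3 + S) := one_le_pow₀ (by norm_num)
    have h3 : (1 : ℝ) ≤ n := by nlinarith
    exact_mod_cast h3
  have hnpos : (0 : ℝ) < n := by exact_mod_cast hn0
  have hν : 0 ≤ (n : ℝ) ^ (-(3 / 2) : ℝ) := by positivity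
  obtain ⟨r, hr⟩ : ∃ r : ℝ, r = ρ l0 m V := ⟨_, rfl⟩
  -- the box
  have hbx : gf {t | t ∈ WL (b + mm + s2) ∧ t ∈ NPR.Fac (QD m (ρ l0 m V) (e * n) V)} ≤
      ENNReal.ofReal δ * FK (b + mm + s2) := by
    refine hd l0 m V hV hm hm2 hb (b + mm + s2) (e * n) (by omega) ?_
    have h1 := hup b (mm + s2)
    rw [← add_assoc] at h1
    have h3 : PW.mZ (2 ^ b) ≤ C5 * C6 * n := by
      have h4 : ml b ≤ ml k := ml_le (by omega)
      calc PW.mZ (2 ^ b) ≤ C5 * ml b := hz1 b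
        _ ≤ C5 * ml k := mul_le_mul_of_nonneg_left h4 hC50.le
        _ ≤ C5 * (C6 * PW.mZ (2 ^ k)) := mul_le_mul_of_nonneg_left (hz2 k) hC50.le
        _ ≤ C5 * (C6 * n) := by gcongr
        _ = _ := by ring
    calc e' * PW.mZ (2 ^ (b + mm + s2)) ≤ e' * (C4 * 4 ^ (mm + s2) * PW.mZ (2 ^ b)) := mul_le_mul_of_nonneg_left h1 he'0.le
      _ ≤ e' * (C4 * 4 ^ (mm + s2) * (C5 * C6 * n)) := by gcongr
      _ = e * n := by
          rw [he']
          field_simp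
  rw [← hr] at hbx ⊢
  have hsub : {L | L ∈ C0 n ∧ ∃ x y' : ℕ, x ≤ y' ∧ (y' : ℝ) ≤ min 1 (y / (C5 * 4 ^ (s' + 1))) * n ∧
      e * n < |m * V (wd L x y') - r * ((y' : ℝ) - x)|} ⊆
      {L | L ∈ C0 n ∧ ∃ u : ℕ, (u : ℝ) ≤ y * ml b ∧ ¬ In (2 ^ (b + 1)) (L.take u)} ∪
      (NoU κ C' b mm n ∪ E2Q κ C' b mm (QD m r (e * n) V) n) := by
    rintro L ⟨hL, x, y', hxy, hy', hgt⟩
    have hlen := len_C0 hL
    have h1 : (y' : ℝ) ≤ y * ml b := by
      calc (y' : ℝ) ≤ min 1 (y / (C5 * 4 ^ (s' + 1))) * n := hy'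
        _ ≤ y / (C5 * 4 ^ (s' + 1)) * (C5 * 4 ^ (s' + 1) * ml b) := by
            refine mul_le_mul (min_le_right _ _) hhigh hnpos.le (by positivity)
        _ = y * ml b := by field_simp
    have h2 : y' ≤ L.length := by
      have h3 : (y' : ℝ) ≤ 1 * n := hy'.trans (mul_le_mul_of_nonneg_right (min_le_left _ _) hnpos.le)
      rw [one_mul] at h3
      rw [hlen]
      exact_mod_cast h3
    by_cases hin : In (2 ^ (b + 1)) (L.take y')
    · right
      by_cases hD : DecU κ C' b mm y' L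
      · right
        obtain ⟨P, Z, V', W, Y, e1, hZ, hW, hu, hPi, hYi⟩ := hD
        refine ⟨hL, P, Z, V', W, Y, e1, hZ, hW, hPi, hYi, Or.inl ?_⟩
        rw [fac_QD]
        intro hcon
        have h4 := hcon x y' hxy hu
        have h5 : wd P x y' = wd L x y' := by
          unfold wd
          rw [e1, List.take_append_of_le_length hu]
        rw [h5] at h4
        linarith
      · left
        exact ⟨hL, y', h2, hin, hD⟩
    · left
      exact ⟨hL, y', h1, hin⟩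
  have hb1 : b1 ≤ b := by omega
  have hb2 : b2 ≤ b := by omega
  have hb3 : b3 ≤ b := by omega
  have p1 := hfst n b hb3 (by
    refine le_trans ?_ hlow
    rw [pow_add, mul_comm ((2 : ℝ) ^ s3), mul_assoc]
    refine mul_le_mul_of_nonneg_left ?_ (by positivity)
    exact le_mul_of_one_le_left hmlb.le (one_le_pow₀ (by norm_num)))
  have p2 := hgeo n b mm hn0 hb1 (by omega)
  have p3 := he2g n b mm (QD m r (e * n) V) δ hn0 hb2 hδ0 hδ1 hbx
  have p2' : A1 * ((1 / 2 : ℝ) ^ (1 * mm) + (ml (b + mm) / n) ^ 1) ≤ ε / 2 := by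
    rw [one_mul, pow_one, mul_add]
    have h1 : A1 * (ml (b + mm) / n) ≤ ε / 4 := by
      have h2 : ml (b + mm) / n ≤ 4 ^ mm * (1 / 2) ^ s3 := by
        rw [div_le_iff₀ hnpos]
        calc ml (b + mm) ≤ 4 ^ mm * ml b := ml_up4
          _ = 4 ^ mm * (1 / 2) ^ s3 * (2 ^ s3 * ml b) := by
              have h3 : (1 / 2 : ℝ) ^ s3 * 2 ^ s3 = 1 := by
                rw [← mul_pow]
                norm_num
              calc (4 : ℝ) ^ mm * ml b = 4 ^ mm * ((1 / 2 : ℝ) ^ s3 * 2 ^ s3) * ml b := by rw [h3, mul_one]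
                _ = _ := by ring
          _ ≤ 4 ^ mm * (1 / 2) ^ s3 * n := by
              refine mul_le_mul_of_nonneg_left (le_trans ?_ hlow) (by positivity)
              rw [pow_add]
              refine mul_le_mul_of_nonneg_right ?_ hmlb.le
              exact le_mul_of_one_le_right (by positivity) (one_le_pow₀ (by norm_num))
      calc A1 * (ml (b + mm) / n) ≤ A1 * (4 ^ mm * (ε / 4 / A1 / 4 ^ mm)) := by
            refine mul_le_mul_of_nonneg_left (h2.trans ?_) hA1.le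
            exact mul_le_mul_of_nonneg_left hs3.le (by positivity)
        _ = ε / 4 := by field_simp
    linarith
  refine (gf_mono hsub).trans ((gf_union_le _ _).trans ((add_le_add le_rfl (gf_union_le _ _)).trans
    ((add_le_add p1 (add_le_add p2 p3)).trans ?_)))
  have hB20 : 0 < B2 := by linarith
  have hmlm := ml_pos (b + mm)
  rw [← ENNReal.ofReal_add (by positivity) (by positivity), ← ENNReal.ofReal_add (by positivity) (by positivity)]
  refine ENNReal.ofReal_le_ofReal ?_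
  have q2 := mul_le_mul_of_nonneg_right p2' hν
  have q3 := mul_le_mul_of_nonneg_right hδ hν
  linarith

end PMA

end HexObs
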