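import Pool.Agent.PMA.DenQ
import Pool.Agent.TSW.DenF

/-!
# PM (page 83R), row K6 (helper28): the densities of the windows of the turns, walks and closed words

* **`denV`** : for every weight `Φ : (Fin m → Bool) → [0, 1]` of the windows of `m` turns there is one density `ρ m Φ`, for the
  walks with `n ≥ R (m + 1)` steps and for the first `η0 n` letters of the closed words with `n ≥ R (m + 1)` letters.
-/

set_option autoImplicit false

open Finset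

open scoped ENNReal

namespace HexObs

namespace PMA

open TS SDN HexObs.SIM NTA TIP ARM ARM.T2 HexObs.NPR
open Pool.Agent.TSW (VW add1_VW bd_VW hitw hitw_rot hitw_VW saw_of_Pn lsc lsc_spec sc_far)
open Pool.Agent.NTS.Res (saw)
open NTF (sw)

/-- **the densities of the windows of the turns in the walks and in the closed words** -/
theorem denV (hX : ExR) (hT : T1) : ∃ ρ : (m : ℕ) → ((Fin m → Bool) → ℝ) → ℝ,
    (∀ (m : ℕ) (Φ : (Fin m → Bool) → ℝ), (∀ x, 0 ≤ Φ x ∧ Φ x ≤ 1) → 0 ≤ ρ m Φ ∧ ρ m Φ ≤ 2) ∧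
    (∀ ε : ℝ, 0 < ε → ∃ R : ℕ, ∀ (m : ℕ) (Φ : (Fin m → Bool) → ℝ), (∀ x, 0 ≤ Φ x ∧ Φ x ≤ 1) → ∀ n : ℕ, R * (m + 1) ≤ n →
      ∀ (P : (Fin n → Fin 3) → Prop) [DecidablePred P], (∀ s, P s ↔ ∃ a b : ℕ, a ≤ b ∧ b ≤ n ∧
        ε * n < |hitw s Φ a b - ρ m Φ * ((b : ℝ) - a)|) → (((saw n).filter P).card : ℝ) ≤ ε * (saw n).card) ∧
    ∀ ε : ℝ, 0 < ε → ∃ η0 : ℝ, 0 < η0 ∧ ∀ e : ℝ, 0 < e → ∃ R : ℕ, ∀ (m : ℕ) (Φ : (Fin m → Bool) → ℝ),
      (∀ x, 0 ≤ Φ x ∧ Φ x ≤ 1) → ∀ n : ℕ, R * (m + 1) ≤ n →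
      gf {L | L ∈ C0 n ∧ ∃ x y : ℕ, x ≤ y ∧ (y : ℝ) ≤ η0 * n ∧ e * n < |VW Φ (wd L x y) - ρ m Φ * ((y : ℝ) - x)|} ≤
        ENNReal.ofReal (ε * (n : ℝ) ^ (-(3 / 2) : ℝ)) := by
  obtain ⟨c, C, j0, ρ, hc, hC, h1, h2⟩ := hX 1 one_pos
  have hden : DenP ρ 1 := by
    obtain ⟨κ, hκ, C', -, hR⟩ := TIP.regZ_all
    obtain ⟨g1, g2⟩ := rootBN_all hT hκ hR
    exact denP_of (C' := C') hκ smL pMJ hT (exCs_of tipF2s) g1 g2 (fstX hT) hc hC h1
  have ee : ∀ (m : ℕ) (Φ : (Fin m → Bool) → ℝ) (u : List Bool),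
      ((m : ℝ) + 1) * (VW Φ u / (m + 1) + 1) = VW Φ u + (m + 1) := by
    intro m Φ u
    have hm : (0 : ℝ) < m + 1 := by positivity
    rw [mul_add, mul_div_cancel₀ _ hm.ne', mul_one]
  have hmn' : ∀ (ε : ℝ) (R1 m n : ℕ), 0 < ε → 4 / ε ≤ R1 → R1 * (m + 1) ≤ n → 2 * ((m : ℝ) + 1) ≤ ε / 2 * n := by
    intro ε R1 m n hε hR1 hn1
    have k1 : ((R1 * (m + 1) : ℕ) : ℝ) ≤ n := by exact_mod_cast hn1
    push_cast at k1
    have k2 : 4 / ε * ((m : ℝ) + 1) ≤ R1 * (m + 1) := mul_le_mul_of_nonneg_right hR1 (by positivity)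
    have k3 := mul_le_mul_of_nonneg_left (k2.trans k1) (show 0 ≤ ε / 2 by linarith)
    have k4 : ε / 2 * (4 / ε * ((m : ℝ) + 1)) = 2 * (m + 1) := by
      field_simp
      ring
    linarith
  refine ⟨fun m Φ => ρ (lsc m) (m + 1) (fun u => VW Φ u / (m + 1) + 1), fun m Φ hΦ => ?_, fun ε hε => ?_, fun ε hε => ?_⟩
  · have h3 := h1 (lsc m) (m + 1) (fun u => VW Φ u / (m + 1) + 1) (add1_VW hΦ) (by positivity) (lsc_spec m) (bd_VW hΦ)
    exact ⟨h3.1, by linarith [h3.2.1]⟩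
  · obtain ⟨d, hd⟩ := h2 (ε / 2) (by linarith)
    obtain ⟨R0, hR0⟩ := sc_far d
    obtain ⟨R1, hR1⟩ := exists_nat_ge (4 / ε)
    refine ⟨R0 + R1 + 1, fun m Φ hΦ n hn P _ hP => ?_⟩
    have hn0 : R0 * (m + 1) ≤ n := (Nat.mul_le_mul_right _ (by omega)).trans hn
    have hn1 : R1 * (m + 1) ≤ n := (Nat.mul_le_mul_right _ (by omega)).trans hn
    have hn2 : 0 < n := by
      have : 1 * (m + 1) ≤ n := (Nat.mul_le_mul_right _ (by omega)).trans hn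
      omega
    have hmn := hmn' ε R1 m n hε hR1 hn1
    obtain ⟨k, hsc, hk⟩ := hR0 m n hn0
    have h3 := hd (lsc m) (m + 1) (fun u => VW Φ u / (m + 1) + 1) (add1_VW hΦ) (by positivity) (lsc_spec m) (bd_VW hΦ)
      k n hsc hk
    simp only [ee] at h3
    refine (saw_of_Pn hn2 P (fun s => ?_) (fun t ht hPt => ?_) h3).trans ?_
    · rw [hP, hP]
      simp only [hitw_rot]
    · rw [hP] at hPt
      obtain ⟨a, b, hab, hb, hgt⟩ := hPt
      intro hcon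
      have k1 := hcon a b hab (by rw [ht.1]; exact hb)
      have k2 := hitw_VW hΦ ht.1 hab hb
      rw [abs_le] at k1 k2
      have k3 : |hitw (_root_.NTF.sw n t) Φ a b - ρ (lsc m) (m + 1) (fun u => VW Φ u / (m + 1) + 1) * ((b : ℝ) - a)| ≤ ε * n := by
        rw [abs_le]
        constructor
        · linarith [k1.1, k2.1]
        · linarith [k1.2, k2.2]
      linarith
    · exact mul_le_mul_of_nonneg_right (by linarith) (Nat.cast_nonneg _)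
  · obtain ⟨η0, hη0, hd⟩ := hden ε hε
    refine ⟨η0, hη0, fun e he => ?_⟩
    obtain ⟨d, hd⟩ := hd (e / 2) (by positivity)
    obtain ⟨R0, hR0⟩ := sc_far d
    obtain ⟨R1, hR1⟩ := exists_nat_ge (4 / e)
    refine ⟨R0 + R1 + 1, fun m Φ hΦ n hn => ?_⟩
    have hn0 : R0 * (m + 1) ≤ n := (Nat.mul_le_mul_right _ (by omega)).trans hn
    have hn1 : R1 * (m + 1) ≤ n := (Nat.mul_le_mul_right _ (by omega)).trans hn
    have hmn := hmn' e R1 m n he hR1 hn1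
    obtain ⟨k, hsc, hk⟩ := hR0 m n hn0
    have h3 := hd (lsc m) (m + 1) (fun u => VW Φ u / (m + 1) + 1) (add1_VW hΦ) (by positivity) (lsc_spec m) (bd_VW hΦ)
      k n hsc hk
    simp only [ee] at h3
    refine (gf_mono ?_).trans h3
    rintro L ⟨hL, x, y, hxy, hy, hgt⟩
    refine ⟨hL, x, y, hxy, hy, ?_⟩
    rw [lt_abs] at hgt ⊢
    rcases hgt with h4 | h4
    · left
      have : (0 : ℝ) ≤ m := Nat.cast_nonneg m
      have : (0 : ℝ) ≤ e * n := by positivity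
      linarith
    · right
      have : (0 : ℝ) ≤ m := Nat.cast_nonneg m
      linarith

end PMA

end HexObs
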