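import Pool.Agent.PMA.DenV

/-!
# PM, RMP: the densities of the windows of the letters in the uniform words and in the closed words, word form (helper28)

* **`denW`** : one density `ρ m Φ` for the words of the uniform walks (`TOG.Pn`) and for the closed words.
-/

set_option autoImplicit false

open Finset

open scoped ENNReal

namespace HexObs

namespace PMA

open TS SDN HexObs.SIM NTA TIP ARM ARM.T2 HexObs.NPR
open Pool.Agent.TSW (VW add1_VW bd_VW lsc lsc_spec sc_far)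

/-- **the densities of the windows of the letters, walks and closed words** -/
theorem denW (hX : ExR) (hT : T1) : ∃ ρ : (m : ℕ) → ((Fin m → Bool) → ℝ) → ℝ,
    (∀ (m : ℕ) (Φ : (Fin m → Bool) → ℝ), (∀ x, 0 ≤ Φ x ∧ Φ x ≤ 1) → 0 ≤ ρ m Φ ∧ ρ m Φ ≤ 2) ∧
    (∀ ε : ℝ, 0 < ε → ∃ R : ℕ, ∀ (m : ℕ) (Φ : (Fin m → Bool) → ℝ), (∀ x, 0 ≤ Φ x ∧ Φ x ≤ 1) → ∀ n : ℕ, R * (m + 1) ≤ n →
      TOG.Pn n {t | ∃ x y : ℕ, x ≤ y ∧ y ≤ n ∧ ε * n < |VW Φ (wd t x y) - ρ m Φ * ((y : ℝ) - x)|} ≤ ε) ∧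
    ∀ ε : ℝ, 0 < ε → ∃ η0 : ℝ, 0 < η0 ∧ ∀ e : ℝ, 0 < e → ∃ R : ℕ, ∀ (m : ℕ) (Φ : (Fin m → Bool) → ℝ),
      (∀ x, 0 ≤ Φ x ∧ Φ x ≤ 1) → ∀ n : ℕ, R * (m + 1) ≤ n →
      gf {L | L ∈ C0 n ∧ ∃ x y : ℕ, x ≤ y ∧ (y : ℝ) ≤ η0 * n ∧ e * n < |VW Φ (wd L x y) - ρ m Φ * ((y : ℝ) - x)|} ≤
        ENNReal.ofReal (ε * (n : ℝ) ^ (-(3 / 2) : ℝ)) := by
  obtain ⟨c, C, j0, ρ, hc, hC, h1, h2⟩ := hX 1 one_pos
  have hden : DenP ρ 1 := by
    obtain ⟨κ, hκ, C', -, hR⟩ := TIP.regZ_all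
    obtain ⟨g1, g2⟩ := rootBN_all hT hκ hR
    exact denP_of (C' := C') hκ smL pMJ hT (exCs_of tipF2s) g1 g2 (fstX hT) hc hC h1
  have ee : ∀ (m : ℕ) (Φ : (Fin m → Bool) → ℝ) (u : List Bool),
      ((m : ℝ) + 1) * (VW Φ u / (m + 1) + 1) = VW Φ u + (m + 1) := by
    intro m Φ u
    have hm : (0 : ℝ) < m + 1 := by positivity
    rw [mul_add, mul_div_cancel₀ _ hm.ne', mul_one]
  have hmn' : ∀ (ε : ℝ) (R1 m n : ℕ), 0 < ε → 4 / ε ≤ R1 → R1 * (m + 1) ≤ n → 2 * ((m : ℝ) + 1) ≤ ε / 2 * n := by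
    intro ε R1 m n hε hR1 hn1
    have k1 : ((R1 * (m + 1) : ℕ) : ℝ) ≤ n := by exact_mod_cast hn1
    push_cast at k1
    have k2 : 4 / ε * ((m : ℝ) + 1) ≤ R1 * (m + 1) := mul_le_mul_of_nonneg_right hR1 (by positivity)
    have k3 := mul_le_mul_of_nonneg_left (k2.trans k1) (show 0 ≤ ε / 2 by linarith)
    have k4 : ε / 2 * (4 / ε * ((m : ℝ) + 1)) = 2 * (m + 1) := by
      field_simp
      ring
    linarith
  have hcl : ∀ (e : ℝ) (m n : ℕ) (v r : ℝ), 2 * ((m : ℝ) + 1) ≤ e / 2 * n → 0 < e → e * n < |v - r| →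
      e / 2 * n < |v + (m + 1) - r| := by
    intro e m n v r hmn he hgt
    rw [lt_abs] at hgt ⊢
    rcases hgt with h4 | h4
    · left
      have : (0 : ℝ) ≤ m := Nat.cast_nonneg m
      have : (0 : ℝ) ≤ e * n := by positivity
      linarith
    · right
      have : (0 : ℝ) ≤ m := Nat.cast_nonneg m
      linarith
  refine ⟨fun m Φ => ρ (lsc m) (m + 1) (fun u => VW Φ u / (m + 1) + 1), fun m Φ hΦ => ?_, fun ε hε => ?_, fun ε hε => ?_⟩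
  · have h3 := h1 (lsc m) (m + 1) (fun u => VW Φ u / (m + 1) + 1) (add1_VW hΦ) (by positivity) (lsc_spec m) (bd_VW hΦ)
    exact ⟨h3.1, by linarith [h3.2.1]⟩
  · obtain ⟨d, hd⟩ := h2 (ε / 2) (by linarith)
    obtain ⟨R0, hR0⟩ := sc_far d
    obtain ⟨R1, hR1⟩ := exists_nat_ge (4 / ε)
    refine ⟨R0 + R1 + 1, fun m Φ hΦ n hn => ?_⟩
    have hn0 : R0 * (m + 1) ≤ n := (Nat.mul_le_mul_right _ (by omega)).trans hn
    have hn1 : R1 * (m + 1) ≤ n := (Nat.mul_le_mul_right _ (by omega)).trans hn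
    have hmn := hmn' ε R1 m n hε hR1 hn1
    obtain ⟨k, hsc, hk⟩ := hR0 m n hn0
    have h3 := hd (lsc m) (m + 1) (fun u => VW Φ u / (m + 1) + 1) (add1_VW hΦ) (by positivity) (lsc_spec m) (bd_VW hΦ)
      k n hsc hk
    simp only [ee] at h3
    refine (Pn_mono fun t ht hbad => ?_).trans (h3.trans (by linarith))
    obtain ⟨x, y, hxy, hy, hgt⟩ := hbad
    intro hcon
    have h4 := hcon x y hxy (by rw [ht.1]; exact hy)
    exact absurd h4 (not_le.2 (hcl ε m n _ _ hmn hε hgt))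
  · obtain ⟨η0, hη0, hd⟩ := hden ε hε
    refine ⟨η0, hη0, fun e he => ?_⟩
    obtain ⟨d, hd⟩ := hd (e / 2) (by positivity)
    obtain ⟨R0, hR0⟩ := sc_far d
    obtain ⟨R1, hR1⟩ := exists_nat_ge (4 / e)
    refine ⟨R0 + R1 + 1, fun m Φ hΦ n hn => ?_⟩
    have hn0 : R0 * (m + 1) ≤ n := (Nat.mul_le_mul_right _ (by omega)).trans hn
    have hn1 : R1 * (m + 1) ≤ n := (Nat.mul_le_mul_right _ (by omega)).trans hn
    have hmn := hmn' e R1 m n he hR1 hn1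
    obtain ⟨k, hsc, hk⟩ := hR0 m n hn0
    have h3 := hd (lsc m) (m + 1) (fun u => VW Φ u / (m + 1) + 1) (add1_VW hΦ) (by positivity) (lsc_spec m) (bd_VW hΦ)
      k n hsc hk
    simp only [ee] at h3
    refine (gf_mono ?_).trans h3
    rintro L ⟨hL, x, y, hxy, hy, hgt⟩
    exact ⟨hL, x, y, hxy, hy, hcl e m n _ _ hmn he hgt⟩

end PMA

end HexObs
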