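import Pool.Agent.PMA.PubDefs
import Pool.Agent.RMP.LimSi

/-!
# PM, limit form, row E (helper70, after helper6's RMP/LimSi): the sum over the window converges to the integral
-/

set_option autoImplicit false

open MeasureTheory Filter Topology
open scoped Classical

namespace Pool.Agent.PMA

open Pool.Agent.RMP.LimSi

theorem mem_wdw {n k : ℕ} {r : ℝ} : k ∈ wdw n r ↔ k ≤ n ∧ (1 - r ^ (4 / 3 : ℝ)) * n ≤ k := by
  unfold wdw
  rw [Finset.mem_filter, Finset.mem_range]
  constructor
  · rintro ⟨h1, h2⟩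
    exact ⟨by omega, h2⟩
  · rintro ⟨h1, h2⟩
    exact ⟨by omega, h2⟩

/-- **the sum over the window** -/
theorem wsum_lim {r M : ℝ} {φ : ℕ → ℕ} {f : ℕ → ℕ → ℝ} {g : ℝ → ℝ} (hr : 0 < r) (hr1 : r < 1)
    (hφ : Tendsto φ atTop atTop) (hf : ∀ i m, |f i m| ≤ M)
    (hg : ∀ x : ℝ, 1 - r ^ (4 / 3 : ℝ) < x → x < 1 → Tendsto (fun i => f i ⌊x * φ i⌋₊) atTop (𝓝 (g x))) :
    AEStronglyMeasurable g (volume.restrict (Set.Ioc (1 - r ^ (4 / 3 : ℝ)) 1)) ∧
      Tendsto (fun i => (∑ m ∈ wdw (φ i) r, f i m) / (φ i : ℝ)) atTop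
        (𝓝 (∫ x in (1 - r ^ (4 / 3 : ℝ))..1, g x)) := by
  obtain ⟨a, ha⟩ : ∃ a : ℝ, a = 1 - r ^ (4 / 3 : ℝ) := ⟨_, rfl⟩
  have ha0 : 0 ≤ a := by
    rw [ha]
    have := Real.rpow_le_one hr.le hr1.le (by norm_num : (0 : ℝ) ≤ 4 / 3)
    linarith
  have ha1 : a < 1 := by
    rw [ha]
    have := Real.rpow_pos_of_pos hr (4 / 3)
    linarith
  rw [← ha] at hg ⊢
  have hM : 0 ≤ M := (abs_nonneg _).trans (hf 0 0)
  have hφr : Tendsto (fun i => (φ i : ℝ)) atTop atTop := tendsto_natCast_atTop_atTop.comp hφ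
  have hne1 : ∀ᵐ x : ℝ, x ≠ 1 := by simp [ae_iff, measure_singleton]
  have hnea : ∀ᵐ x : ℝ, x ≠ a := by simp [ae_iff, measure_singleton]
  constructor
  · have h1 : ∀ i : ℕ, AEStronglyMeasurable (fun x : ℝ => f i ⌊x * φ i⌋₊) (volume.restrict (Set.Ioc a 1)) := by
      intro i
      have h1 : Measurable (fun x : ℝ => f i ⌊x * φ i⌋₊) :=
        (measurable_from_nat (f := f i)).comp (Nat.measurable_floor.comp (measurable_id.mul_const _))
      exact h1.aestronglyMeasurable
    have h2 : ∀ᵐ x : ℝ ∂(volume.restrict (Set.Ioc a 1)), Tendsto (fun i : ℕ => f i ⌊x * φ i⌋₊) atTop (𝓝 (g x)) := by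
      rw [ae_restrict_iff' measurableSet_Ioc]
      filter_upwards [hne1] with x hx hx2
      exact hg x hx2.1 (lt_of_le_of_ne hx2.2 hx)
    exact aestronglyMeasurable_of_tendsto_ae atTop h1 h2
  have e1 : (fun i => (∑ m ∈ wdw (φ i) r, f i m) / (φ i : ℝ)) =ᶠ[atTop]
      fun i => ∫ x, step (f i) (wdw (φ i) r) (φ i) x := by
    filter_upwards [hφ.eventually_gt_atTop 0] with i hi
    rw [step_int _ _ hi]
  have e2 : ∫ x in a..1, g x = ∫ x, (Set.Ioo a 1).indicator g x := by
    rw [intervalIntegral.integral_of_le ha1.le, integral_Ioc_eq_integral_Ioo, integral_indicator measurableSet_Ioo]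
  rw [e2]
  refine (tendsto_congr' e1).2 ?_
  refine tendsto_integral_filter_of_dominated_convergence
    (fun x => (Set.Icc (0 : ℝ) 2).indicator (fun _ => M) x) ?_ ?_ ?_ ?_
  · exact Eventually.of_forall fun i => (step_meas _ _ _).aestronglyMeasurable
  · filter_upwards [hφ.eventually_gt_atTop 0] with i hi
    refine Eventually.of_forall fun x => ?_
    have hi' : (0:ℝ) < φ i := by exact_mod_cast hi
    have hi1 : (1:ℝ) ≤ φ i := by exact_mod_cast hi
    rw [Real.norm_eq_abs, Set.indicator_apply]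
    split_ifs with hx
    · exact step_abs (hf i) _ hi x
    · rw [Set.mem_Icc, not_and_or, not_le, not_le] at hx
      rcases hx with hx | hx
      · rw [step_neg _ _ _ hx, abs_zero]
      · have hx0 : 0 ≤ x := by linarith
        rw [step_val _ _ hi hx0, if_neg, abs_zero]
        rw [mem_wdw]
        rintro ⟨h2, -⟩
        have h4 := Nat.lt_floor_add_one (x * φ i)
        have h5 : ((⌊x * φ i⌋₊ : ℕ) : ℝ) ≤ φ i := by exact_mod_cast h2
        nlinarith
  · exact (integrableOn_const (by simp)).integrable_indicator measurableSet_Icc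
  · filter_upwards [hne1, hnea] with x hx1 hxa
    rw [Set.indicator_apply]
    have hev : ∀ c : ℝ, 0 < c → ∀ᶠ i in atTop, 1 ≤ c * φ i := fun c hc =>
      (hφr.const_mul_atTop hc).eventually_ge_atTop 1
    split_ifs with hx
    · have hx0 : 0 ≤ x := by linarith [hx.1]
      refine (tendsto_congr' ?_).2 (hg x hx.1 hx.2)
      filter_upwards [hφ.eventually_gt_atTop 0, hev (x - a) (by linarith [hx.1])] with i hi h1
      have hi' : (0:ℝ) < φ i := by exact_mod_cast hi
      rw [step_val _ _ hi hx0, if_pos]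
      rw [mem_wdw]
      refine ⟨?_, ?_⟩
      · have h2 : (⌊x * φ i⌋₊ : ℝ) ≤ x * φ i := Nat.floor_le (by positivity)
        have h3 : x * φ i ≤ 1 * φ i := mul_le_mul_of_nonneg_right hx.2.le hi'.le
        have h4 : (⌊x * φ i⌋₊ : ℝ) ≤ φ i := by linarith
        exact_mod_cast h4
      · have h2 := Nat.lt_floor_add_one (x * φ i)
        rw [← ha]
        linarith
    · refine tendsto_const_nhds.congr' ?_
      rw [Set.mem_Ioo, not_and_or, not_lt, not_lt] at hx
      rcases hx with hx | hx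
      · have hxa' : x < a := lt_of_le_of_ne hx hxa
        filter_upwards [hφ.eventually_gt_atTop 0] with i hi
        have hi' : (0:ℝ) < φ i := by exact_mod_cast hi
        rcases lt_or_ge x 0 with h0 | h0
        · rw [step_neg _ _ _ h0]
        · rw [step_val _ _ hi h0, if_neg]
          rw [mem_wdw, ← ha]
          rintro ⟨-, h2⟩
          have h3 : (⌊x * φ i⌋₊ : ℝ) ≤ x * φ i := Nat.floor_le (by positivity)
          have h4 : x * φ i < a * φ i := mul_lt_mul_of_pos_right hxa' hi'
          linarith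
      · have hx1' : 1 < x := lt_of_le_of_ne hx (Ne.symm hx1)
        filter_upwards [hφ.eventually_gt_atTop 0, hev (x - 1) (by linarith)] with i hi h1
        have hi' : (0:ℝ) < φ i := by exact_mod_cast hi
        rw [step_val _ _ hi (by linarith), if_neg]
        rw [mem_wdw]
        rintro ⟨h2, -⟩
        have h3 : φ i + 1 ≤ ⌊x * φ i⌋₊ := by
          refine Nat.le_floor ?_
          push_cast
          linarith
        omega

end Pool.Agent.PMA
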