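import Pool.Agent.PMA.PubA
import Pool.Agent.SLW.PubY

/-!
# (PM): the public form from the form for words (helper41): **`pm_of : WPM → PTight → PM`**
-/

set_option autoImplicit false

open MeasureTheory Filter Topology Finset

open scoped Classical

namespace Pool.Agent.PMA

open Res Pool.Agent.NTS.Res

open HexObs hiding pos

open HexObs.TIW HexObs.POLP NTSF NTSF.Mg NTF Pool.Agent.TSW.BP HexObs.MCP

open Pool.Agent.IW.Res (mean)

/-! ### 1. Numbers -/

/-- changing the weights by a factor near 1 -/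
lemma ratio_cmp {I : Finset ℕ} {q x d : ℕ → ℝ} {δ : ℝ} (h0 : 0 ≤ δ) (h1 : δ ≤ 1 / 2) (hq : ∀ k ∈ I, |q k - 1| ≤ δ)
    (hx : ∀ k ∈ I, |x k| ≤ d k) : |(∑ k ∈ I, q k * x k) / (∑ k ∈ I, q k * d k) - (∑ k ∈ I, x k) / ∑ k ∈ I, d k| ≤ 4 * δ := by
  have hd : ∀ k ∈ I, 0 ≤ d k := fun k hk => (abs_nonneg _).trans (hx k hk)
  obtain ⟨D, hD⟩ : ∃ D, D = ∑ k ∈ I, d k := ⟨_, rfl⟩
  obtain ⟨E, hE⟩ : ∃ E, E = ∑ k ∈ I, q k * d k := ⟨_, rfl⟩
  obtain ⟨X, hX⟩ : ∃ X, X = ∑ k ∈ I, x k := ⟨_, rfl⟩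
  obtain ⟨Y, hY⟩ : ∃ Y, Y = ∑ k ∈ I, q k * x k := ⟨_, rfl⟩
  rw [← hD, ← hE, ← hX, ← hY]
  have hD0 : 0 ≤ D := hD ▸ sum_nonneg hd
  have e1 : |Y - X| ≤ δ * D := by
    rw [hY, hX, ← sum_sub_distrib, hD, mul_sum]
    refine (abs_sum_le_sum_abs _ _).trans (sum_le_sum fun k hk => ?_)
    have e : q k * x k - x k = (q k - 1) * x k := by ring
    rw [e, abs_mul]
    exact mul_le_mul (hq k hk) (hx k hk) (abs_nonneg _) h0
  have e2 : |E - D| ≤ δ * D := by
    rw [hE, hD, ← sum_sub_distrib, mul_sum]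
    refine (abs_sum_le_sum_abs _ _).trans (sum_le_sum fun k hk => ?_)
    have e : q k * d k - d k = (q k - 1) * d k := by ring
    rw [e, abs_mul, abs_of_nonneg (hd k hk)]
    exact mul_le_mul_of_nonneg_right (hq k hk) (hd k hk)
  have e3 : |X| ≤ D := by
    rw [hX, hD]
    exact (abs_sum_le_sum_abs _ _).trans (sum_le_sum hx)
  rcases hD0.eq_or_lt with h | h
  · rw [← h] at e1 e2 e3
    rw [mul_zero] at e1 e2
    have a1 : X = 0 := abs_nonpos_iff.1 e3
    have a2 : Y = 0 := by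
      have := abs_nonpos_iff.1 e1
      linarith
    rw [a1, a2, zero_div, zero_div, sub_zero, abs_zero]
    positivity
  · have hE1 := (abs_le.1 e2).1
    have hE2 : D / 2 ≤ E := by nlinarith
    have hE0 : 0 < E := by linarith
    have e4 : Y / E - X / D = (Y - X) / E + X / D * ((D - E) / E) := by
      field_simp
      ring
    rw [e4]
    have a1 : |(Y - X) / E| ≤ 2 * δ := by
      rw [abs_div, abs_of_pos hE0, div_le_iff₀ hE0]
      nlinarith
    have a2 : |X / D| ≤ 1 := by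
      rw [abs_div, abs_of_pos h, div_le_one h]
      exact e3
    have a3 : |(D - E) / E| ≤ 2 * δ := by
      rw [abs_div, abs_of_pos hE0, div_le_iff₀ hE0, abs_sub_comm]
      nlinarith
    calc |(Y - X) / E + X / D * ((D - E) / E)| ≤ |(Y - X) / E| + |X / D * ((D - E) / E)| := abs_add_le _ _
      _ ≤ 2 * δ + 1 * (2 * δ) := by
          refine add_le_add a1 ?_
          rw [abs_mul]
          exact mul_le_mul a2 a3 (abs_nonneg _) (by norm_num)
      _ = 4 * δ := by ring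

/-! ### 2. The cut-off of the size -/

/-- one if the norm is at least `K + 1`, zero if it is at most `K` -/
noncomputable def cutN (K : ℝ) (γ : C(unitInterval, ℂ)) : ℝ := min 1 (max 0 (‖γ‖ - K))

lemma cutN_nonneg (K : ℝ) (γ : C(unitInterval, ℂ)) : 0 ≤ cutN K γ := le_min (by norm_num) (le_max_left _ _)

lemma cutN_le (K : ℝ) (γ : C(unitInterval, ℂ)) : cutN K γ ≤ 1 := min_le_left _ _

lemma cutN_lip (K : ℝ) : LipschitzWith 1 (cutN K) := by
  refine LipschitzWith.of_dist_le_mul fun x y => ?_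
  rw [NNReal.coe_one, one_mul, Real.dist_eq]
  unfold cutN
  refine (abs_min_sub_min_le_max _ _ _ _).trans ?_
  rw [sub_self, abs_zero]
  refine max_le dist_nonneg ((abs_max_sub_max_le_max _ _ _ _).trans ?_)
  rw [sub_self, abs_zero]
  refine max_le dist_nonneg ?_
  have e : ‖x‖ - K - (‖y‖ - K) = ‖x‖ - ‖y‖ := by ring
  rw [e, dist_eq_norm]
  exact abs_norm_sub_norm_le x y

lemma cutN_zero {K : ℝ} {γ : C(unitInterval, ℂ)} (h : ‖γ‖ ≤ K) : cutN K γ = 0 := by
  unfold cutN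
  rw [max_eq_left (by linarith)]
  exact min_eq_right (by norm_num)

lemma cutN_one {K : ℝ} {γ : C(unitInterval, ℂ)} (h : K + 1 ≤ ‖γ‖) : cutN K γ = 1 := by
  unfold cutN
  rw [max_eq_right (by linarith)]
  exact min_eq_left (by linarith)

lemma norm_pT {c : ℂ} (hc : ‖c‖ = 1) {t : List Bool} {n : ℕ} (hn : 1 ≤ n) (ht : n ≤ t.length) {K : ℝ}
    (hK : ∀ i, i ≤ n → ‖JJ (vx oo up t i)‖ ≤ K * nr n) (hK0 : 0 ≤ K) : ‖pT c t n‖ ≤ K := by
  have p1 := nr_pos hn
  rw [pT_of_le ht, ContinuousMap.norm_le _ hK0]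
  intro u
  show ‖((nr n)⁻¹ : ℝ) • Tight.poly (cz c t) n u‖ ≤ K
  rw [norm_smul, Real.norm_eq_abs, abs_of_pos (inv_pos.2 p1), inv_mul_le_iff₀ p1]
  have h1 := poly_dist (z := cz c t) (z' := fun _ => 0) (n := n) (R := K * nr n) (fun k hk => by
    rw [sub_zero]
    unfold cz
    rw [norm_mul, hc, one_mul]
    exact hK k hk) u
  have h2 : Tight.poly (fun _ => (0 : ℂ)) n u = 0 := by
    show (0 : ℂ) + ∑ i ∈ range n, ((max 0 (min 1 ((u : ℝ) * n - i)) : ℝ) : ℂ) * (0 - 0) = 0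
    simp
  rw [h2, sub_zero] at h1
  linarith

lemma dist_smul2 (a b : ℝ) (γ : C(unitInterval, ℂ)) : dist (a • γ) (b • γ) ≤ |a - b| * ‖γ‖ := by
  refine (ContinuousMap.dist_le (mul_nonneg (abs_nonneg _) (norm_nonneg _))).2 fun u => ?_
  have e : dist ((a • γ) u) ((b • γ) u) = |a - b| * ‖γ u‖ := by
    show dist (a • γ u) (b • γ u) = _
    rw [dist_eq_norm, ← sub_smul, norm_smul, Real.norm_eq_abs]
  rw [e]
  exact mul_le_mul_of_nonneg_left (ContinuousMap.norm_coe_le_norm γ u) (abs_nonneg _)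

lemma f3_nonneg {F : C(unitInterval, ℂ) → ℝ} (hF : ∀ γ, 0 ≤ F γ) (k : ℕ) (t : List Bool) : 0 ≤ f3 F k t :=
  div_nonneg (sum_nonneg fun _ _ => hF _) (by norm_num)

lemma f3_abs {F : C(unitInterval, ℂ) → ℝ} {B : ℝ} (hF : ∀ γ, |F γ| ≤ B) (k : ℕ) (t : List Bool) : |f3 F k t| ≤ B := by
  unfold f3
  rw [abs_div, abs_of_pos (by norm_num : (0 : ℝ) < 3), div_le_iff₀ (by norm_num)]
  refine (abs_sum_le_sum_abs _ _).trans ((sum_le_sum fun a _ => hF _).trans (le_of_eq ?_))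
  rw [sum_const, card_univ, Fintype.card_fin, nsmul_eq_mul]
  push_cast
  ring

lemma f3_dist {F G H : C(unitInterval, ℂ) → ℝ} {k : ℕ} {t : List Bool} (h : ∀ γ, |F γ - G γ| ≤ H γ) :
    |f3 F k t - f3 G k t| ≤ f3 H k t := by
  unfold f3
  rw [← sub_div, ← sum_sub_distrib, abs_div, abs_of_pos (by norm_num : (0 : ℝ) < 3)]
  refine div_le_div_of_nonneg_right ?_ (by norm_num)
  exact (abs_sum_le_sum_abs _ _).trans (sum_le_sum fun a _ => h _)

lemma f3_lin (F : C(unitInterval, ℂ) → ℝ) (a b : ℝ) (k : ℕ) (t : List Bool) : f3 (fun γ => a + b * F γ) k t = a + b * f3 F k t := by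
  unfold f3
  rw [sum_add_distrib, ← mul_sum, sum_const, card_univ, Fintype.card_fin, nsmul_eq_mul]
  push_cast
  ring

/-- the size of the polygons -/
lemma cy_cut {ε K : ℝ} {n : ℕ} (hn : 3 ≤ n)
    (h : (((cyF (n + 1)).filter fun t => ∃ i, i ≤ n ∧ K * nr n < ‖JJ (vx oo up t i)‖).card : ℝ) ≤ ε * ((cyF (n + 1)).card : ℝ))
    (hε : 0 ≤ ε) : (∑ t ∈ cyF (n + 1), f3 (cutN (max K 0)) n t) / ((cyF (n + 1)).card : ℝ) ≤ ε := by
  rcases eq_or_ne ((cyF (n + 1)).card : ℝ) 0 with h0 | h0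
  · rw [h0, div_zero]
    exact hε
  · have hc : (0 : ℝ) < (cyF (n + 1)).card := lt_of_le_of_ne (Nat.cast_nonneg _) h0.symm
    rw [div_le_iff₀ hc]
    refine le_trans ?_ h
    rw [← sum_boole]
    refine sum_le_sum fun t ht => ?_
    have hl : n ≤ t.length := by
      have := ((Set.Finite.mem_toFinset _).1 ht).1
      omega
    by_cases h1 : ∃ i, i ≤ n ∧ K * nr n < ‖JJ (vx oo up t i)‖
    · rw [if_pos h1]
      refine (le_abs_self _).trans (f3_abs (fun γ => ?_) n t)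
      rw [abs_of_nonneg (cutN_nonneg _ _)]
      exact cutN_le _ _
    · rw [if_neg h1]
      push Not at h1
      have p1 := nr_pos (show 1 ≤ n by omega)
      unfold f3
      rw [sum_eq_zero fun a _ => cutN_zero (norm_pT (cr_norm a) (by omega) hl (fun i hi => (h1 i hi).trans
        (mul_le_mul_of_nonneg_right (le_max_left _ _) p1.le)) (le_max_right _ _)), zero_div]

/-! ### 3. The sums over the gap -/

/-- the sums in the weights of the walks -/
lemma gS_eq {n : ℕ} {r R : ℝ} (f : ℕ → List Bool → ℝ) (hc : ∀ k, (0 : ℝ) < cS k) :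
    gS n r R f = (cS n * xc ^ n) * ∑ k ∈ wdw n r, (cS k * xc ^ k / (cS n * xc ^ n)) * ((∑ t ∈ gapF k R, f k t) / cS k) := by
  unfold gS
  rw [mul_sum]
  refine sum_congr rfl fun k _ => ?_
  have h1 := (hc n).ne'
  have h2 := (hc k).ne'
  have h3 : (0 : ℝ) < xc ^ n := pow_pos xc_pos n
  field_simp

lemma cS_pos' (k : ℕ) : (0 : ℝ) < cS k := by
  rcases Nat.eq_zero_or_pos k with h | h
  · subst h
    have h1 : (([] : List Bool)) ∈ SawN 0 := ⟨rfl, fun _ _ _ => Set.mem_univ _, fun i j hij hj => by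
      rw [List.length_nil] at hj
      omega⟩
    have h2 : 0 < cS 0 := by
      unfold cS
      rw [Set.ncard_pos (PHWDict.SawN_fin 0)]
      exact ⟨_, h1⟩
    exact_mod_cast h2
  · have h3 := card_three (n := k) h
    have h4 : (2 : ℝ) * (saw k).card = 3 * cS k := by exact_mod_cast h3
    have h5 : (0 : ℝ) < (saw k).card := by exact_mod_cast (saw_nonempty k).card_pos
    linarith

/-- the ratio of the weights -/
lemma q_near {e : ℝ} (he : 0 < e) (he4 : e ≤ 1 / 4) {k n : ℕ} (hk : 1 ≤ k) (hkn : k ≤ n)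
    (h : |((saw n).card : ℝ) / (Real.sqrt (2 + Real.sqrt 2) ^ (n - k) * (saw k).card) - 1| ≤ e) :
    |cS k * xc ^ k / (cS n * xc ^ n) - 1| ≤ 2 * e := by
  have b1 : (2 : ℝ) * (saw k).card = 3 * cS k := by exact_mod_cast card_three (n := k) hk
  have b2 : (2 : ℝ) * (saw n).card = 3 * cS n := by exact_mod_cast card_three (n := n) (hk.trans hkn)
  have c1 := cS_pos' k
  have c2 := cS_pos' n
  have hx := xc_pos
  obtain ⟨q, hq⟩ : ∃ q : ℝ, q = ((saw n).card : ℝ) / (Real.sqrt (2 + Real.sqrt 2) ^ (n - k) * (saw k).card) := ⟨_, rfl⟩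
  rw [← hq] at h
  have hq1 := abs_le.1 h
  have hq0 : 0 < q := by linarith
  have e1 : cS k * xc ^ k / (cS n * xc ^ n) = 1 / q := by
    have h1 : ((saw n).card : ℝ) = 3 / 2 * cS n := by linarith
    have h2 : ((saw k).card : ℝ) = 3 / 2 * cS k := by linarith
    have h3 : xc ^ n = xc ^ (n - k) * xc ^ k := by
      rw [← pow_add]
      congr 1
      omega
    rw [hq, h1, h2, h3, ← xc_inv, div_pow, one_pow]
    have h4 : (0 : ℝ) < xc ^ (n - k) := pow_pos hx _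
    have h5 : (0 : ℝ) < xc ^ k := pow_pos hx _
    field_simp
  rw [e1]
  have e2 : 1 / q - 1 = (1 - q) / q := by
    field_simp
  rw [e2, abs_div, abs_of_pos hq0, div_le_iff₀ hq0, abs_sub_comm]
  nlinarith

/-- **the public form of (PM)** -/
theorem pm_of (hW : WPM) (hT : PTight) : PM := by
  intro ε hε
  obtain ⟨c0, C0, hc0, hsz⟩ := (oneFacts finE).sz
  have hsg : ∀ n, 1 ≤ n → c0 ≤ sg n ∧ sg n ≤ C0 := by
    intro n hn
    have p1 := nr_pos hn
    unfold sg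
    rw [le_div_iff₀ p1, div_le_iff₀ p1]
    exact hsz n hn
  obtain ⟨K, hK⟩ : ∃ K : ℝ, K = max 1 (max C0 (1 / c0)) := ⟨_, rfl⟩
  have hK1 : 1 ≤ K := hK ▸ le_max_left _ _
  have hKC : C0 ≤ K := hK ▸ (le_max_left _ _).trans (le_max_right _ _)
  have hKc : 1 / c0 ≤ K := hK ▸ (le_max_right _ _).trans (le_max_right _ _)
  have hK0 : 0 < K := by linarith
  obtain ⟨e, he⟩ : ∃ e : ℝ, e = min (1 / 4) (ε / (64 * K)) := ⟨_, rfl⟩
  have he0 : 0 < e := by
    rw [he]
    positivity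
  have he4 : e ≤ 1 / 4 := he ▸ min_le_left _ _
  have heK : 64 * K * e ≤ ε := by
    have h1 : e ≤ ε / (64 * K) := he ▸ min_le_right _ _
    rw [le_div_iff₀ (by positivity)] at h1
    linarith
  obtain ⟨r1, hr1, h1⟩ := hW e he0 K hK1
  obtain ⟨K2, h2⟩ := hT e he0
  obtain ⟨B, hB⟩ : ∃ B : ℝ, B = max K2 0 + 1 := ⟨_, rfl⟩
  have hB0 : 0 < B := by
    rw [hB]
    have := le_max_right K2 0
    linarith
  -- slow change
  obtain ⟨e', he'⟩ : ∃ e' : ℝ, e' = min e (e / (4 * K * B)) := ⟨_, rfl⟩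
  have he'0 : 0 < e' := by
    rw [he']
    positivity
  have he'e : e' ≤ e := he' ▸ min_le_left _ _
  have he'B : 4 * K * B * e' ≤ e := by
    have h3 : e' ≤ e / (4 * K * B) := he' ▸ min_le_right _ _
    rw [le_div_iff₀ (by positivity)] at h3
    linarith
  obtain ⟨δ1, hδ1, h3⟩ := slow_count e he0
  obtain ⟨δ2, hδ2, h4⟩ := slow_curves.1 e' he'0
  obtain ⟨δ, hδ⟩ : ∃ δ : ℝ, δ = min (min (δ1 / 2) (δ2 / 2)) (min (1 / 2) e') := ⟨_, rfl⟩
  have hδ0 : 0 < δ := by
    rw [hδ]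
    positivity
  have hδa : δ ≤ δ1 / 2 := hδ ▸ (min_le_left _ _).trans (min_le_left _ _)
  have hδb : δ ≤ δ2 / 2 := hδ ▸ (min_le_left _ _).trans (min_le_right _ _)
  have hδc : δ ≤ 1 / 2 := hδ ▸ (min_le_right _ _).trans (min_le_left _ _)
  have hδd : δ ≤ e' := hδ ▸ (min_le_right _ _).trans (min_le_right _ _)
  refine ⟨min r1 (δ ^ (3 / 4 : ℝ)), by positivity, fun r hr hr0 => ?_⟩
  have hrr1 : r ≤ r1 := hr0.trans (min_le_left _ _)
  have hrδ : r ^ (4 / 3 : ℝ) ≤ δ := by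
    have a1 : r ≤ δ ^ (3 / 4 : ℝ) := hr0.trans (min_le_right _ _)
    calc r ^ (4 / 3 : ℝ) ≤ (δ ^ (3 / 4 : ℝ)) ^ (4 / 3 : ℝ) := Real.rpow_le_rpow hr.le a1 (by norm_num)
      _ = δ := by
          rw [← Real.rpow_mul hδ0.le]
          norm_num
  have hr43 : 0 < r ^ (4 / 3 : ℝ) := Real.rpow_pos_of_pos hr _
  obtain ⟨n1, h5⟩ := h1 r hr hrr1
  obtain ⟨n2, hn2⟩ := exists_nat_ge (2 / δ1 + 2 / δ2)
  refine ⟨max (max n1 3) n2, fun n hn ho F hF hL hev => ?_⟩
  have hnn1 : n1 ≤ n := (le_max_left _ _).trans ((le_max_left _ _).trans hn)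
  have hn3 : 3 ≤ n := (le_max_right _ _).trans ((le_max_left _ _).trans hn)
  have hn2' : (n2 : ℝ) ≤ n := by exact_mod_cast (le_max_right _ _).trans hn
  have hnd1 : 2 / δ1 ≤ n := by
    have : 0 < 2 / δ2 := by positivity
    linarith
  have hnd2 : 2 / δ2 ≤ n := by
    have : 0 < 2 / δ1 := by positivity
    linarith
  have hn1 : 1 ≤ n := by omega
  have hnR : (0 : ℝ) < n := by exact_mod_cast hn1
  have psn := sg_pos hn1
  -- the numbers of the steps
  have hI : ∀ k ∈ wdw n r, k ≤ n ∧ (1 - r ^ (4 / 3 : ℝ)) * n ≤ k ∧ (n : ℝ) / 2 ≤ k ∧ 1 ≤ k ∧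
      (((n - k : ℕ) : ℕ) : ℝ) ≤ 2 * δ * k := by
    intro k hk
    unfold wdw at hk
    rw [mem_filter, mem_range] at hk
    have a1 : k ≤ n := by omega
    have a2 : (n : ℝ) / 2 ≤ k := by
      have := hk.2
      nlinarith
    have a3 : 1 ≤ k := by
      have h6 : (0 : ℝ) < k := by linarith
      exact_mod_cast h6
    refine ⟨a1, hk.2, a2, a3, ?_⟩
    rw [Nat.cast_sub a1]
    have := hk.2
    have hh : r ^ (4 / 3 : ℝ) * n ≤ δ * n := mul_le_mul_of_nonneg_right hrδ hnR.le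
    nlinarith
  have hcnt : ∀ k ∈ wdw n r, |cS k * xc ^ k / (cS n * xc ^ n) - 1| ≤ 2 * e := by
    intro k hk
    obtain ⟨a1, a2, a3, a4, a5⟩ := hI k hk
    refine q_near he0 he4 a4 a1 ?_
    have kp : (0 : ℝ) < k := by exact_mod_cast a4
    have h6 := h3 k (n - k) (by
      rw [div_le_iff₀ hδ1]
      rw [div_le_iff₀ hδ1] at hnd1
      nlinarith) (a5.trans (mul_le_mul_of_nonneg_right (by linarith) kp.le))
    rw [show k + (n - k) = n by omega] at h6
    exact h6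
  have hsk : ∀ k ∈ wdw n r, |(sg k)⁻¹ - (sg n)⁻¹| ≤ 4 * K * e' := by
    intro k hk
    obtain ⟨a1, a2, a3, a4, a5⟩ := hI k hk
    have kp : (0 : ℝ) < k := by exact_mod_cast a4
    have h6 := (h4 k (n - k) (by
      rw [div_le_iff₀ hδ2]
      rw [div_le_iff₀ hδ2] at hnd2
      nlinarith) (a5.trans (mul_le_mul_of_nonneg_right (by linarith) kp.le))).1
    rw [show k + (n - k) = n by omega] at h6
    obtain ⟨x, hx⟩ : ∃ x : ℝ, x = size n / size k := ⟨_, rfl⟩
    obtain ⟨y, hy⟩ : ∃ y : ℝ, y = nr k / nr n := ⟨_, rfl⟩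
    have p1 := nr_pos hn1
    have p2 := nr_pos a4
    have p3 := size_pos hn1
    have p4 := size_pos a4
    have e1 : (sg k)⁻¹ = (sg n)⁻¹ * (x * y) := by
      unfold sg
      rw [hx, hy]
      field_simp
    rw [← hx] at h6
    have hy1 : y ≤ 1 := by
      rw [hy, div_le_one p1]
      unfold nr
      exact Real.rpow_le_rpow (Nat.cast_nonneg _) (by exact_mod_cast a1) (by norm_num)
    have hy0 : 0 < y := by
      rw [hy]
      positivity
    have hy2 : 1 - δ ≤ y := by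
      have h7 : y = ((k : ℝ) / n) ^ (3 / 4 : ℝ) := by
        rw [hy]
        unfold nr
        rw [Real.div_rpow (Nat.cast_nonneg _) (Nat.cast_nonneg _)]
      have h8 : (k : ℝ) / n ≤ 1 := by
        rw [div_le_one hnR]
        exact_mod_cast a1
      have h9 : (k : ℝ) / n ≤ y := by
        rw [h7]
        conv_lhs => rw [← Real.rpow_one ((k : ℝ) / n)]
        exact Real.rpow_le_rpow_of_exponent_ge (by positivity) h8 (by norm_num)
      have h10 : 1 - δ ≤ (k : ℝ) / n := by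
        rw [le_div_iff₀ hnR]
        nlinarith
      linarith
    have hx1 := abs_le.1 h6
    have h7 : |x * y - 1| ≤ 4 * e' := by
      have e2 : x * y - 1 = (x - 1) * y + (y - 1) := by ring
      rw [e2]
      have b1 : |(x - 1) * y| ≤ e' := by
        rw [abs_mul, abs_of_pos hy0]
        calc |x - 1| * y ≤ e' * 1 := mul_le_mul h6 hy1 hy0.le he'0.le
          _ = e' := mul_one _
      have b2 : |y - 1| ≤ e' := by
        rw [abs_sub_comm, abs_of_nonneg (by linarith)]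
        linarith
      exact (abs_add_le _ _).trans (by linarith)
    rw [e1]
    have e3 : (sg n)⁻¹ * (x * y) - (sg n)⁻¹ = (sg n)⁻¹ * (x * y - 1) := by ring
    rw [e3, abs_mul, abs_of_pos (inv_pos.2 psn)]
    have h8 : (sg n)⁻¹ ≤ K := by
      refine le_trans ?_ hKc
      rw [← one_div]
      exact one_div_le_one_div_of_le hc0 (hsg n hn1).1
    calc (sg n)⁻¹ * |x * y - 1| ≤ K * (4 * e') := mul_le_mul h8 h7 (abs_nonneg _) hK0.le
      _ = 4 * K * e' := by ring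
  -- the radius
  obtain ⟨ρ, hρ⟩ : ∃ ρ : ℝ, ρ = r * sg n := ⟨_, rfl⟩
  have hR : r * size n = ρ * nr n := by
    have p1 := nr_pos hn1
    rw [hρ]
    unfold sg
    field_simp
  have hρ1 : r / K ≤ ρ := by
    rw [hρ, div_le_iff₀ hK0, mul_assoc]
    have h6 : 1 ≤ sg n * K := by
      have h7 := (hsg n hn1).1
      have h8 : 1 ≤ K * c0 := by
        rw [div_le_iff₀ hc0] at hKc
        exact hKc
      nlinarith
    nlinarith
  have hρ2 : ρ ≤ K * r := by
    rw [hρ, mul_comm K r]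
    exact mul_le_mul_of_nonneg_left ((hsg n hn1).2.trans hKC) hr.le
  have h6 := h5 n hnn1 ho ρ hρ1 hρ2
  rw [hR]
  obtain ⟨R, hRR⟩ : ∃ R : ℝ, R = ρ * nr n := ⟨_, rfl⟩
  rw [← hRR] at h6 ⊢
  -- the functional in the scaling of n
  obtain ⟨G, hG⟩ : ∃ G : C(unitInterval, ℂ) → ℝ, G = fun γ => F (((sg n)⁻¹ : ℝ) • γ) := ⟨_, rfl⟩
  have hsn : (sg n)⁻¹ ≤ K := by
    refine le_trans ?_ hKc
    rw [← one_div]
    exact one_div_le_one_div_of_le hc0 (hsg n hn1).1
  have hG1 : ∀ γ, |K⁻¹ * G γ| ≤ 1 := by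
    intro γ
    rw [abs_mul, abs_of_pos (inv_pos.2 hK0), hG]
    calc K⁻¹ * |F (((sg n)⁻¹ : ℝ) • γ)| ≤ 1 * 1 :=
          mul_le_mul (inv_le_one_of_one_le₀ hK1) (hF _) (abs_nonneg _) (by norm_num)
      _ = 1 := by norm_num
  have hGL : LipschitzWith 1 (fun γ => K⁻¹ * G γ) := by
    refine LipschitzWith.of_dist_le_mul fun x y => ?_
    rw [NNReal.coe_one, one_mul, Real.dist_eq, ← mul_sub, abs_mul, abs_of_pos (inv_pos.2 hK0), inv_mul_le_iff₀ hK0, hG]
    have h7 := hL.dist_le_mul (((sg n)⁻¹ : ℝ) • x) (((sg n)⁻¹ : ℝ) • y)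
    rw [NNReal.coe_one, one_mul, Real.dist_eq] at h7
    refine h7.trans ((dist_smul_le (inv_pos.2 psn).le _ _).trans ?_)
    exact mul_le_mul_of_nonneg_right hsn dist_nonneg
  have hA := h6 (fun γ => K⁻¹ * G γ) hG1 hGL fun γ => by
    rw [hG]
    show K⁻¹ * F (((sg n)⁻¹ : ℝ) • -γ) = K⁻¹ * F (((sg n)⁻¹ : ℝ) • γ)
    rw [smul_neg, hev]
  have hH := h6 (cutN (max K2 0)) (fun γ => by
    rw [abs_of_nonneg (cutN_nonneg _ _)]
    exact cutN_le _ _) (cutN_lip _) fun γ => by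
    unfold cutN
    rw [norm_neg]
  have hC := cy_cut hn3 (h2 n hn3 ho) he0.le
  -- ratios
  obtain ⟨rat, hrat⟩ : ∃ rat : (ℕ → List Bool → ℝ) → ℝ, rat = fun f : ℕ → List Bool → ℝ =>
    (∑ k ∈ wdw n r, (∑ t ∈ gapF k R, f k t) / (cS k : ℝ)) / ∑ k ∈ wdw n r, ((gapF k R).card : ℝ) / (cS k : ℝ) := ⟨_, rfl⟩
  have hcmp : ∀ f : ℕ → List Bool → ℝ, (∀ k t, |f k t| ≤ 1) →
      |gS n r R f / gS n r R (fun _ _ => 1) - rat f| ≤ 8 * e := by
    intro f hf
    have hW0 : (cS n * xc ^ n : ℝ) ≠ 0 := (mul_pos (cS_pos' n) (pow_pos xc_pos n)).ne'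
    rw [gS_eq f cS_pos', gS_eq (fun _ _ => 1) cS_pos', mul_div_mul_left _ _ hW0, hrat]
    simp only [sum_const, nsmul_eq_mul, mul_one]
    have h7 := ratio_cmp (I := wdw n r) (q := fun k => cS k * xc ^ k / (cS n * xc ^ n))
      (x := fun k => (∑ t ∈ gapF k R, f k t) / cS k) (d := fun k => ((gapF k R).card : ℝ) / cS k) (δ := 2 * e)
      (by positivity) (by linarith) hcnt (fun k _ => by
        rw [abs_div, abs_of_pos (cS_pos' k)]
        refine div_le_div_of_nonneg_right ?_ (cS_pos' k).le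
        refine (abs_sum_le_sum_abs _ _).trans ((sum_le_sum fun t _ => hf k t).trans (le_of_eq ?_))
        rw [sum_const, nsmul_eq_mul, mul_one])
    refine h7.trans (by linarith)
  -- the two public means
  have hP := pmean_words hn3 ho F
  rw [← hG] at hP
  have hQ : cmean (wdw n r) R F = rat fun k t => f3 (fun γ => F (((sg k)⁻¹ : ℝ) • γ)) k t := by
    unfold cmean
    rw [hrat]
    congr 1
    · exact sum_congr rfl fun k hk => near_words (hI k hk).2.2.2.1 R F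
    · exact sum_congr rfl fun k hk => near_card (hI k hk).2.2.2.1 R
  -- the change of the scaling
  have hdiff : |rat (fun k t => f3 (fun γ => F (((sg k)⁻¹ : ℝ) • γ)) k t) - rat (fun k t => f3 G k t)| ≤
      e + 2 * rat (fun k t => f3 (cutN (max K2 0)) k t) := by
    obtain ⟨D, hD⟩ : ∃ D : ℝ, D = ∑ k ∈ wdw n r, ((gapF k R).card : ℝ) / cS k := ⟨_, rfl⟩
    have hD0 : 0 ≤ D := by
      rw [hD]
      exact sum_nonneg fun k _ => div_nonneg (Nat.cast_nonneg _) (cS_pos' k).le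
    rw [hrat]
    simp only []
    rw [← hD]
    have hstep : ∀ k ∈ wdw n r, ∀ t, |f3 (fun γ => F (((sg k)⁻¹ : ℝ) • γ)) k t - f3 G k t| ≤
        e + 2 * f3 (cutN (max K2 0)) k t := by
      intro k hk t
      rw [← f3_lin]
      refine f3_dist fun γ => ?_
      rw [hG]
      show |F (((sg k)⁻¹ : ℝ) • γ) - F (((sg n)⁻¹ : ℝ) • γ)| ≤ _
      have a1 := cutN_nonneg (max K2 0) γ
      rcases le_or_gt (‖γ‖) B with h7 | h7
      · have a2 := hL.dist_le_mul (((sg k)⁻¹ : ℝ) • γ) (((sg n)⁻¹ : ℝ) • γ)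
        rw [NNReal.coe_one, one_mul, Real.dist_eq] at a2
        have a5 := dist_smul2 (sg k)⁻¹ (sg n)⁻¹ γ
        have a3 : |(sg k)⁻¹ - (sg n)⁻¹| * ‖γ‖ ≤ 4 * K * e' * B :=
          mul_le_mul (hsk k hk) h7 (norm_nonneg _) (by positivity)
        have a4 : 4 * K * e' * B ≤ e := by linarith
        linarith
      · have a2 : cutN (max K2 0) γ = 1 := cutN_one (by
          rw [hB] at h7
          exact h7.le)
        rw [a2]
        have b1 := abs_le.1 (hF (((sg k)⁻¹ : ℝ) • γ))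
        have b2 := abs_le.1 (hF (((sg n)⁻¹ : ℝ) • γ))
        rw [abs_le]
        constructor <;> linarith [b1.1, b1.2, b2.1, b2.2]
    rcases hD0.eq_or_lt with h0 | h0
    · rw [← h0]
      simp only [div_zero, sub_zero, abs_zero, mul_zero, add_zero]
      exact he0.le
    · rw [← sub_div, abs_div, abs_of_pos h0, div_le_iff₀ h0]
      have e4 : (e + 2 * ((∑ k ∈ wdw n r, (∑ t ∈ gapF k R, f3 (cutN (max K2 0)) k t) / cS k) / D)) * D =
          e * D + 2 * ∑ k ∈ wdw n r, (∑ t ∈ gapF k R, f3 (cutN (max K2 0)) k t) / cS k := by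
        field_simp
      rw [e4, ← sum_sub_distrib, hD, mul_sum, mul_sum, ← sum_add_distrib]
      refine (abs_sum_le_sum_abs _ _).trans (sum_le_sum fun k hk => ?_)
      rw [← sub_div, abs_div, abs_of_pos (cS_pos' k), ← mul_div_assoc, ← mul_div_assoc, ← add_div]
      refine div_le_div_of_nonneg_right ?_ (cS_pos' k).le
      rw [← sum_sub_distrib]
      refine (abs_sum_le_sum_abs _ _).trans ((sum_le_sum fun t _ => hstep k hk t).trans (le_of_eq ?_))
      rw [sum_add_distrib, sum_const, nsmul_eq_mul, ← mul_sum, mul_comm e]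
  -- the end
  have k1 := hcmp (fun k t => f3 (fun γ => K⁻¹ * G γ) k t) fun k t => f3_abs hG1 k t
  have k2 := hcmp (fun k t => f3 (cutN (max K2 0)) k t) fun k t => f3_abs (fun γ => by
    rw [abs_of_nonneg (cutN_nonneg _ _)]
    exact cutN_le _ _) k t
  have hlin : ∀ (k : ℕ) (t : List Bool), f3 (fun γ => K⁻¹ * G γ) k t = K⁻¹ * f3 G k t := by
    intro k t
    have h7 := f3_lin G 0 K⁻¹ k t
    simp only [zero_add] at h7
    exact h7
  have hratG : rat (fun k t => f3 (fun γ => K⁻¹ * G γ) k t) = K⁻¹ * rat (fun k t => f3 G k t) := by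
    rw [hrat]
    simp only [hlin]
    rw [← mul_div_assoc]
    congr 1
    rw [mul_sum]
    refine sum_congr rfl fun k _ => ?_
    rw [← mul_sum, mul_div_assoc]
  have hcyG : (∑ t ∈ cyF (n + 1), f3 (fun γ => K⁻¹ * G γ) n t) / ((cyF (n + 1)).card : ℝ) = K⁻¹ * pmean n F := by
    rw [hP]
    simp only [hlin]
    rw [← mul_sum, mul_div_assoc]
  rw [hratG] at k1
  rw [hcyG] at hA
  have k3 : |K⁻¹ * rat (fun k t => f3 G k t) - K⁻¹ * pmean n F| ≤ 9 * e := by
    have b1 := abs_le.1 k1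
    have b2 := abs_le.1 hA
    rw [abs_le]
    constructor <;> linarith [b1.1, b1.2, b2.1, b2.2]
  have k4 : |rat (fun k t => f3 G k t) - pmean n F| ≤ 9 * K * e := by
    rw [← mul_sub, abs_mul, abs_of_pos (inv_pos.2 hK0), inv_mul_le_iff₀ hK0] at k3
    linarith
  have k5 : rat (fun k t => f3 (cutN (max K2 0)) k t) ≤ 10 * e := by
    have b1 := abs_le.1 k2
    have b2 := abs_le.1 hH
    linarith [b1.1, b1.2, b2.1, b2.2]
  rw [hQ]
  have k6 := abs_le.1 hdiff
  have k7 := abs_le.1 k4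
  have k8 : 9 * K * e + (e + 2 * (10 * e)) ≤ ε := by nlinarith
  rw [abs_le]
  constructor <;> linarith [k6.1, k6.2, k7.1, k7.2]

end Pool.Agent.PMA
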