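import Pool.Agent.PMA.LowF
import Pool.Agent.PMA.PubB
import Pool.Agent.TPC.AN
import Pool.Agent.TPC.XUp
import Pool.Agent.TPC.XLow

/-!
# (PM) in the limit: the walks whose ends are close, from below (helper58)

* `near_low`: the probability that the walk with `m` steps ends at a distance at most `r * size n` of its start is at least `c`,
  for all `m` in the window of `n`, with `c` depending on `r` only;
* **`near_pos`**: the sum over the window.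
-/

set_option autoImplicit false

open Finset

open scoped Classical ENNReal

namespace Pool.Agent.PMA

open Res Pool.Agent.NTS.Res

open HexObs hiding pos

open HexObs.TIW HexObs.POLP HexObs.ARM HexObs.SDN NTSF NTSF.Mg NTF Pool.Agent.TSW.BP

lemma nrN_large (C : ℝ) : ∃ n0 : ℕ, ∀ n : ℕ, n0 ≤ n → C ≤ NTSF.Mg.nr n := by
  have h1 : Filter.Tendsto (fun n : ℕ => (n : ℝ) ^ (3 / 4 : ℝ)) Filter.atTop Filter.atTop :=
    (tendsto_rpow_atTop (by norm_num)).comp tendsto_natCast_atTop_atTop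
  obtain ⟨n0, h⟩ := Filter.eventually_atTop.1 (h1.eventually_ge_atTop C)
  exact ⟨n0, fun n hn => h n hn⟩

lemma mlN_eq (k : ℕ) : ml k = ((2 : ℝ) ^ k) ^ (4 / 3 : ℝ) := by
  unfold ml
  rw [← Real.rpow_natCast, ← Real.rpow_mul (by norm_num)]
  congr 1
  ring

/-- the number of the walks, in the critical weights, from above -/
lemma cS_up : ∃ C : ℝ, 0 < C ∧ ∀ n : ℕ, 1 ≤ n → (cS n : ℝ) * xc ^ n ≤ C * (n : ℝ) ^ (11 / 32 : ℝ) := by
  obtain ⟨c, C, hc, hC, h⟩ := TPC.an_const TPC.xUp TPC.xLow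
  have hx := xc_pos
  have hmu : muB = 1 / xc := le_antisymm muB_le le_muB
  refine ⟨C, hC, fun n hn => ?_⟩
  have h1 : (2 : ℝ) * aB n = 3 * cS n := by exact_mod_cast aB_eq hn
  have h2 : (0 : ℝ) ≤ cS n := Nat.cast_nonneg _
  have h3 : muB ^ n * xc ^ n = 1 := by
    rw [hmu, ← mul_pow, one_div, inv_mul_cancel₀ hx.ne', one_pow]
  have hxn : 0 < xc ^ n := by positivity
  calc (cS n : ℝ) * xc ^ n ≤ (aB n : ℝ) * xc ^ n := mul_le_mul_of_nonneg_right (by linarith) hxn.le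
    _ ≤ C * (muB ^ n * (n : ℝ) ^ ((11 : ℝ) / 32)) * xc ^ n := mul_le_mul_of_nonneg_right (h n hn).2 hxn.le
    _ = C * (n : ℝ) ^ ((11 : ℝ) / 32) * (muB ^ n * xc ^ n) := by ring
    _ = _ := by rw [h3, mul_one]

/-- the words of the gap in the critical weights -/
lemma gap_mass {k j : ℕ} {R : ℝ} (h : (2 : ℝ) ^ j ≤ R) :
    gf {L | L ∈ SA ∧ L.length = k ∧ TIW.hn (TIW.en L) ≤ 2 ^ j} ≤ ENNReal.ofReal (((gapF k R).card : ℝ) * xc ^ k) := by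
  have h1 : {L : List Bool | L ∈ SA ∧ L.length = k ∧ TIW.hn (TIW.en L) ≤ 2 ^ j} ⊆ (↑(gapF k R) : Set (List Bool)) := by
    rintro L ⟨g1, g2, g3⟩
    rw [mem_coe]
    unfold gapF
    rw [mem_filter, TIW.mem_sawF]
    refine ⟨⟨g2, g1⟩, ?_⟩
    have g5 := NTSF.Mg.JJ_le_hn (TIW.en L)
    have g6 : ((TIW.hn (TIW.en L) : ℤ) : ℝ) ≤ 2 ^ j := by exact_mod_cast g3
    have g7 : vx oo up L k = TIW.en L := by
      unfold TIW.en
      rw [g2]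
    rw [g7]
    linarith
  refine (gf_mono h1).trans (le_of_eq ?_)
  rw [gf_finset]
  congr 1
  have h2 : ∀ t ∈ gapF k R, xc ^ t.length = xc ^ k := by
    intro t ht
    unfold gapF at ht
    rw [mem_filter, TIW.mem_sawF] at ht
    rw [ht.1.1]
  rw [sum_congr rfl h2, sum_const, nsmul_eq_mul]

/-- **a walk of the window is close with a positive probability** -/
theorem near_low : ∃ r0 : ℝ, 0 < r0 ∧ r0 ≤ 1 / 2 ∧ ∀ r : ℝ, 0 < r → r ≤ r0 → ∃ (c : ℝ) (n0 : ℕ), 0 < c ∧ ∀ n : ℕ, n0 ≤ n →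
    ∀ m ∈ wdw n r, c ≤ ((near m (r * size n)).card : ℝ) / ((saw m).card : ℝ) := by
  obtain ⟨c0, C0, hc0, hsz⟩ := (oneFacts finE).sz
  obtain ⟨C, hC, hcs⟩ := cS_up
  obtain ⟨c1, b0, hc1, hlow⟩ := HexObs.PMA.k4len
  -- the smallness of r
  obtain ⟨q0, hq0⟩ : ∃ q0 : ℝ, q0 = 1 / 2 / 2 ^ b0 := ⟨_, rfl⟩
  have hq00 : 0 < q0 := by
    rw [hq0]
    positivity
  refine ⟨min (1 / 2) (q0 ^ (3 / 4 : ℝ) / c0), lt_min (by norm_num) (by positivity), min_le_left _ _, fun r hr hr0 => ?_⟩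
  have hr2 : r ≤ 1 / 2 := hr0.trans (min_le_left _ _)
  have hrc : c0 * r ≤ q0 ^ (3 / 4 : ℝ) := by
    have h1 : r ≤ q0 ^ (3 / 4 : ℝ) / c0 := hr0.trans (min_le_right _ _)
    rw [le_div_iff₀ hc0] at h1
    linarith
  obtain ⟨n1, hn1⟩ := nrN_large (2 ^ (b0 + 1) / (c0 * r))
  obtain ⟨cc, hcc⟩ : ∃ cc : ℝ, cc = c1 * (c0 * r / 2) ^ (59 / 24 : ℝ) / C := ⟨_, rfl⟩
  have hcc0 : 0 < cc := by
    rw [hcc]
    positivity
  refine ⟨cc, n1 + 1, hcc0, fun n hn m hm => ?_⟩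
  have hnp : (0 : ℝ) < n := by
    have : 0 < n := by omega
    exact_mod_cast this
  have hnr := hn1 n (by omega)
  rw [div_le_iff₀ (by positivity)] at hnr
  obtain ⟨R, hR⟩ : ∃ R : ℝ, R = NTSF.Mg.nr n := ⟨_, rfl⟩
  rw [← hR] at hnr
  have hR0 : 0 < R := by
    rw [hR]
    exact nr_pos (by omega)
  have hRn : R ^ (4 / 3 : ℝ) = n := by
    rw [hR]
    unfold NTSF.Mg.nr
    rw [← Real.rpow_mul hnp.le]
    norm_num
  -- the window
  have hm' : m ≤ n ∧ (1 - r ^ (4 / 3 : ℝ)) * n ≤ m := by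
    unfold wdw at hm
    rw [mem_filter, mem_range, Nat.lt_succ_iff] at hm
    exact hm
  have hq : r ^ (4 / 3 : ℝ) ≤ 1 / 2 := by
    calc r ^ (4 / 3 : ℝ) ≤ r ^ (1 : ℝ) := Real.rpow_le_rpow_of_exponent_ge hr (by linarith) (by norm_num)
      _ = r := Real.rpow_one r
      _ ≤ 1 / 2 := hr2
  have hmn : (n : ℝ) / 2 ≤ m := by
    have h1 := mul_le_mul_of_nonneg_right hq hnp.le
    linarith [hm'.2]
  have hmp : (0 : ℝ) < m := by linarith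
  have hm1 : 1 ≤ m := by
    have : 0 < m := by exact_mod_cast hmp
    omega
  have hmn' : (m : ℝ) ≤ n := by exact_mod_cast hm'.1
  -- the level
  have hx1 : (1 : ℝ) ≤ c0 * r * R := by
    have : (1 : ℝ) ≤ 2 ^ (b0 + 1) := one_le_pow₀ (by norm_num)
    linarith
  obtain ⟨j, hj1, hj2⟩ := exists_nat_pow_near hx1 (by norm_num : (1 : ℝ) < 2)
  have hjb : b0 ≤ j := by
    by_contra hcon
    have h1 : (2 : ℝ) ^ (j + 1) ≤ 2 ^ (b0 + 1) := pow_le_pow_right₀ (by norm_num) (by omega)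
    linarith
  have hmlj : ml j ≤ q0 * n := by
    rw [mlN_eq]
    calc ((2 : ℝ) ^ j) ^ (4 / 3 : ℝ) ≤ (c0 * r * R) ^ (4 / 3 : ℝ) := Real.rpow_le_rpow (by positivity) hj1 (by norm_num)
      _ = (c0 * r) ^ (4 / 3 : ℝ) * n := by rw [Real.mul_rpow (by positivity) hR0.le, hRn]
      _ ≤ (q0 ^ (3 / 4 : ℝ)) ^ (4 / 3 : ℝ) * n :=
          mul_le_mul_of_nonneg_right (Real.rpow_le_rpow (by positivity) hrc (by norm_num)) hnp.le
      _ = q0 * n := by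
          rw [← Real.rpow_mul hq00.le]
          norm_num
  have hmlm : 2 ^ b0 * ml j ≤ m := by
    have h1 : (2 : ℝ) ^ b0 * ml j ≤ 2 ^ b0 * (q0 * n) := mul_le_mul_of_nonneg_left hmlj (by positivity)
    have h2 : (2 : ℝ) ^ b0 * (q0 * n) = n / 2 := by
      rw [hq0]
      field_simp
    linarith
  have hmlm' : ml j ≤ m := by
    have h1 : (1 : ℝ) ≤ 2 ^ b0 := one_le_pow₀ (by norm_num)
    have h2 := ARM.ml_pos j
    nlinarith
  have key := (hlow m j hjb hmlm).trans (gap_mass (k := m) (R := r * size n) (by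
    have h1 := (hsz n (by omega)).1
    have h2 : (n : ℝ) ^ (3 / 4 : ℝ) = R := hR.symm
    rw [h2] at h1
    calc (2 : ℝ) ^ j ≤ c0 * r * R := hj1
      _ = r * (c0 * R) := by ring
      _ ≤ r * size n := mul_le_mul_of_nonneg_left h1 hr.le))
  have hcm := cS_pos' m
  have hxm : 0 < xc ^ m := pow_pos xc_pos m
  rw [ENNReal.ofReal_le_ofReal_iff (mul_nonneg (Nat.cast_nonneg _) hxm.le)] at key
  rw [near_card hm1, le_div_iff₀ hcm]
  refine le_of_mul_le_mul_right ?_ hxm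
  refine le_trans ?_ key
  -- the numbers
  have e1 : pr m j / ml j = ((2 : ℝ) ^ j) ^ (59 / 24 : ℝ) * (m : ℝ) ^ (-(3 / 2) : ℝ) := by
    rw [pr_eq, max_eq_left hmlm', Real.div_rpow (ARM.ml_pos j).le hmp.le, Real.rpow_neg hmp.le]
    unfold pw ml
    rw [← Real.rpow_natCast, ← Real.rpow_mul (by norm_num), ← Real.rpow_mul (by norm_num)]
    have h1 : (0 : ℝ) < (m : ℝ) ^ (3 / 2 : ℝ) := by positivity
    rw [mul_div_assoc', div_div, mul_comm ((m : ℝ) ^ (3 / 2 : ℝ)), ← div_div, ← Real.rpow_add (by norm_num), ← Real.rpow_sub (by norm_num),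
      div_eq_mul_inv]
    congr 2
    ring
  rw [e1]
  have e2 : (c0 * r / 2) ^ (59 / 24 : ℝ) * R ^ (59 / 24 : ℝ) ≤ ((2 : ℝ) ^ j) ^ (59 / 24 : ℝ) := by
    rw [← Real.mul_rpow (by positivity) hR0.le]
    refine Real.rpow_le_rpow (by positivity) ?_ (by norm_num)
    rw [pow_succ] at hj2
    linarith
  have e3 : R ^ (59 / 24 : ℝ) = (n : ℝ) ^ (59 / 32 : ℝ) := by
    rw [hR]
    unfold NTSF.Mg.nr
    rw [← Real.rpow_mul hnp.le]
    norm_num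
  have e4 : (n : ℝ) ^ (-(3 / 2) : ℝ) ≤ (m : ℝ) ^ (-(3 / 2) : ℝ) :=
    Real.rpow_le_rpow_of_nonpos hmp hmn' (by norm_num)
  have e5 : (n : ℝ) ^ (59 / 32 : ℝ) * (n : ℝ) ^ (-(3 / 2) : ℝ) = (n : ℝ) ^ (11 / 32 : ℝ) := by
    rw [← Real.rpow_add hnp]
    norm_num
  have e6 : (m : ℝ) ^ (11 / 32 : ℝ) ≤ (n : ℝ) ^ (11 / 32 : ℝ) := Real.rpow_le_rpow hmp.le hmn' (by norm_num)
  have e7 : (0 : ℝ) < (c0 * r / 2) ^ (59 / 24 : ℝ) := by positivity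
  calc cc * (cS m : ℝ) * xc ^ m = cc * ((cS m : ℝ) * xc ^ m) := by ring
    _ ≤ cc * (C * (n : ℝ) ^ (11 / 32 : ℝ)) :=
        mul_le_mul_of_nonneg_left ((hcs m hm1).trans (mul_le_mul_of_nonneg_left e6 hC.le)) hcc0.le
    _ = c1 * ((c0 * r / 2) ^ (59 / 24 : ℝ) * ((n : ℝ) ^ (59 / 32 : ℝ) * (n : ℝ) ^ (-(3 / 2) : ℝ))) := by
        rw [e5, hcc]
        field_simp
    _ = c1 * ((c0 * r / 2) ^ (59 / 24 : ℝ) * R ^ (59 / 24 : ℝ) * (n : ℝ) ^ (-(3 / 2) : ℝ)) := by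
        rw [e3]
        ring
    _ ≤ c1 * (((2 : ℝ) ^ j) ^ (59 / 24 : ℝ) * (m : ℝ) ^ (-(3 / 2) : ℝ)) :=
        mul_le_mul_of_nonneg_left (mul_le_mul e2 e4 (by positivity) (by positivity)) hc1.le

/-- the number of the step numbers in the window -/
lemma wdw_card {n : ℕ} {r : ℝ} (hr : 0 ≤ r ^ (4 / 3 : ℝ)) (hr1 : r ^ (4 / 3 : ℝ) ≤ 1) :
    r ^ (4 / 3 : ℝ) * n ≤ ((wdw n r).card : ℝ) := by
  obtain ⟨q, hq⟩ : ∃ q : ℝ, q = r ^ (4 / 3 : ℝ) := ⟨_, rfl⟩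
  have hn0 : (0 : ℝ) ≤ n := Nat.cast_nonneg n
  have h1 : wdw n r = Finset.Icc ⌈(1 - q) * (n : ℝ)⌉₊ n := by
    ext k
    unfold wdw
    rw [mem_filter, mem_range, Nat.lt_succ_iff, mem_Icc, Nat.ceil_le, ← hq]
    exact ⟨fun h => ⟨h.2, h.1⟩, fun h => ⟨h.2, h.1⟩⟩
  rw [h1, ← hq, Nat.card_Icc]
  rw [← hq] at hr hr1
  have h2 : ⌈(1 - q) * (n : ℝ)⌉₊ ≤ n := by
    rw [Nat.ceil_le]
    nlinarith
  have h3 : ((⌈(1 - q) * (n : ℝ)⌉₊ : ℕ) : ℝ) < (1 - q) * n + 1 := Nat.ceil_lt_add_one (by nlinarith)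
  rw [Nat.cast_sub (by omega)]
  push_cast
  linarith

/-- **the mass of the gap from below** -/
theorem near_pos : ∃ r0 : ℝ, 0 < r0 ∧ ∀ r : ℝ, 0 < r → r ≤ r0 → ∃ (c : ℝ) (n0 : ℕ), 0 < c ∧ ∀ n : ℕ, n0 ≤ n →
    c * n ≤ ∑ m ∈ wdw n r, ((near m (r * size n)).card : ℝ) / ((saw m).card : ℝ) := by
  obtain ⟨r0, hr0, hr01, h⟩ := near_low
  refine ⟨r0, hr0, fun r hr hrr => ?_⟩
  obtain ⟨c, n0, hc, h1⟩ := h r hr hrr
  have hq0 : 0 < r ^ (4 / 3 : ℝ) := Real.rpow_pos_of_pos hr _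
  have hq1 : r ^ (4 / 3 : ℝ) ≤ 1 := Real.rpow_le_one hr.le (by linarith) (by norm_num)
  refine ⟨c * r ^ (4 / 3 : ℝ), n0, by positivity, fun n hn => ?_⟩
  calc c * r ^ (4 / 3 : ℝ) * n = c * (r ^ (4 / 3 : ℝ) * n) := by ring
    _ ≤ c * ((wdw n r).card : ℝ) := mul_le_mul_of_nonneg_left (wdw_card hq0.le hq1) hc.le
    _ = ∑ _m ∈ wdw n r, c := by rw [sum_const, nsmul_eq_mul, mul_comm]
    _ ≤ _ := sum_le_sum fun m hm => h1 n hn m hm

end Pool.Agent.PMA
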