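import Pool.Agent.PMA.CyC
import Pool.Agent.PMA.PubB

/-!
# (PM) in the limit: the laws of the polygons are tight (helper65)

* `plaw n` : the law of the curve of the uniformly random polygon with `n + 1` edges (`n` steps of it); `plaw_int`, `plaw_prob`;
* `pol_mod`, `plaw_mod` : the modulus of continuity, from `polMod`;
* **`tightP`** : the laws are tight. No hypothesis.
-/

set_option autoImplicit false

open MeasureTheory Filter Topology Finset

open scoped Classical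

namespace Pool.Agent.PMA

open Res Pool.Agent.NTS.Res

open HexObs hiding pos

open HexObs.TIW HexObs.POLP NTSF NTSF.Mg NTF Pool.Agent.TSW.BP HexObs.MCP

/-- the law of the curve of the uniformly random polygon -/
noncomputable def plaw (n : ℕ) : Measure C(unitInterval, ℂ) := ∑ s ∈ pol n, ((pol n).card : ENNReal)⁻¹ • Measure.dirac (curve s)

theorem plaw_int' (n : ℕ) (F : C(unitInterval, ℂ) → ℝ) : ∫ γ, F γ ∂(plaw n) = pmean n F := by
  unfold plaw pmean
  rw [integral_finsetSum_measure]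
  · rw [sum_div]
    apply sum_congr rfl
    intro s _
    rw [integral_smul_measure, integral_dirac, ENNReal.toReal_inv, ENNReal.toReal_natCast, smul_eq_mul]
    ring
  · intro s hs
    have h0 : ((pol n).card : ENNReal) ≠ 0 := by
      have := Finset.card_pos.2 ⟨s, hs⟩
      exact_mod_cast this.ne'
    refine Integrable.smul_measure ?_ (ENNReal.inv_ne_top.2 h0)
    exact integrable_dirac (by simp)

theorem plaw_int {n : ℕ} (_ : 3 ≤ n) (_ : Odd n) (F : C(unitInterval, ℂ) → ℝ) : ∫ γ, F γ ∂(plaw n) = pmean n F :=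
  plaw_int' n F

namespace LT

lemma plaw_apply (n : ℕ) (E : Set C(unitInterval, ℂ)) :
    plaw n E = ENNReal.ofReal (pmean n fun γ => if γ ∈ E then 1 else 0) := by
  rcases Nat.eq_zero_or_pos (pol n).card with h0 | h0
  · have h1 : pol n = ∅ := Finset.card_eq_zero.1 h0
    unfold plaw pmean
    rw [h1]
    simp
  · unfold plaw pmean
    rw [Measure.finsetSum_apply]
    have h : ∀ s ∈ pol n, (((pol n).card : ENNReal)⁻¹ • Measure.dirac (curve s)) E =
        ((pol n).card : ENNReal)⁻¹ * (if curve s ∈ E then 1 else 0) := by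
      intro s _
      rw [Measure.smul_apply, Measure.dirac_apply, smul_eq_mul, Set.indicator_apply, Pi.one_apply]
    have h0' : (0 : ℝ) < (pol n).card := by exact_mod_cast h0
    rw [sum_congr rfl h, ← mul_sum, ENNReal.ofReal_div_of_pos h0', ENNReal.ofReal_natCast, ENNReal.div_eq_inv_mul]
    congr 1
    rw [ENNReal.ofReal_sum_of_nonneg fun s _ => by
      show (0 : ℝ) ≤ if curve s ∈ E then 1 else 0
      split_ifs <;> norm_num]
    refine sum_congr rfl fun s _ => ?_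
    show (if curve s ∈ E then (1 : ENNReal) else 0) = ENNReal.ofReal (if curve s ∈ E then 1 else 0)
    by_cases hs : curve s ∈ E
    · rw [if_pos hs, if_pos hs, ENNReal.ofReal_one]
    · rw [if_neg hs, if_neg hs, ENNReal.ofReal_zero]

lemma pmean_mono {n : ℕ} {F G : C(unitInterval, ℂ) → ℝ} (h : ∀ s ∈ pol n, F (curve s) ≤ G (curve s)) :
    pmean n F ≤ pmean n G := div_le_div_of_nonneg_right (sum_le_sum h) (Nat.cast_nonneg _)

lemma pmean_one : ∃ n0 : ℕ, ∀ n : ℕ, n0 ≤ n → Odd n → pmean n (fun _ => 1) = 1 := by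
  obtain ⟨c, N0, hc, h0⟩ := HexObs.PMA.cy_low
  refine ⟨max N0 3, fun n hn ho => ?_⟩
  have hN0 : N0 ≤ n := (le_max_left _ _).trans hn
  have hn3 : 3 ≤ n := (le_max_right _ _).trans hn
  have h1 := h0 (n + 1) (by omega) ho.add_one
  have h2 : ((cyF (n + 1)).card : ℝ) ≠ 0 := by
    intro h3
    have h4 := HexObs.PMA.card_all (n + 1)
    rw [h3, zero_mul] at h4
    have h5 : gf (POL.Cy (n + 1)) ≠ ⊤ := HexObs.PMA.gf_top (HexObs.PMA.cy_fin (n + 1))
    have h6 : gf (POL.Cy (n + 1)) = 0 := by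
      rcases (ENNReal.toReal_eq_zero_iff _).1 h4 with h | h
      · exact h
      · exact absurd h h5
    rw [h6] at h1
    have h7 : 0 < c * ((n + 1 : ℕ) : ℝ) ^ (-(3 / 2) : ℝ) := mul_pos hc (Real.rpow_pos_of_pos (by positivity) _)
    have h8 := ENNReal.ofReal_eq_zero.1 (le_antisymm h1 zero_le)
    linarith
  rw [pmean_words hn3 ho]
  simp only [f3_one, sum_const, nsmul_eq_mul, mul_one]
  exact div_self h2

end LT

/-- the laws of the polygons are probability measures -/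
theorem plaw_prob : ∃ n0 : ℕ, ∀ n : ℕ, n0 ≤ n → Odd n → IsProbabilityMeasure (plaw n) := by
  obtain ⟨n0, h⟩ := LT.pmean_one
  refine ⟨n0, fun n hn ho => ⟨?_⟩⟩
  rw [LT.plaw_apply]
  simp only [Set.mem_univ, if_true]
  rw [h n hn ho, ENNReal.ofReal_one]

namespace LT

/-- the time `j / n` -/
noncomputable def pt (n j : ℕ) : unitInterval := Set.projIcc 0 1 zero_le_one ((j : ℝ) / n)

lemma pt_val {n j : ℕ} (hn : 1 ≤ n) (hj : j ≤ n) : (pt n j : ℝ) * n = j := by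
  have hn0 : (0 : ℝ) < n := by exact_mod_cast hn
  have hj' : (j : ℝ) ≤ n := by exact_mod_cast hj
  have h1 : (pt n j : ℝ) = (j : ℝ) / n := by
    unfold pt
    rw [Set.projIcc_of_mem zero_le_one ⟨by positivity, by rw [div_le_one hn0]; exact hj'⟩]
  rw [h1]
  field_simp

lemma poly_pt {z : ℕ → ℂ} {n j : ℕ} (hn : 1 ≤ n) (hj : j ≤ n) : Tight.poly z n (pt n j) = z j := by
  have h1 := pt_val hn hj
  rcases Nat.lt_or_ge j n with h | h
  · rw [Tight.poly_apply h (by linarith) (by linarith), h1]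
    simp
  · obtain ⟨k, rfl⟩ : ∃ k, n = k + 1 := ⟨n - 1, by omega⟩
    have h2 : j = k + 1 := by omega
    subst h2
    rw [Tight.poly_apply (i := k) (by omega) (by rw [h1]; push_cast; linarith) (by rw [h1]; push_cast; linarith), h1]
    push_cast
    ring

/-- a fast part of the curve -/
def Bd (n : ℕ) (ρ r : ℝ) (γ : C(unitInterval, ℂ)) : Prop :=
  ∃ i j : ℕ, i ≤ j ∧ j ≤ n ∧ (j : ℝ) - i ≤ ρ * n ∧ r < ‖γ (pt n j) - γ (pt n i)‖

lemma bd_curve {n : ℕ} (hn : 1 ≤ n) {s : Fin n → Fin 3} {ρ r : ℝ} (hr : 0 ≤ r) (hρ : 4 ≤ ρ * n)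
    (h : ¬ Md (ρ / 2) r (curve s)) : Bd n ρ r (curve s) := by
  have e : ∀ k, k ≤ n → curve s (pt n k) = pos s k / size n := fun k hk => by
    rw [NTSF.curve_eq]
    exact poly_pt hn hk
  have hs := size_pos hn
  have hc : ¬ ∀ i j : ℕ, i ≤ j → j ≤ n → (j : ℝ) - i ≤ ρ * n → ‖pos s j - pos s i‖ ≤ r * size n :=
    fun h1 => h (NTSF.curve_mod hn hr hρ h1)
  push Not at hc
  obtain ⟨i, j, hij, hj, hd, h2⟩ := hc
  refine ⟨i, j, hij, hj, hd, ?_⟩
  have e2 : curve s (pt n j) - curve s (pt n i) = (pos s j - pos s i) / size n := by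
    rw [e j hj, e i (hij.trans hj), sub_div]
  rw [e2, norm_div, Complex.norm_of_nonneg hs.le, lt_div_iff₀ hs]
  exact h2

lemma bd_word {n : ℕ} (hn : 1 ≤ n) {c : ℂ} (hc : ‖c‖ = 1) {t : List Bool} (ht : n ≤ t.length) {ρ r : ℝ}
    (h : Bd n ρ r (((sg n)⁻¹ : ℝ) • pT c t n)) : ∃ x y : ℕ, x ≤ y ∧ y ≤ n ∧ (y : ℝ) ≤ x + ρ * n ∧
      r * size n < TIW.hn (vx oo up t y - vx oo up t x) := by
  obtain ⟨i, j, hij, hj, hd, h1⟩ := h
  refine ⟨i, j, hij, hj, by linarith, ?_⟩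
  have hs := size_pos hn
  have hp := nr_pos hn
  have e1 : ∀ k, k ≤ n → (((sg n)⁻¹ : ℝ) • pT c t n) (pt n k) = c * JJ (vx oo up t k) / size n := by
    intro k hk
    rw [pT_of_le ht]
    show ((sg n)⁻¹ : ℝ) • (((nr n)⁻¹ : ℝ) • Tight.poly (cz c t) n (pt n k)) = _
    rw [poly_pt hn hk, smul_smul, Complex.real_smul]
    unfold cz sg
    have hs' : (size n : ℂ) ≠ 0 := by exact_mod_cast hs.ne'
    have hp' : (nr n : ℂ) ≠ 0 := by exact_mod_cast hp.ne'
    push_cast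
    field_simp
  rw [e1 j hj, e1 i (hij.trans hj), ← sub_div, ← mul_sub, ← NTF.JJ_sub, norm_div, norm_mul, hc, one_mul,
    Complex.norm_of_nonneg hs.le, lt_div_iff₀ hs] at h1
  exact h1.trans_le (Mg.JJ_le_hn _)

/-- **the modulus of continuity of the polygons** -/
theorem pol_mod (ε r : ℝ) (hε : 0 < ε) (hr : 0 < r) : ∃ ρ : ℝ, 0 < ρ ∧ ∃ n0 : ℕ, ∀ n : ℕ, n0 ≤ n → Odd n →
    pmean n (fun γ => if Bd n ρ r γ then 1 else 0) ≤ ε := by
  obtain ⟨c, N0, hc, h0⟩ := HexObs.PMA.cy_low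
  obtain ⟨c0, C0, hc0, hsz⟩ := (oneFacts finE).sz
  obtain ⟨e, he⟩ : ∃ e : ℝ, e = min (ε * c / 16) (r * c0) := ⟨_, rfl⟩
  have he0 : 0 < e := by
    rw [he]
    positivity
  have he1 : e ≤ ε * c / 16 := he ▸ min_le_left _ _
  have he2 : e ≤ r * c0 := he ▸ min_le_right _ _
  obtain ⟨δ, n0, hδ, h1⟩ := HexObs.PMA.polMod HexObs.ARM.t1 e he0
  refine ⟨δ, hδ, max (max n0 N0) 3, fun n hn ho => ?_⟩
  have a1 : n0 ≤ n := (le_max_left _ _).trans ((le_max_left _ _).trans hn)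
  have a2 : N0 ≤ n := (le_max_right _ _).trans ((le_max_left _ _).trans hn)
  have a3 : 3 ≤ n := (le_max_right _ _).trans hn
  obtain ⟨S, hS⟩ : ∃ S : Set (List Bool), S = {L | ∃ x y : ℕ, x ≤ y ∧ y ≤ n ∧ (y : ℝ) ≤ x + δ * n ∧
    e * (n : ℝ) ^ (3 / 4 : ℝ) < TIW.hn (vx oo up L y - vx oo up L x)} := ⟨_, rfl⟩
  have h3 := HexObs.PMA.cy_bad (S := S) hc h0 he0.le a2 (by omega) ho (by
    rw [hS]
    exact h1 n a1)
  have h4 : 16 * e / c ≤ ε := by
    rw [div_le_iff₀ hc]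
    linarith
  have h5 := HexObs.PMA.card_le (p := fun K => K.dropLast ∈ S) hε.le (h3.trans (mul_le_mul' (ENNReal.ofReal_le_ofReal h4) le_rfl))
  rw [pmean_words a3 ho]
  have hcard : 0 ≤ ((cyF (n + 1)).card : ℝ) := Nat.cast_nonneg _
  refine div_le_of_le_mul₀ hcard hε.le (le_trans ?_ h5)
  rw [card_filter]
  push_cast
  refine sum_le_sum fun t ht => ?_
  have htl : t.length = n + 1 := ((Set.Finite.mem_toFinset _).1 ht).1
  have hS' : ∀ a : Fin 3, Bd n δ r (((sg n)⁻¹ : ℝ) • pT (cr a) t n) → t.dropLast ∈ S := by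
    intro a hb
    obtain ⟨x, y, hxy, hy, hd, hb'⟩ := bd_word (by omega) (cr_norm a) (by omega) hb
    rw [hS]
    refine ⟨x, y, hxy, hy, hd, ?_⟩
    rw [HexObs.PMA.vx_dropLast htl (by omega), HexObs.PMA.vx_dropLast htl (by omega)]
    refine lt_of_le_of_lt ?_ hb'
    have hn0 : (0 : ℝ) ≤ (n : ℝ) ^ (3 / 4 : ℝ) := Real.rpow_nonneg (Nat.cast_nonneg _) _
    have hsz1 : c0 * (n : ℝ) ^ (3 / 4 : ℝ) ≤ size n := (hsz n (by omega)).1
    calc e * (n : ℝ) ^ (3 / 4 : ℝ) ≤ r * c0 * (n : ℝ) ^ (3 / 4 : ℝ) := mul_le_mul_of_nonneg_right he2 hn0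
      _ = r * (c0 * (n : ℝ) ^ (3 / 4 : ℝ)) := by ring
      _ ≤ r * size n := mul_le_mul_of_nonneg_left hsz1 hr.le
  unfold f3
  by_cases hq : t.dropLast ∈ S
  · rw [if_pos hq, div_le_one (by norm_num)]
    calc ∑ a : Fin 3, (if Bd n δ r (((sg n)⁻¹ : ℝ) • pT (cr a) t n) then (1 : ℝ) else 0) ≤ ∑ _a : Fin 3, (1 : ℝ) :=
          sum_le_sum fun a _ => by split_ifs <;> norm_num
      _ = 3 := by simp
  · rw [if_neg hq]
    refine le_of_eq ?_
    rw [sum_eq_zero, zero_div]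
    intro a _
    exact if_neg fun hb => hq (hS' a hb)

end LT

/-- the modulus of continuity for the laws -/
theorem plaw_mod (ε r : ℝ) (hε : 0 < ε) (hr : 0 < r) : ∃ δ : ℝ, 0 < δ ∧ ∃ n0 : ℕ, ∀ n : ℕ, n0 ≤ n → Odd n →
    plaw n {γ | ¬ Md δ r γ} ≤ ENNReal.ofReal ε := by
  obtain ⟨ρ, hρ, n0, h1⟩ := LT.pol_mod ε r hε hr
  obtain ⟨n1, hn1⟩ := exists_nat_ge (4 / ρ)
  refine ⟨ρ / 2, by positivity, max n0 (max n1 1), fun n hn ho => ?_⟩
  have a1 : n0 ≤ n := (le_max_left _ _).trans hn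
  have a2 : n1 ≤ n := (le_max_left _ _).trans ((le_max_right _ _).trans hn)
  have a3 : 1 ≤ n := (le_max_right _ _).trans ((le_max_right _ _).trans hn)
  have a4 : 4 ≤ ρ * n := by
    have h2 : 4 / ρ ≤ n := hn1.trans (by exact_mod_cast a2)
    rw [div_le_iff₀ hρ] at h2
    linarith
  rw [LT.plaw_apply]
  refine ENNReal.ofReal_le_ofReal ((LT.pmean_mono fun s _ => ?_).trans (h1 n a1 ho))
  by_cases h2 : Md (ρ / 2) r (curve s)
  · rw [if_neg (by rw [Set.mem_ofPred_eq, not_not]; exact h2)]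
    split_ifs <;> norm_num
  · rw [if_pos (show curve s ∈ {γ | ¬ Md (ρ / 2) r γ} from h2), if_pos (LT.bd_curve a3 hr.le a4 h2)]

/-- **the laws of the polygons are tight** -/
theorem tightP : ∃ n0 : ℕ, IsTightMeasureSet {μ | ∃ n : ℕ, n0 ≤ n ∧ Odd n ∧ μ = plaw n} := by
  refine ⟨3, tight_of_modulus _ ?_ ?_⟩
  · rintro _ ⟨n, -, -, rfl⟩
    rw [LT.plaw_apply, ENNReal.ofReal_eq_zero]
    unfold pmean
    rw [sum_eq_zero, zero_div]
    intro s _
    exact if_neg fun h => h (NTSF.curve_zero s)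
  · intro ε r hε hr
    obtain ⟨δ, hδ, n0, h1⟩ := plaw_mod ε r hε hr
    have hF : (⋃ n ∈ Finset.range n0, (Pool.Agent.NTS.Res.curve '' (pol n : Set (Fin n → Fin 3)))).Finite :=
      Set.Finite.biUnion (Finset.finite_toSet _) fun n _ => (Finset.finite_toSet _).image _
    obtain ⟨δ', hδ', h2⟩ := finite_modulus hF hr
    refine ⟨min δ δ', lt_min hδ hδ', ?_⟩
    rintro _ ⟨n, -, ho, rfl⟩
    rcases Nat.lt_or_ge n n0 with h3 | h3
    · rw [LT.plaw_apply]
      refine ENNReal.ofReal_le_ofReal (le_trans (le_of_eq ?_) hε.le)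
      unfold pmean
      rw [sum_eq_zero, zero_div]
      intro s hs
      refine if_neg fun h4 => h4 fun u v huv => ?_
      refine h2 (curve s) ?_ u v (huv.trans (min_le_right _ _))
      rw [Set.mem_iUnion₂]
      exact ⟨n, Finset.mem_range.2 h3, s, hs, rfl⟩
    · refine (measure_mono ?_).trans (h1 n h3 ho)
      intro γ h4 h5
      exact h4 fun u v huv => h5 u v (huv.trans (min_le_left _ _))

end Pool.Agent.PMA
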