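import Pool.Agent.PMA.DpW
import Pool.Agent.PMA.LimT
import Pool.Agent.PMA.LimN
import Pool.Agent.PMA.LimE
import Pool.Agent.RMP.LimA

/-!
# (PM): near double points of the polygons, public form (helper41)

`WDp`: row (S1), the walks; **`pol_dp`**: the polygons have no near double points at macroscopic time distance in the times from `τ`
to `1 - τ`.
-/

set_option autoImplicit false

open MeasureTheory Filter Topology Finset

open scoped Classical

namespace Pool.Agent.PMA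

open Res Pool.Agent.NTS.Res

open HexObs hiding pos curve

open HexObs.TIW HexObs.POLP NTSF NTSF.Mg NTF Pool.Agent.TSW.BP HexObs.MCP

open Pool.Agent.RMP (Pl Pl_nat Pl_close curve_Pl)

/-- **row (S1)** -/
def WDp : Prop := ∀ ε κ : ℝ, 0 < ε → 0 < κ → ∃ δ : ℝ, 0 < δ ∧ ∃ n0 : ℕ, ∀ n : ℕ, n0 ≤ n →
  law n {γ : C(unitInterval, ℂ) | ∃ p q : unitInterval, (p : ℝ) + κ ≤ q ∧ dist (γ q) (γ p) ≤ δ} ≤ ENNReal.ofReal ε

namespace Dp

open Pool.Agent.PMA.LT (pt pt_val poly_pt)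

/-- from the law to the mean -/
lemma law_mean {n : ℕ} {A : Set C(unitInterval, ℂ)} {ε : ℝ} (hε : 0 ≤ ε) (h : law n A ≤ ENNReal.ofReal ε) :
    (∑ s ∈ saw n, if curve s ∈ A then (1 : ℝ) else 0) / ((saw n).card : ℝ) ≤ ε := by
  have hS := NTSF.saw_card_pos n
  rw [NTSF.law_apply] at h
  have h4 : ((saw n).card : ENNReal) ≠ 0 := by
    have : ((saw n).card : ℕ) ≠ 0 := by
      have : (0 : ℝ) < ((saw n).card : ℝ) := hS
      exact_mod_cast this.ne'
    exact_mod_cast this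
  have h5 : (((saw n).filter fun s => curve s ∈ A).card : ENNReal) ≤ ENNReal.ofReal ε * ((saw n).card : ENNReal) := by
    have h6 := mul_le_mul_right h ((saw n).card : ENNReal)
    rw [← mul_assoc, ENNReal.mul_inv_cancel h4 (ENNReal.natCast_ne_top _), one_mul, mul_comm _ (ENNReal.ofReal ε)] at h6
    convert h6
  rw [← ENNReal.ofReal_natCast, ← ENNReal.ofReal_natCast, ← ENNReal.ofReal_mul hε,
    ENNReal.ofReal_le_ofReal_iff (by positivity)] at h5
  rw [div_le_iff₀ hS, ← sum_filter, sum_const, nsmul_eq_mul, mul_one]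
  exact h5

/-- the curve of a word at the integer times -/
lemma word_pt {n : ℕ} (hn : 1 ≤ n) {c : ℂ} {t : List Bool} (ht : n ≤ t.length) {k : ℕ} (hk : k ≤ n) :
    (((sg n)⁻¹ : ℝ) • pT c t n) (pt n k) = c * JJ (vx oo up t k) / size n := by
  have hs := size_pos hn
  have hp := nr_pos hn
  rw [pT_of_le ht]
  show ((sg n)⁻¹ : ℝ) • (((nr n)⁻¹ : ℝ) • Tight.poly (cz c t) n (pt n k)) = _
  rw [poly_pt hn hk, smul_smul, Complex.real_smul]
  unfold cz sg
  have hs' : (size n : ℂ) ≠ 0 := by exact_mod_cast hs.ne'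
  have hp' : (nr n : ℂ) ≠ 0 := by exact_mod_cast hp.ne'
  push_cast
  field_simp

lemma word_dist {n : ℕ} (hn : 1 ≤ n) {c : ℂ} (hc : ‖c‖ = 1) {t : List Bool} (ht : n ≤ t.length) {i j : ℕ} (hi : i ≤ n) (hj : j ≤ n) :
    ‖(((sg n)⁻¹ : ℝ) • pT c t n) (pt n i) - (((sg n)⁻¹ : ℝ) • pT c t n) (pt n j)‖ =
      ‖JJ (vx oo up t i) - JJ (vx oo up t j)‖ / size n := by
  have hs := size_pos hn
  rw [word_pt hn ht hi, word_pt hn ht hj, ← sub_div, ← mul_sub, norm_div, norm_mul, hc, one_mul,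
    Complex.norm_of_nonneg hs.le]

/-- near double points of a curve at the integer times -/
def Dc (n w d : ℕ) (e : ℝ) (γ : C(unitInterval, ℂ)) : Prop :=
  ∃ i j : ℕ, w ≤ i ∧ i + d ≤ j ∧ j + w ≤ n ∧ ‖γ (pt n i) - γ (pt n j)‖ ≤ e

lemma dc_word {n w d : ℕ} (hn : 1 ≤ n) {e : ℝ} {c : ℂ} (hc : ‖c‖ = 1) {t : List Bool} (ht : n ≤ t.length) :
    Dc n w d e (((sg n)⁻¹ : ℝ) • pT c t n) ↔ DPw n w d (e * size n) t := by
  have hs := size_pos hn
  unfold Dc DPw
  refine exists_congr fun i => exists_congr fun j => ?_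
  constructor
  · rintro ⟨h1, h2, h3, h4⟩
    rw [word_dist hn hc ht (by omega) (by omega), div_le_iff₀ hs] at h4
    exact ⟨h1, h2, h3, h4⟩
  · rintro ⟨h1, h2, h3, h4⟩
    refine ⟨h1, h2, h3, ?_⟩
    rw [word_dist hn hc ht (by omega) (by omega), div_le_iff₀ hs]
    exact h4

/-- the polygons: from the curves to the words -/
lemma pol_words {n w d : ℕ} (hn : 3 ≤ n) (ho : Odd n) (e : ℝ) :
    pmean n (fun γ => if Dc n w d e γ then 1 else 0) =
      (((cyF (n + 1)).filter fun t => DPw n w d (e * size n) t).card : ℝ) / ((cyF (n + 1)).card : ℝ) := by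
  rw [pmean_words hn ho, card_filter]
  push_cast
  congr 1
  refine sum_congr rfl fun t ht => ?_
  have htl : t.length = n + 1 := ((Set.Finite.mem_toFinset _).1 ht).1
  unfold f3
  have h1 : ∀ a : Fin 3, (if Dc n w d e (((sg n)⁻¹ : ℝ) • pT (cr a) t n) then (1 : ℝ) else 0) =
      if DPw n w d (e * size n) t then 1 else 0 := by
    intro a
    have h2 := dc_word (w := w) (d := d) (e := e) (by omega : 1 ≤ n) (cr_norm a) (t := t) (by omega)
    by_cases h3 : DPw n w d (e * size n) t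
    · rw [if_pos h3, if_pos (h2.2 h3)]
    · rw [if_neg h3, if_neg fun h => h3 (h2.1 h)]
  rw [sum_congr rfl fun a _ => h1 a, sum_const, card_univ, Fintype.card_fin, nsmul_eq_mul]
  push_cast
  ring

/-- the open words of one length -/
lemma open_words {n k W d : ℕ} {κ δ D ε : ℝ} (hk : 1 ≤ k) (hε : 0 ≤ ε) (hkn : n ≤ k + W) (hk2 : k ≤ n) (hd : κ * n ≤ d) (hκ : 0 ≤ κ)
    (hD : D ≤ δ * size k)
    (h : law k {γ : C(unitInterval, ℂ) | ∃ p q : unitInterval, (p : ℝ) + κ ≤ q ∧ dist (γ q) (γ p) ≤ δ} ≤ ENNReal.ofReal ε) (R : ℝ) :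
    ∑ t ∈ gapF k R, (if DPw n W d D t then (1 : ℝ) else 0) ≤ ε * cS k := by
  have hs := size_pos hk
  have hc := cS_pos' k
  have hk0 : (0 : ℝ) < k := by exact_mod_cast hk
  obtain ⟨A, hA⟩ : ∃ A : Set C(unitInterval, ℂ), A = {γ : C(unitInterval, ℂ) | ∃ p q : unitInterval, (p : ℝ) + κ ≤ q ∧
    dist (γ q) (γ p) ≤ δ} := ⟨_, rfl⟩
  rw [← hA] at h
  have h1 := law_mean hε h
  have h2 := mean_end hk (fun _ => True) (fun γ => if γ ∈ A then (1 : ℝ) else 0)
  simp only [filter_true] at h2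
  rw [h2, div_le_iff₀ hc] at h1
  refine le_trans ?_ h1
  unfold gapF
  refine (sum_le_sum_of_subset_of_nonneg (filter_subset _ _) fun t _ _ => by split_ifs <;> norm_num).trans ?_
  refine sum_le_sum fun t ht => ?_
  have htl : t.length = k := (mem_sawF.1 ht).1
  have h3 : ∀ a : Fin 3, DPw n W d D t → ((((sg k)⁻¹ : ℝ) • pT (cr a) t k) ∈ A) := by
    rintro a ⟨i, j, g1, g2, g3, g4⟩
    rw [hA]
    refine ⟨pt k i, pt k j, ?_, ?_⟩
    · have v1 := pt_val hk (show i ≤ k by omega)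
      have v2 := pt_val hk (show j ≤ k by omega)
      have v3 : (i : ℝ) + d ≤ j := by exact_mod_cast g2
      have v4 : (k : ℝ) ≤ n := by exact_mod_cast hk2
      have v5 := mul_le_mul_of_nonneg_left v4 hκ
      have v6 : ((pt k i : ℝ) + κ) * k ≤ (pt k j : ℝ) * k := by
        rw [add_mul, v1, v2]
        linarith
      exact le_of_mul_le_mul_right v6 hk0
    · rw [dist_eq_norm, norm_sub_rev, word_dist hk (cr_norm a) (by omega) (by omega) (by omega), div_le_iff₀ hs]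
      exact g4.trans hD
  unfold f3
  by_cases h4 : DPw n W d D t
  · rw [if_pos h4, sum_congr rfl (g := fun _ => (1 : ℝ)) fun a _ => if_pos (h3 a h4), sum_const, card_univ, Fintype.card_fin,
      nsmul_eq_mul]
    norm_num
  · rw [if_neg h4]
    refine div_nonneg (sum_nonneg fun a _ => ?_) (by norm_num)
    show (0 : ℝ) ≤ if _ then _ else _
    split_ifs <;> norm_num

/-- from real times to integer times -/
lemma to_int {n w d : ℕ} (hn : 1 ≤ n) {τ κ δ e : ℝ} (hw : (w : ℝ) + 1 ≤ τ * n) (hd : (d : ℝ) + 1 ≤ κ * n) (he : δ * size n + 2 ≤ e * size n)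
    {s : Fin n → Fin 3} (h : ∃ p q : unitInterval, τ ≤ p ∧ (p : ℝ) + κ ≤ q ∧ (q : ℝ) ≤ 1 - τ ∧ dist (curve s q) (curve s p) < δ) :
    Dc n w d e (curve s) := by
  obtain ⟨p, q, h1, h2, h3, h4⟩ := h
  have hs := size_pos hn
  have hn0 : (0 : ℝ) < n := by exact_mod_cast hn
  have hp0 : 0 ≤ (p : ℝ) * n := mul_nonneg p.2.1 hn0.le
  have hq0 : 0 ≤ (q : ℝ) * n := mul_nonneg q.2.1 hn0.le
  have a1 := Nat.floor_le hp0
  have a2 := Nat.lt_floor_add_one ((p : ℝ) * n)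
  have b1 := Nat.floor_le hq0
  have b2 := Nat.lt_floor_add_one ((q : ℝ) * n)
  have c1 := mul_le_mul_of_nonneg_right h1 hn0.le
  have c2 := mul_le_mul_of_nonneg_right h2 hn0.le
  have c3 := mul_le_mul_of_nonneg_right h3 hn0.le
  rw [add_mul] at c2
  rw [sub_mul, one_mul] at c3
  have hi : ⌊(p : ℝ) * n⌋₊ ≤ n := by
    have : (⌊(p : ℝ) * n⌋₊ : ℝ) ≤ n := a1.trans (mul_le_of_le_one_left hn0.le p.2.2)
    exact_mod_cast this
  have hj : ⌊(q : ℝ) * n⌋₊ ≤ n := by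
    have : (⌊(q : ℝ) * n⌋₊ : ℝ) ≤ n := b1.trans (mul_le_of_le_one_left hn0.le q.2.2)
    exact_mod_cast this
  refine ⟨⌊(p : ℝ) * n⌋₊, ⌊(q : ℝ) * n⌋₊, ?_, ?_, ?_, ?_⟩
  · have : (w : ℝ) < ⌊(p : ℝ) * n⌋₊ := by linarith
    exact_mod_cast this.le
  · have : ((⌊(p : ℝ) * n⌋₊ : ℕ) : ℝ) + d < ⌊(q : ℝ) * n⌋₊ := by linarith
    exact_mod_cast this.le
  · have : ((⌊(q : ℝ) * n⌋₊ : ℕ) : ℝ) + w ≤ n := by linarith
    exact_mod_cast this
  · have e1 : ∀ k : ℕ, k ≤ n → curve s (pt n k) = pos s k / size n := by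
      intro k hk
      rw [curve_Pl, pt_val hn hk, Pl_nat s hk]
    have e2 : ∀ (u : unitInterval), ⌊(u : ℝ) * n⌋₊ ≤ n → ‖curve s u - curve s (pt n ⌊(u : ℝ) * n⌋₊)‖ ≤ 1 / size n := by
      intro u hu
      rw [e1 _ hu, ← Pl_nat s hu, curve_Pl, ← sub_div, norm_div, Complex.norm_of_nonneg hs.le]
      refine div_le_div_of_nonneg_right ?_ hs.le
      have u0 : 0 ≤ (u : ℝ) * n := mul_nonneg u.2.1 hn0.le
      have u1 := Nat.floor_le u0
      have u2 := Nat.lt_floor_add_one ((u : ℝ) * n)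
      refine Pl_close s u0 (Nat.cast_nonneg _) ?_
      refine (abs_min_sub_min_le_max _ _ _ _).trans (max_le ?_ (by simp))
      rw [abs_le]
      constructor <;> linarith
    have e3 := e2 p hi
    have e4 := e2 q hj
    rw [dist_eq_norm] at h4
    have e5 : curve s (pt n ⌊(p : ℝ) * n⌋₊) - curve s (pt n ⌊(q : ℝ) * n⌋₊) =
        (curve s q - curve s (pt n ⌊(q : ℝ) * n⌋₊)) - (curve s p - curve s (pt n ⌊(p : ℝ) * n⌋₊)) - (curve s q - curve s p) := by
      ring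
    rw [e5]
    have e6 : δ + 2 / size n ≤ e := by
      have : (δ + 2 / size n) * size n ≤ e * size n := by
        rw [add_mul, div_mul_cancel₀ _ hs.ne']
        exact he
      exact le_of_mul_le_mul_right this hs
    have e7 : 2 / size n = 1 / size n + 1 / size n := by ring
    refine (norm_sub_le _ _).trans ?_
    have e8 := norm_sub_le (curve s q - curve s (pt n ⌊(q : ℝ) * n⌋₊)) (curve s p - curve s (pt n ⌊(p : ℝ) * n⌋₊))
    linarith

end Dp

open Dp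

/-- **the polygons have no near double points** -/
theorem pol_dp (hW : WDp) : ∀ ε τ κ : ℝ, 0 < ε → 0 < τ → 0 < κ → ∃ δ : ℝ, 0 < δ ∧ ∃ n0 : ℕ, ∀ n : ℕ, n0 ≤ n → Odd n →
    plaw n {γ : C(unitInterval, ℂ) | ∃ p q : unitInterval, τ ≤ p ∧ (p : ℝ) + κ ≤ q ∧ (q : ℝ) ≤ 1 - τ ∧ dist (γ q) (γ p) < δ} ≤
      ENNReal.ofReal ε := by
  intro ε τ κ hε hτ hκ
  obtain ⟨c0, C0, hc0, hsz⟩ := (oneFacts finE).sz
  have hcC : c0 ≤ C0 := by
    have h1 := hsz 1 le_rfl
    rw [Nat.cast_one, Real.one_rpow, mul_one, mul_one] at h1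
    exact h1.1.trans h1.2
  have hC0 : 0 < C0 := by linarith
  have hsg : ∀ n, 1 ≤ n → c0 ≤ sg n ∧ sg n ≤ C0 := by
    intro n hn
    have p1 := nr_pos hn
    unfold sg
    rw [le_div_iff₀ p1, div_le_iff₀ p1]
    exact hsz n hn
  obtain ⟨K, hK⟩ : ∃ K : ℝ, K = max 1 (max C0 (1 / c0)) := ⟨_, rfl⟩
  have hK1 : 1 ≤ K := hK ▸ le_max_left _ _
  have hKC : C0 ≤ K := hK ▸ (le_max_left _ _).trans (le_max_right _ _)
  have hKc : 1 / c0 ≤ K := hK ▸ (le_max_right _ _).trans (le_max_right _ _)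
  have hK0 : 0 < K := by linarith
  obtain ⟨r1, hr1, hcmp⟩ := dp_cmp (ε / 2) (τ / 8) K (by positivity) (by positivity) hK1
  obtain ⟨r2, hr2, -, hnear⟩ := near_low
  -- the radius
  obtain ⟨r, hr, hrr1, hrr2, hrr3, hrr4⟩ : ∃ r : ℝ, 0 < r ∧ r ≤ r1 ∧ r ≤ r2 ∧ r ^ (4 / 3 : ℝ) ≤ τ / 8 ∧ r ^ (4 / 3 : ℝ) ≤ 1 / 2 := by
    obtain ⟨v, hv⟩ : ∃ v : ℝ, v = min (τ / 8) (1 / 2) := ⟨_, rfl⟩
    have hv0 : 0 < v := by
      rw [hv]
      positivity
    refine ⟨min (min r1 r2) (v ^ (3 / 4 : ℝ)), by positivity, (min_le_left _ _).trans (min_le_left _ _),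
      (min_le_left _ _).trans (min_le_right _ _), ?_⟩
    have h1 : (min (min r1 r2) (v ^ (3 / 4 : ℝ))) ^ (4 / 3 : ℝ) ≤ v := by
      calc (min (min r1 r2) (v ^ (3 / 4 : ℝ))) ^ (4 / 3 : ℝ) ≤ (v ^ (3 / 4 : ℝ)) ^ (4 / 3 : ℝ) :=
            Real.rpow_le_rpow (by positivity) (min_le_right _ _) (by norm_num)
        _ = v := by
            rw [← Real.rpow_mul hv0.le]
            norm_num
    exact ⟨h1.trans (hv ▸ min_le_left _ _), h1.trans (hv ▸ min_le_right _ _)⟩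
  obtain ⟨n1, hcmp⟩ := hcmp r hr hrr1
  obtain ⟨c, n2, hc, hnear⟩ := hnear r hr hrr2
  -- the walks
  obtain ⟨δ', hδ', n3, hwalk⟩ := hW (c * ε / 2) (κ / 2) (by positivity) (by positivity)
  obtain ⟨q, hq⟩ : ∃ q : ℝ, q = c0 / (2 * C0) := ⟨_, rfl⟩
  have hq0 : 0 < q := by
    rw [hq]
    positivity
  have hlim : Tendsto (fun n : ℕ => size n) atTop atTop := by
    have h1 : Tendsto (fun n : ℕ => c0 * (n : ℝ) ^ (3 / 4 : ℝ)) atTop atTop :=
      ((tendsto_rpow_atTop (by norm_num : (0 : ℝ) < 3 / 4)).comp tendsto_natCast_atTop_atTop).const_mul_atTop hc0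
    refine tendsto_atTop_mono' _ ?_ h1
    filter_upwards [eventually_ge_atTop 1] with i hi
    exact (hsz _ hi).1
  obtain ⟨n4, h4⟩ := (hlim.eventually_ge_atTop (2 / (δ' * q / 2))).exists_forall_of_atTop
  obtain ⟨n5, hn5⟩ := exists_nat_ge (8 / τ + 8 / κ + 8)
  refine ⟨δ' * q / 2, by positivity, 2 * (n1 + n2 + n3 + n4 + n5 + 3), fun n hn ho => ?_⟩
  have hn1 : 1 ≤ n := by omega
  have hn0 : (0 : ℝ) < n := by exact_mod_cast hn1
  have hs := size_pos hn1
  have hbig : 8 / τ + 8 / κ + 8 ≤ n := hn5.trans (by exact_mod_cast (by omega : n5 ≤ n))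
  have ht8 : 8 ≤ τ * n := by
    have h1 : 8 / τ ≤ n := by
      have : 0 < 8 / κ := by positivity
      linarith
    rwa [div_le_iff₀' hτ] at h1
  have hk8 : 8 ≤ κ * n := by
    have h1 : 8 / κ ≤ n := by
      have : 0 < 8 / τ := by positivity
      linarith
    rwa [div_le_iff₀' hκ] at h1
  -- the parameters
  obtain ⟨W, hWd⟩ : ∃ W : ℕ, W = ⌈τ * n / 4⌉₊ := ⟨_, rfl⟩
  have hW1 : τ * n / 4 ≤ W := hWd ▸ Nat.le_ceil _
  have hW2 : (W : ℝ) < τ * n / 4 + 1 := hWd ▸ Nat.ceil_lt_add_one (by positivity)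
  obtain ⟨d, hdd⟩ : ∃ d : ℕ, d = ⌈κ / 2 * n⌉₊ := ⟨_, rfl⟩
  have hd1 : κ / 2 * n ≤ d := hdd ▸ Nat.le_ceil _
  have hd2 : (d : ℝ) < κ / 2 * n + 1 := hdd ▸ Nat.ceil_lt_add_one (by positivity)
  obtain ⟨D, hD⟩ : ∃ D : ℝ, D = δ' * q * size n := ⟨_, rfl⟩
  have hρ1 : r / K ≤ r * sg n := by
    have h1 := (hsg n hn1).1
    rw [div_le_iff₀ hK0, mul_assoc]
    refine le_mul_of_one_le_right hr.le ?_
    rw [div_le_iff₀ hc0] at hKc
    have h2 := mul_le_mul_of_nonneg_right h1 hK0.le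
    linarith
  have hρ2 : r * sg n ≤ K * r := by
    have h1 := (hsg n hn1).2
    rw [mul_comm K r]
    exact mul_le_mul_of_nonneg_left (h1.trans hKC) hr.le
  have key := hcmp n (by omega) ho (r * sg n) hρ1 hρ2 W d D (by linarith)
  have hR : r * sg n * nr n = r * size n := by
    unfold sg
    have := (nr_pos hn1).ne'
    field_simp
  rw [hR] at key
  -- the open words
  have hx := xc_pos
  have hden : c * ∑ k ∈ wdw n r, xc ^ k * (cS k : ℝ) ≤ gS n r (r * size n) fun _ _ => 1 := by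
    unfold gS
    rw [mul_sum]
    refine sum_le_sum fun k hk => ?_
    have hk1 : 1 ≤ k := by
      have h1 := (mem_wdw.1 hk).2
      have h2 : (0 : ℝ) < (1 - r ^ (4 / 3 : ℝ)) * n := mul_pos (by linarith) hn0
      have : (0 : ℝ) < k := by linarith
      exact_mod_cast this
    have h1 := hnear n (by omega) k hk
    rw [near_card hk1, le_div_iff₀ (cS_pos' k)] at h1
    rw [sum_const, nsmul_eq_mul, mul_one]
    calc c * (xc ^ k * (cS k : ℝ)) = xc ^ k * (c * cS k) := by ring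
      _ ≤ _ := mul_le_mul_of_nonneg_left h1 (by positivity)
  have hnum : gS n r (r * size n) (fun _ t => if DPw n W d D t then 1 else 0) ≤
      c * ε / 2 * ∑ k ∈ wdw n r, xc ^ k * (cS k : ℝ) := by
    unfold gS
    rw [mul_sum]
    refine sum_le_sum fun k hk => ?_
    obtain ⟨hk1, hk2⟩ := mem_wdw.1 hk
    have hhalf : (n : ℝ) / 2 ≤ k := by
      have h1 : 1 / 2 * (n : ℝ) ≤ (1 - r ^ (4 / 3 : ℝ)) * n := mul_le_mul_of_nonneg_right (by linarith) hn0.le
      linarith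
    have hhalf' : n ≤ 2 * k := by
      have : (n : ℝ) ≤ 2 * k := by linarith
      exact_mod_cast this
    have hk3 : 1 ≤ k := by omega
    have hk4 : n ≤ k + W := by
      have h1 : r ^ (4 / 3 : ℝ) * n ≤ τ / 8 * n := mul_le_mul_of_nonneg_right hrr3 hn0.le
      have h2 : (n : ℝ) ≤ k + W := by linarith
      exact_mod_cast h2
    have hsk : D ≤ δ' * size k := by
      have h1 := (hsz k hk3).1
      have h2 := (hsz n hn1).2
      have h3 : (n : ℝ) ^ (3 / 4 : ℝ) ≤ 2 * (k : ℝ) ^ (3 / 4 : ℝ) := by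
        calc (n : ℝ) ^ (3 / 4 : ℝ) ≤ (2 * (k : ℝ)) ^ (3 / 4 : ℝ) := Real.rpow_le_rpow hn0.le (by linarith) (by norm_num)
          _ = (2 : ℝ) ^ (3 / 4 : ℝ) * (k : ℝ) ^ (3 / 4 : ℝ) := Real.mul_rpow (by norm_num) (Nat.cast_nonneg _)
          _ ≤ 2 * (k : ℝ) ^ (3 / 4 : ℝ) := by
              refine mul_le_mul_of_nonneg_right ?_ (by positivity)
              calc (2 : ℝ) ^ (3 / 4 : ℝ) ≤ (2 : ℝ) ^ (1 : ℝ) := Real.rpow_le_rpow_of_exponent_le (by norm_num) (by norm_num)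
                _ = 2 := Real.rpow_one 2
      have h5 : q * size n ≤ size k := by
        calc q * size n ≤ q * (C0 * (n : ℝ) ^ (3 / 4 : ℝ)) := mul_le_mul_of_nonneg_left h2 hq0.le
          _ ≤ q * (C0 * (2 * (k : ℝ) ^ (3 / 4 : ℝ))) :=
              mul_le_mul_of_nonneg_left (mul_le_mul_of_nonneg_left h3 hC0.le) hq0.le
          _ = c0 * (k : ℝ) ^ (3 / 4 : ℝ) := by
              rw [hq]
              field_simp
          _ ≤ size k := h1
      rw [hD, mul_assoc]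
      exact mul_le_mul_of_nonneg_left h5 hδ'.le
    have h1 := open_words (n := n) (k := k) (W := W) (d := d) (κ := κ / 2) (δ := δ') (D := D) (ε := c * ε / 2) hk3 (by positivity)
      hk4 hk1 hd1 (by positivity) hsk (hwalk k (by omega)) (r * size n)
    calc xc ^ k * ∑ t ∈ gapF k (r * size n), (if DPw n W d D t then (1 : ℝ) else 0) ≤ xc ^ k * (c * ε / 2 * cS k) :=
          mul_le_mul_of_nonneg_left h1 (by positivity)
      _ = _ := by ring
  have hopen : gS n r (r * size n) (fun _ t => if DPw n W d D t then 1 else 0) / gS n r (r * size n) (fun _ _ => 1) ≤ ε / 2 := by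
    have h1 : (0 : ℝ) < ∑ k ∈ wdw n r, xc ^ k * (cS k : ℝ) := by
      refine sum_pos (fun k _ => mul_pos (by positivity) (cS_pos' k)) ⟨n, mem_wdw.2 ⟨le_rfl, ?_⟩⟩
      have : 0 ≤ r ^ (4 / 3 : ℝ) * n := by positivity
      linarith
    have h2 : 0 < gS n r (r * size n) fun _ _ => 1 := lt_of_lt_of_le (by positivity) hden
    rw [div_le_iff₀ h2]
    refine hnum.trans ?_
    calc c * ε / 2 * ∑ k ∈ wdw n r, xc ^ k * (cS k : ℝ) = ε / 2 * (c * ∑ k ∈ wdw n r, xc ^ k * (cS k : ℝ)) := by ring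
      _ ≤ _ := mul_le_mul_of_nonneg_left hden (by positivity)
  -- the polygons
  have hpol := pol_words (w := 2 * W) (d := d) (by omega : 3 ≤ n) ho (δ' * q)
  rw [← hD] at hpol
  rw [LT.plaw_apply]
  refine ENNReal.ofReal_le_ofReal ?_
  refine le_trans (LT.pmean_mono (G := fun γ => if Dc n (2 * W) d (δ' * q) γ then 1 else 0) fun s _ => ?_) ?_
  · show (if _ then (1 : ℝ) else 0) ≤ if Dc n (2 * W) d (δ' * q) (curve s) then 1 else 0
    by_cases h1 : curve s ∈ {γ : C(unitInterval, ℂ) | ∃ p q_1 : unitInterval, τ ≤ p ∧ (p : ℝ) + κ ≤ q_1 ∧ (q_1 : ℝ) ≤ 1 - τ ∧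
        dist (γ q_1) (γ p) < δ' * q / 2}
    · rw [if_pos h1, if_pos]
      refine to_int (τ := τ) (κ := κ) (δ := δ' * q / 2) hn1 ?_ ?_ ?_ h1
      · push_cast
        linarith
      · linarith
      · have h2 := h4 n (by omega)
        rw [div_le_iff₀ (by positivity)] at h2
        linarith
    · rw [if_neg h1]
      split_ifs <;> norm_num
  · rw [hpol]
    linarith

end Pool.Agent.PMA
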