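import Pool.Agent.PMA.AllG

/-!
# (PM): near double points of the polygons, words (helper41)

`DPw n w d D t`: there are times `w ≤ i`, `i + d ≤ j ≤ n - w` with a distance at most `D`; `dp_shift`: it depends on the common part
of two words only, up to a change of `w`; `dpA`: the average over `w`; `dpA_open`, `dpA_rot`: the hypotheses of `WPMG`;
**`dp_cmp`**: the closed words have hardly more near double points than the open words of the gap.
-/

set_option autoImplicit false

open Finset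

open scoped Classical

namespace Pool.Agent.PMA

open HexObs hiding pos

open HexObs.SDN HexObs.TS HexObs.TIW HexObs.POLP NTSF.Mg NTF Pool.Agent.TSW.BP HexObs.MCP

/-- two near vertices with at least `d` steps in between, away from the ends -/
def DPw (n w d : ℕ) (D : ℝ) (t : List Bool) : Prop :=
  ∃ i j : ℕ, w ≤ i ∧ i + d ≤ j ∧ j + w ≤ n ∧ ‖JJ (vx oo up t i) - JJ (vx oo up t j)‖ ≤ D

lemma JJ_mulN {u : Pt} (hu : nrm u = 1) (p : Pt) : ‖JJ (mulE u p)‖ = ‖JJ p‖ := by
  have h1 := NTF.JJ_norm (mulE u p)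
  have h2 := NTF.JJ_norm p
  rw [nrm_mulE, hu, one_mul] at h1
  have h3 : ‖JJ (mulE u p)‖ ^ 2 = ‖JJ p‖ ^ 2 := by rw [h1, h2]
  exact (sq_eq_sq₀ (norm_nonneg _) (norm_nonneg _)).1 h3

lemma mulE_sub' (u p q : Pt) : mulE u (p - q) = mulE u p - mulE u q := by
  unfold mulE
  ext <;> simp only [Prod.fst_sub, Prod.snd_sub] <;> ring

/-- the distances in the middle part -/
lemma mid_dist (X M Y : List Bool) {i j : ℕ} (hi : i ≤ M.length) (hj : j ≤ M.length) :
    ‖JJ (vx oo up (X ++ (M ++ Y)) (X.length + i)) - JJ (vx oo up (X ++ (M ++ Y)) (X.length + j))‖ =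
      ‖JJ (vx oo up M i) - JJ (vx oo up M j)‖ := by
  have e1 : ∀ k, k ≤ M.length → vx oo up (X ++ (M ++ Y)) (X.length + k) = en X + mulE (rt X) (vx oo up M k) := by
    intro k hk
    rw [vx_app, vx_append (by omega)]
  rw [e1 i hi, e1 j hj, ← NTF.JJ_sub, add_sub_add_left_eq_sub, ← mulE_sub', JJ_mulN (nrm_rt X), NTF.JJ_sub]

/-- **only the common part matters** -/
lemma dp_shift {n w d a : ℕ} {D : ℝ} {X M Y A B : List Bool} (hX : X.length ≤ a) (hB : B.length ≤ a)
    (hM : n ≤ M.length + a) (hw : a ≤ w) (h : DPw n w d D (X ++ (M ++ Y))) : DPw n (w - a) d D (B ++ (M ++ A)) := by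
  obtain ⟨i, j, h1, h2, h3, h4⟩ := h
  obtain ⟨i', rfl⟩ : ∃ i', i = X.length + i' := ⟨i - X.length, by omega⟩
  obtain ⟨j', rfl⟩ : ∃ j', j = X.length + j' := ⟨j - X.length, by omega⟩
  refine ⟨B.length + i', B.length + j', by omega, by omega, by omega, ?_⟩
  rw [mid_dist X M Y (by omega) (by omega)] at h4
  rw [mid_dist B M A (by omega) (by omega)]
  exact h4

lemma dp_mono {n w w' d : ℕ} {D : ℝ} {t : List Bool} (hw : w' ≤ w) (h : DPw n w d D t) : DPw n w' d D t := by
  obtain ⟨i, j, h1, h2, h3, h4⟩ := h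
  exact ⟨i, j, by omega, h2, by omega, h4⟩

/-- the average over `w` between `W` and `2 W` -/
noncomputable def dpA (n W d : ℕ) (D : ℝ) (t : List Bool) : ℝ :=
  (∑ w ∈ range W, if DPw n (W + w) d D t then (1 : ℝ) else 0) / W

lemma dpA_nonneg (n W d : ℕ) (D : ℝ) (t : List Bool) : 0 ≤ dpA n W d D t := by
  unfold dpA
  exact div_nonneg (sum_nonneg fun _ _ => by split_ifs <;> norm_num) (Nat.cast_nonneg _)

lemma dpA_le {n W d : ℕ} {D : ℝ} {t : List Bool} : dpA n W d D t ≤ if DPw n W d D t then 1 else 0 := by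
  unfold dpA
  by_cases h : DPw n W d D t
  · rw [if_pos h]
    refine div_le_one_of_le₀ ?_ (Nat.cast_nonneg _)
    calc ∑ w ∈ range W, (if DPw n (W + w) d D t then (1 : ℝ) else 0) ≤ ∑ _w ∈ range W, (1 : ℝ) :=
          sum_le_sum fun _ _ => by split_ifs <;> norm_num
      _ = W := by rw [sum_const, nsmul_eq_mul, mul_one, card_range]
  · rw [if_neg h]
    have h1 : ∑ w ∈ range W, (if DPw n (W + w) d D t then (1 : ℝ) else 0) = 0 :=
      sum_eq_zero fun w _ => if_neg fun h2 => h (dp_mono (by omega) h2)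
    rw [h1, zero_div]

lemma dpA_ge {n W d : ℕ} (hW : 0 < W) {D : ℝ} {t : List Bool} (h : DPw n (2 * W) d D t) : 1 ≤ dpA n W d D t := by
  have hW' : (0 : ℝ) < W := by exact_mod_cast hW
  unfold dpA
  rw [le_div_iff₀ hW', one_mul]
  calc (W : ℝ) = ∑ _w ∈ range W, (1 : ℝ) := by rw [sum_const, nsmul_eq_mul, mul_one, card_range]
    _ ≤ _ := sum_le_sum fun w hw => by
        rw [mem_range] at hw
        rw [if_pos (dp_mono (by omega) h)]

lemma dpA_abs (n W d : ℕ) (D : ℝ) (t : List Bool) : |dpA n W d D t| ≤ 1 := by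
  rw [abs_of_nonneg (dpA_nonneg _ _ _ _ _)]
  refine dpA_le.trans ?_
  split_ifs <;> norm_num

/-- a shift of the condition changes the average by at most `a / W` -/
lemma dpA_shift {n W d a : ℕ} (hW : 0 < W) {D : ℝ} {t t' : List Bool}
    (h : ∀ w, a ≤ w → DPw n w d D t → DPw n (w - a) d D t') : dpA n W d D t ≤ dpA n W d D t' + a / W := by
  have hW' : (0 : ℝ) < W := by exact_mod_cast hW
  rcases Nat.lt_or_ge W a with h1 | h1
  · have h2 : (1 : ℝ) ≤ a / W := by
      rw [le_div_iff₀ hW', one_mul]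
      exact_mod_cast h1.le
    have h3 := (abs_le.1 (dpA_abs n W d D t)).2
    have h4 := dpA_nonneg n W d D t'
    linarith
  · unfold dpA
    rw [← add_div]
    refine div_le_div_of_nonneg_right ?_ hW'.le
    have h2 : ∀ w ∈ range W, (if DPw n (W + w) d D t then (1 : ℝ) else 0) ≤
        if DPw n (W + w - a) d D t' then (1 : ℝ) else 0 := by
      intro w _
      by_cases h3 : DPw n (W + w) d D t
      · rw [if_pos h3, if_pos (h _ (by omega) h3)]
      · rw [if_neg h3]
        split_ifs <;> norm_num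
    refine (sum_le_sum h2).trans ?_
    obtain ⟨g, hg⟩ : ∃ g : ℕ → ℝ, g = fun w => if DPw n w d D t' then (1 : ℝ) else 0 := ⟨_, rfl⟩
    have g1 : ∀ w, 0 ≤ g w := fun w => by
      rw [hg]
      show (0 : ℝ) ≤ if _ then _ else _
      split_ifs <;> norm_num
    have g2 : ∀ w, g w ≤ 1 := fun w => by
      rw [hg]
      show (if _ then _ else _) ≤ (1 : ℝ)
      split_ifs <;> norm_num
    have e1 : ∑ w ∈ range W, (if DPw n (W + w - a) d D t' then (1 : ℝ) else 0) = ∑ w ∈ range W, g (W - a + w) := by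
      refine sum_congr rfl fun w _ => ?_
      rw [hg]
      show _ = if DPw n (W - a + w) d D t' then (1 : ℝ) else 0
      rw [show W + w - a = W - a + w by omega]
    have e2 : ∑ w ∈ range W, (if DPw n (W + w) d D t' then (1 : ℝ) else 0) = ∑ w ∈ range W, g (W + w) := by
      rw [hg]
    rw [e1, e2]
    have e3 : ∑ w ∈ range W, g (W - a + w) + ∑ w ∈ range a, g (W - a + W + w) =
        ∑ w ∈ range a, g (W - a + w) + ∑ w ∈ range W, g (W + w) := by
      have k1 := sum_range_add (fun w => g (W - a + w)) W a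
      have k2 := sum_range_add (fun w => g (W - a + w)) a W
      have k3 : ∑ w ∈ range W, g (W - a + (a + w)) = ∑ w ∈ range W, g (W + w) :=
        sum_congr rfl fun w _ => by rw [show W - a + (a + w) = W + w by omega]
      have k4 : ∑ w ∈ range a, g (W - a + (W + w)) = ∑ w ∈ range a, g (W - a + W + w) :=
        sum_congr rfl fun w _ => by rw [← add_assoc]
      rw [add_comm W a, k4] at k1
      rw [k3] at k2
      linarith
    have e4 : ∑ w ∈ range a, g (W - a + w) ≤ a := by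
      calc ∑ w ∈ range a, g (W - a + w) ≤ ∑ _w ∈ range a, (1 : ℝ) := sum_le_sum fun w _ => g2 _
        _ = a := by rw [sum_const, nsmul_eq_mul, mul_one, card_range]
    have e5 : 0 ≤ ∑ w ∈ range a, g (W - a + W + w) := sum_nonneg fun w _ => g1 _
    linarith

lemma dpA_near {n W d a : ℕ} (hW : 0 < W) {D : ℝ} {X M Y A B : List Bool} (hX : X.length ≤ a) (hB : B.length ≤ a)
    (hM : n ≤ M.length + a) : |dpA n W d D (X ++ (M ++ Y)) - dpA n W d D (B ++ (M ++ A))| ≤ a / W := by
  have h1 := dpA_shift (n := n) (d := d) (a := a) hW (D := D) (t := X ++ (M ++ Y)) (t' := B ++ (M ++ A))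
    fun w hw h => dp_shift hX hB hM hw h
  have h2 := dpA_shift (n := n) (d := d) (a := a) hW (D := D) (t := B ++ (M ++ A)) (t' := X ++ (M ++ Y))
    fun w hw h => dp_shift hB hX hM hw h
  rw [abs_le]
  constructor <;> linarith

/-- **open words and closed words** -/
lemma dpA_open {n W d : ℕ} (hW : 0 < W) {D Cr : ℝ} (hCr : (n : ℝ) ≤ Cr * W) (hn : 0 < n) {X M Y A B : List Bool}
    (h : (B ++ (M ++ A)).length = n + 1) :
    |dpA n W d D (X ++ (M ++ Y)) - dpA n W d D (B ++ (M ++ A))| ≤ Cr * (((X.length + Y.length + (A.length + B.length) : ℕ) : ℝ) / n) := by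
  obtain ⟨a, ha⟩ : ∃ a, a = X.length + Y.length + (A.length + B.length) := ⟨_, rfl⟩
  have hl : B.length + (M.length + A.length) = n + 1 := by
    rw [← h, List.length_append, List.length_append]
  have h1 := dpA_near (n := n) (W := W) (d := d) (a := a) hW (D := D) (X := X) (M := M) (Y := Y) (A := A) (B := B)
    (by omega) (by omega) (by omega)
  rw [← ha]
  refine h1.trans ?_
  have hW' : (0 : ℝ) < W := by exact_mod_cast hW
  have hn' : (0 : ℝ) < n := by exact_mod_cast hn
  rw [← mul_div_assoc, div_le_div_iff₀ hW' hn']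
  have ha0 : (0 : ℝ) ≤ a := Nat.cast_nonneg a
  calc (a : ℝ) * n ≤ a * (Cr * W) := mul_le_mul_of_nonneg_left hCr ha0
    _ = Cr * a * W := by ring

/-- **rotations of closed words** -/
lemma dpA_rot {n W d : ℕ} (hW : 0 < W) {D Cr : ℝ} (hCr : ((n + 1 : ℕ) : ℝ) ≤ Cr * W) {L : List Bool} (hL : L.length = n + 1) {u : ℕ}
    (hu : u < n + 1) : |dpA n W d D (L.rotate u) - dpA n W d D L| ≤ Cr * (u / ((n + 1 : ℕ) : ℝ)) := by
  have e1 : L.rotate u = [] ++ (L.drop u ++ L.take u) := by
    rw [List.rotate_eq_drop_append_take (by omega), List.nil_append]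
  have e2 : L = L.take u ++ (L.drop u ++ []) := by
    rw [List.append_nil, List.take_append_drop]
  have h1 := dpA_near (n := n) (W := W) (d := d) (a := u) hW (D := D) (X := []) (M := L.drop u) (Y := L.take u) (A := [])
    (B := L.take u) (by simp) (by rw [List.length_take]; omega) (by rw [List.length_drop]; omega)
  rw [← e1, ← e2] at h1
  refine h1.trans ?_
  have hW' : (0 : ℝ) < W := by exact_mod_cast hW
  have hn' : (0 : ℝ) < ((n + 1 : ℕ) : ℝ) := by positivity
  rw [← mul_div_assoc, div_le_div_iff₀ hW' hn']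
  have ha0 : (0 : ℝ) ≤ u := Nat.cast_nonneg u
  calc (u : ℝ) * ((n + 1 : ℕ) : ℝ) ≤ u * (Cr * W) := mul_le_mul_of_nonneg_left hCr ha0
    _ = Cr * u * W := by ring

/-- **near double points of the closed words** -/
theorem dp_cmp : ∀ ε τ K : ℝ, 0 < ε → 0 < τ → 1 ≤ K → ∃ r0 : ℝ, 0 < r0 ∧ ∀ r : ℝ, 0 < r → r ≤ r0 → ∃ n0 : ℕ,
    ∀ n : ℕ, n0 ≤ n → Odd n → ∀ ρ : ℝ, r / K ≤ ρ → ρ ≤ K * r → ∀ (W d : ℕ) (D : ℝ), τ * n ≤ W →
      (((cyF (n + 1)).filter fun t => DPw n (2 * W) d D t).card : ℝ) / ((cyF (n + 1)).card : ℝ) ≤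
        gS n r (ρ * nr n) (fun _ t => if DPw n W d D t then 1 else 0) / gS n r (ρ * nr n) (fun _ _ => 1) + ε := by
  intro ε τ K hε hτ hK
  obtain ⟨r0, hr0, h⟩ := wpmG ε (2 / τ) hε (by positivity) K hK
  refine ⟨r0, hr0, fun r hr hrr => ?_⟩
  obtain ⟨n0, h⟩ := h r hr hrr
  refine ⟨n0 + 1, fun n hn ho ρ h1 h2 W d D hW => ?_⟩
  have hn1 : 1 ≤ n := by omega
  have hn' : (0 : ℝ) < n := by exact_mod_cast hn1
  have hW0 : 0 < W := by
    have : (0 : ℝ) < W := lt_of_lt_of_le (by positivity) hW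
    exact_mod_cast this
  have hW1 : (n : ℝ) ≤ 1 / τ * W := by
    rw [div_mul_eq_mul_div, one_mul, le_div_iff₀ hτ]
    linarith
  have hCr : ((n + 1 : ℕ) : ℝ) ≤ 2 / τ * W := by
    have h3 : (1 : ℝ) ≤ n := by exact_mod_cast hn1
    have h4 : 2 / τ * (W : ℝ) = 1 / τ * W + 1 / τ * W := by ring
    rw [h4]
    push_cast
    linarith
  have hCr' : (n : ℝ) ≤ 2 / τ * W := by
    push_cast at hCr
    linarith
  have key := h n (by omega) ho ρ h1 h2 (dpA n W d D) (dpA n W d D) (dpA_abs n W d D) (dpA_abs n W d D)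
    (fun X M Y A B _ h4 => dpA_open hW0 hCr' hn1 h4)
    (fun L hL u hu => dpA_rot hW0 hCr (mem_cyF.1 hL).1 hu)
  have k1 : (((cyF (n + 1)).filter fun t => DPw n (2 * W) d D t).card : ℝ) / ((cyF (n + 1)).card : ℝ) ≤
      (∑ t ∈ cyF (n + 1), dpA n W d D t) / ((cyF (n + 1)).card : ℝ) := by
    refine div_le_div_of_nonneg_right ?_ (Nat.cast_nonneg _)
    calc (((cyF (n + 1)).filter fun t => DPw n (2 * W) d D t).card : ℝ) =
          ∑ _t ∈ (cyF (n + 1)).filter fun t => DPw n (2 * W) d D t, (1 : ℝ) := by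
          rw [sum_const, nsmul_eq_mul, mul_one]
      _ ≤ ∑ t ∈ (cyF (n + 1)).filter fun t => DPw n (2 * W) d D t, dpA n W d D t :=
          sum_le_sum fun t ht => dpA_ge hW0 (mem_filter.1 ht).2
      _ ≤ _ := sum_le_sum_of_subset_of_nonneg (filter_subset _ _) fun t _ _ => dpA_nonneg _ _ _ _ _
  have k2 : gS n r (ρ * nr n) (fun _ t => dpA n W d D t) / gS n r (ρ * nr n) (fun _ _ => 1) ≤
      gS n r (ρ * nr n) (fun _ t => if DPw n W d D t then 1 else 0) / gS n r (ρ * nr n) (fun _ _ => 1) := by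
    have hx := xc_pos
    refine div_le_div_of_nonneg_right ?_ ?_
    · unfold gS
      exact sum_le_sum fun k _ => mul_le_mul_of_nonneg_left (sum_le_sum fun t _ => dpA_le) (by positivity)
    · unfold gS
      exact sum_nonneg fun k _ => mul_nonneg (by positivity) (sum_nonneg fun _ _ => zero_le_one)
  have k3 := (abs_le.1 key).1
  linarith

end Pool.Agent.PMA
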