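import Pool.Agent.PMA.PubDefs
import Pool.Agent.SIM.FinAllS

/-!
# (PM), the limit form: no near double points of the walk at separated times (helper75)

**`walk_dp`** : the probability that the curve of the walk comes within `δ` of itself at two times at distance at least `κ` is at
most `ε`, for small `δ` and large `n`: otherwise some limit of the laws would have double points (`SIM.simple_final`).
-/

set_option autoImplicit false

open MeasureTheory Filter Topology

open scoped Classical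

namespace Pool.Agent.PMA

open Res Pool.Agent.NTS.Res

namespace LimD

/-- the pairs of times at distance at least `κ` -/
def prs (κ : ℝ) : Set (unitInterval × unitInterval) := {x | (x.1 : ℝ) + κ ≤ x.2}

lemma prs_compact (κ : ℝ) : IsCompact (prs κ) := by
  refine IsClosed.isCompact ?_
  exact isClosed_le (by fun_prop) (by fun_prop)

/-- the least distance of two points of the curve with times at distance at least `κ` -/
noncomputable def gp (κ : ℝ) (γ : C(unitInterval, ℂ)) : ℝ :=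
  sInf ((fun x : unitInterval × unitInterval => dist (γ x.2) (γ x.1)) '' prs κ)

lemma gp_cont (κ : ℝ) : Continuous (gp κ) := by
  refine IsCompact.continuous_sInf (prs_compact κ) ?_
  show Continuous fun p : C(unitInterval, ℂ) × (unitInterval × unitInterval) => dist (p.1 p.2.2) (p.1 p.2.1)
  fun_prop

lemma gp_nonneg (κ : ℝ) (γ : C(unitInterval, ℂ)) : 0 ≤ gp κ γ := by
  refine Real.sInf_nonneg ?_
  rintro _ ⟨x, -, rfl⟩
  exact dist_nonneg

lemma gp_le {κ : ℝ} {γ : C(unitInterval, ℂ)} {p q : unitInterval} (h : (p : ℝ) + κ ≤ q) : gp κ γ ≤ dist (γ q) (γ p) := by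
  refine csInf_le ⟨0, ?_⟩ ⟨(p, q), h, rfl⟩
  rintro _ ⟨x, -, rfl⟩
  exact dist_nonneg

lemma gp_ex {κ : ℝ} (hne : (prs κ).Nonempty) (γ : C(unitInterval, ℂ)) :
    ∃ p q : unitInterval, (p : ℝ) + κ ≤ q ∧ gp κ γ = dist (γ q) (γ p) := by
  obtain ⟨x, hx, h⟩ := (prs_compact κ).exists_sInf_image_eq hne
    (f := fun x : unitInterval × unitInterval => dist (γ x.2) (γ x.1)) (by fun_prop)
  exact ⟨x.1, x.2, hx, h⟩

/-- the cut-off of the event `gp ≤ δ` -/
noncomputable def fc (κ δ : ℝ) : BoundedContinuousFunction C(unitInterval, ℂ) ℝ :=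
  BoundedContinuousFunction.mkOfBound ⟨fun γ => max 0 (min 1 (2 - gp κ γ / δ)), by
    have := gp_cont κ
    fun_prop⟩ 1 fun x y => by
      simp only [ContinuousMap.coe_mk]
      rw [Real.dist_eq, abs_le]
      have h1 : ∀ a : ℝ, 0 ≤ max 0 (min 1 a) ∧ max 0 (min 1 a) ≤ 1 := fun a =>
        ⟨le_max_left _ _, max_le zero_le_one (min_le_left _ _)⟩
      constructor <;> linarith [(h1 (2 - gp κ x / δ)).1, (h1 (2 - gp κ x / δ)).2, (h1 (2 - gp κ y / δ)).1,
        (h1 (2 - gp κ y / δ)).2]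

lemma fc_apply (κ δ : ℝ) (γ : C(unitInterval, ℂ)) : fc κ δ γ = max 0 (min 1 (2 - gp κ γ / δ)) := rfl

lemma fc_nonneg (κ δ : ℝ) (γ : C(unitInterval, ℂ)) : 0 ≤ fc κ δ γ := le_max_left _ _

lemma fc_le (κ δ : ℝ) (γ : C(unitInterval, ℂ)) : fc κ δ γ ≤ 1 := max_le zero_le_one (min_le_left _ _)

lemma fc_one {κ δ : ℝ} (hδ : 0 < δ) {γ : C(unitInterval, ℂ)} (h : gp κ γ ≤ δ) : fc κ δ γ = 1 := by
  have h1 : gp κ γ / δ ≤ 1 := (div_le_one hδ).2 h
  rw [fc_apply, min_eq_left (by linarith), max_eq_right zero_le_one]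

lemma fc_zero {κ δ : ℝ} (hδ : 0 < δ) {γ : C(unitInterval, ℂ)} (h : 2 * δ ≤ gp κ γ) : fc κ δ γ = 0 := by
  have h1 : 2 ≤ gp κ γ / δ := (le_div_iff₀ hδ).2 h
  rw [fc_apply]
  exact max_eq_left ((min_le_right _ _).trans (by linarith))

lemma law_le_int {κ δ : ℝ} (hδ : 0 < δ) (n : ℕ) (E : Set C(unitInterval, ℂ)) (hE : ∀ γ ∈ E, gp κ γ ≤ δ) :
    law n E ≤ ENNReal.ofReal (∫ γ, fc κ δ γ ∂(law n)) := by
  have hc := NTSF.saw_card_pos n
  refine NTSF.law_le ?_ ?_
  · rw [NTSF.integral_law]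
    exact div_nonneg (Finset.sum_nonneg fun s _ => fc_nonneg _ _ _) hc.le
  · rw [NTSF.integral_law, div_mul_cancel₀ _ hc.ne']
    calc (((saw n).filter fun s => curve s ∈ E).card : ℝ) = ∑ s ∈ saw n, if curve s ∈ E then (1 : ℝ) else 0 := by
          rw [Finset.card_filter]
          push_cast
          rfl
      _ ≤ ∑ s ∈ saw n, fc κ δ (curve s) := by
          refine Finset.sum_le_sum fun s _ => ?_
          split_ifs with h
          · exact (fc_one hδ (hE _ h)).ge
          · exact fc_nonneg _ _ _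

end LimD

open LimD in
/-- **no near double points of the walk at separated times** -/
theorem walk_dp (ε κ : ℝ) (hε : 0 < ε) (hκ : 0 < κ) : ∃ δ : ℝ, 0 < δ ∧ ∃ n0 : ℕ, ∀ n : ℕ, n0 ≤ n →
    law n {γ : C(unitInterval, ℂ) | ∃ p q : unitInterval, (p : ℝ) + κ ≤ q ∧ dist (γ q) (γ p) ≤ δ} ≤ ENNReal.ofReal ε := by
  rcases Set.eq_empty_or_nonempty (prs κ) with hemp | hne
  · refine ⟨1, one_pos, 0, fun n _ => ?_⟩
    have e : {γ : C(unitInterval, ℂ) | ∃ p q : unitInterval, (p : ℝ) + κ ≤ q ∧ dist (γ q) (γ p) ≤ 1} = ∅ := by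
      ext γ
      simp only [Set.mem_ofPred_eq, Set.mem_empty_iff_false, iff_false]
      rintro ⟨p, q, h, -⟩
      have : (p, q) ∈ prs κ := h
      rw [hemp] at this
      exact this
    rw [e, measure_empty]
    exact bot_le
  -- the event in terms of `gp`
  have hev : ∀ δ : ℝ, ∀ γ ∈ {γ : C(unitInterval, ℂ) | ∃ p q : unitInterval, (p : ℝ) + κ ≤ q ∧ dist (γ q) (γ p) ≤ δ},
      gp κ γ ≤ δ := by
    rintro δ γ ⟨p, q, h, h2⟩
    exact (gp_le h).trans h2
  by_contra hcon
  push Not at hcon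
  -- a sequence of bad step numbers
  have hbad : ∀ j : ℕ, ∀ m : ℕ, ∃ n : ℕ, m ≤ n ∧ ε < ∫ γ, fc κ (1 / ((j : ℝ) + 1)) γ ∂(law n) := by
    intro j m
    obtain ⟨n, hn, h⟩ := hcon (1 / ((j : ℝ) + 1)) (by positivity) m
    refine ⟨n, hn, ?_⟩
    have h1 := h.trans_le (law_le_int (κ := κ) (δ := 1 / ((j : ℝ) + 1)) (by positivity) n _ (hev _))
    exact (ENNReal.ofReal_lt_ofReal_iff_of_nonneg hε.le).1 h1
  choose N hN1 hN2 using hbad
  -- strictly increasing
  obtain ⟨φ, hφ, hφ2⟩ : ∃ φ : ℕ → ℕ, StrictMono φ ∧ ∀ j, ε < ∫ γ, fc κ (1 / ((j : ℝ) + 1)) γ ∂(law (φ j)) := by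
    refine ⟨fun j => Nat.rec (N 0 0) (fun i a => N (i + 1) (a + 1)) j, ?_, ?_⟩
    · refine strictMono_nat_of_lt_succ fun j => ?_
      exact hN1 (j + 1) _
    · intro j
      cases j with
      | zero => exact hN2 0 0
      | succ i => exact hN2 (i + 1) _
  obtain ⟨-, hsub, hinj⟩ := HexObs.SIM.simple_final
  obtain ⟨ψ, hψ, ν, hν, hl⟩ := hsub φ hφ
  have hinj' := hinj _ ν (hφ.comp hψ).tendsto_atTop hν hl
  -- the cut-offs are monotone in `δ`
  have hmono : ∀ (i j : ℕ), i ≤ j → ∀ γ, fc κ (1 / ((j : ℝ) + 1)) γ ≤ fc κ (1 / ((i : ℝ) + 1)) γ := by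
    intro i j hij γ
    have h1 : (i : ℝ) ≤ j := by exact_mod_cast hij
    have h2 : gp κ γ / (1 / ((i : ℝ) + 1)) ≤ gp κ γ / (1 / ((j : ℝ) + 1)) := by
      rw [div_div_eq_mul_div, div_div_eq_mul_div, div_one, div_one]
      exact mul_le_mul_of_nonneg_left (by linarith) (gp_nonneg κ γ)
    rw [fc_apply, fc_apply]
    exact max_le_max le_rfl (min_le_min le_rfl (by linarith))
  -- every cut-off has integral at least `ε` in the limit
  have hge : ∀ i : ℕ, ε ≤ ∫ γ, fc κ (1 / ((i : ℝ) + 1)) γ ∂ν := by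
    intro i
    refine ge_of_tendsto (hl (fc κ (1 / ((i : ℝ) + 1)))) ?_
    filter_upwards [hψ.tendsto_atTop.eventually_ge_atTop i] with k hk
    have h1 := hφ2 (ψ k)
    have h2 : ∫ γ, fc κ (1 / (((ψ k : ℕ) : ℝ) + 1)) γ ∂(law (φ (ψ k))) ≤ ∫ γ, fc κ (1 / ((i : ℝ) + 1)) γ ∂(law (φ (ψ k))) := by
      rw [NTSF.integral_law, NTSF.integral_law]
      exact div_le_div_of_nonneg_right (Finset.sum_le_sum fun s _ => hmono i (ψ k) hk _) (NTSF.saw_card_pos _).le
    exact h1.le.trans h2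
  -- and the integrals tend to `0`
  have hlim : Tendsto (fun i : ℕ => ∫ γ, fc κ (1 / ((i : ℝ) + 1)) γ ∂ν) atTop (𝓝 (∫ _ : C(unitInterval, ℂ), (0 : ℝ) ∂ν)) := by
    refine tendsto_integral_of_dominated_convergence (fun _ => (1 : ℝ)) ?_ (integrable_const _) ?_ ?_
    · intro i
      exact (fc κ (1 / ((i : ℝ) + 1))).continuous.aestronglyMeasurable
    · intro i
      refine Eventually.of_forall fun γ => ?_
      rw [Real.norm_eq_abs, abs_of_nonneg (fc_nonneg _ _ _)]
      exact fc_le _ _ _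
    · filter_upwards [hinj'] with γ hγ
      obtain ⟨p, q, hpq, hg⟩ := gp_ex hne γ
      have hpos : 0 < gp κ γ := by
        rw [hg]
        refine dist_pos.2 fun h => ?_
        have h1 := hγ h
        rw [h1] at hpq
        linarith
      refine tendsto_const_nhds.congr' ?_
      have h2 : Tendsto (fun i : ℕ => 2 * (1 / ((i : ℝ) + 1))) atTop (𝓝 (2 * 0)) :=
        tendsto_one_div_add_atTop_nhds_zero_nat.const_mul 2
      rw [mul_zero] at h2
      filter_upwards [h2.eventually_le_const hpos] with i hi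
      exact (fc_zero (by positivity) hi).symm
  rw [integral_zero] at hlim
  have := ge_of_tendsto' hlim hge
  linarith

end Pool.Agent.PMA
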