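import Pool.Agent.PMA.Lim
import Pool.Agent.RMP.LimNeg

/-!
# The limit form of (PM), no hypothesis (helper41)
-/

set_option autoImplicit false

namespace Pool.Agent.PMA

/-- **the polygon in the scaling limit** -/
theorem pmLim : PMLim := pmLim_of Pool.Agent.RMP.neg

end Pool.Agent.PMA
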