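import Pool.Agent.PMA.LimS
import Pool.Agent.PMA.LimD
import Pool.Agent.PMA.DpP
import Pool.Agent.PMA.LimZ
import Pool.Agent.SCF.FamOf
import Pool.Agent.SCF.FlowPub3

/-!
# The scaling limits of the polygons as functions of the scaling limits of the walk (helper41)

* `IsFlow T c` : the first property of the change of the scale of ScaleFlow;
* **`pol_flow (hT : IsFlow T c)`** : there is a continuous map `P` on the set `WL` of the weak limits of the walk: if the laws of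
  the walks converge to `ν` along a sequence of odd numbers, the laws of the polygons converge to `P ν`; the image is the set of
  all weak limits of the polygons; `P ν` is a law of simple loops, symmetric and invariant under the change of the starting time;
  it is the limit of `ν` conditioned to be nearly closed, uniformly in `ν`.
-/

set_option autoImplicit false

open MeasureTheory Filter Topology Set

open scoped Classical

namespace Pool.Agent.PMA

open Res Pool.Agent.NTS.Res Pool.Agent.RMP Pool.Agent.SCF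

open NTSF.Mg (WL toLP_cont slow_curves)

/-- the change of the scale: the limits along `⌊t φ⌋` -/
def IsFlow (T : ℝ → ProbabilityMeasure C(unitInterval, ℂ) → ProbabilityMeasure C(unitInterval, ℂ))
    (c : ℝ → ProbabilityMeasure C(unitInterval, ℂ) → ℝ) : Prop :=
  ∀ (t : ℝ) (φ : ℕ → ℕ) (ν : ProbabilityMeasure C(unitInterval, ℂ)), 0 < t → t ≤ 1 → Tendsto φ atTop atTop →
    LawTo φ (ν : Measure C(unitInterval, ℂ)) →
      LawTo (fun j => ⌊t * φ j⌋₊) (T t ν : Measure C(unitInterval, ℂ)) ∧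
      Tendsto (fun j => size ⌊t * φ j⌋₊ / size (φ j)) atTop (𝓝 (c t ν))

/-- The laws of the polygons along `φ` converge weakly to `π`. -/
def PolTo (φ : ℕ → ℕ) (π : Measure C(unitInterval, ℂ)) : Prop := ∀ f : BoundedContinuousFunction C(unitInterval, ℂ) ℝ,
  Tendsto (fun k => ∫ γ, f γ ∂(plaw (φ k))) atTop (𝓝 (∫ γ, f γ ∂π))

namespace Fp

/-- the odd number -/
def od (n : ℕ) : ℕ := 2 * (n / 2) + 1

lemma od_odd (n : ℕ) : Odd (od n) := ⟨n / 2, rfl⟩

lemma od_of {n : ℕ} (h : Odd n) : od n = n := by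
  obtain ⟨k, hk⟩ := h
  unfold od
  omega

lemma od_ge (n : ℕ) : n ≤ od n := by
  unfold od
  omega

lemma od_le (n : ℕ) : od n ≤ n + 1 := by
  unfold od
  omega

lemma od_top {θ : ℕ → ℕ} (hθ : Tendsto θ atTop atTop) : Tendsto (fun k => od (θ k)) atTop atTop :=
  tendsto_atTop_mono (fun _ => od_ge _) hθ

lemma od_ratio {θ : ℕ → ℕ} (hθ : Tendsto θ atTop atTop) : Tendsto (fun k => ((od (θ k) : ℕ) : ℝ) / θ k) atTop (𝓝 1) := by
  have hr : Tendsto (fun k => (θ k : ℝ)) atTop atTop := tendsto_natCast_atTop_atTop.comp hθ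
  have h1 : Tendsto (fun k => 1 + 1 / (θ k : ℝ)) atTop (𝓝 (1 + 0)) :=
    tendsto_const_nhds.add (tendsto_const_nhds.div_atTop hr)
  rw [add_zero] at h1
  refine tendsto_of_tendsto_of_tendsto_of_le_of_le' tendsto_const_nhds h1 ?_ ?_
  · filter_upwards [hr.eventually_gt_atTop 0] with k hk
    rw [le_div_iff₀ hk, one_mul]
    exact_mod_cast od_ge _
  · filter_upwards [hr.eventually_gt_atTop 0] with k hk
    rw [div_le_iff₀ hk, add_mul, one_div_mul_cancel hk.ne', one_mul]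
    exact_mod_cast od_le _

lemma pl_ex (n : ℕ) : ∃ Q : ProbabilityMeasure C(unitInterval, ℂ), IsProbabilityMeasure (plaw (od n)) →
    (Q : Measure C(unitInterval, ℂ)) = plaw (od n) := by
  by_cases h : IsProbabilityMeasure (plaw (od n))
  · exact ⟨⟨plaw (od n), h⟩, fun _ => rfl⟩
  · exact ⟨NTSF.PM 1, fun h' => absurd h' h⟩

/-- the laws of the polygons as probability measures -/
noncomputable def pl (n : ℕ) : ProbabilityMeasure C(unitInterval, ℂ) := (pl_ex n).choose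

lemma pl_val : ∃ n0 : ℕ, ∀ n : ℕ, n0 ≤ n → (pl n : Measure C(unitInterval, ℂ)) = plaw (od n) := by
  obtain ⟨n0, h⟩ := plaw_prob
  exact ⟨n0, fun n hn => (pl_ex n).choose_spec (h (od n) (hn.trans (od_ge n)) (od_odd n))⟩

/-- weak convergence of the polygons -/
lemma polTo_iff {φ : ℕ → ℕ} (hφ : Tendsto φ atTop atTop) {π : ProbabilityMeasure C(unitInterval, ℂ)} :
    PolTo (fun k => od (φ k)) (π : Measure C(unitInterval, ℂ)) ↔ Tendsto (fun k => pl (φ k)) atTop (𝓝 π) := by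
  obtain ⟨n0, h0⟩ := pl_val
  rw [ProbabilityMeasure.tendsto_iff_forall_integral_tendsto]
  have e : ∀ f : BoundedContinuousFunction C(unitInterval, ℂ) ℝ,
      (fun k => ∫ γ, f γ ∂(plaw (od (φ k)))) =ᶠ[atTop] fun k => ∫ γ, f γ ∂(pl (φ k) : Measure C(unitInterval, ℂ)) := by
    intro f
    filter_upwards [hφ.eventually_ge_atTop n0] with k hk
    rw [h0 _ hk]
  exact forall_congr' fun f => tendsto_congr' (e f)

lemma polTo_iff' {φ : ℕ → ℕ} (hφ : Tendsto φ atTop atTop) (ho : ∀ k, Odd (φ k)) {π : ProbabilityMeasure C(unitInterval, ℂ)} :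
    PolTo φ (π : Measure C(unitInterval, ℂ)) ↔ Tendsto (fun k => pl (φ k)) atTop (𝓝 π) := by
  rw [← polTo_iff hφ]
  have e : (fun k => od (φ k)) = φ := by
    funext k
    exact od_of (ho k)
  rw [e]

lemma uni {φ : ℕ → ℕ} (hφ : Tendsto φ atTop atTop) (ho : ∀ k, Odd (φ k)) {π : Measure C(unitInterval, ℂ)}
    (hπ : IsProbabilityMeasure π) {μ : ProbabilityMeasure C(unitInterval, ℂ)} (h1 : PolTo φ π)
    (h2 : PolTo φ (μ : Measure C(unitInterval, ℂ))) : π = (μ : Measure C(unitInterval, ℂ)) := by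
  obtain ⟨Q, hQ⟩ : ∃ Q : ProbabilityMeasure C(unitInterval, ℂ), (Q : Measure C(unitInterval, ℂ)) = π := ⟨⟨π, hπ⟩, rfl⟩
  rw [← hQ] at h1 ⊢
  rw [tendsto_nhds_unique ((polTo_iff' hφ ho).1 h1) ((polTo_iff' hφ ho).1 h2)]

lemma pmean_to {φ : ℕ → ℕ} {π : Measure C(unitInterval, ℂ)} (h : PolTo φ π) (F : C(unitInterval, ℂ) → ℝ)
    (hF : ∀ γ, |F γ| ≤ 1) (hL : LipschitzWith 1 F) : Tendsto (fun k => pmean (φ k) F) atTop (𝓝 (∫ γ, F γ ∂π)) := by
  obtain ⟨f, hf⟩ : ∃ f : BoundedContinuousFunction C(unitInterval, ℂ) ℝ, ∀ γ, f γ = F γ :=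
    ⟨BoundedContinuousFunction.ofNormedAddCommGroup F hL.continuous 1 fun γ => by
      rw [Real.norm_eq_abs]
      exact hF γ, fun _ => rfl⟩
  have h1 := h f
  simp only [hf] at h1
  refine h1.congr fun k => ?_
  exact plaw_int' _ _

end Fp

open Fp

/-- the family of a limit -/
lemma fam_flow {T : ℝ → ProbabilityMeasure C(unitInterval, ℂ) → ProbabilityMeasure C(unitInterval, ℂ)}
    {c : ℝ → ProbabilityMeasure C(unitInterval, ℂ) → ℝ} (hT : IsFlow T c) {φ : ℕ → ℕ} (hφ : Tendsto φ atTop atTop)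
    {ν : ProbabilityMeasure C(unitInterval, ℂ)} (h : LawTo φ (ν : Measure C(unitInterval, ℂ))) :
    Fam φ (fun x => (T x ν : Measure C(unitInterval, ℂ))) (fun x => c x ν) :=
  ⟨hφ, fun _ _ _ => inferInstance, fun x x0 x1 => (hT x φ ν x0 x1 hφ h).1, fun x x0 x1 => (hT x φ ν x0 x1 hφ h).2⟩

/-- **the scaling limits of the polygons** -/
theorem pol_flow {T : ℝ → ProbabilityMeasure C(unitInterval, ℂ) → ProbabilityMeasure C(unitInterval, ℂ)}
    {c : ℝ → ProbabilityMeasure C(unitInterval, ℂ) → ℝ} (hT : IsFlow T c) :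
    ∃ P : ProbabilityMeasure C(unitInterval, ℂ) → ProbabilityMeasure C(unitInterval, ℂ),
      (∀ (φ : ℕ → ℕ) (ν : ProbabilityMeasure C(unitInterval, ℂ)), Tendsto φ atTop atTop → (∀ k, Odd (φ k)) →
        LawTo φ (ν : Measure C(unitInterval, ℂ)) → PolTo φ (P ν : Measure C(unitInterval, ℂ))) ∧
      ContinuousOn P WL ∧
      P '' WL = {π : ProbabilityMeasure C(unitInterval, ℂ) | ∃ φ : ℕ → ℕ, Tendsto φ atTop atTop ∧ (∀ k, Odd (φ k)) ∧
        PolTo φ (π : Measure C(unitInterval, ℂ))} ∧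
      (∀ ν ∈ WL, (∀ᵐ γ ∂(P ν : Measure C(unitInterval, ℂ)), γ 0 = 0 ∧ γ 1 = 0 ∧
          ∀ p q : unitInterval, γ p = γ q → p = q ∨ (p = 0 ∧ q = 1) ∨ (p = 1 ∧ q = 0)) ∧
        (P ν : Measure C(unitInterval, ℂ)).map (fun γ => -γ) = (P ν : Measure C(unitInterval, ℂ)) ∧
        ∀ u : ℝ, 0 ≤ u → u ≤ 1 → (P ν : Measure C(unitInterval, ℂ)).map (rot u) = (P ν : Measure C(unitInterval, ℂ))) ∧
      ∀ ε : ℝ, 0 < ε → ∃ r0 : ℝ, 0 < r0 ∧ ∀ ν ∈ WL, ∀ r : ℝ, 0 < r → r ≤ r0 →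
        0 < closeI (fun x => (T x ν : Measure C(unitInterval, ℂ))) (fun x => c x ν) r (fun _ => 1) ∧
        ∀ F : C(unitInterval, ℂ) → ℝ, (∀ γ, |F γ| ≤ 1) → LipschitzWith 1 F →
          |closeI (fun x => (T x ν : Measure C(unitInterval, ℂ))) (fun x => c x ν) r F /
            closeI (fun x => (T x ν : Measure C(unitInterval, ℂ))) (fun x => c x ν) r (fun _ => 1) -
              ∫ γ, F γ ∂(P ν : Measure C(unitInterval, ℂ))| ≤ ε := by
  have hne : Nonempty (LevyProkhorov (ProbabilityMeasure C(unitInterval, ℂ))) := ⟨xs 1⟩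
  -- the odd sequence near a sequence
  have odl : ∀ (θ : ℕ → ℕ) (ν : ProbabilityMeasure C(unitInterval, ℂ)), Tendsto θ atTop atTop →
      LawTo θ (ν : Measure C(unitInterval, ℂ)) → LawTo (fun k => od (θ k)) (ν : Measure C(unitInterval, ℂ)) :=
    fun θ ν hθ h => Full.law_equiv hθ (od_ratio hθ) inferInstance h
  -- the limit exists
  have ha : ∀ t : ℝ, t ∈ (univ : Set ℝ) → ∀ (θ : ℕ → ℕ) (ν : LevyProkhorov (ProbabilityMeasure C(unitInterval, ℂ))),
      Tendsto θ atTop atTop → Tendsto (fun k => xs (θ k)) atTop (𝓝 ν) →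
      ∃ z, Tendsto (fun k => (fun (_ : ℝ) (n : ℕ) => LevyProkhorov.ofMeasure (pl n)) t (θ k)) atTop (𝓝 z) := by
    intro t _ θ ν hθ hν
    have h1 := odl θ ν.toMeasure hθ ((lim_iff' ν).1 hν)
    obtain ⟨r0, hr0, h2⟩ := pmLim 1 one_pos
    obtain ⟨π, hπ, -, h3, -⟩ := h2 _ _ _ (fam_flow hT (od_top hθ) h1) (fun k => od_odd _)
    have h4 : Tendsto (fun k => pl (θ k)) atTop (𝓝 (⟨π, hπ⟩ : ProbabilityMeasure C(unitInterval, ℂ))) :=
      (polTo_iff hθ).1 h3
    exact ⟨_, (toLP_cont.tendsto _).comp h4⟩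
  obtain ⟨F, hF, hFc⟩ := semi_existsI (x := xs) (y := fun (_ : ℝ) (n : ℕ) => LevyProkhorov.ofMeasure (pl n)) (J := univ)
    ha (fun t _ ε hε => ⟨1, one_pos, 0, fun n _ s _ _ => by
      rw [dist_self]
      exact hε.le⟩)
  obtain ⟨P, hP⟩ : ∃ P : ProbabilityMeasure C(unitInterval, ℂ) → ProbabilityMeasure C(unitInterval, ℂ),
      ∀ ν, P ν = (F 0 (LevyProkhorov.ofMeasure ν)).toMeasure := ⟨_, fun _ => rfl⟩
  have cv : ∀ (φ : ℕ → ℕ) (ν : ProbabilityMeasure C(unitInterval, ℂ)), Tendsto φ atTop atTop →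
      LawTo φ (ν : Measure C(unitInterval, ℂ)) → Tendsto (fun k => pl (φ k)) atTop (𝓝 (P ν)) := by
    intro φ ν hφ h
    have h1 := hF 0 φ (LevyProkhorov.ofMeasure ν) (mem_univ _) hφ ((lim_iff ν).1 h)
    rw [hP]
    exact (LevyProkhorov.continuous_toMeasure_probabilityMeasure.tendsto (F 0 (LevyProkhorov.ofMeasure ν))).comp h1
  have cvo : ∀ (φ : ℕ → ℕ) (ν : ProbabilityMeasure C(unitInterval, ℂ)), Tendsto φ atTop atTop → (∀ k, Odd (φ k)) →
      LawTo φ (ν : Measure C(unitInterval, ℂ)) → PolTo φ (P ν : Measure C(unitInterval, ℂ)) :=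
    fun φ ν hφ ho h => (polTo_iff' hφ ho).2 (cv φ ν hφ h)
  -- an odd sequence for each limit
  have ex : ∀ ν ∈ WL, ∃ φ : ℕ → ℕ, Tendsto φ atTop atTop ∧ (∀ k, Odd (φ k)) ∧ LawTo φ (ν : Measure C(unitInterval, ℂ)) := by
    intro ν hν
    obtain ⟨θ, hθ, h⟩ := mem_Lm_iff.2 hν
    exact ⟨fun k => od (θ k), od_top hθ, fun k => od_odd _, odl θ ν hθ ((lim_iff ν).2 h)⟩
  refine ⟨P, cvo, ?_, ?_, fun ν hν => ?_, fun ε hε => ?_⟩
  · have e : P = LevyProkhorov.toMeasure ∘ (fun p : ℝ × LevyProkhorov (ProbabilityMeasure C(unitInterval, ℂ)) => F p.1 p.2) ∘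
        fun ν : ProbabilityMeasure C(unitInterval, ℂ) => ((0 : ℝ), LevyProkhorov.ofMeasure ν) := by
      funext ν
      exact hP ν
    rw [e]
    have g2 : Continuous fun ν : ProbabilityMeasure C(unitInterval, ℂ) => ((0 : ℝ), LevyProkhorov.ofMeasure ν) :=
      continuous_const.prodMk toLP_cont
    refine LevyProkhorov.continuous_toMeasure_probabilityMeasure.comp_continuousOn (hFc.comp g2.continuousOn ?_)
    intro ν hν
    exact ⟨mem_univ _, mem_Lm_iff.2 hν⟩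
  · ext π
    constructor
    · rintro ⟨ν, hν, rfl⟩
      obtain ⟨φ, hφ, ho, h⟩ := ex ν hν
      exact ⟨φ, hφ, ho, cvo φ ν hφ ho h⟩
    · rintro ⟨φ, hφ, ho, h⟩
      obtain ⟨K, hK, hxK⟩ := compact_xs
      obtain ⟨y, -, ψ, hψ, h1⟩ := hK.tendsto_subseq (x := fun k => xs (φ k)) (fun k => hxK _)
      have hφψ : Tendsto (fun k => φ (ψ k)) atTop atTop := hφ.comp hψ.tendsto_atTop
      refine ⟨y.toMeasure, mem_Lm_iff.1 ⟨_, hφψ, h1⟩, ?_⟩
      have h2 := cv (fun k => φ (ψ k)) y.toMeasure hφψ ((lim_iff' (φ := fun k => φ (ψ k)) y).1 h1)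
      exact tendsto_nhds_unique h2 (((polTo_iff' hφ ho).1 h).comp hψ.tendsto_atTop)
  · obtain ⟨φ, hφ, ho, h⟩ := ex ν hν
    have hp := cvo φ ν hφ ho h
    have hm := pmean_to hp
    obtain ⟨r0, hr0, h2⟩ := pmLim 1 one_pos
    obtain ⟨π, hπ, hl, h3, -⟩ := h2 _ _ _ (fam_flow hT hφ h) ho
    have e' := uni hφ ho hπ h3 hp
    rw [e'] at hl
    have hs := pi_simple inferInstance hφ ho hm hl (pol_dp walk_dp)
    refine ⟨?_, pi_neg inferInstance hφ ho hm, fun u h0 h1 => pi_rot inferInstance hφ ho hm u h0 h1⟩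
    filter_upwards [hl, hs] with γ g1 g2
    exact ⟨g1.1, g1.2, g2⟩
  · obtain ⟨r0, hr0, h2⟩ := pmLim ε hε
    refine ⟨r0, hr0, fun ν hν r hr hrr => ?_⟩
    obtain ⟨φ, hφ, ho, h⟩ := ex ν hν
    have hp := cvo φ ν hφ ho h
    obtain ⟨π, hπ, -, h3, h4⟩ := h2 _ _ _ (fam_flow hT hφ h) ho
    have e' := uni hφ ho hπ h3 hp
    rw [← e']
    exact h4 r hr hrr

/-- **(PM) for all functions**: the walks start on one sublattice only, hence the even part on the right side -/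
theorem pmFin : ∀ ε : ℝ, 0 < ε → ∃ r0 : ℝ, 0 < r0 ∧ ∀ r : ℝ, 0 < r → r ≤ r0 → ∃ n0 : ℕ, ∀ n : ℕ, n0 ≤ n → Odd n →
    ∀ F : C(unitInterval, ℂ) → ℝ, (∀ γ, |F γ| ≤ 1) → LipschitzWith 1 F →
      |pmean n F - cmean (wdw n r) (r * size n) (ev F)| ≤ ε := by
  intro ε hε
  obtain ⟨r0, hr0, h⟩ := pm (ε / 2) (by positivity)
  refine ⟨r0, hr0, fun r hr hrr => ?_⟩
  obtain ⟨n0, h⟩ := h r hr hrr
  obtain ⟨n1, hn1⟩ := ((size_large tendsto_id).eventually_ge_atTop (4 / ε)).exists_forall_of_atTop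
  refine ⟨n0 + n1 + 3, fun n hn ho F hF hL => ?_⟩
  have h1 := h n (by omega) ho (ev F) (ev_abs hF) (ev_lip hL) (ev_even F)
  have h2 := pol_sym (by omega : 3 ≤ n) ho hL
  have h3 : 4 / ε ≤ size n := hn1 n (by omega)
  have hs : 0 < size n := NTSF.size_pos (by omega)
  have h4 : 4 / size n ≤ ε := by
    rw [div_le_iff₀ hε] at h3
    rw [div_le_iff₀ hs]
    linarith
  have h5 := pmean_ev n F
  rw [abs_le] at h1 h2 ⊢
  constructor <;> linarith [h1.1, h1.2, h2.1, h2.2]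

end Pool.Agent.PMA
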