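import Pool.Agent.ARM.T2Fin

/-!
# PM (page 83R), rows K6 (c) and K8 (helper22): the geometry of the root of a closed word, with powers

* `DecU κ C b m u L` : `L = P Z V W Y` with good factors `Z`, `W` of the scale `b`, `P` contains the first `u` letters, `P` and
  `Y` in the box of the scale `b + m`;
* **`geoU`** : outside of a part `A 2 ^ (-a m)` of the closed words (and the small ones), all closed words are decomposed like
  this for all `u` such that the first `u` letters are in the box of the scale `b + 1`.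
-/

set_option autoImplicit false

namespace HexObs

namespace PMA

open Finset TS SDN HexObs.SIM NTA TIP ARM ARM.T2

open TIP.Nf (NeW)

open scoped ENNReal

/-- the decomposition of a closed word with two good factors behind the letter u -/
def DecU (κ : ℝ) (C b m u : ℕ) (L : List Bool) : Prop :=
  ∃ P Z V W Y, L = P ++ (Z ++ (V ++ (W ++ Y))) ∧ Z ∈ Zc κ C b ∧ W ∈ Zc κ C b ∧ u ≤ P.length ∧ In (2 ^ (b + m)) P ∧
    In (2 ^ (b + m)) Y

variable {κ : ℝ} {C b q u n : ℕ}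

lemma pow3 (b q l : ℕ) : 2 ^ (b + q + l) = 2 ^ (q + l) * 2 ^ b := by
  rw [← pow_add]
  congr 1
  omega

/-- a long factor in one of the two ends, the first end with a small start -/
lemma big_end2 {L0 N Y : List Bool} (h0 : In (2 ^ (b + 1)) L0) (hN : N ∈ Nz κ C b) (hY : Y ∈ Nz κ C b) {k : ℕ}
    (h : ¬ (In (2 ^ (b + (k + 2))) (L0 ++ N) ∧ In (2 ^ (b + (k + 2))) Y)) :
    L0 ++ N ∈ Lz κ C b (2 ^ k) ∨ Y ∈ Lz κ C b (2 ^ k) := by
  have e : 2 ^ k * 2 ^ b = 2 ^ (b + k) := by rw [← pow_add, add_comm]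
  have hb : 1 ≤ 2 ^ b := Nat.one_le_two_pow
  have hk : 1 ≤ 2 ^ k := Nat.one_le_two_pow
  have e2 : 2 ^ (b + (k + 2)) = 4 * 2 ^ (b + k) := by rw [← add_assoc, pow_add]; ring
  have e3 : 2 ^ (b + 1) ≤ 2 * 2 ^ (b + k) := by
    rw [pow_succ, mul_comm]
    exact Nat.mul_le_mul_left _ (Nat.pow_le_pow_right (by norm_num) (by omega))
  by_cases h1 : In (2 ^ (b + (k + 2))) (L0 ++ N)
  · right
    refine ⟨[], Y, [], by simp, hY, ?_⟩
    rw [e]
    exact fun h2 => h ⟨h1, YB.In_mono (by omega) h2⟩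
  · left
    refine ⟨L0, N, [], by simp, hN, ?_⟩
    rw [e]
    exact fun h2 => h1 (YB.In_mono (by omega) (ARM.QB.In_app h0 h2))

/-- **the cases** -/
theorem dec_cases (hq : 1 ≤ q) (hCq : 2 * C ≤ 2 ^ q) {L : List Bool} (hL : L ∈ C0 n) (hu : u ≤ L.length)
    (h0 : In (2 ^ (b + 1)) (L.take u)) (hD : ¬ DecU κ C b (q + 2) u L) :
    (∃ l, L ∈ E2F κ C b 3 (q + 1 + l) n) ∨ (∃ l, L ∈ E1F κ C b 3 (q + 1 + l) n) ∨
      (L ∈ Nz κ C b ∧ ¬ In (2 ^ (b + q)) L) ∨ In (2 ^ (b + q + 5)) L := by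
  classical
  have hW := TIP.neW
  obtain ⟨L0, hL0⟩ : ∃ L0, L0 = L.take u := ⟨_, rfl⟩
  obtain ⟨L1, hL1⟩ : ∃ L1, L1 = L.drop u := ⟨_, rfl⟩
  have hLL : L = L0 ++ L1 := by rw [hL0, hL1, List.take_append_drop]
  have hl0 : L0.length = u := by rw [hL0, List.length_take]; omega
  rw [← hL0] at h0
  have hp1 : 1 ≤ 2 ^ b := Nat.one_le_two_pow
  have hq1 : 1 ≤ 2 ^ q := Nat.one_le_two_pow
  have e0 : 2 ^ (b + q) = 2 ^ q * 2 ^ b := by rw [← pow_add, add_comm]
  have e1 : 2 ^ (b + 1) = 2 * 2 ^ b := by rw [pow_succ]; ring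
  have e2 : 2 ^ (b + (q + 2)) = 4 * 2 ^ (b + q) := by rw [← add_assoc, pow_add]; ring
  have e5 : 2 ^ (b + q + 5) = 32 * 2 ^ (b + q) := by rw [pow_add]; ring
  have hbq : 2 ^ b ≤ 2 ^ (b + q) := Nat.pow_le_pow_right (by norm_num) (by omega)
  have hC2 : 2 * (C * 2 ^ b) ≤ 2 ^ (b + q) := by
    rw [e0, ← mul_assoc]
    exact Nat.mul_le_mul_right _ hCq
  by_cases hN1 : L1 ∈ Nz κ C b
  · -- no good factor behind u
    by_cases hI1 : In (2 ^ (b + (q + 2))) L1
    · right; right; right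
      rw [hLL]
      exact YB.In_mono (by omega) (ARM.QB.In_app h0 hI1)
    · by_cases hN : L ∈ Nz κ C b
      · right; right; left
        refine ⟨hN, fun hI => hI1 ?_⟩
        have h3 : In (4 * 2 ^ (b + q)) L1 := ARM.QB.In_suf (A := L0) (by rw [← hLL]; exact hI)
        rw [e2]
        exact h3
      · obtain ⟨X, Z, Y, h1, hYn, hZ, hY⟩ := hW.last κ C b L hN
        have hXu : X.length < u := by
          by_contra hcon
          rw [not_lt] at hcon
          refine hN1 (X.drop u) Z Y ?_ hYn hZ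
          rw [hL1, h1, List.drop_append_of_le_length hcon]
        have hX : In (2 ^ (b + 1)) X := by
          have h3 : L0 = X ++ (L0.drop X.length) := by
            have h4 : L0.take X.length = X := by
              rw [hL0, List.take_take, min_eq_left hXu.le, h1, List.take_left]
            conv_lhs => rw [← List.take_append_drop X.length L0, h4]
          rw [h3] at h0
          exact ARM.QB.In_pre h0
        by_cases hIY : In (2 ^ (b + q)) Y
        · right; right; right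
          obtain ⟨Z1, Z2, Z3, rfl, hz⟩ := Zd_of hZ
          rw [h1]
          exact YB.In_mono (by omega) (ARM.QB.In_app hX (ARM.QB.In_app hz.inn hIY))
        · obtain ⟨l, hl1, hl2⟩ := In_find2 (P := X) (Y := Y) (m := b + q) (fun h => hIY h.2)
          right; left
          refine ⟨l, hL, X, Z, Y, h1, hZ, ?_, ?_, b, 2 ^ (q + l), Or.inl rfl, ?_, Or.inr ?_⟩
          · rw [show b + (q + 1 + l) = b + q + 1 + l by omega]
            exact hl1.1
          · rw [show b + (q + 1 + l) = b + q + 1 + l by omega]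
            exact hl1.2
          · rw [← pow_add]
            exact Nat.pow_le_pow_right (by norm_num) (by omega)
          · refine ⟨[], Y, [], by simp, hY, fun h2 => hl2 ⟨YB.In_mono (Nat.pow_le_pow_right (by norm_num) (by omega)) hX, ?_⟩⟩
            rw [pow3]
            exact h2
  · -- a good factor behind u
    rcases d2_of hW hN1 with ⟨N, Z1, Z2, Z3, V, W1, W2, W3, Y, hd, hnN, hnY⟩ | ⟨X, Z1, Z2, Z3, Y, he, hz, hnX, hnY⟩
    · obtain ⟨P, hP⟩ : ∃ P, P = L0 ++ N := ⟨_, rfl⟩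
      have heq : L = P ++ ((Z1 ++ (Z2 ++ Z3)) ++ (V ++ ((W1 ++ (W2 ++ W3)) ++ Y))) := by
        rw [hLL, hP, hd.eq]
        simp only [List.append_assoc]
      have hnot : ¬ (In (2 ^ (b + (q + 2))) P ∧ In (2 ^ (b + (q + 2))) Y) := fun h => hD
        ⟨P, Z1 ++ (Z2 ++ Z3), V, W1 ++ (W2 ++ W3), Y, heq, Zc_of hd.z, Zc_of hd.w, by
          rw [hP, List.length_append]; omega, h.1, h.2⟩
      obtain ⟨l, hl1, hl2⟩ := In_find2 hnot
      left
      refine ⟨l + 2, hL, P, Z1 ++ (Z2 ++ Z3), V, W1 ++ (W2 ++ W3), Y, heq, Zc_of hd.z, Zc_of hd.w, ?_, ?_, 2 ^ (q + l), ?_, ?_⟩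
      · rw [show b + (q + 1 + (l + 2)) = b + (q + 2) + 1 + l by omega]
        exact hl1.1
      · rw [show b + (q + 1 + (l + 2)) = b + (q + 2) + 1 + l by omega]
        exact hl1.2
      · rw [← pow_add]
        exact Nat.pow_le_pow_right (by norm_num) (by omega)
      · rw [hP]
        refine big_end2 h0 hnN hnY ?_
        rw [← hP, show b + (q + l + 2) = b + (q + 2) + l by omega]
        exact hl2
    · obtain ⟨P, hP⟩ : ∃ P, P = L0 ++ X := ⟨_, rfl⟩
      have heq : L = P ++ ((Z1 ++ (Z2 ++ Z3)) ++ Y) := by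
        rw [hLL, hP, he]
        simp only [List.append_assoc]
      by_cases hI : In (2 ^ (b + (q + 2))) P ∧ In (2 ^ (b + (q + 2))) Y
      · right; right; right
        rw [heq]
        exact YB.In_mono (by omega) (ARM.QB.In_app hI.1 (ARM.QB.In_app hz.inn hI.2))
      · obtain ⟨l, hl1, hl2⟩ := In_find2 hI
        right; left
        refine ⟨l + 2, hL, P, Z1 ++ (Z2 ++ Z3), Y, heq, Zc_of hz, ?_, ?_, b, 2 ^ (q + l), Or.inl rfl, ?_, ?_⟩
        · rw [show b + (q + 1 + (l + 2)) = b + (q + 2) + 1 + l by omega]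
          exact hl1.1
        · rw [show b + (q + 1 + (l + 2)) = b + (q + 2) + 1 + l by omega]
          exact hl1.2
        · rw [← pow_add]
          exact Nat.pow_le_pow_right (by norm_num) (by omega)
        · rw [hP]
          refine big_end2 h0 hnX hnY ?_
          rw [← hP, show b + (q + l + 2) = b + (q + 2) + l by omega]
          exact hl2

/-- the set of the closed words without the decomposition -/
def NoU (κ : ℝ) (C b m n : ℕ) : Set (List Bool) :=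
  {L | L ∈ C0 n ∧ ∃ u, u ≤ L.length ∧ In (2 ^ (b + 1)) (L.take u) ∧ ¬ DecU κ C b m u L}

/-- **the geometry of the root**, every power -/
theorem geoU {κ : ℝ} {C : ℕ} (hB : RootB κ C) (hN : RootN κ C) (a Q : ℕ) : ∃ (A : ℝ) (J0 b0 : ℕ), 0 < A ∧
    ∀ n b m : ℕ, 1 ≤ n → b0 ≤ b → J0 ≤ m → gf (NoU κ C b m n) ≤
      ENNReal.ofReal (A * ((1 / 2) ^ (a * m) + (ml (b + m) / n) ^ Q) * (n : ℝ) ^ (-(3 / 2) : ℝ)) := by
  obtain ⟨A1, J1, b1, hA1, h1⟩ := hB (a + 1) 3
  obtain ⟨A2, J2, b2, hA2, h2⟩ := hN (a + 1)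
  obtain ⟨A3, hA3, h3⟩ := conf_C0 Q
  obtain ⟨K, hK⟩ : ∃ K : ℝ, K = (2 : ℝ) ^ (2 * (a + 1)) * (4 * A1 + A2) + A3 * (2 ^ 8) ^ Q := ⟨_, rfl⟩
  refine ⟨K, J1 + J2 + 2 * C + 3, b1 + b2 + 1, by rw [hK]; positivity, fun n b m hn hb hm => ?_⟩
  obtain ⟨q, rfl⟩ : ∃ q, m = q + 2 := ⟨m - 2, by omega⟩
  have hn0 : (0 : ℝ) < n := by exact_mod_cast hn
  obtain ⟨ν, hν⟩ : ∃ ν : ℝ, ν = (n : ℝ) ^ (-(3 / 2) : ℝ) := ⟨_, rfl⟩
  have hν0 : 0 ≤ ν := by rw [hν]; positivity
  have hCq : 2 * C ≤ 2 ^ q := (show 2 * C ≤ q by omega).trans Nat.lt_two_pow_self.le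
  obtain ⟨g, hg⟩ : ∃ g : ℝ, g = (1 / 2 : ℝ) ^ (a * (q + 2)) := ⟨_, rfl⟩
  have hg0 : 0 < g := by rw [hg]; positivity
  have hgq : ∀ l : ℕ, (1 / 2 : ℝ) ^ ((a + 1) * (q + l)) ≤ 2 ^ (2 * (a + 1)) * g * (1 / 2) ^ l := by
    intro l
    have e : (1 / 2 : ℝ) ^ ((a + 1) * (q + l)) = 2 ^ (2 * (a + 1)) * (1 / 2) ^ (2 * (a + 1) + (a + 1) * (q + l)) := by
      rw [pow_add (1 / 2 : ℝ), ← mul_assoc, ← mul_pow]
      norm_num
    rw [e, mul_assoc, hg, ← pow_add]
    refine mul_le_mul_of_nonneg_left (pow_le_pow_of_le_one (by norm_num) (by norm_num) ?_) (by positivity)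
    nlinarith
  have hcov : NoU κ C b (q + 2) n ⊆ (⋃ l : ℕ, E2F κ C b 3 (q + 1 + l) n) ∪ ((⋃ l : ℕ, E1F κ C b 3 (q + 1 + l) n) ∪
      ({L | L ∈ C0 n ∧ L ∈ Nz κ C b ∧ ¬ In (2 ^ (b + q)) L} ∪
        {L | L ∈ C0 n ∧ ∀ s, s ≤ L.length → dz L s ≤ 2 ^ (b + q + 8)})) := by
    rintro L ⟨hL, u, hu, h0, hD⟩
    rcases dec_cases (by omega) hCq hL hu h0 hD with h | h | h | h
    · exact Or.inl (Set.mem_iUnion.2 h)
    · exact Or.inr (Or.inl (Set.mem_iUnion.2 h))
    · exact Or.inr (Or.inr (Or.inl ⟨hL, h⟩))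
    · refine Or.inr (Or.inr (Or.inr ⟨hL, fun s hs => ?_⟩))
      have h3 := dz_of_In h hs
      have h4 : (2 : ℤ) ^ (b + q + 8) = 8 * 2 ^ (b + q + 5) := by
        rw [show b + q + 8 = b + q + 5 + 3 by omega, pow_add]
        ring
      have h5 : (0 : ℤ) < 2 ^ (b + q + 5) := by positivity
      rw [h4]
      push_cast at h3
      linarith
  have hE2 : gf (⋃ l : ℕ, E2F κ C b 3 (q + 1 + l) n) ≤ ENNReal.ofReal (2 * (2 ^ (2 * (a + 1)) * A1 * g * ν)) := by
    refine geo_sum (by positivity) fun l => ?_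
    refine ((h1 n b (q + 1 + l) hn (by omega) (by omega)).1).trans (ENNReal.ofReal_le_ofReal ?_)
    rw [← hν]
    have h4 : (1 / 2 : ℝ) ^ ((a + 1) * (q + 1 + l)) ≤ 2 ^ (2 * (a + 1)) * g * (1 / 2) ^ l :=
      (pow_le_pow_of_le_one (by norm_num) (by norm_num) (Nat.mul_le_mul_left _ (by omega))).trans (hgq l)
    calc A1 * (1 / 2) ^ ((a + 1) * (q + 1 + l)) * ν ≤ A1 * (2 ^ (2 * (a + 1)) * g * (1 / 2) ^ l) * ν := by gcongr
      _ = _ := by ring
  have hE1 : gf (⋃ l : ℕ, E1F κ C b 3 (q + 1 + l) n) ≤ ENNReal.ofReal (2 * (2 ^ (2 * (a + 1)) * A1 * g * ν)) := by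
    refine geo_sum (by positivity) fun l => ?_
    refine ((h1 n b (q + 1 + l) hn (by omega) (by omega)).2).trans (ENNReal.ofReal_le_ofReal ?_)
    rw [← hν]
    have h4 : (1 / 2 : ℝ) ^ ((a + 1) * (q + 1 + l)) ≤ 2 ^ (2 * (a + 1)) * g * (1 / 2) ^ l :=
      (pow_le_pow_of_le_one (by norm_num) (by norm_num) (Nat.mul_le_mul_left _ (by omega))).trans (hgq l)
    calc A1 * (1 / 2) ^ ((a + 1) * (q + 1 + l)) * ν ≤ A1 * (2 ^ (2 * (a + 1)) * g * (1 / 2) ^ l) * ν := by gcongr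
      _ = _ := by ring
  have hEN : gf {L | L ∈ C0 n ∧ L ∈ Nz κ C b ∧ ¬ In (2 ^ (b + q)) L} ≤
      ENNReal.ofReal (2 ^ (2 * (a + 1)) * A2 * g * ν) := by
    refine (h2 n b q hn (by omega) (by omega)).trans (ENNReal.ofReal_le_ofReal ?_)
    rw [← hν]
    have h4 := hgq 0
    rw [add_zero, pow_zero, mul_one] at h4
    calc A2 * (1 / 2) ^ ((a + 1) * q) * ν ≤ A2 * (2 ^ (2 * (a + 1)) * g) * ν := by gcongr
      _ = _ := by ring
  have hEC : gf {L | L ∈ C0 n ∧ ∀ s, s ≤ L.length → dz L s ≤ 2 ^ (b + q + 8)} ≤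
      ENNReal.ofReal (A3 * (2 ^ 8) ^ Q * (ml (b + (q + 2)) / n) ^ Q * ν) := by
    refine (h3 n (b + q + 8) hn).trans (ENNReal.ofReal_le_ofReal ?_)
    rw [← hν]
    have hm := ml_pos (b + q + 8)
    have hm2 := ml_pos (b + (q + 2))
    have h4 : ml (b + q + 8) ≤ 2 ^ 8 * ml (b + (q + 2)) := by
      unfold ml
      rw [show ((2 : ℝ) ^ 8) = (2 : ℝ) ^ ((4 / 3 : ℝ) * 6) by norm_num [← Real.rpow_natCast], ← Real.rpow_add (by norm_num)]
      refine Real.rpow_le_rpow_of_exponent_le (by norm_num) ?_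
      push_cast
      linarith
    have h5 : ml (b + q + 8) / max (n : ℝ) (ml (b + q + 8)) ≤ 2 ^ 8 * (ml (b + (q + 2)) / n) := by
      rw [← mul_div_assoc]
      calc ml (b + q + 8) / max (n : ℝ) (ml (b + q + 8)) ≤ ml (b + q + 8) / n :=
            div_le_div_of_nonneg_left hm.le hn0 (le_max_left _ _)
        _ ≤ _ := div_le_div_of_nonneg_right h4 hn0.le
    calc A3 * ν * (ml (b + q + 8) / max (n : ℝ) (ml (b + q + 8))) ^ Q ≤ A3 * ν * (2 ^ 8 * (ml (b + (q + 2)) / n)) ^ Q := by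
          gcongr
      _ = _ := by rw [mul_pow]; ring
  have hmp := ml_pos (b + (q + 2))
  refine (gf_mono hcov).trans ?_
  refine (gf_union_le _ _).trans ((add_le_add hE2 ((gf_union_le _ _).trans (add_le_add hE1 ((gf_union_le _ _).trans
    (add_le_add hEN hEC))))).trans ?_)
  rw [← ENNReal.ofReal_add (by positivity) (by positivity), ← ENNReal.ofReal_add (by positivity) (by positivity),
    ← ENNReal.ofReal_add (by positivity) (by positivity)]
  refine ENNReal.ofReal_le_ofReal ?_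
  rw [hK, ← hν, ← hg]
  obtain ⟨x, hx⟩ : ∃ x : ℝ, x = (ml (b + (q + 2)) / n) ^ Q := ⟨_, rfl⟩
  have hx0 : 0 ≤ x := by rw [hx]; positivity
  rw [← hx]
  have hy1 : 0 ≤ (2 : ℝ) ^ (2 * (a + 1)) * (4 * A1 + A2) * x * ν := by positivity
  have hy2 : 0 ≤ A3 * (2 ^ 8) ^ Q * g * ν := by positivity
  have e : (2 ^ (2 * (a + 1)) * (4 * A1 + A2) + A3 * (2 ^ 8) ^ Q) * (g + x) * ν =
      2 * (2 ^ (2 * (a + 1)) * A1 * g * ν) + (2 * (2 ^ (2 * (a + 1)) * A1 * g * ν) +
        (2 ^ (2 * (a + 1)) * A2 * g * ν + A3 * (2 ^ 8) ^ Q * x * ν)) +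
        (2 ^ (2 * (a + 1)) * (4 * A1 + A2) * x * ν + A3 * (2 ^ 8) ^ Q * g * ν) := by ring
  rw [e]
  linarith

end PMA

end HexObs
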