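import Pool.Agent.PMA.H4
import Pool.Agent.PMA.DenV
import Pool.Agent.PMA.PolMod
import Pool.Agent.PMA.Defs
import Pool.Agent.PMA.PubB
import Pool.Agent.TSW.LayB
import Pool.Agent.ARM.T1
import Pool.Agent.POL.LowH

/-!
# PM (page 83R), row K8 (helper22): **(h7)**, the window of the closed word and its shape are almost independent

* `sum_rot` : the rotations of the closed words; `avg_lem` : the average over the rotations;
* `bad_count` : from masses to proportions of closed words;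
* **`indep`** : for `T ≤ δ N` the window `win T K` and an even Lipschitz functional of the normalised closed word are almost
  uncorrelated.
-/

set_option autoImplicit false

open MeasureTheory Filter Topology

open scoped Classical ENNReal

namespace Pool.Agent.PMA

open HexObs hiding pos

open HexObs.SDN HexObs.TS HexObs.TIW HexObs.POLP NTSF.Mg NTF Pool.Agent.TSW.BP

open HexObs.PMA (PolMod polMod denV)

open HexObs.ARM (C0)

open Pool.Agent.TSW (VW)

/-- the mean over the closed words -/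
noncomputable def cyM (N : ℕ) (f : List Bool → ℝ) : ℝ := (∑ K ∈ cyF N, f K) / ((cyF N).card : ℝ)

/-! ### 1. The rotations -/

lemma mem_cyF {N : ℕ} {K : List Bool} : K ∈ cyF N ↔ K ∈ POL.Cy N := by
  unfold cyF
  rw [Set.Finite.mem_toFinset, POL.Cy_eq]

lemma sum_rot (N u : ℕ) (g : List Bool → ℝ) : ∑ K ∈ cyF N, g (K.rotate u) = ∑ K ∈ cyF N, g K := by
  have himg : (cyF N).image (fun K => K.rotate u) = cyF N := by
    refine Finset.eq_of_subset_of_card_le ?_ ?_
    · intro K hK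
      obtain ⟨K', hK', rfl⟩ := Finset.mem_image.1 hK
      exact mem_cyF.2 (POL.Cy.rot (mem_cyF.1 hK') u)
    · rw [Finset.card_image_of_injective _ (List.rotate_injective u)]
  conv_rhs => rw [← himg]
  rw [Finset.sum_image (fun x _ y _ h => List.rotate_injective u h)]

/-- the average over the rotations -/
lemma avg_lem {α : Type*} (S : Finset α) (P : α → Prop) (f φ : α → ℝ) (r : ℕ → α → α)
    (hr : ∀ (u : ℕ) (g : α → ℝ), ∑ K ∈ S, g (r u K) = ∑ K ∈ S, g K) {h : ℕ} (hh : 0 < h) (hf : ∀ K, |f K| ≤ 1)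
    (hφ : ∀ K, 0 ≤ φ K ∧ φ K ≤ 1) {ρ a b : ℝ} (hρ : 0 ≤ ρ ∧ ρ ≤ 2) (ha : 0 ≤ a) (hb : 0 ≤ b)
    (h1 : ∀ K ∈ S, ¬ P K → ∀ u < h, |f (r u K) - f K| ≤ a)
    (h2 : ∀ K ∈ S, ¬ P K → |∑ u ∈ Finset.range h, φ (r u K) - ρ * h| ≤ b * h) :
    |∑ K ∈ S, f K * φ K - ρ * ∑ K ∈ S, f K| ≤ (a + b) * S.card + 3 * ((S.filter P).card : ℝ) := by
  have hh0 : (0 : ℝ) < h := by exact_mod_cast hh
  have e : (h : ℝ) * (∑ K ∈ S, f K * φ K - ρ * ∑ K ∈ S, f K) =
      ∑ K ∈ S, (∑ u ∈ Finset.range h, f (r u K) * φ (r u K) - ρ * h * f K) := by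
    rw [Finset.sum_sub_distrib, Finset.sum_comm]
    have e1 : ∀ u ∈ Finset.range h, ∑ K ∈ S, f (r u K) * φ (r u K) = ∑ K ∈ S, f K * φ K := fun u _ =>
      hr u fun K => f K * φ K
    rw [Finset.sum_congr rfl e1, Finset.sum_const, Finset.card_range, nsmul_eq_mul, ← Finset.mul_sum]
    ring
  have key : ∀ K ∈ S, |∑ u ∈ Finset.range h, f (r u K) * φ (r u K) - ρ * h * f K| ≤
      (a + b) * h + (if P K then 3 * (h : ℝ) else 0) := by
    intro K hK
    have c1 : |∑ u ∈ Finset.range h, f (r u K) * φ (r u K)| ≤ h := by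
      refine (Finset.abs_sum_le_sum_abs _ _).trans ?_
      calc ∑ u ∈ Finset.range h, |f (r u K) * φ (r u K)| ≤ ∑ _u ∈ Finset.range h, (1 : ℝ) := by
            refine Finset.sum_le_sum fun u _ => ?_
            rw [abs_mul, abs_of_nonneg (hφ _).1]
            have := mul_le_mul (hf (r u K)) (hφ (r u K)).2 (hφ _).1 zero_le_one
            linarith
        _ = h := by rw [Finset.sum_const, Finset.card_range, nsmul_eq_mul, mul_one]
    by_cases hP : P K
    · rw [if_pos hP]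
      have c2 : |ρ * h * f K| ≤ 2 * h := by
        rw [abs_mul, abs_of_nonneg (mul_nonneg hρ.1 hh0.le)]
        have := mul_le_mul (mul_le_mul_of_nonneg_right hρ.2 hh0.le) (hf K) (abs_nonneg _) (by positivity)
        linarith
      have c3 := abs_sub (∑ u ∈ Finset.range h, f (r u K) * φ (r u K)) (ρ * h * f K)
      have c4 : 0 ≤ (a + b) * h := by positivity
      linarith
    · rw [if_neg hP, add_zero]
      have e2 : ∑ u ∈ Finset.range h, f (r u K) * φ (r u K) - ρ * h * f K =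
          ∑ u ∈ Finset.range h, (f (r u K) - f K) * φ (r u K) + f K * (∑ u ∈ Finset.range h, φ (r u K) - ρ * h) := by
        have : ∑ u ∈ Finset.range h, (f (r u K) - f K) * φ (r u K) =
            ∑ u ∈ Finset.range h, f (r u K) * φ (r u K) - f K * ∑ u ∈ Finset.range h, φ (r u K) := by
          rw [Finset.mul_sum, ← Finset.sum_sub_distrib]
          exact Finset.sum_congr rfl fun u _ => by ring
        rw [this]
        ring
      rw [e2]
      have d1 : |∑ u ∈ Finset.range h, (f (r u K) - f K) * φ (r u K)| ≤ a * h := by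
        refine (Finset.abs_sum_le_sum_abs _ _).trans ?_
        calc ∑ u ∈ Finset.range h, |(f (r u K) - f K) * φ (r u K)| ≤ ∑ _u ∈ Finset.range h, a := by
              refine Finset.sum_le_sum fun u hu => ?_
              rw [abs_mul, abs_of_nonneg (hφ _).1]
              have := mul_le_mul (h1 K hK hP u (Finset.mem_range.1 hu)) (hφ (r u K)).2 (hφ _).1 ha
              linarith
          _ = a * h := by
              rw [Finset.sum_const, Finset.card_range, nsmul_eq_mul]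
              ring
      have d2 : |f K * (∑ u ∈ Finset.range h, φ (r u K) - ρ * h)| ≤ b * h := by
        rw [abs_mul]
        have := mul_le_mul (hf K) (h2 K hK hP) (abs_nonneg _) zero_le_one
        linarith
      have d3 := abs_add_le (∑ u ∈ Finset.range h, (f (r u K) - f K) * φ (r u K))
        (f K * (∑ u ∈ Finset.range h, φ (r u K) - ρ * h))
      linarith
  have h3 : (h : ℝ) * |∑ K ∈ S, f K * φ K - ρ * ∑ K ∈ S, f K| ≤
      h * ((a + b) * S.card + 3 * ((S.filter P).card : ℝ)) := by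
    rw [← abs_of_pos hh0, ← abs_mul, abs_of_pos hh0, e]
    refine (Finset.abs_sum_le_sum_abs _ _).trans ((Finset.sum_le_sum key).trans (le_of_eq ?_))
    rw [Finset.sum_add_distrib, Finset.sum_const, nsmul_eq_mul, ← Finset.sum_filter, Finset.sum_const, nsmul_eq_mul]
    ring
  exact le_of_mul_le_mul_left h3 hh0

/-! ### 2. From masses to proportions -/

lemma gf_dropLast (N : ℕ) (hN : 1 ≤ N) (S : Set (List Bool)) : gf {K | K ∈ POL.Cy N ∧ K.dropLast ∈ S} ≤ 2 * gf S := by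
  have h4 : gf {K : List Bool | K ∈ POL.Cy N ∧ K.dropLast ∈ S} ≤
      gf S * gf (({[true], [false]} : Finset (List Bool)) : Set (List Bool)) := by
    refine gf_le_mul fun s hs => ?_
    obtain ⟨hl, hs⟩ := hs
    have hl1 : s.length = N := hl.1
    have hne : s ≠ [] := by
      rintro rfl
      simp at hl1
      omega
    refine ⟨s.dropLast, hs, [s.getLast hne], ?_, (List.dropLast_append_getLast hne).symm⟩
    cases s.getLast hne <;> simp
  rw [HexObs.PMA.gf_two_letters] at h4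
  refine h4.trans ?_
  rw [mul_comm]
  refine mul_le_mul_left ?_ _
  have hx : xc ≤ 1 := POL.xcle
  calc ENNReal.ofReal (2 * xc) ≤ ENNReal.ofReal 2 := ENNReal.ofReal_le_ofReal (by linarith)
    _ = 2 := by norm_num

/-- a set of closed words with `N` letters, as a mass -/
lemma gf_filter (N : ℕ) (P : List Bool → Prop) :
    gf {K | K ∈ POL.Cy N ∧ P K} = ENNReal.ofReal ((((cyF N).filter P).card : ℝ) * xc ^ N) := by
  have hx := xc_pos
  have e : {K | K ∈ POL.Cy N ∧ P K} = (((cyF N).filter P : Finset (List Bool)) : Set (List Bool)) := by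
    ext K
    rw [Finset.mem_coe, Finset.mem_filter, mem_cyF]
    rfl
  rw [e, gf_finset]
  congr 1
  rw [Finset.sum_congr rfl (fun K hK => by rw [(mem_cyF.1 (Finset.mem_filter.1 hK).1).1]), Finset.sum_const, nsmul_eq_mul]

theorem cy_low : ∃ (c : ℝ) (N0 : ℕ), 0 < c ∧ ∀ N : ℕ, N0 ≤ N → Even N →
    c * (N : ℝ) ^ (-(3 / 2) : ℝ) ≤ ((cyF N).card : ℝ) * xc ^ N := by
  obtain ⟨c, N0, hc, h⟩ := POL.lowH
  refine ⟨c, N0, hc, fun N hN he => ?_⟩
  obtain ⟨G, hG, h1, -⟩ := h N hN he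
  have hx := xc_pos
  have h2 := h1.trans (gf_mono hG)
  rw [gf_PCy, ENNReal.ofReal_le_ofReal_iff (by positivity), Set.ncard_eq_toFinset_card _ (PCy_fin N)] at h2
  exact h2

/-- **from masses to proportions** -/
theorem bad_count : ∃ (C : ℝ) (N0 : ℕ), 0 < C ∧ 2 ≤ N0 ∧ ∀ N : ℕ, N0 ≤ N → Even N → 0 < (cyF N).card ∧
    ∀ (S : Set (List Bool)) (ε : ℝ), 0 ≤ ε → gf S ≤ ENNReal.ofReal (ε * ((N - 1 : ℕ) : ℝ) ^ (-(3 / 2) : ℝ)) →
      (((cyF N).filter fun K => K.dropLast ∈ S).card : ℝ) ≤ C * ε * (cyF N).card := by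
  obtain ⟨c, N0, hc, h⟩ := cy_low
  refine ⟨2 * (2 : ℝ) ^ (3 / 2 : ℝ) / c, max N0 2, by positivity, le_max_right _ _, fun N hN he => ?_⟩
  have hN2 : 2 ≤ N := (le_max_right _ _).trans hN
  have hx := xc_pos
  have hxN : 0 < xc ^ N := by positivity
  have hNp : (0 : ℝ) < N := by
    have : 0 < N := by omega
    exact_mod_cast this
  have h0 := h N ((le_max_left _ _).trans hN) he
  have hcard : (0 : ℝ) < (cyF N).card := by
    by_contra hcon
    have h1 : ((cyF N).card : ℝ) * xc ^ N ≤ 0 := mul_nonpos_of_nonpos_of_nonneg (not_lt.1 hcon) hxN.le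
    have h2 : 0 < c * (N : ℝ) ^ (-(3 / 2) : ℝ) := by positivity
    linarith
  refine ⟨by exact_mod_cast hcard, fun S ε hε hS => ?_⟩
  have h1 := (gf_dropLast N (by omega) S).trans (mul_le_mul_right hS 2)
  rw [gf_filter N fun K => K.dropLast ∈ S] at h1
  have h2 : (2 : ℝ≥0∞) * ENNReal.ofReal (ε * ((N - 1 : ℕ) : ℝ) ^ (-(3 / 2) : ℝ)) =
      ENNReal.ofReal (2 * (ε * ((N - 1 : ℕ) : ℝ) ^ (-(3 / 2) : ℝ))) := by
    rw [ENNReal.ofReal_mul (show (0 : ℝ) ≤ 2 by norm_num)]
    congr 1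
    norm_num
  rw [h2, ENNReal.ofReal_le_ofReal_iff (by positivity)] at h1
  have h3 : ((N - 1 : ℕ) : ℝ) ^ (-(3 / 2) : ℝ) ≤ (2 : ℝ) ^ (3 / 2 : ℝ) * (N : ℝ) ^ (-(3 / 2) : ℝ) := by
    have g1 : (N : ℝ) / 2 ≤ ((N - 1 : ℕ) : ℝ) := by
      rw [Nat.cast_sub (by omega)]
      have : (2 : ℝ) ≤ N := by exact_mod_cast hN2
      push_cast
      linarith
    calc ((N - 1 : ℕ) : ℝ) ^ (-(3 / 2) : ℝ) ≤ ((N : ℝ) / 2) ^ (-(3 / 2) : ℝ) :=
          Real.rpow_le_rpow_of_nonpos (by positivity) g1 (by norm_num)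
      _ = _ := by
          rw [Real.div_rpow hNp.le (by norm_num), Real.rpow_neg (by norm_num : (0 : ℝ) ≤ 2), div_inv_eq_mul, mul_comm]
  have h4 : (((cyF N).filter fun K => K.dropLast ∈ S).card : ℝ) * xc ^ N ≤
      (2 * (2 : ℝ) ^ (3 / 2 : ℝ) / c * ε * (cyF N).card) * xc ^ N := by
    calc (((cyF N).filter fun K => K.dropLast ∈ S).card : ℝ) * xc ^ N
        ≤ 2 * (ε * ((2 : ℝ) ^ (3 / 2 : ℝ) * (N : ℝ) ^ (-(3 / 2) : ℝ))) := h1.trans (by gcongr)
      _ = 2 * (2 : ℝ) ^ (3 / 2 : ℝ) / c * ε * (c * (N : ℝ) ^ (-(3 / 2) : ℝ)) := by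
          field_simp
      _ ≤ 2 * (2 : ℝ) ^ (3 / 2 : ℝ) / c * ε * (((cyF N).card : ℝ) * xc ^ N) := by gcongr
      _ = _ := by ring
  exact le_of_mul_le_mul_right h4 hxN

/-! ### 3. The windows -/

/-- the weight of the windows of `2 T + 1` turns -/
noncomputable def wgt (T : ℕ) (Φ : List Bool × List Bool → ℝ) (x : Fin (2 * T + 1) → Bool) : ℝ :=
  Φ (List.ofFn fun j : Fin T => x ⟨T + j, by omega⟩, List.ofFn fun j : Fin T => x ⟨j, by omega⟩)

lemma win_rot {T p : ℕ} {K : List Bool} (h : p + 2 * T ≤ K.length) :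
    HexObs.PMA.win T (K.rotate (p + T)) = (List.ofFn fun j : Fin T => tf K (p + (T + j)), List.ofFn fun j : Fin T => tf K (p + j)) := by
  have hr : K.rotate (p + T) = K.drop (p + T) ++ K.take (p + T) := List.rotate_eq_drop_append_take (by omega)
  unfold HexObs.PMA.win
  rw [List.length_rotate, hr]
  refine Prod.ext ?_ ?_
  · simp only
    refine List.ext_getElem ?_ fun i h1 h2 => ?_
    · simp only [List.length_take, List.length_append, List.length_drop, List.length_ofFn]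
      omega
    · have hi : i < T := by simpa using h2
      rw [List.getElem_take, List.getElem_append_left (by rw [List.length_drop]; omega), List.getElem_drop,
        List.getElem_ofFn]
      unfold tf
      rw [List.getD_eq_getElem _ _ (show p + (T + i) < K.length by omega)]
      congr 1
      omega
  · simp only
    refine List.ext_getElem ?_ fun i h1 h2 => ?_
    · simp only [List.length_take, List.length_append, List.length_drop, List.length_ofFn]
      omega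
    · have hi : i < T := by simpa using h2
      rw [List.getElem_drop, List.getElem_append_right (by rw [List.length_drop]; omega), List.getElem_take,
        List.getElem_ofFn]
      unfold tf
      rw [List.getD_eq_getElem _ _ (show p + i < K.length by omega)]
      congr 1
      rw [List.length_drop]
      omega

/-- the windows of the rotations, as windows of the open word -/
lemma sum_win {T h : ℕ} {Φ : List Bool × List Bool → ℝ} {K : List Bool} (hK : h + 2 * T + 1 ≤ K.length) :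
    ∑ p ∈ Finset.range h, Φ (HexObs.PMA.win T (K.rotate (p + T))) = VW (wgt T Φ) (NPR.wd K.dropLast 0 (h + 2 * T)) := by
  have hl : (NPR.wd K.dropLast 0 (h + 2 * T)).length = h + 2 * T := by
    unfold NPR.wd
    rw [List.drop_zero, List.length_take, List.length_dropLast]
    omega
  have htf : ∀ i, i < h + 2 * T → tf (NPR.wd K.dropLast 0 (h + 2 * T)) i = tf K i := by
    intro i hi
    unfold NPR.wd tf
    rw [List.drop_zero, List.getD_eq_getElem _ _ (by rw [List.length_take, List.length_dropLast]; omega),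
      List.getElem_take, List.getElem_dropLast, List.getD_eq_getElem _ _ (by omega)]
  unfold VW
  rw [hl, ← Finset.sum_filter]
  have hS : (Finset.range (h + 2 * T)).filter (fun x => x + (2 * T + 1) ≤ h + 2 * T) = Finset.range h := by
    ext x
    simp only [Finset.mem_filter, Finset.mem_range]
    omega
  rw [hS]
  refine Finset.sum_congr rfl fun p hp => ?_
  have hp' := Finset.mem_range.1 hp
  rw [win_rot (by omega)]
  unfold wgt
  congr 2
  · congr 1
    funext j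
    exact (htf (p + (T + j)) (by omega)).symm
  · congr 1
    funext j
    exact (htf (p + j) (by omega)).symm

/-! ### 4. The theorem -/

/-- the modulus of the closed word -/
lemma mod_all {N : ℕ} {K : List Bool} (hK : K ∈ POL.Cy N) (hN : 2 ≤ N) {ω d : ℝ} {W : ℕ}
    (hW : (W : ℝ) ≤ d * ((N - 1 : ℕ) : ℝ)) (hω : 0 ≤ ω)
    (h : ∀ x y : ℕ, x ≤ y → y ≤ N - 1 → (y : ℝ) ≤ x + d * ((N - 1 : ℕ) : ℝ) →
      (hn (vx oo up K.dropLast y - vx oo up K.dropLast x) : ℝ) ≤ ω) :
    ∀ i j, i ≤ j → j ≤ N → j ≤ i + W → (hn (vx oo up K j - vx oo up K i) : ℝ) ≤ ω + 2 := by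
  intro i j hij hj hjW
  have hKl : K.length = N := hK.1
  have hne : K ≠ [] := by
    rintro rfl
    simp at hKl
    omega
  have hKe := List.dropLast_append_getLast hne
  have hv : ∀ i, i ≤ N → vx oo up K i = vx oo up K.dropLast i := by
    intro i hi
    conv_lhs => rw [← hKe]
    exact vx_append (by rw [List.length_dropLast]; omega)
  have hjr : (j : ℝ) ≤ i + W := by exact_mod_cast hjW
  rw [hv i (by omega), hv j hj]
  rcases Nat.lt_or_ge (N - 1) j with h1 | h1
  · have hjN : j = (N - 1) + 1 := by omega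
    rcases Nat.lt_or_ge (N - 1) i with h2 | h2
    · have : i = j := by omega
      rw [this, sub_self]
      have h0 : hn (0 : Pt) = 0 := by decide
      rw [h0]
      push_cast
      linarith
    · have hle : ((N - 1 : ℕ) : ℝ) ≤ j := by exact_mod_cast h1.le
      have h3 := h i (N - 1) h2 le_rfl (by linarith)
      have h4 := NPR.St.hn_step K.dropLast (N - 1)
      have h5 := hn_add (vx oo up K.dropLast (N - 1 + 1) - vx oo up K.dropLast (N - 1))
        (vx oo up K.dropLast (N - 1) - vx oo up K.dropLast i)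
      rw [sub_add_sub_cancel] at h5
      rw [hjN]
      have h6 : (hn (vx oo up K.dropLast (N - 1 + 1) - vx oo up K.dropLast i) : ℝ) ≤
          (2 : ℤ) + (hn (vx oo up K.dropLast (N - 1) - vx oo up K.dropLast i) : ℝ) := by
        have : hn (vx oo up K.dropLast (N - 1 + 1) - vx oo up K.dropLast i) ≤
          2 + hn (vx oo up K.dropLast (N - 1) - vx oo up K.dropLast i) := by linarith
        exact_mod_cast this
      push_cast at h6
      linarith
  · have := h i j hij h1 (by linarith)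
    linarith

/-- the functional of the rotated closed word -/
lemma rot_err {F : C(unitInterval, ℂ) → ℝ} (hF : LipschitzWith 1 F) (hev : ∀ γ, F (-γ) = F γ) {N : ℕ} {K : List Bool}
    (hK : K ∈ POL.Cy N) (hN : 2 ≤ N) {ω d : ℝ} {u : ℕ} (hu : ((1 + u : ℕ) : ℝ) ≤ d * ((N - 1 : ℕ) : ℝ)) (huN : u < N)
    (hω : 0 ≤ ω) (h : ∀ x y : ℕ, x ≤ y → y ≤ N - 1 → (y : ℝ) ≤ x + d * ((N - 1 : ℕ) : ℝ) →
      (hn (vx oo up K.dropLast y - vx oo up K.dropLast x) : ℝ) ≤ ω) :
    |f3 F (N - 1) (K.rotate u) - f3 F (N - 1) K| ≤ (14 + 6 * ω) / nr (N - 1) := by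
  have h1 := mod_all hK hN (W := 1 + u) hu hω h
  obtain ⟨B, hB⟩ : ∃ B : ℝ, B = ∑ i ∈ Finset.range (N + 1), (hn (vx oo up K i) : ℝ) := ⟨_, rfl⟩
  have h0 : ∀ i, (0 : ℝ) ≤ (hn (vx oo up K i) : ℝ) := fun i => by exact_mod_cast hn_nonneg _
  have h2 := f3_rot (N := N) (W := 1 + u) (ω := ω + 2) (B := B) hF hev hK.1 hN huN h1 (fun i hi => by
    rw [hB]
    exact Finset.single_le_sum (f := fun i => (hn (vx oo up K i) : ℝ)) (fun i _ => h0 i)
      (Finset.mem_range.2 (Nat.lt_succ_of_le hi))) le_rfl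
  refine h2.trans (le_of_eq ?_)
  unfold eR
  rw [sub_self, zero_div, zero_mul, add_zero]
  congr 1
  ring

/-- **the window and the shape**: one density for all the functionals -/
theorem indep_den : ∃ ρ : ℕ → (List Bool × List Bool → ℝ) → ℝ,
    (∀ (T : ℕ) (Φ : List Bool × List Bool → ℝ), (∀ x, 0 ≤ Φ x ∧ Φ x ≤ 1) → 0 ≤ ρ T Φ ∧ ρ T Φ ≤ 2) ∧
    ∀ ε : ℝ, 0 < ε → ∃ (δ : ℝ) (N0 : ℕ), 0 < δ ∧ ∀ N : ℕ, N0 ≤ N → Even N → 0 < (cyF N).card ∧
      ∀ T : ℕ, (T : ℝ) ≤ δ * N → ∀ Φ : List Bool × List Bool → ℝ, (∀ x, 0 ≤ Φ x ∧ Φ x ≤ 1) →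
      ∀ F : C(unitInterval, ℂ) → ℝ, (∀ γ, |F γ| ≤ 1) → LipschitzWith 1 F → (∀ γ, F (-γ) = F γ) →
      |cyM N (fun K => f3 F (N - 1) K * Φ (HexObs.PMA.win T K)) - ρ T Φ * cyM N (f3 F (N - 1))| ≤ ε := by
  obtain ⟨C, N1, hC, hN1, hbad⟩ := bad_count
  obtain ⟨ρ, hρ, -, hden⟩ := denV Pool.Agent.TSW.exR ARM.t1
  have hw : ∀ (T : ℕ) (Φ : List Bool × List Bool → ℝ), (∀ x, 0 ≤ Φ x ∧ Φ x ≤ 1) → ∀ x, 0 ≤ wgt T Φ x ∧ wgt T Φ x ≤ 1 :=
    fun T Φ hΦ x => hΦ _
  refine ⟨fun T Φ => ρ (2 * T + 1) (wgt T Φ), fun T Φ hΦ => hρ _ _ (hw T Φ hΦ), fun ε hε => ?_⟩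
  obtain ⟨ε2, hε2⟩ : ∃ ε2 : ℝ, ε2 = ε / (20 * (C + 1)) := ⟨_, rfl⟩
  have hε2p : 0 < ε2 := by rw [hε2]; positivity
  have hε2e : 20 * (C + 1) * ε2 = ε := by
    rw [hε2]
    field_simp
  obtain ⟨δ1, n1, hδ1, hmod⟩ := polMod ARM.t1 ε2 hε2p
  obtain ⟨η0, hη0, hd⟩ := hden ε2 hε2p
  obtain ⟨η, hη⟩ : ∃ η : ℝ, η = min (min η0 δ1) 1 / 2 := ⟨_, rfl⟩
  have hηp : 0 < η := by
    rw [hη]
    have : 0 < min (min η0 δ1) 1 := lt_min (lt_min hη0 hδ1) one_pos
    linarith
  have hη1 : 2 * η ≤ η0 := by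
    rw [hη]
    have := (min_le_left (min η0 δ1) 1).trans (min_le_left _ _)
    linarith
  have hη2 : 2 * η ≤ δ1 := by
    rw [hη]
    have := (min_le_left (min η0 δ1) 1).trans (min_le_right _ _)
    linarith
  have hη3 : 2 * η ≤ 1 := by
    rw [hη]
    have := min_le_right (min η0 δ1) 1
    linarith
  obtain ⟨e, he⟩ : ∃ e : ℝ, e = ε * η / 8 := ⟨_, rfl⟩
  have hep : 0 < e := by rw [he]; positivity
  obtain ⟨R, hR⟩ := hd e hep
  obtain ⟨δ, hδ⟩ : ∃ δ : ℝ, δ = min (ε * η / 64) (min (η / 16) (1 / (32 * ((R : ℝ) + 1)))) := ⟨_, rfl⟩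
  have hδp : 0 < δ := by
    rw [hδ]
    exact lt_min (by positivity) (lt_min (by positivity) (by positivity))
  have hδa : δ ≤ ε * η / 64 := by rw [hδ]; exact min_le_left _ _
  have hδb : δ ≤ η / 16 := by rw [hδ]; exact (min_le_right _ _).trans (min_le_left _ _)
  have hδc : δ ≤ 1 / (32 * ((R : ℝ) + 1)) := by rw [hδ]; exact (min_le_right _ _).trans (min_le_right _ _)
  -- the size
  have hlim : Tendsto (fun n : ℕ => nr n) atTop atTop := by
    have := (tendsto_rpow_atTop (show (0 : ℝ) < 3 / 4 by norm_num)).comp tendsto_natCast_atTop_atTop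
    exact this
  obtain ⟨M0, hM0⟩ := (tendsto_atTop.1 hlim (14 / ε2)).exists_forall_of_atTop
  obtain ⟨M1, hM1⟩ := exists_nat_ge (8 / η)
  refine ⟨δ, N1 + n1 + M0 + M1 + 4 * R + 4, hδp, fun N hN hev => ?_⟩
  obtain ⟨hcard, hbad⟩ := hbad N (by omega) hev
  refine ⟨hcard, fun T hT Φ hΦ F hF1 hFL hFe => ?_⟩
  obtain ⟨n, hnN⟩ : ∃ n, n = N - 1 := ⟨_, rfl⟩
  have hNn : N = n + 1 := by omega
  have hn1 : 1 ≤ n := by omega
  have hnp : (0 : ℝ) < n := by exact_mod_cast hn1
  have hNr : (N : ℝ) = n + 1 := by rw [hNn]; push_cast; ring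
  have hnr : 14 / ε2 ≤ nr n := hM0 n (by omega)
  have hnrp := nr_pos hn1
  have hηn : 8 ≤ η * n := by
    have h1 : (M1 : ℝ) ≤ n := by exact_mod_cast (show M1 ≤ n by omega)
    have h2 := mul_le_mul_of_nonneg_left (hM1.trans h1) hηp.le
    rwa [mul_div_cancel₀ _ hηp.ne'] at h2
  have hTn : (T : ℝ) ≤ 2 * δ * n := by
    have h1 : (1 : ℝ) ≤ n := by exact_mod_cast hn1
    rw [hNr] at hT
    nlinarith
  -- the number of the rotations
  obtain ⟨h, hh⟩ : ∃ h, h = ⌊η * n⌋₊ := ⟨_, rfl⟩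
  have hh1 : (h : ℝ) ≤ η * n := by rw [hh]; exact Nat.floor_le (by positivity)
  have hh2 : η * n ≤ h + 1 := by rw [hh]; exact (Nat.lt_floor_add_one _).le
  have hh3 : 0 < h := by
    have : (0 : ℝ) < h := by linarith
    exact_mod_cast this
  have hh4 : η * n ≤ 2 * h := by linarith
  have hT1 : (T : ℝ) ≤ η * n / 8 := by
    have := mul_le_mul_of_nonneg_right hδb hnp.le
    linarith
  have hsum : (h : ℝ) + 2 * T ≤ 5 / 4 * (η * n) := by linarith
  have hηn1 : η * n ≤ η0 * n / 2 := by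
    have := mul_le_mul_of_nonneg_right hη1 hnp.le
    linarith
  have hηn2 : η * n ≤ δ1 * n / 2 := by
    have := mul_le_mul_of_nonneg_right hη2 hnp.le
    linarith
  have hηn3 : η * n ≤ n / 2 := by
    have := mul_le_mul_of_nonneg_right hη3 hnp.le
    linarith
  have hlen : h + 2 * T ≤ n := by
    have : ((h + 2 * T : ℕ) : ℝ) ≤ n := by
      push_cast
      linarith
    exact_mod_cast this
  have hRm : R * (2 * T + 1 + 1) ≤ n := by
    have h1 : (R : ℝ) * (2 * T) ≤ n / 8 := by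
      have hR0 : (0 : ℝ) ≤ R := Nat.cast_nonneg R
      have h2 : (T : ℝ) ≤ 2 * (1 / (32 * ((R : ℝ) + 1))) * n := by
        refine hTn.trans ?_
        have := mul_le_mul_of_nonneg_right hδc hnp.le
        linarith
      calc (R : ℝ) * (2 * T) ≤ ((R : ℝ) + 1) * (2 * (2 * (1 / (32 * ((R : ℝ) + 1))) * n)) := by
            refine mul_le_mul (by linarith) (by linarith) (by positivity) (by positivity)
        _ = n / 8 := by
            field_simp
            norm_num
    have h2 : (4 * R : ℝ) ≤ n := by exact_mod_cast (show 4 * R ≤ n by omega)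
    have : ((R * (2 * T + 1 + 1) : ℕ) : ℝ) ≤ n := by
      push_cast
      linarith
    exact_mod_cast this
  -- the exceptional sets
  obtain ⟨S1, hS1⟩ : ∃ S1 : Set (List Bool), S1 = {L | L ∈ C0 n ∧ ∃ x y : ℕ, x ≤ y ∧ y ≤ n ∧ (y : ℝ) ≤ x + δ1 * n ∧
    ε2 * (n : ℝ) ^ (3 / 4 : ℝ) < hn (vx oo up L y - vx oo up L x)} := ⟨_, rfl⟩
  obtain ⟨r, hr⟩ : ∃ r : ℝ, r = ρ (2 * T + 1) (wgt T Φ) := ⟨_, rfl⟩
  obtain ⟨S2, hS2⟩ : ∃ S2 : Set (List Bool), S2 = {L | L ∈ C0 n ∧ ∃ x y : ℕ, x ≤ y ∧ (y : ℝ) ≤ η0 * n ∧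
    e * n < |VW (wgt T Φ) (NPR.wd L x y) - r * ((y : ℝ) - x)|} := ⟨_, rfl⟩
  have g1 : gf S1 ≤ ENNReal.ofReal (ε2 * (n : ℝ) ^ (-(3 / 2) : ℝ)) := by
    rw [hS1]
    exact hmod n (by omega)
  have g2 : gf S2 ≤ ENNReal.ofReal (ε2 * (n : ℝ) ^ (-(3 / 2) : ℝ)) := by
    rw [hS2, hr]
    exact hR (2 * T + 1) (wgt T Φ) (hw T Φ hΦ) n hRm
  rw [hnN] at g1 g2
  have c1 := hbad S1 ε2 hε2p.le g1
  have c2 := hbad S2 ε2 hε2p.le g2
  rw [← hnN] at g1 g2 ⊢
  have hρ2 := hρ (2 * T + 1) (wgt T Φ) (hw T Φ hΦ)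
  rw [← hr] at hρ2
  simp only
  rw [← hr]
  have hC0 : ∀ K ∈ cyF N, K.dropLast ∈ C0 n := by
    intro K hK
    have hK' := mem_cyF.1 hK
    have hne : K ≠ [] := by
      rintro rfl
      have := hK'.1
      simp at this
      omega
    refine ⟨K.getLast hne, ?_⟩
    rw [List.dropLast_append_getLast hne, ← hNn]
    exact hK'
  -- the average
  obtain ⟨P, hPe⟩ : ∃ P : List Bool → Prop, ∀ K, P K ↔ (K.dropLast ∈ S1 ∨ K.dropLast ∈ S2) := ⟨_, fun _ => Iff.rfl⟩
  have key := avg_lem (cyF N) P (f3 F n) (fun K => Φ (HexObs.PMA.win T K))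
    (fun p K => K.rotate (p + T)) (fun p g => sum_rot N (p + T) g) hh3 (f3_abs hF1 n) (fun K => hΦ _) hρ2
    (a := 7 * ε2) (b := ε / 2) (by positivity) (by positivity) ?_ ?_
  · have c3 : (((cyF N).filter P).card : ℝ) ≤ 2 * (C * ε2 * (cyF N).card) := by
      have hsub : (cyF N).filter P ⊆ ((cyF N).filter fun K => K.dropLast ∈ S1) ∪ ((cyF N).filter fun K => K.dropLast ∈ S2) := by
        intro K hK
        rw [Finset.mem_filter, hPe] at hK
        rw [Finset.mem_union, Finset.mem_filter, Finset.mem_filter]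
        tauto
      have := (Finset.card_le_card hsub).trans (Finset.card_union_le _ _)
      have h2 : (((cyF N).filter P).card : ℝ) ≤
        (((cyF N).filter fun K => K.dropLast ∈ S1).card : ℝ) + ((cyF N).filter fun K => K.dropLast ∈ S2).card := by
        exact_mod_cast this
      linarith
    have hcr : (0 : ℝ) < (cyF N).card := by exact_mod_cast hcard
    have e1 : cyM N (fun K => f3 F n K * Φ (HexObs.PMA.win T K)) - r * cyM N (f3 F n) =
        (∑ K ∈ cyF N, f3 F n K * Φ (HexObs.PMA.win T K) - r * ∑ K ∈ cyF N, f3 F n K) / (cyF N).card := by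
      unfold cyM
      rw [sub_div, mul_div_assoc]
    rw [e1, abs_div, abs_of_pos hcr, div_le_iff₀ hcr]
    refine key.trans ?_
    calc (7 * ε2 + ε / 2) * ((cyF N).card : ℝ) + 3 * (((cyF N).filter P).card : ℝ)
        ≤ (7 * ε2 + ε / 2) * ((cyF N).card : ℝ) + 3 * (2 * (C * ε2 * (cyF N).card)) := by
          linarith
      _ = (7 * ε2 + ε / 2 + 6 * (C * ε2)) * (cyF N).card := by ring
      _ ≤ ε * (cyF N).card := by
          refine mul_le_mul_of_nonneg_right ?_ hcr.le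
          have : 0 ≤ C * ε2 := by positivity
          nlinarith
  · intro K hK hP p hp
    rw [hPe, not_or] at hP
    have hK' := mem_cyF.1 hK
    have hmodK : ∀ x y : ℕ, x ≤ y → y ≤ N - 1 → (y : ℝ) ≤ x + δ1 * ((N - 1 : ℕ) : ℝ) →
        (HexObs.TIW.hn (vx oo up K.dropLast y - vx oo up K.dropLast x) : ℝ) ≤ ε2 * nr n := by
      intro x y hxy hy hyd
      rw [← hnN] at hy hyd
      by_contra hcon
      refine hP.1 ?_
      rw [hS1]
      exact ⟨hC0 K hK, x, y, hxy, hy, hyd, not_le.1 hcon⟩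
    have hpr : (p : ℝ) ≤ h := by exact_mod_cast hp.le
    have h2 := rot_err hFL hFe hK' (by omega) (d := δ1) (u := p + T) (ω := ε2 * nr n) (by
        rw [← hnN]
        push_cast
        linarith) (by omega) (by positivity) hmodK
    rw [← hnN] at h2
    refine h2.trans ?_
    rw [div_le_iff₀ hnrp]
    have h3 : 14 ≤ ε2 * nr n := by
      rw [div_le_iff₀ hε2p] at hnr
      linarith
    linarith
  · intro K hK hP
    rw [hPe, not_or] at hP
    have hK' := mem_cyF.1 hK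
    have hKl : K.length = N := hK'.1
    rw [sum_win (by omega)]
    have h1 : |VW (wgt T Φ) (NPR.wd K.dropLast 0 (h + 2 * T)) - r * (((h + 2 * T : ℕ) : ℝ) - (0 : ℕ))| ≤ e * n := by
      by_contra hcon
      refine hP.2 ?_
      rw [hS2]
      refine ⟨hC0 K hK, 0, h + 2 * T, Nat.zero_le _, ?_, not_le.1 hcon⟩
      push_cast
      linarith
    push_cast at h1
    rw [sub_zero] at h1
    have h2 : VW (wgt T Φ) (NPR.wd K.dropLast 0 (h + 2 * T)) - r * h =
        (VW (wgt T Φ) (NPR.wd K.dropLast 0 (h + 2 * T)) - r * ((h : ℝ) + 2 * T)) + r * (2 * T) := by ring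
    rw [h2]
    have h3 : |r * (2 * (T : ℝ))| ≤ 4 * T := by
      rw [abs_mul, abs_of_nonneg hρ2.1, abs_of_nonneg (by positivity)]
      have := mul_le_mul_of_nonneg_right hρ2.2 (show (0 : ℝ) ≤ 2 * T by positivity)
      linarith
    have h4 := abs_add_le (VW (wgt T Φ) (NPR.wd K.dropLast 0 (h + 2 * T)) - r * ((h : ℝ) + 2 * T)) (r * (2 * T))
    have h5 : e * n ≤ ε / 4 * h := by
      rw [he]
      have := mul_le_mul_of_nonneg_left hh4 (show 0 ≤ ε / 8 by positivity)
      linarith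
    have h6 : 4 * (T : ℝ) ≤ ε / 4 * h := by
      have k1 := mul_le_mul_of_nonneg_right hδa hnp.le
      have k2 := mul_le_mul_of_nonneg_left hh4 (show 0 ≤ ε / 8 by positivity)
      linarith
    linarith

/-- **(h7)**: the window and the shape are almost uncorrelated -/
theorem indep : ∀ ε : ℝ, 0 < ε → ∃ (δ : ℝ) (N0 : ℕ), 0 < δ ∧ ∀ N : ℕ, N0 ≤ N → Even N → ∀ T : ℕ, (T : ℝ) ≤ δ * N →
    ∀ F : C(unitInterval, ℂ) → ℝ, (∀ γ, |F γ| ≤ 1) → LipschitzWith 1 F → (∀ γ, F (-γ) = F γ) →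
    ∀ Φ : List Bool × List Bool → ℝ, (∀ x, 0 ≤ Φ x ∧ Φ x ≤ 1) →
    |cyM N (fun K => f3 F (N - 1) K * Φ (HexObs.PMA.win T K)) -
      cyM N (f3 F (N - 1)) * cyM N (fun K => Φ (HexObs.PMA.win T K))| ≤ ε := by
  obtain ⟨ρ, -, h⟩ := indep_den
  intro ε hε
  obtain ⟨δ, N0, hδ, h⟩ := h (ε / 2) (by linarith)
  refine ⟨δ, N0, hδ, fun N hN he T hT F hF1 hFL hFe Φ hΦ => ?_⟩
  obtain ⟨hcard, h⟩ := h N hN he
  have hcr : (0 : ℝ) < (cyF N).card := by exact_mod_cast hcard
  have h1 := h T hT Φ hΦ F hF1 hFL hFe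
  have h2 := h T hT Φ hΦ (fun _ => 1) (fun _ => by rw [abs_one]) (LipschitzWith.const 1 |>.weaken (by norm_num)) (fun _ => rfl)
  have e1 : cyM N (f3 (fun _ => (1 : ℝ)) (N - 1)) = 1 := by
    unfold cyM
    simp only [f3_one]
    rw [Finset.sum_const, nsmul_eq_mul, mul_one, div_self hcr.ne']
  simp only [f3_one, one_mul] at h2
  have e2 : cyM N (fun _ => (1 : ℝ)) = 1 := by
    unfold cyM
    rw [Finset.sum_const, nsmul_eq_mul, mul_one, div_self hcr.ne']
  rw [e1, mul_one] at h2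
  have hm : |cyM N (f3 F (N - 1))| ≤ 1 := by
    unfold cyM
    rw [abs_div, abs_of_pos hcr, div_le_one hcr]
    refine (Finset.abs_sum_le_sum_abs _ _).trans ?_
    calc ∑ K ∈ cyF N, |f3 F (N - 1) K| ≤ ∑ _K ∈ cyF N, (1 : ℝ) := Finset.sum_le_sum fun K _ => f3_abs hF1 _ _
      _ = _ := by rw [Finset.sum_const, nsmul_eq_mul, mul_one]
  have e3 : cyM N (fun K => f3 F (N - 1) K * Φ (HexObs.PMA.win T K)) -
      cyM N (f3 F (N - 1)) * cyM N (fun K => Φ (HexObs.PMA.win T K)) =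
      (cyM N (fun K => f3 F (N - 1) K * Φ (HexObs.PMA.win T K)) - ρ T Φ * cyM N (f3 F (N - 1))) -
      cyM N (f3 F (N - 1)) * (cyM N (fun K => Φ (HexObs.PMA.win T K)) - ρ T Φ) := by ring
  rw [e3]
  refine (abs_sub _ _).trans ?_
  rw [abs_mul]
  have h3 := mul_le_mul hm h2 (abs_nonneg _) zero_le_one
  linarith

end Pool.Agent.PMA
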