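import Pool.Agent.PMA.LimV
import Pool.Agent.PMA.LimR
import Pool.Agent.PMA.LimT

/-!
# The limit form of (PM) (helper41)

**`PMLim`**: if along `φ` (odd numbers) the laws of the walks with `⌊x φ k⌋` steps converge, then the laws of the polygons
converge, and the limit is the limit as `r → 0` of the laws of the walks whose ends are at a distance at most `r`.
**`pmLim_of : NEG → PMLim`**.
-/

set_option autoImplicit false

open MeasureTheory Filter Topology Finset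

open scoped Classical

namespace Pool.Agent.PMA

open Res Pool.Agent.NTS.Res Pool.Agent.RMP

open NTSF (size_pos integral_law)

/-- **The polygon in the scaling limit**: `r0` does not depend on the limit. -/
def PMLim : Prop := ∀ ε : ℝ, 0 < ε → ∃ r0 : ℝ, 0 < r0 ∧ ∀ (φ : ℕ → ℕ) (μ : ℝ → Measure C(unitInterval, ℂ)) (ρ : ℝ → ℝ),
  Fam φ μ ρ → (∀ k, Odd (φ k)) → ∃ π : Measure C(unitInterval, ℂ), IsProbabilityMeasure π ∧ (∀ᵐ γ ∂π, γ 0 = 0 ∧ γ 1 = 0) ∧
    (∀ f : BoundedContinuousFunction C(unitInterval, ℂ) ℝ,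
      Tendsto (fun k => ∫ γ, f γ ∂(plaw (φ k))) atTop (𝓝 (∫ γ, f γ ∂π))) ∧
    ∀ r : ℝ, 0 < r → r ≤ r0 → 0 < closeI μ ρ r (fun _ => 1) ∧ ∀ F : C(unitInterval, ℂ) → ℝ, (∀ γ, |F γ| ≤ 1) →
      LipschitzWith 1 F → |closeI μ ρ r F / closeI μ ρ r (fun _ => 1) - ∫ γ, F γ ∂π| ≤ ε

/-! ### 1. Symmetry -/

lemma size_large {φ : ℕ → ℕ} (hφ : Tendsto φ atTop atTop) : Tendsto (fun i => size (φ i)) atTop atTop := by
  obtain ⟨c0, C0, hc0, -, hsz⟩ := size_bd
  have h1 : Tendsto (fun i => c0 * ((φ i : ℕ) : ℝ) ^ (3 / 4 : ℝ)) atTop atTop :=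
    ((tendsto_rpow_atTop (by norm_num : (0 : ℝ) < 3 / 4)).comp (tendsto_natCast_atTop_atTop.comp hφ)).const_mul_atTop hc0
  refine tendsto_atTop_mono' _ ?_ h1
  filter_upwards [hφ.eventually_ge_atTop 1] with i hi
  exact (hsz _ hi).1

/-- the even part -/
noncomputable def ev (F : C(unitInterval, ℂ) → ℝ) (γ : C(unitInterval, ℂ)) : ℝ := (F γ + F (-γ)) / 2

lemma ev_even (F : C(unitInterval, ℂ) → ℝ) (γ : C(unitInterval, ℂ)) : ev F (-γ) = ev F γ := by
  unfold ev
  rw [neg_neg, add_comm]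

lemma ev_abs {F : C(unitInterval, ℂ) → ℝ} (hF : ∀ γ, |F γ| ≤ 1) (γ : C(unitInterval, ℂ)) : |ev F γ| ≤ 1 := by
  have h1 := abs_le.1 (hF γ)
  have h2 := abs_le.1 (hF (-γ))
  unfold ev
  rw [abs_le]
  constructor <;> linarith [h1.1, h1.2, h2.1, h2.2]

lemma ev_lip {F : C(unitInterval, ℂ) → ℝ} (hL : LipschitzWith 1 F) : LipschitzWith 1 (ev F) := by
  refine LipschitzWith.of_dist_le_mul fun x y => ?_
  have h1 := hL.dist_le_mul x y
  have h2 := hL.dist_le_mul (-x) (-y)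
  rw [dist_neg_neg] at h2
  rw [Real.dist_eq, NNReal.coe_one, one_mul] at h1 h2 ⊢
  have h1' := abs_le.1 h1
  have h2' := abs_le.1 h2
  unfold ev
  rw [abs_le]
  constructor <;> linarith [h1'.1, h1'.2, h2'.1, h2'.2]

lemma pmean_ev (n : ℕ) (F : C(unitInterval, ℂ) → ℝ) : pmean n (ev F) = (pmean n F + pmean n fun γ => F (-γ)) / 2 := by
  unfold pmean ev
  rw [← add_div, ← Finset.sum_add_distrib, ← Finset.sum_div]
  ring

variable {φ : ℕ → ℕ} {μ : ℝ → Measure C(unitInterval, ℂ)} {ρ : ℝ → ℝ}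

/-- the even part has the same limit over the polygons -/
lemma ev_pol (hφ : Tendsto φ atTop atTop) (ho : ∀ k, Odd (φ k)) {F : C(unitInterval, ℂ) → ℝ} (hL : LipschitzWith 1 F) {l : ℝ}
    (h : Tendsto (fun i => pmean (φ i) F) atTop (𝓝 l)) : Tendsto (fun i => pmean (φ i) (ev F)) atTop (𝓝 l) := by
  have h1 : Tendsto (fun i => 4 / size (φ i)) atTop (𝓝 0) := (size_large hφ).const_div_atTop 4
  have h2 : Tendsto (fun i => pmean (φ i) (ev F) - pmean (φ i) F) atTop (𝓝 0) := by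
    refine squeeze_zero_norm' ?_ h1
    filter_upwards [hφ.eventually_ge_atTop 3] with i hi
    have h3 := pol_sym hi (ho i) hL
    rw [Real.norm_eq_abs, pmean_ev]
    rw [abs_le] at h3 ⊢
    have h4 : 0 < size (φ i) := size_pos (by omega)
    have h5 : 0 < 4 / size (φ i) := by positivity
    constructor <;> linarith [h3.1, h3.2]
  have h3 := h2.add h
  simpa using h3

/-- the even part has the same integral over the close curves -/
lemma ev_close (hE : NEG) (hf : Fam φ μ ρ) {r : ℝ} (hr : 0 < r) (hr1 : r < 1) {F : C(unitInterval, ℂ) → ℝ}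
    (hF : ∀ γ, |F γ| ≤ 1) (hL : LipschitzWith 1 F) : closeI μ ρ r (ev F) = closeI μ ρ r F := by
  have hw := win_pos hr hr1
  unfold closeI
  rw [intervalIntegral.integral_of_le hw.2.le, intervalIntegral.integral_of_le hw.2.le]
  refine setIntegral_congr_fun measurableSet_Ioc fun x hx => ?_
  have hx0 : 0 < x := hw.1.trans hx.1
  have hP := hf.prob x hx0 hx.2
  have hs := neg_sym hE (floor_top hf.top hx0) (hf.law x hx0 hx.2)
  have hm : Measurable fun γ : C(unitInterval, ℂ) => -γ := continuous_neg.measurable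
  have hset : MeasurableSet {γ : C(unitInterval, ℂ) | ρ x * ‖γ 1‖ ≤ r} :=
    (isClosed_le (continuous_const.mul (continuous_eval_const 1).norm) continuous_const).measurableSet
  obtain ⟨G, hG⟩ : ∃ G : C(unitInterval, ℂ) → ℝ, G = fun γ => if ρ x * ‖γ 1‖ ≤ r then F γ else 0 := ⟨_, rfl⟩
  have hGm : Measurable G := by
    rw [hG]
    exact Measurable.ite hset hL.continuous.measurable measurable_const
  have hGb : ∀ γ, ‖G γ‖ ≤ 1 := by
    intro γ
    rw [hG, Real.norm_eq_abs]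
    show |if ρ x * ‖γ 1‖ ≤ r then F γ else 0| ≤ 1
    split_ifs
    · exact hF γ
    · rw [abs_zero]
      exact zero_le_one
  have e1 : ∫ γ, G (-γ) ∂(μ x) = ∫ γ, G γ ∂(μ x) := by
    conv_rhs => rw [← hs]
    rw [integral_map hm.aemeasurable hGm.aestronglyMeasurable]
  have e2 : ∀ γ : C(unitInterval, ℂ), (if ρ x * ‖γ 1‖ ≤ r then ev F γ else 0) = (G γ + G (-γ)) / 2 := by
    intro γ
    rw [hG]
    show _ = ((if ρ x * ‖γ 1‖ ≤ r then F γ else 0) + if ρ x * ‖(-γ) 1‖ ≤ r then F (-γ) else 0) / 2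
    have e3 : ‖(-γ) 1‖ = ‖γ 1‖ := by
      rw [ContinuousMap.neg_apply, norm_neg]
    rw [e3]
    unfold ev
    split_ifs
    · rfl
    · rw [add_zero, zero_div]
  have i1 : Integrable G (μ x) := Integrable.of_bound hGm.aestronglyMeasurable 1 (Eventually.of_forall hGb)
  have i2 : Integrable (fun γ => G (-γ)) (μ x) :=
    Integrable.of_bound (hGm.comp hm).aestronglyMeasurable 1 (Eventually.of_forall fun γ => hGb _)
  show ∫ γ, (if ρ x * ‖γ 1‖ ≤ r then ev F γ else 0) ∂(μ x) = ∫ γ, (if ρ x * ‖γ 1‖ ≤ r then F γ else 0) ∂(μ x)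
  have e4 : ∫ γ, (if ρ x * ‖γ 1‖ ≤ r then F γ else 0) ∂(μ x) = ∫ γ, G γ ∂(μ x) := by
    rw [hG]
  simp only [e2]
  rw [e4, integral_div, integral_add i1 i2, e1]
  ring

/-- **the polygons along a sequence with limits, all functions** -/
theorem close_full (hE : NEG) : ∀ ε : ℝ, 0 < ε → ∃ r0 : ℝ, 0 < r0 ∧ ∀ r : ℝ, 0 < r → r ≤ r0 →
    ∀ (φ : ℕ → ℕ) (μ : ℝ → Measure C(unitInterval, ℂ)) (ρ : ℝ → ℝ), Fam φ μ ρ → (∀ k, Odd (φ k)) →
      0 < closeI μ ρ r (fun _ => 1) ∧ ∀ F : C(unitInterval, ℂ) → ℝ, (∀ γ, |F γ| ≤ 1) → LipschitzWith 1 F →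
        ∀ l : ℝ, Tendsto (fun i => pmean (φ i) F) atTop (𝓝 l) → |closeI μ ρ r F / closeI μ ρ r (fun _ => 1) - l| ≤ ε := by
  intro ε hε
  obtain ⟨r0, hr0, h⟩ := close_core ε hε
  refine ⟨min r0 (1 / 2), by positivity, fun r hr hrr φ μ ρ hf ho => ?_⟩
  obtain ⟨h1, h2⟩ := h r hr (hrr.trans (min_le_left _ _)) φ μ ρ hf ho
  have hr1 : r < 1 := by
    have : r ≤ 1 / 2 := hrr.trans (min_le_right _ _)
    linarith
  refine ⟨h1, fun F hF hL l hl => ?_⟩
  have h3 := h2 (ev F) (ev_abs hF) (ev_lip hL) (ev_even F) l (ev_pol hf.top ho hL hl)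
  rwa [ev_close hE hf hr hr1 hF hL] at h3

/-! ### 2. The limit -/

lemma fam_sub (hf : Fam φ μ ρ) {ψ : ℕ → ℕ} (hψ : Tendsto ψ atTop atTop) : Fam (φ ∘ ψ) μ ρ :=
  ⟨hf.top.comp hψ, hf.prob, fun x h0 h1 f => (hf.law x h0 h1 f).comp hψ, fun x h0 h1 => (hf.size x h0 h1).comp hψ⟩

/-- two subsequences have the same limit -/
lemma lim_unique (hE : NEG) {φ φ' : ℕ → ℕ} (hf : Fam φ μ ρ) (hf' : Fam φ' μ ρ) (ho : ∀ k, Odd (φ k)) (ho' : ∀ k, Odd (φ' k))
    {F : C(unitInterval, ℂ) → ℝ} (hF : ∀ γ, |F γ| ≤ 1) (hL : LipschitzWith 1 F) {l l' : ℝ}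
    (h : Tendsto (fun i => pmean (φ i) F) atTop (𝓝 l)) (h' : Tendsto (fun i => pmean (φ' i) F) atTop (𝓝 l')) : l = l' := by
  refine eq_of_forall_dist_le fun ε hε => ?_
  obtain ⟨r0, hr0, h1⟩ := close_full hE (ε / 2) (by positivity)
  have a1 := (h1 r0 hr0 le_rfl φ μ ρ hf ho).2 F hF hL l h
  have a2 := (h1 r0 hr0 le_rfl φ' μ ρ hf' ho').2 F hF hL l' h'
  rw [Real.dist_eq]
  rw [abs_le] at a1 a2 ⊢
  constructor <;> linarith [a1.1, a1.2, a2.1, a2.2]

lemma pmean_abs (n : ℕ) {F : C(unitInterval, ℂ) → ℝ} (hF : ∀ γ, |F γ| ≤ 1) : |pmean n F| ≤ 1 := by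
  unfold pmean
  rw [abs_div, abs_of_nonneg (Nat.cast_nonneg _ : (0 : ℝ) ≤ ((pol n).card : ℝ))]
  refine div_le_one_of_le₀ ?_ (Nat.cast_nonneg _)
  refine (Finset.abs_sum_le_sum_abs _ _).trans ((Finset.sum_le_sum (g := fun _ => (1 : ℝ)) fun s _ => hF _).trans (le_of_eq ?_))
  rw [Finset.sum_const, nsmul_eq_mul, mul_one]

/-- weak convergence from the functions with `|F| ≤ 1` and the Lipschitz constant `1` -/
lemma weak_of {P : ℕ → ProbabilityMeasure C(unitInterval, ℂ)} {ν : ProbabilityMeasure C(unitInterval, ℂ)}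
    (h : ∀ F : C(unitInterval, ℂ) → ℝ, (∀ γ, |F γ| ≤ 1) → LipschitzWith 1 F →
      Tendsto (fun k => ∫ γ, F γ ∂(P k : Measure C(unitInterval, ℂ))) atTop (𝓝 (∫ γ, F γ ∂(ν : Measure C(unitInterval, ℂ))))) :
    Tendsto P atTop (𝓝 ν) := by
  rw [tendsto_iff_forall_lipschitz_integral_tendsto]
  rintro f ⟨B, hB⟩ ⟨L, hL⟩
  obtain ⟨M, hM⟩ : ∃ M : ℝ, M = |f 0| + |B| + L + 1 := ⟨_, rfl⟩
  have hL0 : (0 : ℝ) ≤ L := L.2
  have hM0 : 0 < M := by
    rw [hM]
    positivity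
  have hg1 : ∀ γ, |M⁻¹ * f γ| ≤ 1 := by
    intro γ
    rw [abs_mul, abs_of_pos (inv_pos.2 hM0), inv_mul_le_iff₀ hM0, mul_one]
    have h1 := hB γ 0
    rw [Real.dist_eq] at h1
    have h2 : |f γ| ≤ |f γ - f 0| + |f 0| := by
      have := abs_add_le (f γ - f 0) (f 0)
      rwa [sub_add_cancel] at this
    have h3 := le_abs_self B
    rw [hM]
    linarith
  have hg2 : LipschitzWith 1 fun γ => M⁻¹ * f γ := by
    refine LipschitzWith.of_dist_le_mul fun γ γ' => ?_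
    rw [Real.dist_eq, ← mul_sub, abs_mul, abs_of_pos (inv_pos.2 hM0), inv_mul_le_iff₀ hM0, NNReal.coe_one, one_mul]
    have h1 := hL.dist_le_mul γ γ'
    rw [Real.dist_eq] at h1
    refine h1.trans (mul_le_mul_of_nonneg_right ?_ dist_nonneg)
    rw [hM]
    have := abs_nonneg (f 0)
    have := abs_nonneg B
    linarith
  have h1 := (h _ hg1 hg2).const_mul M
  have h2 : ∀ κ : Measure C(unitInterval, ℂ), M * ∫ γ, M⁻¹ * f γ ∂κ = ∫ γ, f γ ∂κ := by
    intro κ
    rw [integral_const_mul, ← mul_assoc, mul_inv_cancel₀ hM0.ne', one_mul]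
  simp only [h2] at h1
  exact h1

lemma lip_eval (u : unitInterval) : LipschitzWith 1 fun γ : C(unitInterval, ℂ) => min 1 ‖γ u‖ := by
  refine LipschitzWith.of_dist_le_mul fun x y => ?_
  rw [Real.dist_eq, NNReal.coe_one, one_mul]
  have h1 : |min 1 ‖x u‖ - min 1 ‖y u‖| ≤ |‖x u‖ - ‖y u‖| := (abs_min_sub_min_le_max _ _ _ _).trans (by simp)
  have h2 : |‖x u‖ - ‖y u‖| ≤ ‖x u - y u‖ := abs_norm_sub_norm_le _ _
  have h3 : ‖x u - y u‖ ≤ dist x y := by
    rw [← dist_eq_norm]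
    exact ContinuousMap.dist_apply_le_dist u
  exact h1.trans (h2.trans h3)

/-- **the limit of the polygons** -/
theorem pmLim_of (hE : NEG) : PMLim := by
  intro ε hε
  obtain ⟨r0, hr0, hcl⟩ := close_full hE ε hε
  refine ⟨r0, hr0, fun φ μ ρ hf ho => ?_⟩
  obtain ⟨n0, ht⟩ := tightP
  obtain ⟨n1, hpr⟩ := plaw_prob
  obtain ⟨N, hN⟩ := (hf.top.eventually_ge_atTop (max (max n0 n1) 3)).exists_forall_of_atTop
  have hadd : Tendsto (fun k : ℕ => k + N) atTop atTop := tendsto_add_atTop_nat N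
  have hN' : ∀ k, n0 ≤ φ (k + N) ∧ n1 ≤ φ (k + N) ∧ 3 ≤ φ (k + N) := fun k => by
    have := hN (k + N) (Nat.le_add_left _ _)
    exact ⟨(le_max_left _ _).trans ((le_max_left _ _).trans this), (le_max_right _ _).trans ((le_max_left _ _).trans this),
      (le_max_right _ _).trans this⟩
  obtain ⟨P, hP⟩ : ∃ P : ℕ → ProbabilityMeasure C(unitInterval, ℂ), ∀ k, (P k : Measure C(unitInterval, ℂ)) = plaw (φ (k + N)) :=
    ⟨fun k => ⟨plaw (φ (k + N)), hpr _ (hN' k).2.1 (ho _)⟩, fun _ => rfl⟩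
  have hK : IsCompact (closure (Set.range P)) := by
    refine isCompact_closure_of_isTightMeasureSet (ht.subset ?_)
    rintro μ ⟨p, ⟨n, rfl⟩, rfl⟩
    exact ⟨_, (hN' n).1, ho _, hP n⟩
  obtain ⟨π, -, ψ, hψ, hlim⟩ := hK.tendsto_subseq fun k => subset_closure ⟨k, rfl⟩
  have hPi : ∀ (F : C(unitInterval, ℂ) → ℝ) (k : ℕ), ∫ γ, F γ ∂(P k : Measure C(unitInterval, ℂ)) = pmean (φ (k + N)) F := by
    intro F k
    rw [hP, plaw_int']
  have hall : ∀ F : C(unitInterval, ℂ) → ℝ, (∀ γ, |F γ| ≤ 1) → LipschitzWith 1 F →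
      Tendsto (fun k => pmean (φ (k + N)) F) atTop (𝓝 (∫ γ, F γ ∂(π : Measure C(unitInterval, ℂ)))) := by
    intro F hF hL
    have h1 : Tendsto (fun k => pmean (φ (ψ k + N)) F) atTop (𝓝 (∫ γ, F γ ∂(π : Measure C(unitInterval, ℂ)))) := by
      have h2 := (ProbabilityMeasure.tendsto_iff_forall_integral_tendsto.1 hlim) (bcf F hL.continuous 1 hF)
      refine h2.congr fun k => ?_
      simp only [Function.comp_apply, bcf_apply]
      exact hPi F (ψ k)
    refine tendsto_of_subseq_tendsto fun ns hns => ?_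
    have hcomp : IsCompact (Set.Icc (-1 : ℝ) 1) := isCompact_Icc
    obtain ⟨l, -, ms, hms, hl⟩ := hcomp.tendsto_subseq (x := fun k => pmean (φ (ns k + N)) F)
      (fun k => abs_le.1 (pmean_abs _ hF))
    refine ⟨ms, ?_⟩
    have f1 : Fam (φ ∘ fun k => ns (ms k) + N) μ ρ := fam_sub hf (hadd.comp (hns.comp hms.tendsto_atTop))
    have f2 : Fam (φ ∘ fun k => ψ k + N) μ ρ := fam_sub hf (hadd.comp hψ.tendsto_atTop)
    have h3 := lim_unique hE f1 f2 (fun k => ho _) (fun k => ho _) hF hL hl h1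
    rw [← h3]
    exact hl
  have hweak : Tendsto P atTop (𝓝 π) := weak_of fun F hF hL => by
    simp only [hPi]
    exact hall F hF hL
  have hshift : ∀ F : C(unitInterval, ℂ) → ℝ, (∀ γ, |F γ| ≤ 1) → LipschitzWith 1 F →
      Tendsto (fun k => pmean (φ k) F) atTop (𝓝 (∫ γ, F γ ∂(π : Measure C(unitInterval, ℂ)))) := fun F hF hL =>
    (tendsto_add_atTop_iff_nat N).1 (hall F hF hL)
  -- a function which is small on the polygons vanishes almost surely
  have hzero : ∀ u : unitInterval, (∀ n : ℕ, 1 ≤ n → ∀ s ∈ pol n, ‖curve s u‖ ≤ 1 / size n) →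
      ∀ᵐ γ ∂(π : Measure C(unitInterval, ℂ)), γ u = 0 := by
    intro u hu
    have hb : ∀ γ : C(unitInterval, ℂ), |min 1 ‖γ u‖| ≤ 1 := fun γ => by
      rw [abs_of_nonneg (le_min zero_le_one (norm_nonneg _))]
      exact min_le_left _ _
    have h1 := hshift (fun γ => min 1 ‖γ u‖) hb (lip_eval u)
    have h2 : Tendsto (fun k => pmean (φ k) fun γ => min 1 ‖γ u‖) atTop (𝓝 0) := by
      refine squeeze_zero_norm' ?_ ((size_large hf.top).const_div_atTop 1)
      filter_upwards [hf.top.eventually_ge_atTop 1] with k hk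
      have hs := size_pos hk
      have hnn : 0 ≤ 1 / size (φ k) := by positivity
      rw [Real.norm_eq_abs]
      unfold pmean
      rw [abs_div, abs_of_nonneg (Nat.cast_nonneg _ : (0 : ℝ) ≤ ((pol (φ k)).card : ℝ))]
      refine div_le_of_le_mul₀ (Nat.cast_nonneg _) hnn ?_
      refine (Finset.abs_sum_le_sum_abs _ _).trans ((Finset.sum_le_sum (g := fun _ => 1 / size (φ k)) fun s hs2 => ?_).trans
        (le_of_eq ?_))
      · rw [abs_of_nonneg (le_min zero_le_one (norm_nonneg _))]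
        exact (min_le_right _ _).trans (hu _ hk s hs2)
      · rw [Finset.sum_const, nsmul_eq_mul, mul_comm]
    have h3 := tendsto_nhds_unique h1 h2
    have h4 : Integrable (fun γ : C(unitInterval, ℂ) => min 1 ‖γ u‖) (π : Measure C(unitInterval, ℂ)) :=
      Integrable.of_bound (lip_eval u).continuous.aestronglyMeasurable 1 (Eventually.of_forall fun γ => by
        rw [Real.norm_eq_abs]
        exact hb γ)
    rw [integral_eq_zero_iff_of_nonneg (fun γ => le_min zero_le_one (norm_nonneg _)) h4] at h3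
    filter_upwards [h3] with γ hγ
    have h5 : min 1 ‖γ u‖ = 0 := hγ
    rcases min_choice 1 ‖γ u‖ with h6 | h6
    · rw [h6] at h5
      exact absurd h5 one_ne_zero
    · rw [h6] at h5
      exact norm_eq_zero.1 h5
  refine ⟨π, π.2, ?_, fun f => ?_, fun r hr hrr => ?_⟩
  · have h0 := hzero 0 fun n hn s _ => by
      have hs := size_pos hn
      have e : curve s 0 = 0 := by
        show ∑ k ∈ Finset.range n, ((max 0 (min 1 (((0 : unitInterval) : ℝ) * n - k)) : ℝ) : ℂ) *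
          ((pos s (k + 1) - pos s k) / size n) = 0
        refine Finset.sum_eq_zero fun k _ => ?_
        have e1 : max 0 (min 1 (((0 : unitInterval) : ℝ) * n - k)) = 0 := by
          have : (0 : ℝ) ≤ k := Nat.cast_nonneg k
          rw [Set.Icc.coe_zero, zero_mul, zero_sub]
          exact max_eq_left ((min_le_right _ _).trans (by linarith))
        rw [e1, Complex.ofReal_zero, zero_mul]
      rw [e, norm_zero]
      positivity
    have h1 := hzero 1 fun n hn s hs2 => by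
      have hs := size_pos hn
      rw [curve_one, norm_div, Complex.norm_of_nonneg hs.le, (Finset.mem_filter.1 hs2).2]
    filter_upwards [h0, h1] with γ g0 g1
    exact ⟨g0, g1⟩
  · have h1 := (ProbabilityMeasure.tendsto_iff_forall_integral_tendsto.1 hweak) f
    refine (tendsto_add_atTop_iff_nat N).1 ?_
    refine h1.congr fun k => ?_
    rw [hP]
  · obtain ⟨h1, h2⟩ := hcl r hr hrr φ μ ρ hf ho
    exact ⟨h1, fun F hF hL => h2 F hF hL _ (hshift F hF hL)⟩

end Pool.Agent.PMA
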