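import Pool.Agent.PMA.LimR
import Pool.Agent.PMA.LimT

/-!
# (PM), the limit form: the polygons are invariant under the change of the starting time (helper65)

* `rot u γ` : the closed curve `γ` read from the time `u` on (from the origin), `rot_lip`;
* `LimO.sh_rot` : the curve of the polygon read from its site `m` on is `± rot (m / n)` of the curve, up to `5 / size n`;
* **`pol_rot`** : `pmean n (F ∘ rot u)` and `pmean n F` differ by at most `12 / size n`.
-/

set_option autoImplicit false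

open MeasureTheory Filter Topology

open scoped Classical

namespace Pool.Agent.PMA

open Res Pool.Agent.NTS.Res

/-- the curve read from the time `u` on -/
noncomputable def rot (u : ℝ) (γ : C(unitInterval, ℂ)) : C(unitInterval, ℂ) where
  toFun t := γ (Set.projIcc 0 1 zero_le_one (u + t)) + γ (Set.projIcc 0 1 zero_le_one (u + t - 1)) -
    γ (Set.projIcc 0 1 zero_le_one u) - γ 0
  continuous_toFun := by
    have h1 : Continuous fun t : unitInterval => Set.projIcc (0 : ℝ) 1 zero_le_one (u + t) :=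
      continuous_projIcc.comp (by fun_prop)
    have h2 : Continuous fun t : unitInterval => Set.projIcc (0 : ℝ) 1 zero_le_one (u + t - 1) :=
      continuous_projIcc.comp (by fun_prop)
    exact (((γ.continuous.comp h1).add (γ.continuous.comp h2)).sub continuous_const).sub continuous_const

theorem rot_apply (u : ℝ) (γ : C(unitInterval, ℂ)) (t : unitInterval) : rot u γ t =
    γ (Set.projIcc 0 1 zero_le_one (u + t)) + γ (Set.projIcc 0 1 zero_le_one (u + t - 1)) -
    γ (Set.projIcc 0 1 zero_le_one u) - γ 0 := rfl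

theorem rot_lip (u : ℝ) : LipschitzWith 4 (rot u) := by
  refine LipschitzWith.of_dist_le_mul fun γ γ' => ?_
  refine (ContinuousMap.dist_le (by positivity)).2 fun t => ?_
  have h : ∀ x : unitInterval, ‖γ x - γ' x‖ ≤ dist γ γ' := fun x => by
    rw [← dist_eq_norm]
    exact ContinuousMap.dist_apply_le_dist x
  rw [dist_eq_norm, rot_apply, rot_apply]
  have h1 := h (Set.projIcc 0 1 zero_le_one (u + t))
  have h2 := h (Set.projIcc 0 1 zero_le_one (u + t - 1))
  have h3 := h (Set.projIcc 0 1 zero_le_one u)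
  have h4 := h 0
  obtain ⟨A, hA⟩ : ∃ A, A = γ (Set.projIcc 0 1 zero_le_one (u + t)) - γ' (Set.projIcc 0 1 zero_le_one (u + t)) := ⟨_, rfl⟩
  obtain ⟨B, hB⟩ : ∃ B, B = γ (Set.projIcc 0 1 zero_le_one (u + t - 1)) - γ' (Set.projIcc 0 1 zero_le_one (u + t - 1)) :=
    ⟨_, rfl⟩
  obtain ⟨D, hD⟩ : ∃ D, D = γ (Set.projIcc 0 1 zero_le_one u) - γ' (Set.projIcc 0 1 zero_le_one u) := ⟨_, rfl⟩
  obtain ⟨E, hE⟩ : ∃ E, E = γ 0 - γ' 0 := ⟨_, rfl⟩
  rw [← hA] at h1
  rw [← hB] at h2
  rw [← hD] at h3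
  rw [← hE] at h4
  have e : γ (Set.projIcc 0 1 zero_le_one (u + t)) + γ (Set.projIcc 0 1 zero_le_one (u + t - 1)) -
      γ (Set.projIcc 0 1 zero_le_one u) - γ 0 - (γ' (Set.projIcc 0 1 zero_le_one (u + t)) +
      γ' (Set.projIcc 0 1 zero_le_one (u + t - 1)) - γ' (Set.projIcc 0 1 zero_le_one u) - γ' 0) = A + B - D - E := by
    rw [hA, hB, hD, hE]
    ring
  rw [e]
  have h5 := norm_sub_le (A + B - D) E
  have h6 := norm_sub_le (A + B) D
  have h7 := norm_add_le A B
  have h8 : ((4 : NNReal) : ℝ) = 4 := rfl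
  rw [h8]
  linarith

namespace LimO

open LimR

/-! ### the curve of a walk as a function of the time -/

lemma sum_clamp {n : ℕ} (hn : 1 ≤ n) (u : unitInterval) :
    ∑ k ∈ Finset.range n, max 0 (min 1 ((u : ℝ) * n - k)) = u * n := by
  obtain ⟨i, hi, h1, h2⟩ := Tight.th2_idx hn u
  have h := Tight.th2_sum (fun _ => (1 : ℝ)) hi h1 h2
  simp only [smul_eq_mul, mul_one, Finset.sum_const, Finset.card_range, nsmul_eq_mul] at h
  rw [h]
  ring

lemma curve_tl {n : ℕ} (hn : 1 ≤ n) (s : Fin n → Fin 3) {x y : unitInterval} (h : (x : ℝ) ≤ y) :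
    ‖curve s y - curve s x‖ ≤ n * ((y : ℝ) - x) / size n := by
  have hs := NTSF.size_pos hn
  show ‖∑ k ∈ Finset.range n, ((max 0 (min 1 ((y : ℝ) * n - k)) : ℝ) : ℂ) * ((pos s (k + 1) - pos s k) / size n) -
    ∑ k ∈ Finset.range n, ((max 0 (min 1 ((x : ℝ) * n - k)) : ℝ) : ℂ) * ((pos s (k + 1) - pos s k) / size n)‖ ≤ _
  rw [← Finset.sum_sub_distrib]
  refine (norm_sum_le _ _).trans ?_
  have h1 : ∀ k ∈ Finset.range n, ‖((max 0 (min 1 ((y : ℝ) * n - k)) : ℝ) : ℂ) * ((pos s (k + 1) - pos s k) / size n) -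
      ((max 0 (min 1 ((x : ℝ) * n - k)) : ℝ) : ℂ) * ((pos s (k + 1) - pos s k) / size n)‖ ≤
      (max 0 (min 1 ((y : ℝ) * n - k)) - max 0 (min 1 ((x : ℝ) * n - k))) / size n := by
    intro k hk
    have hk' := Finset.mem_range.1 hk
    rw [← sub_mul, ← Complex.ofReal_sub, norm_mul, Complex.norm_real, norm_div, Complex.norm_real,
      Real.norm_of_nonneg hs.le, NTSF.pos_succ s k hk', add_sub_cancel_left, norm_step', Real.norm_of_nonneg]
    · rw [mul_one_div]
    · have h2 : (x : ℝ) * n - k ≤ (y : ℝ) * n - k :=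
        sub_le_sub_right (mul_le_mul_of_nonneg_right h (Nat.cast_nonneg n)) _
      exact sub_nonneg.2 (max_le_max_left 0 (min_le_min_left 1 h2))
  refine (Finset.sum_le_sum h1).trans (le_of_eq ?_)
  rw [← Finset.sum_div, Finset.sum_sub_distrib, sum_clamp hn, sum_clamp hn]
  congr 1
  ring

lemma curve_tl' {n : ℕ} (hn : 1 ≤ n) (s : Fin n → Fin 3) (x y : unitInterval) :
    ‖curve s y - curve s x‖ ≤ n * |(y : ℝ) - x| / size n := by
  rcases le_total (x : ℝ) y with h | h
  · rw [abs_of_nonneg (sub_nonneg.2 h)]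
    exact curve_tl hn s h
  · rw [abs_of_nonpos (sub_nonpos.2 h), neg_sub, norm_sub_rev]
    exact curve_tl hn s h

lemma proj_tl {n : ℕ} (hn : 1 ≤ n) (s : Fin n → Fin 3) (a b : ℝ) :
    ‖curve s (Set.projIcc 0 1 zero_le_one a) - curve s (Set.projIcc 0 1 zero_le_one b)‖ ≤ n * |a - b| / size n := by
  have hs := NTSF.size_pos hn
  refine (curve_tl' hn s _ _).trans (div_le_div_of_nonneg_right (mul_le_mul_of_nonneg_left ?_ (Nat.cast_nonneg n)) hs.le)
  exact Set.abs_projIcc_sub_projIcc zero_le_one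

lemma curve_pt {n : ℕ} (hn : 1 ≤ n) (s : Fin n → Fin 3) {k : ℕ} (hk : k ≤ n) : curve s (LT.pt n k) = pos s k / size n := by
  rw [NTSF.curve_eq]
  exact LT.poly_pt hn hk

lemma at_lo {n : ℕ} (hn : 1 ≤ n) (s : Fin n → Fin 3) (j : ℕ) :
    curve s (Set.projIcc 0 1 zero_le_one ((j : ℝ) / n)) = pos s (min j n) / size n := by
  have hn0 : (0 : ℝ) < n := by exact_mod_cast hn
  rcases Nat.le_total j n with h | h
  · rw [min_eq_left h]
    exact curve_pt hn s h
  · rw [min_eq_right h, Set.projIcc_of_right_le _ (by rw [le_div_iff₀ hn0, one_mul]; exact_mod_cast h)]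
    exact NTSF.curve_one s

lemma at_hi {n : ℕ} (hn : 1 ≤ n) (s : Fin n → Fin 3) {j : ℕ} (hj : j ≤ 2 * n) :
    curve s (Set.projIcc 0 1 zero_le_one ((j : ℝ) / n - 1)) = pos s (j - n) / size n := by
  have hn0 : (0 : ℝ) < n := by exact_mod_cast hn
  rcases Nat.le_total j n with h | h
  · have h1 : (j : ℝ) / n - 1 ≤ 0 := by
      rw [sub_nonpos, div_le_one hn0]
      exact_mod_cast h
    rw [Nat.sub_eq_zero_of_le h, Set.projIcc_of_le_left _ h1, NTSF.pos_zero, zero_div]
    exact NTSF.curve_zero s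
  · have h1 : (j : ℝ) / n - 1 = ((j - n : ℕ) : ℝ) / n := by
      rw [Nat.cast_sub h]
      field_simp
    rw [h1]
    exact curve_pt hn s (by omega)

/-! ### the iterated shift -/

/-- the sites of the closed polygon, twice around -/
noncomputable def V {n : ℕ} (s : Fin n → Fin 3) (j : ℕ) : ℂ := if j ≤ n then pos s j else pos s (j - (n + 1))

lemma iter_mem {n : ℕ} (ho : Odd n) {s : Fin n → Fin 3} (hs : s ∈ pol n) (m : ℕ) : sh^[m] s ∈ pol n := by
  induction m with
  | zero => exact hs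
  | succ m ih =>
    rw [Function.iterate_succ_apply']
    exact sh_mem ho ih

lemma iter_inj {n : ℕ} (ho : Odd n) (m : ℕ) : ∀ {s t : Fin n → Fin 3}, s ∈ pol n → t ∈ pol n → sh^[m] s = sh^[m] t → s = t := by
  induction m with
  | zero =>
    intro s t _ _ h
    exact h
  | succ m ih =>
    intro s t hs ht h
    rw [Function.iterate_succ_apply', Function.iterate_succ_apply'] at h
    exact ih hs ht (sh_inj ho (iter_mem ho hs m) (iter_mem ho ht m) h)

lemma pos_iter {n : ℕ} (ho : Odd n) {s : Fin n → Fin 3} (hs : s ∈ pol n) (m : ℕ) (hm : m ≤ n) :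
    ∀ k, k ≤ n → pos (sh^[m] s) k = (-1) ^ m * (V s (m + k) - V s m) := by
  induction m with
  | zero =>
    intro k hk
    have e0 : V s 0 = 0 := by
      unfold V
      rw [if_pos (Nat.zero_le n), NTSF.pos_zero]
    rw [Function.iterate_zero_apply, pow_zero, one_mul, zero_add, e0, sub_zero]
    unfold V
    rw [if_pos hk]
  | succ m ih =>
    intro k hk
    have hn : 1 ≤ n := ho.pos
    have h := ih (by omega)
    rw [Function.iterate_succ_apply']
    rcases Nat.lt_or_ge k n with h1 | h1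
    · rw [pos_sh _ h1, h 1 hn, h (k + 1) h1, show m + (k + 1) = m + 1 + k by ring]
      ring
    · have hk' : k = n := by omega
      subst hk'
      have h2 := (mem_pol.1 (iter_mem ho hs m)).2
      rw [pos_sh_last ho h2, h 1 hn]
      have e1 : V s (m + 1 + k) = V s m := by
        unfold V
        rw [if_neg (by omega), if_pos (show m ≤ k by omega)]
        congr 1
        omega
      rw [e1]
      ring

/-! ### the shifted polygon is the rotated one -/

lemma node {n : ℕ} (ho : Odd n) {s : Fin n → Fin 3} (hs : s ∈ pol n) {m k : ℕ} (hm : m ≤ n) (hk : k ≤ n) :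
    ‖curve (sh^[m] s) (LT.pt n k) - (-1) ^ m * rot ((m : ℝ) / n) (curve s) (LT.pt n k)‖ ≤ 2 / size n := by
  have hn : 1 ≤ n := ho.pos
  have hs0 := NTSF.size_pos hn
  have hn0 : (0 : ℝ) < n := by exact_mod_cast hn
  have e1 : (m : ℝ) / n + (LT.pt n k : ℝ) = ((m + k : ℕ) : ℝ) / n := by
    have h := LT.pt_val hn hk
    rw [Nat.cast_add, ← h]
    field_simp
  rw [curve_pt hn _ hk, pos_iter ho hs m hm k hk, rot_apply, e1, at_lo hn, at_hi hn s (by omega), at_lo hn,
    NTSF.curve_zero, min_eq_left hm, sub_zero]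
  have e2 : V s m = pos s m := by
    unfold V
    rw [if_pos hm]
  have e3 : ∀ x y z w : ℂ, (-1) ^ m * (x - w) / (size n : ℂ) - (-1) ^ m * (y / size n + z / size n - w / size n) =
      (-1) ^ m * (x - y - z) / size n := by
    intro x y z w
    ring
  rw [e2, e3, norm_div, norm_mul, norm_pow, norm_neg, norm_one, one_pow, one_mul, Complex.norm_real,
    Real.norm_of_nonneg hs0.le]
  refine div_le_div_of_nonneg_right ?_ hs0.le
  rcases Nat.lt_or_ge n (m + k) with h | h
  · have e4 : V s (m + k) = pos s (m + k - (n + 1)) := by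
      unfold V
      rw [if_neg (by omega)]
    obtain ⟨i, hi⟩ : ∃ i, i = m + k - (n + 1) := ⟨_, rfl⟩
    have hi' : m + k - n = i + 1 := by omega
    have hi2 : i < n := by omega
    rw [e4, min_eq_right h.le, ← hi, hi', NTSF.pos_succ s i hi2]
    have e5 : pos s i - pos s n - (pos s i + step i (s ⟨i, hi2⟩)) = -(pos s n + step i (s ⟨i, hi2⟩)) := by ring
    rw [e5, norm_neg]
    refine (norm_add_le _ _).trans ?_
    rw [(mem_pol.1 hs).2, norm_step']
    norm_num
  · have e4 : V s (m + k) = pos s (m + k) := by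
      unfold V
      rw [if_pos h]
    rw [e4, min_eq_left h, Nat.sub_eq_zero_of_le h, NTSF.pos_zero, sub_self, sub_zero, norm_zero]
    norm_num

lemma rot_tl {n : ℕ} (hn : 1 ≤ n) (s : Fin n → Fin 3) (u : ℝ) (x y : unitInterval) :
    ‖rot u (curve s) x - rot u (curve s) y‖ ≤ 2 * (n * |(x : ℝ) - y| / size n) := by
  have h1 := proj_tl hn s (u + x) (u + y)
  have h2 := proj_tl hn s (u + x - 1) (u + y - 1)
  rw [show u + (x : ℝ) - (u + y) = x - y by ring] at h1
  rw [show u + (x : ℝ) - 1 - (u + y - 1) = x - y by ring] at h2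
  rw [rot_apply, rot_apply]
  obtain ⟨A, hA⟩ : ∃ A, A = curve s (Set.projIcc 0 1 zero_le_one (u + x)) - curve s (Set.projIcc 0 1 zero_le_one (u + y)) :=
    ⟨_, rfl⟩
  obtain ⟨B, hB⟩ : ∃ B, B = curve s (Set.projIcc 0 1 zero_le_one (u + x - 1)) -
    curve s (Set.projIcc 0 1 zero_le_one (u + y - 1)) := ⟨_, rfl⟩
  rw [← hA] at h1
  rw [← hB] at h2
  have e : curve s (Set.projIcc 0 1 zero_le_one (u + x)) + curve s (Set.projIcc 0 1 zero_le_one (u + x - 1)) -
      curve s (Set.projIcc 0 1 zero_le_one u) - curve s 0 - (curve s (Set.projIcc 0 1 zero_le_one (u + y)) +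
      curve s (Set.projIcc 0 1 zero_le_one (u + y - 1)) - curve s (Set.projIcc 0 1 zero_le_one u) - curve s 0) =
      A + B := by
    rw [hA, hB]
    ring
  rw [e]
  have h3 := norm_add_le A B
  linarith

lemma rot_ul {n : ℕ} (hn : 1 ≤ n) (s : Fin n → Fin 3) (u v : ℝ) (x : unitInterval) :
    ‖rot u (curve s) x - rot v (curve s) x‖ ≤ 3 * (n * |u - v| / size n) := by
  have h1 := proj_tl hn s (u + x) (v + x)
  have h2 := proj_tl hn s (u + x - 1) (v + x - 1)
  have h3 := proj_tl hn s u v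
  rw [show u + (x : ℝ) - (v + x) = u - v by ring] at h1
  rw [show u + (x : ℝ) - 1 - (v + x - 1) = u - v by ring] at h2
  rw [rot_apply, rot_apply]
  obtain ⟨A, hA⟩ : ∃ A, A = curve s (Set.projIcc 0 1 zero_le_one (u + x)) - curve s (Set.projIcc 0 1 zero_le_one (v + x)) :=
    ⟨_, rfl⟩
  obtain ⟨B, hB⟩ : ∃ B, B = curve s (Set.projIcc 0 1 zero_le_one (u + x - 1)) -
    curve s (Set.projIcc 0 1 zero_le_one (v + x - 1)) := ⟨_, rfl⟩
  obtain ⟨D, hD⟩ : ∃ D, D = curve s (Set.projIcc 0 1 zero_le_one u) - curve s (Set.projIcc 0 1 zero_le_one v) := ⟨_, rfl⟩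
  rw [← hA] at h1
  rw [← hB] at h2
  rw [← hD] at h3
  have e : curve s (Set.projIcc 0 1 zero_le_one (u + x)) + curve s (Set.projIcc 0 1 zero_le_one (u + x - 1)) -
      curve s (Set.projIcc 0 1 zero_le_one u) - curve s 0 - (curve s (Set.projIcc 0 1 zero_le_one (v + x)) +
      curve s (Set.projIcc 0 1 zero_le_one (v + x - 1)) - curve s (Set.projIcc 0 1 zero_le_one v) - curve s 0) =
      A + B - D := by
    rw [hA, hB, hD]
    ring
  rw [e]
  have h4 := norm_add_le A B
  have h5 := norm_sub_le (A + B) D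
  linarith

/-- the polygon read from its site `m` on -/
theorem sh_rot {n : ℕ} (ho : Odd n) {s : Fin n → Fin 3} (hs : s ∈ pol n) {m : ℕ} (hm : m ≤ n) (u : ℝ)
    (hu : |u - (m : ℝ) / n| ≤ 1 / n) (t : unitInterval) :
    ‖curve (sh^[m] s) t - (-1) ^ m * rot u (curve s) t‖ ≤ 8 / size n := by
  have hn : 1 ≤ n := ho.pos
  have hs0 := NTSF.size_pos hn
  have hn0 : (0 : ℝ) < n := by exact_mod_cast hn
  obtain ⟨k, hk, h1, h2⟩ := Tight.th2_idx hn t
  have hp := LT.pt_val hn hk.le
  have h3 : |(t : ℝ) - LT.pt n k| * n ≤ 1 := by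
    have h5 : |(t : ℝ) - LT.pt n k| * n = |(t : ℝ) * n - k| := by
      rw [← hp, ← sub_mul, abs_mul, Nat.abs_cast]
    rw [h5, abs_of_nonneg (by linarith)]
    linarith
  have h3' : n * |(t : ℝ) - LT.pt n k| / size n ≤ 1 / size n :=
    div_le_div_of_nonneg_right (by linarith) hs0.le
  have h4 : n * |u - (m : ℝ) / n| / size n ≤ 1 / size n := by
    refine div_le_div_of_nonneg_right ?_ hs0.le
    calc n * |u - (m : ℝ) / n| ≤ n * (1 / n) := mul_le_mul_of_nonneg_left hu hn0.le
      _ = 1 := by field_simp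
  have n1 := curve_tl' hn (sh^[m] s) (LT.pt n k) t
  have n2 := node ho hs hm hk.le
  have n3 := rot_tl hn s ((m : ℝ) / n) t (LT.pt n k)
  have n4 := rot_ul hn s u ((m : ℝ) / n) t
  have hc : ∀ z : ℂ, ‖(-1) ^ m * z‖ = ‖z‖ := fun z => by
    rw [norm_mul, norm_pow, norm_neg, norm_one, one_pow, one_mul]
  have e : curve (sh^[m] s) t - (-1) ^ m * rot u (curve s) t =
      (curve (sh^[m] s) t - curve (sh^[m] s) (LT.pt n k)) +
      (curve (sh^[m] s) (LT.pt n k) - (-1) ^ m * rot ((m : ℝ) / n) (curve s) (LT.pt n k)) -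
      (-1) ^ m * (rot ((m : ℝ) / n) (curve s) t - rot ((m : ℝ) / n) (curve s) (LT.pt n k)) -
      (-1) ^ m * (rot u (curve s) t - rot ((m : ℝ) / n) (curve s) t) := by ring
  rw [e]
  refine (norm_sub_le _ _).trans ?_
  rw [hc]
  have h5 := norm_sub_le ((curve (sh^[m] s) t - curve (sh^[m] s) (LT.pt n k)) +
      (curve (sh^[m] s) (LT.pt n k) - (-1) ^ m * rot ((m : ℝ) / n) (curve s) (LT.pt n k)))
      ((-1) ^ m * (rot ((m : ℝ) / n) (curve s) t - rot ((m : ℝ) / n) (curve s) (LT.pt n k)))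
  rw [hc] at h5
  have h6 := norm_add_le (curve (sh^[m] s) t - curve (sh^[m] s) (LT.pt n k))
      (curve (sh^[m] s) (LT.pt n k) - (-1) ^ m * rot ((m : ℝ) / n) (curve s) (LT.pt n k))
  have h7 : 8 / size n = 1 / size n + 2 / size n + 2 * (1 / size n) + 3 * (1 / size n) := by ring
  rw [h7]
  linarith

lemma sum_iter {n : ℕ} (ho : Odd n) (m : ℕ) (G : C(unitInterval, ℂ) → ℝ) :
    ∑ s ∈ pol n, G (curve (sh^[m] s)) = ∑ s ∈ pol n, G (curve s) := by
  have himg : (pol n).image (sh^[m]) = pol n := by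
    refine Finset.eq_of_subset_of_card_le (fun s hs => ?_) ?_
    · obtain ⟨t, ht, rfl⟩ := Finset.mem_image.1 hs
      exact iter_mem ho ht m
    · rw [Finset.card_image_of_injOn fun s hs t ht h => iter_inj ho m hs ht h]
  have h1 : ∑ s ∈ (pol n).image (sh^[m]), G (curve s) = ∑ s ∈ pol n, G (curve (sh^[m] s)) :=
    Finset.sum_image fun s hs t ht h => iter_inj ho m hs ht h
  rw [← h1, himg]

lemma pmean_close {n : ℕ} {A B : (Fin n → Fin 3) → ℝ} {c : ℝ} (hc : 0 ≤ c) (h : ∀ s ∈ pol n, |A s - B s| ≤ c) :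
    |(∑ s ∈ pol n, A s) / ((pol n).card : ℝ) - (∑ s ∈ pol n, B s) / ((pol n).card : ℝ)| ≤ c := by
  rw [← sub_div, ← Finset.sum_sub_distrib, abs_div, Nat.abs_cast]
  rcases Nat.eq_zero_or_pos (pol n).card with h0 | h0
  · rw [h0, Nat.cast_zero, div_zero]
    exact hc
  · rw [div_le_iff₀ (by exact_mod_cast h0)]
    refine (Finset.abs_sum_le_sum_abs _ _).trans ((Finset.sum_le_sum h).trans ?_)
    rw [Finset.sum_const, nsmul_eq_mul, mul_comm]

end LimO

open LimR LimO

/-- the polygons are invariant under the change of the starting time, with the constant -/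
theorem pol_rot' {n : ℕ} {u : ℝ} (hn : 3 ≤ n) (ho : Odd n) (hu0 : 0 ≤ u) (hu1 : u ≤ 1) {F : C(unitInterval, ℂ) → ℝ}
    (hF : LipschitzWith 1 F) : |pmean n (fun γ => F (rot u γ)) - pmean n F| ≤ 12 / size n := by
  have hn1 : 1 ≤ n := by omega
  have hs0 := NTSF.size_pos hn1
  have hn0 : (0 : ℝ) < n := by exact_mod_cast hn1
  obtain ⟨m, hm⟩ : ∃ m : ℕ, m = ⌊u * n⌋₊ := ⟨_, rfl⟩
  have hun : 0 ≤ u * n := mul_nonneg hu0 hn0.le
  have h1 : (m : ℝ) ≤ u * n := by
    rw [hm]
    exact Nat.floor_le hun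
  have h2 : u * n ≤ m + 1 := by
    rw [hm]
    exact (Nat.lt_floor_add_one _).le
  have hmn : m ≤ n := by
    have h3 : (m : ℝ) ≤ n := h1.trans ((mul_le_mul_of_nonneg_right hu1 hn0.le).trans (by rw [one_mul]))
    exact_mod_cast h3
  have hu : |u - (m : ℝ) / n| ≤ 1 / n := by
    have e : u - (m : ℝ) / n = (u * n - m) / n := by field_simp
    rw [e, abs_div, abs_of_pos hn0, abs_of_nonneg (by linarith)]
    exact div_le_div_of_nonneg_right (by linarith) hn0.le
  have key : ∀ s ∈ pol n, ∀ t : unitInterval, ‖curve (sh^[m] s) t - (-1) ^ m * rot u (curve s) t‖ ≤ 8 / size n :=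
    fun s hs t => sh_rot ho hs hmn u hu t
  rcases Nat.even_or_odd m with hev | hod
  · have h3 : ∀ s ∈ pol n, |F (rot u (curve s)) - F (curve (sh^[m] s))| ≤ 8 / size n := by
      intro s hs
      have h4 := hF.dist_le_mul (rot u (curve s)) (curve (sh^[m] s))
      rw [Real.dist_eq, NNReal.coe_one, one_mul] at h4
      refine h4.trans ((ContinuousMap.dist_le (by positivity)).2 fun t => ?_)
      have h5 := key s hs t
      rw [hev.neg_one_pow, one_mul] at h5
      rw [dist_comm, dist_eq_norm]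
      exact h5
    have h6 := pmean_close (by positivity) h3
    rw [sum_iter ho m F] at h6
    exact h6.trans (div_le_div_of_nonneg_right (by norm_num) hs0.le)
  · have h3 : ∀ s ∈ pol n, |F (rot u (curve s)) - F (-curve (sh^[m] s))| ≤ 8 / size n := by
      intro s hs
      have h4 := hF.dist_le_mul (rot u (curve s)) (-curve (sh^[m] s))
      rw [Real.dist_eq, NNReal.coe_one, one_mul] at h4
      refine h4.trans ((ContinuousMap.dist_le (by positivity)).2 fun t => ?_)
      have h5 := key s hs t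
      rw [hod.neg_one_pow, neg_one_mul, sub_neg_eq_add] at h5
      rw [dist_eq_norm]
      show ‖rot u (curve s) t - -(curve (sh^[m] s) t)‖ ≤ _
      rw [sub_neg_eq_add, add_comm]
      exact h5
    have h6 := pmean_close (by positivity) h3
    rw [sum_iter ho m fun γ => F (-γ)] at h6
    have h7 := pol_sym hn ho hF
    have h8 : |pmean n (fun γ => F (rot u γ)) - pmean n (fun γ => F (-γ))| ≤ 8 / size n := h6
    have h9 : |pmean n (fun γ => F (rot u γ)) - pmean n F| ≤
        |pmean n (fun γ => F (rot u γ)) - pmean n (fun γ => F (-γ))| + |pmean n F - pmean n (fun γ => F (-γ))| := by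
      rw [abs_sub_comm (pmean n F)]
      exact abs_sub_le _ _ _
    have h10 : 12 / size n = 8 / size n + 4 / size n := by ring
    rw [h10]
    linarith

/-- **the polygons are invariant under the change of the starting time** -/
theorem pol_rot : ∃ C : ℝ, ∀ (n : ℕ) (u : ℝ), 3 ≤ n → Odd n → 0 ≤ u → u ≤ 1 → ∀ F : C(unitInterval, ℂ) → ℝ,
    LipschitzWith 1 F → |pmean n (fun γ => F (rot u γ)) - pmean n F| ≤ C / size n :=
  ⟨12, fun _ _ hn ho hu0 hu1 _ hF => pol_rot' hn ho hu0 hu1 hF⟩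

end Pool.Agent.PMA
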