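import Pool.Agent.PMA.LimO

/-!
# (PM), the limit form: the scaling limits of the polygons (helper65)

For a probability measure `π` which is a limit of the laws of the polygons along odd numbers:

* **`pi_neg`** : `π` is invariant under `γ ↦ - γ`; **`pi_rot`** : under the change of the starting time;
* **`pi_simple`** : `π` is supported on simple loops (`hD`: the near double points of the polygons, `pol_dp`).
-/

set_option autoImplicit false

open MeasureTheory Filter Topology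

open scoped Classical

namespace Pool.Agent.PMA

open Res Pool.Agent.NTS.Res

namespace LimS

open NTSF (size_pos)

/-- weak convergence from the functions with `|F| ≤ 1` and the Lipschitz constant `1` -/
lemma weak_lip {P : ℕ → ProbabilityMeasure C(unitInterval, ℂ)} {ν : ProbabilityMeasure C(unitInterval, ℂ)}
    (h : ∀ F : C(unitInterval, ℂ) → ℝ, (∀ γ, |F γ| ≤ 1) → LipschitzWith 1 F →
      Tendsto (fun k => ∫ γ, F γ ∂(P k : Measure C(unitInterval, ℂ))) atTop (𝓝 (∫ γ, F γ ∂(ν : Measure C(unitInterval, ℂ))))) :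
    Tendsto P atTop (𝓝 ν) := by
  rw [tendsto_iff_forall_lipschitz_integral_tendsto]
  rintro f ⟨B, hB⟩ ⟨L, hL⟩
  obtain ⟨M, hM⟩ : ∃ M : ℝ, M = |f 0| + |B| + L + 1 := ⟨_, rfl⟩
  have hL0 : (0 : ℝ) ≤ L := L.2
  have hM0 : 0 < M := by
    rw [hM]
    positivity
  have hg1 : ∀ γ, |M⁻¹ * f γ| ≤ 1 := by
    intro γ
    rw [abs_mul, abs_of_pos (inv_pos.2 hM0), inv_mul_le_iff₀ hM0, mul_one]
    have h1 := hB γ 0
    rw [Real.dist_eq] at h1
    have h2 : |f γ| ≤ |f γ - f 0| + |f 0| := by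
      have := abs_add_le (f γ - f 0) (f 0)
      rwa [sub_add_cancel] at this
    have h3 := le_abs_self B
    rw [hM]
    linarith
  have hg2 : LipschitzWith 1 fun γ => M⁻¹ * f γ := by
    refine LipschitzWith.of_dist_le_mul fun γ γ' => ?_
    rw [Real.dist_eq, ← mul_sub, abs_mul, abs_of_pos (inv_pos.2 hM0), inv_mul_le_iff₀ hM0, NNReal.coe_one, one_mul]
    have h1 := hL.dist_le_mul γ γ'
    rw [Real.dist_eq] at h1
    refine h1.trans (mul_le_mul_of_nonneg_right ?_ dist_nonneg)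
    rw [hM]
    have := abs_nonneg (f 0)
    have := abs_nonneg B
    linarith
  have h1 := (h _ hg1 hg2).const_mul M
  have h2 : ∀ κ : Measure C(unitInterval, ℂ), M * ∫ γ, M⁻¹ * f γ ∂κ = ∫ γ, f γ ∂κ := by
    intro κ
    rw [integral_const_mul, ← mul_assoc, mul_inv_cancel₀ hM0.ne', one_mul]
  simp only [h2] at h1
  exact h1

lemma eq_lip {π ν : Measure C(unitInterval, ℂ)} (h1 : IsProbabilityMeasure π) (h2 : IsProbabilityMeasure ν)
    (h : ∀ F : C(unitInterval, ℂ) → ℝ, (∀ γ, |F γ| ≤ 1) → LipschitzWith 1 F → ∫ γ, F γ ∂π = ∫ γ, F γ ∂ν) : π = ν := by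
  obtain ⟨P, hP⟩ : ∃ P : ProbabilityMeasure C(unitInterval, ℂ), P = ⟨π, h1⟩ := ⟨_, rfl⟩
  obtain ⟨N, hN⟩ : ∃ N : ProbabilityMeasure C(unitInterval, ℂ), N = ⟨ν, h2⟩ := ⟨_, rfl⟩
  have h3 : Tendsto (fun _ : ℕ => P) atTop (𝓝 N) := weak_lip fun F hF hL => by
    rw [hP, hN]
    show Tendsto (fun _ : ℕ => ∫ γ, F γ ∂π) atTop (𝓝 (∫ γ, F γ ∂ν))
    rw [h F hF hL]
    exact tendsto_const_nhds
  have h4 := tendsto_nhds_unique (tendsto_const_nhds (x := P) (f := (atTop : Filter ℕ))) h3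
  rw [hP, hN] at h4
  exact congrArg (fun Q : ProbabilityMeasure C(unitInterval, ℂ) => (Q : Measure C(unitInterval, ℂ))) h4

lemma size_lg {φ : ℕ → ℕ} (hφ : Tendsto φ atTop atTop) : Tendsto (fun i => size (φ i)) atTop atTop := by
  obtain ⟨c0, C0, hc0, hsz⟩ := (NTSF.Mg.oneFacts NTSF.finE).sz
  have h1 : Tendsto (fun i => c0 * ((φ i : ℕ) : ℝ) ^ (3 / 4 : ℝ)) atTop atTop :=
    ((tendsto_rpow_atTop (by norm_num : (0 : ℝ) < 3 / 4)).comp (tendsto_natCast_atTop_atTop.comp hφ)).const_mul_atTop hc0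
  refine tendsto_atTop_mono' _ ?_ h1
  filter_upwards [hφ.eventually_ge_atTop 1] with i hi
  exact (hsz _ hi).1

variable {π : Measure C(unitInterval, ℂ)} {φ : ℕ → ℕ}

lemma pmean_mul (n : ℕ) (c : ℝ) (F : C(unitInterval, ℂ) → ℝ) : pmean n (fun γ => c * F γ) = c * pmean n F := by
  unfold pmean
  rw [← Finset.mul_sum, mul_div_assoc]

/-- a Lipschitz map which changes the means of the polygons by `O(1 / size n)` preserves the limit -/
lemma pi_inv (hπ : IsProbabilityMeasure π) (hφ : Tendsto φ atTop atTop) (ho : ∀ k, Odd (φ k))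
    (h : ∀ F : C(unitInterval, ℂ) → ℝ, (∀ γ, |F γ| ≤ 1) → LipschitzWith 1 F →
      Tendsto (fun k => pmean (φ k) F) atTop (𝓝 (∫ γ, F γ ∂π)))
    {T : C(unitInterval, ℂ) → C(unitInterval, ℂ)} {c : NNReal} (hT : LipschitzWith c T) (hc : 1 ≤ c) {C : ℝ}
    (hd : ∀ F : C(unitInterval, ℂ) → ℝ, LipschitzWith 1 F → ∀ n : ℕ, 3 ≤ n → Odd n →
      |pmean n (fun γ => F (T γ)) - pmean n F| ≤ C / size n) : π.map T = π := by
  have hTm : Measurable T := hT.continuous.measurable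
  have hpm : IsProbabilityMeasure (π.map T) := Measure.isProbabilityMeasure_map hTm.aemeasurable
  refine eq_lip hpm hπ fun F hF hL => ?_
  rw [integral_map hTm.aemeasurable hL.continuous.measurable.aestronglyMeasurable]
  have hc0 : (0 : ℝ) < c := lt_of_lt_of_le one_pos (by exact_mod_cast hc)
  have hc1 : (1 : ℝ) ≤ c := by exact_mod_cast hc
  have g1 : ∀ γ, |(c : ℝ)⁻¹ * F (T γ)| ≤ 1 := fun γ => by
    rw [abs_mul, abs_of_pos (inv_pos.2 hc0), inv_mul_le_iff₀ hc0, mul_one]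
    exact (hF _).trans hc1
  have g2 : LipschitzWith 1 fun γ => (c : ℝ)⁻¹ * F (T γ) := by
    refine LipschitzWith.of_dist_le_mul fun γ γ' => ?_
    rw [Real.dist_eq, ← mul_sub, abs_mul, abs_of_pos (inv_pos.2 hc0), inv_mul_le_iff₀ hc0, NNReal.coe_one, one_mul]
    have h1 := hL.dist_le_mul (T γ) (T γ')
    rw [Real.dist_eq, NNReal.coe_one, one_mul] at h1
    exact h1.trans (hT.dist_le_mul γ γ')
  have h2 := (h _ g1 g2).const_mul (c : ℝ)
  have e1 : (c : ℝ) * ∫ γ, (c : ℝ)⁻¹ * F (T γ) ∂π = ∫ γ, F (T γ) ∂π := by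
    rw [integral_const_mul, ← mul_assoc, mul_inv_cancel₀ hc0.ne', one_mul]
  have e2 : ∀ n : ℕ, (c : ℝ) * pmean n (fun γ => (c : ℝ)⁻¹ * F (T γ)) = pmean n fun γ => F (T γ) := fun n => by
    rw [pmean_mul, ← mul_assoc, mul_inv_cancel₀ hc0.ne', one_mul]
  rw [e1] at h2
  simp only [e2] at h2
  have h3 : Tendsto (fun k => pmean (φ k) (fun γ => F (T γ)) - pmean (φ k) F) atTop (𝓝 0) := by
    refine squeeze_zero_norm' ?_ ((size_lg hφ).const_div_atTop C)
    filter_upwards [hφ.eventually_ge_atTop 3] with k hk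
    rw [Real.norm_eq_abs]
    exact hd F hL _ hk (ho k)
  have h4 := h3.add (h F hF hL)
  simp only [sub_add_cancel, zero_add] at h4
  exact tendsto_nhds_unique h2 h4

end LimS

open LimS

variable {π : Measure C(unitInterval, ℂ)} {φ : ℕ → ℕ}

/-- **the limit of the polygons is symmetric** -/
theorem pi_neg (hπ : IsProbabilityMeasure π) (hφ : Tendsto φ atTop atTop) (ho : ∀ k, Odd (φ k))
    (h : ∀ F : C(unitInterval, ℂ) → ℝ, (∀ γ, |F γ| ≤ 1) → LipschitzWith 1 F →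
      Tendsto (fun k => pmean (φ k) F) atTop (𝓝 (∫ γ, F γ ∂π))) : π.map (fun γ => -γ) = π := by
  refine pi_inv hπ hφ ho h (T := fun γ => -γ) (c := 1) ?_ le_rfl (C := 4) fun F hF n hn h1 => ?_
  · refine LipschitzWith.of_dist_le_mul fun x y => ?_
    rw [dist_neg_neg, NNReal.coe_one, one_mul]
  · rw [abs_sub_comm]
    exact pol_sym hn h1 hF

/-- **the limit of the polygons is invariant under the change of the starting time** -/
theorem pi_rot (hπ : IsProbabilityMeasure π) (hφ : Tendsto φ atTop atTop) (ho : ∀ k, Odd (φ k))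
    (h : ∀ F : C(unitInterval, ℂ) → ℝ, (∀ γ, |F γ| ≤ 1) → LipschitzWith 1 F →
      Tendsto (fun k => pmean (φ k) F) atTop (𝓝 (∫ γ, F γ ∂π))) (u : ℝ) (h0 : 0 ≤ u) (h1 : u ≤ 1) :
    π.map (rot u) = π :=
  pi_inv hπ hφ ho h (rot_lip u) (by norm_num) (C := 12) fun _ hF _ hn ho' => pol_rot' hn ho' h0 h1 hF

namespace LimS

/-- the near double points -/
def Nd (τ κ δ : ℝ) : Set C(unitInterval, ℂ) :=
  {γ : C(unitInterval, ℂ) | ∃ p q : unitInterval, τ ≤ p ∧ (p : ℝ) + κ ≤ q ∧ (q : ℝ) ≤ 1 - τ ∧ dist (γ q) (γ p) < δ}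

lemma nd_open (τ κ δ : ℝ) : IsOpen (Nd τ κ δ) := by
  have e : Nd τ κ δ = ⋃ p : unitInterval, ⋃ q : unitInterval, ⋃ (_ : τ ≤ (p : ℝ) ∧ (p : ℝ) + κ ≤ q ∧ (q : ℝ) ≤ 1 - τ),
      {γ : C(unitInterval, ℂ) | dist (γ q) (γ p) < δ} := by
    ext γ
    simp only [Set.mem_iUnion, Set.mem_ofPred_eq, Nd]
    constructor
    · rintro ⟨p, q, h1, h2, h3, h4⟩
      exact ⟨p, q, ⟨h1, h2, h3⟩, h4⟩
    · rintro ⟨p, q, ⟨h1, h2, h3⟩, h4⟩
      exact ⟨p, q, h1, h2, h3, h4⟩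
  rw [e]
  refine isOpen_iUnion fun p => isOpen_iUnion fun q => isOpen_iUnion fun _ => ?_
  exact isOpen_lt ((continuous_eval_const q).dist (continuous_eval_const p)) continuous_const

/-- the limit has few near double points -/
lemma nd_pi (hπ : IsProbabilityMeasure π) (hφ : Tendsto φ atTop atTop) (ho : ∀ k, Odd (φ k))
    (h : ∀ F : C(unitInterval, ℂ) → ℝ, (∀ γ, |F γ| ≤ 1) → LipschitzWith 1 F →
      Tendsto (fun k => pmean (φ k) F) atTop (𝓝 (∫ γ, F γ ∂π)))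
    {τ κ δ ε : ℝ} {n0 : ℕ} (hn : ∀ n : ℕ, n0 ≤ n → Odd n → plaw n (Nd τ κ δ) ≤ ENNReal.ofReal ε) :
    π (Nd τ κ δ) ≤ ENNReal.ofReal ε := by
  obtain ⟨n1, hpr⟩ := plaw_prob
  obtain ⟨N, hN⟩ := (hφ.eventually_ge_atTop (max n0 n1)).exists_forall_of_atTop
  have hadd : Tendsto (fun k : ℕ => k + N) atTop atTop := tendsto_add_atTop_nat N
  have hN' : ∀ k, n0 ≤ φ (k + N) ∧ n1 ≤ φ (k + N) := fun k => by
    have := hN (k + N) (Nat.le_add_left _ _)
    exact ⟨(le_max_left _ _).trans this, (le_max_right _ _).trans this⟩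
  obtain ⟨P, hP⟩ : ∃ P : ℕ → ProbabilityMeasure C(unitInterval, ℂ), ∀ k, (P k : Measure C(unitInterval, ℂ)) = plaw (φ (k + N)) :=
    ⟨fun k => ⟨plaw (φ (k + N)), hpr _ (hN' k).2 (ho _)⟩, fun _ => rfl⟩
  have hw : Tendsto P atTop (𝓝 (⟨π, hπ⟩ : ProbabilityMeasure C(unitInterval, ℂ))) := weak_lip fun F hF hL => by
    have h1 := (h F hF hL).comp hadd
    refine h1.congr fun k => ?_
    rw [hP, plaw_int']
    rfl
  have h2 := ProbabilityMeasure.le_liminf_measure_open_of_tendsto hw (nd_open τ κ δ)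
  refine h2.trans ?_
  refine liminf_le_of_frequently_le' (Eventually.frequently (Eventually.of_forall fun k => ?_))
  rw [hP]
  exact hn _ (hN' k).1 (ho _)

/-- no double points at inner times -/
lemma inner (hπ : IsProbabilityMeasure π) (hφ : Tendsto φ atTop atTop) (ho : ∀ k, Odd (φ k))
    (h : ∀ F : C(unitInterval, ℂ) → ℝ, (∀ γ, |F γ| ≤ 1) → LipschitzWith 1 F →
      Tendsto (fun k => pmean (φ k) F) atTop (𝓝 (∫ γ, F γ ∂π)))
    (hD : ∀ ε τ κ : ℝ, 0 < ε → 0 < τ → 0 < κ → ∃ δ : ℝ, 0 < δ ∧ ∃ n0 : ℕ, ∀ n : ℕ, n0 ≤ n → Odd n →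
      plaw n {γ : C(unitInterval, ℂ) | ∃ p q : unitInterval, τ ≤ p ∧ (p : ℝ) + κ ≤ q ∧ (q : ℝ) ≤ 1 - τ ∧
        dist (γ q) (γ p) < δ} ≤ ENNReal.ofReal ε) :
    ∀ᵐ γ ∂π, ∀ p q : unitInterval, 0 < (p : ℝ) → (p : ℝ) < q → (q : ℝ) < 1 → γ p ≠ γ q := by
  have h1 : ∀ m : ℕ, ∀ᵐ γ ∂π, ∀ p q : unitInterval, 1 / ((m : ℝ) + 1) ≤ p → (p : ℝ) + 1 / ((m : ℝ) + 1) ≤ q →
      (q : ℝ) ≤ 1 - 1 / ((m : ℝ) + 1) → γ p ≠ γ q := by
    intro m
    have hm : (0 : ℝ) < 1 / ((m : ℝ) + 1) := by positivity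
    rw [ae_iff]
    refine le_antisymm (ENNReal.le_of_forall_pos_le_add fun ε hε _ => ?_) zero_le
    obtain ⟨δ, hδ, n0, hn⟩ := hD ε _ _ (by exact_mod_cast hε) hm hm
    have h2 := nd_pi hπ hφ ho h hn
    rw [zero_add]
    refine (measure_mono ?_).trans (h2.trans (le_of_eq ENNReal.ofReal_coe_nnreal))
    intro γ hγ
    simp only [Set.mem_ofPred_eq] at hγ
    push Not at hγ
    obtain ⟨p, q, a1, a2, a3, a4⟩ := hγ
    exact ⟨p, q, a1, a2, a3, by rw [a4, dist_self]; exact hδ⟩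
  filter_upwards [ae_all_iff.2 h1] with γ hγ p q hp hpq hq
  obtain ⟨m, hm⟩ := exists_nat_one_div_lt (lt_min hp (lt_min (sub_pos.2 hpq) (sub_pos.2 hq)))
  have a1 := hm.le.trans (min_le_left _ _)
  have a2 := hm.le.trans ((min_le_right _ _).trans (min_le_left _ _))
  have a3 := hm.le.trans ((min_le_right _ _).trans (min_le_right _ _))
  exact hγ m p q a1 (by linarith) (by linarith)

lemma rot_val {γ : C(unitInterval, ℂ)} (h0 : γ 0 = 0) (h1 : γ 1 = 0) {u : ℝ} (hu0 : 0 < u) (hu1 : u < 1)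
    {p : unitInterval} (hp : (p : ℝ) ≠ u) : ∃ t : unitInterval, 0 < (t : ℝ) ∧ (t : ℝ) < 1 ∧
      rot u γ t = γ p - γ (Set.projIcc 0 1 zero_le_one u) ∧ ((t : ℝ) = p - u ∨ (t : ℝ) = p - u + 1) := by
  have p0 := p.2.1
  have p1 := p.2.2
  rcases lt_or_gt_of_ne hp with h | h
  · refine ⟨⟨p - u + 1, by constructor <;> linarith⟩, ?_, ?_, ?_, Or.inr rfl⟩
    · show (0 : ℝ) < p - u + 1
      linarith
    · show (p : ℝ) - u + 1 < 1
      linarith
    · rw [rot_apply]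
      show γ (Set.projIcc 0 1 zero_le_one (u + (p - u + 1))) + γ (Set.projIcc 0 1 zero_le_one (u + (p - u + 1) - 1)) - _ - _ = _
      have e1 : u + ((p : ℝ) - u + 1) = p + 1 := by ring
      have e2 : (p : ℝ) + 1 - 1 = p := by ring
      rw [e1, e2, Set.projIcc_of_right_le _ (show (1 : ℝ) ≤ p + 1 by linarith), Set.projIcc_val]
      have e3 : γ (⟨1, Set.right_mem_Icc.2 zero_le_one⟩ : unitInterval) = 0 := h1
      rw [e3, h0, zero_add, sub_zero]
  · refine ⟨⟨p - u, by constructor <;> linarith⟩, ?_, ?_, ?_, Or.inl rfl⟩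
    · show (0 : ℝ) < p - u
      linarith
    · show (p : ℝ) - u < 1
      linarith
    · rw [rot_apply]
      show γ (Set.projIcc 0 1 zero_le_one (u + (p - u))) + γ (Set.projIcc 0 1 zero_le_one (u + (p - u) - 1)) - _ - _ = _
      have e1 : u + ((p : ℝ) - u) = p := by ring
      rw [e1, Set.projIcc_of_le_left _ (show (p : ℝ) - 1 ≤ 0 by linarith), Set.projIcc_val]
      have e3 : γ (⟨0, Set.left_mem_Icc.2 zero_le_one⟩ : unitInterval) = 0 := h0
      rw [e3, h0, add_zero, sub_zero]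

end LimS

/-- **the limit of the polygons is supported on simple loops** -/
theorem pi_simple (hπ : IsProbabilityMeasure π) (hφ : Tendsto φ atTop atTop) (ho : ∀ k, Odd (φ k))
    (h : ∀ F : C(unitInterval, ℂ) → ℝ, (∀ γ, |F γ| ≤ 1) → LipschitzWith 1 F →
      Tendsto (fun k => pmean (φ k) F) atTop (𝓝 (∫ γ, F γ ∂π)))
    (hl : ∀ᵐ γ ∂π, γ 0 = 0 ∧ γ 1 = 0)
    (hD : ∀ ε τ κ : ℝ, 0 < ε → 0 < τ → 0 < κ → ∃ δ : ℝ, 0 < δ ∧ ∃ n0 : ℕ, ∀ n : ℕ, n0 ≤ n → Odd n →
      plaw n {γ : C(unitInterval, ℂ) | ∃ p q : unitInterval, τ ≤ p ∧ (p : ℝ) + κ ≤ q ∧ (q : ℝ) ≤ 1 - τ ∧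
        dist (γ q) (γ p) < δ} ≤ ENNReal.ofReal ε) :
    ∀ᵐ γ ∂π, ∀ p q : unitInterval, γ p = γ q → p = q ∨ (p = 0 ∧ q = 1) ∨ (p = 1 ∧ q = 0) := by
  have hin := inner hπ hφ ho h hD
  have hr : ∀ u : ℝ, 0 ≤ u → u ≤ 1 → ∀ᵐ γ ∂π, ∀ p q : unitInterval, 0 < (p : ℝ) → (p : ℝ) < q → (q : ℝ) < 1 →
      rot u γ p ≠ rot u γ q := by
    intro u h0 h1
    have h2 := pi_rot hπ hφ ho h u h0 h1
    have h3 : ∀ᵐ γ ∂(π.map (rot u)), ∀ p q : unitInterval, 0 < (p : ℝ) → (p : ℝ) < q → (q : ℝ) < 1 → γ p ≠ γ q := by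
      rw [h2]
      exact hin
    exact ae_of_ae_map (rot_lip u).continuous.measurable.aemeasurable h3
  filter_upwards [hl, hr (1 / 4) (by norm_num) (by norm_num), hr (1 / 2) (by norm_num) (by norm_num),
    hr (3 / 4) (by norm_num) (by norm_num)] with γ hγ h1 h2 h3 p q hpq
  obtain ⟨g0, g1⟩ := hγ
  by_contra hne
  push Not at hne
  obtain ⟨n1, n2, n3⟩ := hne
  -- one starting time at which both points are inner
  have key : ∀ u : ℝ, 0 < u → u < 1 → (p : ℝ) ≠ u → (q : ℝ) ≠ u →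
      (∀ p q : unitInterval, 0 < (p : ℝ) → (p : ℝ) < q → (q : ℝ) < 1 → rot u γ p ≠ rot u γ q) → False := by
    intro u u0 u1 hp hq hu
    obtain ⟨s, s0, s1, s2, s3⟩ := rot_val g0 g1 u0 u1 hp
    obtain ⟨t, t0, t1, t2, t3⟩ := rot_val g0 g1 u0 u1 hq
    have hst : rot u γ s = rot u γ t := by rw [s2, t2, hpq]
    rcases lt_trichotomy (s : ℝ) t with h4 | h4 | h4
    · exact hu s t s0 h4 t1 hst
    · have p0 := p.2.1
      have p1 := p.2.2
      have q0 := q.2.1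
      have q1 := q.2.2
      have c1 : (p : ℝ) = q → False := fun e => n1 (Subtype.ext e)
      have c2 : (p : ℝ) - q = 1 → False := fun e => by
        have e1 : (p : ℝ) = 1 := by linarith
        have e2 : (q : ℝ) = 0 := by linarith
        exact n3 (Subtype.ext e1) (Subtype.ext e2)
      have c3 : (q : ℝ) - p = 1 → False := fun e => by
        have e1 : (q : ℝ) = 1 := by linarith
        have e2 : (p : ℝ) = 0 := by linarith
        exact n2 (Subtype.ext e2) (Subtype.ext e1)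
      rcases s3 with s3 | s3 <;> rcases t3 with t3 | t3
      · exact c1 (by linarith)
      · exact c2 (by linarith)
      · exact c3 (by linarith)
      · exact c1 (by linarith)
    · exact hu t s t0 h4 s1 hst.symm
  rcases eq_or_ne (p : ℝ) (1 / 4) with a | a
  · rcases eq_or_ne (q : ℝ) (1 / 2) with b | b
    · exact key (3 / 4) (by norm_num) (by norm_num) (by rw [a]; norm_num) (by rw [b]; norm_num) h3
    · exact key (1 / 2) (by norm_num) (by norm_num) (by rw [a]; norm_num) b h2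
  · rcases eq_or_ne (q : ℝ) (1 / 4) with b | b
    · rcases eq_or_ne (p : ℝ) (1 / 2) with c | c
      · exact key (3 / 4) (by norm_num) (by norm_num) (by rw [c]; norm_num) (by rw [b]; norm_num) h3
      · exact key (1 / 2) (by norm_num) (by norm_num) c (by rw [b]; norm_num) h2
    · exact key (1 / 4) (by norm_num) (by norm_num) a b h1

end Pool.Agent.PMA
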