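import Pool.Agent.PMA.PubDefs

/-!
# The limit form of (PM), part 1 (helper41): the average over the radii between `a` and `b`

`chi a b t`: one up to `a`, zero from `b` on; `chi_int`: the average of `1[t ≤ x]`; `trap`; **`trap_n`**: (PM) for the smooth
cutoff.
-/

set_option autoImplicit false

open MeasureTheory Filter Topology Finset

open scoped Classical

namespace Pool.Agent.PMA

open Res Pool.Agent.NTS.Res

/-- the cutoff: one up to `a`, zero from `b` on -/
noncomputable def chi (a b t : ℝ) : ℝ := max 0 (min 1 ((b - t) / (b - a)))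

lemma chi_nonneg (a b t : ℝ) : 0 ≤ chi a b t := le_max_left _ _

lemma chi_le (a b t : ℝ) : chi a b t ≤ 1 := max_le zero_le_one (min_le_left _ _)

lemma chi_one {a b t : ℝ} (hab : a < b) (h : t ≤ a) : chi a b t = 1 := by
  have h1 : 1 ≤ (b - t) / (b - a) := by
    rw [le_div_iff₀ (by linarith)]
    linarith
  unfold chi
  rw [min_eq_left h1, max_eq_right zero_le_one]

lemma chi_zero {a b t : ℝ} (hab : a < b) (h : b ≤ t) : chi a b t = 0 := by
  have h1 : (b - t) / (b - a) ≤ 0 := div_nonpos_of_nonpos_of_nonneg (by linarith) (by linarith)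
  unfold chi
  rw [min_eq_right (by linarith), max_eq_left h1]

lemma chi_mid {a b t : ℝ} (hab : a < b) (h1 : a ≤ t) (h2 : t ≤ b) : chi a b t = (b - t) / (b - a) := by
  have h3 : 0 ≤ (b - t) / (b - a) := div_nonneg (by linarith) (by linarith)
  have h4 : (b - t) / (b - a) ≤ 1 := by
    rw [div_le_one (by linarith)]
    linarith
  unfold chi
  rw [min_eq_right h4, max_eq_right h3]

lemma chi_cont (a b : ℝ) : Continuous (chi a b) := by
  unfold chi
  fun_prop

/-- **the average over the radii** -/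
lemma chi_int {a b : ℝ} (hab : a < b) (t c : ℝ) : ∫ x in Set.Ioc a b, (if t ≤ x then c else 0) = (b - a) * (c * chi a b t) := by
  have e1 : (fun x : ℝ => if t ≤ x then c else 0) = (Set.Ici t).indicator fun _ => c := by
    funext x
    rw [Set.indicator_apply]
    rfl
  rw [e1, setIntegral_indicator measurableSet_Ici, setIntegral_const, smul_eq_mul]
  rcases le_or_gt t a with h | h
  · have e2 : Set.Ioc a b ∩ Set.Ici t = Set.Ioc a b := by
      refine Set.inter_eq_left.2 fun x hx => ?_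
      exact h.trans hx.1.le
    rw [e2, chi_one hab h, Real.volume_real_Ioc_of_le hab.le]
    ring
  · have e2 : Set.Ioc a b ∩ Set.Ici t = Set.Icc t b := by
      ext x
      simp only [Set.mem_inter_iff, Set.mem_Ioc, Set.mem_Ici, Set.mem_Icc]
      constructor
      · rintro ⟨⟨-, h2⟩, h3⟩
        exact ⟨h3, h2⟩
      · rintro ⟨h1, h2⟩
        exact ⟨⟨h.trans_le h1, h2⟩, h1⟩
    rw [e2]
    rcases le_or_gt t b with h2 | h2
    · rw [Real.volume_real_Icc_of_le h2, chi_mid hab h.le h2]
      have : b - a ≠ 0 := by linarith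
      field_simp
    · rw [Set.Icc_eq_empty (not_le.2 h2), chi_zero hab h2.le]
      simp

lemma int_if {a b : ℝ} (t c : ℝ) : Integrable (fun x : ℝ => if t ≤ x then c else 0) (volume.restrict (Set.Ioc a b)) := by
  have e1 : (fun x : ℝ => if t ≤ x then c else 0) = (Set.Ici t).indicator fun _ => c := by
    funext x
    rw [Set.indicator_apply]
    rfl
  rw [e1]
  exact (integrable_const c).indicator measurableSet_Ici

/-- **an inequality for all radii gives the inequality for the cutoff** -/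
theorem trap {ι : Type*} (S : Finset ι) (w v t : ι → ℝ) {a b ε : ℝ} (hab : a < b)
    (h : ∀ x, a ≤ x → x ≤ b → |∑ i ∈ S, (if t i ≤ x then v i else 0)| ≤ ε * ∑ i ∈ S, (if t i ≤ x then w i else 0)) :
    |∑ i ∈ S, v i * chi a b (t i)| ≤ ε * ∑ i ∈ S, w i * chi a b (t i) := by
  have hI : ∀ u : ι → ℝ, ∫ x in Set.Ioc a b, ∑ i ∈ S, (if t i ≤ x then u i else 0) = (b - a) * ∑ i ∈ S, u i * chi a b (t i) := by
    intro u
    rw [integral_finsetSum _ fun i _ => int_if _ _, Finset.mul_sum]
    exact Finset.sum_congr rfl fun i _ => chi_int hab _ _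
  have hi : ∀ u : ι → ℝ, Integrable (fun x : ℝ => ∑ i ∈ S, (if t i ≤ x then u i else 0)) (volume.restrict (Set.Ioc a b)) :=
    fun u => integrable_finsetSum _ fun i _ => int_if _ _
  have h1 : |∫ x in Set.Ioc a b, ∑ i ∈ S, (if t i ≤ x then v i else 0)| ≤
      ∫ x in Set.Ioc a b, ε * ∑ i ∈ S, (if t i ≤ x then w i else 0) := by
    refine (abs_integral_le_integral_abs).trans ?_
    refine setIntegral_mono_on (hi v).abs ((hi w).const_mul ε) measurableSet_Ioc fun x hx => ?_
    exact h x hx.1.le hx.2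
  rw [integral_const_mul, hI, hI, abs_mul, abs_of_pos (by linarith : 0 < b - a)] at h1
  have h2 : (b - a) * |∑ i ∈ S, v i * chi a b (t i)| ≤ (b - a) * (ε * ∑ i ∈ S, w i * chi a b (t i)) := by
    linarith
  exact le_of_mul_le_mul_left h2 (by linarith)

/-- the mean of `F` with the cutoff over the walks with `m` steps -/
noncomputable def EE (n m : ℕ) (a b : ℝ) (F : C(unitInterval, ℂ) → ℝ) : ℝ :=
  (∑ s ∈ saw m, F (curve s) * chi a b (‖pos s m‖ / size n)) / ((saw m).card : ℝ)

/-- **(PM) for the cutoff** -/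
theorem trap_n {ε r a b : ℝ} {n : ℕ} (hs : 0 < size n) (hab : a < b) {F : C(unitInterval, ℂ) → ℝ}
    (hF : ∀ γ, |F γ| ≤ 1) (h : ∀ x, a ≤ x → x ≤ b → |pmean n F - cmean (wdw n r) (x * size n) F| ≤ ε) :
    |∑ m ∈ wdw n r, EE n m a b F - pmean n F * ∑ m ∈ wdw n r, EE n m a b fun _ => 1| ≤
      ε * ∑ m ∈ wdw n r, EE n m a b fun _ => 1 := by
  obtain ⟨P, hP⟩ : ∃ P, P = pmean n F := ⟨_, rfl⟩
  rw [← hP] at h ⊢
  obtain ⟨S, hS⟩ : ∃ S : Finset (Σ m : ℕ, (Fin m → Fin 3)), S = (wdw n r).sigma fun m => saw m := ⟨_, rfl⟩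
  have hsum : ∀ u : (Σ m : ℕ, (Fin m → Fin 3)) → ℝ, ∑ i ∈ S, u i = ∑ m ∈ wdw n r, ∑ s ∈ saw m, u ⟨m, s⟩ := by
    intro u
    rw [hS, Finset.sum_sigma]
  have key := trap S (fun i => 1 / ((saw i.1).card : ℝ)) (fun i => (F (curve i.2) - P) / ((saw i.1).card : ℝ))
    (fun i => ‖pos i.2 i.1‖ / size n) (ε := ε) hab ?_
  · rw [hsum, hsum] at key
    have e1 : ∑ m ∈ wdw n r, ∑ s ∈ saw m, (F (curve s) - P) / ((saw m).card : ℝ) * chi a b (‖pos s m‖ / size n) =
        ∑ m ∈ wdw n r, EE n m a b F - P * ∑ m ∈ wdw n r, EE n m a b fun _ => 1 := by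
      rw [Finset.mul_sum, ← Finset.sum_sub_distrib]
      refine Finset.sum_congr rfl fun m _ => ?_
      unfold EE
      rw [mul_div_assoc', ← sub_div, Finset.mul_sum, ← Finset.sum_sub_distrib, Finset.sum_div]
      refine Finset.sum_congr rfl fun s _ => ?_
      ring
    have e2 : ∑ m ∈ wdw n r, ∑ s ∈ saw m, 1 / ((saw m).card : ℝ) * chi a b (‖pos s m‖ / size n) =
        ∑ m ∈ wdw n r, EE n m a b fun _ => 1 := by
      refine Finset.sum_congr rfl fun m _ => ?_
      unfold EE
      rw [Finset.sum_div]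
      refine Finset.sum_congr rfl fun s _ => ?_
      ring
    rw [← e1, ← e2]
    exact key
  · intro x hx1 hx2
    rw [hsum, hsum]
    have hn : ∀ m : ℕ, ∀ s : Fin m → Fin 3, ‖pos s m‖ / size n ≤ x ↔ ‖pos s m‖ ≤ x * size n := by
      intro m s
      rw [div_le_iff₀ hs]
    obtain ⟨N, hN⟩ : ∃ N, N = ∑ m ∈ wdw n r, (∑ s ∈ near m (x * size n), F (curve s)) / ((saw m).card : ℝ) := ⟨_, rfl⟩
    obtain ⟨D, hD⟩ : ∃ D, D = ∑ m ∈ wdw n r, ((near m (x * size n)).card : ℝ) / ((saw m).card : ℝ) := ⟨_, rfl⟩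
    have e1 : ∑ m ∈ wdw n r, ∑ s ∈ saw m, (if ‖pos s m‖ / size n ≤ x then (F (curve s) - P) / ((saw m).card : ℝ) else 0) =
        N - P * D := by
      rw [hN, hD, Finset.mul_sum, ← Finset.sum_sub_distrib]
      refine Finset.sum_congr rfl fun m _ => ?_
      rw [← Finset.sum_filter, ← Finset.sum_div, Finset.sum_sub_distrib]
      have e2 : (saw m).filter (fun s => ‖pos s m‖ / size n ≤ x) = near m (x * size n) := by
        unfold near
        exact Finset.filter_congr fun s _ => hn m s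
      rw [e2, Finset.sum_const, nsmul_eq_mul]
      ring
    have e2 : ∑ m ∈ wdw n r, ∑ s ∈ saw m, (if ‖pos s m‖ / size n ≤ x then 1 / ((saw m).card : ℝ) else 0) = D := by
      rw [hD]
      refine Finset.sum_congr rfl fun m _ => ?_
      rw [← Finset.sum_filter, ← Finset.sum_div]
      have e2 : (saw m).filter (fun s => ‖pos s m‖ / size n ≤ x) = near m (x * size n) := by
        unfold near
        exact Finset.filter_congr fun s _ => hn m s
      rw [e2, Finset.sum_const, nsmul_eq_mul, mul_one]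
    have hND : |N| ≤ D := by
      rw [hN, hD]
      refine (Finset.abs_sum_le_sum_abs _ _).trans (Finset.sum_le_sum fun m _ => ?_)
      rw [abs_div, abs_of_nonneg (Nat.cast_nonneg _ : (0 : ℝ) ≤ ((saw m).card : ℝ))]
      refine div_le_div_of_nonneg_right ?_ (Nat.cast_nonneg _)
      refine (Finset.abs_sum_le_sum_abs _ _).trans ((Finset.sum_le_sum fun s _ => hF _).trans (le_of_eq ?_))
      rw [Finset.sum_const, nsmul_eq_mul, mul_one]
    have hx := h x hx1 hx2
    unfold cmean at hx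
    rw [← hN, ← hD] at hx
    show |∑ m ∈ wdw n r, ∑ s ∈ saw m, (if ‖pos s m‖ / size n ≤ x then (F (curve s) - P) / ((saw m).card : ℝ) else 0)| ≤
      ε * ∑ m ∈ wdw n r, ∑ s ∈ saw m, (if ‖pos s m‖ / size n ≤ x then 1 / ((saw m).card : ℝ) else 0)
    rw [e1, e2]
    have hD0 : 0 ≤ D := (abs_nonneg _).trans hND
    rcases hD0.eq_or_lt with h2 | h2
    · have h3 : N = 0 := by
        rw [← h2] at hND
        exact abs_nonpos_iff.1 hND
      rw [← h2, h3]
      simp
    · have h3 : N - P * D = -(P - N / D) * D := by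
        field_simp
        ring
      rw [h3, abs_mul, abs_neg, abs_of_pos h2]
      exact mul_le_mul_of_nonneg_right hx h2.le

end Pool.Agent.PMA
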