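import Pool.Agent.PMA.LimW
import Pool.Agent.PMA.LimE
import Pool.Agent.PMA.LimN
import Pool.Agent.PMA.All

/-!
# The limit form of (PM), part 3 (helper41): the integral over the curves whose ends are close

`closeI`: the statement's integral; `cutI`: with the cutoff; `cut_lim`: the sums over the window converge; `cut_close`: the
cutoff between `r` and `r + r / (j + 1)` tends to the disc; **`close_core`**: along a sequence with limits the means over the
polygons are near the ratio of the integrals.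
-/

set_option autoImplicit false

open MeasureTheory Filter Topology Finset

open scoped Classical

namespace Pool.Agent.PMA

open Res Pool.Agent.NTS.Res Pool.Agent.RMP

open NTSF (size_pos integral_law)

/-- The integral of `F` over the curves whose ends are at a distance at most `r`: the number of the steps is uniform between
`1 - r ^ (4 / 3)` and `1`. -/
noncomputable def closeI (μ : ℝ → Measure C(unitInterval, ℂ)) (ρ : ℝ → ℝ) (r : ℝ) (F : C(unitInterval, ℂ) → ℝ) : ℝ :=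
  ∫ x in (1 - r ^ (4 / 3 : ℝ))..1, ∫ γ, (if ρ x * ‖γ 1‖ ≤ r then F γ else 0) ∂(μ x)

/-- with the cutoff -/
noncomputable def cutI (μ : ℝ → Measure C(unitInterval, ℂ)) (ρ : ℝ → ℝ) (r a b : ℝ) (F : C(unitInterval, ℂ) → ℝ) : ℝ :=
  ∫ x in (1 - r ^ (4 / 3 : ℝ))..1, ∫ γ, F γ * chi a b (ρ x * ‖γ 1‖) ∂(μ x)

variable {φ : ℕ → ℕ} {μ : ℝ → Measure C(unitInterval, ℂ)} {ρ : ℝ → ℝ}

lemma win_pos {r : ℝ} (hr : 0 < r) (hr1 : r < 1) : 0 < 1 - r ^ (4 / 3 : ℝ) ∧ 1 - r ^ (4 / 3 : ℝ) < 1 := by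
  have h1 := Real.rpow_lt_one hr.le hr1 (by norm_num : (0 : ℝ) < 4 / 3)
  have h2 := Real.rpow_pos_of_pos hr (4 / 3 : ℝ)
  constructor <;> linarith

/-- **the sums over the window converge** -/
theorem cut_lim (hf : Fam φ μ ρ) {r a b : ℝ} (hr : 0 < r) (hr1 : r < 1) (hab : a < b) (hb : 0 < b)
    {F : C(unitInterval, ℂ) → ℝ} (hF : ∀ γ, |F γ| ≤ 1) (hc : Continuous F) :
    AEStronglyMeasurable (fun x => ∫ γ, F γ * chi a b (ρ x * ‖γ 1‖) ∂(μ x)) (volume.restrict (Set.Ioc (1 - r ^ (4 / 3 : ℝ)) 1)) ∧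
    Tendsto (fun i => (∑ m ∈ wdw (φ i) r, EE (φ i) m a b F) / (φ i : ℝ)) atTop (𝓝 (cutI μ ρ r a b F)) :=
  wsum_lim hr hr1 hf.top (fun _ _ => EE_abs hF) fun _ hx0 hx1 =>
    EE_lim hf ((win_pos hr hr1).1.trans hx0) hx1.le hab hb hF hc

/-- the radii -/
noncomputable def bj (r : ℝ) (j : ℕ) : ℝ := r + r / ((j : ℝ) + 1)

lemma bj_gt {r : ℝ} (hr : 0 < r) (j : ℕ) : r < bj r j := by
  have : 0 < r / ((j : ℝ) + 1) := by positivity
  unfold bj
  linarith

lemma bj_le {r : ℝ} (hr : 0 < r) (j : ℕ) : bj r j ≤ 2 * r := by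
  have : r / ((j : ℝ) + 1) ≤ r := div_le_self hr.le (by
    have : (0 : ℝ) ≤ j := Nat.cast_nonneg j
    linarith)
  unfold bj
  linarith

lemma bj_lim (r : ℝ) : Tendsto (bj r) atTop (𝓝 r) := by
  have h1 : Tendsto (fun j : ℕ => r / ((j : ℝ) + 1)) atTop (𝓝 0) :=
    (tendsto_atTop_add_const_right _ 1 tendsto_natCast_atTop_atTop).const_div_atTop r
  have h2 := h1.const_add r
  rw [add_zero] at h2
  exact h2

lemma int_bd {G : C(unitInterval, ℂ) → ℝ} (ν : Measure C(unitInterval, ℂ)) [IsProbabilityMeasure ν] (hG : ∀ γ, |G γ| ≤ 1) :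
    |∫ γ, G γ ∂ν| ≤ 1 := by
  have h := norm_integral_le_of_norm_le_const (μ := ν) (f := G) (C := 1) (Eventually.of_forall fun γ => by
    rw [Real.norm_eq_abs]
    exact hG γ)
  rw [probReal_univ, mul_one, Real.norm_eq_abs] at h
  exact h

/-- **the cutoff tends to the disc** -/
theorem cut_close (hf : Fam φ μ ρ) {r : ℝ} (hr : 0 < r) (hr1 : r < 1) {F : C(unitInterval, ℂ) → ℝ} (hF : ∀ γ, |F γ| ≤ 1)
    (hc : Continuous F) : Tendsto (fun j => cutI μ ρ r r (bj r j) F) atTop (𝓝 (closeI μ ρ r F)) := by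
  have hw := win_pos hr hr1
  unfold cutI closeI
  simp only [intervalIntegral.integral_of_le hw.2.le]
  have hbd : ∀ (j : ℕ) (x : ℝ) (γ : C(unitInterval, ℂ)), |F γ * chi r (bj r j) (ρ x * ‖γ 1‖)| ≤ 1 := by
    intro j x γ
    rw [abs_mul, abs_of_nonneg (chi_nonneg _ _ _)]
    exact mul_le_one₀ (hF _) (chi_nonneg _ _ _) (chi_le _ _ _)
  refine tendsto_integral_of_dominated_convergence (fun _ => 1) ?_ (integrable_const _) ?_ ?_
  · intro j
    exact (cut_lim hf hr hr1 (bj_gt hr j) (hr.trans (bj_gt hr j)) hF hc).1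
  · intro j
    refine (ae_restrict_iff' measurableSet_Ioc).2 (Eventually.of_forall fun x hx => ?_)
    have hP := hf.prob x (hw.1.trans hx.1) hx.2
    rw [Real.norm_eq_abs]
    exact int_bd _ (hbd j x)
  · refine (ae_restrict_iff' measurableSet_Ioc).2 (Eventually.of_forall fun x hx => ?_)
    have hP := hf.prob x (hw.1.trans hx.1) hx.2
    refine tendsto_integral_of_dominated_convergence (fun _ => 1) ?_ (integrable_const _) ?_ ?_
    · intro j
      exact (hc.mul ((chi_cont _ _).comp (continuous_const.mul (continuous_eval_const 1).norm))).aestronglyMeasurable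
    · intro j
      exact Eventually.of_forall fun γ => by
        rw [Real.norm_eq_abs]
        exact hbd j x γ
    · refine Eventually.of_forall fun γ => ?_
      by_cases h : ρ x * ‖γ 1‖ ≤ r
      · rw [if_pos h]
        refine tendsto_const_nhds.congr fun j => ?_
        rw [chi_one (bj_gt hr j) h, mul_one]
      · rw [if_neg h]
        refine tendsto_const_nhds.congr' ?_
        filter_upwards [(bj_lim r).eventually_lt_const (not_le.1 h)] with j hj
        rw [chi_zero (bj_gt hr j) hj.le, mul_zero]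

/-- the cutoff for `F = 1` is larger than the disc -/
lemma EE_low {n : ℕ} (hs : 0 < size n) {r b : ℝ} (hb : r < b) (m : ℕ) :
    ((near m (r * size n)).card : ℝ) / ((saw m).card : ℝ) ≤ EE n m r b fun _ => 1 := by
  unfold EE
  refine div_le_div_of_nonneg_right ?_ (Nat.cast_nonneg _)
  have h1 : ((near m (r * size n)).card : ℝ) = ∑ s ∈ near m (r * size n), (1 : ℝ) * chi r b (‖pos s m‖ / size n) := by
    rw [Finset.sum_congr rfl (g := fun _ => (1 : ℝ)) fun s hs2 => ?_, Finset.sum_const, nsmul_eq_mul, mul_one]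
    have h2 : ‖pos s m‖ ≤ r * size n := (Finset.mem_filter.1 hs2).2
    rw [chi_one hb (by rwa [div_le_iff₀ hs]), mul_one]
  rw [h1]
  refine Finset.sum_le_sum_of_subset_of_nonneg (Finset.filter_subset _ _) fun s _ _ => ?_
  rw [one_mul]
  exact chi_nonneg _ _ _

/-- **the polygons along a sequence with limits** -/
theorem close_core : ∀ ε : ℝ, 0 < ε → ∃ r0 : ℝ, 0 < r0 ∧ ∀ r : ℝ, 0 < r → r ≤ r0 →
    ∀ (φ : ℕ → ℕ) (μ : ℝ → Measure C(unitInterval, ℂ)) (ρ : ℝ → ℝ), Fam φ μ ρ → (∀ k, Odd (φ k)) →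
      0 < closeI μ ρ r (fun _ => 1) ∧ ∀ F : C(unitInterval, ℂ) → ℝ, (∀ γ, |F γ| ≤ 1) → LipschitzWith 1 F → (∀ γ, F (-γ) = F γ) →
        ∀ l : ℝ, Tendsto (fun i => pmean (φ i) F) atTop (𝓝 l) → |closeI μ ρ r F / closeI μ ρ r (fun _ => 1) - l| ≤ ε := by
  intro ε hε
  obtain ⟨r1, hr1, h1⟩ := pm2 ε hε
  obtain ⟨r2, hr2, h2⟩ := near_pos
  refine ⟨min (min r1 r2) (1 / 2), by positivity, fun r hr hrr φ μ ρ hf ho => ?_⟩
  have hrr1 : r ≤ r1 := hrr.trans ((min_le_left _ _).trans (min_le_left _ _))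
  have hrr2 : r ≤ r2 := hrr.trans ((min_le_left _ _).trans (min_le_right _ _))
  have hr1' : r < 1 := by
    have : r ≤ 1 / 2 := hrr.trans (min_le_right _ _)
    linarith
  obtain ⟨c, n2, hc, h2⟩ := h2 r hr hrr2
  obtain ⟨n1, h1⟩ := h1 r hr hrr1
  have hone : ∀ γ : C(unitInterval, ℂ), |(fun _ : C(unitInterval, ℂ) => (1 : ℝ)) γ| ≤ 1 := fun γ => by
    show |(1 : ℝ)| ≤ 1
    rw [abs_one]
  have hc1 := fun j => (cut_lim hf hr hr1' (bj_gt hr j) (hr.trans (bj_gt hr j)) hone continuous_const).2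
  -- positivity
  have hpos : ∀ j, c ≤ cutI μ ρ r r (bj r j) fun _ => 1 := by
    intro j
    refine ge_of_tendsto (hc1 j) ?_
    filter_upwards [hf.top.eventually_ge_atTop n2, hf.top.eventually_ge_atTop 1] with i hi hi1
    have hn : (0 : ℝ) < φ i := by exact_mod_cast hi1
    rw [le_div_iff₀ hn]
    exact (h2 _ hi).trans (Finset.sum_le_sum fun m _ => EE_low (size_pos hi1) (bj_gt hr j) m)
  have hcl1 := cut_close hf hr hr1' hone continuous_const
  have hC : c ≤ closeI μ ρ r fun _ => 1 := ge_of_tendsto' hcl1 hpos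
  have hC0 : 0 < closeI μ ρ r fun _ => 1 := hc.trans_le hC
  refine ⟨hC0, fun F hF hL he l hl => ?_⟩
  have hcut : ∀ j, |cutI μ ρ r r (bj r j) F - l * cutI μ ρ r r (bj r j) fun _ => 1| ≤ ε * cutI μ ρ r r (bj r j) fun _ => 1 := by
    intro j
    have t1 := (cut_lim hf hr hr1' (bj_gt hr j) (hr.trans (bj_gt hr j)) hF hL.continuous).2
    have t2 := (t1.sub (hl.mul (hc1 j))).abs
    refine le_of_tendsto_of_tendsto t2 ((hc1 j).const_mul ε) ?_
    filter_upwards [hf.top.eventually_ge_atTop n1, hf.top.eventually_ge_atTop 1] with i hi hi1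
    have hn : (0 : ℝ) < φ i := by exact_mod_cast hi1
    have h3 := trap_n (ε := ε) (r := r) (size_pos hi1) (bj_gt hr j) hF fun x hx1 hx2 =>
      h1 (φ i) hi (ho i) x hx1 (hx2.trans (bj_le hr j)) F hF hL he
    rw [← mul_div_assoc, ← sub_div, abs_div, abs_of_pos hn, ← mul_div_assoc]
    exact div_le_div_of_nonneg_right h3 hn.le
  have hcl := cut_close hf hr hr1' hF hL.continuous
  have h4 : |closeI μ ρ r F - l * closeI μ ρ r fun _ => 1| ≤ ε * closeI μ ρ r fun _ => 1 :=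
    le_of_tendsto_of_tendsto' (hcl.sub (hcl1.const_mul l)).abs (hcl1.const_mul ε) hcut
  have h5 : closeI μ ρ r F / closeI μ ρ r (fun _ => 1) - l = (closeI μ ρ r F - l * closeI μ ρ r fun _ => 1) /
      closeI μ ρ r fun _ => 1 := by
    field_simp
  rw [h5, abs_div, abs_of_pos hC0, div_le_iff₀ hC0]
  exact h4

end Pool.Agent.PMA
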