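import Pool.Agent.PMA.LimTz
import Pool.Agent.RMP.LimD

/-!
# The limit form of (PM), part 2 (helper41): the limit for one number of steps

**`EE_lim`**: the mean of `F` with the cutoff over the walks with `⌊x φ i⌋` steps converges; `rho_pos`: `0 < ρ x`.
-/

set_option autoImplicit false

open MeasureTheory Filter Topology Finset

open scoped Classical

namespace Pool.Agent.PMA

open Res Pool.Agent.NTS.Res Pool.Agent.RMP

open NTSF (size_pos integral_law)

lemma size_bd : ∃ c0 C0 : ℝ, 0 < c0 ∧ c0 ≤ C0 ∧ ∀ n : ℕ, 1 ≤ n → c0 * (n : ℝ) ^ (3 / 4 : ℝ) ≤ size n ∧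
    size n ≤ C0 * (n : ℝ) ^ (3 / 4 : ℝ) := by
  obtain ⟨c0, C0, hc0, hsz⟩ := (NTSF.conclE_false NTSF.finE).1
  refine ⟨c0, C0, hc0, ?_, hsz⟩
  have h1 := hsz 1 le_rfl
  rw [Nat.cast_one, Real.one_rpow, mul_one, mul_one] at h1
  exact h1.1.trans h1.2

lemma chi_lip {a b : ℝ} (hab : a < b) (x y : ℝ) : |chi a b x - chi a b y| ≤ |x - y| / (b - a) := by
  have h1 : |chi a b x - chi a b y| ≤ |min 1 ((b - x) / (b - a)) - min 1 ((b - y) / (b - a))| := by
    unfold chi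
    exact (abs_max_sub_max_le_max _ _ _ _).trans (by simp)
  have h2 : |min 1 ((b - x) / (b - a)) - min 1 ((b - y) / (b - a))| ≤ |(b - x) / (b - a) - (b - y) / (b - a)| :=
    (abs_min_sub_min_le_max _ _ _ _).trans (by simp)
  have h3 : |(b - x) / (b - a) - (b - y) / (b - a)| = |x - y| / (b - a) := by
    rw [← sub_div, abs_div, abs_of_pos (by linarith : 0 < b - a), show b - x - (b - y) = -(x - y) by ring, abs_neg]
  exact (h1.trans h2).trans (le_of_eq h3)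

lemma chi_close {a b c0 c c' t : ℝ} (hab : a < b) (hb : 0 < b) (h0 : 0 < c0) (hc : c0 ≤ c) (hc' : c0 ≤ c') (ht : 0 ≤ t) :
    |chi a b (c * t) - chi a b (c' * t)| ≤ |c - c'| * (b / (c0 * (b - a))) := by
  rcases le_or_gt (b / c0) t with h | h
  · rw [div_le_iff₀ h0] at h
    have h1 : b ≤ c * t := by
      have := mul_le_mul_of_nonneg_right hc ht
      linarith
    have h2 : b ≤ c' * t := by
      have := mul_le_mul_of_nonneg_right hc' ht
      linarith
    rw [chi_zero hab h1, chi_zero hab h2, sub_zero, abs_zero]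
    have : 0 < b - a := by linarith
    positivity
  · refine (chi_lip hab _ _).trans ?_
    have h1 : |c * t - c' * t| = |c - c'| * t := by
      rw [← sub_mul, abs_mul, abs_of_nonneg ht]
    have h2 : b / (c0 * (b - a)) = b / c0 / (b - a) := by
      rw [div_div]
    rw [h1, h2, ← mul_div_assoc]
    exact div_le_div_of_nonneg_right (mul_le_mul_of_nonneg_left h.le (abs_nonneg _)) (by linarith)

/-- the mean as an integral -/
lemma EE_int {n m : ℕ} (hm : 1 ≤ m) (a b : ℝ) (F : C(unitInterval, ℂ) → ℝ) :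
    EE n m a b F = ∫ γ, F γ * chi a b (size m / size n * ‖γ 1‖) ∂(law m) := by
  rw [integral_law]
  unfold EE
  congr 1
  refine Finset.sum_congr rfl fun s _ => ?_
  have hs := size_pos hm
  rw [curve_one, norm_div, Complex.norm_of_nonneg hs.le]
  congr 2
  field_simp

lemma EE_abs {n m : ℕ} {a b : ℝ} {F : C(unitInterval, ℂ) → ℝ} (hF : ∀ γ, |F γ| ≤ 1) : |EE n m a b F| ≤ 1 := by
  unfold EE
  rw [abs_div, abs_of_nonneg (Nat.cast_nonneg _ : (0 : ℝ) ≤ ((saw m).card : ℝ))]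
  refine div_le_one_of_le₀ ?_ (Nat.cast_nonneg _)
  refine (Finset.abs_sum_le_sum_abs _ _).trans ((Finset.sum_le_sum (g := fun _ => (1 : ℝ)) fun s _ => ?_).trans (le_of_eq ?_))
  · rw [abs_mul, abs_of_nonneg (chi_nonneg _ _ _)]
    exact mul_le_one₀ (hF _) (chi_nonneg _ _ _) (chi_le _ _ _)
  · rw [Finset.sum_const, nsmul_eq_mul, mul_one]

variable {φ : ℕ → ℕ} {μ : ℝ → Measure C(unitInterval, ℂ)} {ρ : ℝ → ℝ}

lemma floor_top (hφ : Tendsto φ atTop atTop) {x : ℝ} (hx : 0 < x) : Tendsto (fun i => ⌊x * φ i⌋₊) atTop atTop :=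
  tendsto_nat_floor_atTop.comp (Tendsto.const_mul_atTop hx (tendsto_natCast_atTop_atTop.comp hφ))

/-- **the ratios of the sizes are positive** -/
theorem rho_pos (hf : Fam φ μ ρ) {x : ℝ} (hx0 : 0 < x) (hx1 : x ≤ 1) : 0 < ρ x := by
  obtain ⟨c0, C0, hc0, hcC, hsz⟩ := size_bd
  have hC0 : 0 < C0 := hc0.trans_le hcC
  have h1 : c0 / C0 * (x / 2) ^ (3 / 4 : ℝ) ≤ ρ x := by
    refine ge_of_tendsto (hf.size x hx0 hx1) ?_
    filter_upwards [hf.top.eventually_ge_atTop 1, (floor_top hf.top hx0).eventually_ge_atTop 1] with i hi hi2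
    have a1 := (hsz _ hi2).1
    have a2 := (hsz _ hi).2
    have hn : (0 : ℝ) < φ i := by exact_mod_cast hi
    have hs := size_pos hi
    have hfl : x * φ i / 2 ≤ (⌊x * φ i⌋₊ : ℝ) := by
      have b1 := Nat.lt_floor_add_one (x * φ i)
      have b2 : (1 : ℝ) ≤ ⌊x * φ i⌋₊ := by exact_mod_cast hi2
      linarith
    rw [le_div_iff₀ hs]
    have a3 : (x * φ i / 2) ^ (3 / 4 : ℝ) ≤ (⌊x * φ i⌋₊ : ℝ) ^ (3 / 4 : ℝ) := Real.rpow_le_rpow (by positivity) hfl (by norm_num)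
    have a4 : (x * φ i / 2) ^ (3 / 4 : ℝ) = (x / 2) ^ (3 / 4 : ℝ) * (φ i : ℝ) ^ (3 / 4 : ℝ) := by
      rw [← Real.mul_rpow (by positivity) (by positivity)]
      congr 1
      ring
    rw [a4] at a3
    have a5 : 0 ≤ c0 / C0 * (x / 2) ^ (3 / 4 : ℝ) := by positivity
    calc c0 / C0 * (x / 2) ^ (3 / 4 : ℝ) * size (φ i) ≤ c0 / C0 * (x / 2) ^ (3 / 4 : ℝ) * (C0 * (φ i : ℝ) ^ (3 / 4 : ℝ)) :=
          mul_le_mul_of_nonneg_left a2 a5
      _ = c0 * ((x / 2) ^ (3 / 4 : ℝ) * (φ i : ℝ) ^ (3 / 4 : ℝ)) := by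
          field_simp
      _ ≤ c0 * (⌊x * φ i⌋₊ : ℝ) ^ (3 / 4 : ℝ) := mul_le_mul_of_nonneg_left a3 hc0.le
      _ ≤ _ := a1
  exact lt_of_lt_of_le (by positivity) h1

/-- **the limit for one number of steps** -/
theorem EE_lim (hf : Fam φ μ ρ) {x : ℝ} (hx0 : 0 < x) (hx1 : x ≤ 1) {a b : ℝ} (hab : a < b) (hb : 0 < b)
    {F : C(unitInterval, ℂ) → ℝ} (hF : ∀ γ, |F γ| ≤ 1) (hc : Continuous F) :
    Tendsto (fun i => EE (φ i) ⌊x * φ i⌋₊ a b F) atTop (𝓝 (∫ γ, F γ * chi a b (ρ x * ‖γ 1‖) ∂(μ x))) := by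
  have hρ := rho_pos hf hx0 hx1
  have hcG : Continuous fun γ : C(unitInterval, ℂ) => F γ * chi a b (ρ x * ‖γ 1‖) := by
    refine hc.mul ((chi_cont a b).comp (continuous_const.mul ?_))
    exact (continuous_eval_const 1).norm
  have hbG : ∀ γ : C(unitInterval, ℂ), |F γ * chi a b (ρ x * ‖γ 1‖)| ≤ 1 := by
    intro γ
    rw [abs_mul, abs_of_nonneg (chi_nonneg _ _ _)]
    exact mul_le_one₀ (hF _) (chi_nonneg _ _ _) (chi_le _ _ _)
  have h1 := hf.law x hx0 hx1 (bcf _ hcG 1 hbG)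
  simp only [bcf_apply] at h1
  have h2 : Tendsto (fun i => |size ⌊x * φ i⌋₊ / size (φ i) - ρ x| * (b / (ρ x / 2 * (b - a)))) atTop (𝓝 0) := by
    have h3 := ((hf.size x hx0 hx1).sub_const (ρ x)).abs.mul_const (b / (ρ x / 2 * (b - a)))
    simpa using h3
  have h4 : Tendsto (fun i => EE (φ i) ⌊x * φ i⌋₊ a b F - ∫ γ, F γ * chi a b (ρ x * ‖γ 1‖) ∂(law ⌊x * φ i⌋₊)) atTop (𝓝 0) := by
    refine squeeze_zero_norm' ?_ h2
    filter_upwards [(floor_top hf.top hx0).eventually_ge_atTop 1, (hf.size x hx0 hx1).eventually_const_le (half_lt_self hρ)]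
      with i hi hi2
    rw [EE_int hi, Real.norm_eq_abs]
    have hP := NTSF.law_prob ⌊x * φ i⌋₊
    have hcH : Continuous fun γ : C(unitInterval, ℂ) => F γ * chi a b (size ⌊x * φ i⌋₊ / size (φ i) * ‖γ 1‖) := by
      refine hc.mul ((chi_cont a b).comp (continuous_const.mul ?_))
      exact (continuous_eval_const 1).norm
    have hbH : ∀ γ : C(unitInterval, ℂ), ‖F γ * chi a b (size ⌊x * φ i⌋₊ / size (φ i) * ‖γ 1‖)‖ ≤ 1 := by
      intro γ
      rw [Real.norm_eq_abs, abs_mul, abs_of_nonneg (chi_nonneg _ _ _)]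
      exact mul_le_one₀ (hF _) (chi_nonneg _ _ _) (chi_le _ _ _)
    rw [← integral_sub (Integrable.of_bound hcH.aestronglyMeasurable 1 (Eventually.of_forall hbH))
      (Integrable.of_bound hcG.aestronglyMeasurable 1 (Eventually.of_forall fun γ => by rw [Real.norm_eq_abs]; exact hbG γ))]
    have h5 := norm_integral_le_of_norm_le_const (μ := law ⌊x * φ i⌋₊) (f := fun γ : C(unitInterval, ℂ) =>
      F γ * chi a b (size ⌊x * φ i⌋₊ / size (φ i) * ‖γ 1‖) - F γ * chi a b (ρ x * ‖γ 1‖))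
      (C := |size ⌊x * φ i⌋₊ / size (φ i) - ρ x| * (b / (ρ x / 2 * (b - a)))) (Eventually.of_forall fun γ => ?_)
    · rw [probReal_univ, mul_one, Real.norm_eq_abs] at h5
      exact h5
    · rw [← mul_sub, norm_mul, Real.norm_eq_abs, Real.norm_eq_abs]
      have h6 := chi_close hab hb (half_pos hρ) hi2 (half_le_self hρ.le) (norm_nonneg (γ 1))
      calc |F γ| * |chi a b (size ⌊x * φ i⌋₊ / size (φ i) * ‖γ 1‖) - chi a b (ρ x * ‖γ 1‖)| ≤
            1 * |chi a b (size ⌊x * φ i⌋₊ / size (φ i) * ‖γ 1‖) - chi a b (ρ x * ‖γ 1‖)| :=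
            mul_le_mul_of_nonneg_right (hF γ) (abs_nonneg _)
        _ ≤ _ := by
            rw [one_mul]
            exact h6
  have h7 := h4.add h1
  simpa using h7

end Pool.Agent.PMA
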