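import Pool.Agent.PMA.LocN

/-!
# PM, row K7a (helper84): **the density only depends on the window** (`locD_of : .. → LocD`)
-/

set_option autoImplicit false

namespace HexObs

namespace PMA

open Finset TS SDN SIM NTA TIP ARM ARM.G3

open scoped ENNReal

/-! ### 1. The fillings are small -/

lemma hn_ps {e : ℕ → Pt} {r : ℕ} (he : ∀ i, i < r → e i ∈ dirs) {i : ℕ} (hi : i ≤ r) : TIW.hn (AR.ps e i) ≤ 2 * i := by
  induction i with
  | zero =>
    rw [ps_zero]
    decide
  | succ i ih =>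
    have h1 := ih (by omega)
    have e1 : AR.ps e (i + 1) = AR.ps e i + e i := sum_range_succ _ _
    rw [e1]
    have h2 := TIW.hn_add (AR.ps e i) (e i)
    have h3 := hn_step (he i (by omega))
    push_cast
    linarith

lemma hn_smul_nat (D : ℤ) (hD : 0 ≤ D) (p : Pt) : TIW.hn (D • p) ≤ D * TIW.hn p := by
  refine TIW.hn_le fun d hd => ?_
  rw [ip_smul]
  exact mul_le_mul_of_nonneg_left (TIW.ip_le_hn p hd) hD

lemma tube_small {e : ℕ → Pt} {D w : ℤ} {r : ℕ} {z : Pt} {Q : List Bool} (h : TubeQ e D w r z Q)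
    (he : ∀ i, i < r → e i ∈ dirs) (hD : 0 ≤ D) {i : ℕ} (hi : i ≤ Q.length) :
    TIW.hn (vx oo up Q i) ≤ 2 * D * r + w := by
  obtain ⟨j, hj, t, ht0, htD, ht⟩ := h.rg i hi
  have h1 := hn_ps he hj.le
  have h2 : TIW.hn (AR.pv e D j) ≤ D * (2 * j) :=
    (hn_smul_nat D hD _).trans (mul_le_mul_of_nonneg_left h1 hD)
  have h3 : TIW.hn (t • e j) ≤ t * 2 := by
    have := hn_smul_nat t ht0 (e j)
    rwa [hn_step (he j hj)] at this
  have e1 : vx oo up Q i = (vx oo up Q i - (AR.pv e D j + t • e j)) + (AR.pv e D j + t • e j) := by abel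
  rw [e1]
  have h4 := TIW.hn_add (vx oo up Q i - (AR.pv e D j + t • e j)) (AR.pv e D j + t • e j)
  have h5 := TIW.hn_add (AR.pv e D j) (t • e j)
  have h6 : (j : ℤ) + 1 ≤ r := by exact_mod_cast hj
  have h7 : D * (2 * j) + t * 2 ≤ 2 * D * r := by nlinarith
  linarith

/-- the fillings stay in a ball of radius `2 ^ (j + c0)` -/
lemma fil_small (H Mx : ℕ) : ∃ c0 : ℕ, ∀ P : Par, P.H = H → P.Mx = Mx → ∀ M Q : List Bool, Jbl P M → Q ∈ Fil P M →
    ∀ i, i ≤ Q.length → TIW.hn (vx oo up Q i) ≤ 2 ^ (P.j + c0) := by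
  obtain ⟨c0, hc0⟩ := pow_unbounded_of_one_lt ((72 * H * Mx + 512 : ℕ) : ℤ) (one_lt_two : (1 : ℤ) < 2)
  refine ⟨c0, fun P hH hM M Q hJ hQ i hi => ?_⟩
  obtain ⟨hok, hJn⟩ := pth_ok hJ
  obtain ⟨hT, -, -⟩ := hQ
  have hdir : ∀ a, a < (pth P M).r → mulE (rc M) ((pth P M).E a) ∈ dirs := by
    intro a ha
    exact TIW.mulE_mem (nrm_rc M) (hok.ip.dir a ha)
  have hD0 : 0 ≤ (pth P M).D := le_trans (by positivity) hok.D1
  have h1 := tube_small hT hdir hD0 hi
  have hpk : (2 : ℤ) ^ (pth P M).k ≤ 2 ^ P.j := pow_le_pow_right₀ (by norm_num) hok.kj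
  have h2 : (pth P M).D ≤ 36 * (H * 2 ^ P.j) := by
    have := hok.D2
    rw [hH] at this
    refine this.trans ?_
    have : (0 : ℤ) ≤ H := Nat.cast_nonneg _
    have := mul_le_mul_of_nonneg_left hpk this
    linarith
  have h3 : ((pth P M).r : ℤ) ≤ Mx := by
    have := hok.rM
    rw [hM] at this
    exact_mod_cast this
  have h4 : (2 : ℤ) ^ ((pth P M).k + 9) ≤ 512 * 2 ^ P.j := by
    rw [pow_add]
    have : (2 : ℤ) ^ 9 = 512 := by norm_num
    rw [this]
    linarith
  have h5 : 2 * (pth P M).D * (pth P M).r ≤ 2 * (36 * (H * 2 ^ P.j)) * Mx := by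
    have hr0 : (0 : ℤ) ≤ (pth P M).r := Nat.cast_nonneg _
    have hH0 : (0 : ℤ) ≤ 36 * (H * 2 ^ P.j) := by positivity
    calc 2 * (pth P M).D * (pth P M).r ≤ 2 * (36 * (H * 2 ^ P.j)) * (pth P M).r :=
          mul_le_mul_of_nonneg_right (by linarith) hr0
      _ ≤ _ := mul_le_mul_of_nonneg_left h3 (by linarith)
  have h6 : (2 : ℤ) ^ (P.j + c0) = 2 ^ P.j * 2 ^ c0 := pow_add _ _ _
  have h7 : (0 : ℤ) < 2 ^ P.j := by positivity
  have h8 : 2 ^ P.j * (((72 * H * Mx + 512 : ℕ) : ℤ)) ≤ 2 ^ P.j * 2 ^ c0 := mul_le_mul_of_nonneg_left hc0.le h7.le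
  rw [h6]
  refine h1.trans (le_trans ?_ h8)
  push_cast
  linarith

/-! ### 2. Closed words -/

/-- the outer part of a closed word is self-avoiding -/
lemma cy_mid {N : ℕ} {K Q2 M Q1 : List Bool} (hK : K ∈ POL.Cy N) (h : K = Q2 ++ (M ++ Q1)) (h2 : Q2 ≠ []) : M ∈ SA := by
  obtain ⟨hl, h0, -, hinj⟩ := hK
  have hll : N = Q2.length + (M.length + Q1.length) := by
    rw [← hl, h, List.length_append, List.length_append]
  have hq : 1 ≤ Q2.length := List.length_pos_of_ne_nil h2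
  have key : ∀ i, i ≤ M.length → vx oo up K (Q2.length + i) = TIW.en Q2 + mulE (TIW.rt Q2) (vx oo up M i) := by
    intro i hi
    rw [h, TIW.vx_app, vx_append (by omega)]
  refine ⟨fun _ _ _ => Set.mem_univ _, fun i k hik hk heq => ?_⟩
  have e : vx oo up K (Q2.length + i) = vx oo up K (Q2.length + k) := by
    rw [key i (by omega), key k hk, heq]
  rcases Nat.lt_or_ge (Q2.length + k) N with h3 | h3
  · exact absurd (hinj _ _ (by omega) h3 e) (by omega)
  · have h4 : Q2.length + k = N := by omega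
    have e2 : vx oo up K (Q2.length + i) = vx oo up K 0 := by
      rw [e, h4, h0]
      rfl
    have := hinj _ _ (by omega) (by omega) e2
    omega

/-- the locality of the joining paths and of the cuts, for all parameters (rows LocJ, LocC) -/
def LocIn : Prop := ∀ H Mx m : ℕ, ∃ w0 : ℕ, ∀ P : Par, P.H = H → P.Mx = Mx → P.m = m →
  (∀ l z, P.G l z → TIW.hn z ≤ 2 ^ P.j) → LH P w0

section

variable {P : Par} {w0 w1 c0 T w : ℕ} {K K' : List Bool}

lemma dd_le (Hh : LH P w0) (hS : LocS P w1) (hA : 0 ≤ P.A) (hA1 : 0 ≤ P.A1)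
    (hc : ∀ M Q : List Bool, Jbl P M → Q ∈ Fil P M → ∀ i, i ≤ Q.length → TIW.hn (vx oo up Q i) ≤ 2 ^ (P.j + c0))
    (hw : P.j + (w0 + w1 + c0 + 4) ≤ w) (hT : 4 * (P.A + P.A1) * ml P.j ≤ T) (hK : K ∈ POL.Cy P.N) (hK' : K' ∈ POL.Cy P.N)
    (hf : Far T w K) (hf' : Far T w K') (hwin : win T K = win T K') : DD P K ≤ DD P K' := by
  have hml : 0 < ml P.j := by
    unfold ml
    positivity
  have hl : K.length = K'.length := hK.1.trans hK'.1.symm
  obtain ⟨htk, hdp⟩ := Prod.mk.inj hwin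
  have hen : ∀ Z : List Bool, Z ∈ POL.Cy P.N → TIW.en Z = 0 ∧ TIW.de Z = up := by
    intro Z hZ
    obtain ⟨h1, h2, h3, -⟩ := hZ
    refine ⟨?_, ?_⟩
    · unfold TIW.en
      rw [h1, h2]
      rfl
    · unfold TIW.de
      rw [h1, h3]
  have key : ∀ p : Spl P K, ∃ p' : Spl P K', (p' : List Bool × List Bool × List Bool).1 = (p : List Bool × List Bool × List Bool).1 ∧
      (p' : List Bool × List Bool × List Bool).2.2 = (p : List Bool × List Bool × List Bool).2.2 ∧
      Fil P (p : List Bool × List Bool × List Bool).2.1 = Fil P (p' : List Bool × List Bool × List Bool).2.1 ∧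
      ∀ q, th P q (p : List Bool × List Bool × List Bool).2.1 = th P q (p' : List Bool × List Bool × List Bool).2.1 := by
    rintro ⟨⟨Q2, M, Q1⟩, h1, h2, h3, h4⟩
    simp only at h1 h2 h3 h4
    have hQl : (Q1 ++ Q2).length = Q1.length + Q2.length := List.length_append
    have hlen := h3.2.1
    rw [hQl] at hlen
    have hlr : (M.length : ℝ) + (Q1.length + Q2.length) = P.N := by exact_mod_cast hlen
    have hQ1 : (Q1.length : ℝ) + Q2.length ≤ P.A * ml P.j := by
      have := h4.2.2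
      linarith
    have g1 : (0 : ℝ) ≤ Q1.length := Nat.cast_nonneg _
    have g2 : (0 : ℝ) ≤ Q2.length := Nat.cast_nonneg _
    have hAm : 0 ≤ P.A * ml P.j := mul_nonneg hA hml.le
    have hAm1 : 0 ≤ P.A1 * ml P.j := mul_nonneg hA1 hml.le
    have hT' : 4 * (P.A * ml P.j) + 4 * (P.A1 * ml P.j) ≤ T := by
      calc _ = 4 * (P.A + P.A1) * ml P.j := by ring
        _ ≤ T := hT
    have k1 : Q1.length ≤ T := by
      have : (Q1.length : ℝ) ≤ T := by linarith
      exact_mod_cast this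
    have k2 : Q2.length ≤ T := by
      have : (Q2.length : ℝ) ≤ T := by linarith
      exact_mod_cast this
    -- the first part of the filling is small
    have hsm : TIW.hn (TIW.en Q2) ≤ 2 ^ (P.j + c0 + 1) := by
      have b1 := hc M (Q1 ++ Q2) h4.1 h3 (Q1 ++ Q2).length le_rfl
      have b2 := hc M (Q1 ++ Q2) h4.1 h3 Q1.length (by rw [hQl]; omega)
      have e1 : vx oo up (Q1 ++ Q2) (Q1 ++ Q2).length = TIW.en Q1 + mulE (TIW.rt Q1) (TIW.en Q2) := mid_en_app Q1 Q2
      have e2 : vx oo up (Q1 ++ Q2) Q1.length = TIW.en Q1 := vx_append (by omega)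
      rw [e1] at b1
      rw [e2] at b2
      have e3 : TIW.hn (TIW.en Q2) = TIW.hn (mulE (TIW.rt Q1) (TIW.en Q2)) := (TIW.hn_mulE (TIW.nrm_rt Q1) _).symm
      have e4 : mulE (TIW.rt Q1) (TIW.en Q2) = (TIW.en Q1 + mulE (TIW.rt Q1) (TIW.en Q2)) - TIW.en Q1 := by abel
      rw [e3, e4, pow_succ]
      have := TIW.hn_sub (TIW.en Q1 + mulE (TIW.rt Q1) (TIW.en Q2)) (TIW.en Q1)
      linarith
    obtain ⟨M', hM', hnr⟩ := nr_mid (cy_mid hK h1 h2) (fun M' e => cy_mid hK' e h2) hl htk hdp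
      ((hen K hK).1.trans (hen K' hK').1.symm) ((hen K hK).2.trans (hen K' hK').2.symm) (by have := hf.1; omega)
      hf.2 hf'.2 h1 k2 k1 hsm (by omega)
    obtain ⟨f1, f2⟩ := fil_locH Hh (by omega) hnr
    have c1 : (P.A + P.A1) * ml P.j ≤ ((T - Q2.length : ℕ) : ℝ) := by
      rw [Nat.cast_sub k2, add_mul]
      linarith
    have c2 : (P.A + P.A1) * ml P.j ≤ ((T - Q1.length : ℕ) : ℝ) := by
      rw [Nat.cast_sub k1, add_mul]
      linarith
    refine ⟨⟨(Q2, M', Q1), hM', h2, ?_, f2 h4⟩, rfl, rfl, f1, fun q => ?_⟩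
    · show Q1 ++ Q2 ∈ Fil P M'
      rw [← f1]
      exact h3
    · exact th_loc Hh hS hA (by omega) (by omega) hnr c1 c2 q
  choose g hg using key
  have hinj : Function.Injective g := by
    intro a b hab
    have e1 : (a : List Bool × List Bool × List Bool).1 = (b : List Bool × List Bool × List Bool).1 := by
      rw [← (hg a).1, ← (hg b).1, hab]
    have e2 : (a : List Bool × List Bool × List Bool).2.2 = (b : List Bool × List Bool × List Bool).2.2 := by
      rw [← (hg a).2.1, ← (hg b).2.1, hab]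
    have ha := a.2.1
    have hb := b.2.1
    rw [← e1, ← e2] at hb
    have e3 := List.append_cancel_right (List.append_cancel_left (ha.symm.trans hb))
    exact Subtype.ext (Prod.ext e1 (Prod.ext e3 e2))
  refine le_trans (le_of_eq ?_) (ENNReal.tsum_comp_le_tsum_of_injective hinj _)
  unfold DD
  refine tsum_congr fun p => ?_
  obtain ⟨a1, a2, a3, a4⟩ := hg p
  rw [a1, a2, ← a3, ← a4]

end

/-- **the density only depends on the window** -/
theorem locD_of (h : LocIn) : LocD := by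
  intro H Mx m w1
  obtain ⟨w0, h⟩ := h H Mx m
  obtain ⟨c0, hc⟩ := fil_small H Mx
  refine ⟨w0 + w1 + c0 + 4, fun P hH hM hm hS hG hA hA1 T w hw hT hN K K' hK hK' hf hf' hwin => ?_⟩
  have hL := h P hH hM hm hG
  exact (dd_le hL hS hA hA1 (hc P hH hM) hw hT hK hK' hf hf' hwin).antisymm
    (dd_le hL hS hA hA1 (hc P hH hM) hw hT hK' hK hf' hf hwin.symm)

end PMA

end HexObs
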