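import Pool.Agent.PMA.LocW

/-!
# PM, row K7a (helper84): the number of the admissible pairs of cuts and the weight of the tips are local

`LH P w0` = the locality of the joining paths (helper76) and of the cuts (helper6).
-/

set_option autoImplicit false

namespace HexObs

namespace PMA

open Finset TS SDN SIM NTA TIP ARM ARM.G3

open scoped ENNReal

/-- the local hypotheses (rows LocJ, LocC) -/
structure LH (P : Par) (w0 : ℕ) : Prop where
  pj : ∀ (T1 T2 w : ℕ) (M M' : List Bool), P.j + w0 ≤ w → Nr2 T1 T2 w M M' → ∀ τ, PJ P M τ → PJ P M' τ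
  sa : ∀ (T1 T2 w : ℕ) (X M M' Y : List Bool), P.j + w0 ≤ w → Nr2 T1 T2 w M M' → In (2 ^ (P.j + P.m)) (rev X) →
    In (2 ^ (P.j + P.m)) Y → TIW.hn (TIW.en M) ≤ 2 ^ (P.j + P.m + 5) → X ++ (M ++ Y) ∈ SA → X ++ (M' ++ Y) ∈ SA
  cp : ∀ (T1 T2 w : ℕ) (X M M' Y : List Bool), P.j + w0 ≤ w → Nr2 T1 T2 w M M' →
    TIW.hn (TIW.en M) ≤ 2 ^ (P.j + P.m + 5) → X ++ (M ++ Y) ∈ SA → CutP P.j P.a P.m P.η X M Y → CutP P.j P.a P.m P.η X M' Y
  hG : ∀ l z, P.G l z → TIW.hn z ≤ 2 ^ P.j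
  w8 : P.m + 8 ≤ w0

/-! ### 1. Words -/

lemma dr_add (X Z : List Bool) (k : ℕ) : (X ++ Z).drop (X.length + k) = Z.drop k := by
  rw [← List.drop_drop, List.drop_left]

/-- the same splitting of a near word -/
lemma spl_tr {T1 T2 : ℕ} {L L' X M Y : List Bool} (hl : L.length = L'.length) (htk : L.take T1 = L'.take T1)
    (hdp : L.drop (L.length - T2) = L'.drop (L'.length - T2)) (htt : T1 + T2 ≤ L.length) (hL : L = X ++ (M ++ Y))
    (hX : X.length ≤ T1) (hY : Y.length ≤ T2) :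
    ∃ M', L' = X ++ (M' ++ Y) ∧ M.length = M'.length ∧ M.take (T1 - X.length) = M'.take (T1 - X.length) ∧
      M.drop (M.length - (T2 - Y.length)) = M'.drop (M'.length - (T2 - Y.length)) := by
  have hll : L.length = X.length + (M.length + Y.length) := by
    rw [hL, List.length_append, List.length_append]
  have h1 : L'.take X.length = X := by
    have e1 : L'.take X.length = (L'.take T1).take X.length := by rw [List.take_take, min_eq_left hX]
    rw [e1, ← htk, List.take_take, min_eq_left hX, hL, List.take_left]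
  have h2 : L'.drop (L'.length - Y.length) = Y := by
    have e1 : L'.drop (L'.length - Y.length) = (L'.drop (L'.length - T2)).drop (T2 - Y.length) := by
      rw [List.drop_drop]
      congr 1
      omega
    have e2 : (L.drop (L.length - T2)).drop (T2 - Y.length) = L.drop (L.length - Y.length) := by
      rw [List.drop_drop]
      congr 1
      omega
    rw [e1, ← hdp, e2, hL, ← List.append_assoc]
    have e3 : (X ++ M ++ Y).length - Y.length = (X ++ M).length := by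
      rw [List.length_append]
      omega
    rw [e3, List.drop_left]
  obtain ⟨M', hM'⟩ : ∃ M' : List Bool, M' = (L'.drop X.length).take (L'.length - Y.length - X.length) := ⟨_, rfl⟩
  have hL' : L' = X ++ (M' ++ Y) := by
    have e1 : (L'.drop X.length).drop (L'.length - Y.length - X.length) = Y := by
      rw [List.drop_drop]
      rw [show X.length + (L'.length - Y.length - X.length) = L'.length - Y.length by omega]
      exact h2
    calc L' = L'.take X.length ++ L'.drop X.length := (List.take_append_drop _ _).symm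
      _ = X ++ L'.drop X.length := by rw [h1]
      _ = X ++ ((L'.drop X.length).take (L'.length - Y.length - X.length) ++
            (L'.drop X.length).drop (L'.length - Y.length - X.length)) := by rw [List.take_append_drop]
      _ = _ := by rw [e1, hM']
  have hlM : M.length = M'.length := by
    have h3 : L'.length = X.length + (M'.length + Y.length) := by
      conv_lhs => rw [hL']
      rw [List.length_append, List.length_append]
    omega
  refine ⟨M', hL', hlM, ?_, ?_⟩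
  · have e1 : L.take T1 = X ++ M.take (T1 - X.length) := by
      rw [hL, List.take_append, List.take_of_length_le hX, List.take_append_of_le_length (by omega)]
    have e2 : L'.take T1 = X ++ M'.take (T1 - X.length) := by
      rw [hL', List.take_append, List.take_of_length_le hX, List.take_append_of_le_length (by omega)]
    rw [e1, e2] at htk
    exact List.append_cancel_left htk
  · have e1 : L.drop (L.length - T2) = M.drop (M.length - (T2 - Y.length)) ++ Y := by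
      have : L.length - T2 = X.length + (M.length - (T2 - Y.length)) := by omega
      rw [this, hL, dr_add, List.drop_append_of_le_length (by omega)]
    have e2 : L'.drop (L'.length - T2) = M'.drop (M'.length - (T2 - Y.length)) ++ Y := by
      have : L'.length - T2 = X.length + (M'.length - (T2 - Y.length)) := by omega
      rw [this]
      conv_lhs => rw [hL']
      rw [dr_add, List.drop_append_of_le_length (by omega)]
    rw [e1, e2] at hdp
    exact List.append_cancel_right hdp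

/-- the end of the middle part -/
lemma mid_en_eq {X M M' Y : List Bool} (he : TIW.en (X ++ (M ++ Y)) = TIW.en (X ++ (M' ++ Y)))
    (hd : TIW.de (X ++ (M ++ Y)) = TIW.de (X ++ (M' ++ Y))) : TIW.en M = TIW.en M' ∧ TIW.de M = TIW.de M' := by
  rw [mid_en_app X, mid_en_app X] at he
  rw [de_app X, de_app X] at hd
  have h1 := mulE_inj (TIW.nrm_rt X) (add_left_cancel he)
  have h2 := mulE_inj (TIW.nrm_rt X) hd
  obtain ⟨-, a, b⟩ := rt_en_eq h1 h2
  exact ⟨a, b⟩

/-- the tips are small -/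
lemma x_near {B : ℕ} {X : List Bool} (hX : In (2 ^ B) (rev X)) {i : ℕ} (hi : i ≤ X.length) :
    TIW.hn (vx oo up X i - TIW.en X) ≤ 3 * 2 ^ B + 4 := by
  obtain ⟨c, hc, h⟩ := RevM.rev_frame X
  have hc1 := mem_dirs.1 hc
  have key : ∀ i, 1 ≤ i → i ≤ X.length → TIW.hn (vx oo up X i - TIW.en X) ≤ 3 * 2 ^ B + 2 := by
    intro i h1 h2
    have e1 := h (X.length + 1 - i) (by omega)
    have e2 := h 1 (by omega)
    rw [show X.length + 1 - (X.length + 1 - i) = i by omega] at e1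
    rw [show X.length + 1 - 1 = X.length by omega] at e2
    have e3 : vx oo up X i - TIW.en X = mulE c (vx oo up (rev X) (X.length + 1 - i) - vx oo up (rev X) 1) := by
      unfold TIW.en
      rw [e1, e2, mulE_sub]
      abel
    rw [e3, TIW.hn_mulE hc1]
    have h3 := mid_hn_In hX (i := X.length + 1 - i) (by rw [rev_length]; omega)
    have h4 : TIW.hn (vx oo up (rev X) 1) = 2 := by
      have := hn_succ (rev X) 0
      have e : vx oo up (rev X) 0 = 0 := rfl
      rwa [e, sub_zero] at this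
    have h5 := TIW.hn_sub (vx oo up (rev X) (X.length + 1 - i)) (vx oo up (rev X) 1)
    push_cast at h3
    linarith
  rcases Nat.eq_zero_or_pos i with h0 | h0
  · rcases Nat.eq_zero_or_pos X.length with h1 | h1
    · have e : vx oo up X i = TIW.en X := by
        unfold TIW.en
        rw [h1, h0]
      rw [e, sub_self]
      have : TIW.hn (0 : Pt) = 0 := by decide
      rw [this]
      positivity
    · have h2 := key 1 le_rfl h1
      have h3 := TIW.hn_tri (vx oo up X i) (vx oo up X 1) (TIW.en X)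
      have h4 := hn_succ X 0
      rw [h0] at h3 ⊢
      rw [TIW.hn_sub_comm] at h4
      rw [zero_add] at h4
      linarith
  · have := key i h0 hi
    linarith

lemma en_x {B : ℕ} {X : List Bool} (hX : In (2 ^ B) (rev X)) : TIW.hn (TIW.en X) ≤ 7 * 2 ^ B := by
  have h := x_near hX (Nat.zero_le _)
  have e : vx oo up X 0 = 0 := rfl
  rw [e, zero_sub, TIW.hn_neg] at h
  have : (1 : ℤ) ≤ 2 ^ B := one_le_pow₀ (by norm_num)
  linarith

/-- the end of the outer part -/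
lemma en_m {B : ℕ} {X M Y : List Bool} (hX : In (2 ^ B) (rev X)) (hY : In (2 ^ B) Y)
    (hL : TIW.hn (TIW.en (X ++ (M ++ Y))) ≤ 2 ^ B) : TIW.hn (TIW.en M) ≤ 2 ^ (B + 5) := by
  have h1 := en_x hX
  have h2 : TIW.hn (TIW.en Y) ≤ 3 * 2 ^ B := by
    have := mid_hn_In hY le_rfl
    push_cast at this
    exact this
  rw [mid_en_app, mid_en_app] at hL
  have e1 : TIW.hn (TIW.en M) = TIW.hn (mulE (TIW.rt X) (TIW.en M)) := (TIW.hn_mulE (TIW.nrm_rt X) _).symm
  have e2 : mulE (TIW.rt X) (TIW.en M) = (TIW.en X + mulE (TIW.rt X) (TIW.en M + mulE (TIW.rt M) (TIW.en Y))) - TIW.en X -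
      mulE (TIW.rt X) (mulE (TIW.rt M) (TIW.en Y)) := by
    rw [mulE_add]
    abel
  rw [e1, e2]
  have h3 := TIW.hn_sub ((TIW.en X + mulE (TIW.rt X) (TIW.en M + mulE (TIW.rt M) (TIW.en Y))) - TIW.en X)
    (mulE (TIW.rt X) (mulE (TIW.rt M) (TIW.en Y)))
  have h4 := TIW.hn_sub (TIW.en X + mulE (TIW.rt X) (TIW.en M + mulE (TIW.rt M) (TIW.en Y))) (TIW.en X)
  rw [TIW.hn_mulE (TIW.nrm_rt X), TIW.hn_mulE (TIW.nrm_rt M)] at h3
  have e3 : (2 : ℤ) ^ (B + 5) = 32 * 2 ^ B := by rw [pow_add]; ring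
  have h5 : (0 : ℤ) < 2 ^ B := by positivity
  rw [e3]
  linarith

/-! ### 2. Near words and their middle parts -/

/-- the middle part between two small pieces, the first piece is known to be small -/
lemma nr_mid {T1 T2 w B : ℕ} {L L' X M Y : List Bool} (hsM : M ∈ SA) (hsM' : ∀ M', L' = X ++ (M' ++ Y) → M' ∈ SA)
    (hl : L.length = L'.length) (htk : L.take T1 = L'.take T1) (hdp : L.drop (L.length - T2) = L'.drop (L'.length - T2))
    (hen : TIW.en L = TIW.en L') (hde : TIW.de L = TIW.de L') (htt : T1 + T2 ≤ L.length)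
    (hfar : ∀ i, T1 ≤ i → i + T2 ≤ L.length → 2 ^ w < TIW.hn (vx oo up L i))
    (hfar' : ∀ i, T1 ≤ i → i + T2 ≤ L'.length → 2 ^ w < TIW.hn (vx oo up L' i)) (hL : L = X ++ (M ++ Y))
    (hX : X.length ≤ T1) (hY : Y.length ≤ T2) (hXs : TIW.hn (TIW.en X) ≤ 2 ^ B) (hB : B + 1 ≤ w) :
    ∃ M', L' = X ++ (M' ++ Y) ∧ Nr2 (T1 - X.length) (T2 - Y.length) (w - 1) M M' := by
  obtain ⟨M', hL', h1, h2, h3⟩ := spl_tr hl htk hdp htt hL hX hY
  have hll : L.length = X.length + (M.length + Y.length) := by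
    rw [hL, List.length_append, List.length_append]
  have h4 : TIW.en M = TIW.en M' ∧ TIW.de M = TIW.de M' := by
    rw [hL, hL'] at hen hde
    exact mid_en_eq hen hde
  have hpw : (2 : ℤ) ^ w = 2 ^ (w - 1) + 2 ^ (w - 1) := by
    obtain ⟨v, rfl⟩ : ∃ v, w = v + 1 := ⟨w - 1, by omega⟩
    rw [Nat.add_sub_cancel, pow_succ]
    ring
  have hpB : (2 : ℤ) ^ B ≤ 2 ^ (w - 1) := pow_le_pow_right₀ (by norm_num) (by omega)
  have key : ∀ (Z Z' : List Bool), Z = X ++ (Z' ++ Y) → ∀ i, i ≤ Z'.length → 2 ^ w < TIW.hn (vx oo up Z (X.length + i)) →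
      2 ^ (w - 1) < TIW.hn (vx oo up Z' i) := by
    intro Z Z' hZ i hi h
    rw [hZ, TIW.vx_app, vx_append (by omega)] at h
    have h5 := TIW.hn_add (TIW.en X) (mulE (TIW.rt X) (vx oo up Z' i))
    rw [TIW.hn_mulE (TIW.nrm_rt X)] at h5
    linarith
  refine ⟨M', hL', ⟨hsM, hsM' M' hL', h1, h2, h3, h4.1, h4.2, by omega, fun i hi1 hi2 => ?_, fun i hi1 hi2 => ?_⟩⟩
  · exact key L M hL i (by omega) (hfar _ (by omega) (by omega))
  · exact key L' M' hL' i (by omega) (hfar' _ (by omega) (by omega))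

/-- **the middle part of near words** -/
lemma Nr2.mid {T1 T2 w B : ℕ} {L L' X M Y : List Bool} (h : Nr2 T1 T2 w L L') (hL : L = X ++ (M ++ Y))
    (hX : X.length ≤ T1) (hY : Y.length ≤ T2) (hXs : TIW.hn (TIW.en X) ≤ 2 ^ B) (hB : B + 1 ≤ w) :
    ∃ M', L' = X ++ (M' ++ Y) ∧ Nr2 (T1 - X.length) (T2 - Y.length) (w - 1) M M' := by
  have hm : ∀ Z Z' : List Bool, Z ∈ SA → Z = X ++ (Z' ++ Y) → Z' ∈ SA := by
    intro Z Z' hZ e
    rw [e] at hZ
    exact pre_SA (suf_SA hZ)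
  exact nr_mid (hm L M h.sa hL) (fun M' e => hm L' M' h.sa' e) h.len h.tk h.dp h.en h.de h.tt h.far h.far' hL hX hY hXs hB

/-- **near words from near middle parts** -/
lemma Nr2.out {T1 T2 w B : ℕ} {X M M' Y : List Bool} (h : Nr2 T1 T2 w M M') (hs : X ++ (M ++ Y) ∈ SA)
    (hs' : X ++ (M' ++ Y) ∈ SA) (hXs : TIW.hn (TIW.en X) ≤ 2 ^ B) (hB : B + 1 ≤ w) :
    Nr2 (T1 + X.length) (T2 + Y.length) (w - 1) (X ++ (M ++ Y)) (X ++ (M' ++ Y)) := by
  have hll : ∀ Z : List Bool, (X ++ (Z ++ Y)).length = X.length + (Z.length + Y.length) := by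
    intro Z
    rw [List.length_append, List.length_append]
  have hl := h.len
  have ht := h.tt
  have hpw : (2 : ℤ) ^ w = 2 ^ (w - 1) + 2 ^ (w - 1) := by
    obtain ⟨v, rfl⟩ : ∃ v, w = v + 1 := ⟨w - 1, by omega⟩
    rw [Nat.add_sub_cancel, pow_succ]
    ring
  have hpB : (2 : ℤ) ^ B ≤ 2 ^ (w - 1) := pow_le_pow_right₀ (by norm_num) (by omega)
  have htk : ∀ Z : List Bool, T1 ≤ Z.length → (X ++ (Z ++ Y)).take (T1 + X.length) = X ++ Z.take T1 := by
    intro Z hZ
    rw [List.take_append, List.take_of_length_le (by omega), Nat.add_sub_cancel, List.take_append_of_le_length hZ]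
  have hdp : ∀ Z : List Bool, T2 ≤ Z.length →
      (X ++ (Z ++ Y)).drop ((X ++ (Z ++ Y)).length - (T2 + Y.length)) = Z.drop (Z.length - T2) ++ Y := by
    intro Z hZ
    rw [hll, show X.length + (Z.length + Y.length) - (T2 + Y.length) = X.length + (Z.length - T2) by omega,
      dr_add, List.drop_append_of_le_length (by omega)]
  have hen : ∀ Z : List Bool, TIW.en (X ++ (Z ++ Y)) = TIW.en X + mulE (TIW.rt X) (TIW.en Z + mulE (TIW.rt Z) (TIW.en Y)) := by
    intro Z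
    rw [mid_en_app, mid_en_app]
  have hde : ∀ Z : List Bool, TIW.de (X ++ (Z ++ Y)) = mulE (TIW.rt X) (mulE (TIW.rt Z) (TIW.de Y)) := by
    intro Z
    rw [de_app, de_app]
  have key : ∀ Z : List Bool, ∀ i, T1 + X.length ≤ i → i + (T2 + Y.length) ≤ (X ++ (Z ++ Y)).length →
      (∀ i, T1 ≤ i → i + T2 ≤ Z.length → 2 ^ w < TIW.hn (vx oo up Z i)) → 2 ^ (w - 1) < TIW.hn (vx oo up (X ++ (Z ++ Y)) i) := by
    intro Z i h1 h2 hf
    rw [hll] at h2
    obtain ⟨k, rfl⟩ : ∃ k, i = X.length + k := ⟨i - X.length, by omega⟩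
    rw [TIW.vx_app, vx_append (by omega)]
    have h3 := hf k (by omega) (by omega)
    have e1 : TIW.hn (vx oo up Z k) = TIW.hn (mulE (TIW.rt X) (vx oo up Z k)) := (TIW.hn_mulE (TIW.nrm_rt X) _).symm
    have e2 : mulE (TIW.rt X) (vx oo up Z k) = (TIW.en X + mulE (TIW.rt X) (vx oo up Z k)) - TIW.en X := by abel
    rw [e1, e2] at h3
    have h4 := TIW.hn_sub (TIW.en X + mulE (TIW.rt X) (vx oo up Z k)) (TIW.en X)
    linarith
  refine ⟨hs, hs', ?_, ?_, ?_, ?_, ?_, ?_, fun i h1 h2 => key M i h1 h2 h.far, fun i h1 h2 => key M' i h1 h2 h.far'⟩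
  · rw [hll, hll, hl]
  · rw [htk M (by omega), htk M' (by omega), h.tk]
  · rw [hdp M (by omega), hdp M' (by omega), h.dp]
  · rw [hen, hen, h.en, h.ends]
  · rw [hde, hde, h.ends]
  · rw [hll]
    omega

/-! ### 3. The admissible pairs of cuts -/

variable {P : Par} {w0 : ℕ}

lemma adm_en (H : LH P w0) {X M Y : List Bool} (ha : Adm P X M Y) : TIW.hn (TIW.en M) ≤ 2 ^ (P.j + P.m + 5) := by
  obtain ⟨⟨-, hG⟩, ⟨⟨-, hY, -⟩, -, hX, -⟩, -, -⟩ := ha
  refine en_m hX hY ((H.hG _ _ hG).trans ?_)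
  exact pow_le_pow_right₀ (by norm_num) (by omega)

/-- **admissible pairs are local** -/
lemma adm_loc (H : LH P w0) {T1 T2 w : ℕ} {X M M' Y : List Bool} (hw : P.j + w0 ≤ w) (h : Nr2 T1 T2 w M M')
    (ha : Adm P X M Y) : Adm P X M' Y := by
  have hem := adm_en H ha
  obtain ⟨⟨hs, hG⟩, hC, ⟨⟨τ, hτ⟩, h1, h2⟩, h3⟩ := ha
  obtain ⟨⟨-, hY, -⟩, -, hX, -⟩ := id hC
  have hl := h.len
  refine ⟨⟨H.sa T1 T2 w X M M' Y hw h hX hY hem hs, ?_⟩, H.cp T1 T2 w X M M' Y hw h hem hs hC, ⟨⟨τ, H.pj T1 T2 w M M' hw h τ hτ⟩, ?_, ?_⟩, h3⟩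
  · have e1 : (X ++ (M' ++ Y)).length = (X ++ (M ++ Y)).length := by
      rw [List.length_append, List.length_append, List.length_append, List.length_append, hl]
    have e2 : TIW.en (X ++ (M' ++ Y)) = TIW.en (X ++ (M ++ Y)) := by
      rw [mid_en_app, mid_en_app, mid_en_app, mid_en_app, h.en, h.ends]
    rw [e1, e2]
    exact hG
  · rw [← hl]
    exact h1
  · rw [← hl]
    exact h2

/-- the pairs (X, Y) of the admissible pairs of cuts -/
def AX (P : Par) (L : List Bool) : Set (List Bool × List Bool) := {p | ∃ M, L = p.1 ++ (M ++ p.2) ∧ Adm P p.1 M p.2}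

lemma nn_ax (L : List Bool) : NN P L = (AX P L).ncard := by
  have e : AX P L = (fun p : List Bool × List Bool × List Bool => (p.1, p.2.2)) '' AD P L := by
    ext p
    constructor
    · rintro ⟨M, h1, h2⟩
      exact ⟨(p.1, M, p.2), ⟨h1, h2⟩, rfl⟩
    · rintro ⟨q, ⟨h1, h2⟩, rfl⟩
      exact ⟨q.2.1, h1, h2⟩
  unfold NN
  rw [e, Set.InjOn.ncard_image]
  rintro ⟨X, M, Y⟩ ⟨h1, -⟩ ⟨X', M', Y'⟩ ⟨h1', -⟩ h
  obtain ⟨rfl, rfl⟩ := Prod.mk.inj h
  have h2 := List.append_cancel_right (List.append_cancel_left (h1.symm.trans h1'))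
  rw [Prod.mk.injEq, Prod.mk.injEq]
  exact ⟨rfl, h2, rfl⟩

lemma xy_len {T : ℕ} {X M Y : List Bool} (hT : P.A1 * ml P.j ≤ T) (ha : Adm P X M Y) : X.length ≤ T ∧ Y.length ≤ T := by
  have h := ha.2.2.2.trans hT
  have h0 : (0 : ℝ) ≤ X.length := Nat.cast_nonneg _
  have h1 : (0 : ℝ) ≤ Y.length := Nat.cast_nonneg _
  constructor
  · have : (X.length : ℝ) ≤ T := by linarith
    exact_mod_cast this
  · have : (Y.length : ℝ) ≤ T := by linarith
    exact_mod_cast this

lemma adm_x {X M Y : List Bool} (ha : Adm P X M Y) : TIW.hn (TIW.en X) ≤ 2 ^ (P.j + P.m + 3) := by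
  have h := en_x ha.2.1.2.2.1
  refine h.trans ?_
  rw [pow_add _ (P.j + P.m) 3]
  have : (0 : ℤ) < 2 ^ (P.j + P.m) := by positivity
  linarith

lemma ax_sub (H : LH P w0) {T1 T2 w : ℕ} {L L' : List Bool} (hw : P.j + w0 + 1 ≤ w) (h : Nr2 T1 T2 w L L')
    (hT1 : P.A1 * ml P.j ≤ T1) (hT2 : P.A1 * ml P.j ≤ T2) : AX P L ⊆ AX P L' := by
  rintro ⟨X, Y⟩ ⟨M, h1, h2⟩
  have h8 := H.w8
  obtain ⟨M', h3, h4⟩ := h.mid h1 (xy_len hT1 h2).1 (xy_len hT2 h2).2 (adm_x h2) (by omega)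
  exact ⟨M', h3, adm_loc H (by omega) h4 h2⟩

/-- **the number of the admissible pairs is local** -/
lemma nn_loc (H : LH P w0) {T1 T2 w : ℕ} {L L' : List Bool} (hw : P.j + w0 + 1 ≤ w) (h : Nr2 T1 T2 w L L')
    (hT1 : P.A1 * ml P.j ≤ T1) (hT2 : P.A1 * ml P.j ≤ T2) : NN P L = NN P L' := by
  rw [nn_ax, nn_ax, (ax_sub H hw h hT1 hT2).antisymm (ax_sub H hw h.symm hT1 hT2)]

lemma many_loc (H : LH P w0) {w1 : ℕ} (hS : LocS P w1) (hA : 0 ≤ P.A) {T1 T2 w : ℕ} {L L' : List Bool}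
    (hw : P.j + w0 + 1 ≤ w) (hw1 : P.j + w1 ≤ w) (h : Nr2 T1 T2 w L L') (hT1 : (P.A + P.A1) * ml P.j ≤ T1)
    (hT2 : (P.A + P.A1) * ml P.j ≤ T2) : Many P L ↔ Many P L' := by
  have hml : 0 ≤ P.A * ml P.j := by
    unfold ml
    positivity
  rw [add_mul] at hT1 hT2
  unfold Many
  rw [nn_loc H hw h (by linarith) (by linarith)]
  have := hS T1 T2 w L L' hw1 h (by rw [add_mul]; exact hT1) (by rw [add_mul]; exact hT2)
  rw [this]

/-! ### 4. The weight of the tips -/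

lemma th_le (H : LH P w0) {w1 : ℕ} (hS : LocS P w1) (hA : 0 ≤ P.A) {T1 T2 w : ℕ} {M M' : List Bool}
    (hw : P.j + w0 + 2 ≤ w) (hw1 : P.j + w1 + 1 ≤ w) (h : Nr2 T1 T2 w M M') (hT1 : (P.A + P.A1) * ml P.j ≤ T1)
    (hT2 : (P.A + P.A1) * ml P.j ≤ T2) (q : ℕ) : th P q M ≤ th P q M' := by
  have h8 := H.w8
  have hml : 0 ≤ P.A * ml P.j := by
    unfold ml
    positivity
  have key : ∀ p : List Bool × List Bool, Adm P p.1 M p.2 → Adm P p.1 M' p.2 ∧
      Nr2 (T1 + p.1.length) (T2 + p.2.length) (w - 1) (p.1 ++ (M ++ p.2)) (p.1 ++ (M' ++ p.2)) := by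
    intro p hp
    have h2 := adm_loc H (by omega) h hp
    exact ⟨h2, h.out hp.1.1 h2.1.1 (adm_x hp) (by omega)⟩
  have hc : ∀ (T : ℕ) (x : ℕ), (P.A + P.A1) * ml P.j ≤ T → (P.A + P.A1) * ml P.j ≤ ((T + x : ℕ) : ℝ) := by
    intro T x hT
    push_cast
    have : (0 : ℝ) ≤ x := Nat.cast_nonneg _
    linarith
  have hc1 : ∀ (T : ℕ), (P.A + P.A1) * ml P.j ≤ T → P.A1 * ml P.j ≤ T := by
    intro T hT
    rw [add_mul] at hT
    linarith
  have hin : ∀ p : List Bool × List Bool, (Adm P p.1 M p.2 ∧ Many P (p.1 ++ (M ++ p.2)) ∧ p.1.length % 2 = q % 2) →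
      (Adm P p.1 M' p.2 ∧ Many P (p.1 ++ (M' ++ p.2)) ∧ p.1.length % 2 = q % 2) := by
    rintro p ⟨h1, h2, h3⟩
    obtain ⟨h4, h5⟩ := key p h1
    exact ⟨h4, (many_loc H hS hA (by omega) (by omega) h5 (hc _ _ hT1) (hc _ _ hT2)).1 h2, h3⟩
  obtain ⟨f, hf⟩ : ∃ f : {p : List Bool × List Bool | Adm P p.1 M p.2 ∧ Many P (p.1 ++ (M ++ p.2)) ∧ p.1.length % 2 = q % 2} →
      {p : List Bool × List Bool | Adm P p.1 M' p.2 ∧ Many P (p.1 ++ (M' ++ p.2)) ∧ p.1.length % 2 = q % 2},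
      f = fun p => ⟨p.1, hin p.1 p.2⟩ := ⟨_, rfl⟩
  have hinj : Function.Injective f := by
    intro a b hab
    rw [hf] at hab
    exact Subtype.ext (Subtype.mk.inj hab)
  refine le_trans (le_of_eq ?_) (ENNReal.tsum_comp_le_tsum_of_injective hinj _)
  unfold th
  refine tsum_congr fun p => ?_
  rw [hf]
  obtain ⟨h4, h5⟩ := key p.1 p.2.1
  have e := nn_loc H (by omega) h5 (hc1 _ (hc _ _ hT1)) (hc1 _ (hc _ _ hT2))
  show wE p.1.1 * wE p.1.2 / (NN P (p.1.1 ++ (M ++ p.1.2)) : ℝ≥0∞) = wE p.1.1 * wE p.1.2 / (NN P (p.1.1 ++ (M' ++ p.1.2)) : ℝ≥0∞)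
  rw [e]

/-- **the weight of the tips is local** -/
lemma th_loc (H : LH P w0) {w1 : ℕ} (hS : LocS P w1) (hA : 0 ≤ P.A) {T1 T2 w : ℕ} {M M' : List Bool}
    (hw : P.j + w0 + 2 ≤ w) (hw1 : P.j + w1 + 1 ≤ w) (h : Nr2 T1 T2 w M M') (hT1 : (P.A + P.A1) * ml P.j ≤ T1)
    (hT2 : (P.A + P.A1) * ml P.j ≤ T2) (q : ℕ) : th P q M = th P q M' :=
  (th_le H hS hA hw hw1 h hT1 hT2 q).antisymm (th_le H hS hA hw hw1 h.symm hT1 hT2 q)

/-- **the paths and the fillings are local** -/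
lemma fil_locH (H : LH P w0) {T1 T2 w : ℕ} {M M' : List Bool} (hw : P.j + w0 ≤ w) (h : Nr2 T1 T2 w M M') :
    Fil P M = Fil P M' ∧ (Out P M → Out P M') := by
  have e := pth_congr (P := P) (M := M) (M' := M') fun τ =>
    ⟨H.pj T1 T2 w M M' hw h τ, H.pj T1 T2 w M' M hw h.symm τ⟩
  refine ⟨?_, ?_⟩
  · unfold Fil TP rc
    rw [e, h.en, h.ends, h.len]
  · rintro ⟨⟨τ, hτ⟩, h1, h2⟩
    have hl := h.len
    exact ⟨⟨τ, H.pj T1 T2 w M M' hw h τ hτ⟩, hl ▸ h1, hl ▸ h2⟩

end PMA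

end HexObs
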