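import Pool.Agent.PMA.Defs
import Pool.Agent.ARM.Mid

/-!
# PM, row K7a (helper84): near words

Two words with the same number of letters, the same letters at both ends and the same end: the vertices near both ends are the
same (`Nr2.vl`, `Nr2.vr`); the other vertices are far (`Nr2.far`).
-/

set_option autoImplicit false

namespace HexObs

namespace PMA

open Finset TS SDN SIM NTA TIP ARM

open scoped ENNReal

/-- the frame in front of a common last part -/
lemma rt_en_eq {A A' B : List Bool} (he : TIW.en (A ++ B) = TIW.en (A' ++ B)) (hd : TIW.de (A ++ B) = TIW.de (A' ++ B)) :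
    TIW.rt A = TIW.rt A' ∧ TIW.en A = TIW.en A' ∧ TIW.de A = TIW.de A' := by
  rw [de_app, de_app, mulE_comm (TIW.rt A), mulE_comm (TIW.rt A')] at hd
  have h1 : TIW.rt A = TIW.rt A' := mulE_inj (mem_dirs.1 (TIW.de_mem B)) hd
  rw [mid_en_app, mid_en_app, h1] at he
  refine ⟨h1, add_right_cancel he, ?_⟩
  rw [← TIW.rt_up A, ← TIW.rt_up A', h1]

namespace Nr2

variable {T1 T2 w : ℕ} {M M' : List Bool}

lemma symm (h : Nr2 T1 T2 w M M') : Nr2 T1 T2 w M' M where
  sa := h.sa'
  sa' := h.sa
  len := h.len.symm
  tk := h.tk.symm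
  dp := h.dp.symm
  en := h.en.symm
  de := h.de.symm
  tt := h.len ▸ h.tt
  far := h.far'
  far' := h.far

/-- the vertices near the start -/
lemma vl (h : Nr2 T1 T2 w M M') {i : ℕ} (hi : i ≤ T1 + 1) : vx oo up M i = vx oo up M' i := by
  have hl : (M.take T1).length = T1 := by
    rw [List.length_take]
    have := h.tt
    omega
  have e1 : vx oo up M i = vx oo up (M.take T1) i := by
    rw [← vx_append (v0 := oo) (d0 := up) (t := M.take T1) (s := M.drop T1) (by omega), List.take_append_drop]
  have hl' : (M'.take T1).length = T1 := by rw [← h.tk, hl]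
  have e2 : vx oo up M' i = vx oo up (M'.take T1) i := by
    rw [← vx_append (v0 := oo) (d0 := up) (t := M'.take T1) (s := M'.drop T1) (by omega), List.take_append_drop]
  rw [e1, e2, h.tk]

/-- the splitting in front of the last `T2` letters -/
lemma spl (h : Nr2 T1 T2 w M M') : TIW.rt (M.take (M.length - T2)) = TIW.rt (M'.take (M'.length - T2)) ∧
    TIW.en (M.take (M.length - T2)) = TIW.en (M'.take (M'.length - T2)) := by
  have h1 := h.en
  have h2 := h.de
  rw [← List.take_append_drop (M.length - T2) M, ← List.take_append_drop (M'.length - T2) M', ← h.dp] at h1 h2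
  obtain ⟨a, b, -⟩ := rt_en_eq h1 h2
  exact ⟨a, b⟩

/-- the vertices near the end -/
lemma vr (h : Nr2 T1 T2 w M M') {i : ℕ} (hi : M.length ≤ i + T2) : vx oo up M i = vx oo up M' i := by
  obtain ⟨h1, h2⟩ := h.spl
  have ht := h.tt
  have hl : (M.take (M.length - T2)).length = M.length - T2 := by
    rw [List.length_take]
    omega
  have hl' : (M'.take (M'.length - T2)).length = M.length - T2 := by
    rw [List.length_take, ← h.len]
    omega
  obtain ⟨k, hk⟩ : ∃ k, i = M.length - T2 + k := ⟨i - (M.length - T2), by omega⟩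
  have e1 := TIW.vx_app (M.take (M.length - T2)) (M.drop (M.length - T2)) k
  have e2 := TIW.vx_app (M'.take (M'.length - T2)) (M'.drop (M'.length - T2)) k
  rw [List.take_append_drop, hl] at e1
  rw [List.take_append_drop, hl'] at e2
  rw [hk, e1, e2, h1, h2, h.dp]

/-- a vertex in the ball is a common vertex -/
lemma near (h : Nr2 T1 T2 w M M') {i : ℕ} (hn : TIW.hn (vx oo up M i) ≤ 2 ^ w ∨ TIW.hn (vx oo up M' i) ≤ 2 ^ w) :
    vx oo up M i = vx oo up M' i := by
  rcases le_or_gt i T1 with h1 | h1
  · exact h.vl (by omega)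
  · rcases le_or_gt M.length (i + T2) with h2 | h2
    · exact h.vr h2
    · rcases hn with h3 | h3
      · exact absurd (h.far i h1.le h2.le) (not_lt.2 h3)
      · have h4 := h.len
        exact absurd (h.far' i h1.le (by omega)) (not_lt.2 h3)

lemma ends (h : Nr2 T1 T2 w M M') : TIW.rt M = TIW.rt M' := by
  unfold TIW.rt
  rw [h.de]

end Nr2

end PMA

end HexObs
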