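import Pool.Agent.ARM.NcBG
import Pool.Agent.ARM2.SnakeW
import Pool.Agent.ARM.PlcW

/-!
# PM, row K3 (helper94): long bridges in a small box

* **`longBr`**: the bridges with all vertices in the ball of radius `2 ^ k` and with a given number of letters, up to a window
  `ml k` and up to any multiple of `ml k`, have a mass of at least `c * Ub k`. (Serpentine of helper51, chain of helper87.)
-/

set_option autoImplicit false

namespace HexObs

namespace PMA

open Finset TIW TS SDN NTA TIP ARM AR ARM.NB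

open scoped ENNReal

/-! ### 1. The chain along the serpentine -/

theorem chnS {h M k : ℕ} {D : ℤ} {a A1 c0 κ : ℝ} {m m1 W lam : ℕ} (hh : 3 ≤ h) (hT : TubeK k D a A1 c0) (hc0 : 0 ≤ c0)
    (hD : 1026 * 2 ^ k < D) (hm : 12 * m ≤ 2 ^ k) (hm1 : 2 * m1 ≤ W) (ha : 0 ≤ a) (h1 : (W : ℝ) + a * ml k ≤ lam)
    (h2 : 4 * (lam : ℝ) + W ≤ A1 * ml k) (hκ0 : 0 ≤ κ) (hκ1 : κ ≤ 1)
    (hκ : κ * Ub k ≤ m * m * m1 * (c0 * (Ub k / (4 ^ k * ml k)))) :
    ∀ p, 1 ≤ p → p ≤ sR h M → ENNReal.ofReal (κ ^ p * Ub k) ≤ gf (CC (sn h M) D k p (p * lam) W (1 * lam + W)) := by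
  have hU := Ub_pos k
  have hml := ARM.NB.ml_pos k
  have hP := sn_path (h := h) (M := M) (by omega)
  have hW : (0 : ℝ) ≤ W := Nat.cast_nonneg _
  have hl0 : (0 : ℝ) ≤ lam := Nat.cast_nonneg _
  intro p
  induction p using Nat.strong_induction_on with
  | _ p ih =>
    intro hp hpR
    rcases Nat.lt_or_ge p 2 with h3 | h3
    · have h4 : p = 1 := by omega
      subst h4
      rw [pow_one]
      refine base hT hc0 (hP.le hpR) hm hm1 ?_ ?_ hκ
      · push_cast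
        linarith
      · push_cast
        linarith
    · obtain ⟨p', g1, g2, g3, g4⟩ : ∃ p', 1 ≤ p' ∧ p' < p ∧ p ≤ p' + 4 ∧ str (sn h M) p' := by
        obtain ⟨p', f1, f2, f3⟩ := sn_gap (M := M) hh hp
        rcases Nat.eq_zero_or_pos p' with h4 | h4
        · refine ⟨1, le_rfl, by omega, by omega, ?_⟩
          unfold str sn
          rw [if_pos (by omega), if_pos (by omega)]
        · rcases f3 with f3 | f3
          · omega
          · exact ⟨p', h4, f1, f2, f3⟩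
      obtain ⟨r, rfl⟩ : ∃ r, p = p' + r := ⟨p - p', by omega⟩
      have g5 := ih p' g2 g1 (by omega)
      have hr1 : (1 : ℝ) ≤ r := by exact_mod_cast (by omega : 1 ≤ r)
      have hr4 : (r : ℝ) ≤ 4 := by exact_mod_cast (by omega : r ≤ 4)
      refine le_trans (ENNReal.ofReal_le_ofReal ?_) (step (x := κ ^ p') hT hc0 (hP.le hpR) g1 (by omega) (by omega) g4 hD hm
        hm1 ha ?_ ?_ hκ0 hκ (pow_nonneg hκ0 _) g5)
      · refine mul_le_mul_of_nonneg_right ?_ hU.le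
        rw [← pow_succ]
        exact pow_le_pow_of_le_one hκ0 hκ1 (by omega)
      · push_cast
        nlinarith
      · push_cast
        nlinarith

/-! ### 2. The words along the serpentine are bridges -/

lemma ns_low {e : ℕ → Pt} {D w b : ℤ} {j : ℕ} {y : Pt} (h1 : ip (ps e j) up ≤ b) (h2 : ip (ps e (j + 1)) up ≤ b)
    (h : NS (pv e D j) (e j) D w y) : ip y up ≤ D * b + w := by
  obtain ⟨t, h3, h4, h5⟩ := h
  have e1 : y = (y - (pv e D j + t • e j)) + (pv e D j + t • e j) := by abel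
  have h6 := ip_le_hn (y - (pv e D j + t • e j)) upd'
  have e2 : ip y up = ip (y - (pv e D j + t • e j)) up + (D * ip (ps e j) up + t * ip (e j) up) := by
    conv_lhs => rw [e1]
    unfold pv
    rw [ip_add_left, ip_add_left, ip_smul, ip_smul]
  rw [ps_succ, ip_add_left] at h2
  have h7 : D * ip (ps e j) up + t * ip (e j) up ≤ D * b := by
    nlinarith [mul_nonneg (sub_nonneg.2 h4) (sub_nonneg.2 h1), mul_nonneg h3 (by linarith : 0 ≤ b - (ip (ps e j) up + ip (e j) up))]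
  rw [e2]
  linarith

lemma hn_sn {h M j : ℕ} (hj : j ≤ sR h M) : hn (ps (sn h M) j) ≤ 8 * M + 2 * h + 8 := by
  obtain ⟨b1, b2, b3, b4, -, -⟩ := sn_box hj
  generalize ps (sn h M) j = p at b1 b2 b3 b4
  obtain ⟨x, y⟩ := p
  have hip : ip ((x, y) : Pt) up = x + 2 * y := by
    simp only [ip, up]
    ring
  rw [hip] at b3 b4
  simp only at b1 b2
  have hM : (0 : ℤ) ≤ M := Int.natCast_nonneg _
  have hh : (0 : ℤ) ≤ h := Int.natCast_nonneg _
  refine hn_le fun d hd => ?_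
  rcases dir_cases upd' hd with rfl | rfl | rfl | rfl | rfl | rfl
  · simp only [ip, up]; linarith
  · rw [ip_neg_right]; simp only [ip, up]; linarith
  · simp only [ip, rotL, up]; linarith
  · rw [ip_neg_right]; simp only [ip, rotL, up]; linarith
  · simp only [ip, rotR, up]; linarith
  · rw [ip_neg_right]; simp only [ip, rotR, up]; linarith

lemma ns_pos {e : ℕ → Pt} {D w : ℤ} {j : ℕ} {y : Pt} (h1 : 1 ≤ ip (ps e j) up) (h2 : 1 ≤ ip (ps e (j + 1)) up)
    (h : NS (pv e D j) (e j) D w y) : D - w ≤ ip y up := by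
  obtain ⟨t, h3, h4, h5⟩ := h
  have e1 : y = (y - (pv e D j + t • e j)) + (pv e D j + t • e j) := by abel
  have h6 := neg_hn_le_ip (y - (pv e D j + t • e j)) upd'
  have e2 : ip y up = ip (y - (pv e D j + t • e j)) up + (D * ip (ps e j) up + t * ip (e j) up) := by
    conv_lhs => rw [e1]
    unfold pv
    rw [ip_add_left, ip_add_left, ip_smul, ip_smul]
  rw [ps_succ, ip_add_left] at h2
  have h7 : D ≤ D * ip (ps e j) up + t * ip (e j) up := by
    nlinarith [mul_nonneg (sub_nonneg.2 h4) (sub_nonneg.2 h1), mul_nonneg h3 (by linarith : 0 ≤ ip (ps e j) up + ip (e j) up - 1)]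
  rw [e2]
  linarith

/-- **the words up to the last vertex of the serpentine are bridges in a box** -/
theorem cc_bu {h M k L W l1 : ℕ} {D : ℤ} {A : List Bool} (hh : 3 ≤ h) (hD : 1026 * 2 ^ k < D)
    (hA : A ∈ CC (sn h M) D k (sR h M) L W l1) : A ∈ BU ∧
      (∀ i, i ≤ A.length → hn (vx oo up A i) ≤ D * (8 * M + 2 * h + 11)) ∧ L ≤ A.length ∧ A.length ≤ L + W := by
  obtain ⟨z, g1, g2, g3, g4, -⟩ := hA
  have hP := sn_path (h := h) (M := M) (by omega)
  have hR : h + 4 ≤ sR h M := by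
    unfold sR
    omega
  have hk0 : (1 : ℤ) ≤ 2 ^ k := one_le_pow₀ (by norm_num)
  have hD0 : 0 ≤ D := by linarith
  have hup : sn h M (sR h M - 1) = up := by
    unfold sn sR
    rw [if_neg (by omega), show (2 * h + 4) * M + (h + 4) - 1 - 2 = (2 * h + 4) * M + (h + 1) by omega, snk_up]
  -- the level of the end
  have hend : ip (ps (sn h M) (sR h M)) up = 2 * h + 8 := by
    have e1 : sR h M = 2 + ((2 * h + 4) * M + (h + 2)) := by
      unfold sR
      omega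
    rw [e1, sn_ps, snk_ps']
    simp only [ip, up, Prod.mk_add_mk]
    push_cast
    ring
  have hz : D * (2 * h + 8) - 2 ^ k ≤ ip z up := by
    have h1 := neg_hn_le_ip (z - pv (sn h M) D (sR h M)) upd'
    have e1 : ip (pv (sn h M) D (sR h M)) up = D * (2 * h + 8) := by
      unfold pv
      rw [ip_smul, hend]
    rw [ip_sub_left, e1] at h1
    linarith
  have hen : vx oo up A A.length = z := g1.en
  have hle : ∀ i, i ≤ A.length → ip (vx oo up A i) up ≤ ip z up := by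
    intro i hi
    rcases g1.bd i hi with h1 | ⟨j, h1, h2⟩
    · rw [hup, ip_sub_left] at h1
      linarith
    · obtain ⟨-, -, -, -, -, b1⟩ := sn_box (h := h) (M := M) (i := j) (by omega)
      obtain ⟨-, -, -, -, -, b2⟩ := sn_box (h := h) (M := M) (i := j + 1) (by omega)
      rcases Nat.lt_or_ge (j + 1 + 1) (sR h M + 1) with h3 | h3
      · have h4 := ns_low (b1 (by omega)) (b2 (by omega)) h2
        nlinarith
      · omega
  refine ⟨ARM.G3.bu_of g1.sa ?_ (fun i h1 h2 => ?_) (fun i h1 => ?_), fun i hi => ?_, g3, g4⟩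
  · have h1 : de A = sn h M (sR h M - 1) := g1.de
    rw [hup] at h1
    exact h1
  · show 0 < ip (vx oo up A i) up
    rcases g1.st i h1 h2 with h3 | ⟨j, h3, h4, h5⟩
    · exact h3
    · obtain ⟨-, -, -, -, b1, -⟩ := sn_box (h := h) (M := M) (i := j) (by omega)
      obtain ⟨-, -, -, -, b2, -⟩ := sn_box (h := h) (M := M) (i := j + 1) (by omega)
      have h6 := ns_pos (by linarith [b1 h3]) (by linarith [b2 (by omega)]) h5
      linarith
  · show ip (vx oo up A i) up ≤ ip (vx oo up A A.length) up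
    rw [hen]
    exact hle i h1
  · obtain ⟨j, h1, h2⟩ := g1.rg i hi
    have h3 := ns_hn h2 (hP.dir j h1) (hn_sn (by omega)) hD0
    linarith

/-! ### 3. The numbers -/

lemma snake_num {A q T : ℝ} (hA : 1 ≤ A) (hT : 8 ≤ T) (h : ℕ) (hh : (h : ℝ) = T ^ 2) (hq1 : T ^ 4 ≤ q) (hq2 : q ≤ A * T ^ 4) :
    ∃ M : ℕ, (M : ℝ) ≤ A * T ^ 2 ∧ q / 10 ≤ (sR h M : ℝ) ∧ (sR h M : ℝ) ≤ 3 * q / 10 := by
  have hT2 : 64 ≤ T ^ 2 := by nlinarith
  have hT4 : T ^ 4 = T ^ 2 * T ^ 2 := by ring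
  have hh0 : 0 < 5 * (2 * (h : ℝ) + 4) := by positivity
  have hq0 : 0 ≤ q := le_trans (by positivity) hq1
  obtain ⟨M, hM⟩ : ∃ M : ℕ, M = ⌊q / (5 * (2 * (h : ℝ) + 4))⌋₊ := ⟨_, rfl⟩
  have m1 : (M : ℝ) ≤ q / (5 * (2 * (h : ℝ) + 4)) := by
    rw [hM]
    exact Nat.floor_le (by positivity)
  have m2 : q / (5 * (2 * (h : ℝ) + 4)) < M + 1 := by
    rw [hM]
    exact Nat.lt_floor_add_one _
  rw [le_div_iff₀ hh0] at m1
  rw [div_lt_iff₀ hh0] at m2
  have hR : (sR h M : ℝ) = (2 * h + 4) * M + (h + 4) := by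
    unfold sR
    push_cast
    ring
  have hM0 : (0 : ℝ) ≤ M := Nat.cast_nonneg _
  refine ⟨M, ?_, ?_, ?_⟩
  · rw [hh] at m1
    have h1 : (M : ℝ) * (10 * T ^ 2) ≤ A * T ^ 4 := by nlinarith
    rw [hT4] at h1
    have h2 : (M : ℝ) * 10 * T ^ 2 ≤ A * T ^ 2 * T ^ 2 := by linarith
    have h3 : (M : ℝ) * 10 ≤ A * T ^ 2 := le_of_mul_le_mul_right h2 (by positivity)
    linarith
  · rw [hR, hh]
    rw [hh] at m2
    nlinarith
  · rw [hR, hh]
    rw [hh] at m1
    nlinarith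

/-- **long bridges in a small box** -/
theorem longBr (A : ℝ) (hA : 1 ≤ A) : ∃ (c : ℝ) (k0 : ℕ), 0 < c ∧ ∀ k L : ℕ, k0 ≤ k → ml k ≤ L → (L : ℝ) ≤ A * ml k →
    ENNReal.ofReal (c * Ub k) ≤ gf {Z | Z ∈ BU ∧ (∀ i, i ≤ Z.length → hn (vx oo up Z i) ≤ 2 ^ k) ∧ L ≤ Z.length ∧
      (Z.length : ℝ) ≤ L + ml k} := by
  obtain ⟨H, hH13, hT⟩ := tubeSt 1 64 (by norm_num) (by norm_num)
  obtain ⟨c0, k0, hc0, hT⟩ := hT H le_rfl 4
  obtain ⟨κ, hκd⟩ : ∃ κ : ℝ, κ = min 1 (c0 / 4608) := ⟨_, rfl⟩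
  have hκ0 : 0 < κ := by
    rw [hκd]
    exact lt_min one_pos (by positivity)
  have hκ1 : κ ≤ 1 := by
    rw [hκd]
    exact min_le_left _ _
  have hH8 : (8192 : ℝ) ≤ H := by
    have : 8192 ≤ H := hH13
    exact_mod_cast this
  -- the ratio of the scales
  obtain ⟨u, hu⟩ : ∃ u : ℕ, 36 * H * (10 * A + 11) ≤ (2 : ℝ) ^ u := by
    obtain ⟨u, hu⟩ := exists_nat_ge (36 * H * (10 * A + 11))
    refine ⟨u, hu.trans ?_⟩
    have : u ≤ 2 ^ u := Nat.lt_two_pow_self.le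
    exact_mod_cast this
  obtain ⟨T, hTd⟩ : ∃ T : ℝ, T = 2 ^ u := ⟨_, rfl⟩
  have hT8 : 8 ≤ T := by
    rw [hTd]
    refine le_trans ?_ hu
    nlinarith
  obtain ⟨h, hhd⟩ : ∃ h : ℕ, h = (2 ^ u) ^ 2 := ⟨_, rfl⟩
  have hhT : (h : ℝ) = T ^ 2 := by
    rw [hhd, hTd]
    push_cast
    rfl
  have hh3 : 3 ≤ h := by
    have : (3 : ℝ) ≤ h := by
      rw [hhT]
      nlinarith
    exact_mod_cast this
  obtain ⟨R0, hR0⟩ : ∃ R0 : ℕ, R0 = ⌈A * T ^ 4⌉₊ := ⟨_, rfl⟩
  have hR0' : A * T ^ 4 ≤ R0 := by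
    rw [hR0]
    exact Nat.le_ceil _
  obtain ⟨k1, hk1⟩ := exists_nat_ge (4 * A)
  refine ⟨κ ^ R0 / 2 ^ (3 * u), max (max k0 5) k1 + 3 * u, by positivity, fun k L hk hL1 hL2 => ?_⟩
  obtain ⟨l, rfl⟩ : ∃ l, k = l + 3 * u := ⟨k - 3 * u, by omega⟩
  have hl0 : k0 ≤ l := by
    have := (le_max_left k0 5).trans (le_max_left _ k1)
    omega
  have hl5 : 5 ≤ l := by
    have := (le_max_right k0 5).trans (le_max_left _ k1)
    omega
  have hlk : k1 ≤ l := by
    have := le_max_right (max k0 5) k1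
    omega
  have hml := ARM.NB.ml_pos l
  have hmk : ml (l + 3 * u) = ml l * T ^ 4 := by
    rw [hTd]
    exact ARM.NB.ml_add l u
  rw [hmk] at hL1 hL2 ⊢
  have hml1 : 4 * A ≤ ml l := by
    refine hk1.trans (le_trans ?_ (ml_ge l))
    have h1 : l ≤ 2 ^ l := Nat.lt_two_pow_self.le
    have h2 : (k1 : ℝ) ≤ l := by exact_mod_cast hlk
    have h3 : (l : ℝ) ≤ 2 ^ l := by exact_mod_cast h1
    linarith
  obtain ⟨q, hq⟩ : ∃ q : ℝ, q = L / ml l := ⟨_, rfl⟩
  have hLq : (L : ℝ) = q * ml l := by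
    rw [hq]
    field_simp
  have hq1 : T ^ 4 ≤ q := by
    rw [hq, le_div_iff₀ hml]
    linarith
  have hq2 : q ≤ A * T ^ 4 := by
    rw [hq, div_le_iff₀ hml]
    linarith
  obtain ⟨M, hM1, hM2, hM3⟩ := snake_num hA hT8 h hhT hq1 hq2
  obtain ⟨R, hR⟩ : ∃ R, R = sR h M := ⟨_, rfl⟩
  have hT4 : 4096 ≤ T ^ 4 := by
    have h2 : 64 ≤ T ^ 2 := by nlinarith
    nlinarith [sq_nonneg (T ^ 2 - 64)]
  have hq0 : 0 < q := by linarith
  have hRpos : (0 : ℝ) < sR h M := by linarith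
  have hR1 : 1 ≤ sR h M := by exact_mod_cast hRpos
  obtain ⟨lam, hlam⟩ : ∃ lam : ℕ, lam = ⌈(L : ℝ) / sR h M⌉₊ := ⟨_, rfl⟩
  have l1 : (L : ℝ) / sR h M ≤ lam := by
    rw [hlam]
    exact Nat.le_ceil _
  have l2 : (lam : ℝ) < (L : ℝ) / sR h M + 1 := by
    rw [hlam]
    exact Nat.ceil_lt_add_one (by positivity)
  have l3 : 10 / 3 * ml l ≤ (L : ℝ) / sR h M := by
    rw [le_div_iff₀ hRpos, hLq]
    nlinarith
  have l4 : (L : ℝ) / sR h M ≤ 10 * ml l := by
    rw [div_le_iff₀ hRpos, hLq]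
    nlinarith
  obtain ⟨W, hW⟩ : ∃ W : ℕ, W = ⌊ml l⌋₊ := ⟨_, rfl⟩
  have hW1 : (W : ℝ) ≤ ml l := by
    rw [hW]
    exact Nat.floor_le hml.le
  have hW0 : (0 : ℝ) ≤ W := Nat.cast_nonneg _
  obtain ⟨D, hD⟩ : ∃ D : ℤ, D = 18 * (H * 2 ^ l) := ⟨_, rfl⟩
  have hl2 : (1 : ℤ) ≤ 2 ^ l := one_le_pow₀ (by norm_num)
  have hHZ : (8192 : ℤ) ≤ H := by
    have : 8192 ≤ H := hH13
    exact_mod_cast this
  have hDD : 1026 * 2 ^ l < D := by
    rw [hD]
    nlinarith
  have hTK : TubeK l D 1 64 c0 := by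
    intro r b e z r1 r4 he he0 hz hcz hce hb1 hb2
    refine hT l r b D e z hl0 (by rw [hD]) (by rw [hD]; nlinarith) r1 r4 he he0 hz hcz hce hb1 hb2
  have hA64 : 4 * (lam : ℝ) + W ≤ 64 * ml l := by
    have : 4 ≤ ml l := by linarith
    linarith
  have hch := chnS (M := M) (m := 2 ^ l / 12) (m1 := ⌊ml l⌋₊ / 2) (W := W) (lam := lam) hh3 hTK hc0.le hDD (Nat.mul_div_le _ _)
    (by rw [hW]; exact Nat.mul_div_le _ _) (by norm_num) (by linarith) hA64 hκ0.le hκ1 (by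
      rw [hκd]
      exact kap_ok hl5 hc0.le) (sR h M) hR1 le_rfl
  have hRL : (L : ℝ) ≤ ((sR h M * lam : ℕ) : ℝ) := by
    push_cast
    rw [div_le_iff₀ hRpos] at l1
    linarith
  have hRL2 : ((sR h M * lam : ℕ) : ℝ) ≤ L + sR h M := by
    push_cast
    have h1 : (sR h M : ℝ) * lam ≤ sR h M * (L / sR h M + 1) := mul_le_mul_of_nonneg_left l2.le hRpos.le
    have h2 : (sR h M : ℝ) * (L / sR h M + 1) = L + sR h M := by
      field_simp
    linarith
  have hUU : Ub (l + 3 * u) ≤ 2 ^ (3 * u) * Ub l := TPC.Ub_pow l (3 * u)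
  refine le_trans (ENNReal.ofReal_le_ofReal ?_) (hch.trans (gf_mono ?_))
  · have h1 : κ ^ R0 ≤ κ ^ sR h M := by
      refine pow_le_pow_of_le_one hκ0.le hκ1 ?_
      have : (sR h M : ℝ) ≤ R0 := by
        refine le_trans ?_ hR0'
        linarith
      exact_mod_cast this
    have h2 : 0 < κ ^ R0 := by positivity
    have hUl := Ub_pos l
    calc κ ^ R0 / 2 ^ (3 * u) * Ub (l + 3 * u) ≤ κ ^ R0 / 2 ^ (3 * u) * (2 ^ (3 * u) * Ub l) :=
          mul_le_mul_of_nonneg_left hUU (by positivity)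
      _ = κ ^ R0 * Ub l := by field_simp
      _ ≤ _ := mul_le_mul_of_nonneg_right h1 hUl.le
  · intro Z hZ
    obtain ⟨z1, z2, z3, z4⟩ := cc_bu hh3 hDD hZ
    refine ⟨z1, fun i hi => (z2 i hi).trans ?_, ?_, ?_⟩
    · have h1 : ((D * (8 * M + 2 * h + 11) : ℤ) : ℝ) ≤ ((2 ^ (l + 3 * u) : ℤ) : ℝ) := by
        rw [hD]
        push_cast
        have h2 : (8 : ℝ) * M + 2 * h + 11 ≤ (10 * A + 11) * T ^ 2 := by
          rw [hhT]
          have : 0 ≤ (A - 1) * T ^ 2 := mul_nonneg (by linarith) (by positivity)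
          have : 1 ≤ T ^ 2 := by nlinarith
          nlinarith
        have h3 : 18 * ((H : ℝ) * 2 ^ l) * (8 * M + 2 * h + 11) ≤ 18 * ((H : ℝ) * 2 ^ l) * ((10 * A + 11) * T ^ 2) :=
          mul_le_mul_of_nonneg_left h2 (by positivity)
        have h4 : 36 * (H : ℝ) * (10 * A + 11) ≤ T := by
          rw [hTd]
          exact hu
        have h5 : (2 : ℝ) ^ (l + 3 * u) = 2 ^ l * (T * T ^ 2) := by
          rw [hTd, pow_add, pow_mul, ← pow_succ']
          congr 1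
          rw [← pow_mul, ← pow_mul, mul_comm]
        rw [h5]
        have h6 : 0 ≤ (2 : ℝ) ^ l * T ^ 2 := by positivity
        have h7 : 18 * (H : ℝ) * (10 * A + 11) ≤ T := by
          have : 0 ≤ (H : ℝ) * (10 * A + 11) := by positivity
          linarith
        nlinarith
      exact_mod_cast h1
    · have h1 : (L : ℝ) ≤ Z.length := by
        have : ((sR h M * lam : ℕ) : ℝ) ≤ Z.length := by exact_mod_cast z3
        linarith
      exact_mod_cast h1
    · have h1 : (Z.length : ℝ) ≤ ((sR h M * lam : ℕ) : ℝ) + W := by exact_mod_cast z4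
      have h2 : (sR h M : ℝ) ≤ ml l * T ^ 4 / 4 := by
        have h3 : 3 * q / 10 ≤ A * T ^ 4 := by linarith
        have h4 : A * T ^ 4 ≤ ml l / 4 * T ^ 4 := mul_le_mul_of_nonneg_right (by linarith) (by positivity)
        linarith
      have h5 : ml l ≤ ml l * T ^ 4 / 4 := by
        nlinarith
      linarith

end PMA

end HexObs
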