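import Pool.Agent.PMA.Defs

/-!
# PM: the two identities of the transport `nu` (helper41)

* **`nu_row_le`**, **`nu_row`**: the sum over the closed words;
* **`nu_col`**: the sum over the open words is `wE K * DD P K`.
-/

set_option autoImplicit false

namespace HexObs

namespace PMA

open Finset TS SDN SIM NTA TIP ARM ARM.G3

open scoped ENNReal

variable {P : Par}

/-! ### sums over fibres -/

lemma tsum_fib {α β : Type*} (A : Set α) (g : α → β) (f : α → ℝ≥0∞) :
    ∑' b : β, ∑' a : {a | a ∈ A ∧ b = g a}, f a = ∑' a : A, f a := by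
  classical
  have h1 : ∀ b : β, ∑' a : {a | a ∈ A ∧ b = g a}, f a = ∑' a : α, if a ∈ A ∧ b = g a then f a else 0 := by
    intro b
    rw [tsum_subtype {a | a ∈ A ∧ b = g a} f]
    exact tsum_congr fun a => by
      by_cases h : a ∈ A ∧ b = g a
      · rw [if_pos h, Set.indicator_of_mem (s := {a | a ∈ A ∧ b = g a}) h]
      · rw [if_neg h, Set.indicator_of_notMem (s := {a | a ∈ A ∧ b = g a}) h]
  rw [tsum_congr h1, ENNReal.tsum_comm, tsum_subtype A f]
  refine tsum_congr fun a => ?_
  by_cases h : a ∈ A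
  · rw [Set.indicator_of_mem h, tsum_eq_single (g a) fun b hb => if_neg fun h2 => hb h2.2, if_pos ⟨h, rfl⟩]
  · rw [Set.indicator_of_notMem h, ENNReal.tsum_eq_zero]
    exact fun b => if_neg fun h2 => h h2.1

/-- the decompositions in three parts -/
lemma dec_fin (L : List Bool) : {p : List Bool × List Bool × List Bool | L = p.1 ++ (p.2.1 ++ p.2.2)}.Finite := by
  have h : {t : List Bool | t.length ≤ L.length}.Finite := List.finite_length_le Bool L.length
  refine (h.prod (h.prod h)).subset ?_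
  rintro ⟨X, M, Y⟩ h1
  have h2 : L.length = X.length + (M.length + Y.length) := by
    have h3 : L = X ++ (M ++ Y) := h1
    rw [h3, List.length_append, List.length_append]
  exact ⟨show X.length ≤ L.length by omega, show M.length ≤ L.length by omega, show Y.length ≤ L.length by omega⟩

lemma AD_fin (L : List Bool) : (AD P L).Finite := (dec_fin L).subset fun _ h => h.1

/-- all choices for the open word `L` -/
def WA (P : Par) (L : List Bool) : Set ((List Bool × List Bool × List Bool) × (List Bool × ℕ)) :=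
  {p | p.1 ∈ AD P L ∧ p.2.1 ∈ Fil P p.1.2.1 ∧ p.2.2 < p.2.1.length ∧ (p.2.1.length - p.2.2) % 2 = p.1.1.length % 2}

/-- the closed word of a choice -/
def clw (p : (List Bool × List Bool × List Bool) × (List Bool × ℕ)) : List Bool :=
  p.2.1.drop p.2.2 ++ (p.1.2.1 ++ p.2.1.take p.2.2)

lemma Way_eq (L K : List Bool) : Way P L K = {p | p ∈ WA P L ∧ K = clw p} := by
  ext p
  constructor
  · rintro ⟨h1, h2, h3, h4, h5⟩
    exact ⟨⟨h1, h2, h3, h4⟩, h5⟩
  · rintro ⟨⟨h1, h2, h3, h4⟩, h5⟩
    exact ⟨h1, h2, h3, h4, h5⟩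

/-- the weight of a choice -/
noncomputable def ww (P : Par) (p : (List Bool × List Bool × List Bool) × (List Bool × ℕ)) : ℝ≥0∞ :=
  wE p.2.1 / ((cnt p.2.1.length p.1.1.length : ℝ≥0∞) * gf (Fil P p.1.2.1))

lemma nu_eq (L K : List Bool) [Decidable (Many P L)] :
    nu P L K = if Many P L then wE L / (NN P L : ℝ≥0∞) * ∑' p : Way P L K, ww P p else 0 := by
  unfold nu
  by_cases h : Many P L
  · rw [if_pos h, if_pos h]
    rfl
  · rw [if_neg h, if_neg h]

lemma sum_way (L : List Bool) : ∑' K : List Bool, ∑' p : Way P L K, ww P p = ∑' p : WA P L, ww P p := by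
  rw [← tsum_fib (WA P L) clw (ww P)]
  exact tsum_congr fun K => by rw [Way_eq]

/-- the sum over the letters -/
lemma sum_u (l q : ℕ) (c : ℝ≥0∞) :
    ∑' u : ℕ, (if u < l ∧ (l - u) % 2 = q % 2 then c else 0) = (cnt l q : ℝ≥0∞) * c := by
  rw [tsum_eq_sum (s := (range l).filter fun u => (l - u) % 2 = q % 2) fun u hu => if_neg fun h => hu (by
    rw [mem_filter, mem_range]
    exact h)]
  rw [sum_congr rfl (g := fun _ => c) fun u hu => by
    rw [mem_filter, mem_range] at hu
    exact if_pos hu]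
  rw [sum_const, nsmul_eq_mul]
  rfl

/-- the sum over all choices as an iterated sum -/
lemma sum_WA (L : List Bool) : ∑' p : WA P L, ww P p =
    ∑' x : AD P L, ∑' Q : Fil P (x : List Bool × List Bool × List Bool).2.1,
      (cnt (Q : List Bool).length (x : List Bool × List Bool × List Bool).1.length : ℝ≥0∞) *
        (wE (Q : List Bool) / ((cnt (Q : List Bool).length (x : List Bool × List Bool × List Bool).1.length : ℝ≥0∞) *
          gf (Fil P (x : List Bool × List Bool × List Bool).2.1))) := by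
  classical
  rw [tsum_subtype (WA P L) (ww P), ENNReal.tsum_prod', tsum_subtype (AD P L) (fun x => ∑' Q : Fil P x.2.1,
      (cnt (Q : List Bool).length x.1.length : ℝ≥0∞) * (wE (Q : List Bool) / ((cnt (Q : List Bool).length x.1.length : ℝ≥0∞) *
          gf (Fil P x.2.1))))]
  refine tsum_congr fun x => ?_
  by_cases hx : x ∈ AD P L
  · rw [Set.indicator_of_mem hx, ENNReal.tsum_prod', tsum_subtype (Fil P x.2.1) (fun Q =>
      (cnt Q.length x.1.length : ℝ≥0∞) * (wE Q / ((cnt Q.length x.1.length : ℝ≥0∞) * gf (Fil P x.2.1))))]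
    refine tsum_congr fun Q => ?_
    by_cases hQ : Q ∈ Fil P x.2.1
    · rw [Set.indicator_of_mem hQ, ← sum_u]
      refine tsum_congr fun u => ?_
      by_cases hu : u < Q.length ∧ (Q.length - u) % 2 = x.1.length % 2
      · rw [if_pos hu, Set.indicator_of_mem (show (x, Q, u) ∈ WA P L from ⟨hx, hQ, hu.1, hu.2⟩)]
        rfl
      · rw [if_neg hu, Set.indicator_of_notMem]
        rintro ⟨-, -, h3, h4⟩
        exact hu ⟨h3, h4⟩
    · rw [Set.indicator_of_notMem hQ, ENNReal.tsum_eq_zero]
      intro u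
      rw [Set.indicator_of_notMem]
      rintro ⟨-, h2, -⟩
      exact hQ h2
  · rw [Set.indicator_of_notMem hx, ENNReal.tsum_eq_zero]
    rintro ⟨Q, u⟩
    rw [Set.indicator_of_notMem]
    rintro ⟨h1, -⟩
    exact hx h1

lemma sum_one (A : Set (List Bool × List Bool × List Bool)) (hA : A.Finite) : ∑' _ : A, (1 : ℝ≥0∞) = (A.ncard : ℝ≥0∞) := by
  have := hA.fintype
  rw [tsum_fintype, sum_const, nsmul_eq_mul, mul_one, Finset.card_univ, Set.ncard_eq_toFinset_card' A, Set.toFinset_card]

/-- **the sum over the closed words**, upper bound -/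
theorem nu_row_le (L : List Bool) : ∑' K : List Bool, nu P L K ≤ wE L := by
  classical
  by_cases hM : Many P L
  · simp only [nu_eq, if_pos hM]
    rw [ENNReal.tsum_mul_left, sum_way, sum_WA]
    have h1 : ∑' x : AD P L, ∑' Q : Fil P (x : List Bool × List Bool × List Bool).2.1,
      (cnt (Q : List Bool).length (x : List Bool × List Bool × List Bool).1.length : ℝ≥0∞) *
        (wE (Q : List Bool) / ((cnt (Q : List Bool).length (x : List Bool × List Bool × List Bool).1.length : ℝ≥0∞) *
          gf (Fil P (x : List Bool × List Bool × List Bool).2.1))) ≤ (NN P L : ℝ≥0∞) := by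
      unfold NN
      rw [← sum_one _ (AD_fin L)]
      refine ENNReal.tsum_le_tsum fun x => ?_
      calc _ ≤ ∑' Q : Fil P (x : List Bool × List Bool × List Bool).2.1,
          wE (Q : List Bool) / gf (Fil P (x : List Bool × List Bool × List Bool).2.1) := by
            refine ENNReal.tsum_le_tsum fun Q => ?_
            obtain ⟨c, hc⟩ : ∃ c : ℝ≥0∞,
              c = (cnt (Q : List Bool).length (x : List Bool × List Bool × List Bool).1.length : ℝ≥0∞) := ⟨_, rfl⟩
            rw [← hc]
            rcases eq_or_ne c 0 with h0 | h0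
            · rw [h0, zero_mul]
              exact bot_le
            · have ht : c ≠ ⊤ := by
                rw [hc]
                exact ENNReal.natCast_ne_top _
              rw [← mul_div_assoc, ENNReal.mul_div_mul_left _ _ h0 ht]
        _ = gf (Fil P (x : List Bool × List Bool × List Bool).2.1) / gf (Fil P (x : List Bool × List Bool × List Bool).2.1) := by
            simp only [div_eq_mul_inv]
            rw [ENNReal.tsum_mul_right]
            rfl
        _ ≤ 1 := ENNReal.div_self_le_one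
    calc wE L / (NN P L : ℝ≥0∞) * _ ≤ wE L / (NN P L : ℝ≥0∞) * (NN P L : ℝ≥0∞) := mul_le_mul' le_rfl h1
      _ ≤ wE L := by
        rcases eq_or_ne (NN P L : ℝ≥0∞) 0 with h0 | h0
        · rw [h0, mul_zero]
          exact bot_le
        · exact (ENNReal.div_mul_cancel h0 (ENNReal.natCast_ne_top _)).le
  · simp only [nu_eq, if_neg hM, tsum_zero]
    exact bot_le

/-- **the sum over the closed words**, good words -/
theorem nu_row {L : List Bool} (hM : Many P L) (hN : 0 < NN P L) (hF : ∀ x ∈ AD P L, gf (Fil P x.2.1) ≠ 0 ∧ gf (Fil P x.2.1) ≠ ⊤)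
    (hc : ∀ x ∈ AD P L, ∀ Q ∈ Fil P x.2.1, cnt Q.length x.1.length ≠ 0) : ∑' K : List Bool, nu P L K = wE L := by
  classical
  simp only [nu_eq, if_pos hM]
  rw [ENNReal.tsum_mul_left, sum_way, sum_WA]
  have h1 : ∑' x : AD P L, ∑' Q : Fil P (x : List Bool × List Bool × List Bool).2.1,
    (cnt (Q : List Bool).length (x : List Bool × List Bool × List Bool).1.length : ℝ≥0∞) *
      (wE (Q : List Bool) / ((cnt (Q : List Bool).length (x : List Bool × List Bool × List Bool).1.length : ℝ≥0∞) *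
        gf (Fil P (x : List Bool × List Bool × List Bool).2.1))) = (NN P L : ℝ≥0∞) := by
    unfold NN
    rw [← sum_one _ (AD_fin L)]
    refine tsum_congr fun x => ?_
    have e1 : ∀ Q : Fil P (x : List Bool × List Bool × List Bool).2.1,
      (cnt (Q : List Bool).length (x : List Bool × List Bool × List Bool).1.length : ℝ≥0∞) *
        (wE (Q : List Bool) / ((cnt (Q : List Bool).length (x : List Bool × List Bool × List Bool).1.length : ℝ≥0∞) *
          gf (Fil P (x : List Bool × List Bool × List Bool).2.1))) =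
        wE (Q : List Bool) / gf (Fil P (x : List Bool × List Bool × List Bool).2.1) := by
      intro Q
      have h0 := hc x x.2 Q Q.2
      rw [← mul_div_assoc, ENNReal.mul_div_mul_left _ _ (by exact_mod_cast h0) (ENNReal.natCast_ne_top _)]
    rw [tsum_congr e1]
    simp only [div_eq_mul_inv]
    rw [ENNReal.tsum_mul_right]
    exact ENNReal.mul_inv_cancel (hF x x.2).1 (hF x x.2).2
  rw [h1]
  exact ENNReal.div_mul_cancel (by exact_mod_cast hN.ne') (ENNReal.natCast_ne_top _)

/-! ### the sum over the open words -/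

/-- the open word of a choice -/
def opw (p : (List Bool × List Bool × List Bool) × (List Bool × ℕ)) : List Bool := p.1.1 ++ (p.1.2.1 ++ p.1.2.2)

/-- all choices for the closed word `K` -/
def WB (P : Par) (K : List Bool) : Set ((List Bool × List Bool × List Bool) × (List Bool × ℕ)) :=
  {p | Adm P p.1.1 p.1.2.1 p.1.2.2 ∧ Many P (opw p) ∧ p.2.1 ∈ Fil P p.1.2.1 ∧ p.2.2 < p.2.1.length ∧
    (p.2.1.length - p.2.2) % 2 = p.1.1.length % 2 ∧ K = clw p}

/-- the same choices seen from the closed word: `(Q2, M, Q1)` and `(X, Y)` -/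
def WC (P : Par) (K : List Bool) : Set ((List Bool × List Bool × List Bool) × (List Bool × List Bool)) :=
  {q | q.1 ∈ Spl P K ∧ Adm P q.2.1 q.1.2.1 q.2.2 ∧ Many P (q.2.1 ++ (q.1.2.1 ++ q.2.2)) ∧ q.2.1.length % 2 = q.1.1.length % 2}

/-- the weight of a choice with its open word -/
noncomputable def w1 (P : Par) (p : (List Bool × List Bool × List Bool) × (List Bool × ℕ)) : ℝ≥0∞ :=
  wE (opw p) / (NN P (opw p) : ℝ≥0∞) * ww P p

/-- the weight of a choice seen from the closed word -/
noncomputable def w2 (P : Par) (K : List Bool) (q : (List Bool × List Bool × List Bool) × (List Bool × List Bool)) : ℝ≥0∞ :=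
  wE K * (wE q.2.1 * wE q.2.2 / (NN P (q.2.1 ++ (q.1.2.1 ++ q.2.2)) : ℝ≥0∞) /
    ((cnt (q.1.2.2 ++ q.1.1).length q.1.1.length : ℝ≥0∞) * gf (Fil P q.1.2.1)))

/-- from `(Q2, M, Q1), (X, Y)` to `(X, M, Y), (Q, u)` -/
def cb (q : (List Bool × List Bool × List Bool) × (List Bool × List Bool)) :
    (List Bool × List Bool × List Bool) × (List Bool × ℕ) :=
  ((q.2.1, q.1.2.1, q.2.2), (q.1.2.2 ++ q.1.1, q.1.2.2.length))

/-- from `(X, M, Y), (Q, u)` to `(Q2, M, Q1), (X, Y)` -/
def bc (p : (List Bool × List Bool × List Bool) × (List Bool × ℕ)) :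
    (List Bool × List Bool × List Bool) × (List Bool × List Bool) :=
  ((p.2.1.drop p.2.2, p.1.2.1, p.2.1.take p.2.2), (p.1.1, p.1.2.2))

lemma bc_cb (q : (List Bool × List Bool × List Bool) × (List Bool × List Bool)) : bc (cb q) = q := by
  obtain ⟨⟨Q2, M, Q1⟩, X, Y⟩ := q
  unfold bc cb
  simp

lemma cb_bc {K : List Bool} {p : (List Bool × List Bool × List Bool) × (List Bool × ℕ)} (h : p ∈ WB P K) : cb (bc p) = p := by
  obtain ⟨⟨X, M, Y⟩, Q, u⟩ := p
  obtain ⟨-, -, -, h4, -⟩ := h
  have h4 : u < Q.length := h4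
  unfold bc cb
  simp only [List.take_append_drop, List.length_take]
  rw [min_eq_left h4.le]

lemma cb_mem {K : List Bool} {q : (List Bool × List Bool × List Bool) × (List Bool × List Bool)} (h : q ∈ WC P K) :
    cb q ∈ WB P K := by
  obtain ⟨⟨Q2, M, Q1⟩, X, Y⟩ := q
  obtain ⟨⟨h1, h2, h3, -⟩, h4, h5, h6⟩ := h
  have h1 : K = Q2 ++ (M ++ Q1) := h1
  have h2 : Q2 ≠ [] := h2
  have h7 : 0 < Q2.length := List.length_pos_iff.2 h2
  refine ⟨h4, h5, h3, ?_, ?_, ?_⟩
  · show Q1.length < (Q1 ++ Q2).length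
    rw [List.length_append]
    omega
  · show ((Q1 ++ Q2).length - Q1.length) % 2 = X.length % 2
    rw [List.length_append, Nat.add_sub_cancel_left]
    exact h6.symm
  · show K = (Q1 ++ Q2).drop Q1.length ++ (M ++ (Q1 ++ Q2).take Q1.length)
    rw [List.drop_left, List.take_left]
    exact h1

lemma bc_mem {K : List Bool} {p : (List Bool × List Bool × List Bool) × (List Bool × ℕ)} (h : p ∈ WB P K) :
    bc p ∈ WC P K := by
  obtain ⟨⟨X, M, Y⟩, Q, u⟩ := p
  obtain ⟨h1, h2, h3, h4, h5, h6⟩ := h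
  have h4 : u < Q.length := h4
  refine ⟨⟨h6, ?_, ?_, h1.2.2.1⟩, h1, h2, ?_⟩
  · show Q.drop u ≠ []
    intro h7
    have h8 := congrArg List.length h7
    rw [List.length_drop, List.length_nil] at h8
    omega
  · show Q.take u ++ Q.drop u ∈ Fil P M
    rw [List.take_append_drop]
    exact h3
  · show X.length % 2 = (Q.drop u).length % 2
    rw [List.length_drop]
    exact h5.symm

lemma cnt_par (l : ℕ) {q q' : ℕ} (h : q % 2 = q' % 2) : cnt l q = cnt l q' := by
  unfold cnt
  rw [h]

lemma w1_cb {K : List Bool} {q : (List Bool × List Bool × List Bool) × (List Bool × List Bool)} (h : q ∈ WC P K) :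
    w1 P (cb q) = w2 P K q := by
  obtain ⟨⟨Q2, M, Q1⟩, X, Y⟩ := q
  obtain ⟨⟨h1, -, -, -⟩, -, -, h6⟩ := h
  have h1 : K = Q2 ++ (M ++ Q1) := h1
  have h6 : X.length % 2 = Q2.length % 2 := h6
  show wE (X ++ (M ++ Y)) / (NN P (X ++ (M ++ Y)) : ℝ≥0∞) * (wE (Q1 ++ Q2) /
      ((cnt (Q1 ++ Q2).length X.length : ℝ≥0∞) * gf (Fil P M))) =
    wE K * (wE X * wE Y / (NN P (X ++ (M ++ Y)) : ℝ≥0∞) / ((cnt (Q1 ++ Q2).length Q2.length : ℝ≥0∞) * gf (Fil P M)))
  rw [cnt_par _ h6, h1]
  simp only [wE_append, div_eq_mul_inv]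
  ring

/-- the two forms of the sum over the choices -/
lemma sum_WB (K : List Bool) : ∑' p : WB P K, w1 P p = ∑' q : WC P K, w2 P K q := by
  let e : WC P K ≃ WB P K :=
    { toFun := fun q => ⟨cb q, cb_mem q.2⟩
      invFun := fun p => ⟨bc p, bc_mem p.2⟩
      left_inv := fun q => Subtype.ext (bc_cb q)
      right_inv := fun p => Subtype.ext (cb_bc p.2) }
  rw [← e.tsum_eq]
  exact tsum_congr fun q => w1_cb q.2

lemma sum_WC (K : List Bool) : ∑' q : WC P K, w2 P K q = wE K * DD P K := by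
  classical
  unfold DD
  rw [← ENNReal.tsum_mul_left, tsum_subtype (WC P K) (w2 P K), ENNReal.tsum_prod', tsum_subtype (Spl P K) (fun p =>
    wE K * (th P p.1.length p.2.1 / ((cnt (p.2.2 ++ p.1).length p.1.length : ℝ≥0∞) * gf (Fil P p.2.1))))]
  refine tsum_congr fun p => ?_
  by_cases hp : p ∈ Spl P K
  · rw [Set.indicator_of_mem hp]
    unfold th
    rw [tsum_subtype {x : List Bool × List Bool | Adm P x.1 p.2.1 x.2 ∧ Many P (x.1 ++ (p.2.1 ++ x.2)) ∧
      x.1.length % 2 = p.1.length % 2} (fun x => wE x.1 * wE x.2 / (NN P (x.1 ++ (p.2.1 ++ x.2)) : ℝ≥0∞))]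
    simp only [div_eq_mul_inv]
    rw [← ENNReal.tsum_mul_right, ← ENNReal.tsum_mul_left]
    refine tsum_congr fun x => ?_
    by_cases hx : x ∈ {x : List Bool × List Bool | Adm P x.1 p.2.1 x.2 ∧ Many P (x.1 ++ (p.2.1 ++ x.2)) ∧
      x.1.length % 2 = p.1.length % 2}
    · rw [Set.indicator_of_mem hx, Set.indicator_of_mem (show (p, x) ∈ WC P K from ⟨hp, hx.1, hx.2.1, hx.2.2⟩)]
      show wE K * (wE x.1 * wE x.2 / (NN P (x.1 ++ (p.2.1 ++ x.2)) : ℝ≥0∞) /
        ((cnt (p.2.2 ++ p.1).length p.1.length : ℝ≥0∞) * gf (Fil P p.2.1))) = _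
      simp only [div_eq_mul_inv]
    · rw [Set.indicator_of_notMem hx, Set.indicator_of_notMem, zero_mul, mul_zero]
      rintro ⟨-, h2, h3, h4⟩
      exact hx ⟨h2, h3, h4⟩
  · rw [Set.indicator_of_notMem hp, ENNReal.tsum_eq_zero]
    intro x
    rw [Set.indicator_of_notMem]
    rintro ⟨h1, -⟩
    exact hp h1

/-- **the sum over the open words** -/
theorem nu_col (K : List Bool) : ∑' L : List Bool, nu P L K = wE K * DD P K := by
  classical
  rw [← sum_WC, ← sum_WB, ← tsum_fib (WB P K) opw (w1 P)]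
  refine tsum_congr fun L => ?_
  rw [nu_eq]
  by_cases hM : Many P L
  · rw [if_pos hM, ← ENNReal.tsum_mul_left]
    have e1 : {p | p ∈ WB P K ∧ L = opw p} = Way P L K := by
      ext p
      constructor
      · rintro ⟨⟨h1, -, h3, h4, h5, h6⟩, h7⟩
        exact ⟨⟨h7, h1⟩, h3, h4, h5, h6⟩
      · rintro ⟨⟨h7, h1⟩, h3, h4, h5, h6⟩
        have h8 : L = opw p := h7
        exact ⟨⟨h1, h8 ▸ hM, h3, h4, h5, h6⟩, h8⟩
    rw [e1]
    refine tsum_congr fun p => ?_
    have h8 : L = opw p := p.2.1.1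
    unfold w1
    rw [← h8]
  · rw [if_neg hM]
    symm
    rw [ENNReal.tsum_eq_zero]
    rintro ⟨p, ⟨-, h2, -⟩, h7⟩
    have h8 : L = opw p := h7
    exact absurd (h8 ▸ h2) hM

end PMA

end HexObs
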