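import Pool.Agent.PMA.NFg
import Pool.Agent.PMA.Nu
import Pool.Agent.ARM.UpAll

/-!
# PM, row K2N (helper94): many admissible pairs of cuts

* `sepG`: the good words with many cuts whose front part is good too;
* `lenF`: cuts with a long part behind them are rare;
* `lenTop`: the words of the class with nearly the largest number of letters are rare;
* **`manySt`** (literal of helper41): the words of the gap class with few admissible pairs are rare.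
-/

set_option autoImplicit false

namespace HexObs

namespace ARM

open Finset TS SDN SIM NTA TIP

open scoped ENNReal

/-- **row K2** with the cuts whose front part is good too -/
theorem sepG : ∀ ε : ℝ, 0 < ε → ∃ (η κ : ℝ) (a m : ℕ), 0 < η ∧ 0 < κ ∧ ∀ k c0 : ℕ, ∃ c u e b0 : ℕ, c0 ≤ c ∧ m + 5 ≤ c ∧
    c ≤ u ∧ k ≤ e ∧ a ≤ b0 ∧ e ≤ b0 ∧ ∀ n j : ℕ, b0 ≤ j → 2 ^ b0 * ml j ≤ n →
      gf (F n j \ {L | L ∈ GF n j η κ a m c u e k ∧ κ * Ub j ≤ gg j a m η L ∧ κ * Ub j ≤ gg j a m η (rv L)}) ≤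
        ENNReal.ofReal (ε * pr n j) := by
  intro ε hε
  obtain ⟨D, hD, hHF⟩ := hf_T1
  -- each class with the constant d relative to D
  obtain ⟨d, hd⟩ : ∃ d : ℝ, d = ε / (40 * D) := ⟨_, rfl⟩
  have hd0 : 0 < d := by rw [hd]; positivity
  have hdD : 36 * (d * D) ≤ ε * (9 / 10) := by
    rw [hd]
    have : ε / (40 * D) * D = ε / 40 := by field_simp
    rw [this]
    linarith
  obtain ⟨η, κ, a, m, b1, hη, hκ, hab, hN⟩ := ng_all d hd0
  obtain ⟨C2, b2, hC2, hS⟩ := es_sum esSt_all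
  refine ⟨η, κ, a, m, hη, hκ, fun k c0 => ?_⟩
  -- the choice of c
  obtain ⟨c, hc0, hcm, hcε⟩ : ∃ c : ℕ, c0 ≤ c ∧ m + 5 ≤ c ∧
      C2 * (2 : ℝ) ^ (2 / 3 * ((m : ℝ) + 4) - 1 / 6 * ((c : ℝ) - 1)) ≤ d := by
    obtain ⟨u0, hu0⟩ := ex_exp (C2 * (2 : ℝ) ^ (2 / 3 * ((m : ℝ) + 4) + 1 / 6)) hd0
    obtain ⟨c, hcc⟩ : ∃ c : ℕ, c = max u0 (max c0 (m + 5)) := ⟨_, rfl⟩
    have w1 : u0 ≤ c := by omega
    refine ⟨c, by omega, by omega, ?_⟩
    refine le_trans (le_of_eq ?_) (hu0 c w1)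
    rw [mul_assoc, ← Real.rpow_add (by norm_num)]
    congr 2
    ring
  -- the choice of u
  obtain ⟨u, hcu, huε⟩ : ∃ u : ℕ, c ≤ u ∧ C2 * (2 : ℝ) ^ (2 / 3 * (c : ℝ) - 1 / 6 * (u : ℝ)) ≤ d := by
    obtain ⟨u0, hu0⟩ := ex_exp (C2 * (2 : ℝ) ^ (2 / 3 * (c : ℝ))) hd0
    obtain ⟨u, hcc⟩ : ∃ u : ℕ, u = max u0 c := ⟨_, rfl⟩
    have w1 : u0 ≤ u := by omega
    refine ⟨u, by omega, ?_⟩
    refine le_trans (le_of_eq ?_) (hu0 u w1)
    rw [mul_assoc, ← Real.rpow_add (by norm_num)]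
    congr 2
    ring
  obtain ⟨e, b3, hke, heb, hQ⟩ := ntSt u c k d hcu hd0
  obtain ⟨b4, hconf⟩ := conf_small u (ε := ε / 10) (by positivity)
  obtain ⟨bb, hbb⟩ : ∃ bb : ℕ, bb = max (max b1 b2) (max b3 b4) + 1 := ⟨_, rfl⟩
  refine ⟨c, u, e, bb, hc0, hcm, hcu, hke, by omega, by omega, fun n j hj hn => ?_⟩
  have hp := pr_pos n j
  have hmj := ml_pos j
  have hH : HF D n j := hHF n j
  have l1 : b1 ≤ max (max b1 b2) (max b3 b4) := (le_max_left _ _).trans (le_max_left _ _)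
  have l2 : b2 ≤ max (max b1 b2) (max b3 b4) := (le_max_right _ _).trans (le_max_left _ _)
  have l3 : b3 ≤ max (max b1 b2) (max b3 b4) := (le_max_left _ _).trans (le_max_right _ _)
  have l4 : b4 ≤ max (max b1 b2) (max b3 b4) := (le_max_right _ _).trans (le_max_right _ _)
  have hlow : ∀ b, b ≤ max (max b1 b2) (max b3 b4) → (2 : ℝ) ^ b * ml j ≤ ((n - 1 : ℕ) : ℝ) := by
    intro b hb
    have h1 : (2 : ℝ) ^ (b + 1) * ml j ≤ n := by
      refine le_trans ?_ hn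
      apply mul_le_mul_of_nonneg_right _ hmj.le
      exact pow_le_pow_right₀ (by norm_num) (by omega)
    have h2 : (1 : ℝ) ≤ (2 : ℝ) ^ b * ml j := by
      have h3 := one_le_ml j
      have h4 : (1 : ℝ) ≤ (2 : ℝ) ^ b := one_le_pow₀ (by norm_num)
      nlinarith
    have h3 : (n : ℝ) ≤ ((n - 1 : ℕ) : ℝ) + 1 := by exact_mod_cast (by omega : n ≤ n - 1 + 1)
    rw [pow_succ] at h1
    nlinarith
  have hlow' : ∀ b, b ≤ max (max b1 b2) (max b3 b4) → (2 : ℝ) ^ b * ml j ≤ (n : ℝ) := fun b hb =>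
    (hlow b hb).trans (by exact_mod_cast Nat.sub_le n 1)
  have hn1 : 1 ≤ n := by
    have h1 := hlow' 0 (Nat.zero_le _)
    rw [pow_zero, one_mul] at h1
    have h2 := one_le_ml j
    exact_mod_cast h2.trans h1
  -- the bad classes
  obtain ⟨X1, hX1⟩ : ∃ X : Set (List Bool), X = {L | gg j a m η L < κ * Ub j} := ⟨_, rfl⟩
  obtain ⟨X2, hX2⟩ : ∃ X : Set (List Bool), X = {L | ∃ i, j + c - 1 ≤ i ∧ L ∈ ESe (j + m + 4) i} := ⟨_, rfl⟩
  obtain ⟨X3, hX3⟩ : ∃ X : Set (List Bool), X = {L | ∃ i, j + u ≤ i ∧ L ∈ ESe (j + c) i} := ⟨_, rfl⟩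
  obtain ⟨X4, hX4⟩ : ∃ X : Set (List Bool), X = NTs (j + c) (j + u) (2 ^ (j - e)) (2 ^ (j - k)) := ⟨_, rfl⟩
  have hbad : ∀ n' : ℕ, n' ≤ n → (∀ b, b ≤ max (max b1 b2) (max b3 b4) → (2 : ℝ) ^ b * ml j ≤ (n' : ℝ)) →
      gf {L | L ∈ Fp n' j ∧ L ∈ ((X1 ∪ X2) ∪ (X3 ∪ X4))} ≤ ENNReal.ofReal (4 * (d * D) * pr n' j) := by
    intro n' hn' hlw
    have hH' : HF D n' j := HF_mono hn' le_rfl hH
    have hp' := pr_pos n' j
    have q1 : gf {L | L ∈ Fp n' j ∧ L ∈ X1} ≤ ENNReal.ofReal (d * D * pr n' j) := by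
      rw [hX1]
      exact hN D n' j hD.le hH' (by omega) (hlw b1 l1)
    have q2 : gf {L | L ∈ Fp n' j ∧ L ∈ X2} ≤ ENNReal.ofReal (d * D * pr n' j) := by
      rw [hX2]
      refine (hS D n' j (j + m + 4) (j + c - 1) hD.le hH' (by omega) (by omega) (by omega)).trans
        (ENNReal.ofReal_le_ofReal ?_)
      have e1 : (((j + m + 4 : ℕ) : ℝ) - j) = (m : ℝ) + 4 := by push_cast; ring
      have e2 : (((j + c - 1 : ℕ) : ℝ) - j) = (c : ℝ) - 1 := by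
        rw [Nat.cast_sub (by omega)]
        push_cast
        ring
      rw [e1, e2]
      gcongr
    have q3 : gf {L | L ∈ Fp n' j ∧ L ∈ X3} ≤ ENNReal.ofReal (d * D * pr n' j) := by
      rw [hX3]
      refine (hS D n' j (j + c) (j + u) hD.le hH' (by omega) (by omega) (by omega)).trans
        (ENNReal.ofReal_le_ofReal ?_)
      have e1 : (((j + c : ℕ) : ℝ) - j) = (c : ℝ) := by push_cast; ring
      have e2 : (((j + u : ℕ) : ℝ) - j) = (u : ℝ) := by push_cast; ring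
      rw [e1, e2]
      gcongr
    have q4 : gf {L | L ∈ Fp n' j ∧ L ∈ X4} ≤ ENNReal.ofReal (d * D * pr n' j) := by
      rw [hX4]
      exact hQ D n' j hD.le hH' (by omega) (hlw b3 l3)
    have hsub : {L | L ∈ Fp n' j ∧ L ∈ ((X1 ∪ X2) ∪ (X3 ∪ X4))} ⊆
        ({L | L ∈ Fp n' j ∧ L ∈ X1} ∪ {L | L ∈ Fp n' j ∧ L ∈ X2}) ∪ ({L | L ∈ Fp n' j ∧ L ∈ X3} ∪ {L | L ∈ Fp n' j ∧ L ∈ X4}) := by
      rintro L ⟨h1, (h2 | h2) | (h2 | h2)⟩
      · exact Or.inl (Or.inl ⟨h1, h2⟩)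
      · exact Or.inl (Or.inr ⟨h1, h2⟩)
      · exact Or.inr (Or.inl ⟨h1, h2⟩)
      · exact Or.inr (Or.inr ⟨h1, h2⟩)
    refine (gf_mono hsub).trans ((gf_union_le _ _).trans ((add_le_add (gf_union_le _ _) (gf_union_le _ _)).trans
      ((add_le_add (add_le_add q1 q2) (add_le_add q3 q4)).trans (le_of_eq ?_))))
    rw [← ENNReal.ofReal_add (by positivity) (by positivity), ← ENNReal.ofReal_add (by positivity) (by positivity)]
    congr 1
    ring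
  have hb1 := hbad n le_rfl hlow'
  have hb2 := hbad (n - 1) (Nat.sub_le n 1) hlow
  have hb3 : gf {L | L ∈ F n j ∧ rv L ∈ ((X1 ∪ X2) ∪ (X3 ∪ X4))} ≤ ENNReal.ofReal (32 * (d * D) * pr n j) := by
    refine (gf_rv hn1 _).trans ((mul_le_mul_right hb2 2).trans ?_)
    have e2 : (2 : ℝ≥0∞) = ENNReal.ofReal 2 := by norm_num
    rw [e2, ← ENNReal.ofReal_mul (by norm_num)]
    apply ENNReal.ofReal_le_ofReal
    have h1 := pr_pred n j
    have h2 : 0 < d * D := by positivity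
    nlinarith
  have hcf := hconf n j (hlow' b4 l4)
  have hcov : F n j \ {L | L ∈ GF n j η κ a m c u e k ∧ κ * Ub j ≤ gg j a m η L ∧ κ * Ub j ≤ gg j a m η (rv L)} ⊆ {L | L ∈ F n j ∧ ∀ s, s ≤ L.length → dz L s ≤ 2 ^ (j + u)} ∪
      ({L | L ∈ Fp n j ∧ L ∈ ((X1 ∪ X2) ∪ (X3 ∪ X4))} ∪ {L | L ∈ F n j ∧ rv L ∈ ((X1 ∪ X2) ∪ (X3 ∪ X4))}) := by
    rintro L ⟨hL, hng⟩
    by_cases h1 : L ∈ ((X1 ∪ X2) ∪ (X3 ∪ X4))
    · exact Or.inr (Or.inl ⟨F_sub_Fp n j hL, h1⟩)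
    by_cases h2 : rv L ∈ ((X1 ∪ X2) ∪ (X3 ∪ X4))
    · exact Or.inr (Or.inr ⟨hL, h2⟩)
    by_cases h3 : ∀ s, s ≤ L.length → dz L s ≤ 2 ^ (j + u)
    · exact Or.inl ⟨hL, h3⟩
    have key : ∀ T, T = L ∨ T = rv L → κ * Ub j ≤ gg j a m η T ∧
        (∀ i, j + c ≤ i + 1 → T ∉ ESe (j + m + 4) i) ∧ (∀ i, j + u ≤ i → T ∉ ESe (j + c) i) ∧
        T ∉ NTs (j + c) (j + u) (2 ^ (j - e)) (2 ^ (j - k)) := by
      intro T hT
      have h4 : T ∉ ((X1 ∪ X2) ∪ (X3 ∪ X4)) := by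
        rcases hT with rfl | rfl
        · exact h1
        · exact h2
      rw [hX1, hX2, hX3, hX4] at h4
      simp only [Set.mem_union, Set.mem_ofPred_eq, not_or, not_lt, not_exists, not_and] at h4
      obtain ⟨⟨g1, g2⟩, g3, g4⟩ := h4
      exact ⟨g1, fun i hi => g2 i (by omega), fun i hi => g3 i hi, g4⟩
    refine absurd ⟨⟨hL, ?_, fun T hT => ?_⟩, (key L (Or.inl rfl)).1, (key (rv L) (Or.inr rfl)).1⟩ hng
    · push Not at h3
      exact h3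
    · obtain ⟨g1, g2, g3, g4⟩ := key T hT
      exact ⟨g1.trans (gg_le_gc j a m η T), g2, g3, g4⟩
  refine (gf_mono hcov).trans ((gf_union_le _ _).trans ((add_le_add hcf ((gf_union_le _ _).trans
    (add_le_add hb1 hb3))).trans ?_))
  rw [← ENNReal.ofReal_add (by positivity) (by positivity), ← ENNReal.ofReal_add (by positivity) (by positivity)]
  apply ENNReal.ofReal_le_ofReal
  nlinarith

/-! ### long parts -/

/-- the mass of the parts behind a good tip with many letters; the missing letters of the front part -/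
lemma len_wt {η : ℝ} {m : ℕ} (hη : 0 < η) : ∃ K : ℝ, 0 < K ∧ ∀ (j s : ℕ) (A1 : ℝ), 0 < A1 →
    gf {Y | Y ∈ SA ∧ rev Y ∈ GT j η ∧ In (2 ^ (j + m)) Y ∧ A1 * ml j < (Y.length : ℝ) ∧ s ≤ Y.length} ≤
      (ENNReal.ofReal (K / A1 * Ub j) * Xb j) * ENNReal.ofReal ((1 + (s : ℝ) / ml j) ^ (-(4 : ℝ))) := by
  obtain ⟨C, hC, h⟩ := yMassJ η 5 hη
  obtain ⟨V, hV⟩ : ∃ V : ℝ, V = (2 : ℝ) ^ ((4 / 3 : ℝ) * (m : ℝ)) := ⟨_, rfl⟩
  have hV1 : 1 ≤ V := by rw [hV]; exact Real.one_le_rpow (by norm_num) (by positivity)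
  have hC0 : 0 < C := by linarith
  refine ⟨C ^ (m + 1) * V ^ 5, by positivity, fun j s A1 hA => ?_⟩
  have hU := TS.Ub_pos j
  have hml := ml_pos j
  have hmm := ml_pos (j + m)
  have e0 : ml (j + m) = V * ml j := by rw [hV]; exact ARM.ml_add j m
  obtain ⟨y, hy⟩ : ∃ y : ℕ, y = max s ⌈A1 * ml j⌉₊ := ⟨_, rfl⟩
  have hy1 : A1 * ml j ≤ (y : ℝ) := by
    rw [hy]
    exact (Nat.le_ceil _).trans (by exact_mod_cast le_max_right _ _)
  have hy2 : (s : ℝ) ≤ y := by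
    rw [hy]
    exact_mod_cast le_max_left _ _
  have h1 := mass_len (P := {Y : List Bool | Y ∈ SA ∧ rev Y ∈ GT j η ∧ In (2 ^ (j + m)) Y}) (q := 5) (y := y) hmm (h j m)
  refine (gf_mono ?_).trans (h1.trans ?_)
  · rintro Y ⟨y1, y2, y3, y4, y5⟩
    refine ⟨⟨y1, y2, y3⟩, ?_⟩
    rw [hy]
    exact max_le y5 (Nat.ceil_le.2 y4.le)
  · have e1 : (ENNReal.ofReal (C ^ (m + 1) * V ^ 5 / A1 * Ub j) * Xb j) * ENNReal.ofReal ((1 + (s : ℝ) / ml j) ^ (-(4 : ℝ))) =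
        ENNReal.ofReal (C ^ (m + 1) * V ^ 5 / A1 * Ub j * (1 + (s : ℝ) / ml j) ^ (-(4 : ℝ))) * Xb j := by
      rw [mul_right_comm, ← ENNReal.ofReal_mul (by positivity)]
    rw [e1, ← mul_assoc, ← ENNReal.ofReal_mul (by positivity)]
    refine mul_le_mul' (ENNReal.ofReal_le_ofReal ?_) le_rfl
    rw [npow4 (by positivity)]
    have hs0 : (0 : ℝ) ≤ (s : ℝ) / ml j := by positivity
    have g1 : A1 ≤ 1 + (y : ℝ) / ml j := by
      have : A1 ≤ (y : ℝ) / ml j := by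
        rw [le_div_iff₀ hml]
        exact hy1
      linarith
    have g2 : (1 + (s : ℝ) / ml j) ^ 4 ≤ (1 + (y : ℝ) / ml j) ^ 4 := by
      refine pow_le_pow_left₀ (by positivity) ?_ 4
      have : (s : ℝ) / ml j ≤ (y : ℝ) / ml j := div_le_div_of_nonneg_right hy2 hml.le
      linarith
    have g3 : (1 + (y : ℝ) / ml j) / V ≤ 1 + (y : ℝ) / ml (j + m) := by
      rw [e0, div_le_iff₀ (by positivity)]
      have : (1 + (y : ℝ) / (V * ml j)) * V = V + (y : ℝ) / ml j := by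
        field_simp
      rw [this]
      linarith
    have g4 : A1 * (1 + (s : ℝ) / ml j) ^ 4 / V ^ 5 ≤ (1 + (y : ℝ) / ml (j + m)) ^ 5 := by
      calc A1 * (1 + (s : ℝ) / ml j) ^ 4 / V ^ 5 ≤ (1 + (y : ℝ) / ml j) * (1 + (y : ℝ) / ml j) ^ 4 / V ^ 5 := by gcongr
        _ = ((1 + (y : ℝ) / ml j) / V) ^ 5 := by
            rw [div_pow]
            ring
        _ ≤ _ := pow_le_pow_left₀ (by positivity) g3 5
    have g5 : ((1 + (y : ℝ) / ml (j + m)) ^ 5)⁻¹ ≤ V ^ 5 / A1 * ((1 + (s : ℝ) / ml j) ^ 4)⁻¹ := by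
      have : V ^ 5 / A1 * ((1 + (s : ℝ) / ml j) ^ 4)⁻¹ = (A1 * (1 + (s : ℝ) / ml j) ^ 4 / V ^ 5)⁻¹ := by
        field_simp
      rw [this]
      exact inv_anti₀ (by positivity) g4
    calc ((1 + (y : ℝ) / ml (j + m)) ^ 5)⁻¹ * (C ^ (m + 1) * Ub j) ≤
          V ^ 5 / A1 * ((1 + (s : ℝ) / ml j) ^ 4)⁻¹ * (C ^ (m + 1) * Ub j) := mul_le_mul_of_nonneg_right g5 (by positivity)
      _ = _ := by ring

/-- the cuts with a long part behind them -/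
def LongY (j m : ℕ) (η A1 : ℝ) (L : List Bool) : Set (List Bool) :=
  {Y | rev Y ∈ GT j η ∧ In (2 ^ (j + m)) Y ∧ A1 * ml j < (Y.length : ℝ) ∧ ∃ A, A ∈ GT j η ∧ L = A ++ Y}

open Classical in
/-- **many cuts with a long part behind them are rare** -/
theorem lenF (η κ ε : ℝ) (m : ℕ) (hη : 0 < η) (hκ : 0 < κ) (hε : 0 < ε) : ∃ A1 : ℝ, 0 < A1 ∧ ∀ (D : ℝ) (n j : ℕ), 0 ≤ D →
    HF D n j → gf {L | L ∈ Fp n j ∧ κ * Ub j ≤ ((LongY j m η A1 L).ncard : ℝ)} ≤ ENNReal.ofReal (ε * D * pr n j) := by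
  obtain ⟨K, hK, hL⟩ := len_wt (m := m) hη
  obtain ⟨C1, hC1, hE⟩ := exF_of tipF_all η m hη
  refine ⟨C1 * K / (κ * ε), by positivity, fun D n j hD hF => ?_⟩
  obtain ⟨A1, hA1⟩ : ∃ A1 : ℝ, A1 = C1 * K / (κ * ε) := ⟨_, rfl⟩
  have hA10 : 0 < A1 := by rw [hA1]; positivity
  rw [← hA1]
  have hU := TS.Ub_pos j
  have hp := (pr_pos n j).le
  obtain ⟨ρ, hρ⟩ : ∃ ρ : List Bool → List Bool → Prop,
    ρ = fun A Y => A ∈ GT j η ∧ rev Y ∈ GT j η ∧ A1 * ml j < (Y.length : ℝ) := ⟨_, rfl⟩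
  have h1 := hE D n j j j hD hF le_rfl le_rfl ρ (ENNReal.ofReal (K / A1 * Ub j) * Xb j) (κ * Ub j)
    (fun A Y h => by rw [hρ] at h; exact h.1) (fun A => ?_) (by positivity)
  · have h2 := cancelF (by positivity) (by positivity) h1
    refine (gf_mono ?_).trans (h2.trans (ENNReal.ofReal_le_ofReal ?_))
    · rintro L ⟨hT, hT2⟩
      refine ⟨hT, hT2.trans (le_of_eq ?_)⟩
      have e : LongY j m η A1 L = {Y : List Bool | ∃ A, L = A ++ Y ∧ ρ A Y ∧ In (2 ^ (j + m)) Y} := by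
        ext Y
        rw [hρ]
        constructor
        · rintro ⟨y1, y2, y3, A, a1, a2⟩
          exact ⟨A, a2, ⟨a1, y1, y3⟩, y2⟩
        · rintro ⟨A, a2, ⟨a1, y1, y3⟩, y2⟩
          exact ⟨y1, y2, y3, A, a1, a2⟩
      rw [e]
      rfl
    · rw [div_le_iff₀ (by positivity)]
      refine le_of_eq ?_
      rw [hA1]
      field_simp
  · unfold wt
    refine (gf_mono ?_).trans (hL j (n - A.length) A1 hA10)
    rintro Y ⟨y1, y2, y3⟩
    rw [hρ] at y1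
    refine ⟨Nf.SA_suf y3.1, y1.2.1, y2, y1.2.2, ?_⟩
    have h5 := y3.2.1
    rw [List.length_append] at h5
    omega

/-! ### one number of letters -/

lemma ml_ge2 (l : ℕ) : (2 : ℝ) ^ l ≤ ml l := by
  unfold ml
  rw [← Real.rpow_natCast]
  refine Real.rpow_le_rpow_of_exponent_le (by norm_num) ?_
  have : (0 : ℝ) ≤ l := Nat.cast_nonneg _
  linarith

/-- **the words with exactly `l` letters and both ends close** -/
theorem lenPt : ∃ (C : ℝ) (b0 : ℕ), 0 < C ∧ ∀ n j l : ℕ, b0 ≤ j → 2 ^ b0 * ml j ≤ n → n ≤ l →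
    gf {L | L ∈ SA ∧ L.length = l ∧ TIW.hn (TIW.en L) ≤ 2 ^ j} ≤ ENNReal.ofReal (C * (pr n j / ml j)) := by
  classical
  obtain ⟨C, b0, hC, h⟩ := upPt_T t1
  refine ⟨9 * C, b0, by positivity, fun n j l hj hn hl => ?_⟩
  have hml := ml_pos j
  have hp := pr_pos n j
  obtain ⟨B, hB⟩ : ∃ B : Finset Pt, B = Finset.Icc (-(2 ^ j : ℤ)) (2 ^ j) ×ˢ Finset.Icc (-(2 ^ j : ℤ)) (2 ^ j) := ⟨_, rfl⟩
  have h2j : (1 : ℤ) ≤ 2 ^ j := one_le_pow₀ (by norm_num)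
  have hcard : (B.card : ℝ) ≤ 9 * 4 ^ j := by
    have e1 : (Finset.Icc (-(2 ^ j : ℤ)) (2 ^ j)).card = 2 * 2 ^ j + 1 := by
      rw [Int.card_Icc]
      have : (2 : ℤ) ^ j + 1 - -(2 : ℤ) ^ j = ((2 * 2 ^ j + 1 : ℕ) : ℤ) := by
        push_cast
        ring
      rw [this]
      rfl
    rw [hB, Finset.card_product, e1]
    push_cast
    have h3 : (1 : ℝ) ≤ 2 ^ j := one_le_pow₀ (by norm_num)
    have h4 : (4 : ℝ) ^ j = 2 ^ j * 2 ^ j := by
      rw [← mul_pow]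
      norm_num
    rw [h4]
    nlinarith
  have hsub : {L | L ∈ SA ∧ L.length = l ∧ TIW.hn (TIW.en L) ≤ 2 ^ j} ⊆
      ⋃ z ∈ B, {L | L ∈ SA ∧ L.length = l ∧ TIW.en L = z ∧ TIW.hn z ≤ 2 ^ j} := by
    rintro L ⟨h1, h2, h3⟩
    rw [Set.mem_iUnion₂]
    refine ⟨TIW.en L, ?_, h1, h2, rfl, h3⟩
    obtain ⟨c1, c2⟩ := coord_of_hn (TIW.en L)
    rw [hB, Finset.mem_product, Finset.mem_Icc, Finset.mem_Icc]
    have a1 := abs_nonneg (TIW.en L).1
    have a2 := abs_nonneg (TIW.en L).2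
    have b1 : |(TIW.en L).1| ≤ 2 ^ j := by linarith
    have b2 : |(TIW.en L).2| ≤ 2 ^ j := by linarith
    exact ⟨abs_le.1 b1, abs_le.1 b2⟩
  refine (gf_mono hsub).trans ((ENNReal.tsum_biUnion_le wE _ _).trans ?_)
  have hone : ∀ z ∈ B, gf {L | L ∈ SA ∧ L.length = l ∧ TIW.en L = z ∧ TIW.hn z ≤ 2 ^ j} ≤
      ENNReal.ofReal (C * (pr n j / (4 ^ j * ml j))) := by
    intro z _
    by_cases hz : TIW.hn z ≤ 2 ^ j
    · refine (gf_mono fun L hL => ?_).trans ((h l j z hj (hn.trans (by exact_mod_cast hl)) hz).trans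
        (ENNReal.ofReal_le_ofReal ?_))
      · exact ⟨hL.1, hL.2.1, hL.2.2.1⟩
      · refine mul_le_mul_of_nonneg_left ?_ hC.le
        exact div_le_div_of_nonneg_right (pr_anti hl j) (by positivity)
    · have h0 : {L | L ∈ SA ∧ L.length = l ∧ TIW.en L = z ∧ TIW.hn z ≤ 2 ^ j} = ∅ := by
        ext L
        constructor
        · rintro ⟨-, -, -, h3⟩
          exact hz h3
        · intro h3
          exact h3.elim
      rw [h0]
      unfold gf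
      simp
  refine (sum_le_sum hone).trans ?_
  rw [sum_const, nsmul_eq_mul, ← ENNReal.ofReal_natCast, ← ENNReal.ofReal_mul (by positivity)]
  refine ENNReal.ofReal_le_ofReal ?_
  calc (B.card : ℝ) * (C * (pr n j / (4 ^ j * ml j))) ≤ 9 * 4 ^ j * (C * (pr n j / (4 ^ j * ml j))) :=
        mul_le_mul_of_nonneg_right hcard (by positivity)
    _ = 9 * C * (pr n j / ml j) := by field_simp

/-- **nearly the largest number of letters** -/
theorem lenTop : ∃ (C : ℝ) (b0 : ℕ), 0 < C ∧ ∀ (n j N : ℕ) (w : ℝ), b0 ≤ j → 2 ^ b0 * ml j ≤ n → 0 ≤ w →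
    gf {L | L ∈ SA ∧ n ≤ L.length ∧ L.length < N ∧ (N : ℝ) < L.length + w ∧ TIW.hn (TIW.en L) ≤ 2 ^ j} ≤
      ENNReal.ofReal (C * ((w + 1) * pr n j / ml j)) := by
  classical
  obtain ⟨C, b0, hC, h⟩ := lenPt
  refine ⟨C, b0, hC, fun n j N w hj hn hw => ?_⟩
  have hml := ml_pos j
  have hp := pr_pos n j
  have hsub : {L | L ∈ SA ∧ n ≤ L.length ∧ L.length < N ∧ (N : ℝ) < L.length + w ∧ TIW.hn (TIW.en L) ≤ 2 ^ j} ⊆
      ⋃ t ∈ range (⌊w⌋₊ + 1), {L | n ≤ N - t ∧ L ∈ SA ∧ L.length = N - t ∧ TIW.hn (TIW.en L) ≤ 2 ^ j} := by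
    rintro L ⟨h1, h2, h3, h4, h5⟩
    rw [Set.mem_iUnion₂]
    refine ⟨N - L.length, mem_range.2 (Nat.lt_succ_of_le (Nat.le_floor ?_)), by omega, h1, by omega, h5⟩
    rw [Nat.cast_sub h3.le]
    linarith
  refine (gf_mono hsub).trans ((GgJumpAux.gf_biUnion_le _ _).trans ?_)
  have hone : ∀ t ∈ range (⌊w⌋₊ + 1), gf {L | n ≤ N - t ∧ L ∈ SA ∧ L.length = N - t ∧ TIW.hn (TIW.en L) ≤ 2 ^ j} ≤
      ENNReal.ofReal (C * (pr n j / ml j)) := by
    intro t _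
    by_cases ht : n ≤ N - t
    · exact (gf_mono fun L hL => hL.2).trans (h n j (N - t) hj hn ht)
    · have h0 : {L | n ≤ N - t ∧ L ∈ SA ∧ L.length = N - t ∧ TIW.hn (TIW.en L) ≤ 2 ^ j} = ∅ := by
        ext L
        constructor
        · rintro ⟨h3, -⟩
          exact ht h3
        · intro h3
          exact h3.elim
      rw [h0]
      unfold gf
      simp
  refine (sum_le_sum hone).trans ?_
  rw [sum_const, nsmul_eq_mul, card_range, ← ENNReal.ofReal_natCast, ← ENNReal.ofReal_mul (by positivity)]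
  refine ENNReal.ofReal_le_ofReal ?_
  have h1 : ((⌊w⌋₊ + 1 : ℕ) : ℝ) ≤ w + 1 := by
    push_cast
    have := Nat.floor_le hw
    linarith
  calc ((⌊w⌋₊ + 1 : ℕ) : ℝ) * (C * (pr n j / ml j)) ≤ (w + 1) * (C * (pr n j / ml j)) :=
        mul_le_mul_of_nonneg_right h1 (by positivity)
    _ = C * ((w + 1) * pr n j / ml j) := by ring

end ARM

namespace PMA

open Finset TS SDN HexObs.SIM NTA TIP ARM ARM.G3

open scoped ENNReal

/-! ### one word -/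

lemma short_ge {j a m : ℕ} {η A1 x y : ℝ} {L : List Bool} (h1 : x ≤ ARM.gg j a m η L) (h2 : ((LongY j m η A1 L).ncard : ℝ) ≤ y) :
    x - y ≤ (({Y | Y ∈ NCg j (j - a) (2 ^ (j + m)) η L ∧ (Y.length : ℝ) ≤ A1 * ml j}).ncard : ℝ) := by
  have hsub : NCg j (j - a) (2 ^ (j + m)) η L ⊆
      {Y | Y ∈ NCg j (j - a) (2 ^ (j + m)) η L ∧ (Y.length : ℝ) ≤ A1 * ml j} ∪ LongY j m η A1 L := by
    intro Y hY
    rcases le_or_gt (Y.length : ℝ) (A1 * ml j) with h | h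
    · exact Or.inl ⟨hY, h⟩
    · obtain ⟨y1, y2, A, y3, -, y4⟩ := hY
      exact Or.inr ⟨y1, y2, h, A, y4, y3⟩
  have hf : (NCg j (j - a) (2 ^ (j + m)) η L).Finite := nca_fin.subset ncg_sub
  have hf1 : {Y | Y ∈ NCg j (j - a) (2 ^ (j + m)) η L ∧ (Y.length : ℝ) ≤ A1 * ml j}.Finite := hf.subset fun Y hY => hY.1
  have hf2 : (LongY j m η A1 L).Finite := fin_suf fun Y hY => by
    obtain ⟨-, -, -, A, -, hA⟩ := hY
    exact ⟨A, hA.symm⟩
  have h3 := (Set.ncard_le_ncard hsub (hf1.union hf2)).trans (Set.ncard_union_le _ _)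
  have h4 : ((NCg j (j - a) (2 ^ (j + m)) η L).ncard : ℝ) ≤
      ({Y | Y ∈ NCg j (j - a) (2 ^ (j + m)) η L ∧ (Y.length : ℝ) ≤ A1 * ml j}.ncard : ℝ) + ((LongY j m η A1 L).ncard : ℝ) := by
    exact_mod_cast h3
  have h5 : ARM.gg j a m η L = ((NCg j (j - a) (2 ^ (j + m)) η L).ncard : ℝ) := rfl
  rw [h5] at h1
  linarith

/-- **the admissible pairs of one word** -/
theorem nn_ge {P : Par} {c u e k n : ℕ} {κ' A2 : ℝ} (hmc : P.m + 7 ≤ c) (hcu : c ≤ u) (hj : 4 ≤ P.j) {L : List Bool}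
    (hL : L ∈ GFc n P.j P.η κ' P.a P.m c u e k) (hG : L ∈ GW P)
    (hJ : ∀ X M Y : List Bool, X ++ (M ++ Y) ∈ GFc n P.j P.η κ' P.a P.m c u e k → CutP P.j P.a P.m P.η X M Y → Jbl P M)
    (h1 : (L.length : ℝ) + P.a0 * ml P.j ≤ P.N) (h2 : (P.N : ℝ) ≤ L.length + 2 * ml P.j)
    (hA : P.A = 2 * A2 + 2) (hA1 : P.A1 = 2 * A2) :
    ({Y | Y ∈ NCg P.j (P.j - P.a) (2 ^ (P.j + P.m)) P.η L ∧ (Y.length : ℝ) ≤ A2 * ml P.j}).ncard *
      ({Y | Y ∈ NCg P.j (P.j - P.a) (2 ^ (P.j + P.m)) P.η (rv L) ∧ (Y.length : ℝ) ≤ A2 * ml P.j}).ncard ≤ NN P L := by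
  rw [← Set.ncard_prod]
  obtain ⟨f, hf⟩ : ∃ f : List Bool × List Bool → List Bool × List Bool × List Bool,
    f = fun p => (rev p.2, (L.drop p.2.length).take (L.length - p.2.length - p.1.length), p.1) := ⟨_, rfl⟩
  unfold NN
  refine Set.ncard_le_ncard_of_injOn f ?_ ?_ (AD_fin L)
  · rintro ⟨Y, Y'⟩ ⟨⟨y1, y2⟩, ⟨z1, z2⟩⟩
    simp only at y1 y2 z1 z2
    obtain ⟨M, m1, m2⟩ := cutP_ofc hmc hcu hj hL (ncg_sub y1) (ncg_sub z1)
    have hlen : L.length = Y'.length + (M.length + Y.length) := by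
      conv_lhs => rw [m1]
      simp only [List.length_append, rev_length]
    have hM : (L.drop Y'.length).take (L.length - Y'.length - Y.length) = M := by
      have e1 : L.drop Y'.length = M ++ Y := by
        conv_lhs => rw [m1]
        exact List.drop_left' (rev_length Y')
      rw [e1]
      exact List.take_left' (by omega)
    have hf1 : f (Y, Y') = (rev Y', M, Y) := by
      rw [hf]
      simp only [hM]
    rw [hf1]
    refine ⟨m1, by rw [← m1]; exact hG, m2, ⟨hJ _ M Y (by rw [← m1]; exact hL) m2, ?_, ?_⟩, ?_⟩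
    · have h3 : (M.length : ℝ) ≤ L.length := by exact_mod_cast (by omega : M.length ≤ L.length)
      simp only
      linarith
    · have h3 : (L.length : ℝ) = Y'.length + (M.length + Y.length) := by exact_mod_cast hlen
      simp only
      rw [hA]
      linarith
    · show ((rev Y').length : ℝ) + (Y.length : ℝ) ≤ P.A1 * ml P.j
      rw [rev_length, hA1]
      linarith
  · rintro ⟨Y, Y'⟩ - ⟨V, V'⟩ - he
    rw [hf] at he
    simp only [Prod.mk.injEq] at he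
    obtain ⟨e1, -, e2⟩ := he
    have e3 : Y' = V' := by
      have := congrArg rev e1
      rwa [rev_rev, rev_rev] at this
    rw [e2, e3]

/-- **many admissible pairs** (literal of helper41) -/
theorem manySt : ∀ ε : ℝ, 0 < ε → ∃ (η κ κ' a0 : ℝ) (a m : ℕ), 0 < η ∧ 0 < κ ∧ 0 < κ' ∧ 0 < a0 ∧ ∀ k c0 : ℕ,
    ∃ (c u e b0 : ℕ) (A A1 : ℝ), c0 ≤ c ∧ c ≤ u ∧ k ≤ e ∧ 0 < A ∧ 0 < A1 ∧ ∀ (P : Par) (n : ℕ), P.η = η → P.κ = κ → P.a = a →
      P.m = m → P.a0 = a0 → P.A = A → P.A1 = A1 → b0 ≤ P.j → 2 ^ b0 * ml P.j ≤ n → (P.N : ℝ) ≤ n + ml P.j + 1 →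
      (∀ l z, P.G l z → n ≤ l ∧ l < P.N ∧ TIW.hn z ≤ 2 ^ P.j) →
      (∀ X M Y : List Bool, X ++ (M ++ Y) ∈ GFc n P.j η κ' a m c u e k → CutP P.j a m η X M Y → Jbl P M) →
      gf {L | L ∈ GW P ∧ (NN P L : ℝ) < κ ^ 2 * Ub P.j ^ 2} ≤ ENNReal.ofReal (ε * pr n P.j) := by
  intro ε hε
  obtain ⟨D, hD, hHF⟩ := hf_T1
  obtain ⟨η, κ', a, m, hη, hκ', hG⟩ := sepG (ε / 4) (by positivity)
  obtain ⟨Cu, bu, hCu, hU⟩ := lenTop
  refine ⟨η, κ' / 2, κ', ε / (8 * Cu), a, m, hη, by positivity, hκ', by positivity, fun k c0 => ?_⟩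
  obtain ⟨c, u, e, b0, g1, g2, g3, g4, g5, g6, hG⟩ := hG k (max c0 (m + 7))
  obtain ⟨A2, hA2, hlen⟩ := lenF η (κ' / 2) (ε / (64 * D)) m hη (by positivity) (by positivity)
  obtain ⟨bb, hbb⟩ : ∃ bb : ℕ, 8 * Cu / ε + 1 ≤ (2 : ℝ) ^ bb := by
    obtain ⟨bb, hbb⟩ := exists_nat_ge (8 * Cu / ε + 1)
    refine ⟨bb, hbb.trans ?_⟩
    have : bb ≤ 2 ^ bb := Nat.lt_two_pow_self.le
    exact_mod_cast this
  have hc0 : c0 ≤ c := (le_max_left _ _).trans g1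
  have hmc : m + 7 ≤ c := (le_max_right _ _).trans g1
  refine ⟨c, u, e, b0 + bu + bb + 4, 2 * A2 + 2, 2 * A2, hc0, g3, g4, by positivity, by positivity,
    fun P n p1 p2 p3 p4 p5 p6 p7 hj hn hN hP hJ => ?_⟩
  obtain ⟨j, hjd⟩ : ∃ j, j = P.j := ⟨_, rfl⟩
  rw [← hjd] at hj hn hN hP hJ ⊢
  have hml := ARM.ml_pos j
  have hml1 := one_le_ml j
  have hp := pr_pos n j
  have hUj := TS.Ub_pos j
  have hpow : ∀ b, b ≤ b0 + bu + bb + 4 → (2 : ℝ) ^ b * ml j ≤ n := fun b hb =>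
    (mul_le_mul_of_nonneg_right (pow_le_pow_right₀ (by norm_num) hb) hml.le).trans hn
  have hn1 : 1 ≤ n := by
    have h1 := hpow 0 (Nat.zero_le _)
    rw [pow_zero, one_mul] at h1
    exact_mod_cast hml1.trans h1
  have hbig : 8 * Cu / ε + 1 ≤ ml j := by
    refine hbb.trans ((pow_le_pow_right₀ (by norm_num) (by omega : bb ≤ j)).trans ?_)
    exact ARM.ml_ge2 j
  have hCuml : 8 * Cu < ε * ml j := by
    have : 8 * Cu / ε < ml j := by linarith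
    rw [div_lt_iff₀ hε] at this
    linarith
  have ha0 : 1 < ε / (8 * Cu) * ml j := by
    rw [div_mul_eq_mul_div, lt_div_iff₀ (by positivity), one_mul]
    exact hCuml
  -- the classes
  obtain ⟨S1, hS1⟩ : ∃ S1 : Set (List Bool), S1 = F n j \ {L | L ∈ ARM.GF n j η κ' a m c u e k ∧ κ' * Ub j ≤ ARM.gg j a m η L ∧
    κ' * Ub j ≤ ARM.gg j a m η (rv L)} := ⟨_, rfl⟩
  obtain ⟨X, hX⟩ : ∃ X : Set (List Bool), X = {L | κ' / 2 * Ub j ≤ ((LongY j m η A2 L).ncard : ℝ)} := ⟨_, rfl⟩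
  obtain ⟨S4, hS4⟩ : ∃ S4 : Set (List Bool), S4 = {L | L ∈ SA ∧ n ≤ L.length ∧ L.length < P.N ∧
    (P.N : ℝ) < L.length + ε / (8 * Cu) * ml j ∧ TIW.hn (TIW.en L) ≤ 2 ^ j} := ⟨_, rfl⟩
  have m1 : gf S1 ≤ ENNReal.ofReal (ε / 4 * pr n j) := by
    rw [hS1]
    exact hG n j (by omega) (hpow b0 (by omega))
  have m2 : gf {L | L ∈ Fp n j ∧ L ∈ X} ≤ ENNReal.ofReal (ε / 64 * pr n j) := by
    rw [hX]
    refine (hlen D n j hD.le (hHF n j)).trans (ENNReal.ofReal_le_ofReal (le_of_eq ?_))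
    field_simp
  have m3 : gf {L | L ∈ F n j ∧ rv L ∈ X} ≤ ENNReal.ofReal (ε / 8 * pr n j) := by
    have h1 : gf {L | L ∈ Fp (n - 1) j ∧ L ∈ X} ≤ ENNReal.ofReal (ε / 64 * pr (n - 1) j) := by
      rw [hX]
      refine (hlen D (n - 1) j hD.le (hHF (n - 1) j)).trans (ENNReal.ofReal_le_ofReal (le_of_eq ?_))
      field_simp
    refine (gf_rv hn1 _).trans ((mul_le_mul_right h1 2).trans ?_)
    have e2 : (2 : ℝ≥0∞) = ENNReal.ofReal 2 := by norm_num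
    rw [e2, ← ENNReal.ofReal_mul (by norm_num)]
    apply ENNReal.ofReal_le_ofReal
    have h2 := pr_pred n j
    nlinarith
  have m4 : gf S4 ≤ ENNReal.ofReal (ε / 4 * pr n j) := by
    rw [hS4]
    refine (hU n j P.N (ε / (8 * Cu) * ml j) (by omega) (hpow bu (by omega)) (by positivity)).trans
      (ENNReal.ofReal_le_ofReal ?_)
    have e1 : Cu * ((ε / (8 * Cu) * ml j + 1) * pr n j / ml j) = (ε / 8 + Cu / ml j) * pr n j := by
      field_simp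
    rw [e1]
    refine mul_le_mul_of_nonneg_right ?_ hp.le
    have : Cu / ml j ≤ ε / 8 := by
      rw [div_le_iff₀ hml]
      linarith
    linarith
  have hcov : {L | L ∈ GW P ∧ (NN P L : ℝ) < (κ' / 2) ^ 2 * Ub j ^ 2} ⊆
      (S1 ∪ {L | L ∈ Fp n j ∧ L ∈ X}) ∪ ({L | L ∈ F n j ∧ rv L ∈ X} ∪ S4) := by
    rintro L ⟨hL, hNN⟩
    by_contra hcon
    simp only [Set.mem_union, not_or] at hcon
    obtain ⟨⟨c1, c2⟩, c3, c4⟩ := hcon
    obtain ⟨q1, q2⟩ := hL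
    obtain ⟨r1, r2, r3⟩ := hP _ _ q2
    have h1 : (L.length : ℝ) + ε / (8 * Cu) * ml j ≤ P.N := by
      by_contra hc
      push Not at hc
      exact c4 (by rw [hS4]; exact ⟨q1, r1, r2, hc, r3⟩)
    have hF : L ∈ F n j := ⟨q1, r1, by linarith, by rw [sub_zero]; exact r3⟩
    have hGF : L ∈ ARM.GF n j η κ' a m c u e k ∧ κ' * Ub j ≤ ARM.gg j a m η L ∧ κ' * Ub j ≤ ARM.gg j a m η (rv L) := by
      by_contra hc
      exact c1 (by rw [hS1]; exact ⟨hF, hc⟩)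
    obtain ⟨t1, t2, t3⟩ := hGF
    have d1 : ((LongY j m η A2 L).ncard : ℝ) ≤ κ' / 2 * Ub j := by
      by_contra hc
      push Not at hc
      exact c2 ⟨F_sub_Fp n j hF, by rw [hX]; exact hc.le⟩
    have d2 : ((LongY j m η A2 (rv L)).ncard : ℝ) ≤ κ' / 2 * Ub j := by
      by_contra hc
      push Not at hc
      exact c3 ⟨hF, by rw [hX]; exact hc.le⟩
    have e1 := short_ge t2 d1
    have e2 := short_ge t3 d2
    have hLc : L ∈ GFc n P.j P.η κ' P.a P.m c u e k := by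
      rw [← hjd, p1, p3, p4]
      exact GF_sub_GFc n j η κ' a m c u e k t1
    have e3 := nn_ge (P := P) (c := c) (u := u) (e := e) (k := k) (n := n) (κ' := κ') (A2 := A2) (L := L) (by omega) g3
      (by omega) hLc ⟨q1, q2⟩ (by
        rw [← hjd, p1, p3, p4]
        exact hJ) (by
        rw [← hjd, p5]
        exact h1) (by
        rw [← hjd]
        have : (n : ℝ) ≤ L.length := by exact_mod_cast r1
        linarith) p6 p7
    rw [← hjd, p1, p3, p4] at e3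
    have e4 : (({Y | Y ∈ NCg j (j - a) (2 ^ (j + m)) η L ∧ (Y.length : ℝ) ≤ A2 * ml j}).ncard : ℝ) *
        (({Y | Y ∈ NCg j (j - a) (2 ^ (j + m)) η (rv L) ∧ (Y.length : ℝ) ≤ A2 * ml j}).ncard : ℝ) ≤ (NN P L : ℝ) := by
      exact_mod_cast e3
    have e5 : 0 ≤ κ' * Ub j - κ' / 2 * Ub j := by nlinarith
    have e6 := mul_le_mul e1 e2 e5 (Nat.cast_nonneg _)
    have e7 : (κ' * Ub j - κ' / 2 * Ub j) * (κ' * Ub j - κ' / 2 * Ub j) = (κ' / 2) ^ 2 * Ub j ^ 2 := by ring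
    rw [e7] at e6
    linarith
  refine (gf_mono hcov).trans ((gf_union_le _ _).trans ((add_le_add ((gf_union_le _ _).trans (add_le_add m1 m2))
    ((gf_union_le _ _).trans (add_le_add m3 m4))).trans ?_))
  rw [← ENNReal.ofReal_add (by positivity) (by positivity), ← ENNReal.ofReal_add (by positivity) (by positivity),
    ← ENNReal.ofReal_add (by positivity) (by positivity)]
  apply ENNReal.ofReal_le_ofReal
  nlinarith

end PMA

end HexObs
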