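import Pool.Agent.PMA.Sep

/-!
# PM (helper94): row N for the cuts with good front and back parts

* `NCg`: the good cuts near the end whose front part has a good tip too (the proofs of `caseA`, `nF_of` of helper84, helper29 give
  them for free); **`ng_all : NG`**.
-/

set_option autoImplicit false

namespace HexObs

namespace ARM

open Finset TS SDN SIM NTA TIP TIP.Nf

open scoped ENNReal

/-- the good cuts near the end, good tips on both sides -/
def NCg (b a D : ℕ) (η : ℝ) (t : List Bool) : Set (List Bool) :=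
  {Y | rev Y ∈ GT b η ∧ In D Y ∧ ∃ A, t = A ++ Y ∧ FreeT (2 ^ a) A ∧ A ∈ GT b η}

/-- their number -/
noncomputable def gg (j a m : ℕ) (η : ℝ) (L : List Bool) : ℝ := ((NCg j (j - a) (2 ^ (j + m)) η L).ncard : ℝ)

/-- **row N**, good tips on both sides -/
def NG : Prop := ∀ ε : ℝ, 0 < ε → ∃ (η κ : ℝ) (a m b0 : ℕ), 0 < η ∧ 0 < κ ∧ a ≤ b0 ∧ ∀ (D : ℝ) (n j : ℕ), 0 ≤ D →
  HF D n j → b0 ≤ j → 2 ^ b0 * ml j ≤ n → gf {L | L ∈ Fp n j ∧ gg j a m η L < κ * Ub j} ≤ ENNReal.ofReal (ε * D * pr n j)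

lemma ncg_sub {b a D : ℕ} {η : ℝ} {t : List Bool} : NCg b a D η t ⊆ NCa b a D η t :=
  fun _ ⟨h1, h2, A, h3, h4, _⟩ => ⟨h1, h2, A, h3, h4⟩

lemma nca_fin {b a D : ℕ} {η : ℝ} {t : List Bool} : (NCa b a D η t).Finite := fin_suf fun Y hY => by
  obtain ⟨-, -, A, hA, -⟩ := hY
  exact ⟨A, hA.symm⟩

lemma gg_le_gc (j a m : ℕ) (η : ℝ) (L : List Bool) : gg j a m η L ≤ gc j a m η L := by
  unfold gg gc
  exact_mod_cast Set.ncard_le_ncard ncg_sub nca_fin

lemma ncg_ge {b a D : ℕ} {η : ℝ} {t : List Bool} {S : Finset ℕ}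
    (h : ∀ c ∈ S, c ≤ t.length ∧ rev (t.drop c) ∈ GT b η ∧ In D (t.drop c) ∧ FreeT (2 ^ a) (t.take c) ∧ t.take c ∈ GT b η) :
    S.card ≤ (NCg b a D η t).ncard := by
  classical
  have hfin : (NCg b a D η t).Finite := nca_fin.subset ncg_sub
  have hinj : Set.InjOn (fun c : ℕ => t.drop c) (S : Set ℕ) := by
    intro c hc c' hc' he
    have h1 := congrArg List.length he
    simp only [List.length_drop] at h1
    have := (h c hc).1
    have := (h c' hc').1
    omega
  rw [← card_image_of_injOn hinj, ← Set.ncard_coe_finset]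
  refine Set.ncard_le_ncard (fun Y hY => ?_) hfin
  obtain ⟨c, hc, rfl⟩ := mem_image.1 (mem_coe.1 hY)
  obtain ⟨-, h2, h3, h4, h5⟩ := h c hc
  exact ⟨h2, h3, t.take c, (List.take_append_drop c t).symm, h4, h5⟩

variable {κ : ℝ} {C b : ℕ} {t X Z1 Z2 Z3 Y0 : List Bool}

open Classical in
/-- `caseA` for the cuts with a good front part -/
theorem caseG (hW : NeW) (hd : Dt κ C b t X Z1 Z2 Z3 Y0) {η κ0 κ' : ℝ} {h m r a : ℕ} (hh : 1 ≤ h) (hη : η * Ub b ≤ (h : ℝ))
    (h4 : 4 * h ≤ nc Z2) (hE : In (2 ^ (b + m)) Y0) (hC : 2 * C ≤ 2 ^ m) (ha : 2 ^ a ≤ r)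
    (hκ : κ' * Ub b ≤ κ0) (hN : ((NCg b a (2 ^ (b + (m + 1))) η t).ncard : ℝ) < κ' * Ub b) :
    h ≤ nD (2 ^ (b + (m + 1))) (RA κ0 r b (C * 2 ^ b) (2 ^ (b + (m + 1))) η h) t := by
  have hpow : 2 * (C * 2 ^ b) + 2 ^ (b + m) ≤ 2 ^ (b + (m + 1)) := by
    have e1 : 2 ^ (b + (m + 1)) = 2 ^ m * 2 ^ b + 2 ^ (b + m) := by
      rw [← add_assoc, pow_succ, pow_add]
      ring
    have e2 := Nat.mul_le_mul_right (2 ^ b) hC
    rw [e1]
    nlinarith
  have h1 := card_rank hW (Z := Z2) (lo := h) (hi := 2 * h) hh (by omega)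
  have h2 : 2 * h - h = h := by omega
  rw [h2] at h1
  have h3 := card_rank hW (Z := Z2) (lo := 2 * h) (hi := 3 * h) (by omega) (by omega)
  have h3' : 3 * h - 2 * h = h := by omega
  rw [h3'] at h3
  conv_lhs => rw [← h1, ← card_image_of_injective _ (fun x y h => Nat.add_left_cancel h :
    Function.Injective fun c => (X ++ Z1).length + c)]
  refine nD_ge fun q hq => ?_
  obtain ⟨c, hc, rfl⟩ := mem_image.1 hq
  rw [mem_filter] at hc
  obtain ⟨hc1, hc2, hc3⟩ := hc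
  obtain ⟨a1, a2, a3⟩ := mem_cz.1 hc1
  obtain ⟨f1, f2, f3⟩ := hd.cut a1
  obtain ⟨g1, g2⟩ := hd.gt hW hη h4 hc1 hc2 (by omega)
  refine ⟨f1, ⟨hd.lt hW hη hc1 hc2, ?_⟩, hd.inD hE hpow hc1⟩
  have hlt : ∀ c' ∈ (cz Z2).filter (fun c => 2 * h ≤ nc (Z2.take c) ∧ nc (Z2.take c) < 3 * h), c < c' := by
    intro c' hc'
    rw [mem_filter] at hc'
    by_contra hcon
    rcases Nat.eq_or_lt_of_le (not_lt.1 hcon) with he | he
    · rw [he] at hc'
      omega
    · have := rank_lt hW hc'.1 hc1 he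
      omega
  refine ⟨((cz Z2).filter (fun c => 2 * h ≤ nc (Z2.take c) ∧ nc (Z2.take c) < 3 * h)).image (fun c' => c' - c), ?_,
    fun k hk => ?_⟩
  · rw [card_image_of_injOn, h3]
    intro x hx y hy hxy
    have := hlt x (mem_coe.1 hx)
    have := hlt y (mem_coe.1 hy)
    simp only at hxy
    omega
  · obtain ⟨c', hc', rfl⟩ := mem_image.1 hk
    have hcc := hlt c' hc'
    rw [mem_filter] at hc'
    obtain ⟨d1, d2, d3⟩ := hc'
    obtain ⟨P, M, R, p1, p2, p3, p4, p5, p6, p7, p8, p9, p10⟩ := cz_split hc1 d1 hcc.le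
    obtain ⟨b1, b2, b3⟩ := mem_cz.1 d1
    obtain ⟨k1, k2, k3⟩ := hd.cut b1
    obtain ⟨l1, l2⟩ := hd.gt hW hη h4 d1 (by omega) (by omega)
    have hMl : M.length = c' - c := by omega
    have e1 : t.drop ((X ++ Z1).length + c) = M ++ (R ++ (Z3 ++ Y0)) := by
      rw [f3, p8, List.append_assoc]
    have e2 : (t.drop ((X ++ Z1).length + c)).take (c' - c) = M := by
      rw [e1]
      exact List.take_left' hMl
    have e3 : (t.drop ((X ++ Z1).length + c)).drop (c' - c) = t.drop ((X ++ Z1).length + c') := by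
      rw [List.drop_drop]
      congr 1
      omega
    have e4 : t.take ((X ++ Z1).length + c) ++ M = t.take ((X ++ Z1).length + c') := by
      rw [f2, k2, p7, p9]
      simp only [List.append_assoc]
    rw [e2, e3]
    have hhM : hgt P + (hgt M + hgt R) = hgt Z2 := by
      rw [← hgt_app p2 p3, ← hgt_app p1 (BU_app p2 p3), ← p4]
    have hh2 := hd.h2
    refine ⟨?_, ⟨p2, by omega, ?_, ?_⟩, ?_, SDN.SA_drop hd.sa _, l2, hd.inD hE hpow d1⟩
    · rw [e1, List.length_append]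
      omega
    · rw [e4]
      exact SA_take hd.sa _
    · -- few free cuts
      by_contra hcon
      rw [not_lt] at hcon
      have key : frN (Far6 r) (t.take ((X ++ Z1).length + c)) M ≤ (NCg b a (2 ^ (b + (m + 1))) η t).ncard := by
        unfold frN
        rw [← card_image_of_injective _ (fun x y h => Nat.add_left_cancel h :
          Function.Injective fun i => ((X ++ Z1).length + c) + i)]
        refine ncg_ge fun q hq => ?_
        obtain ⟨i, hi, rfl⟩ := mem_image.1 hq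
        rw [mem_filter, mem_range] at hi
        obtain ⟨i1, i2, i3, i4⟩ := hi
        have m1 : Z2.take (c + i) = P ++ M.take i := by
          rw [p4, ← p5, List.take_length_add_append, List.take_append_of_le_length (by omega)]
        have m2 : Z2.drop (c + i) = M.drop i ++ R := by
          rw [p4, ← p5, List.drop_length_add_append, List.drop_append_of_le_length (by omega)]
        have m3 : c + i ∈ cz Z2 := by
          rw [mem_cz, m1, m2]
          exact ⟨by omega, BU_app p1 i2, BU_app i3 p3⟩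
        have m4 : nc (Z2.take c) ≤ nc (Z2.take (c + i)) := by
          rcases Nat.eq_zero_or_pos i with h0 | h0
          · rw [h0, add_zero]
          · exact (rank_lt hW hc1 m3 (by omega)).le
        have m5 : nc (Z2.take (c + i)) ≤ nc (Z2.take c') := by
          rcases Nat.eq_or_lt_of_le (show c + i ≤ c' by omega) with h0 | h0
          · rw [h0]
          · exact (rank_lt hW m3 d1 h0).le
        obtain ⟨n1, n2, n3⟩ := hd.cut (mem_cz.1 m3).1
        obtain ⟨o1, o2⟩ := hd.gt hW hη h4 m3 (by omega) (by omega)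
        rw [← add_assoc] at n1 n2 n3 o1 o2
        refine ⟨n1, o2, ?_, ?_, o1⟩
        · have := hd.inD hE hpow m3
          rwa [← add_assoc (X ++ Z1).length c i] at this
        · have : t.take ((X ++ Z1).length + c + i) = t.take ((X ++ Z1).length + c) ++ M.take i := by
            rw [n2, f2, m1, p7]
            simp only [List.append_assoc]
          rw [this]
          exact free_of i2 i4 ha
      have key' : (frN (Far6 r) (t.take ((X ++ Z1).length + c)) M : ℝ) ≤ ((NCg b a (2 ^ (b + (m + 1))) η t).ncard : ℝ) := by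
        exact_mod_cast key
      linarith
    · refine in_mid (X := Z1 ++ P) (R := R ++ Z3) (BU_dx (BU_app hd.b1 p1)) ?_
      have : (Z1 ++ P) ++ (M ++ (R ++ Z3)) = Z1 ++ (Z2 ++ Z3) := by
        rw [p4]
        simp only [List.append_assoc]
      rw [this]
      exact hd.inn

open Classical in
/-- **row N for the cuts with good front and back parts** -/
theorem nG_of {κ : ℝ} {C : ℕ} (hκ : 0 < κ) (hE : ExF) (hY : YBadWSt κ C) (hN : NoRSt κ C) (hL : HfLow) (hYJ : YMassJ) :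
    NG := by
  have hWB := wB_of hκ hE hY hN hL
  intro ε hε
  obtain ⟨η, hηd⟩ : ∃ η : ℝ, η = κ / 8 := ⟨_, rfl⟩
  have hη : 0 < η := by rw [hηd]; positivity
  obtain ⟨C1, hC1, hE⟩ := hE η 0 hη
  obtain ⟨CU, κ0, r0, hCU, hκ0, hUA⟩ := uah6
  obtain ⟨CB, hCB, hB⟩ := b_tail
  obtain ⟨CJ, hCJ, hYJ⟩ := hYJ η 4 hη
  obtain ⟨m0, hWB⟩ := hWB (ε / 2) (by positivity)
  obtain ⟨m, hm⟩ : ∃ m : ℕ, m = max m0 (2 * C + 3) := ⟨_, rfl⟩
  have hm0 : m0 ≤ m := by rw [hm]; exact le_max_left _ _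
  have hmC : 2 * C + 3 ≤ m := by rw [hm]; exact le_max_right _ _
  have hm2 : 2 * C ≤ 2 ^ m := by
    have := (Nat.lt_two_pow_self (n := m)).le
    omega
  obtain ⟨b1, hWB⟩ := hWB m hm0
  -- the constants
  obtain ⟨M, hM⟩ : ∃ M : ℝ, M = CJ ^ (m + 1 + 1) := ⟨_, rfl⟩
  have hM0 : 0 < M := by rw [hM]; positivity
  obtain ⟨K1, hK1⟩ : ∃ K1 : ℝ, K1 = 16 * (CU + Real.sqrt (CU * CB)) * M * 8 / κ := ⟨_, rfl⟩
  have hK10 : 0 < K1 := by rw [hK1]; positivity
  obtain ⟨K2, hK2⟩ : ∃ K2 : ℝ, K2 = C1 * 16 ^ (m + 1) * K1 * 8 / κ := ⟨_, rfl⟩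
  have hK20 : 0 < K2 := by rw [hK2]; positivity
  obtain ⟨a, ha⟩ := ex_Ub (K := K2 ^ 2) (e := (ε / 2) ^ 2) (by positivity) (by positivity)
  obtain ⟨bU, hbU⟩ : ∃ bU : ℕ, ∀ b, bU ≤ b → 8 ≤ κ * Ub b := by
    obtain ⟨B, hB⟩ := Ub_big
    obtain ⟨n, hn⟩ := exists_nat_ge (8 / κ)
    refine ⟨B * n, fun b hb => ?_⟩
    have h1 := hB b n hb
    have h2 : (n : ℝ) ≤ 8 ^ n := by
      exact_mod_cast (Nat.lt_pow_self (by norm_num : 1 < 8)).le
    have h3 : 8 / κ ≤ Ub b := hn.trans (h2.trans h1)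
    rw [div_le_iff₀ hκ] at h3
    linarith
  refine ⟨η, κ0 / 2 ^ a, a, m + 1, b1 + bU + (a + r0 + 1), hη, by positivity, by omega, fun D n j hD hF hj hn => ?_⟩
  have h8 := hbU j (by omega)
  have hU := TS.Ub_pos j
  have hp := pr_nonneg n j
  -- the numbers
  obtain ⟨h, hh⟩ : ∃ h : ℕ, h = ⌈κ * Ub j / 8⌉₊ := ⟨_, rfl⟩
  have hh1 : 1 ≤ h := by
    rw [hh, Nat.one_le_iff_ne_zero, Nat.ne_zero_iff_zero_lt, Nat.ceil_pos]
    positivity
  have hq : κ * Ub j / 8 ≤ (h : ℝ) := by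
    rw [hh]
    exact Nat.le_ceil _
  have hh2 : (h : ℝ) < κ * Ub j / 8 + 1 := by
    rw [hh]
    exact Nat.ceil_lt_add_one (by positivity)
  have hηh : η * Ub j ≤ (h : ℝ) := by
    rw [hηd]
    calc κ / 8 * Ub j = κ * Ub j / 8 := by ring
      _ ≤ h := hq
  obtain ⟨r, hr⟩ : ∃ r : ℕ, r = 2 ^ (j - a) := ⟨_, rfl⟩
  have hr0 : r0 ≤ r := by
    rw [hr]
    have h1 : r0 ≤ j - a := by omega
    exact h1.trans Nat.lt_two_pow_self.le
  have hUr : UU r = Ub (j - a) := by rw [hr]; rfl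
  have hUr0 : 0 < UU r := by rw [hUr]; exact TS.Ub_pos _
  have hUrb : UU r ≤ Ub j := by
    unfold Ub
    exact UU_mono (by rw [hr]; exact Nat.pow_le_pow_right (by norm_num) (by omega))
  have hUj : Ub j ≤ 2 ^ a * UU r := by
    have := Ub_steps (j - a) a
    rw [Nat.sub_add_cancel (by omega)] at this
    rw [hUr]
    exact this
  have hκU : κ0 / 2 ^ a * Ub j ≤ κ0 * UU r := by
    rw [div_mul_eq_mul_div, div_le_iff₀ (by positivity)]
    nlinarith
  -- the event
  obtain ⟨i, hi⟩ : ∃ i : ℕ, i = j + (m + 1) := ⟨_, rfl⟩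
  obtain ⟨ρ, hρ⟩ : ∃ ρ : List Bool → List Bool → Prop,
    ρ = RA (κ0 * UU r) r j (C * 2 ^ j) (2 ^ (j + (m + 1))) η h := ⟨_, rfl⟩
  obtain ⟨EA, hEA⟩ : ∃ EA : Set (List Bool), EA = {L | L ∈ Fp n j ∧ κ * Ub j / 8 ≤ (nD (2 ^ (i + 0)) ρ L : ℝ)} := ⟨_, rfl⟩
  have hcov : {L | L ∈ Fp n j ∧ gg j a (m + 1) η L < κ0 / 2 ^ a * Ub j} ⊆ WB κ C n j m ∪ EA := by
    rintro L ⟨hLF, hbad⟩
    by_cases hW : L ∈ WB κ C n j m
    · exact Or.inl hW
    refine Or.inr ?_
    have hNz : L ∉ Nz κ C j := fun hN => hW ⟨hLF, Or.inl hN⟩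
    obtain ⟨X, Z1, Z2, Z3, Y0, hd⟩ := dt_of neW hLF.1 hNz
    have hin : In (2 ^ (j + m)) Y0 := by
      by_contra hc
      exact hW ⟨hLF, Or.inr ⟨X, Z1, Z2, Z3, Y0, hd, hc⟩⟩
    have h4 : 4 * h ≤ nc Z2 := by
      have h5 : (4 : ℝ) * h ≤ nc Z2 := by
        have := hd.n2
        linarith
      exact_mod_cast h5
    rw [hEA, hρ, hi, add_zero]
    refine ⟨hLF, hq.trans ?_⟩
    exact_mod_cast caseG neW hd hh1 hηh h4 hin hm2 (by rw [hr]) hκU hbad
  have hA1 : gf EA ≤ ENNReal.ofReal (ε / 2 * D * pr n j) := by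
    have hFi : HF D n i := fun n' i' hn' hi' => hF n' i' hn' (by omega)
    obtain ⟨x, hx⟩ : ∃ x : ℝ, x = K1 * Real.sqrt (UU r * Ub j) := ⟨_, rfl⟩
    have hx0 : 0 ≤ x := by rw [hx]; positivity
    have h5 := hE D n j i j hD hFi (by omega) (by omega) ρ (ENNReal.ofReal x * Xb j) (κ * Ub j / 8)
      (fun A Y h => by rw [hρ] at h; exact h.1.gt) (fun A => ?_) (by positivity)
    · rw [← hEA] at h5
      have hpi := pr_nonneg n i
      refine (cancelF (by positivity) (by positivity) h5).trans (ENNReal.ofReal_le_ofReal ?_)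
      have h7 := pr_up16 n j (m + 1)
      rw [← hi] at h7
      have h9 : K2 * (Real.sqrt (UU r * Ub j) / Ub j) ≤ ε / 2 := by
        have e1 : Real.sqrt (UU r * Ub j) / Ub j = Real.sqrt (UU r / Ub j) := by
          rw [Real.sqrt_mul hUr0.le, Real.sqrt_div hUr0.le, div_eq_div_iff hU.ne' (Real.sqrt_pos.2 hU).ne', mul_assoc,
            Real.mul_self_sqrt hU.le]
        rw [e1]
        have e2 := ha j (by omega)
        rw [← hUr] at e2
        have e3 : K2 * Real.sqrt (UU r / Ub j) = Real.sqrt (K2 ^ 2 * (UU r / Ub j)) := by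
          rw [Real.sqrt_mul (by positivity), Real.sqrt_sq hK20.le]
        rw [e3]
        exact Real.sqrt_le_iff.2 ⟨by positivity, e2⟩
      rw [div_le_iff₀ (by positivity)]
      have hDp : 0 ≤ D * pr n j := by positivity
      calc C1 * D * pr n i * x ≤ C1 * D * (16 ^ (m + 1) * pr n j) * x := by gcongr
        _ = (K2 * (Real.sqrt (UU r * Ub j) / Ub j)) * (D * pr n j) * (κ * Ub j / 8) := by
            rw [hx, hK2]
            field_simp
        _ ≤ ε / 2 * (D * pr n j) * (κ * Ub j / 8) := by gcongr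
        _ = _ := by ring
    · -- the mass of the second parts
      obtain ⟨y, hy⟩ : ∃ y : ℕ, y = n - A.length := ⟨_, rfl⟩
      have h6 := fw_tail (κ0 := κ0 * UU r) (η := η) (q := h) (CU := CU) (CB := CB) (M := M) (r := r) (b := j) (m := m + 1)
        (E := 2 * (C * 2 ^ j)) (D := 2 ^ (j + (m + 1))) (y := y) (A := A) hCU hCB hM0.le hUrb hUr0 (hUA r hr0 (2 ^ j) A)
        (hB j y) (by rw [hM]; exact_mod_cast hYJ j (m + 1))
      obtain ⟨S, hS⟩ : ∃ S : Set (List Bool), S = {Y | Fw (κ0 * UU r) r j (2 * (C * 2 ^ j)) (2 ^ (j + (m + 1))) η h A Y ∧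
        y ≤ Y.length} := ⟨_, rfl⟩
      rw [← hS] at h6
      have h7 : gf S ≤ ENNReal.ofReal x * Xb j * ENNReal.ofReal (wt n A.length i) := by
        have e0 : ENNReal.ofReal (κ * Ub j / 8) ≠ 0 := by
          rw [Ne, ENNReal.ofReal_eq_zero, not_le]
          positivity
        refine (ENNReal.mul_le_mul_iff_right e0 ENNReal.ofReal_ne_top).1 ?_
        refine (mul_le_mul' (ENNReal.ofReal_le_ofReal hq) le_rfl).trans (h6.trans (le_of_eq ?_))
        rw [mul_right_comm (ENNReal.ofReal x), ← ENNReal.ofReal_mul hx0, ← mul_assoc, ← ENNReal.ofReal_mul (by positivity)]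
        congr 2
        unfold wt
        rw [← hy, hi, hx, hK1]
        field_simp
      refine (gf_mono ?_).trans h7
      rintro Y ⟨y1, y2, y3⟩
      rw [hρ] at y1
      rw [hS]
      refine ⟨y1.2, ?_⟩
      have h8 := y3.2.1
      rw [List.length_append] at h8
      omega
  have hW1 : gf (WB κ C n j m) ≤ ENNReal.ofReal (ε / 2 * D * pr n j) := by
    refine hWB D n j hD hF (by omega) (le_trans (mul_le_mul_of_nonneg_right ?_ (ml_pos j).le) hn)
    exact pow_le_pow_right₀ (by norm_num) (by omega)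
  refine (gf_mono hcov).trans ((gf_union_le _ _).trans ((add_le_add hW1 hA1).trans (le_of_eq ?_)))
  rw [← ENNReal.ofReal_add (by positivity) (by positivity)]
  congr 1
  ring

/-- row NG without hypothesis -/
theorem ng_all : NG := by
  obtain ⟨κ, hκ, C, -, hR⟩ := regZ_all
  exact nG_of hκ (exF_of tipF_all) (yBadWSt yMassJ hR) (noR hR confSt) hfLow yMassJ

end ARM

end HexObs
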