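import Pool.Agent.PMA.GeoU
import Pool.Agent.ARM.FastN
import Pool.Agent.ARM.NumB

/-!
# PM (page 83R), row K8 (helper22): the first letters of a closed word do not go far

* `E2G` : literal of row K6 (b) (a rare factor in the root piece);
* **`root_pow`** : every power.
-/

set_option autoImplicit false

namespace HexObs

namespace PMA

open Finset TS SDN HexObs.SIM NTA TIP ARM ARM.T2

open scoped ENNReal

/-- row K6 (b): closed words with a rare factor in the root piece of the scale b; s: the box of the hypothesis -/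
def E2G (κ : ℝ) (C s : ℕ) : Prop := ∃ (A c B : ℝ) (b0 : ℕ), 0 < A ∧ 0 < c ∧ 1 ≤ B ∧
  ∀ (n b J : ℕ) (QQ : Set (List Bool)) (δ : ℝ), 1 ≤ n → b0 ≤ b → 0 < δ → δ ≤ 1 →
    gf {t | t ∈ WL (b + J + s) ∧ t ∈ NPR.Fac QQ} ≤ ENNReal.ofReal δ * NPR.FK (b + J + s) →
      gf {L | L ∈ C0 n ∧ ∃ P Z V W Y, L = P ++ (Z ++ (V ++ (W ++ Y))) ∧ Z ∈ Zc κ C b ∧ W ∈ Zc κ C b ∧
        In (2 ^ (b + J)) P ∧ In (2 ^ (b + J)) Y ∧ (P ∈ NPR.Fac QQ ∨ Y ∈ NPR.Fac QQ)} ≤
          ENNReal.ofReal (A * δ ^ c * B ^ J * (n : ℝ) ^ (-(3 / 2) : ℝ))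

/-- the norm and the levels -/
lemma dir_of_hn {p : Pt} {s : ℕ} (hs : 1 ≤ s) (h : (2 : ℤ) ^ s ≤ TIW.hn p) : ∃ dir, (2 : ℤ) ^ (s - 1) ≤ |lvl dir p| := by
  by_contra hcon
  push Not at hcon
  have e : (2 : ℤ) ^ s = 2 * 2 ^ (s - 1) := by
    rw [← pow_succ']
    congr 1
    omega
  rw [e] at h
  have h1 := hcon false
  have h2 := hcon true
  generalize (2 : ℤ) ^ (s - 1) = N at *
  have h3 := TIW.hn_of_lvl (p := p) (a := N - 1) (b := N - 1) (by omega) (by omega)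
  omega

lemma lvl_le_hn (dir : Bool) (p : Pt) : |lvl dir p| ≤ TIW.hn p := by
  cases dir with
  | false =>
    rw [TIP.lvl_false]
    exact le_max_left _ _
  | true =>
    rw [TIP.lvl_true, abs_neg]
    exact (le_max_right _ _).trans (le_max_right _ _)

lemma lvl_sb (dir : Bool) (v w : Pt) : lvl dir v - lvl dir w = lvl dir (v - w) := by
  unfold lvl
  rw [ip_sub_left]

/-- a fast factor -/
lemma fac_DE {s : ℕ} {x : ℝ} {t : List Bool} (hs : 1 ≤ s) (h : t ∈ NPR.Fac (EN.DE s x)) : t ∈ EN.DE (s - 1) x := by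
  obtain ⟨X, Q, Y, rfl, dir, i, j, hij, hj, hx, hd⟩ := h
  obtain ⟨c, hc, -, hf⟩ := drop_frame' (X ++ (Q ++ Y)) X.length
  rw [List.drop_left] at hf
  have e1 : ∀ k, k ≤ Q.length → vx oo up (X ++ (Q ++ Y)) (X.length + k) =
      vx oo up (X ++ (Q ++ Y)) X.length + mulE c (vx oo up Q k) := by
    intro k hk
    rw [hf k, vx_append (show k ≤ Q.length + 1 by omega)]
  have e2 : vx oo up (X ++ (Q ++ Y)) (X.length + j) - vx oo up (X ++ (Q ++ Y)) (X.length + i) =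
      mulE c (vx oo up Q j - vx oo up Q i) := by
    rw [e1 j hj, e1 i (hij.trans hj), mulE_sub]
    abel
  have h1 : (2 : ℤ) ^ s ≤ TIW.hn (vx oo up (X ++ (Q ++ Y)) (X.length + j) - vx oo up (X ++ (Q ++ Y)) (X.length + i)) := by
    rw [e2, ARM.hn_mulE' hc]
    rw [lvl_sb] at hd
    exact hd.trans (lvl_le_hn _ _)
  obtain ⟨dir', h2⟩ := dir_of_hn hs h1
  refine ⟨dir', X.length + i, X.length + j, by omega, ?_, ?_, ?_⟩
  · simp only [List.length_append]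
    omega
  · push_cast
    linarith
  · rw [lvl_sb]
    exact h2

/-- the closed words whose first x letters leave the ball -/
def FR (D : ℤ) (x : ℝ) (n : ℕ) : Set (List Bool) :=
  {L | L ∈ C0 n ∧ ∃ i, i ≤ L.length ∧ (i : ℝ) ≤ x ∧ D ≤ TIW.hn (vx oo up L i)}

/-- **a fast start is a fast factor of the root piece** -/
lemma root_fast {κ : ℝ} {C b m n : ℕ} {x : ℝ} {L : List Bool} (hb : 1 ≤ b) (h : L ∈ FR (2 ^ (b + m + 3)) x n)
    (hN : L ∉ NoU κ C b m n) :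
    ∃ P Z V W Y, L = P ++ (Z ++ (V ++ (W ++ Y))) ∧ Z ∈ Zc κ C b ∧ W ∈ Zc κ C b ∧ In (2 ^ (b + m)) P ∧
      In (2 ^ (b + m)) Y ∧ (P ∈ NPR.Fac (EN.DE (b - 1) x) ∨ Y ∈ NPR.Fac (EN.DE (b - 1) x)) := by
  classical
  obtain ⟨hL, i, hi, hix, hD⟩ := h
  have hb0 : (0 : ℤ) < 2 ^ b := by positivity
  have e3 : (2 : ℤ) ^ (b + m + 3) = 8 * 2 ^ (b + m) := by rw [pow_add]; ring
  have hbm : (2 : ℤ) ^ b ≤ 2 ^ (b + m) := pow_le_pow_right₀ (by norm_num) (by omega)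
  have hex : ∃ k, (2 : ℤ) ^ b ≤ TIW.hn (vx oo up L k) := ⟨i, by rw [e3] at hD; linarith⟩
  obtain ⟨u, hu⟩ : ∃ u, u = Nat.find hex := ⟨_, rfl⟩
  have hu1 : (2 : ℤ) ^ b ≤ TIW.hn (vx oo up L u) := by rw [hu]; exact Nat.find_spec hex
  have hu2 : ∀ k, k < u → TIW.hn (vx oo up L k) < 2 ^ b := fun k hk => by
    rw [hu] at hk
    exact not_le.1 (Nat.find_min hex hk)
  have hui : u ≤ i := by
    rw [hu]
    exact Nat.find_min' hex (by rw [e3] at hD; linarith)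
  have hul : u ≤ L.length := hui.trans hi
  have hu0 : u ≠ 0 := by
    intro h0
    rw [h0] at hu1
    have : TIW.hn (vx oo up L 0) = 0 := by
      have h1 : vx oo up L 0 = 0 := rfl
      rw [h1]
      rfl
    rw [this] at hu1
    omega
  have htl : (L.take u).length = u := by rw [List.length_take]; omega
  have hvt : ∀ k, k ≤ u → vx oo up (L.take u) k = vx oo up L k := by
    intro k hk
    conv_rhs => rw [← List.take_append_drop u L]
    rw [vx_append (by omega)]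
  have hin : In (2 ^ (b + 1)) (L.take u) := by
    refine ARM.In_of_hn fun s hs => ?_
    rw [htl] at hs
    rw [hvt s hs]
    rcases Nat.lt_or_ge s u with h1 | h1
    · have := hu2 s h1
      push_cast
      rw [pow_succ]
      linarith
    · have hsu : s = u := le_antisymm hs h1
      obtain ⟨v, rfl⟩ : ∃ v, u = v + 1 := ⟨u - 1, by omega⟩
      have h2 := hu2 v (by omega)
      have h3 := TIW.hn_add (vx oo up L v) (dx up L v)
      rw [← vx_succ, TIW.hn_dir (dx_mem (by decide) L v)] at h3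
      rw [hsu]
      push_cast
      rw [pow_succ]
      have h4 : (2 : ℤ) ≤ 2 ^ b := by
        calc (2 : ℤ) = 2 ^ 1 := by norm_num
          _ ≤ 2 ^ b := pow_le_pow_right₀ (by norm_num) hb
      linarith
  by_contra hcon
  refine hN ⟨hL, u, hul, hin, ?_⟩
  rintro ⟨P, Z, V, W, Y, h1, h2, h3, h4, h5, h6⟩
  refine hcon ⟨P, Z, V, W, Y, h1, h2, h3, h5, h6, Or.inl ⟨[], P, [], by simp, ?_⟩⟩
  have hvP : ∀ k, k ≤ P.length → vx oo up P k = vx oo up L k := by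
    intro k hk
    rw [h1, vx_append (by omega)]
  have hPi : P.length < i := by
    by_contra hc
    rw [not_lt] at hc
    have h7 := ARM.hn_box h5 hc
    rw [hvP i hc] at h7
    push_cast at h7
    have h8 : (0 : ℤ) < 2 ^ (b + m) := by positivity
    rw [e3] at hD
    linarith
  obtain ⟨dir, h7⟩ := dir_of_hn hb hu1
  refine ⟨dir, 0, u, Nat.zero_le _, h4, ?_, ?_⟩
  · have h8 : (u : ℝ) ≤ i := by exact_mod_cast hui
    push_cast
    linarith
  · rw [lvl_sb, hvP u h4]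
    have h8 : vx oo up P 0 = 0 := rfl
    rw [h8, sub_zero]
    exact h7

/-- **the first letters of a closed word**, every power -/
theorem root_pow {κ : ℝ} {C s : ℕ} (hB : RootB κ C) (hN : RootN κ C) (hE : E2G κ C s) (a Q : ℕ) :
    ∃ (A : ℝ) (J0 b0 : ℕ), 0 < A ∧ ∀ n b m : ℕ, 1 ≤ n → b0 ≤ b → J0 ≤ m →
      gf (FR (2 ^ (b + m + 3)) ((1 / 2) ^ m * PW.mZ (2 ^ (b - 2))) n) ≤
        ENNReal.ofReal (A * ((1 / 2) ^ (a * m) + (ml (b + m) / n) ^ Q) * (n : ℝ) ^ (-(3 / 2) : ℝ)) := by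
  obtain ⟨A1, J1, b1, hA1, hG⟩ := geoU hB hN a Q
  obtain ⟨A2, c, B, b2, hA2, hc, hBB, hE⟩ := hE
  obtain ⟨C1, hC1, hF⟩ := fastW
  have hB0 : 0 < B := by linarith
  have hC10 : 0 < C1 := by linarith
  -- the power
  obtain ⟨M, hM⟩ : ∃ M : ℝ, M = (B * 2 ^ a) ^ (1 / c) := ⟨_, rfl⟩
  have hBa : 0 < B * 2 ^ a := by positivity
  have hM0 : 0 < M := by rw [hM]; positivity
  obtain ⟨Q1, hQ1⟩ : ∃ Q1 : ℕ, 2 * C1 * M < (2 : ℝ) ^ Q1 ∧ 2 * C1 < (2 : ℝ) ^ Q1 := by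
    obtain ⟨q, hq⟩ := pow_unbounded_of_one_lt (2 * C1 * M + 2 * C1) (show (1 : ℝ) < 2 by norm_num)
    exact ⟨q, by have : 0 < 2 * C1 := by positivity
                 linarith, by have : 0 < 2 * C1 * M := by positivity
                              linarith⟩
  obtain ⟨A3, hA3, hF⟩ := hF Q1
  obtain ⟨r, hr⟩ : ∃ r : ℝ, r = C1 / 2 ^ Q1 := ⟨_, rfl⟩
  have hr0 : 0 < r := by rw [hr]; positivity
  have hr1 : r ≤ 1 / 2 := by
    rw [hr, div_le_iff₀ (by positivity)]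
    linarith [hQ1.2]
  have hrM : r * M ≤ 1 := by
    rw [hr, div_mul_eq_mul_div, div_le_one (by positivity)]
    nlinarith [hQ1.1]
  have hrc : r ^ c * (B * 2 ^ a) ≤ 1 := by
    have e1 : B * 2 ^ a = M ^ c := by
      rw [hM, ← Real.rpow_mul hBa.le, one_div, inv_mul_cancel₀ hc.ne', Real.rpow_one]
    rw [e1, ← Real.mul_rpow hr0.le hM0.le]
    exact Real.rpow_le_one (by positivity) hrM hc.le
  obtain ⟨D1, hD1⟩ : ∃ D1 : ℝ, D1 = A3 * C1 ^ (s + 2) := ⟨_, rfl⟩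
  have hD10 : 0 < D1 := by rw [hD1]; have : 0 < A3 := by linarith
                           positivity
  obtain ⟨J2, hJ2⟩ : ∃ J2 : ℕ, D1 < (2 : ℝ) ^ J2 := pow_unbounded_of_one_lt _ (by norm_num)
  refine ⟨A1 + A2 * D1 ^ c, J1 + J2, b1 + b2 + 3, by positivity, fun n b m hn hb hm => ?_⟩
  have hn0 : (0 : ℝ) < n := by exact_mod_cast hn
  have hmp := ml_pos (b + m)
  obtain ⟨ν, hν⟩ : ∃ ν : ℝ, ν = (n : ℝ) ^ (-(3 / 2) : ℝ) := ⟨_, rfl⟩
  have hν0 : 0 ≤ ν := by rw [hν]; positivity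
  obtain ⟨x, hx⟩ : ∃ x : ℝ, x = (1 / 2 : ℝ) ^ m * PW.mZ (2 ^ (b - 2)) := ⟨_, rfl⟩
  obtain ⟨δ, hδ⟩ : ∃ δ : ℝ, δ = D1 * r ^ m := ⟨_, rfl⟩
  have hδ0 : 0 < δ := by rw [hδ]; positivity
  have hδ1 : δ ≤ 1 := by
    have h1 : r ^ m ≤ (1 / 2) ^ J2 := by
      calc r ^ m ≤ (1 / 2) ^ m := pow_le_pow_left₀ hr0.le hr1 m
        _ ≤ (1 / 2) ^ J2 := pow_le_pow_of_le_one (by norm_num) (by norm_num) (by omega)
    have h2 : D1 * (1 / 2) ^ J2 ≤ 1 := by
      rw [one_div, inv_pow, ← div_eq_mul_inv, div_le_one (by positivity)]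
      exact hJ2.le
    rw [hδ]
    exact (mul_le_mul_of_nonneg_left h1 hD10.le).trans h2
  have hbox : gf {t | t ∈ WL (b + m + s) ∧ t ∈ NPR.Fac (EN.DE (b - 1) x)} ≤ ENNReal.ofReal δ * NPR.FK (b + m + s) := by
    have h1 := hF (b + m + s) (b - 2) ((1 / 2) ^ m) (by omega) (by positivity) (pow_le_one₀ (by norm_num) (by norm_num))
    rw [← hx] at h1
    refine (gf_mono ?_).trans (h1.trans (le_of_eq ?_))
    · rintro t ⟨h2, h3⟩
      have h4 := fac_DE (by omega) h3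
      rw [show b - 1 - 1 = b - 2 by omega] at h4
      exact ⟨h2, h4⟩
    · unfold NPR.FK
      congr 2
      have e9 : ((1 / 2 : ℝ) ^ m) ^ Q1 = ((2 ^ Q1) ^ m)⁻¹ := by
        rw [← pow_mul, ← pow_mul, mul_comm, one_div, inv_pow]
      rw [hδ, hD1, hr, show b + m + s - (b - 2) = (s + 2) + m by omega, pow_add C1, e9, div_pow, div_eq_mul_inv]
      ring
  have hcov : FR (2 ^ (b + m + 3)) x n ⊆ NoU κ C b m n ∪ {L | L ∈ C0 n ∧ ∃ P Z V W Y, L = P ++ (Z ++ (V ++ (W ++ Y))) ∧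
      Z ∈ Zc κ C b ∧ W ∈ Zc κ C b ∧ In (2 ^ (b + m)) P ∧ In (2 ^ (b + m)) Y ∧
      (P ∈ NPR.Fac (EN.DE (b - 1) x) ∨ Y ∈ NPR.Fac (EN.DE (b - 1) x))} := by
    intro L hL
    by_cases h1 : L ∈ NoU κ C b m n
    · exact Or.inl h1
    · exact Or.inr ⟨hL.1, root_fast (by omega) hL h1⟩
  rw [← hx]
  refine (gf_mono hcov).trans ((gf_union_le _ _).trans ((add_le_add (hG n b m hn (by omega) (by omega))
    (hE n b m _ δ hn (by omega) hδ0 hδ1 hbox)).trans ?_))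
  rw [← ENNReal.ofReal_add (by positivity) (by positivity)]
  refine ENNReal.ofReal_le_ofReal ?_
  rw [← hν]
  have h1 : δ ^ c * B ^ m ≤ D1 ^ c * (1 / 2) ^ (a * m) := by
    have e1 : (r ^ m) ^ c = (r ^ c) ^ m := by
      rw [← Real.rpow_natCast, ← Real.rpow_mul hr0.le, mul_comm, Real.rpow_mul hr0.le, Real.rpow_natCast]
    have e2 : (r ^ c * B) ≤ (1 / 2) ^ a := by
      rw [one_div, inv_pow, le_inv_comm₀ (by positivity) (by positivity)]
      rw [le_inv_comm₀ (by positivity) (by positivity), ← one_div, le_div_iff₀ (by positivity)]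
      linarith [hrc]
    rw [hδ, Real.mul_rpow hD10.le (by positivity), e1, mul_assoc, ← mul_pow, pow_mul]
    exact mul_le_mul_of_nonneg_left (pow_le_pow_left₀ (by positivity) e2 m) (by positivity)
  obtain ⟨g, hg⟩ : ∃ g : ℝ, g = (1 / 2 : ℝ) ^ (a * m) := ⟨_, rfl⟩
  obtain ⟨y, hy⟩ : ∃ y : ℝ, y = (ml (b + m) / n) ^ Q := ⟨_, rfl⟩
  have hy0 : 0 ≤ y := by rw [hy]; positivity
  rw [← hg] at h1 ⊢
  rw [← hy]
  have h2 : A2 * δ ^ c * B ^ m * ν ≤ A2 * (D1 ^ c * g) * ν := by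
    rw [mul_assoc A2]
    gcongr
  have h3 : 0 ≤ A2 * D1 ^ c * y * ν := by positivity
  have e4 : (A1 + A2 * D1 ^ c) * (g + y) * ν = A1 * (g + y) * ν + A2 * (D1 ^ c * g) * ν + A2 * D1 ^ c * y * ν := by ring
  rw [e4]
  linarith

end PMA

end HexObs
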