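import Pool.Agent.PMA.PolA

/-!
# PM (page 83R), row K8 (helper22): rotations of closed words; from the first letters to all windows

* `rot_one` : the mass of the closed words with one given rotation in T;
* **`rot_union`** : a large displacement of ℓ letters somewhere, from a large displacement of the first 2 ℓ letters.
-/

set_option autoImplicit false

namespace HexObs

namespace PMA

open Finset TS SDN HexObs.SIM NTA TIP ARM ARM.T2

open scoped ENNReal

lemma gf_two_letters : gf (({[true], [false]} : Finset (List Bool)) : Set (List Bool)) = ENNReal.ofReal (2 * xc) := by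
  rw [gf_finset, Finset.sum_pair (by decide)]
  congr 1
  simp only [List.length_singleton, pow_one]
  ring

/-- **one rotation** -/
theorem rot_one (n r : ℕ) (T : Set (List Bool)) :
    gf {L | L ∈ C0 n ∧ ∃ β, L ++ [β] ∈ POL.Cy (n + 1) ∧ ((L ++ [β]).rotate r).dropLast ∈ T} ≤ 2 * gf T := by
  classical
  have hxc := xc_pos
  obtain ⟨S, hS⟩ : ∃ S : Set (List Bool), S = {L | L ∈ C0 n ∧ ∃ β, L ++ [β] ∈ POL.Cy (n + 1) ∧
    ((L ++ [β]).rotate r).dropLast ∈ T} := ⟨_, rfl⟩
  rw [← hS]
  have hex : ∀ L ∈ S, ∃ β, L ++ [β] ∈ POL.Cy (n + 1) ∧ ((L ++ [β]).rotate r).dropLast ∈ T := by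
    intro L hL
    rw [hS] at hL
    exact hL.2
  choose! β h1 h2 using hex
  have h3 : gf S ≤ ENNReal.ofReal xc⁻¹ * gf {s | s.length = n + 1 ∧ s.dropLast ∈ T} := by
    refine gf_le_of_inj (fun L => (L ++ [β L]).rotate r) ?_ ?_ _ ?_
    · intro L hL
      exact ⟨by rw [List.length_rotate]; exact (h1 L hL).1, h2 L hL⟩
    · intro L _ L' _ he
      simp only at he
      exact List.append_inj_left' (List.rotate_injective r he) rfl
    · intro L hL
      unfold wE
      rw [← ENNReal.ofReal_mul (by positivity)]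
      refine ENNReal.ofReal_le_ofReal (le_of_eq ?_)
      simp only [List.length_rotate, List.length_append, List.length_singleton, pow_succ]
      field_simp
  have h4 : gf {s : List Bool | s.length = n + 1 ∧ s.dropLast ∈ T} ≤
      gf T * gf (({[true], [false]} : Finset (List Bool)) : Set (List Bool)) := by
    refine gf_le_mul fun s hs => ?_
    obtain ⟨hl, hs⟩ := hs
    have hne : s ≠ [] := by
      rintro rfl
      simp at hl
    refine ⟨s.dropLast, hs, [s.getLast hne], ?_, (List.dropLast_append_getLast hne).symm⟩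
    cases s.getLast hne <;> simp
  rw [gf_two_letters] at h4
  refine h3.trans ((mul_le_mul_right h4 _).trans (le_of_eq ?_))
  rw [mul_comm (gf T), ← mul_assoc, ← ENNReal.ofReal_mul (by positivity)]
  congr 1
  rw [show xc⁻¹ * (2 * xc) = 2 by field_simp]
  norm_num

/-- the closed words with a large displacement in at most ℓ letters -/
def MB (D : ℤ) (ℓ n : ℕ) : Set (List Bool) :=
  {L | L ∈ C0 n ∧ ∃ x y, x ≤ y ∧ y ≤ n ∧ y ≤ x + ℓ ∧ D ≤ TIW.hn (vx oo up L y - vx oo up L x)}

/-- **the union over the rotations** -/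
theorem rot_union {n ℓ : ℕ} (hℓ : 1 ≤ ℓ) (hn : 2 * ℓ ≤ n) (D : ℤ) :
    gf (MB (2 * D) ℓ n) ≤ 2 * ((n / ℓ + 1 : ℕ) : ℝ≥0∞) * gf (FR D ((2 * ℓ : ℕ) : ℝ) n) := by
  classical
  have hcov : MB (2 * D) ℓ n ⊆ ⋃ q : Fin (n / ℓ + 1), {L | L ∈ C0 n ∧ ∃ β, L ++ [β] ∈ POL.Cy (n + 1) ∧
      ((L ++ [β]).rotate (ℓ * (q : ℕ))).dropLast ∈ FR D ((2 * ℓ : ℕ) : ℝ) n} := by
    rintro L ⟨hL, x, y, hxy, hyn, hyl, hD⟩
    obtain ⟨β, hβ⟩ := id hL
    have hLl : L.length = n := (C0_mem hL).2.1
    obtain ⟨s, hs⟩ : ∃ s, s = L ++ [β] := ⟨_, rfl⟩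
    have hsl : s.length = n + 1 := by rw [hs, List.length_append, hLl]; rfl
    obtain ⟨q, hq⟩ : ∃ q, q = x / ℓ := ⟨_, rfl⟩
    have hq1 : ℓ * q ≤ x := by rw [hq]; exact Nat.mul_div_le x ℓ
    have hq2 : x < ℓ * q + ℓ := by
      have := Nat.lt_mul_div_succ x (show 0 < ℓ by omega)
      rw [hq]
      linarith
    have hqn : q < n / ℓ + 1 := by
      rw [hq]
      exact Nat.lt_succ_of_le (Nat.div_le_div_right (hxy.trans hyn))
    rw [Set.mem_iUnion]
    refine ⟨⟨q, hqn⟩, hL, β, hβ, ?_⟩
    simp only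
    rw [← hs] at hβ ⊢
    obtain ⟨r, hr⟩ : ∃ r, r = ℓ * q := ⟨_, rfl⟩
    rw [← hr] at hq1 hq2 ⊢
    have hrot := POL.Cy.rot hβ r
    have hrl : (s.rotate r).length = n + 1 := by rw [List.length_rotate, hsl]
    have hne : s.rotate r ≠ [] := by
      intro h0
      rw [h0] at hrl
      simp at hrl
    have hdl := List.dropLast_append_getLast hne
    have hdlen : (s.rotate r).dropLast.length = n := by rw [List.length_dropLast, hrl]; rfl
    have hv : ∀ k, k ≤ n → vx oo up (s.rotate r).dropLast k = mulE (rotTo (POL.pd s r) up) (POL.pv s (r + k) - POL.pv s r) := by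
      intro k hk
      rw [← POL.rot_vx (by omega)]
      conv_rhs => rw [← hdl]
      exact (vx_append (by omega)).symm
    have hp : ∀ k, k ≤ n → POL.pv s k = vx oo up L k := by
      intro k hk
      rw [POL.pv_eq (by omega), hs, vx_append (by omega)]
    have hC : (s.rotate r).dropLast ∈ C0 n := ⟨_, by rw [hdl]; exact hrot⟩
    have hh : ∀ k, r + k ≤ n → TIW.hn (vx oo up (s.rotate r).dropLast k) = TIW.hn (vx oo up L (r + k) - vx oo up L r) := by
      intro k hk
      rw [hv k (by omega), TIW.hn_mulE (POL.nrm_rotTo_pd _ _), hp _ hk, hp _ (by omega)]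
    have hx : r + (x - r) = x := by omega
    have hy : r + (y - r) = y := by omega
    have h1 := hh (x - r) (by omega)
    have h2 := hh (y - r) (by omega)
    rw [hx] at h1
    rw [hy] at h2
    have h3 := TIW.hn_sub (vx oo up L y - vx oo up L r) (vx oo up L x - vx oo up L r)
    rw [sub_sub_sub_cancel_right, ← h1, ← h2] at h3
    rcases le_or_gt D (TIW.hn (vx oo up (s.rotate r).dropLast (y - r))) with h4 | h4
    · refine ⟨hC, y - r, by omega, ?_, h4⟩
      exact_mod_cast (show y - r ≤ 2 * ℓ by omega)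
    · refine ⟨hC, x - r, by omega, ?_, by linarith⟩
      exact_mod_cast (show x - r ≤ 2 * ℓ by omega)
  refine (gf_mono hcov).trans ?_
  refine (TPC.gf_iUnion_le _).trans ?_
  rw [tsum_fintype]
  refine (Finset.sum_le_sum fun q _ => rot_one n _ _).trans (le_of_eq ?_)
  rw [Finset.sum_const, Finset.card_univ, Fintype.card_fin, nsmul_eq_mul]
  ring

end PMA

end HexObs
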