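import Pool.Agent.PMA.PubDefs

/-!
# (PM): the means over the walks and the polygons as means over the words (helper41)

* `near_words`: the walks that end near their start;
* `pmean_words`: the polygons.
-/

set_option autoImplicit false

open MeasureTheory Filter Topology Finset

open scoped Classical

namespace Pool.Agent.PMA

open Res Pool.Agent.NTS.Res

open HexObs hiding pos

open HexObs.TIW HexObs.POLP NTSF NTSF.Mg NTF Pool.Agent.TSW.BP HexObs.MCP

open Pool.Agent.IW.Res (mean)

/-! ### 1. From walks to words -/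

lemma sum_filt {α : Type*} (S : Finset α) (p : α → Prop) (f : α → ℝ) :
    ∑ s ∈ S, (if p s then f s else 0) = ∑ s ∈ S.filter p, f s := (sum_filter p f).symm

/-- a mean of a function of the curve over a set of walks given by a rotation invariant function of the end -/
lemma mean_end {k : ℕ} (hk : 1 ≤ k) (p : ℝ → Prop) (F : C(unitInterval, ℂ) → ℝ) :
    (∑ s ∈ (saw k).filter (fun s => p ‖pos s k‖), F (curve s)) / ((saw k).card : ℝ) =
      (∑ t ∈ (sawF k).filter (fun t => p ‖JJ (vx oo up t k)‖), f3 (fun γ => F (((sg k)⁻¹ : ℝ) • γ)) k t) / (cS k : ℝ) := by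
  have h1 := mean_rt hk (fun s => if p ‖pos s k‖ then F (curve s) else 0)
  unfold mean at h1
  rw [sum_filt] at h1
  refine Eq.trans h1 ?_
  unfold Eu
  rw [← sum_div, div_right_comm, sum_comm]
  congr 1
  rw [← sum_filt, sum_div]
  refine sum_congr rfl fun t ht => ?_
  have hl : t.length = k := (mem_sawF.1 ht).1
  have h2 : ∀ a : Fin 3, ‖pos (rt3 a (sw k t)) k‖ = ‖JJ (vx oo up t k)‖ := by
    intro a
    rw [pos_rt3, norm_mul, cr_norm, one_mul, NTSF.pos_sw k t k le_rfl]
  by_cases h3 : p ‖JJ (vx oo up t k)‖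
  · rw [if_pos h3]
    unfold f3
    congr 1
    refine sum_congr rfl fun a _ => ?_
    rw [if_pos (by rw [h2 a]; exact h3)]
    congr 1
    rw [pT_of_le (by omega), ← curve_rt hk a t, smul_smul, inv_mul_cancel₀ (sg_pos hk).ne', one_smul]
  · rw [if_neg h3]
    have h4 : ∑ a : Fin 3, (if p ‖pos (rt3 a (sw k t)) k‖ then F (curve (rt3 a (sw k t))) else 0) = 0 :=
      sum_eq_zero fun a _ => if_neg (by rw [h2 a]; exact h3)
    rw [h4, zero_div]

lemma f3_one (k : ℕ) (t : List Bool) : f3 (fun _ => (1 : ℝ)) k t = 1 := by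
  unfold f3
  rw [sum_const, card_univ, Fintype.card_fin]
  norm_num

/-- **the walks that end near their start** -/
theorem near_words {k : ℕ} (hk : 1 ≤ k) (R : ℝ) (F : C(unitInterval, ℂ) → ℝ) :
    (∑ s ∈ near k R, F (curve s)) / ((saw k).card : ℝ) =
      (∑ t ∈ gapF k R, f3 (fun γ => F (((sg k)⁻¹ : ℝ) • γ)) k t) / (cS k : ℝ) := mean_end hk (fun x => x ≤ R) F

theorem near_card {k : ℕ} (hk : 1 ≤ k) (R : ℝ) :
    ((near k R).card : ℝ) / ((saw k).card : ℝ) = ((gapF k R).card : ℝ) / (cS k : ℝ) := by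
  have h := near_words hk R fun _ => 1
  simp only [f3_one, sum_const, nsmul_eq_mul, mul_one] at h
  exact h

/-! ### 2. Closed words -/

lemma norm_one_iff (p : Pt) : ‖JJ p‖ = 1 ↔ nrm p = 1 := by
  have h1 := JJ_norm p
  constructor
  · intro h
    rw [h, one_pow] at h1
    exact_mod_cast h1.symm
  · intro h
    rw [h] at h1
    have h2 : ‖JJ p‖ ^ 2 = 1 := by
      rw [h1]
      norm_num
    have h3 := norm_nonneg (JJ p)
    nlinarith

lemma clo_take {n : ℕ} {x : List Bool} (hx : x.length = n) : (clo x).take n = x := by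
  unfold clo
  rw [← hx, List.take_left]

/-- every closed word belongs to two words -/
theorem sum_cy {n : ℕ} (hn : 3 ≤ n) (ho : Odd n) (g : List Bool → ℝ) (hg : ∀ t, g t = g (t.take (n - 1))) :
    ∑ t ∈ (sawF n).filter (fun t => ‖JJ (vx oo up t n)‖ = 1), g t = 2 * ∑ H ∈ cyF (n + 1), g H := by
  have ho' : ¬ Even n := Nat.not_even_iff_odd.2 ho
  have h0 : ∑ p ∈ cyF (n + 1) ×ˢ (univ : Finset Bool), g p.1 = 2 * ∑ H ∈ cyF (n + 1), g H := by
    rw [sum_product]
    simp only [sum_const, Finset.card_univ, Fintype.card_bool, nsmul_eq_mul]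
    rw [← mul_sum]
    norm_num
  rw [← h0]
  have hAC : ∀ t ∈ (sawF n).filter (fun t => ‖JJ (vx oo up t n)‖ = 1), t.take (n - 1) ∈ AC n := by
    intro t ht
    rw [mem_filter, mem_sawF, norm_one_iff] at ht
    obtain ⟨⟨hl, hs⟩, h1⟩ := ht
    have hvx : ∀ i, i ≤ n → vx oo up (t.take (n - 1)) i = vx oo up t i := by
      intro i hi
      have h2 : t = t.take (n - 1) ++ t.drop (n - 1) := (List.take_append_drop _ _).symm
      have h3 : (t.take (n - 1)).length = n - 1 := by
        rw [List.length_take]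
        omega
      conv_rhs => rw [h2]
      rw [vx_append (by omega)]
    refine ⟨⟨?_, ?_⟩, ?_⟩
    · rw [List.length_take]
      omega
    · intro i j hij hj
      rw [hvx i (by omega), hvx j hj]
      exact hs.inj i j hij (by omega)
    · rw [hvx n le_rfl]
      exact h1
  refine sum_bij (fun t _ => (clo (t.take (n - 1)), tf t (n - 1))) ?_ ?_ ?_ ?_
  · intro t ht
    rw [mem_product]
    exact ⟨(Set.Finite.mem_toFinset _).2 (clo_mem hn ho' (hAC t ht)), mem_univ _⟩
  · intro t ht t' ht' h
    simp only [Prod.mk.injEq] at h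
    have h1 := clo_inj h.1
    have hl : t.length = n := (mem_sawF.1 (mem_filter.1 ht).1).1
    have hl' : t'.length = n := (mem_sawF.1 (mem_filter.1 ht').1).1
    refine List.ext_getElem (by omega) fun i hi hi' => ?_
    rcases Nat.lt_or_ge i (n - 1) with h2 | h2
    · have h3 : (t.take (n - 1))[i]'(by rw [List.length_take]; omega) = (t'.take (n - 1))[i]'(by rw [List.length_take]; omega) := by
        simp only [h1]
      rw [List.getElem_take, List.getElem_take] at h3
      exact h3
    · have h3 : i = n - 1 := by omega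
      have h4 := h.2
      unfold tf at h4
      rw [List.getD_eq_getElem _ _ (by omega), List.getD_eq_getElem _ _ (by omega)] at h4
      simp only [h3]
      exact h4
  · rintro ⟨H, b⟩ hp
    rw [mem_product] at hp
    obtain ⟨x, hx, rfl⟩ := clo_surj (by omega : 1 ≤ n) ((Set.Finite.mem_toFinset _).1 hp.1)
    have hxl : x.length + 1 = n := hx.1.1
    have hvx : ∀ i, i ≤ n → vx oo up (x ++ [b]) i = vx oo up x i := fun i hi => vx_append (by omega)
    refine ⟨x ++ [b], ?_, ?_⟩
    · rw [mem_filter, mem_sawF, norm_one_iff]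
      refine ⟨⟨?_, fun _ _ _ => Set.mem_univ _, ?_⟩, ?_⟩
      · rw [List.length_append, List.length_singleton]
        exact hxl
      · intro i j hij hj
        rw [List.length_append, List.length_singleton] at hj
        rw [hvx i (by omega), hvx j (by omega)]
        exact hx.1.2 i j hij (by omega)
      · rw [hvx n le_rfl]
        exact hx.2
    · have h1 : n - 1 = x.length := by omega
      rw [h1, List.take_left]
      have h2 := tf_append_right (t := x) (s := [b]) 0
      rw [add_zero] at h2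
      rw [h2]
      rfl
  · intro t ht
    have hxl : (t.take (n - 1)).length = n - 1 := by
      rw [List.length_take, (mem_sawF.1 (mem_filter.1 ht).1).1]
      omega
    show g t = g (clo (t.take (n - 1)))
    rw [hg t, hg (clo (t.take (n - 1))), clo_take hxl]

lemma f3_take {F : C(unitInterval, ℂ) → ℝ} {n : ℕ} (hn : 1 ≤ n) {t : List Bool} (ht : n ≤ t.length) :
    f3 F n t = (∑ a : Fin 3, F (pn (cz (cr a) (t.take (n - 1))) n)) / 3 := by
  unfold f3
  congr 1
  refine sum_congr rfl fun a _ => ?_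
  rw [pT_of_le ht]
  congr 1
  unfold pn
  congr 1
  refine poly_congr fun k hk => ?_
  unfold cz
  have h2 : t = t.take (n - 1) ++ t.drop (n - 1) := (List.take_append_drop _ _).symm
  have h3 : (t.take (n - 1)).length = n - 1 := by
    rw [List.length_take]
    omega
  conv_lhs => rw [h2]
  rw [vx_append (by omega)]

/-- **the polygons** -/
theorem pmean_words {n : ℕ} (hn : 3 ≤ n) (ho : Odd n) (F : C(unitInterval, ℂ) → ℝ) :
    pmean n F = (∑ t ∈ cyF (n + 1), f3 (fun γ => F (((sg n)⁻¹ : ℝ) • γ)) n t) / ((cyF (n + 1)).card : ℝ) := by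
  have hn1 : 1 ≤ n := by omega
  have key : ∀ F : C(unitInterval, ℂ) → ℝ, (∑ s ∈ pol n, F (curve s)) / ((saw n).card : ℝ) =
      2 * (∑ t ∈ cyF (n + 1), f3 (fun γ => F (((sg n)⁻¹ : ℝ) • γ)) n t) / (cS n : ℝ) := by
    intro F
    have h1 := mean_end hn1 (fun x => x = 1) F
    unfold pol
    rw [h1]
    obtain ⟨G, hG⟩ : ∃ G : C(unitInterval, ℂ) → ℝ, G = fun γ => F (((sg n)⁻¹ : ℝ) • γ) := ⟨_, rfl⟩
    rw [← hG]
    have h2 := sum_cy hn ho (fun t => (∑ a : Fin 3, G (pn (cz (cr a) (t.take (n - 1))) n)) / 3) fun t => by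
      rw [List.take_take, min_self]
    have h3 : ∑ t ∈ (sawF n).filter (fun t => ‖JJ (vx oo up t n)‖ = 1), f3 G n t =
        ∑ t ∈ (sawF n).filter (fun t => ‖JJ (vx oo up t n)‖ = 1),
          (∑ a : Fin 3, G (pn (cz (cr a) (t.take (n - 1))) n)) / 3 := by
      refine sum_congr rfl fun t ht => f3_take hn1 ?_
      rw [(mem_sawF.1 (mem_filter.1 ht).1).1]
    have h4 : ∑ t ∈ cyF (n + 1), f3 G n t =
        ∑ t ∈ cyF (n + 1), (∑ a : Fin 3, G (pn (cz (cr a) (t.take (n - 1))) n)) / 3 := by
      refine sum_congr rfl fun t ht => f3_take hn1 ?_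
      have := ((Set.Finite.mem_toFinset _).1 ht).1
      omega
    rw [h3, h2, h4]
  have h1 := key F
  have h2 := key fun _ => 1
  simp only [f3_one, sum_const, nsmul_eq_mul, mul_one] at h2
  have hs : (0 : ℝ) < (saw n).card := by exact_mod_cast (saw_nonempty n).card_pos
  have hc : (0 : ℝ) < cS n := by
    have h3 := card_three (n := n) hn1
    have h4 : (2 : ℝ) * (saw n).card = 3 * cS n := by exact_mod_cast h3
    linarith
  unfold pmean
  rw [div_eq_div_iff hs.ne' hc.ne'] at h1 h2
  rcases eq_or_ne ((cyF (n + 1)).card : ℝ) 0 with h0 | h0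
  · rw [h0, div_zero]
    rw [h0, mul_zero, zero_mul] at h2
    have h5 : ((pol n).card : ℝ) = 0 := by
      rcases mul_eq_zero.1 h2 with h | h
      · exact h
      · exact absurd h hc.ne'
    rw [h5, div_zero]
  · have h5 : ((pol n).card : ℝ) ≠ 0 := by
      intro h
      rw [h, zero_mul] at h2
      have : (2 : ℝ) * ((cyF (n + 1)).card : ℝ) * (saw n).card ≠ 0 := by positivity
      exact this h2.symm
    rw [div_eq_div_iff h5 h0]
    have h6 : (cS n : ℝ) * ((saw n).card : ℝ) ≠ 0 := by positivity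
    refine mul_right_cancel₀ h6 ?_
    linear_combination ((cyF (n + 1)).card : ℝ) * (saw n).card * h1 -
      (∑ t ∈ cyF (n + 1), f3 (fun γ => F (((sg n)⁻¹ : ℝ) • γ)) n t) * (saw n).card * h2

end Pool.Agent.PMA
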