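import Pool.Agent.ARM.QPt
import Pool.Agent.ARM.QBadM

/-!
# PM (page 83R), row K6 (helper28): root pieces with a rare factor in their middle part, exact length and exact end

* `WQ` : the root pieces `S ++ (R ++ T)` with good ends and a factor of `R` in `QQ`;
* **`qfac`** : if the words of the box with a factor in `QQ` are a part `δ` of all words, then the root pieces in `WQ` with exact
  length and exact end are a part `C δ ^ c B ^ J` of all root pieces.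
-/

set_option autoImplicit false

namespace HexObs

namespace PMA

open Finset TS SDN HexObs.SIM NTA TIP ARM ARM.T2

open scoped ENNReal

/-- the root pieces with a factor in QQ in the middle part -/
def WQ (η : ℝ) (D b J : ℕ) (QQ : Set (List Bool)) : Set (List Bool) :=
  {A | A ∈ SA ∧ In (2 ^ (b + J)) A ∧ ∃ S ∈ NPR.GS η D b, ∃ R ∈ NPR.Fac QQ, ∃ T ∈ NPR.GE η D b, A = S ++ (R ++ T)}

lemma wq_sub {η : ℝ} {D b J : ℕ} {QQ : Set (List Bool)} : WQ η D b J QQ ⊆ W2E η D b J := by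
  rintro A ⟨h1, h2, S, hS, R, -, T, hT, rfl⟩
  exact ⟨h1, h2, S, hS, R, T, hT, rfl⟩

lemma fac_pre {QQ : Set (List Bool)} {R : List Bool} (X : List Bool) (h : R ∈ NPR.Fac QQ) : X ++ R ∈ NPR.Fac QQ := by
  obtain ⟨A, Q, B, rfl, hQ⟩ := h
  exact ⟨X ++ A, Q, B, by simp only [List.append_assoc], hQ⟩

/-- **the cuts of a root piece** -/
lemma wq_cuts {η : ℝ} {D b J : ℕ} {QQ : Set (List Bool)} (hη : 0 < η) (hb : b ≠ 0) (hU : 4 ≤ η * Ub b) {Q : List Bool}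
    (h : Q ∈ WQ η D b J QQ) :
    ∃ T : Finset ℕ, η / 2 * Ub b ≤ (T.card : ℝ) ∧ (∀ c ∈ T, c ≤ Q.length ∧ Q.take c ∈ BU ∧
      hgt (Q.take c) ≤ 2 ^ b ∧ Q.drop c ∈ WQ (η / 4) (2 * D) b (J + 1) QQ) ∧
      ∀ c ∈ T, ∀ c' ∈ T, c ≤ c' → (Q.drop c).take (c' - c) ∈ BU := by
  obtain ⟨h1, h2, S, hS, R, hRF, Tq, hT, rfl⟩ := h
  obtain ⟨T, g1, g2, g3⟩ := st_cuts2 hb hU (X := R ++ Tq) hS
  refine ⟨T, g1, fun c hc => ?_, g3⟩
  obtain ⟨a1, a2, a3, ⟨S', hS', R', hR'⟩, a5⟩ := g2 c hc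
  refine ⟨a1, a2, a3, ⟨SDN.SA_drop h1 c, ?_, S', hS', R' ++ R, fac_pre R' hRF, Tq,
    GE_mono hb (by linarith) (by omega) hT, ?_⟩⟩
  · have e := In_bu (P := (S ++ (R ++ Tq)).take c) (W := (S ++ (R ++ Tq)).drop c) a2 (by rwa [List.take_append_drop])
    have e3 : 2 ^ (b + (J + 1)) = 2 * 2 ^ (b + J) := by rw [← add_assoc, pow_succ]; ring
    rw [e3]
    exact e
  · rw [hR', List.append_assoc]

lemma ex_U {η : ℝ} (hη : 0 < η) : ∃ bU : ℕ, ∀ b, bU ≤ b → 4 ≤ η * Ub b := by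
  obtain ⟨B, hB⟩ := Ub_big
  obtain ⟨n, hn⟩ := exists_nat_ge (4 / η)
  refine ⟨B * n, fun b hb => ?_⟩
  have h1 := hB b n hb
  have h2 : (n : ℝ) ≤ 8 ^ n := by
    exact_mod_cast (Nat.lt_pow_self (by norm_num : 1 < 8)).le
  have h3 : 4 / η ≤ Ub b := hn.trans (h2.trans h1)
  rw [div_le_iff₀ hη] at h3
  linarith

/-- **the smoothing** -/
lemma wq_smooth (hS : SmL) (η : ℝ) (D q : ℕ) (hη : 0 < η) : ∃ (C : ℝ) (b0 : ℕ), 0 < C ∧ 1 ≤ b0 ∧
    ∀ (b J y : ℕ) (z : Pt) (QQ : Set (List Bool)), b0 ≤ b →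
    gf {Q | Q ∈ WQ η D b J QQ ∧ Q.length = y ∧ TIW.en Q = z} ≤ ENNReal.ofReal (C / (4 ^ b * ml b) / (1 + (y : ℝ) / ml b) ^ q) *
      ∑' W : WQ (η / 4) (2 * D) b (J + 1) QQ, wE (W : List Bool) *
        ENNReal.ofReal ((1 + ((W : List Bool).length : ℝ) / ml b) ^ q) := by
  obtain ⟨C, b1, hC, h⟩ := hS (η / 2) q (by positivity)
  obtain ⟨bU, hbU⟩ := ex_U hη
  refine ⟨C, b1 + bU + 1, hC, by omega, fun b J y z QQ hb => ?_⟩
  have hm := ml_pos b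
  have hb0 : b ≠ 0 := by omega
  have hU := hbU b (by omega)
  have hy : (0 : ℝ) < (1 + (y : ℝ) / ml b) ^ q := by positivity
  have h1 := h b y z (by omega) {Q | Q ∈ WQ η D b J QQ ∧ Q.length = y ∧ TIW.en Q = z} (WQ (η / 4) (2 * D) b (J + 1) QQ)
    (fun W => ENNReal.ofReal ((1 + (W.length : ℝ) / ml b) ^ q / (1 + (y : ℝ) / ml b) ^ q)) ?_
  · refine h1.trans (le_of_eq ?_)
    rw [← ENNReal.tsum_mul_left, ← ENNReal.tsum_mul_left]
    refine tsum_congr fun W => ?_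
    rw [div_eq_mul_inv (((1 : ℝ) + (((W : List Bool).length : ℕ) : ℝ) / ml b) ^ q),
      ENNReal.ofReal_mul (by positivity), div_eq_mul_inv (C / (4 ^ b * ml b)), ENNReal.ofReal_mul (by positivity)]
    ring
  · rintro Q ⟨hQF, hQy, hQz⟩
    obtain ⟨T, g1, g2, g3⟩ := wq_cuts hη hb0 hU hQF
    refine ⟨hQy, hQz, T, g1, fun c hc => ?_, g3⟩
    obtain ⟨a1, a2, a3, a4⟩ := g2 c hc
    refine ⟨a1, a2, a3, a4, ?_⟩
    rw [← ENNReal.ofReal_mul (by positivity), ← ENNReal.ofReal_one]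
    refine ENNReal.ofReal_le_ofReal ?_
    exact wt_split (by rw [List.length_drop]; omega)

/-- **root pieces with a rare factor, exact length and exact end** -/
theorem qfac_of (hS : SmL) (hP : PMJ) (η : ℝ) (D q : ℕ) (hη : 0 < η) : ∃ (C c B : ℝ) (b0 : ℕ), 0 < C ∧ 0 < c ∧ 1 ≤ B ∧
    ∀ (b J : ℕ) (QQ : Set (List Bool)) (δ : ℝ), b0 ≤ b → 0 < δ → δ ≤ 1 →
      gf {t | t ∈ WL (b + J + 15) ∧ t ∈ NPR.Fac QQ} ≤ ENNReal.ofReal δ * NPR.FK (b + J + 15) →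
      ∀ (y : ℕ) (z : Pt), gf {A | A ∈ WQ η D b J QQ ∧ A.length = y ∧ TIW.en A = z} ≤
        ENNReal.ofReal (C * δ ^ c * B ^ J * (Ub b / (4 ^ b * ml b)) / (1 + (y : ℝ) / ml b) ^ q) := by
  obtain ⟨C1, b1, hC1, hb1, h⟩ := wq_smooth hS η D q hη
  obtain ⟨K, hK, hP⟩ := pmj_b hP (η / 4) (2 * D) (2 * q) (by positivity)
  obtain ⟨C0, c, B, hC0, hc, hB, htwo⟩ := QB.two_mass (show 0 < η / 4 by positivity) (2 * D)
  refine ⟨C1 * (C0 * B + K ^ 2), c / 2, B * K, b1, by positivity, by positivity, by nlinarith,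
    fun b J QQ δ hb hδ hδ1 hm y z => ?_⟩
  have hml := ml_pos b
  have hU := Ub_pos b
  obtain ⟨x, hx⟩ : ∃ x : ℝ, x = δ ^ (c / 2) := ⟨_, rfl⟩
  have hx0 : 0 < x := by
    rw [hx]
    exact Real.rpow_pos_of_pos hδ _
  have hx2 : δ ^ c = x * x := by
    rw [hx, ← Real.rpow_add hδ]
    congr 1
    ring
  have hmass : gf (WQ (η / 4) (2 * D) b (J + 1) QQ) ≤ ENNReal.ofReal (C0 * (x * x) * B ^ (J + 1) * Ub b) := by
    rw [← hx2]
    refine (gf_mono ?_).trans (htwo b (J + 1) QQ δ (by omega) hδ hδ1 ?_)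
    · rintro A ⟨a1, a2, S, hS', R, hR, T, hT, rfl⟩
      exact ⟨In_WL a1 a2, S, hS', R, hR, T, hT, rfl⟩
    · rwa [show b + (J + 1) + 14 = b + J + 15 by omega]
  have h2 := rare_mom (W := W2E (η / 4) (2 * D) b (J + 1)) (B := WQ (η / 4) (2 * D) b (J + 1) QQ)
    (f := fun t => (1 + (t.length : ℝ) / ml b) ^ q) (fun t => by positivity)
    (g := C0 * (x * x) * B ^ (J + 1) * Ub b) (M := K ^ (J + 1 + 1) * Ub b) (lam := x⁻¹)
    (by positivity) (by positivity) (by positivity) wq_sub hmass (by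
      refine le_trans (ENNReal.tsum_le_tsum fun t => ?_) (hP b (J + 1) (by omega))
      rw [← pow_mul, mul_comm q 2])
  refine (h b J y z QQ hb).trans ((mul_le_mul' le_rfl h2).trans ?_)
  rw [← ENNReal.ofReal_mul (by positivity)]
  refine ENNReal.ofReal_le_ofReal ?_
  rw [← hx]
  have hBJ : B ^ J ≤ (B * K) ^ J := pow_le_pow_left₀ (by positivity) (le_mul_of_one_le_right (by linarith) hK) J
  have hKJ : K ^ J ≤ (B * K) ^ J := pow_le_pow_left₀ (by positivity) (le_mul_of_one_le_left (by linarith) hB) J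
  have e1 : x⁻¹ * (C0 * (x * x) * B ^ (J + 1) * Ub b) + x⁻¹⁻¹ * (K ^ (J + 1 + 1) * Ub b) =
      x * Ub b * (C0 * B * B ^ J + K ^ 2 * K ^ J) := by
    rw [inv_inv, pow_succ B J, pow_succ K (J + 1), pow_succ K J]
    field_simp
  rw [e1]
  have e2 : C0 * B * B ^ J + K ^ 2 * K ^ J ≤ (C0 * B + K ^ 2) * (B * K) ^ J := by
    rw [add_mul]
    have := mul_le_mul_of_nonneg_left hBJ (show 0 ≤ C0 * B by positivity)
    have := mul_le_mul_of_nonneg_left hKJ (show 0 ≤ K ^ 2 by positivity)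
    linarith
  calc C1 / (4 ^ b * ml b) / (1 + (y : ℝ) / ml b) ^ q * (x * Ub b * (C0 * B * B ^ J + K ^ 2 * K ^ J))
      ≤ C1 / (4 ^ b * ml b) / (1 + (y : ℝ) / ml b) ^ q * (x * Ub b * ((C0 * B + K ^ 2) * (B * K) ^ J)) := by
        gcongr
    _ = C1 * (C0 * B + K ^ 2) * x * (B * K) ^ J * (Ub b / (4 ^ b * ml b)) / (1 + (y : ℝ) / ml b) ^ q := by
        field_simp

end PMA

end HexObs

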