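import Pool.Agent.ARM.T1

/-!
# PM, row K2 (helper65): separation with a small constant

`sepF`: for every eps the words of `F n j` that are not good (few cuts, extra strands, near touches, confined) have mass at
most `eps * pr n j`, as soon as j is large and n is large against `ml j`. The constants k, c0 of row G1 (`JoinSt`) may be
prescribed after η κ a m.
-/

set_option autoImplicit false

namespace HexObs

namespace ARM

open Finset TS SDN SIM NTA TIP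

open scoped ENNReal

/-- (T1) as hypothesis of the rows -/
lemma hf_T1 : ∃ D : ℝ, 0 < D ∧ ∀ n j : ℕ, HF D n j := by
  obtain ⟨D, hD, h⟩ := t1
  exact ⟨D, hD, fun n j n' i _ _ => h n' i⟩

/-- row NF without hypothesis -/
theorem nf_all : NF := by
  obtain ⟨κ, hκ, C, -, hR⟩ := regZ_all
  exact nF_of hκ (exF_of tipF_all) (yBadWSt yMassJ hR) (noR hR confSt) hfLow yMassJ

/-- row S without hypothesis -/
theorem esSt_all : EsSt := esSt_in (exF_of tipF_all) (inSt'_of (inPt_of smL retT yMassJ)) yMassJ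

/-- the confined words are rare among the long words -/
lemma conf_small (u : ℕ) {ε : ℝ} (hε : 0 < ε) : ∃ b0 : ℕ, ∀ n j : ℕ, 2 ^ b0 * ml j ≤ n →
    gf {L | L ∈ F n j ∧ ∀ s, s ≤ L.length → dz L s ≤ 2 ^ (j + u)} ≤ ENNReal.ofReal (ε * pr n j) := by
  obtain ⟨C, hC, h⟩ := confSt
  obtain ⟨V, hV⟩ : ∃ V : ℝ, V = (2 : ℝ) ^ ((4 / 3 : ℝ) * (u : ℝ)) := ⟨_, rfl⟩
  have hV1 : 1 ≤ V := by rw [hV]; exact Real.one_le_rpow (by norm_num) (by positivity)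
  obtain ⟨K, hK⟩ : ∃ K : ℝ, K = C * (2 : ℝ) ^ ((91 / 24 : ℝ) * (u : ℝ)) * V := ⟨_, rfl⟩
  have hK0 : 0 < K := by rw [hK]; positivity
  obtain ⟨b0, hb0⟩ := pow_unbounded_of_one_lt (K / ε + V) (by norm_num : (1 : ℝ) < 2)
  refine ⟨b0, fun n j hn => ?_⟩
  have hp := pr_pos n j
  have hmj := ml_pos j
  have hmu := ml_pos (j + u)
  have eu : ml (j + u) = V * ml j := by rw [hV]; exact ml_add j u
  have hnu : ml (j + u) ≤ n := by
    rw [eu]
    refine le_trans ?_ hn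
    apply mul_le_mul_of_nonneg_right _ hmj.le
    have : 0 < K / ε := by positivity
    linarith
  have hn0 : (0 : ℝ) < n := lt_of_lt_of_le hmu hnu
  have hmx : max (n : ℝ) (ml (j + u)) = n := max_eq_left hnu
  have hsb : {L | L ∈ F n j ∧ ∀ s, s ≤ L.length → dz L s ≤ 2 ^ (j + u)} ⊆
      {L | L ∈ SA ∧ n ≤ L.length ∧ ∀ s, s ≤ L.length → dz L s ≤ 2 ^ (j + u)} :=
    fun L hL => ⟨(mem_F.1 hL.1).1, (mem_F.1 hL.1).2.1, hL.2⟩
  refine (gf_mono hsb).trans ((h n (j + u)).trans (ENNReal.ofReal_le_ofReal ?_))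
  have hr1 : ml (j + u) / max (n : ℝ) (ml (j + u)) ≤ 1 := by
    rw [hmx, div_le_one hn0]
    exact hnu
  have hr0 : 0 < ml (j + u) / max (n : ℝ) (ml (j + u)) := div_pos hmu (max_pos n _)
  have h2 : (2 : ℝ) ^ ((43 / 24 : ℝ) * (((j + u : ℕ) : ℝ))) * (ml (j + u) / max (n : ℝ) (ml (j + u))) ^ (4 : ℕ) ≤
      pr n (j + u) * (ml (j + u) / n) := by
    rw [pr_eq]
    show pw (j + u) * _ ≤ _
    rw [mul_assoc]
    apply mul_le_mul_of_nonneg_left _ (pw_pos _).le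
    have e1 : (ml (j + u) / max (n : ℝ) (ml (j + u))) ^ (3 / 2 : ℝ) * (ml (j + u) / n) =
        (ml (j + u) / max (n : ℝ) (ml (j + u))) ^ (5 / 2 : ℝ) := by
      rw [show (5 / 2 : ℝ) = 3 / 2 + 1 by norm_num, Real.rpow_add hr0, Real.rpow_one, hmx]
    rw [e1, ← Real.rpow_natCast]
    exact Real.rpow_le_rpow_of_exponent_ge hr0 hr1 (by norm_num)
  have h3 := pr_up n j u
  have h4 : ml (j + u) / n ≤ V / 2 ^ b0 := by
    rw [eu, div_le_div_iff₀ hn0 (by positivity)]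
    calc V * ml j * 2 ^ b0 = V * (2 ^ b0 * ml j) := by ring
      _ ≤ V * n := by gcongr
  have h5 : K / 2 ^ b0 ≤ ε := by
    rw [div_le_iff₀ (by positivity)]
    have h6 : K / ε ≤ 2 ^ b0 := by linarith
    rw [div_le_iff₀ hε] at h6
    linarith
  calc C * ((2 : ℝ) ^ ((43 / 24 : ℝ) * (((j + u : ℕ) : ℝ))) * (ml (j + u) / max (n : ℝ) (ml (j + u))) ^ (4 : ℕ))
      ≤ C * (pr n (j + u) * (ml (j + u) / n)) := by gcongr
    _ ≤ C * (((2 : ℝ) ^ ((91 / 24 : ℝ) * (u : ℝ)) * pr n j) * (V / 2 ^ b0)) := by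
        have := (pr_pos n (j + u)).le
        gcongr
    _ = K / 2 ^ b0 * pr n j := by rw [hK]; ring
    _ ≤ ε * pr n j := by gcongr

/-- **row K2**: separation with a small constant -/
theorem sepF : ∀ ε : ℝ, 0 < ε → ∃ (η κ : ℝ) (a m : ℕ), 0 < η ∧ 0 < κ ∧ ∀ k c0 : ℕ, ∃ c u e b0 : ℕ, c0 ≤ c ∧ m + 5 ≤ c ∧
    c ≤ u ∧ k ≤ e ∧ a ≤ b0 ∧ e ≤ b0 ∧ ∀ n j : ℕ, b0 ≤ j → 2 ^ b0 * ml j ≤ n →
      gf (F n j \ GF n j η κ a m c u e k) ≤ ENNReal.ofReal (ε * pr n j) := by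
  intro ε hε
  obtain ⟨D, hD, hHF⟩ := hf_T1
  -- each class with the constant d relative to D
  obtain ⟨d, hd⟩ : ∃ d : ℝ, d = ε / (40 * D) := ⟨_, rfl⟩
  have hd0 : 0 < d := by rw [hd]; positivity
  have hdD : 36 * (d * D) ≤ ε * (9 / 10) := by
    rw [hd]
    have : ε / (40 * D) * D = ε / 40 := by field_simp
    rw [this]
    linarith
  obtain ⟨η, κ, a, m, b1, hη, hκ, hab, hN⟩ := nf_all d hd0
  obtain ⟨C2, b2, hC2, hS⟩ := es_sum esSt_all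
  refine ⟨η, κ, a, m, hη, hκ, fun k c0 => ?_⟩
  -- the choice of c
  obtain ⟨c, hc0, hcm, hcε⟩ : ∃ c : ℕ, c0 ≤ c ∧ m + 5 ≤ c ∧
      C2 * (2 : ℝ) ^ (2 / 3 * ((m : ℝ) + 4) - 1 / 6 * ((c : ℝ) - 1)) ≤ d := by
    obtain ⟨u0, hu0⟩ := ex_exp (C2 * (2 : ℝ) ^ (2 / 3 * ((m : ℝ) + 4) + 1 / 6)) hd0
    obtain ⟨c, hcc⟩ : ∃ c : ℕ, c = max u0 (max c0 (m + 5)) := ⟨_, rfl⟩
    have w1 : u0 ≤ c := by omega
    refine ⟨c, by omega, by omega, ?_⟩
    refine le_trans (le_of_eq ?_) (hu0 c w1)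
    rw [mul_assoc, ← Real.rpow_add (by norm_num)]
    congr 2
    ring
  -- the choice of u
  obtain ⟨u, hcu, huε⟩ : ∃ u : ℕ, c ≤ u ∧ C2 * (2 : ℝ) ^ (2 / 3 * (c : ℝ) - 1 / 6 * (u : ℝ)) ≤ d := by
    obtain ⟨u0, hu0⟩ := ex_exp (C2 * (2 : ℝ) ^ (2 / 3 * (c : ℝ))) hd0
    obtain ⟨u, hcc⟩ : ∃ u : ℕ, u = max u0 c := ⟨_, rfl⟩
    have w1 : u0 ≤ u := by omega
    refine ⟨u, by omega, ?_⟩
    refine le_trans (le_of_eq ?_) (hu0 u w1)
    rw [mul_assoc, ← Real.rpow_add (by norm_num)]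
    congr 2
    ring
  obtain ⟨e, b3, hke, heb, hQ⟩ := ntSt u c k d hcu hd0
  obtain ⟨b4, hconf⟩ := conf_small u (ε := ε / 10) (by positivity)
  obtain ⟨bb, hbb⟩ : ∃ bb : ℕ, bb = max (max b1 b2) (max b3 b4) + 1 := ⟨_, rfl⟩
  refine ⟨c, u, e, bb, hc0, hcm, hcu, hke, by omega, by omega, fun n j hj hn => ?_⟩
  have hp := pr_pos n j
  have hmj := ml_pos j
  have hH : HF D n j := hHF n j
  have l1 : b1 ≤ max (max b1 b2) (max b3 b4) := (le_max_left _ _).trans (le_max_left _ _)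
  have l2 : b2 ≤ max (max b1 b2) (max b3 b4) := (le_max_right _ _).trans (le_max_left _ _)
  have l3 : b3 ≤ max (max b1 b2) (max b3 b4) := (le_max_left _ _).trans (le_max_right _ _)
  have l4 : b4 ≤ max (max b1 b2) (max b3 b4) := (le_max_right _ _).trans (le_max_right _ _)
  have hlow : ∀ b, b ≤ max (max b1 b2) (max b3 b4) → (2 : ℝ) ^ b * ml j ≤ ((n - 1 : ℕ) : ℝ) := by
    intro b hb
    have h1 : (2 : ℝ) ^ (b + 1) * ml j ≤ n := by
      refine le_trans ?_ hn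
      apply mul_le_mul_of_nonneg_right _ hmj.le
      exact pow_le_pow_right₀ (by norm_num) (by omega)
    have h2 : (1 : ℝ) ≤ (2 : ℝ) ^ b * ml j := by
      have h3 := one_le_ml j
      have h4 : (1 : ℝ) ≤ (2 : ℝ) ^ b := one_le_pow₀ (by norm_num)
      nlinarith
    have h3 : (n : ℝ) ≤ ((n - 1 : ℕ) : ℝ) + 1 := by exact_mod_cast (by omega : n ≤ n - 1 + 1)
    rw [pow_succ] at h1
    nlinarith
  have hlow' : ∀ b, b ≤ max (max b1 b2) (max b3 b4) → (2 : ℝ) ^ b * ml j ≤ (n : ℝ) := fun b hb =>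
    (hlow b hb).trans (by exact_mod_cast Nat.sub_le n 1)
  have hn1 : 1 ≤ n := by
    have h1 := hlow' 0 (Nat.zero_le _)
    rw [pow_zero, one_mul] at h1
    have h2 := one_le_ml j
    exact_mod_cast h2.trans h1
  -- the bad classes
  obtain ⟨X1, hX1⟩ : ∃ X : Set (List Bool), X = {L | gc j a m η L < κ * Ub j} := ⟨_, rfl⟩
  obtain ⟨X2, hX2⟩ : ∃ X : Set (List Bool), X = {L | ∃ i, j + c - 1 ≤ i ∧ L ∈ ESe (j + m + 4) i} := ⟨_, rfl⟩
  obtain ⟨X3, hX3⟩ : ∃ X : Set (List Bool), X = {L | ∃ i, j + u ≤ i ∧ L ∈ ESe (j + c) i} := ⟨_, rfl⟩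
  obtain ⟨X4, hX4⟩ : ∃ X : Set (List Bool), X = NTs (j + c) (j + u) (2 ^ (j - e)) (2 ^ (j - k)) := ⟨_, rfl⟩
  have hbad : ∀ n' : ℕ, n' ≤ n → (∀ b, b ≤ max (max b1 b2) (max b3 b4) → (2 : ℝ) ^ b * ml j ≤ (n' : ℝ)) →
      gf {L | L ∈ Fp n' j ∧ L ∈ ((X1 ∪ X2) ∪ (X3 ∪ X4))} ≤ ENNReal.ofReal (4 * (d * D) * pr n' j) := by
    intro n' hn' hlw
    have hH' : HF D n' j := HF_mono hn' le_rfl hH
    have hp' := pr_pos n' j
    have q1 : gf {L | L ∈ Fp n' j ∧ L ∈ X1} ≤ ENNReal.ofReal (d * D * pr n' j) := by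
      rw [hX1]
      exact hN D n' j hD.le hH' (by omega) (hlw b1 l1)
    have q2 : gf {L | L ∈ Fp n' j ∧ L ∈ X2} ≤ ENNReal.ofReal (d * D * pr n' j) := by
      rw [hX2]
      refine (hS D n' j (j + m + 4) (j + c - 1) hD.le hH' (by omega) (by omega) (by omega)).trans
        (ENNReal.ofReal_le_ofReal ?_)
      have e1 : (((j + m + 4 : ℕ) : ℝ) - j) = (m : ℝ) + 4 := by push_cast; ring
      have e2 : (((j + c - 1 : ℕ) : ℝ) - j) = (c : ℝ) - 1 := by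
        rw [Nat.cast_sub (by omega)]
        push_cast
        ring
      rw [e1, e2]
      gcongr
    have q3 : gf {L | L ∈ Fp n' j ∧ L ∈ X3} ≤ ENNReal.ofReal (d * D * pr n' j) := by
      rw [hX3]
      refine (hS D n' j (j + c) (j + u) hD.le hH' (by omega) (by omega) (by omega)).trans
        (ENNReal.ofReal_le_ofReal ?_)
      have e1 : (((j + c : ℕ) : ℝ) - j) = (c : ℝ) := by push_cast; ring
      have e2 : (((j + u : ℕ) : ℝ) - j) = (u : ℝ) := by push_cast; ring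
      rw [e1, e2]
      gcongr
    have q4 : gf {L | L ∈ Fp n' j ∧ L ∈ X4} ≤ ENNReal.ofReal (d * D * pr n' j) := by
      rw [hX4]
      exact hQ D n' j hD.le hH' (by omega) (hlw b3 l3)
    have hsub : {L | L ∈ Fp n' j ∧ L ∈ ((X1 ∪ X2) ∪ (X3 ∪ X4))} ⊆
        ({L | L ∈ Fp n' j ∧ L ∈ X1} ∪ {L | L ∈ Fp n' j ∧ L ∈ X2}) ∪ ({L | L ∈ Fp n' j ∧ L ∈ X3} ∪ {L | L ∈ Fp n' j ∧ L ∈ X4}) := by
      rintro L ⟨h1, (h2 | h2) | (h2 | h2)⟩
      · exact Or.inl (Or.inl ⟨h1, h2⟩)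
      · exact Or.inl (Or.inr ⟨h1, h2⟩)
      · exact Or.inr (Or.inl ⟨h1, h2⟩)
      · exact Or.inr (Or.inr ⟨h1, h2⟩)
    refine (gf_mono hsub).trans ((gf_union_le _ _).trans ((add_le_add (gf_union_le _ _) (gf_union_le _ _)).trans
      ((add_le_add (add_le_add q1 q2) (add_le_add q3 q4)).trans (le_of_eq ?_))))
    rw [← ENNReal.ofReal_add (by positivity) (by positivity), ← ENNReal.ofReal_add (by positivity) (by positivity)]
    congr 1
    ring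
  have hb1 := hbad n le_rfl hlow'
  have hb2 := hbad (n - 1) (Nat.sub_le n 1) hlow
  have hb3 : gf {L | L ∈ F n j ∧ rv L ∈ ((X1 ∪ X2) ∪ (X3 ∪ X4))} ≤ ENNReal.ofReal (32 * (d * D) * pr n j) := by
    refine (gf_rv hn1 _).trans ((mul_le_mul_right hb2 2).trans ?_)
    have e2 : (2 : ℝ≥0∞) = ENNReal.ofReal 2 := by norm_num
    rw [e2, ← ENNReal.ofReal_mul (by norm_num)]
    apply ENNReal.ofReal_le_ofReal
    have h1 := pr_pred n j
    have h2 : 0 < d * D := by positivity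
    nlinarith
  have hcf := hconf n j (hlow' b4 l4)
  have hcov : F n j \ GF n j η κ a m c u e k ⊆ {L | L ∈ F n j ∧ ∀ s, s ≤ L.length → dz L s ≤ 2 ^ (j + u)} ∪
      ({L | L ∈ Fp n j ∧ L ∈ ((X1 ∪ X2) ∪ (X3 ∪ X4))} ∪ {L | L ∈ F n j ∧ rv L ∈ ((X1 ∪ X2) ∪ (X3 ∪ X4))}) := by
    rintro L ⟨hL, hng⟩
    by_cases h1 : L ∈ ((X1 ∪ X2) ∪ (X3 ∪ X4))
    · exact Or.inr (Or.inl ⟨F_sub_Fp n j hL, h1⟩)
    by_cases h2 : rv L ∈ ((X1 ∪ X2) ∪ (X3 ∪ X4))
    · exact Or.inr (Or.inr ⟨hL, h2⟩)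
    by_cases h3 : ∀ s, s ≤ L.length → dz L s ≤ 2 ^ (j + u)
    · exact Or.inl ⟨hL, h3⟩
    refine absurd ⟨hL, ?_, ?_⟩ hng
    · push Not at h3
      exact h3
    · intro T hT
      have h4 : T ∉ ((X1 ∪ X2) ∪ (X3 ∪ X4)) := by
        rcases hT with rfl | rfl
        · exact h1
        · exact h2
      rw [hX1, hX2, hX3, hX4] at h4
      simp only [Set.mem_union, Set.mem_ofPred_eq, not_or, not_lt, not_exists, not_and] at h4
      obtain ⟨⟨g1, g2⟩, g3, g4⟩ := h4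
      exact ⟨g1, fun i hi => g2 i (by omega), fun i hi => g3 i hi, g4⟩
  refine (gf_mono hcov).trans ((gf_union_le _ _).trans ((add_le_add hcf ((gf_union_le _ _).trans
    (add_le_add hb1 hb3))).trans ?_))
  rw [← ENNReal.ofReal_add (by positivity) (by positivity), ← ENNReal.ofReal_add (by positivity) (by positivity)]
  apply ENNReal.ofReal_le_ofReal
  nlinarith

end ARM

end HexObs
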