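import Pool.Agent.PMA.K3
import Pool.Agent.PMA.TrDef
import Pool.Agent.ARM.PlcS
import Pool.Agent.ARM.NumB
import Pool.Agent.TIP.RevM

/-!
# PM, row TrSt (helper70, after helper87's RMP/SplA, SplC, SplT, SplK for the pairs): the number of the splittings of a closed word

**`split_card`**: if the good open words have the property `SN` (not too many cuts behind the good cuts, both ends), a closed word
has at most `C * Ub j ^ 2` splittings into a filling and an outer part with admissible tips.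
-/

set_option autoImplicit false

namespace HexObs

namespace PMA

namespace SW

open Finset TS SDN HexObs.SIM NTA TIP ARM ARM.G3

open scoped ENNReal

variable {E : ℕ → Pt} {r : ℕ} {D : ℤ} {k : ℕ} {p c : Pt} {w : List Bool} {N a b a' b' : ℕ}

/-! ### 1. One class -/

/-- the frame of a part -/
lemma frm (hc : nrm c = 1) (w : List Bool) (a : ℕ) : ∃ u : Pt, nrm u = 1 ∧ mulE u up = Up w c a := by
  obtain ⟨h1, h2⟩ := frame_dir (TIW.mulE_mem hc (dx_mem up_dirs w a))
  exact ⟨_, mem_dirs.1 h1, h2.symm⟩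

/-- the distances in a part -/
lemma sl_hn (hc : nrm c = 1) (hb : b ≤ w.length) {i i' : ℕ} (hab : a ≤ b) (hi : i ≤ b - a) (hi' : i' ≤ b - a) :
    TIW.hn (vx oo up (sl w a b) i - vx oo up (sl w a b) i') = TIW.hn (Vp w p c (a + i) - Vp w p c (a + i')) := by
  obtain ⟨u, hu, hu2⟩ := frm hc w a
  have h1 := (part_vx (p := p) hu2 hu (m := b - a) hi (by omega)).1
  have h2 := (part_vx (p := p) hu2 hu (m := b - a) hi' (by omega)).1
  unfold sl
  rw [← TIW.hn_mulE hu, mulE_sub, h1, h2]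
  congr 1
  abel

/-- the height of the part between two markings -/
lemma sl_hgt (hc : nrm c = 1) (hab : a ≤ b) (hb : b ≤ w.length) (hZ : sl w a b ∈ BU) :
    ((hgt (sl w a b) : ℕ) : ℤ) ≤ TIW.hn (Vp w p c b - Vp w p c a) := by
  have hl : (sl w a b).length = b - a := sl_len hb
  have h1 := sl_hn (p := p) hc hb hab (le_refl (b - a)) (Nat.zero_le _)
  rw [show a + (b - a) = b by omega, add_zero] at h1
  rw [← h1]
  have e1 : vx oo up (sl w a b) (b - a) - vx oo up (sl w a b) 0 = TIW.en (sl w a b) := by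
    unfold TIW.en
    rw [hl]
    exact sub_zero _
  rw [e1]
  have h5 := (AR.BU_facts hZ).2.2.1
  have h6 := TIW.ip_le_hn (TIW.en (sl w a b)) TIW.upd'
  have h7 : (0 : ℤ) ≤ hgt (sl w a b) := by positivity
  linarith

/-- **two markings of the same class** -/
theorem cls (hE : IPg E r) (hr : 3 ≤ r) (hD : 2 ^ (k + 12) ≤ D) (hc : nrm c = 1) (hw : w ∈ POL.Cy N)
    (h : Tr E r D k (Vp w p c) (Up w c) N a b) (h' : Tr E r D k (Vp w p c) (Up w c) N a' b') :
    (a ≤ a' → sl w a a' ∈ BU ∧ hgt (sl w a a') ≤ 2 ^ (k + 2)) ∧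
      (b ≤ b' → sl w b b' ∈ BU ∧ hgt (sl w b b') ≤ 2 ^ (k + 2)) := by
  have hst : ∀ i, i < N → TIW.hn (Vp w p c (i + 1) - Vp w p c i) ≤ 2 := fun i _ => Vp_step hc i
  have hb := h.bN
  have hb' := h'.bN
  have hab := h.ab
  have hab' := h'.ab
  have hlw : w.length = N := hw.1
  have e2 : ((2 ^ (k + 2) : ℕ) : ℤ) = 2 ^ (k + 1) + 2 ^ (k + 1) := by
    push_cast
    ring
  constructor
  · intro hh
    have z1 : sl w a a' ∈ BU := part_bu (p := p) (c := c) up_dirs hw hh (by omega) h.ua h'.ua (h.dif1 hE hr hD hst h' hh)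
    refine ⟨z1, ?_⟩
    have h1 := sl_hgt (p := p) hc hh (by omega) z1
    have h2 : TIW.hn (Vp w p c a' - Vp w p c a) ≤ 2 ^ (k + 1) + 2 ^ (k + 1) :=
      (TIW.hn_sub _ _).trans (add_le_add h'.sa h.sa)
    have h3 : ((hgt (sl w a a') : ℕ) : ℤ) ≤ ((2 ^ (k + 2) : ℕ) : ℤ) := by
      rw [e2]
      linarith
    exact_mod_cast h3
  · intro hh
    have z1 : sl w b b' ∈ BU :=
      part_bu (p := p) (c := c) (hE.dir 0 (by omega)) hw hh (by omega) h.ub h'.ub (h'.dif2 hE hr hD hst h hh)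
    refine ⟨z1, ?_⟩
    have h1 := sl_hgt (p := p) hc hh (by omega) z1
    have h2 : TIW.hn (Vp w p c b' - Vp w p c b) ≤ 2 ^ (k + 1) + 2 ^ (k + 1) := by
      have e1 : Vp w p c b' - Vp w p c b = (Vp w p c b' - qv E D r 0) - (Vp w p c b - qv E D r 0) := by abel
      rw [e1]
      exact (TIW.hn_sub _ _).trans (add_le_add h'.tb h.tb)
    have h3 : ((hgt (sl w b b') : ℕ) : ℤ) ≤ ((2 ^ (k + 2) : ℕ) : ℤ) := by
      rw [e2]
      linarith
    exact_mod_cast h3

/-- two points of a ball -/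
lemma two_pt {p q : Pt} {R : ℤ} (hp : TIW.hn p ≤ R) (hq : TIW.hn q ≤ R) : TIW.hn (p - q) ≤ 2 * R := by
  linarith [TIW.hn_sub p q]

/-- the size of a part -/
lemma sl_In (hc : nrm c = 1) (hab : a ≤ b) (hb : b ≤ w.length) {R : ℤ} {Dm : ℕ}
    (h : ∀ i, a ≤ i → i ≤ b → TIW.hn (Vp w p c i) ≤ R) (hR : 2 * R ≤ Dm) : In Dm (sl w a b) := by
  intro i hi
  rw [sl_len hb] at hi
  refine Bl_of_hn ?_
  have h1 := sl_hn (p := p) hc hb hab hi (Nat.zero_le _)
  have e1 : vx oo up (sl w a b) i - vx oo up (sl w a b) 0 = vx oo up (sl w a b) i := sub_zero _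
  rw [e1] at h1
  rw [h1]
  exact (two_pt (h (a + i) (by omega) (by omega)) (h (a + 0) (by omega) (by omega))).trans hR

lemma vstep (w : List Bool) (i : ℕ) : TIW.hn (vx oo up w (i + 1) - vx oo up w i) ≤ 2 := by
  have e1 : vx oo up w (i + 1) - vx oo up w i = dx up w i := by
    rw [vx_step]
    abel
  rw [e1]
  have h1 : dx up w i ∈ dirs := dx_mem up_dirs w i
  have key : ∀ d ∈ dirs, TIW.hn d ≤ 2 := by decide
  exact key _ h1

/-- the size of the reversed part -/
lemma sl_InR (hc : nrm c = 1) (hab : a ≤ b) (hb : b ≤ w.length) {R : ℤ} {Dm : ℕ}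
    (h : ∀ i, a ≤ i → i ≤ b → TIW.hn (Vp w p c i) ≤ R) (hR : 2 * R + 2 ≤ Dm) : In Dm (rev (sl w a b)) := by
  intro i hi
  have hl : (sl w a b).length = b - a := sl_len hb
  rw [rev_length, hl] at hi
  refine Bl_of_hn ?_
  rcases Nat.eq_zero_or_pos i with h0 | h0
  · rw [h0]
    have e1 : vx oo up (rev (sl w a b)) 0 = 0 := rfl
    have e2 : TIW.hn (0 : Pt) = 0 := by decide
    rw [e1, e2]
    positivity
  obtain ⟨c', hc', hfr⟩ := TIP.RevM.rev_frame (sl w a b)
  have h9 := hfr i (by omega)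
  rw [hl] at h9
  have h10 : TIW.hn (vx oo up (rev (sl w a b)) i) =
      TIW.hn (vx oo up (sl w a b) (b - a + 1) - vx oo up (sl w a b) (b - a + 1 - i)) := by
    rw [h9, ← TIW.hn_mulE (mem_dirs.1 hc') (vx oo up (rev (sl w a b)) i), ← TIW.hn_neg]
    congr 1
    abel
  rw [h10]
  have h5 := sl_hn (p := p) hc hb hab (i := b - a) (i' := b - a + 1 - i) le_rfl (by omega)
  have h6 := two_pt (h (a + (b - a)) (by omega) (by omega)) (h (a + (b - a + 1 - i)) (by omega) (by omega))
  have h7 := vstep (sl w a b) (b - a)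
  have e4 : vx oo up (sl w a b) (b - a + 1) - vx oo up (sl w a b) (b - a + 1 - i) =
      (vx oo up (sl w a b) (b - a + 1) - vx oo up (sl w a b) (b - a)) +
        (vx oo up (sl w a b) (b - a) - vx oo up (sl w a b) (b - a + 1 - i)) := by abel
  rw [e4]
  have h8 := TIW.hn_add (vx oo up (sl w a b) (b - a + 1) - vx oo up (sl w a b) (b - a))
    (vx oo up (sl w a b) (b - a) - vx oo up (sl w a b) (b - a + 1 - i))
  linarith

open Classical in
/-- cuts -/
lemma le_nc {Z : List Bool} (S : Finset ℕ) (h : ∀ x ∈ S, x ≤ Z.length ∧ Z.take x ∈ BU ∧ Z.drop x ∈ BU) : S.card ≤ nc Z := by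
  unfold nc
  refine card_le_card fun x hx => ?_
  obtain ⟨h1, h2, h3⟩ := h x hx
  rw [mem_filter, mem_range]
  exact ⟨by omega, h2, h3⟩

lemma sl_take {x : ℕ} (hx : x + a ≤ b) : (sl w a b).take x = sl w a (a + x) := by
  unfold sl
  rw [List.take_take]
  congr 1
  omega

lemma sl_drop {x : ℕ} : (sl w a b).drop x = sl w (a + x) b := by
  unfold sl
  rw [List.drop_take, List.drop_drop]
  congr 1
  omega

lemma rev_drop (B : List Bool) (m : ℕ) : rev (B.drop m) = (rev B).take (B.length - m) := by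
  unfold rev
  rw [List.map_drop, List.reverse_drop]
  congr 1
  rw [List.length_map]

lemma rev_take' (B : List Bool) (m : ℕ) : rev (B.take m) = (rev B).drop (B.length - m) := by
  unfold rev
  rw [List.map_take, List.reverse_take, List.length_map]

/-- tips of the outer part `M` -/
def EPw (j m cc : ℕ) (η K tt q : ℝ) (M : List Bool) : Prop :=
  ∃ X Y : List Bool, (rev Y ∈ GT j η ∧ In (2 ^ (j + m)) Y) ∧ (X ∈ GT j η ∧ In (2 ^ (j + m)) (rev X)) ∧
    (X.length : ℝ) + q ≤ tt ∧ (Y.length : ℝ) + q ≤ tt ∧ SN j m cc η K tt (X ++ (M ++ Y))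

/-- **the number of the markings of a class** -/
theorem count1 (hE : IPg E r) (hr : 3 ≤ r) (hD : 2 ^ (k + 12) ≤ D) (hc : nrm c = 1) (hw : w ∈ POL.Cy N) {j m cc : ℕ}
    {η K tt q : ℝ} (hkj : k ≤ j) {R : ℤ} (hR : 2 * R + 2 ≤ 2 ^ (j + cc)) (S : Finset (ℕ × ℕ))
    (hS : ∀ s ∈ S, Tr E r D k (Vp w p c) (Up w c) N s.1 s.2 ∧
      (∀ i, (i ≤ s.1 ∨ (s.2 ≤ i ∧ i ≤ N)) → TIW.hn (Vp w p c i) ≤ R) ∧ (s.1 : ℝ) + ((N - s.2 : ℕ) : ℝ) ≤ q ∧
      EPw j m cc η K tt q (sl w s.1 s.2)) : (S.card : ℝ) ≤ (K * Ub j) ^ 2 := by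
  classical
  rcases S.eq_empty_or_nonempty with h0 | h0
  · rw [h0]
    simp only [card_empty, Nat.cast_zero]
    positivity
  have hlw : w.length = N := hw.1
  have hD0 : 0 ≤ D := le_trans (by positivity) hD
  have hst : ∀ i, i < N → TIW.hn (Vp w p c (i + 1) - Vp w p c i) ≤ 2 := fun i _ => Vp_step hc i
  have hh : 2 ^ (k + 2) ≤ 2 ^ (j + 2) := Nat.pow_le_pow_right (by norm_num) (by omega)
  have hR' : 2 * R ≤ ((2 ^ (j + cc) : ℕ) : ℤ) := by
    push_cast
    linarith
  have hR'' : 2 * R + 2 ≤ ((2 ^ (j + cc) : ℕ) : ℤ) := by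
    push_cast
    linarith
  -- the starts
  have hA : ((S.image Prod.fst).card : ℝ) ≤ K * Ub j := by
    obtain ⟨p0, hp0, hm0⟩ := S.exists_min_image (fun p => p.1) h0
    obtain ⟨p1, hp1, hm1⟩ := S.exists_max_image (fun p => p.1) h0
    obtain ⟨s1, s2, s3, X, Y, ⟨y1, y2⟩, ⟨x1, x2⟩, x3, -, -, x4⟩ := hS p0 hp0
    obtain ⟨t1, t2, t3, -⟩ := hS p1 hp1
    have h01 : p0.1 ≤ p1.1 := hm0 p1 hp1
    have hme : p1.1 ≤ p0.2 := s1.meet hE hr hD hst t1
    have hbN := s1.bN
    have hbN' := t1.bN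
    have hab' := t1.ab
    have hlt : p1.1 < p0.2 := by
      refine lt_of_le_of_ne hme fun he => ?_
      have g1 := far_ends hE hr hD (s1.near0 hD0) (t1.nearL hD0 (by omega))
      have g2 : TIW.hn (0 : Pt) = 0 := by decide
      rw [he, sub_self, g2] at g1
      omega
    obtain ⟨z1, z2⟩ := (cls hE hr hD hc hw s1 t1).1 h01
    have hl : (sl w p0.1 p1.1).length = p1.1 - p0.1 := sl_len (by omega)
    by_contra hcon
    push Not at hcon
    refine x4 ⟨(rev (sl w p1.1 p0.2 ++ Y)).drop 1, rev (sl w p0.1 p1.1), rev X, ?_, by rwa [rev_rev], x2, BU_rev z1, ?_, ?_,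
      ?_, ?_⟩
    · have e1 : X ++ (sl w p0.1 p0.2 ++ Y) = (X ++ sl w p0.1 p1.1) ++ (sl w p1.1 p0.2 ++ Y) := by
        rw [sl_cat (w := w) h01 hme]
        simp only [List.append_assoc]
      unfold rv
      rw [e1, rev_append, rev_append X, List.drop_append_of_le_length]
      rw [rev_length, List.length_append, sl_len (by omega)]
      omega
    · have h3 : hgt (rev (sl w p0.1 p1.1)) = hgt (sl w p0.1 p1.1) := hgt_eq (Brd_rev (TIP.BU_hgt z1))
      rw [h3]
      exact z2.trans hh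
    · exact sl_InR (p := p) hc h01 (by omega) (fun i _ h2 => t2 i (Or.inl h2)) hR''
    · refine hcon.trans_le ?_
      have h5 : (S.image Prod.fst).card ≤ nc (rev (sl w p0.1 p1.1)) := by
        have h6 : ((S.image Prod.fst).image fun x => p1.1 - x).card = (S.image Prod.fst).card := by
          refine card_image_of_injOn ?_
          intro x hx y hy hxy
          rw [mem_coe, mem_image] at hx hy
          obtain ⟨p, hp, rfl⟩ := hx
          obtain ⟨p', hp', rfl⟩ := hy
          have g1 := hm1 p hp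
          have g2 := hm1 p' hp'
          simp only at hxy g1 g2
          omega
        rw [← h6]
        refine le_nc _ fun x hx => ?_
        rw [mem_image] at hx
        obtain ⟨y, hy, rfl⟩ := hx
        rw [mem_image] at hy
        obtain ⟨s, hs, rfl⟩ := hy
        obtain ⟨u1, -, -, -⟩ := hS s hs
        have g1 : p0.1 ≤ s.1 := hm0 s hs
        have g2 : s.1 ≤ p1.1 := hm1 s hs
        have f1 : rev (sl w s.1 p1.1) = (rev (sl w p0.1 p1.1)).take (p1.1 - s.1) := by
          have f2 : sl w s.1 p1.1 = (sl w p0.1 p1.1).drop (s.1 - p0.1) := by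
            rw [sl_drop, Nat.add_sub_cancel' g1]
          rw [f2, rev_drop, hl]
          congr 1
          omega
        have f3 : rev (sl w p0.1 s.1) = (rev (sl w p0.1 p1.1)).drop (p1.1 - s.1) := by
          have f2 : sl w p0.1 s.1 = (sl w p0.1 p1.1).take (s.1 - p0.1) := by
            rw [sl_take (by omega), Nat.add_sub_cancel' g1]
          rw [f2, rev_take', hl]
          congr 1
          omega
        refine ⟨?_, ?_, ?_⟩
        · rw [rev_length, hl]
          omega
        · rw [← f1]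
          exact BU_rev ((cls hE hr hD hc hw u1 t1).1 g2).1
        · rw [← f3]
          exact BU_rev ((cls hE hr hD hc hw s1 u1).1 g1).1
      exact_mod_cast h5
    · rw [rev_length, rev_length, hl]
      have h7 : ((p1.1 - p0.1 : ℕ) : ℝ) ≤ p1.1 := by exact_mod_cast Nat.sub_le _ _
      have h8 : (0 : ℝ) ≤ ((N - p1.2 : ℕ) : ℝ) := Nat.cast_nonneg _
      linarith
  -- the ends
  have hB : ((S.image Prod.snd).card : ℝ) ≤ K * Ub j := by
    obtain ⟨p0, hp0, hm0⟩ := S.exists_min_image (fun p => p.2) h0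
    obtain ⟨p1, hp1, hm1⟩ := S.exists_max_image (fun p => p.2) h0
    obtain ⟨s1, s2, s3, -⟩ := hS p0 hp0
    obtain ⟨t1, t2, t3, X, Y, ⟨y1, y2⟩, ⟨x1, x2⟩, -, x3, x4, -⟩ := hS p1 hp1
    have h01 : p0.2 ≤ p1.2 := hm0 p1 hp1
    have hme : p1.1 ≤ p0.2 := s1.meet hE hr hD hst t1
    have hbN := s1.bN
    have hbN' := t1.bN
    have hab := s1.ab
    have hab' := t1.ab
    obtain ⟨z1, z2⟩ := (cls hE hr hD hc hw s1 t1).2 h01
    have hl : (sl w p0.2 p1.2).length = p1.2 - p0.2 := sl_len (by omega)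
    by_contra hcon
    push Not at hcon
    refine x4 ⟨X ++ sl w p1.1 p0.2, sl w p0.2 p1.2, Y, ?_, y1, y2, z1, z2.trans hh, ?_, ?_, ?_⟩
    · rw [sl_cat (w := w) hme h01]
      simp only [List.append_assoc]
    · exact sl_In (p := p) hc h01 (by omega) (fun i h1 h2 => s2 i (Or.inr ⟨h1, by omega⟩)) hR'
    · refine hcon.trans_le ?_
      have h5 : (S.image Prod.snd).card ≤ nc (sl w p0.2 p1.2) := by
        have h6 : ((S.image Prod.snd).image fun x => x - p0.2).card = (S.image Prod.snd).card := by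
          refine card_image_of_injOn ?_
          intro x hx y hy hxy
          rw [mem_coe, mem_image] at hx hy
          obtain ⟨p, hp, rfl⟩ := hx
          obtain ⟨p', hp', rfl⟩ := hy
          have g1 := hm0 p hp
          have g2 := hm0 p' hp'
          simp only at hxy g1 g2
          omega
        rw [← h6]
        refine le_nc _ fun x hx => ?_
        rw [mem_image] at hx
        obtain ⟨y, hy, rfl⟩ := hx
        rw [mem_image] at hy
        obtain ⟨s, hs, rfl⟩ := hy
        obtain ⟨u1, -, -, -⟩ := hS s hs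
        have g1 : p0.2 ≤ s.2 := hm0 s hs
        have g2 : s.2 ≤ p1.2 := hm1 s hs
        refine ⟨?_, ?_, ?_⟩
        · rw [hl]
          omega
        · rw [sl_take (by omega), Nat.add_sub_cancel' g1]
          exact ((cls hE hr hD hc hw s1 u1).2 g1).1
        · rw [sl_drop, Nat.add_sub_cancel' g1]
          exact ((cls hE hr hD hc hw u1 t1).2 g2).1
      exact_mod_cast h5
    · rw [hl]
      have h7 : ((p1.2 - p0.2 : ℕ) : ℝ) ≤ ((N - p0.2 : ℕ) : ℝ) := by exact_mod_cast (by omega : p1.2 - p0.2 ≤ N - p0.2)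
      have h8 : (0 : ℝ) ≤ (p0.1 : ℝ) := Nat.cast_nonneg _
      linarith
  have h1 : S.card ≤ (S.image Prod.fst).card * (S.image Prod.snd).card := by
    rw [← card_product]
    refine card_le_card fun s hs => ?_
    rw [mem_product]
    exact ⟨mem_image_of_mem _ hs, mem_image_of_mem _ hs⟩
  have h2 : (S.card : ℝ) ≤ ((S.image Prod.fst).card : ℝ) * ((S.image Prod.snd).card : ℝ) := by exact_mod_cast h1
  rw [sq]
  exact h2.trans (mul_le_mul hA hB (Nat.cast_nonneg _) ((Nat.cast_nonneg _).trans hA))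

end SW

end PMA

end HexObs
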