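import Pool.Agent.PMA.Defs
import Pool.Agent.ARM.T1

/-!
# (PM), the deterministic bound of the density: the tips (helper22, after helper44's pair version)

* `jbl_ne` : a joinable word is not empty;
* **`th_up`** : the weight of the tips is at most `C / κ ^ 2 * Xb j ^ 2`;
* `cnt_ge` : at least a quarter of the letters of a filling has a given parity; `cnt_le`.
-/

set_option autoImplicit false

namespace HexObs

namespace PMA

open Finset TS SDN SIM NTA TIP ARM ARM.G3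

open scoped ENNReal

lemma nrm_smul_int (D : ℤ) (p : Pt) : nrm (D • p) = D ^ 2 * nrm p := by
  obtain ⟨x, y⟩ := p
  unfold nrm
  simp only [Prod.smul_mk, smul_eq_mul]
  ring

/-- a joinable word is not empty -/
lemma jbl_ne {P : Par} {M : List Bool} (hH : 1 ≤ P.H) (h : Jbl P M) : M ≠ [] := by
  rintro rfl
  obtain ⟨τ, hτ, hJ⟩ := h
  have h1 := hJ.pos
  have h2 := hτ.ip.ind 0 τ.r (by have := hτ.r4; omega) le_rfl
  have h3 : TIW.en ([] : List Bool) = 0 := rfl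
  rw [h3, zero_sub, TIW.hn_neg] at h1
  have h4 := TIW.nrm_le_hn (qv τ.E τ.D τ.r 0)
  have h5 : nrm (qv τ.E τ.D τ.r 0) = τ.D ^ 2 * nrm (AR.ps τ.E τ.r - AR.ps τ.E 0) := by
    unfold qv
    rw [nrm_smul_int]
    congr 1
    have : AR.ps τ.E 0 - AR.ps τ.E τ.r = -(AR.ps τ.E τ.r - AR.ps τ.E 0) := (neg_sub _ _).symm
    rw [this]
    generalize AR.ps τ.E τ.r - AR.ps τ.E 0 = p
    obtain ⟨x, y⟩ := p
    unfold nrm
    simp only [Prod.fst_neg, Prod.snd_neg]
    ring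
  have h6 := hτ.D1
  have h7 : (1 : ℤ) ≤ P.H := by exact_mod_cast hH
  have h8 : (1 : ℤ) ≤ 2 ^ τ.k := one_le_pow₀ (by norm_num)
  have h9 : 18 * (2 : ℤ) ^ τ.k ≤ τ.D := by nlinarith
  have h10 : 0 ≤ TIW.hn (qv τ.E τ.D τ.r 0) := TIW.hn_nonneg _
  rw [h5] at h4
  have h11 : TIW.hn (qv τ.E τ.D τ.r 0) ^ 2 ≤ (2 ^ τ.k) ^ 2 := pow_le_pow_left₀ h10 h1 2
  have h12 : (18 * (2 : ℤ) ^ τ.k) ^ 2 ≤ τ.D ^ 2 := pow_le_pow_left₀ (by positivity) h9 2
  nlinarith

/-- **the weight of the tips** -/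
theorem th_up {η : ℝ} (hη : 0 < η) (m : ℕ) : ∃ C : ℝ, 0 < C ∧ ∀ P : Par, P.η = η → P.m = m → 0 < P.κ → 1 ≤ P.H →
    ∀ (q : ℕ) (M : List Bool), th P q M ≤ ENNReal.ofReal (C / P.κ ^ 2) * Xb P.j ^ 2 := by
  classical
  obtain ⟨C2, hC2, hY⟩ := yMassW η m 0 hη
  refine ⟨C2 ^ 2, by positivity, fun P hPη hPm hκ hH q M => ?_⟩
  obtain ⟨j, hj⟩ : ∃ j, j = P.j := ⟨_, rfl⟩
  rw [← hj]
  have hUj := G2.U_pos j
  obtain ⟨YY, hYY⟩ : ∃ YY : Set (List Bool), YY = {Y | Y ∈ SA ∧ rev Y ∈ GT j η ∧ In (2 ^ (j + m)) Y} := ⟨_, rfl⟩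
  obtain ⟨y, hy⟩ : ∃ y : List Bool → ℝ≥0∞, y = fun Y => if Y ∈ YY then wE Y else 0 := ⟨_, rfl⟩
  have hys : ∑' Y : List Bool, y Y ≤ ENNReal.ofReal (C2 * Ub j) * Xb j := by
    refine le_trans (le_of_eq ?_) (hY j)
    rw [← hYY, _root_.tsum_subtype YY (fun Y => wE Y * ENNReal.ofReal ((1 + (Y.length : ℝ) / ml j) ^ 0))]
    refine tsum_congr fun Y => ?_
    rw [hy, Set.indicator_apply]
    simp only [pow_zero, ENNReal.ofReal_one, mul_one]
  have hpos : 0 < P.κ ^ 2 * Ub j ^ 2 := by positivity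
  have hterm : ∀ p : {p : List Bool × List Bool | Adm P p.1 M p.2 ∧ Many P (p.1 ++ (M ++ p.2)) ∧ p.1.length % 2 = q % 2},
      wE (p : List Bool × List Bool).1 * wE (p : List Bool × List Bool).2 /
        (NN P ((p : List Bool × List Bool).1 ++ (M ++ (p : List Bool × List Bool).2)) : ℝ≥0∞) ≤
      ENNReal.ofReal ((P.κ ^ 2 * Ub j ^ 2)⁻¹) * (y (rev (p : List Bool × List Bool).1) * y (p : List Bool × List Bool).2) := by
    rintro ⟨⟨X, Y⟩, h⟩
    obtain ⟨⟨h1, ⟨⟨c1, c2, -⟩, ⟨c3, c4, -⟩⟩, hO, -⟩, ⟨hN, -⟩, -⟩ := h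
    simp only at h1 c1 c2 c3 c4 hN ⊢
    rw [hPη, ← hj] at c1 c3
    rw [hPm, ← hj] at c2 c4
    rw [← hj] at hN
    have hSA : X ++ (M ++ Y) ∈ SA := h1.1
    have hMne := jbl_ne hH hO.1
    have hlen : 1 ≤ (M ++ Y).length := by
      rw [List.length_append]
      have := List.length_pos_iff.2 hMne
      omega
    have e1 : rev X ∈ YY := by
      rw [hYY]
      refine ⟨?_, by rw [rev_rev]; exact c3, c4⟩
      have h1 : ARM.rv (X ++ (M ++ Y)) ∈ SA := RevM.rev_SA hSA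
      have h2 : ARM.rv (X ++ (M ++ Y)) = (rev (M ++ Y)).drop 1 ++ rev X := by
        unfold ARM.rv
        rw [rev_app, List.drop_append_of_le_length (by rw [rev_length]; exact hlen)]
      rw [h2] at h1
      exact TIP.Nf.SA_suf h1
    have e2 : Y ∈ YY := by
      rw [hYY]
      exact ⟨TIP.Nf.SA_suf (TIP.Nf.SA_suf hSA), c1, c2⟩
    have e3 : ((NN P (X ++ (M ++ Y)) : ℕ) : ℝ≥0∞)⁻¹ ≤ ENNReal.ofReal ((P.κ ^ 2 * Ub j ^ 2)⁻¹) := by
      rw [ENNReal.ofReal_inv_of_pos hpos, ENNReal.inv_le_inv, ← ENNReal.ofReal_natCast]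
      exact ENNReal.ofReal_le_ofReal hN
    rw [hy]
    simp only [if_pos e1, if_pos e2]
    rw [div_eq_mul_inv, mul_comm, wE_rev]
    exact mul_le_mul' e3 le_rfl
  unfold th
  calc _ ≤ ∑' p : {p : List Bool × List Bool | Adm P p.1 M p.2 ∧ Many P (p.1 ++ (M ++ p.2)) ∧ p.1.length % 2 = q % 2},
        ENNReal.ofReal ((P.κ ^ 2 * Ub j ^ 2)⁻¹) * (y (rev (p : List Bool × List Bool).1) * y (p : List Bool × List Bool).2) :=
        ENNReal.tsum_le_tsum hterm
    _ ≤ ∑' p : List Bool × List Bool, ENNReal.ofReal ((P.κ ^ 2 * Ub j ^ 2)⁻¹) * (y (rev p.1) * y p.2) :=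
        ENNReal.tsum_comp_le_tsum_of_injective Subtype.val_injective
          (fun p : List Bool × List Bool => ENNReal.ofReal ((P.κ ^ 2 * Ub j ^ 2)⁻¹) * (y (rev p.1) * y p.2))
    _ = ENNReal.ofReal ((P.κ ^ 2 * Ub j ^ 2)⁻¹) * ((∑' Y : List Bool, y Y) * (∑' Y : List Bool, y Y)) := by
        rw [ENNReal.tsum_mul_left, ENNReal.tsum_prod']
        congr 1
        have h1 : ∀ a : List Bool, ∑' b : List Bool, y (rev a) * y b = y (rev a) * ∑' b : List Bool, y b :=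
          fun a => ENNReal.tsum_mul_left
        have h2 : (∑' X : List Bool, y (rev X)) = ∑' Y : List Bool, y Y :=
          (Function.Involutive.toPerm rev rev_rev).tsum_eq y
        rw [tsum_congr h1, ENNReal.tsum_mul_right, h2]
    _ ≤ ENNReal.ofReal ((P.κ ^ 2 * Ub j ^ 2)⁻¹) * ((ENNReal.ofReal (C2 * Ub j) * Xb j) * (ENNReal.ofReal (C2 * Ub j) * Xb j)) :=
        mul_le_mul' le_rfl (mul_le_mul' hys hys)
    _ = ENNReal.ofReal (C2 ^ 2 / P.κ ^ 2) * Xb j ^ 2 := by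
        have e : ENNReal.ofReal (C2 ^ 2 / P.κ ^ 2) = ENNReal.ofReal ((P.κ ^ 2 * Ub j ^ 2)⁻¹) *
            (ENNReal.ofReal (C2 * Ub j) * ENNReal.ofReal (C2 * Ub j)) := by
          rw [← ENNReal.ofReal_mul (by positivity), ← ENNReal.ofReal_mul (by positivity)]
          congr 1
          field_simp
        rw [e]
        ring

/-! ### the parities -/

lemma cnt_le (l q : ℕ) : cnt l q ≤ l := by
  unfold cnt
  exact (Finset.card_filter_le _ _).trans (le_of_eq (Finset.card_range l))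

lemma cnt_half (l q : ℕ) : l / 2 ≤ cnt l q := by
  unfold cnt
  have h : ((range (l / 2)).image fun u => l - (2 * u + 1 + (q + 1) % 2)) ⊆ (range l).filter fun u => (l - u) % 2 = q % 2 := by
    intro v hv
    obtain ⟨u, hu, rfl⟩ := Finset.mem_image.1 hv
    have hu' := Finset.mem_range.1 hu
    rw [Finset.mem_filter, Finset.mem_range]
    omega
  have h2 := Finset.card_le_card h
  rwa [Finset.card_image_of_injOn, Finset.card_range] at h2
  intro u hu v hv he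
  have hu' := Finset.mem_range.1 (Finset.mem_coe.1 hu)
  have hv' := Finset.mem_range.1 (Finset.mem_coe.1 hv)
  simp only at he
  omega

/-- at least a quarter of the letters -/
lemma cnt_ge {l : ℕ} (hl : 2 ≤ l) (q : ℕ) : l ≤ 4 * cnt l q := by
  have := cnt_half l q
  omega

end PMA

end HexObs
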