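import Pool.Agent.PMA.TrNum

/-!
# PM, row TrSt (helper70), part 4: **`trSt`**, the mass of the words with too many cuts behind a good cut; `sn_mass` : both ends.
-/

set_option autoImplicit false

namespace HexObs

namespace PMA

open Finset TS SDN HexObs.SIM NTA TIP ARM

open scoped ENNReal

/-- **one scale** -/
theorem one_sc {η : ℝ} (hη : 0 < η) (m c : ℕ) : ∃ C : ℝ, 0 < C ∧ ∀ (κ : ℝ), 1 ≤ κ → ∀ (D : ℝ) (n j s d : ℕ), 0 ≤ D → HF D n j →
    s + d = j + 2 → gf {L | L ∈ Fp n j ∧ Mc κ s d ≤ (nD (2 ^ (j + (m + c + 3))) (rT s j m η (Mc κ s d)) L : ℝ)} ≤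
      ENNReal.ofReal (C / κ ^ 2 * (D * pr n j) * tw (-(5 / 48)) ^ d) := by
  obtain ⟨C1, hC1, hE⟩ := exF 1 (m + c + 1) one_pos
  obtain ⟨C2, hC2, hM⟩ := mSS_tail hη m
  obtain ⟨C3, hC3, hX⟩ := Xb_rat
  obtain ⟨C4, hC4, hU⟩ := Ub_rat
  refine ⟨256 * C1 * C2 * C3 * C4, by positivity, fun κ hκ D n j s d hD hF hsd => ?_⟩
  obtain ⟨M, hMd⟩ : ∃ M, M = Mc κ s d := ⟨_, rfl⟩
  have hM0 : 0 < M := by rw [hMd]; exact Mc_pos (by linarith) s d
  have hUs := Ub_pos s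
  have hUj := Ub_pos j
  have hp := pr_nonneg n j
  have hp2 := pr_nonneg n (j + 2)
  have h1 := hE D n j (j + 2) s hD (F_zero_top (by omega) hF) (by omega) (by omega) (rT s j m η M)
    (ENNReal.ofReal (C2 * Ub s * Ub j / M) * Xb j) M (fun A Y h => h.1) (fun A => ?_) hM0
  · rw [show j + 2 + (m + c + 1) = j + (m + c + 3) by omega] at h1
    rw [← hMd]
    have h2 : Xb j ≤ ENNReal.ofReal (C3 * tw (25 / 48 * d)) * Xb s := by
      refine (Xb_mono (show j ≤ s + d by omega)).trans (hX s d)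
    have hc := tw_pos (25 / 48 * d)
    have h3 : gf {L | L ∈ Fp n j ∧ M ≤ (nD (2 ^ (j + (m + c + 3))) (rT s j m η M) L : ℝ)} * ENNReal.ofReal M * Xb s ≤
        ENNReal.ofReal (C1 * D * pr n (j + 2) * (C2 * Ub s * Ub j / M) * (C3 * tw (25 / 48 * d))) * Xb s := by
      rw [mul_assoc]
      refine h1.trans ?_
      calc ENNReal.ofReal (C1 * D * pr n (j + 2)) * (ENNReal.ofReal (C2 * Ub s * Ub j / M) * Xb j)
          ≤ ENNReal.ofReal (C1 * D * pr n (j + 2)) * (ENNReal.ofReal (C2 * Ub s * Ub j / M) *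
            (ENNReal.ofReal (C3 * tw (25 / 48 * d)) * Xb s)) := mul_le_mul' le_rfl (mul_le_mul' le_rfl h2)
        _ = _ := by
          rw [← mul_assoc, ← mul_assoc, ← ENNReal.ofReal_mul (by positivity), mul_right_comm, mul_assoc (ENNReal.ofReal _) (Xb s),
            mul_comm (Xb s), ← mul_assoc, ← ENNReal.ofReal_mul (by positivity)]
    have h4 := div_Xb h3
    have h5 : gf {L | L ∈ Fp n j ∧ M ≤ (nD (2 ^ (j + (m + c + 3))) (rT s j m η M) L : ℝ)} ≤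
        ENNReal.ofReal (C1 * D * pr n (j + 2) * (C2 * Ub s * Ub j / M) * (C3 * tw (25 / 48 * d)) / M) := by
      rw [ENNReal.ofReal_div_of_pos hM0]
      exact ENNReal.le_div_iff_mul_le (Or.inl (by rw [ne_eq, ENNReal.ofReal_eq_zero, not_le]; exact hM0))
        (Or.inl ENNReal.ofReal_ne_top) |>.2 h4
    refine h5.trans (ENNReal.ofReal_le_ofReal ?_)
    rw [hMd]
    refine num_one (P := pr n j) (P' := pr n (j + 2)) hC1 hC2 (by linarith) (by linarith) (by linarith) hD hp ?_ hUj.le ?_ rfl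
    · have := pr_up16 n j 2
      norm_num at this
      exact this
    · refine (Ub_mono (show j ≤ s + d by omega)).trans (hU s d).1
  · refine le_trans (gf_mono (Q := {V | V ∈ SS s j m η M ∧ n - A.length ≤ V.length}) ?_) (hM s j M n A.length (by omega) hM0)
    rintro V ⟨g1, -, g3⟩
    refine ⟨g1.2, ?_⟩
    have := g3.2.1
    rw [List.length_append] at this
    omega

/-- **row TrSt** -/
theorem trSt {η : ℝ} (hη : 0 < η) (m c : ℕ) {ε : ℝ} (hε : 0 < ε) : ∃ K : ℝ, 0 < K ∧ ∀ (D : ℝ) (n j : ℕ) (t : ℝ), 0 ≤ D →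
    HF D n j → gf {L | L ∈ Fp n j ∧ TrB j m c η K t L} ≤ ENNReal.ofReal (ε * D * pr n j) := by
  classical
  obtain ⟨C, hC, hS⟩ := one_sc hη m c
  obtain ⟨r, hr⟩ : ∃ r : ℝ, r = tw (-(5 / 48)) := ⟨_, rfl⟩
  have hr0 : 0 < r := by rw [hr]; exact tw_pos _
  have hr1 : r < 1 := by
    rw [hr]
    unfold tw
    exact Real.rpow_lt_one_of_one_lt_of_neg (by norm_num) (by norm_num)
  have hs : 0 < (1 - r)⁻¹ := inv_pos.2 (by linarith)
  obtain ⟨κ, hκd⟩ : ∃ κ : ℝ, κ = 1 + C * (1 - r)⁻¹ / ε := ⟨_, rfl⟩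
  have hκ1 : 1 ≤ κ := by rw [hκd]; have : 0 < C * (1 - r)⁻¹ / ε := by positivity
                         linarith
  have hκ2 : C / κ ^ 2 * (1 - r)⁻¹ ≤ ε := by
    have h1 : C * (1 - r)⁻¹ ≤ ε * κ := by
      rw [hκd]
      have : ε * (1 + C * (1 - r)⁻¹ / ε) = ε + C * (1 - r)⁻¹ := by field_simp
      rw [this]
      linarith
    have h2 : κ ≤ κ ^ 2 := by nlinarith
    rw [div_mul_eq_mul_div, div_le_iff₀ (by positivity)]
    exact h1.trans (mul_le_mul_of_nonneg_left h2 hε.le)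
  obtain ⟨K, hK, hsc⟩ := scale_ex hκ1
  refine ⟨K, hK, fun D n j t hD hF => ?_⟩
  have hp := pr_nonneg n j
  have hsub : {L | L ∈ Fp n j ∧ TrB j m c η K t L} ⊆ ⋃ d ∈ range (j + 3), {L | L ∈ Fp n j ∧ Mc κ (j + 2 - d) d ≤
      (nD (2 ^ (j + (m + c + 3))) (rT (j + 2 - d) j m η (Mc κ (j + 2 - d) d)) L : ℝ)} := by
    rintro L ⟨hL, A, Z, Y, rfl, h1, h2, h3, h4, h5, h6, -⟩
    obtain ⟨s, d, hsd, h7⟩ := hsc j Z h3 h4 h6
    rw [Set.mem_iUnion₂]
    refine ⟨d, mem_range.2 (by omega), hL, ?_⟩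
    rw [show j + 2 - d = s by omega]
    exact geo_one hL.1 h1 h2 h4 h5 le_rfl (Ub_le_Mc hκ1 s d) h7
  refine (gf_mono hsub).trans ((BAR.gf_bi_le _ _).trans ?_)
  have h1 : ∀ d ∈ range (j + 3), gf {L | L ∈ Fp n j ∧ Mc κ (j + 2 - d) d ≤
      (nD (2 ^ (j + (m + c + 3))) (rT (j + 2 - d) j m η (Mc κ (j + 2 - d) d)) L : ℝ)} ≤
      ENNReal.ofReal (C / κ ^ 2 * (D * pr n j) * r ^ d) := by
    intro d hd
    rw [mem_range] at hd
    rw [hr]
    exact hS κ hκ1 D n j (j + 2 - d) d hD hF (by omega)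
  refine (sum_le_sum h1).trans ?_
  rw [← ENNReal.ofReal_sum_of_nonneg (fun d _ => by positivity), ← mul_sum]
  refine ENNReal.ofReal_le_ofReal ?_
  have h2 : ∑ d ∈ range (j + 3), r ^ d ≤ (1 - r)⁻¹ := by
    rw [← tsum_geometric_of_lt_one hr0.le hr1]
    exact (summable_geometric_of_lt_one hr0.le hr1).sum_le_tsum _ fun i _ => by positivity
  calc C / κ ^ 2 * (D * pr n j) * ∑ d ∈ range (j + 3), r ^ d ≤ C / κ ^ 2 * (D * pr n j) * (1 - r)⁻¹ :=
        mul_le_mul_of_nonneg_left h2 (by positivity)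
    _ = C / κ ^ 2 * (1 - r)⁻¹ * (D * pr n j) := by ring
    _ ≤ ε * (D * pr n j) := mul_le_mul_of_nonneg_right hκ2 (by positivity)
    _ = _ := by ring

/-- **the good words, both ends** -/
theorem sn_mass {η : ℝ} (hη : 0 < η) (m c : ℕ) {ε : ℝ} (hε : 0 < ε) : ∃ K : ℝ, 0 < K ∧ ∀ (n j : ℕ) (t : ℝ), 1 ≤ n →
    gf {L | L ∈ F n j ∧ ¬ SN j m c η K t L} ≤ ENNReal.ofReal (ε * pr n j) := by
  obtain ⟨D, hD, hT⟩ := t1
  obtain ⟨K, hK, h⟩ := trSt hη m c (ε := ε / (9 * D)) (by positivity)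
  refine ⟨K, hK, fun n j t hn => ?_⟩
  have hp := pr_nonneg n j
  have hp' := pr_nonneg (n - 1) j
  have hsub : {L | L ∈ F n j ∧ ¬ SN j m c η K t L} ⊆ {L | L ∈ Fp n j ∧ TrB j m c η K t L} ∪
      {L | L ∈ F n j ∧ rv L ∈ {L | TrB j m c η K t L}} := by
    rintro L ⟨h1, h2⟩
    by_cases h3 : TrB j m c η K t L
    · exact Or.inl ⟨F_sub_Fp n j h1, h3⟩
    · refine Or.inr ⟨h1, ?_⟩
      by_contra h4
      exact h2 ⟨h3, h4⟩
  have h1 := h D n j t hD.le fun n' i _ _ => hT n' i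
  have h2 := (gf_rv (j := j) hn {L | TrB j m c η K t L}).trans (mul_le_mul' le_rfl (h D (n - 1) j t hD.le fun n' i _ _ => hT n' i))
  refine (gf_mono hsub).trans ((gf_union_le _ _).trans ((add_le_add h1 h2).trans ?_))
  have e2 : (2 : ℝ≥0∞) = ENNReal.ofReal 2 := by simp
  rw [e2, ← ENNReal.ofReal_mul (by norm_num), ← ENNReal.ofReal_add (by positivity) (by positivity)]
  refine ENNReal.ofReal_le_ofReal ?_
  have h3 := pr_pred n j
  have e3 : ε / (9 * D) * D = ε / 9 := by field_simp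
  rw [e3]
  nlinarith

end PMA

end HexObs
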