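import Pool.Agent.PMA.TrRow
import Pool.Agent.PMA.ThUp
import Pool.Agent.PMA.TrSt
import Pool.Agent.PMA.Many
import Pool.Agent.PMA.PubB

/-!
# (PM): the public statement from the number of the splittings (helper41)

* `CntSt`: the number of the splittings of a closed word (helper70);
* `trRow_of : CntSt → TrRow`, **`pm_of_cnt : CntSt → PM`**.
-/

set_option autoImplicit false

namespace HexObs

namespace PMA

open Finset TS SDN NTA TIP ARM ARM.G3

open scoped ENNReal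

/-- **the number of the splittings of a closed word** -/
def CntSt : Prop := ∀ (H Mx : ℕ), 2 ^ 13 ≤ H → ∃ c : ℕ, ∀ (sx : ℕ) (K : ℝ), 0 < K → ∃ (C : ℝ) (b0 : ℕ), 0 < C ∧
  ∀ (P : Par) (D : Finset ℤ), D.card ≤ Mx → P.H = H → P.Mx = Mx → P.sx = sx → P.TT = TTf Mx D →
    P.S = SN P.j P.m c P.η K ((P.A + P.A1) * ml P.j) → b0 ≤ P.j →
    ∀ Z ∈ POL.Cy P.N, (Spn P Z).Finite ∧ ((Spn P Z).ncard : ℝ) ≤ C * Ub P.j ^ 2

theorem trRow_of (h : CntSt) : TrRow := by
  intro c1 cf ε η κ a0 A A1 a m H Mx sx hc1 hcf hε hη hκ ha0 hA hA1 hH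
  obtain ⟨c, h⟩ := h H Mx hH
  obtain ⟨K, hK, hS⟩ := sn_mass hη m c hε
  obtain ⟨C2, b1, hC2, h⟩ := h sx K hK
  obtain ⟨C1, hC1, hth⟩ := th_up hη m
  obtain ⟨Λ, hΛ, hdd⟩ := dd_cy (C1 := C1 / κ ^ 2) (C2 := C2) (cf := cf) (c1 := c1) (a0 := a0) (by positivity) hC2 hcf hc1 ha0
  obtain ⟨ba, hba⟩ : ∃ ba : ℕ, 2 / a0 < (2 : ℝ) ^ ba := pow_unbounded_of_one_lt _ (by norm_num)
  refine ⟨c, b1 + ba, K, Λ, hΛ, fun n j hj hn => hS n j _ ?_, ?_⟩
  · have hm := ARM.ml_pos j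
    have h1 : (0 : ℝ) < n := lt_of_lt_of_le (by positivity) hn
    have h2 : 0 < n := by exact_mod_cast h1
    omega
  · intro P D n hD eH eMx esx eη eκ ea em ea0 eA eA1 eTT eS hR hEv hj hn hnN hN hG hfil hgw Z hZ
    have hS' : P.S = SN P.j P.m c P.η K ((P.A + P.A1) * ml P.j) := by
      rw [em, eη]
      exact eS
    obtain ⟨h1, h2⟩ := h P D hD eH eMx esx eTT hS' (by omega) Z hZ
    have hm := ARM.ml_pos P.j
    have hb : (1 : ℝ) ≤ 2 ^ (b1 + ba) := one_le_pow₀ (by norm_num)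
    have hmn : ml P.j ≤ n := by
      have : 1 * ml P.j ≤ 2 ^ (b1 + ba) * ml P.j := mul_le_mul_of_nonneg_right hb hm.le
      linarith
    refine hdd P n ea0 ?_ hmn hnN ?_ (fun l q hl => cnt_ge hl q) hfil hgw Z h1 h2
    · rw [ea0]
      have h3 : (2 : ℝ) ^ ba ≤ 2 ^ P.j := pow_le_pow_right₀ (by norm_num) (by omega)
      have h4 := ml_ge_two P.j
      have h5 : 2 / a0 ≤ ml P.j := by linarith
      rw [div_le_iff₀ ha0] at h5
      linarith
    · intro q M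
      have h3 := hth P eη em (eκ ▸ hκ) (by omega) q M
      rw [eκ] at h3
      exact h3

/-- **(PM) from the number of the splittings** -/
theorem pm_of_cnt (h : CntSt) : Pool.Agent.PMA.PM := Pool.Agent.PMA.pm_of (wpm_of manySt (trRow_of h)) pTight

end PMA

end HexObs
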