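import Pool.Agent.PMA.TrDef
import Pool.Agent.ARM.NtAll
import Pool.Agent.ARM.YPtJ
import Pool.Agent.ARM.QBadM
import Pool.Agent.ARM.BUMom

/-!
# PM / RM, row TrSt (helper70), part 1: the words

A bridge `Z` with many cuts behind a good cut: at some scale `s` there are many cuts with a good tip of the scale `s` in front and
with many splittings into a bridge of the scale `s` and a word of `YY` behind.
-/

set_option autoImplicit false

namespace HexObs

namespace PMA

open Finset TS SDN HexObs.SIM NTA TIP ARM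

open scoped ENNReal

/-- a bridge, then a part behind a good cut -/
def YY (j m : ℕ) (η : ℝ) : Set (List Bool) :=
  {V | V ∈ SA ∧ ∃ W Y : List Bool, V = W ++ Y ∧ W ∈ BU ∧ hgt W ≤ 2 ^ (j + 2) ∧ rev Y ∈ GT j η ∧ In (2 ^ (j + m)) Y}

open Classical in
/-- the splittings of a word into a bridge of the scale `s` and a word of `YY` -/
noncomputable def ct (s j m : ℕ) (η : ℝ) (V : List Bool) : Finset ℕ :=
  (range (V.length + 1)).filter fun i => V.take i ∈ BM.Lb s ∧ V.drop i ∈ YY j m η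

/-- many splittings -/
def SS (s j m : ℕ) (η M : ℝ) : Set (List Bool) := {V | M ≤ ((ct s j m η V).card : ℝ)}

/-- a good tip of the scale `s`, many splittings -/
def rT (s j m : ℕ) (η M : ℝ) (A V : List Bool) : Prop := A ∈ GT s 1 ∧ V ∈ SS s j m η M

open Classical in
/-- the cuts of a bridge at the scale `s` -/
noncomputable def cq (s : ℕ) (Z : List Bool) : Finset ℕ :=
  (Nf.cz Z).filter fun i => 2 ^ s ≤ hgt (Z.take i) ∧ hgt (Z.take i) < 2 ^ (s + 1)

lemma mem_cq {s : ℕ} {Z : List Bool} {i : ℕ} : i ∈ cq s Z ↔ i ∈ Nf.cz Z ∧ 2 ^ s ≤ hgt (Z.take i) ∧ hgt (Z.take i) < 2 ^ (s + 1) := by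
  unfold cq
  rw [mem_filter]

open Classical in
lemma mem_ct {s j m : ℕ} {η : ℝ} {V : List Bool} {i : ℕ} :
    i ∈ ct s j m η V ↔ i ≤ V.length ∧ V.take i ∈ BM.Lb s ∧ V.drop i ∈ YY j m η := by
  unfold ct
  rw [mem_filter, mem_range]
  constructor
  · rintro ⟨h1, h2⟩
    exact ⟨by omega, h2⟩
  · rintro ⟨h1, h2⟩
    exact ⟨by omega, h2⟩

open Classical in
/-- the points with less than T points behind them, in one class -/
lemma count_gt {S N : Finset ℕ} {T : ℝ} (hT : 0 ≤ T) (hN : N ⊆ S)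
    (h : ∀ j ∈ N, ((S.filter fun i => j ≤ i).card : ℝ) < T) : (N.card : ℝ) ≤ T := by
  rcases N.eq_empty_or_nonempty with h0 | h0
  · rw [h0, card_empty, Nat.cast_zero]
    exact hT
  · have h1 := h _ (N.min'_mem h0)
    refine le_trans ?_ h1.le
    exact_mod_cast card_le_card fun i hi => mem_filter.2 ⟨hN hi, N.min'_le i hi⟩

open Classical in
/-- **the middle third** -/
lemma mid_third {S : Finset ℕ} {T : ℝ} (hT : 0 ≤ T) (hS : 3 * T ≤ (S.card : ℝ)) : ∃ N : Finset ℕ, N ⊆ S ∧ T ≤ (N.card : ℝ) ∧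
    ∀ j ∈ N, T ≤ ((S.filter fun i => i ≤ j).card : ℝ) ∧ T ≤ ((S.filter fun i => j ≤ i).card : ℝ) := by
  obtain ⟨P, hP⟩ : ∃ P : ℕ → Prop, P = fun j => ((S.filter fun i => i ≤ j).card : ℝ) < T := ⟨_, rfl⟩
  obtain ⟨Q, hQ⟩ : ∃ Q : ℕ → Prop, Q = fun j => ((S.filter fun i => j ≤ i).card : ℝ) < T := ⟨_, rfl⟩
  have h1 : ((S.filter P).card : ℝ) ≤ T := count_lt hT (filter_subset _ _) fun j hj => by
    have := (mem_filter.1 hj).2
    rwa [hP] at this
  have h2 : ((S.filter Q).card : ℝ) ≤ T := count_gt hT (filter_subset _ _) fun j hj => by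
    have := (mem_filter.1 hj).2
    rwa [hQ] at this
  refine ⟨S.filter fun j => ¬ P j ∧ ¬ Q j, filter_subset _ _, ?_, fun j hj => ?_⟩
  · have h3 : S ⊆ S.filter P ∪ (S.filter Q ∪ S.filter fun j => ¬ P j ∧ ¬ Q j) := by
      intro j hj
      rw [mem_union, mem_union, mem_filter, mem_filter, mem_filter]
      by_cases g1 : P j
      · exact Or.inl ⟨hj, g1⟩
      · by_cases g2 : Q j
        · exact Or.inr (Or.inl ⟨hj, g2⟩)
        · exact Or.inr (Or.inr ⟨hj, g1, g2⟩)
    have h4 := (card_le_card h3).trans ((card_union_le _ _).trans (Nat.add_le_add_left (card_union_le _ _) _))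
    have h5 : (S.card : ℝ) ≤ ((S.filter P).card : ℝ) + (((S.filter Q).card : ℝ) +
        ((S.filter fun j => ¬ P j ∧ ¬ Q j).card : ℝ)) := by exact_mod_cast h4
    linarith
  · have h3 := (mem_filter.1 hj).2
    rw [hP, hQ] at h3
    exact ⟨not_lt.1 h3.1, not_lt.1 h3.2⟩

/-- the first part is a good tip -/
lemma tip_cq {s : ℕ} {A Z : List Bool} {i : ℕ} (hi : i ∈ cq s Z) {T : ℝ} (hT : Ub s ≤ T)
    (h : T ≤ (((cq s Z).filter fun k => k ≤ i).card : ℝ)) : A ++ Z.take i ∈ GT s 1 := by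
  classical
  show 1 * Ub s ≤ ((cs s (A ++ Z.take i)).card : ℝ)
  rw [one_mul]
  refine (hT.trans h).trans ?_
  have hinj : Function.Injective fun k : ℕ => A.length + k := fun a b hab => Nat.add_left_cancel hab
  rw [← card_image_of_injective _ hinj]
  have hsub : ((cq s Z).filter fun k => k ≤ i).image (fun k => A.length + k) ⊆ cs s (A ++ Z.take i) := by
    intro x hx
    obtain ⟨k, hk, rfl⟩ := mem_image.1 hx
    obtain ⟨hk1, hk2⟩ := mem_filter.1 hk
    obtain ⟨hi1, hi2, hi3⟩ := mem_cq.1 hi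
    obtain ⟨hk3, hk4, hk5⟩ := mem_cq.1 hk1
    obtain ⟨P, M, R, b1, b2, b3, b4, b5, b6, b7, b8, b9, b10⟩ := Nf.cz_split hk3 hi1 hk2
    rw [b9] at hi2 hi3 ⊢
    rw [b7] at hk4 hk5
    rw [hgt_app b1 b2] at hi2 hi3
    have e1 : (A ++ (P ++ M)).drop (A.length + k) = M := by
      rw [← List.append_assoc]
      exact List.drop_left' (by rw [List.length_append]; omega)
    have e2 : (A ++ (P ++ M)).take (A.length + k) = A ++ P := by
      rw [← List.append_assoc]
      exact List.take_left' (by rw [List.length_append]; omega)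
    rw [mem_cs, e1, e2]
    have e3 : (2 : ℕ) ^ (s + 1) = 2 ^ s + 2 ^ s := by ring
    refine ⟨?_, b2, by omega, A, P, rfl, b1, hk4⟩
    rw [List.length_append, List.length_append]
    omega
  exact_mod_cast card_le_card hsub

/-- the second part has many splittings -/
lemma suf_cq {s j m : ℕ} {η : ℝ} {Z Y : List Bool} (hZ : hgt Z ≤ 2 ^ (j + 2)) (hSA : Z ++ Y ∈ SA)
    (hY : rev Y ∈ GT j η) (hYin : In (2 ^ (j + m)) Y) {i : ℕ} (hi : i ∈ cq s Z) {T : ℝ}
    (h : T ≤ (((cq s Z).filter fun k => i ≤ k).card : ℝ)) : Z.drop i ++ Y ∈ SS s j m η T := by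
  classical
  show T ≤ ((ct s j m η (Z.drop i ++ Y)).card : ℝ)
  refine h.trans ?_
  have hinj : Set.InjOn (fun k : ℕ => k - i) ((cq s Z).filter fun k => i ≤ k : Finset ℕ) := by
    intro a ha b hb hab
    have h1 := (mem_filter.1 (mem_coe.1 ha)).2
    have h2 := (mem_filter.1 (mem_coe.1 hb)).2
    simp only at hab
    omega
  rw [← card_image_of_injOn hinj]
  have hsub : ((cq s Z).filter fun k => i ≤ k).image (fun k => k - i) ⊆ ct s j m η (Z.drop i ++ Y) := by
    intro x hx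
    obtain ⟨k, hk, rfl⟩ := mem_image.1 hx
    obtain ⟨hk1, hk2⟩ := mem_filter.1 hk
    obtain ⟨hi1, hi2, hi3⟩ := mem_cq.1 hi
    obtain ⟨hk3, hk4, hk5⟩ := mem_cq.1 hk1
    obtain ⟨P, M, R, b1, b2, b3, b4, b5, b6, b7, b8, b9, b10⟩ := Nf.cz_split hi1 hk3 hk2
    rw [b7] at hi2 hi3
    rw [b9] at hk4 hk5
    rw [hgt_app b1 b2] at hk4 hk5
    have e1 : (Z.drop i ++ Y).take (k - i) = M := by
      rw [b8, List.append_assoc]
      exact List.take_left' (by omega)
    have e2 : (Z.drop i ++ Y).drop (k - i) = R ++ Y := by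
      rw [b8, List.append_assoc]
      exact List.drop_left' (by omega)
    have e3 : (2 : ℕ) ^ (s + 1) = 2 ^ s + 2 ^ s := by ring
    have e4 : hgt Z = hgt P + (hgt M + hgt R) := by rw [b4, hgt_app b1 (BU_app b2 b3), hgt_app b2 b3]
    rw [mem_ct, e1, e2]
    refine ⟨?_, ⟨b2, by omega⟩, ?_, R, Y, rfl, b3, by omega, hY, hYin⟩
    · rw [b8, List.length_append, List.length_append]
      omega
    · have h5 : (P ++ M) ++ (R ++ Y) ∈ SA := by
        have : (P ++ M) ++ (R ++ Y) = Z ++ Y := by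
          rw [b4]
          simp only [List.append_assoc]
        rwa [this]
      exact Nf.SA_suf h5
  exact_mod_cast card_le_card hsub

/-- **one scale** -/
theorem geo_one {s j m c c' : ℕ} {η T : ℝ} {A Z Y : List Bool} (hSA : A ++ (Z ++ Y) ∈ SA) (hYg : rev Y ∈ GT j η)
    (hYin : In (2 ^ (j + m)) Y) (hZ : hgt Z ≤ 2 ^ (j + 2)) (hZin : In (2 ^ (j + c)) Z)
    (hc : m + c + 3 ≤ c') (hT : Ub s ≤ T) (h : 3 * T ≤ ((cq s Z).card : ℝ)) :
    T ≤ (nD (2 ^ (j + c')) (rT s j m η T) (A ++ (Z ++ Y)) : ℝ) := by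
  classical
  have hU := Ub_pos s
  obtain ⟨N, hN1, hN2, hN3⟩ := mid_third (by linarith) h
  refine hN2.trans ?_
  rw [← card_image_of_injective N (f := fun k : ℕ => A.length + k) (fun a b hab => Nat.add_left_cancel hab)]
  have key : (N.image fun k : ℕ => A.length + k).card ≤ nD (2 ^ (j + c')) (rT s j m η T) (A ++ (Z ++ Y)) := by
    refine Nf.nD_ge fun x hx => ?_
    obtain ⟨i, hi, rfl⟩ := mem_image.1 hx
    obtain ⟨h1, h2⟩ := hN3 i hi
    have hiq := hN1 hi
    have hiz := (mem_cq.1 hiq).1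
    have hil := (Nf.mem_cz.1 hiz).1
    have e0 : A ++ (Z ++ Y) = (A ++ Z.take i) ++ (Z.drop i ++ Y) := by
      conv_lhs => rw [← List.take_append_drop i Z]
      simp only [List.append_assoc]
    have hl : (A ++ Z.take i).length = A.length + i := by
      rw [List.length_append, List.length_take]
      omega
    have e1 : (A ++ (Z ++ Y)).take (A.length + i) = A ++ Z.take i := by
      rw [e0]
      exact List.take_left' hl
    have e2 : (A ++ (Z ++ Y)).drop (A.length + i) = Z.drop i ++ Y := by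
      rw [e0]
      exact List.drop_left' hl
    rw [e1, e2]
    refine ⟨by rw [List.length_append, List.length_append]; omega, ⟨tip_cq hiq hT h1,
      suf_cq hZ (Nf.SA_suf hSA) hYg hYin hiq h2⟩, ?_⟩
    have g1 : In (4 * 2 ^ (j + c)) (Z.drop i) := QB.In_suf (A := Z.take i) (by rwa [List.take_append_drop])
    have g2 := QB.In_app g1 hYin
    refine Nf.in_mono g2 ?_
    have g3 : (2 : ℕ) ^ (j + c) ≤ 2 ^ (j + m + c) := Nat.pow_le_pow_right (by norm_num) (by omega)
    have g4 : (2 : ℕ) ^ (j + m) ≤ 2 ^ (j + m + c) := Nat.pow_le_pow_right (by norm_num) (by omega)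
    have g5 : (2 : ℕ) ^ (j + m + c + 3) ≤ 2 ^ (j + c') := Nat.pow_le_pow_right (by norm_num) (by omega)
    have g6 : (2 : ℕ) ^ (j + m + c + 3) = 8 * 2 ^ (j + m + c) := by ring
    omega
  exact_mod_cast key

end PMA

end HexObs
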