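import Pool.Agent.PMA.TrGeo
import Pool.Agent.ARM.T1
import Pool.Agent.TPC.XUp
import Pool.Agent.TPC.XLow

/-!
# PM / RM, row TrSt (helper70), part 2: masses and numbers

* `wdc` : double counting with weights;
* **`mSS`** : the words with many splittings, with the fourth moment of the length; `mSS_tail`;
* **`scale_ex`** : a bridge with more than `K * Ub j` cuts has a scale with many cuts;
* `Ub_up`, `Xb_up` : the ratios of the scales.
-/

set_option autoImplicit false

namespace HexObs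

namespace PMA

open Finset TS SDN HexObs.SIM NTA TIP ARM

open scoped ENNReal

open Classical in
/-- **double counting with weights** -/
theorem wdc {G P Q : Set (List Bool)} {f g h : List Bool → ℝ≥0∞} {c : ℝ≥0∞}
    (hfg : ∀ A B : List Bool, f (A ++ B) ≤ g A * h B)
    (hG : ∀ L ∈ G, ∃ S : Finset ℕ, c ≤ (S.card : ℝ≥0∞) ∧ ∀ k ∈ S, k ≤ L.length ∧ L.take k ∈ P ∧ L.drop k ∈ Q) :
    c * ∑' L : G, wE (L : List Bool) * f L ≤ (∑' A : P, wE (A : List Bool) * g A) * ∑' B : Q, wE (B : List Bool) * h B := by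
  have e1 : c * ∑' L : G, wE (L : List Bool) * f L ≤ ∑' L : List Bool, ∑' p : List Bool × List Bool,
      if p.1 ++ p.2 = L ∧ p.1 ∈ P ∧ p.2 ∈ Q then (wE p.1 * g p.1) * (wE p.2 * h p.2) else 0 := by
    rw [tsum_subtype G (fun L => wE L * f L), ← ENNReal.tsum_mul_left]
    refine ENNReal.tsum_le_tsum fun L => ?_
    by_cases hL : L ∈ G
    · obtain ⟨S, hS, hq⟩ := hG L hL
      rw [Set.indicator_of_mem hL]
      have hinj : Set.InjOn (fun q : ℕ => (L.take q, L.drop q)) (S : Set ℕ) := by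
        intro q hq1 q' hq2 he
        have h1 := congrArg (fun p : List Bool × List Bool => p.1.length) he
        simp only [List.length_take] at h1
        have := (hq q hq1).1
        have := (hq q' hq2).1
        omega
      calc c * (wE L * f L) ≤ (S.card : ℝ≥0∞) * (wE L * f L) := mul_le_mul' hS le_rfl
        _ = ∑ k ∈ S, wE L * f L := by rw [sum_const, nsmul_eq_mul]
        _ ≤ ∑ k ∈ S, (fun p : List Bool × List Bool =>
              if p.1 ++ p.2 = L ∧ p.1 ∈ P ∧ p.2 ∈ Q then (wE p.1 * g p.1) * (wE p.2 * h p.2) else 0) (L.take k, L.drop k) := by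
            refine sum_le_sum fun k hk => ?_
            show wE L * f L ≤ if L.take k ++ L.drop k = L ∧ L.take k ∈ P ∧ L.drop k ∈ Q then
              (wE (L.take k) * g (L.take k)) * (wE (L.drop k) * h (L.drop k)) else 0
            rw [if_pos ⟨List.take_append_drop k L, (hq k hk).2⟩]
            have h1 := hfg (L.take k) (L.drop k)
            rw [List.take_append_drop] at h1
            have h2 : wE L = wE (L.take k) * wE (L.drop k) := by rw [← wE_append, List.take_append_drop]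
            calc wE L * f L ≤ wE L * (g (L.take k) * h (L.drop k)) := mul_le_mul' le_rfl h1
              _ = _ := by rw [h2]; ring
        _ = ∑ p ∈ S.image (fun q : ℕ => (L.take q, L.drop q)), (fun p : List Bool × List Bool =>
              if p.1 ++ p.2 = L ∧ p.1 ∈ P ∧ p.2 ∈ Q then (wE p.1 * g p.1) * (wE p.2 * h p.2) else 0) p := by
            rw [sum_image hinj]
        _ ≤ _ := ENNReal.sum_le_tsum _
    · rw [Set.indicator_of_notMem hL, mul_zero]
      exact zero_le
  refine e1.trans ?_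
  rw [ENNReal.tsum_comm]
  have e2 : ∀ p : List Bool × List Bool, (∑' L : List Bool,
      if p.1 ++ p.2 = L ∧ p.1 ∈ P ∧ p.2 ∈ Q then (wE p.1 * g p.1) * (wE p.2 * h p.2) else 0) =
      P.indicator (fun A => wE A * g A) p.1 * Q.indicator (fun B => wE B * h B) p.2 := by
    intro p
    rw [tsum_eq_single (p.1 ++ p.2) (fun L hL => if_neg fun h => hL h.1.symm)]
    by_cases hp : p.1 ∈ P
    · by_cases hq : p.2 ∈ Q
      · rw [if_pos ⟨rfl, hp, hq⟩, Set.indicator_of_mem hp, Set.indicator_of_mem hq]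
      · rw [if_neg (fun h => hq h.2.2), Set.indicator_of_notMem hq, mul_zero]
    · rw [if_neg (fun h => hp h.2.1), Set.indicator_of_notMem hp, zero_mul]
  rw [tsum_congr e2, ENNReal.tsum_prod', tsum_subtype P (fun A => wE A * g A), tsum_subtype Q (fun B => wE B * h B)]
  have e3 : ∀ A : List Bool, ∑' B : List Bool, P.indicator (fun A => wE A * g A) (A, B).1 *
      Q.indicator (fun B => wE B * h B) (A, B).2 = P.indicator (fun A => wE A * g A) A *
        ∑' B : List Bool, Q.indicator (fun B => wE B * h B) B := by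
    intro A
    show ∑' B : List Bool, P.indicator (fun A => wE A * g A) A * Q.indicator (fun B => wE B * h B) B = _
    rw [ENNReal.tsum_mul_left]
  rw [tsum_congr e3, ENNReal.tsum_mul_right]

/-- the weight of the length -/
noncomputable def om (i : ℕ) (V : List Bool) : ℝ≥0∞ := ENNReal.ofReal ((1 + (V.length : ℝ) / ml i) ^ 4)

lemma om_app (i : ℕ) (A B : List Bool) : om i (A ++ B) ≤ om i A * om i B := by
  unfold om
  have hm := ml_pos i
  have h1 : (0 : ℝ) ≤ (A.length : ℝ) / ml i := by positivity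
  have h2 : (0 : ℝ) ≤ (B.length : ℝ) / ml i := by positivity
  rw [← ENNReal.ofReal_mul (by positivity), ← mul_pow]
  refine ENNReal.ofReal_le_ofReal (pow_le_pow_left₀ (by positivity) ?_ 4)
  rw [List.length_append]
  push_cast
  rw [add_div]
  nlinarith [mul_nonneg h1 h2]

lemma om_mono {s i : ℕ} (h : s ≤ i) (V : List Bool) : om i V ≤ om s V := by
  unfold om
  have hm := ml_pos s
  have hm' := ml_mono h
  refine ENNReal.ofReal_le_ofReal (pow_le_pow_left₀ (by have := ml_pos i; positivity) ?_ 4)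
  have : (V.length : ℝ) / ml i ≤ (V.length : ℝ) / ml s := div_le_div_of_nonneg_left (Nat.cast_nonneg _) hm hm'
  linarith

lemma om_one (i : ℕ) (V : List Bool) : om i V ≤ 256 * om (i + 1) V := by
  unfold om
  have h := mom_unit (w := V.length) (b := i) (J := 1) (q := 4)
  rw [show ((4 : ℝ) ^ 4) ^ 1 = 256 by norm_num] at h
  refine (ENNReal.ofReal_le_ofReal h).trans (le_of_eq ?_)
  rw [ENNReal.ofReal_mul (by norm_num)]
  congr 1
  simp

/-- bridges -/
lemma mLb : ∃ C : ℝ, 0 < C ∧ ∀ s i : ℕ, s ≤ i → ∑' Z : BM.Lb s, wE (Z : List Bool) * om i Z ≤ ENNReal.ofReal (C * Ub s) := by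
  obtain ⟨C, hC, h⟩ := buMom 4
  refine ⟨C, hC, fun s i hsi => le_trans (ENNReal.tsum_le_tsum fun Z => ?_) (h s)⟩
  refine mul_le_mul' le_rfl ((om_mono hsi _).trans ?_)
  unfold om
  refine ENNReal.ofReal_le_ofReal ?_
  have hm := ml_pos s
  have h1 : (0 : ℝ) ≤ ((TIW.hn (TIW.en (Z : List Bool)) : ℤ) : ℝ) := by exact_mod_cast TIW.hn_nonneg _
  have h2 : (1 : ℝ) ≤ (1 + ((TIW.hn (TIW.en (Z : List Bool)) : ℤ) : ℝ) / 2 ^ s) ^ 4 := one_le_pow₀ (by
    have : (0 : ℝ) ≤ ((TIW.hn (TIW.en (Z : List Bool)) : ℤ) : ℝ) / 2 ^ s := by positivity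
    linarith)
  have h3 : (0 : ℝ) ≤ (1 + ((Z : List Bool).length : ℝ) / ml s) ^ 4 := by positivity
  nlinarith

/-- words of `YY` -/
lemma mYY {η : ℝ} (hη : 0 < η) (m : ℕ) : ∃ C : ℝ, 0 < C ∧ ∀ j : ℕ,
    ∑' V : YY j m η, wE (V : List Bool) * om (j + 2) V ≤ ENNReal.ofReal (C * Ub j) * Xb j := by
  obtain ⟨C1, hC1, h1⟩ := mLb
  obtain ⟨C2, hC2, h2⟩ := yMassW (η / 2) (m + 2) 4 (by positivity)
  refine ⟨2 / η * (256 * (C1 * 8) * C2), by positivity, fun j => ?_⟩
  have hU := Ub_pos j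
  obtain ⟨Q, hQ⟩ : ∃ Q : Set (List Bool), Q = {Y | Y ∈ SA ∧ rev Y ∈ GT j (η / 2) ∧ In (2 ^ (j + (m + 2))) Y} := ⟨_, rfl⟩
  have h3 := wdc (G := YY j m η) (P := BM.Lb (j + 3)) (Q := Q) (f := om (j + 2)) (g := om (j + 2)) (h := om (j + 2))
    (c := ENNReal.ofReal (η / 2 * Ub j)) (om_app (j + 2)) ?_
  · have h4 : ∑' A : BM.Lb (j + 3), wE (A : List Bool) * om (j + 2) A ≤ 256 * ENNReal.ofReal (C1 * Ub (j + 3)) := by
      refine le_trans (ENNReal.tsum_le_tsum fun A => ?_) (le_trans (ENNReal.tsum_mul_left (a := 256)).le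
        (mul_le_mul' le_rfl (h1 (j + 3) (j + 3) le_rfl)))
      refine (mul_le_mul' le_rfl (om_one (j + 2) _)).trans (le_of_eq ?_)
      ring
    have h5 : ∑' B : Q, wE (B : List Bool) * om (j + 2) B ≤ ENNReal.ofReal (C2 * Ub j) * Xb j := by
      rw [hQ]
      refine le_trans (ENNReal.tsum_le_tsum fun B => ?_) (h2 j)
      exact mul_le_mul' le_rfl (om_mono (by omega) _)
    have h6 := h3.trans (mul_le_mul' h4 h5)
    have h7 : Ub (j + 3) ≤ 8 * Ub j := by
      have := Ub_steps j 3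
      norm_num at this
      exact this
    have h8 : ENNReal.ofReal (η / 2 * Ub j) * ∑' V : YY j m η, wE (V : List Bool) * om (j + 2) V ≤
        ENNReal.ofReal (η / 2 * Ub j) * (ENNReal.ofReal (2 / η * (256 * (C1 * 8) * C2) * Ub j) * Xb j) := by
      refine h6.trans ?_
      have e1 : (256 : ℝ≥0∞) = ENNReal.ofReal 256 := by simp
      rw [← mul_assoc, ← mul_assoc, e1, ← ENNReal.ofReal_mul (by norm_num), ← ENNReal.ofReal_mul (by have := Ub_pos (j + 3); positivity),
        ← ENNReal.ofReal_mul (by positivity)]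
      refine mul_le_mul' (ENNReal.ofReal_le_ofReal ?_) le_rfl
      have e2 : η / 2 * Ub j * (2 / η * (256 * (C1 * 8) * C2) * Ub j) = 256 * (C1 * (8 * Ub j)) * (C2 * Ub j) := by
        field_simp
      rw [e2]
      gcongr
    exact (ENNReal.mul_le_mul_iff_right (by
      rw [ne_eq, ENNReal.ofReal_eq_zero, not_le]
      positivity) ENNReal.ofReal_ne_top).1 h8
  · rintro V ⟨hSA, W, Y, rfl, hW, hWh, hY, hYin⟩
    obtain ⟨T, hT1, hT2, -⟩ := gt_cuts hη.le hY
    refine ⟨T.image fun k : ℕ => W.length + k, ?_, fun x hx => ?_⟩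
    · rw [card_image_of_injective T (f := fun k : ℕ => W.length + k) (fun a b hab => Nat.add_left_cancel hab),
        ← ENNReal.ofReal_natCast]
      exact ENNReal.ofReal_le_ofReal hT1
    · obtain ⟨k, hk, rfl⟩ := mem_image.1 hx
      obtain ⟨g1, g2, g3, g4⟩ := hT2 k hk
      have e1 : (W ++ Y).take (W.length + k) = W ++ Y.take k := by
        rw [List.take_append, List.take_of_length_le (by omega)]
        congr 2
        omega
      have e2 : (W ++ Y).drop (W.length + k) = Y.drop k := by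
        rw [List.drop_append, List.drop_of_length_le (by omega), List.nil_append]
        congr 1
        omega
      rw [e1, e2, hQ]
      have e3 : (2 : ℕ) ^ (j + 3) = 8 * 2 ^ j := by ring
      have e4 : (2 : ℕ) ^ (j + 2) = 4 * 2 ^ j := by ring
      have hY2 := Nf.SA_suf hSA
      refine ⟨by rw [List.length_append]; omega, ⟨BU_app hW g2, ?_⟩, ?_, g4, ?_⟩
      · rw [hgt_app hW g2]
        omega
      · rw [← List.take_append_drop k Y] at hY2
        exact Nf.SA_suf hY2
      · rw [← List.take_append_drop k Y] at hYin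
        refine Nf.in_mono (QB.In_suf hYin) (le_of_eq ?_)
        ring

/-- **words with many splittings** -/
theorem mSS {η : ℝ} (hη : 0 < η) (m : ℕ) : ∃ C : ℝ, 0 < C ∧ ∀ (s j : ℕ) (M : ℝ), s ≤ j + 2 → 0 < M →
    ∑' V : SS s j m η M, wE (V : List Bool) * om (j + 2) V ≤ ENNReal.ofReal (C * Ub s * Ub j / M) * Xb j := by
  obtain ⟨C1, hC1, h1⟩ := mLb
  obtain ⟨C2, hC2, h2⟩ := mYY hη m
  refine ⟨C1 * C2, by positivity, fun s j M hs hM => ?_⟩
  have hU := Ub_pos j
  have hUs := Ub_pos s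
  have h3 := wdc (G := SS s j m η M) (P := BM.Lb s) (Q := YY j m η) (f := om (j + 2)) (g := om (j + 2)) (h := om (j + 2))
    (c := ENNReal.ofReal M) (om_app (j + 2)) (fun V hV => ⟨ct s j m η V, ?_, fun k hk => mem_ct.1 hk⟩)
  · have h4 := h3.trans (mul_le_mul' (h1 s (j + 2) hs) (h2 j))
    have h5 : ENNReal.ofReal M * ∑' V : SS s j m η M, wE (V : List Bool) * om (j + 2) V ≤
        ENNReal.ofReal M * (ENNReal.ofReal (C1 * C2 * Ub s * Ub j / M) * Xb j) := by
      refine h4.trans (le_of_eq ?_)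
      rw [← mul_assoc, ← mul_assoc, ← ENNReal.ofReal_mul (by positivity), ← ENNReal.ofReal_mul hM.le]
      congr 2
      field_simp
    exact (ENNReal.mul_le_mul_iff_right (by
      rw [ne_eq, ENNReal.ofReal_eq_zero, not_le]
      exact hM) ENNReal.ofReal_ne_top).1 h5
  · rw [← ENNReal.ofReal_natCast]
    exact ENNReal.ofReal_le_ofReal hV

/-- **the same with the weight of a missing length** -/
theorem mSS_tail {η : ℝ} (hη : 0 < η) (m : ℕ) : ∃ C : ℝ, 0 < C ∧ ∀ (s j : ℕ) (M : ℝ) (n a : ℕ), s ≤ j + 2 → 0 < M →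
    gf {V | V ∈ SS s j m η M ∧ n - a ≤ V.length} ≤
      ENNReal.ofReal (C * Ub s * Ub j / M) * Xb j * ENNReal.ofReal (ARM.wt n a (j + 2)) := by
  obtain ⟨C, hC, h⟩ := mSS hη m
  refine ⟨C, hC, fun s j M n a hs hM => ?_⟩
  have hm := ml_pos (j + 2)
  obtain ⟨y, hy⟩ : ∃ y : ℕ, y = n - a := ⟨_, rfl⟩
  have hw : ARM.wt n a (j + 2) = ((1 + (y : ℝ) / ml (j + 2)) ^ 4)⁻¹ := by
    unfold ARM.wt
    rw [← hy, Real.rpow_neg (by positivity)]
    congr 1
    exact_mod_cast Real.rpow_natCast _ 4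
  have hpos : (0 : ℝ) < (1 + (y : ℝ) / ml (j + 2)) ^ 4 := by positivity
  rw [hw]
  refine le_trans ?_ (mul_le_mul' (h s j M hs hM) le_rfl)
  rw [← ENNReal.tsum_mul_right, ← hy, gf_ind, tsum_subtype (SS s j m η M) (fun V => wE V * om (j + 2) V *
    ENNReal.ofReal ((1 + (y : ℝ) / ml (j + 2)) ^ 4)⁻¹)]
  refine ENNReal.tsum_le_tsum fun V => ?_
  by_cases hV : V ∈ {V | V ∈ SS s j m η M ∧ y ≤ V.length}
  · rw [if_pos hV, Set.indicator_of_mem hV.1]
    have h1 : 1 ≤ om (j + 2) V * ENNReal.ofReal ((1 + (y : ℝ) / ml (j + 2)) ^ 4)⁻¹ := by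
      unfold om
      rw [← ENNReal.ofReal_mul (by positivity), ← ENNReal.ofReal_one]
      refine ENNReal.ofReal_le_ofReal ?_
      rw [← div_eq_mul_inv, le_div_iff₀ hpos, one_mul]
      refine pow_le_pow_left₀ (by positivity) ?_ 4
      have h2 : (y : ℝ) ≤ V.length := by exact_mod_cast hV.2
      have h3 : (y : ℝ) / ml (j + 2) ≤ (V.length : ℝ) / ml (j + 2) := by gcongr
      linarith
    calc wE V = wE V * 1 := (mul_one _).symm
      _ ≤ wE V * (om (j + 2) V * ENNReal.ofReal ((1 + (y : ℝ) / ml (j + 2)) ^ 4)⁻¹) := mul_le_mul' le_rfl h1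
      _ = _ := (mul_assoc _ _ _).symm
  · rw [if_neg hV]
    exact zero_le

end PMA

end HexObs
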