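import Pool.Agent.PMA.TrMass

/-!
# PM / RM, row TrSt (helper70), part 3: numbers

* `Ub_rat`, `Xb_rat` : the ratios of the scales;
* **`scale_ex`** : a bridge of height at most `2 ^ (j + 2)` with more than `K * Ub j` cuts has a scale with many cuts;
* `num_one`, `num_kap` : the number at one scale, the final sum.
-/

set_option autoImplicit false

namespace HexObs

namespace PMA

open Finset TS SDN HexObs.SIM NTA TIP ARM

open scoped ENNReal

/-- `2 ^ x` -/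
noncomputable def tw (x : ℝ) : ℝ := (2 : ℝ) ^ x

lemma tw_pos (x : ℝ) : 0 < tw x := by unfold tw; positivity

lemma tw_add (x y : ℝ) : tw (x + y) = tw x * tw y := Real.rpow_add (by norm_num) x y

lemma tw_pow (x : ℝ) (d : ℕ) : tw (x * d) = tw x ^ d := by
  unfold tw
  rw [Real.rpow_mul (by norm_num), Real.rpow_natCast]

lemma one_le_tw {x : ℝ} (h : 0 ≤ x) : 1 ≤ tw x := Real.one_le_rpow (by norm_num) h

/-- the ratio of the masses of the bridges -/
lemma Ub_rat : ∃ C : ℝ, 1 ≤ C ∧ ∀ s d : ℕ, Ub (s + d) ≤ C * tw (3 / 4 * d) * Ub s ∧ tw (3 / 4 * d) * Ub s ≤ C * Ub (s + d) := by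
  obtain ⟨C1, hC1, h1⟩ := NTA.C1.Ub_low34
  obtain ⟨C2, hC2, h2⟩ := NTA.C1.Ub_up34
  have e : ∀ k : ℕ, (2 : ℝ) ^ k * (2 : ℝ) ^ (-((k : ℝ) / 4)) = tw (3 / 4 * k) := by
    intro k
    unfold tw
    rw [← Real.rpow_natCast, ← Real.rpow_add (by norm_num)]
    congr 1
    ring
  have ea : ∀ s d : ℕ, tw (3 / 4 * ((s + d : ℕ) : ℝ)) = tw (3 / 4 * s) * tw (3 / 4 * d) := by
    intro s d
    rw [← tw_add]
    congr 1
    push_cast
    ring
  refine ⟨C1 * C2, by nlinarith, fun s d => ⟨?_, ?_⟩⟩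
  · have h3 := h2 (s + d)
    have h4 := h1 s
    rw [e, ea] at h3
    rw [e] at h4
    have hd := tw_pos (3 / 4 * d)
    calc Ub (s + d) ≤ C2 * (tw (3 / 4 * s) * tw (3 / 4 * d)) := h3
      _ ≤ C2 * ((C1 * Ub s) * tw (3 / 4 * d)) := by gcongr
      _ = _ := by ring
  · have h3 := h1 (s + d)
    have h4 := h2 s
    rw [e, ea] at h3
    rw [e] at h4
    have hd := tw_pos (3 / 4 * d)
    calc tw (3 / 4 * d) * Ub s ≤ tw (3 / 4 * d) * (C2 * tw (3 / 4 * s)) := by gcongr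
      _ = C2 * (tw (3 / 4 * s) * tw (3 / 4 * d)) := by ring
      _ ≤ C2 * (C1 * Ub (s + d)) := by gcongr
      _ = _ := by ring

/-- the ratio of the masses of the tips -/
lemma Xb_rat : ∃ C : ℝ, 1 ≤ C ∧ ∀ s d : ℕ, Xb (s + d) ≤ ENNReal.ofReal (C * tw (25 / 48 * d)) * Xb s := by
  obtain ⟨C1, hC1, h1⟩ := TPC.xUp
  obtain ⟨c, hc, h2⟩ := TPC.xLow
  refine ⟨Real.sqrt (C1 / c) + 1, by have := Real.sqrt_nonneg (C1 / c); linarith, fun s d => ?_⟩
  have hsq : 0 ≤ Real.sqrt (C1 / c) := Real.sqrt_nonneg _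
  have ht := tw_pos (25 / 48 * d)
  have h3 : Xb (s + d) ^ 2 ≤ (ENNReal.ofReal (Real.sqrt (C1 / c) * tw (25 / 48 * d)) * Xb s) ^ 2 := by
    rw [mul_pow, ← ENNReal.ofReal_pow (by positivity)]
    refine (h1 (s + d)).trans ?_
    refine le_trans (le_of_eq ?_) (mul_le_mul' le_rfl (h2 s))
    rw [← ENNReal.ofReal_mul (by positivity), mul_pow, Real.sq_sqrt (by positivity)]
    congr 1
    have e1 : (2 : ℝ) ^ (25 / 24 * ((s + d : ℕ) : ℝ)) = tw (25 / 48 * d) ^ 2 * 2 ^ (25 / 24 * (s : ℝ)) := by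
      rw [← tw_pow]
      unfold tw
      rw [← Real.rpow_add (by norm_num)]
      congr 1
      push_cast
      ring
    rw [e1]
    field_simp
  have h4 : Xb (s + d) ≤ ENNReal.ofReal (Real.sqrt (C1 / c) * tw (25 / 48 * d)) * Xb s := by
    by_contra h5
    exact absurd h3 (not_le.2 (ENNReal.pow_lt_pow_left (by norm_num) (not_le.1 h5)))
  refine h4.trans (mul_le_mul' (ENNReal.ofReal_le_ofReal ?_) le_rfl)
  nlinarith

/-- the number of the cuts which is needed at the scale `s`, `s + d = j + 2` -/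
noncomputable def Mc (κ : ℝ) (s d : ℕ) : ℝ := κ * tw (11 / 16 * d) * Ub s

lemma Mc_pos {κ : ℝ} (hκ : 0 < κ) (s d : ℕ) : 0 < Mc κ s d := by
  have := Ub_pos s
  have := tw_pos (11 / 16 * d)
  unfold Mc
  positivity

lemma Ub_le_Mc {κ : ℝ} (hκ : 1 ≤ κ) (s d : ℕ) : Ub s ≤ Mc κ s d := by
  have h1 := Ub_pos s
  have h2 := one_le_tw (x := 11 / 16 * d) (by positivity)
  unfold Mc
  have h3 : 1 ≤ κ * tw (11 / 16 * d) := by nlinarith
  nlinarith

open Classical in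
lemma cz_cover {Z : List Bool} {j : ℕ} (hh : hgt Z ≤ 2 ^ j) :
    Nf.cz Z ⊆ {0} ∪ (range (j + 1)).biUnion fun s => cq s Z := by
  intro i hi
  rw [mem_union, mem_singleton, mem_biUnion]
  obtain ⟨h1, h2, h3⟩ := Nf.mem_cz.1 hi
  rcases Nat.eq_zero_or_pos (hgt (Z.take i)) with h0 | h0
  · left
    have h4 := LC.hgt_zero h2 h0
    rcases Nat.eq_zero_or_pos i with h5 | h5
    · exact h5
    · have h6 := congrArg List.length h4
      rw [List.length_take, List.length_nil] at h6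
      omega
  · right
    refine ⟨Nat.log 2 (hgt (Z.take i)), ?_, mem_cq.2 ⟨hi, Nat.pow_log_le_self 2 (by omega), Nat.lt_pow_succ_log_self (by norm_num) _⟩⟩
    rw [mem_range]
    have h4 : hgt (Z.take i) ≤ 2 ^ j := by
      have e : hgt Z = hgt (Z.take i) + hgt (Z.drop i) := by rw [← hgt_app h2 h3, List.take_append_drop]
      omega
    have h5 := Nat.log_mono_right (b := 2) h4
    rw [Nat.log_pow (by norm_num)] at h5
    omega

/-- **a scale with many cuts** -/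
theorem scale_ex {κ : ℝ} (hκ : 1 ≤ κ) : ∃ K : ℝ, 0 < K ∧ ∀ (j : ℕ) (Z : List Bool), Z ∈ BU → hgt Z ≤ 2 ^ (j + 2) →
    K * Ub j < (nc Z : ℝ) → ∃ s d : ℕ, s + d = j + 2 ∧ 3 * Mc κ s d ≤ ((cq s Z).card : ℝ) := by
  classical
  obtain ⟨C, hC, hU⟩ := Ub_rat
  obtain ⟨r, hr⟩ : ∃ r : ℝ, r = tw (-(1 / 16)) := ⟨_, rfl⟩
  have hr0 : 0 < r := by rw [hr]; exact tw_pos _
  have hr1 : r < 1 := by
    rw [hr]
    unfold tw
    exact Real.rpow_lt_one_of_one_lt_of_neg (by norm_num) (by norm_num)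
  have hs : 0 < (1 - r)⁻¹ := inv_pos.2 (by linarith)
  refine ⟨1 + 3 * κ * (C * 4) * (1 - r)⁻¹, by positivity, fun j Z hZ hh hK => ?_⟩
  by_contra hcon
  push Not at hcon
  have hUj := Ub_pos j
  have h1 := card_le_card (cz_cover hh)
  have h2 : (nc Z : ℝ) ≤ 1 + ∑ s ∈ range (j + 3), ((cq s Z).card : ℝ) := by
    have h3 : nc Z ≤ 1 + ∑ s ∈ range (j + 3), (cq s Z).card := by
      rw [Nf.nc_cz]
      refine h1.trans ((card_union_le _ _).trans ?_)
      rw [card_singleton]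
      exact Nat.add_le_add_left card_biUnion_le _
    exact_mod_cast h3
  have h3 : ∑ s ∈ range (j + 3), ((cq s Z).card : ℝ) ≤ ∑ d ∈ range (j + 3), 3 * κ * (C * 4) * Ub j * r ^ d := by
    rw [← sum_range_reflect]
    refine sum_le_sum fun d hd => ?_
    rw [mem_range] at hd
    have e1 : j + 3 - 1 - d + d = j + 2 := by omega
    have h4 := (hcon _ d e1).le
    refine h4.trans ?_
    have h5 := (hU (j + 3 - 1 - d) d).2
    rw [e1] at h5
    have h6 : Ub (j + 2) ≤ 4 * Ub j := by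
      have := Ub_steps j 2
      norm_num at this
      exact this
    have h7 : tw (11 / 16 * d) = r ^ d * tw (3 / 4 * d) := by
      rw [hr, ← tw_pow, ← tw_add]
      congr 1
      ring
    unfold Mc
    rw [h7]
    calc 3 * (κ * (r ^ d * tw (3 / 4 * d)) * Ub (j + 3 - 1 - d)) = 3 * κ * r ^ d * (tw (3 / 4 * d) * Ub (j + 3 - 1 - d)) := by ring
      _ ≤ 3 * κ * r ^ d * (C * (4 * Ub j)) := by
          refine mul_le_mul_of_nonneg_left (h5.trans ?_) (by positivity)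
          gcongr
      _ = _ := by ring
  have h4 : ∑ d ∈ range (j + 3), 3 * κ * (C * 4) * Ub j * r ^ d ≤ 3 * κ * (C * 4) * Ub j * (1 - r)⁻¹ := by
    rw [← mul_sum]
    refine mul_le_mul_of_nonneg_left ?_ (by positivity)
    rw [← tsum_geometric_of_lt_one hr0.le hr1]
    exact (summable_geometric_of_lt_one hr0.le hr1).sum_le_tsum _ fun i _ => by positivity
  have h5 : (1 : ℝ) ≤ Ub j := one_le_Ub j
  have h6 : (1 + 3 * κ * (C * 4) * (1 - r)⁻¹) * Ub j = Ub j + 3 * κ * (C * 4) * Ub j * (1 - r)⁻¹ := by ring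
  rw [h6] at hK
  linarith

/-- **the number at one scale** -/
lemma num_one {C1 C2 C3 C4 κ D P P' e w : ℝ} {s d : ℕ} (h1 : 0 < C1) (h2 : 0 < C2) (h3 : 0 < C3) (h4 : 0 < C4) (hκ : 0 < κ)
    (hD : 0 ≤ D) (hP0 : 0 ≤ P) (hP : P' ≤ 256 * P) (hw0 : 0 ≤ w) (hw : w ≤ C4 * tw (3 / 4 * d) * Ub s) (he : e = tw (25 / 48 * d)) :
    C1 * D * P' * (C2 * Ub s * w / Mc κ s d) * (C3 * e) / Mc κ s d ≤
      256 * C1 * C2 * C3 * C4 / κ ^ 2 * (D * P) * tw (-(5 / 48)) ^ d := by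
  have hu := Ub_pos s
  have ha := tw_pos (11 / 16 * d)
  have hb := tw_pos (3 / 4 * d)
  have hc := tw_pos (25 / 48 * d)
  have hr : tw (-(5 / 48)) ^ d * tw (11 / 16 * d) ^ 2 = tw (3 / 4 * d) * tw (25 / 48 * d) := by
    rw [← tw_pow, ← tw_pow, ← tw_add, ← tw_add]
    congr 1
    push_cast
    ring
  have hr' : tw (3 / 4 * d) * tw (25 / 48 * d) / tw (11 / 16 * d) ^ 2 = tw (-(5 / 48)) ^ d := by
    rw [div_eq_iff (by positivity)]
    exact hr.symm
  rw [← hr', he]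
  unfold Mc
  have e1 : C1 * D * P' * (C2 * Ub s * w / (κ * tw (11 / 16 * d) * Ub s)) * (C3 * tw (25 / 48 * d)) /
      (κ * tw (11 / 16 * d) * Ub s) =
      C1 * C2 * C3 * D * tw (25 / 48 * d) / (κ ^ 2 * tw (11 / 16 * d) ^ 2 * Ub s) * (P' * w) := by
    field_simp
  have e2 : 256 * C1 * C2 * C3 * C4 / κ ^ 2 * (D * P) * (tw (3 / 4 * d) * tw (25 / 48 * d) / tw (11 / 16 * d) ^ 2) =
      C1 * C2 * C3 * D * tw (25 / 48 * d) / (κ ^ 2 * tw (11 / 16 * d) ^ 2 * Ub s) *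
        ((256 * P) * (C4 * tw (3 / 4 * d) * Ub s)) := by
    field_simp
  rw [e1, e2]
  refine mul_le_mul_of_nonneg_left ?_ (by positivity)
  exact mul_le_mul hP hw hw0 (by positivity)

end PMA

end HexObs
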