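import Pool.Agent.PMA.AsmB
import Pool.Agent.TPC.XUp
import Pool.Agent.TPC.AnO
import Pool.Agent.POL.Fin

/-!
# (PM), row TrSt: the end (helper41)

* `dd_spl`: the density from the number of the splittings, the weight of the tips and the mass of the fillings;
* `dd_cy`: `DD P K * gf (Cy N) ≤ Λ * gf (GW P)`.
-/

set_option autoImplicit false

namespace HexObs

namespace PMA

open Finset TS SDN NTA TIP ARM ARM.G3

open scoped ENNReal

variable {P : Par}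

/-- the splittings which count -/
def Spn (P : Par) (K : List Bool) : Set (List Bool × List Bool × List Bool) := {p | p ∈ Spl P K ∧ th P p.1.length p.2.1 ≠ 0}

/-- **the density from the number of the splittings** -/
theorem dd_spl {K : List Bool} {C1 C2 cf : ℝ} (hC1 : 0 < C1) (hC2 : 0 < C2) (hcf : 0 < cf)
    (hth : ∀ (q : ℕ) (M : List Bool), th P q M ≤ ENNReal.ofReal C1 * Xb P.j ^ 2) (hfin : (Spn P K).Finite)
    (hcard : ((Spn P K).ncard : ℝ) ≤ C2 * Ub P.j ^ 2) (ha0 : 0 < P.a0) (h2 : 2 ≤ P.a0 * ml P.j)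
    (hcnt : ∀ l q : ℕ, 2 ≤ l → l ≤ 4 * cnt l q)
    (hfil : ∀ M : List Bool, Out P M → ENNReal.ofReal (cf * (Ub P.j / (4 ^ P.j * ml P.j))) ≤ gf (Fil P M)) :
    DD P K ≤ ENNReal.ofReal (4 * C1 * C2 / (P.a0 * cf) * (4 ^ P.j * Ub P.j)) * Xb P.j ^ 2 := by
  classical
  have hU : 0 < Ub P.j := Num2Aux.UU_pos _
  have hm := ARM.ml_pos P.j
  obtain ⟨g, hg⟩ : ∃ g : List Bool × List Bool × List Bool → ℝ≥0∞, g = fun p => th P p.1.length p.2.1 /
    ((cnt (p.2.2 ++ p.1).length p.1.length : ℝ≥0∞) * gf (Fil P p.2.1)) := ⟨_, rfl⟩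
  obtain ⟨B, hB⟩ : ∃ B : ℝ≥0∞, B = ENNReal.ofReal (4 * C1 * 4 ^ P.j / (P.a0 * cf * Ub P.j)) * Xb P.j ^ 2 := ⟨_, rfl⟩
  have hgB : ∀ p ∈ Spl P K, g p ≤ B := by
    intro p hp
    obtain ⟨-, -, hQ, hO⟩ := hp
    have h3 : p.2.1.length + (p.2.2 ++ p.1).length = P.N := hQ.2.1
    have h4 := hO.2.1
    have h5 : ((p.2.1.length + (p.2.2 ++ p.1).length : ℕ) : ℝ) = P.N := by exact_mod_cast h3
    obtain ⟨l, hl⟩ : ∃ l, l = (p.2.2 ++ p.1).length := ⟨_, rfl⟩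
    rw [← hl] at h5
    push_cast at h5
    have h6 : P.a0 * ml P.j ≤ l := by linarith
    have h7 : 2 ≤ l := by
      have : (2 : ℝ) ≤ l := by linarith
      exact_mod_cast this
    have h8 := hcnt l p.1.length h7
    have h9 : (l : ℝ) ≤ 4 * cnt l p.1.length := by exact_mod_cast h8
    have h10 : ENNReal.ofReal (P.a0 * ml P.j / 4) ≤ (cnt l p.1.length : ℝ≥0∞) := by
      rw [← ENNReal.ofReal_natCast]
      exact ENNReal.ofReal_le_ofReal (by linarith)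
    rw [hg]
    beta_reduce
    rw [← hl]
    refine (ENNReal.div_le_div (hth _ _) (mul_le_mul' h10 (hfil _ hO))).trans (le_of_eq ?_)
    rw [hB, ← ENNReal.ofReal_mul (by positivity), ENNReal.div_eq_inv_mul, ← mul_assoc, ← ENNReal.ofReal_inv_of_pos (by positivity),
      ← ENNReal.ofReal_mul (by positivity)]
    congr 2
    field_simp
  have e1 : DD P K = ∑' p : List Bool × List Bool × List Bool, (Spl P K).indicator g p := by
    rw [← _root_.tsum_subtype, hg]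
    rfl
  have e2 : ∀ p, p ∉ hfin.toFinset → (Spl P K).indicator g p = 0 := by
    intro p hp
    by_cases h3 : p ∈ Spl P K
    · rw [Set.indicator_of_mem h3]
      have h4 : th P p.1.length p.2.1 = 0 := by
        by_contra h5
        exact hp (hfin.mem_toFinset.2 ⟨h3, h5⟩)
      rw [hg]
      beta_reduce
      rw [h4, ENNReal.zero_div]
    · exact Set.indicator_of_notMem h3 _
  rw [e1, tsum_eq_sum (s := hfin.toFinset) fun p hp => e2 p hp]
  have e3 : ∑ p ∈ hfin.toFinset, (Spl P K).indicator g p ≤ ((Spn P K).ncard : ℝ≥0∞) * B := by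
    have h3 : ∑ p ∈ hfin.toFinset, (Spl P K).indicator g p ≤ ∑ _p ∈ hfin.toFinset, B := by
      refine sum_le_sum fun p hp => ?_
      have h4 := (hfin.mem_toFinset.1 hp).1
      rw [Set.indicator_of_mem h4]
      exact hgB p h4
    rw [sum_const, nsmul_eq_mul, ← Set.ncard_eq_toFinset_card _ hfin] at h3
    exact h3
  refine e3.trans ?_
  have e4 : ((Spn P K).ncard : ℝ≥0∞) ≤ ENNReal.ofReal (C2 * Ub P.j ^ 2) := by
    rw [← ENNReal.ofReal_natCast]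
    exact ENNReal.ofReal_le_ofReal hcard
  refine (mul_le_mul' e4 le_rfl).trans (le_of_eq ?_)
  rw [hB, ← mul_assoc, ← ENNReal.ofReal_mul (by positivity)]
  congr 2
  field_simp

/-- the predicted mass for long words -/
lemma pr_long {n j : ℕ} (h : ml j ≤ n) : pr n j = (2 : ℝ) ^ ((91 / 24 : ℝ) * (j : ℝ)) * (n : ℝ) ^ (-(3 / 2) : ℝ) := by
  have hm := ARM.ml_pos j
  have hn : (0 : ℝ) < n := by linarith
  unfold pr
  rw [max_eq_left h, Real.div_rpow hm.le hn.le, div_eq_mul_inv (ml j ^ (3 / 2 : ℝ)), ← Real.rpow_neg hn.le, ← mul_assoc]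
  congr 1
  unfold ml
  rw [← Real.rpow_mul (by norm_num), ← Real.rpow_add (by norm_num)]
  congr 1
  ring

/-- **the bounded density** -/
theorem dd_cy {C1 C2 cf c1 a0 : ℝ} (hC1 : 0 < C1) (hC2 : 0 < C2) (hcf : 0 < cf) (hc1 : 0 < c1) (ha0 : 0 < a0) : ∃ Λ : ℝ, 0 < Λ ∧
    ∀ (P : Par) (n : ℕ), P.a0 = a0 → 2 ≤ P.a0 * ml P.j → ml P.j ≤ n → n ≤ P.N →
    (∀ (q : ℕ) (M : List Bool), th P q M ≤ ENNReal.ofReal C1 * Xb P.j ^ 2) → (∀ l q : ℕ, 2 ≤ l → l ≤ 4 * cnt l q) →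
    (∀ M : List Bool, Out P M → ENNReal.ofReal (cf * (Ub P.j / (4 ^ P.j * ml P.j))) ≤ gf (Fil P M)) →
    ENNReal.ofReal (c1 * pr n P.j) ≤ gf (GW P) → ∀ K : List Bool, (Spn P K).Finite →
      ((Spn P K).ncard : ℝ) ≤ C2 * Ub P.j ^ 2 → DD P K * gf (POL.Cy P.N) ≤ ENNReal.ofReal Λ * gf (GW P) := by
  obtain ⟨CP, hCP, hP1⟩ := POL.P1
  obtain ⟨CX, hCX, hX⟩ := TPC.xUp
  obtain ⟨cU, CU, -, hCU, hU⟩ := TPC.An.Ub_two
  obtain ⟨Q, hQ⟩ : ∃ Q : ℝ, Q = 4 * C1 * C2 / (a0 * cf) := ⟨_, rfl⟩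
  have hQ0 : 0 < Q := by
    rw [hQ]
    positivity
  refine ⟨Q * CU * CX * CP / c1, by positivity, fun P n ea0 h2 hn hN hth hcnt hfil hgw K hfin hcard => ?_⟩
  have hm := ARM.ml_pos P.j
  have hn0 : (0 : ℝ) < n := by linarith
  have hn1 : 1 ≤ n := by
    have : 0 < n := by exact_mod_cast hn0
    omega
  have h3 := dd_spl hC1 hC2 hcf hth hfin hcard (ea0 ▸ ha0) h2 hcnt hfil
  rw [ea0, ← hQ] at h3
  have h4 : DD P K ≤ ENNReal.ofReal (Q * CU * CX * (2 : ℝ) ^ ((91 / 24 : ℝ) * (P.j : ℝ))) := by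
    refine h3.trans ((mul_le_mul' (ENNReal.ofReal_le_ofReal (mul_le_mul_of_nonneg_left (mul_le_mul_of_nonneg_left (hU P.j).2
      (by positivity)) hQ0.le)) (hX P.j)).trans ?_)
    rw [← ENNReal.ofReal_mul (by positivity)]
    refine ENNReal.ofReal_le_ofReal (le_of_eq ?_)
    have e1 : (4 : ℝ) ^ P.j = (2 : ℝ) ^ (2 * (P.j : ℝ)) := by
      rw [Real.rpow_mul (by norm_num), Real.rpow_natCast]
      norm_num
    have e2 : (2 : ℝ) ^ ((91 / 24 : ℝ) * (P.j : ℝ)) = (2 : ℝ) ^ (2 * (P.j : ℝ)) * (2 : ℝ) ^ (3 / 4 * (P.j : ℝ)) *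
        (2 : ℝ) ^ (25 / 24 * (P.j : ℝ)) := by
      rw [← Real.rpow_add (by norm_num), ← Real.rpow_add (by norm_num)]
      congr 1
      ring
    rw [e1, e2]
    ring
  have h5 : gf (POL.Cy P.N) ≤ ENNReal.ofReal (CP * (n : ℝ) ^ (-(3 / 2) : ℝ)) := by
    refine (hP1 P.N (by omega)).trans (ENNReal.ofReal_le_ofReal (mul_le_mul_of_nonneg_left ?_ hCP.le))
    exact Real.rpow_le_rpow_of_nonpos hn0 (by exact_mod_cast hN) (by norm_num)
  calc DD P K * gf (POL.Cy P.N) ≤ ENNReal.ofReal (Q * CU * CX * (2 : ℝ) ^ ((91 / 24 : ℝ) * (P.j : ℝ))) *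
        ENNReal.ofReal (CP * (n : ℝ) ^ (-(3 / 2) : ℝ)) := mul_le_mul' h4 h5
    _ = ENNReal.ofReal (Q * CU * CX * CP / c1) * ENNReal.ofReal (c1 * pr n P.j) := by
        rw [← ENNReal.ofReal_mul (by positivity), ← ENNReal.ofReal_mul (by positivity), pr_long hn]
        congr 1
        field_simp
    _ ≤ _ := mul_le_mul' le_rfl hgw

end PMA

end HexObs
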